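import Pool.Agent.Lib.MP_1ad228_ntZ.Defs

/-!
LEAF Tw.  The groups `H c` and the twists.  Everything follows from `mem_H`, the injectivity of
`algebraMap P K` and `algebraMap O K` (`IsFractionRing.injective`) and `s <> 0` (from `T.ts`).
`tw_ev`: expand `ev G x = sum over s of G s * prod_k x (s k)` (as in ntN/NB_Em.lean, ev_bound).
-/

namespace Pool.Agent.Lib.MP_1ad228_ntZ

open Classical

namespace TC
variable {K O P : Type} [Field K] [CommRing O] [IsDedekindDomain O] [Algebra O K]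
  [IsFractionRing O K] [CommRing P] [IsDedekindDomain P] [Algebra P K]
  [IsFractionRing P K] (T : TC K O P)

theorem mem_H {c : ℕ} {z : O} : z ∈ T.H c ↔
    ∃ p : P, algebraMap P K p = algebraMap P K T.s ^ c * algebraMap O K z := by
  unfold H
  rw [Set.Finite.mem_toFinset]
  rfl

theorem s_ne : algebraMap P K T.s ≠ 0 := by
  intro h
  have h1 := T.ts
  rw [h, mul_zero] at h1
  exact zero_ne_one h1

theorem s_ne' : T.s ≠ 0 := by
  intro h
  apply T.s_ne
  rw [h, map_zero]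

theorem tw_spec {c : ℕ} {z : O} (hz : z ∈ T.H c) :
    algebraMap P K (T.tw c z) = algebraMap P K T.s ^ c * algebraMap O K z := by
  have h := T.mem_H.1 hz
  unfold tw
  rw [dif_pos h]
  exact h.choose_spec

theorem tw_eq {c : ℕ} {z : O} {p : P}
    (h : algebraMap P K p = algebraMap P K T.s ^ c * algebraMap O K z) :
    z ∈ T.H c ∧ T.tw c z = p := by
  have hz : z ∈ T.H c := T.mem_H.2 ⟨p, h⟩
  refine ⟨hz, ?_⟩
  apply IsFractionRing.injective P K
  rw [T.tw_spec hz, h]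

theorem zero_mem_H (c : ℕ) : (0 : O) ∈ T.H c := by
  exact T.mem_H.2 ⟨0, by rw [map_zero, map_zero, mul_zero]⟩

theorem tw_zero (c : ℕ) : T.tw c 0 = 0 := by
  exact (T.tw_eq (c := c) (z := 0) (p := 0) (by rw [map_zero, map_zero, mul_zero])).2

theorem add_mem_H {c : ℕ} {z w : O} (hz : z ∈ T.H c) (hw : w ∈ T.H c) : z + w ∈ T.H c := by
  refine (T.tw_eq (p := T.tw c z + T.tw c w) ?_).1
  rw [map_add, map_add, T.tw_spec hz, T.tw_spec hw]
  ring

theorem tw_add {c : ℕ} {z w : O} (hz : z ∈ T.H c) (hw : w ∈ T.H c) :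
    T.tw c (z + w) = T.tw c z + T.tw c w := by
  refine (T.tw_eq (p := T.tw c z + T.tw c w) ?_).2
  rw [map_add, map_add, T.tw_spec hz, T.tw_spec hw]
  ring

theorem neg_mem_H {c : ℕ} {z : O} (hz : z ∈ T.H c) : -z ∈ T.H c := by
  refine (T.tw_eq (p := -T.tw c z) ?_).1
  rw [map_neg, map_neg, T.tw_spec hz]
  ring

theorem sub_mem_H {c : ℕ} {z w : O} (hz : z ∈ T.H c) (hw : w ∈ T.H c) : z - w ∈ T.H c := by
  refine (T.tw_eq (p := T.tw c z - T.tw c w) ?_).1
  rw [map_sub, map_sub, T.tw_spec hz, T.tw_spec hw]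
  ring

theorem tw_sub {c : ℕ} {z w : O} (hz : z ∈ T.H c) (hw : w ∈ T.H c) :
    T.tw c (z - w) = T.tw c z - T.tw c w := by
  refine (T.tw_eq (p := T.tw c z - T.tw c w) ?_).2
  rw [map_sub, map_sub, T.tw_spec hz, T.tw_spec hw]
  ring

theorem sum_mem_H {ι : Type*} {c : ℕ} (S : Finset ι) (f : ι → O) (h : ∀ i ∈ S, f i ∈ T.H c) :
    ∑ i ∈ S, f i ∈ T.H c := by
  induction S using Finset.induction_on with
  | empty => exact T.zero_mem_H c
  | insert a S ha ih =>
    rw [Finset.sum_insert ha]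
    exact T.add_mem_H (h a (Finset.mem_insert_self a S)) (ih fun i hi => h i (Finset.mem_insert_of_mem hi))

theorem tw_sum {ι : Type*} {c : ℕ} (S : Finset ι) (f : ι → O) (h : ∀ i ∈ S, f i ∈ T.H c) :
    T.tw c (∑ i ∈ S, f i) = ∑ i ∈ S, T.tw c (f i) := by
  induction S using Finset.induction_on with
  | empty => exact T.tw_zero c
  | insert a S ha ih =>
    rw [Finset.sum_insert ha, Finset.sum_insert ha,
      T.tw_add (h a (Finset.mem_insert_self a S))
        (T.sum_mem_H S f fun i hi => h i (Finset.mem_insert_of_mem hi)),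
      ih fun i hi => h i (Finset.mem_insert_of_mem hi)]

theorem mul_mem_H {c c' : ℕ} {z w : O} (hz : z ∈ T.H c) (hw : w ∈ T.H c') :
    z * w ∈ T.H (c + c') := by
  refine (T.tw_eq (p := T.tw c z * T.tw c' w) ?_).1
  rw [map_mul, map_mul, T.tw_spec hz, T.tw_spec hw, pow_add]
  ring

theorem tw_mul {c c' : ℕ} {z w : O} (hz : z ∈ T.H c) (hw : w ∈ T.H c') :
    T.tw (c + c') (z * w) = T.tw c z * T.tw c' w := by
  refine (T.tw_eq (p := T.tw c z * T.tw c' w) ?_).2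
  rw [map_mul, map_mul, T.tw_spec hz, T.tw_spec hw, pow_add]
  ring

theorem one_mem_H : (1 : O) ∈ T.H 0 := by
  exact (T.tw_eq (c := 0) (z := 1) (p := 1) (by rw [map_one, map_one, pow_zero, mul_one])).1

theorem tw_one : T.tw 0 1 = 1 := by
  exact (T.tw_eq (c := 0) (z := 1) (p := 1) (by rw [map_one, map_one, pow_zero, mul_one])).2

theorem t_mem_H : T.t ∈ T.H 1 := by
  refine (T.tw_eq (c := 1) (z := T.t) (p := 1) ?_).1
  rw [map_one, pow_one, mul_comm]
  exact T.ts.symm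

theorem H_mono {c c' : ℕ} (h : c ≤ c') : T.H c ⊆ T.H c' := by
  intro z hz
  refine (T.tw_eq (p := T.s ^ (c' - c) * T.tw c z) ?_).1
  rw [map_mul, map_pow, T.tw_spec hz, ← mul_assoc, ← pow_add, Nat.sub_add_cancel h]

theorem tw_mono {c c' : ℕ} (h : c ≤ c') {z : O} (hz : z ∈ T.H c) :
    T.tw c' z = T.s ^ (c' - c) * T.tw c z := by
  refine (T.tw_eq (p := T.s ^ (c' - c) * T.tw c z) ?_).2
  rw [map_mul, map_pow, T.tw_spec hz, ← mul_assoc, ← pow_add, Nat.sub_add_cancel h]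

/-- An element of `H c'` whose twist is divisible by `s ^ (c' - c)` lies in `H c`. -/
theorem H_down {c c' : ℕ} (h : c ≤ c') {z : O} (hz : z ∈ T.H c') {p : P}
    (hp : T.tw c' z = T.s ^ (c' - c) * p) : z ∈ T.H c ∧ T.tw c z = p := by
  apply T.tw_eq
  have h1 := T.tw_spec hz
  rw [hp, map_mul, map_pow] at h1
  have h2 : algebraMap P K T.s ^ c' = algebraMap P K T.s ^ (c' - c) * algebraMap P K T.s ^ c := by
    rw [← pow_add, Nat.sub_add_cancel h]
  rw [h2, mul_assoc] at h1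
  exact mul_left_cancel₀ (pow_ne_zero _ T.s_ne) h1

theorem tw_eq_zero {c : ℕ} {z : O} (hz : z ∈ T.H c) : T.tw c z = 0 ↔ z = 0 := by
  constructor
  · intro h
    have h1 := T.tw_spec hz
    rw [h, map_zero] at h1
    rcases mul_eq_zero.1 h1.symm with h2 | h2
    · exact absurd h2 (pow_ne_zero _ T.s_ne)
    · apply IsFractionRing.injective O K
      rw [h2, map_zero]
  · rintro rfl
    exact T.tw_zero c

theorem h_pos (c : ℕ) : 0 < T.h c := by
  exact Finset.card_pos.2 ⟨0, T.zero_mem_H c⟩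

theorem mem_VB {n c : ℕ} {x : Vc n O} : x ∈ T.VB n c ↔ ∀ i, x i ∈ T.H c := by
  unfold VB
  exact Fintype.mem_piFinset

theorem mem_Box {n d c : ℕ} {G : Ten n d O} : G ∈ T.Box n d c ↔ ∀ i, G i ∈ T.H c := by
  unfold Box
  exact Fintype.mem_piFinset

theorem mem_TBox {n r : ℕ} {d : Fin r → ℕ} {c : ℕ} {F : Tup n d O} :
    F ∈ T.TBox n d c ↔ ∀ i, F i ∈ T.Box n (d i) c := by
  unfold TBox
  exact Fintype.mem_piFinset

theorem card_VB (n c : ℕ) : (T.VB n c).card = T.h c ^ (n + 1) := by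
  unfold VB h
  rw [Fintype.card_piFinset, Finset.prod_const, Finset.card_univ, Fintype.card_fin]

theorem card_Box (n d c : ℕ) : (T.Box n d c).card = T.h c ^ (n + 1) ^ d := by
  unfold Box h
  rw [Fintype.card_piFinset, Finset.prod_const, Finset.card_univ, Fintype.card_fun, Fintype.card_fin, Fintype.card_fin]

theorem card_TBox (n : ℕ) {r : ℕ} (d : Fin r → ℕ) (c : ℕ) :
    (T.TBox n d c).card = T.h c ^ VV n d := by
  unfold TBox VV
  rw [Fintype.card_piFinset, ← Finset.prod_pow_eq_pow_sum]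
  exact Finset.prod_congr rfl fun i _ => T.card_Box n (d i) c

private theorem Tw_prod {ι : Type*} {b : ℕ} (S : Finset ι) (f : ι → O) (h : ∀ i ∈ S, f i ∈ T.H b) :
    ∏ i ∈ S, f i ∈ T.H (S.card * b) ∧ T.tw (S.card * b) (∏ i ∈ S, f i) = ∏ i ∈ S, T.tw b (f i) := by
  induction S using Finset.induction_on with
  | empty =>
    rw [Finset.card_empty, Nat.zero_mul, Finset.prod_empty, Finset.prod_empty]
    exact ⟨T.one_mem_H, T.tw_one⟩
  | insert a S ha ih =>
    have h1 := ih fun i hi => h i (Finset.mem_insert_of_mem hi)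
    have h2 := h a (Finset.mem_insert_self a S)
    have e : (insert a S).card * b = b + S.card * b := by
      rw [Finset.card_insert_of_notMem ha]
      ring
    rw [e, Finset.prod_insert ha, Finset.prod_insert ha]
    exact ⟨T.mul_mem_H h2 h1.1, by rw [T.tw_mul h2 h1.1, h1.2]⟩

private theorem Tw_prod_fin {n d b : ℕ} (x : Vc n O) (hx : x ∈ T.VB n b) (s : Fin d → Fin (n + 1)) :
    ∏ k, x (s k) ∈ T.H (d * b) ∧ T.tw (d * b) (∏ k, x (s k)) = ∏ k, T.vtw b x (s k) := by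
  have h := T.Tw_prod (Finset.univ : Finset (Fin d)) (fun k => x (s k)) (b := b)
    fun k _ => T.mem_VB.1 hx (s k)
  rw [Finset.card_univ, Fintype.card_fin] at h
  exact h

theorem ev_mem {n d a b : ℕ} {G : Ten n d O} {x : Vc n O} (hG : G ∈ T.Box n d a)
    (hx : x ∈ T.VB n b) : ev G x ∈ T.H (a + d * b) := by
  unfold ev
  apply T.sum_mem_H
  intro s _
  exact T.mul_mem_H (T.mem_Box.1 hG s) (T.Tw_prod_fin x hx s).1

theorem tw_ev {n d a b : ℕ} {G : Ten n d O} {x : Vc n O} (hG : G ∈ T.Box n d a)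
    (hx : x ∈ T.VB n b) : T.tw (a + d * b) (ev G x) = ev (T.ttw a G) (T.vtw b x) := by
  unfold ev
  rw [T.tw_sum]
  · refine Finset.sum_congr rfl fun s _ => ?_
    rw [T.tw_mul (T.mem_Box.1 hG s) (T.Tw_prod_fin x hx s).1, (T.Tw_prod_fin x hx s).2]
    rfl
  · intro s _
    exact T.mul_mem_H (T.mem_Box.1 hG s) (T.Tw_prod_fin x hx s).1

theorem lin_mem {n a b : ℕ} {f x : Vc n O} (hf : f ∈ T.VB n a) (hx : x ∈ T.VB n b) :
    lin f x ∈ T.H (a + b) := by
  unfold lin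
  apply T.sum_mem_H
  intro i _
  exact T.mul_mem_H (T.mem_VB.1 hf i) (T.mem_VB.1 hx i)

theorem tw_lin {n a b : ℕ} {f x : Vc n O} (hf : f ∈ T.VB n a) (hx : x ∈ T.VB n b) :
    T.tw (a + b) (lin f x) = lin (T.vtw a f) (T.vtw b x) := by
  unfold lin
  rw [T.tw_sum]
  · refine Finset.sum_congr rfl fun i _ => ?_
    rw [T.tw_mul (T.mem_VB.1 hf i) (T.mem_VB.1 hx i)]
    rfl
  · intro i _
    exact T.mul_mem_H (T.mem_VB.1 hf i) (T.mem_VB.1 hx i)

theorem mn_mem {n b : ℕ} {x y : Vc n O} (hx : x ∈ T.VB n b) (hy : y ∈ T.VB n b)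
    (i j : Fin (n + 1)) : mn x y i j ∈ T.H (b + b) := by
  unfold mn
  exact T.sub_mem_H (T.mul_mem_H (T.mem_VB.1 hx i) (T.mem_VB.1 hy j))
    (T.mul_mem_H (T.mem_VB.1 hx j) (T.mem_VB.1 hy i))

theorem tw_mn {n b : ℕ} {x y : Vc n O} (hx : x ∈ T.VB n b) (hy : y ∈ T.VB n b)
    (i j : Fin (n + 1)) : T.tw (b + b) (mn x y i j) = mn (T.vtw b x) (T.vtw b y) i j := by
  unfold mn
  rw [T.tw_sub (T.mul_mem_H (T.mem_VB.1 hx i) (T.mem_VB.1 hy j))
    (T.mul_mem_H (T.mem_VB.1 hx j) (T.mem_VB.1 hy i)),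
    T.tw_mul (T.mem_VB.1 hx i) (T.mem_VB.1 hy j), T.tw_mul (T.mem_VB.1 hx j) (T.mem_VB.1 hy i)]
  rfl

theorem vtw_sub {n b : ℕ} {x y : Vc n O} (hx : x ∈ T.VB n b) (hy : y ∈ T.VB n b)
    (i : Fin (n + 1)) : T.vtw b (fun j => x j - y j) i = T.vtw b x i - T.vtw b y i := by
  exact T.tw_sub (T.mem_VB.1 hx i) (T.mem_VB.1 hy i)

end TC

end Pool.Agent.Lib.MP_1ad228_ntZ
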