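import Pool.Agent.Lib.MP_1ad228_ntZ.FM_Def
import Pool.Agent.Lib.MP_1ad228_ntZ.Tw
import Pool.Agent.Lib.MP_1ad228_ntF.RP_Defs

/-!
LEAF FM_L.  Local solubility, zeros and smoothness, from forms over `K` to tuples of tensors over the charts.
-/

set_option linter.unusedSectionVars false

namespace Pool.Agent.Lib.MP_1ad228_ntZ

open Classical

section val

private theorem FM_L_prod {S Γ : Type*} [CommRing S] [LinearOrderedCommGroupWithZero Γ]
    (v : Valuation S Γ) {ι : Type*} (U : Finset ι) (x y : ι → S) (hx : ∀ i, v (x i) ≤ 1)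
    (hy : ∀ i, v (y i) ≤ 1) (γ : Γ) (h : ∀ i, v (y i - x i) ≤ γ) :
    v (∏ i ∈ U, y i - ∏ i ∈ U, x i) ≤ γ := by
  induction U using Finset.induction_on with
  | empty =>
    rw [Finset.prod_empty, Finset.prod_empty, sub_self, map_zero]
    exact zero_le
  | insert b U hb ih =>
    rw [Finset.prod_insert hb, Finset.prod_insert hb]
    have h1 : y b * ∏ i ∈ U, y i - x b * ∏ i ∈ U, x i =
        (y b - x b) * ∏ i ∈ U, y i + x b * (∏ i ∈ U, y i - ∏ i ∈ U, x i) := by ring
    rw [h1]
    refine (v.map_add _ _).trans (max_le ?_ ?_)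
    · rw [map_mul, map_prod]
      calc v (y b - x b) * ∏ i ∈ U, v (y i) ≤ γ * 1 :=
            mul_le_mul' (h b) (Finset.prod_le_one' fun i _ => hy i)
        _ = γ := mul_one _
    · rw [map_mul]
      calc v (x b) * v (∏ i ∈ U, y i - ∏ i ∈ U, x i) ≤ 1 * γ := mul_le_mul' (hx b) ih
        _ = γ := one_mul _

private theorem FM_L_sum {S Γ : Type*} [CommRing S] [LinearOrderedCommGroupWithZero Γ]
    (v : Valuation S Γ) {ι : Type*} (U : Finset ι) (f : ι → S) (γ : Γ) (h : ∀ i, v (f i) ≤ γ) :
    v (∑ i ∈ U, f i) ≤ γ := by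
  induction U using Finset.induction_on with
  | empty =>
    rw [Finset.sum_empty, map_zero]
    exact zero_le
  | insert b U hb ih =>
    rw [Finset.sum_insert hb]
    exact (v.map_add _ _).trans (max_le (h b) ih)

private theorem FM_L_ev {S Γ : Type*} [CommRing S] [LinearOrderedCommGroupWithZero Γ]
    (v : Valuation S Γ) {n d : ℕ} (a : Ten n d S) (x y : Vc n S) (ha : ∀ s, v (a s) ≤ 1)
    (hx : ∀ i, v (x i) ≤ 1) (hy : ∀ i, v (y i) ≤ 1) (γ : Γ) (h : ∀ i, v (y i - x i) ≤ γ) :
    v (ev a y - ev a x) ≤ γ := by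
  unfold Pool.Agent.Lib.MP_1ad228_ntF.ev
  rw [← Finset.sum_sub_distrib]
  refine FM_L_sum v _ _ γ fun s => ?_
  rw [← mul_sub, map_mul]
  calc v (a s) * v (∏ k, y (s k) - ∏ k, x (s k)) ≤ 1 * γ :=
        mul_le_mul' (ha s) (FM_L_prod v _ (fun k => x (s k)) (fun k => y (s k)) (fun k => hx _)
          (fun k => hy _) γ fun k => h _)
    _ = γ := one_mul _

end val

/-- Values of the form of a tensor over an algebra of the field. -/
private theorem FM_L_aeval {K R A : Type} [Field K] [CommRing R] [Algebra R K] [CommRing A]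
    [Algebra K A] {n d : ℕ} (a : Ten n d R) (x : Fin (n + 1) → A) :
    MvPolynomial.aeval x (MvPolynomial.map (algebraMap R K) (poly a)) =
      ev (tmap ((algebraMap K A).comp (algebraMap R K)) a) x := by
  rw [MvPolynomial.aeval_def, MvPolynomial.eval₂_map, eval2_poly]

private theorem FM_L_dev {K R A : Type} [Field K] [CommRing R] [Algebra R K] [CommRing A]
    [Algebra K A] {n d : ℕ} (a : Ten n d R) (x : Fin (n + 1) → A) (j : Fin (n + 1)) :
    MvPolynomial.aeval x (MvPolynomial.pderiv j (MvPolynomial.map (algebraMap R K) (poly a))) =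
      dev (tmap ((algebraMap K A).comp (algebraMap R K)) a) x j := by
  let _ : Algebra R A := ((algebraMap K A).comp (algebraMap R K)).toAlgebra
  have h := pderiv_poly (R := R) (S := A) a x j
  rw [MvPolynomial.aeval_def] at h
  rw [MvPolynomial.pderiv_map, MvPolynomial.aeval_def, MvPolynomial.eval₂_map]
  exact h

/-- The integers of the completion are close to elements of the Dedekind domain. -/
private theorem FM_L_close {K R : Type} [Field K] [CommRing R] [IsDedekindDomain R] [Algebra R K]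
    [IsFractionRing R K] (w : IsDedekindDomain.HeightOneSpectrum R) (x : w.adicCompletion K)
    (hx : Valued.v x ≤ 1) (m : ℕ) :
    ∃ a : R, Valued.v (algebraMap K (w.adicCompletion K) (algebraMap R K a) - x) <
      WithZero.exp (-(m : ℤ)) := by
  obtain ⟨c, hc⟩ := IsDedekindDomain.HeightOneSpectrum.valuedAdicCompletion_surjective K w
    (WithZero.exp (-(m : ℤ)))
  have hc0 : Valued.v c ≠ 0 := by
    rw [hc]
    exact WithZero.exp_ne_zero
  have hc1 : Valued.v c ≤ 1 := by
    rw [hc, ← WithZero.exp_zero, WithZero.exp_le_exp]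
    omega
  have hU : {y : w.adicCompletion K | Valued.v (y - x) < Valued.v c} ∈ nhds x := by
    rw [Valued.mem_nhds]
    have h' : (Valued.v : Valuation (w.adicCompletion K) _).restrict c ≠ 0 := by
      rw [Ne, Valuation.restrict_eq_zero_iff]
      exact hc0
    refine ⟨Units.mk0 _ h', ?_⟩
    intro y hy
    exact (Valuation.restrict_lt_iff _).mp hy
  obtain ⟨y, hy, k, rfl⟩ := (mem_closure_iff_nhds.mp (w.denseRange_algebraMap K x)) _ hU
  have hy' : Valued.v (algebraMap K (w.adicCompletion K) k - x) < Valued.v c := hy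
  have hk1 : w.valuation K k ≤ 1 := by
    rw [← IsDedekindDomain.HeightOneSpectrum.valuedAdicCompletion_eq_valuation' w k]
    have h1 : (algebraMap K (w.adicCompletion K) k) =
        (algebraMap K (w.adicCompletion K) k - x) + x := by ring
    have h2 : Valued.v (algebraMap K (w.adicCompletion K) k) ≤ 1 := by
      rw [h1]
      exact (Valuation.map_add _ _ _).trans (max_le (hy'.le.trans hc1) hx)
    exact h2
  have hγ : (WithZero.exp (-(m : ℤ)) : WithZero (Multiplicative ℤ)) ≠ 0 := WithZero.exp_ne_zero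
  obtain ⟨a, ha⟩ := w.exists_valuation_sub_lt_of_integer (K := K) hk1 (Units.mk0 _ hγ)
  rw [Units.val_mk0] at ha
  refine ⟨a, ?_⟩
  have h1 : algebraMap K (w.adicCompletion K) (algebraMap R K a) - x =
      algebraMap K (w.adicCompletion K) (algebraMap R K a - k) +
        (algebraMap K (w.adicCompletion K) k - x) := by
    rw [map_sub]
    ring
  rw [h1]
  refine lt_of_le_of_lt (Valuation.map_add _ _ _) (max_lt ?_ ?_)
  · have h2 := IsDedekindDomain.HeightOneSpectrum.valuedAdicCompletion_eq_valuation' w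
      (algebraMap R K a - k)
    refine lt_of_eq_of_lt ?_ ha
    exact h2
  · rw [← hc]
    exact hy'

private theorem FM_L_alg {K R : Type} [Field K] [CommRing R] [IsDedekindDomain R] [Algebra R K]
    [IsFractionRing R K] (w : IsDedekindDomain.HeightOneSpectrum R) (a : R) :
    Valued.v (algebraMap K (w.adicCompletion K) (algebraMap R K a)) = w.intValuation a := by
  have h2 := IsDedekindDomain.HeightOneSpectrum.valuedAdicCompletion_eq_valuation' w
    (algebraMap R K a)
  rw [IsDedekindDomain.HeightOneSpectrum.valuation_of_algebraMap] at h2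
  exact h2

theorem psol_of_locR {K R : Type} [Field K] [CommRing R] [IsDedekindDomain R] [Algebra R K]
    [IsFractionRing R K] {n r : ℕ} {d : Fin r → ℕ} {F : Tup n d R}
    (h : LocSolR R (polyK K F)) : PSol F := by
  intro P hP hP0 m
  obtain ⟨w, rfl⟩ : ∃ w : IsDedekindDomain.HeightOneSpectrum R, w.asIdeal = P := ⟨⟨P, hP, hP0⟩, rfl⟩
  obtain ⟨x, hx, hx0⟩ := h w
  set f : R →+* w.adicCompletion K := (algebraMap K (w.adicCompletion K)).comp (algebraMap R K)
    with hf
  have hx1 : ∀ k, ev (tmap f (F k)) x = 0 := by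
    intro k
    have h1 := hx0 k
    unfold polyK at h1
    rw [FM_L_aeval] at h1
    exact h1
  obtain ⟨i0, -, hi0⟩ := Finset.exists_max_image (Finset.univ : Finset (Fin (n + 1)))
    (fun i => Valued.v (x i)) ⟨0, Finset.mem_univ _⟩
  have hne : x i0 ≠ 0 := by
    intro h0
    apply hx
    funext i
    have h1 := hi0 i (Finset.mem_univ i)
    rw [h0, map_zero] at h1
    exact (Valuation.zero_iff _).1 (le_antisymm h1 zero_le)
  have hv0 : Valued.v (x i0) ≠ 0 := (Valuation.ne_zero_iff _).2 hne
  set z : Fin (n + 1) → w.adicCompletion K := fun i => (x i0)⁻¹ * x i with hz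
  have hz1 : ∀ i, Valued.v (z i) ≤ 1 := by
    intro i
    rw [hz]
    simp only
    rw [map_mul, map_inv₀]
    have h1 := hi0 i (Finset.mem_univ i)
    calc (Valued.v (x i0))⁻¹ * Valued.v (x i) ≤ (Valued.v (x i0))⁻¹ * Valued.v (x i0) :=
          mul_le_mul' le_rfl h1
      _ = 1 := inv_mul_cancel₀ hv0
  have hz0 : z i0 = 1 := by
    rw [hz]
    exact inv_mul_cancel₀ hne
  have hz2 : ∀ k, ev (tmap f (F k)) z = 0 := by
    intro k
    rw [hz, Pool.Agent.Lib.MP_1ad228_ntF.ev_scale, hx1 k, mul_zero]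
  choose y hy using fun i => FM_L_close w (z i) (hz1 i) m
  have hm1 : (WithZero.exp (-(m : ℤ)) : WithZero (Multiplicative ℤ)) ≤ 1 := by
    rw [← WithZero.exp_zero, WithZero.exp_le_exp]
    omega
  have hfa : ∀ a : R, Valued.v (f a) ≤ 1 := by
    intro a
    have h1 := FM_L_alg (K := K) w a
    exact le_of_eq_of_le h1 (w.intValuation_le_one a)
  refine ⟨y, ⟨i0, fun hmem => ?_⟩, fun k => ?_⟩
  · have h1 : Valued.v (f (y i0)) < 1 :=
      lt_of_eq_of_lt (FM_L_alg (K := K) w (y i0)) ((w.intValuation_lt_one_iff_mem _).2 hmem)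
    have h2 : Valued.v (f (y i0) - 1) < 1 := by
      have h3 := hy i0
      rw [hz0] at h3
      exact lt_of_lt_of_le h3 hm1
    have h3 : (1 : w.adicCompletion K) = f (y i0) - (f (y i0) - 1) := by ring
    have h4 : Valued.v (1 : w.adicCompletion K) < 1 := by
      rw [h3]
      exact lt_of_le_of_lt (Valuation.map_sub _ _ _) (max_lt h1 h2)
    rw [map_one] at h4
    exact lt_irrefl _ h4
  · have h1 : Valued.v (ev (tmap f (F k)) (fun i => f (y i)) - ev (tmap f (F k)) z) ≤
        WithZero.exp (-(m : ℤ)) :=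
      FM_L_ev Valued.v (tmap f (F k)) z (fun i => f (y i)) (fun s => hfa _) hz1
        (fun i => hfa _) _ fun i => (hy i).le
    have h2 : ev (tmap f (F k)) (fun i => f (y i)) = f (ev (F k) y) :=
      Pool.Agent.Lib.MP_1ad228_ntF.ev_map f (F k) y
    rw [hz2 k, sub_zero, h2] at h1
    have h3 := FM_L_alg (K := K) w (ev (F k) y)
    exact (w.intValuation_le_pow_iff_mem _ m).1 (le_of_eq_of_le h3.symm h1)

theorem locR_of_zero {K : Type} [Field K] (R : Type) [CommRing R] [IsDedekindDomain R]
    [Algebra R K] [IsFractionRing R K] {n r : ℕ}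
    {f : Fin r → MvPolynomial (Fin (n + 1)) K} {x : Fin (n + 1) → K} (hx : x ≠ 0)
    (h : ∀ k, MvPolynomial.aeval x (f k) = 0) : LocSolR R f := by
  intro v
  refine ⟨(algebraMap K (v.adicCompletion K)) ∘ x, fun h0 => hx ?_, fun k => ?_⟩
  · funext i
    exact (algebraMap K (v.adicCompletion K)).injective
      ((congrFun h0 i).trans (map_zero (algebraMap K (v.adicCompletion K))).symm)
  · rw [MvPolynomial.aeval_algebraMap_apply, h k, map_zero]

theorem smooth_of_not_sing {K R : Type} [Field K] [CommRing R] [Algebra R K] {n r : ℕ}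
    {d : Fin r → ℕ} {F : Tup n d R}
    (h : ¬ Pool.Agent.Lib.MP_1ad228_ntF.Sing
      (fmap ((algebraMap K (AlgebraicClosure K)).comp (algebraMap R K)) F)) :
    SmoothCI (polyK K F) := by
  intro x hx0 hx
  by_contra hli
  rw [Fintype.linearIndependent_iff] at hli
  push Not at hli
  obtain ⟨t, ht, i, hi⟩ := hli
  refine h ⟨x, t, hx0, fun h0 => hi (by rw [h0]; rfl), fun l => ?_, fun j => ?_⟩
  · have h1 := hx l
    unfold polyK at h1
    rw [FM_L_aeval] at h1
    exact h1
  · have h1 := congrFun ht j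
    rw [Finset.sum_apply] at h1
    rw [← h1.trans (Pi.zero_apply j)]
    refine Finset.sum_congr rfl fun l _ => ?_
    rw [Pi.smul_apply, smul_eq_mul]
    congr 1
    exact (FM_L_dev (F l) x j).symm

namespace TC
variable {K O P : Type} [Field K] [CommRing O] [IsDedekindDomain O] [Algebra O K]
  [IsFractionRing O K] [CommRing P] [IsDedekindDomain P] [Algebra P K]
  [IsFractionRing P K] (T : TC K O P)

theorem locR_twist {n r a : ℕ} {d : Fin r → ℕ} {F : Tup n d O} (hF : F ∈ T.TBox n d a)
    (h : LocSolR P (polyK K F)) : LocSolR P (polyK K (T.ftw a F)) := by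
  have key : ∀ k, polyK K (T.ftw a F) k =
      MvPolynomial.C (algebraMap P K T.s ^ a) * polyK K F k := by
    intro k
    have hk : ∀ s, F k s ∈ T.H a := T.mem_Box.1 (T.mem_TBox.1 hF k)
    unfold polyK Pool.Agent.Lib.MP_1ad228_ntN.poly
    rw [map_sum, map_sum, Finset.mul_sum]
    refine Finset.sum_congr rfl fun s _ => ?_
    rw [MvPolynomial.map_monomial, MvPolynomial.map_monomial, MvPolynomial.C_mul_monomial,
      ← T.tw_spec (hk s)]
    rfl
  intro v
  obtain ⟨x, hx, hx0⟩ := h v
  refine ⟨x, hx, fun k => ?_⟩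
  rw [key, map_mul, hx0 k, mul_zero]

theorem zeroIn_iff {n r : ℕ} {d : Fin r → ℕ} (b : ℕ) (F : Tup n d O) :
    ZeroIn (T.L b) (polyK K F) ↔
      ∃ x : Vc n O, x ≠ 0 ∧ x ∈ T.VB n b ∧ ∀ k, ev (F k) x = 0 := by
  have key : ∀ (w : Vc n O) (k : Fin r), MvPolynomial.aeval (fun i => algebraMap O K (w i))
      (polyK K F k) = algebraMap O K (ev (F k) w) := by
    intro w k
    unfold polyK
    rw [FM_L_aeval]
    exact Pool.Agent.Lib.MP_1ad228_ntF.ev_map (algebraMap O K) (F k) w
  have hinj : Function.Injective (algebraMap O K) := IsFractionRing.injective O K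
  constructor
  · rintro ⟨x, hx, hL, h0⟩
    choose w hw hwx using hL
    have hxw : x = fun i => algebraMap O K (w i) := funext fun i => (hwx i).symm
    refine ⟨w, fun h1 => hx ?_, T.mem_VB.2 hw, fun k => hinj ?_⟩
    · rw [hxw]
      funext i
      exact (congrArg (algebraMap O K) (congrFun h1 i)).trans (map_zero (algebraMap O K))
    · rw [map_zero, ← key, ← hxw]
      exact h0 k
  · rintro ⟨w, hw, hH, h0⟩
    refine ⟨fun i => algebraMap O K (w i), fun h1 => hw ?_,
      fun i => ⟨w i, T.mem_VB.1 hH i, rfl⟩, fun k => ?_⟩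
    · funext i
      exact hinj ((congrFun h1 i).trans (map_zero (algebraMap O K)).symm)
    · rw [key, h0 k, map_zero]

end TC

end Pool.Agent.Lib.MP_1ad228_ntZ
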