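import Pool.Agent.Lib.MP_1ad228_ntZ.FM_X
import Pool.Agent.Lib.MP_1ad228_ntZ.FM_L

/-! From the theorems on tuples of tensors to the theorems on forms. -/

namespace Pool.Agent.Lib.MP_1ad228_ntZ

open Classical

namespace TC
variable {K O P : Type} [Field K] [CommRing O] [IsDedekindDomain O] [Algebra O K]
  [IsFractionRing O K] [CommRing P] [IsDedekindDomain P] [Algebra P K]
  [IsFractionRing P K] (T : TC K O P)

theorem cardT_pos (n : ℕ) {r : ℕ} (d : Fin r → ℕ) (a : ℕ) :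
    (0 : ℝ) < ((T.TBox n d a).card : ℝ) := by
  rw [T.card_TBox]
  have := T.h_pos a
  positivity

/-- A positive proportion of the tuples of forms is smooth with a zero. -/
theorem goodZ (n : ℕ) {r : ℕ} (d : Fin r → ℕ) (hP : T.PosP n d) (hN : T.NonSmP n d) :
    ∃ δ : ℝ, 0 < δ ∧ ∃ a0 : ℕ, ∀ a : ℕ, a0 ≤ a → δ * ((T.TBox n d a).card : ℝ) ≤
      (T.h a : ℝ) ^ LoT n d *
      (({f | (∀ k, f k ∈ FormsIn (T.L a) n (d k)) ∧ SmoothCI f ∧
          (LocSolR O f ∧ LocSolR P f)} :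
        Set (Fin r → MvPolynomial (Fin (n + 1)) K)).ncard : ℝ) := by
  obtain ⟨δ, hδ, a1, h1⟩ := hP
  obtain ⟨a2, h2⟩ := hN (δ / 2) (by positivity)
  refine ⟨δ / 2, by positivity, a1 + a2, fun a ha => ?_⟩
  have g1 := h1 a (by omega)
  have g2 := h2 a (by omega)
  have h3 := T.xferK n d a (fun f => SmoothCI f ∧ (LocSolR O f ∧ LocSolR P f))
  have h3' : (((T.TBox n d a).filter fun F => SmoothCI (polyK K F) ∧
      (LocSolR O (polyK K F) ∧ LocSolR P (polyK K F))).card : ℝ) = (T.h a : ℝ) ^ LoT n d *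
      (({f | (∀ k, f k ∈ FormsIn (T.L a) n (d k)) ∧ SmoothCI f ∧
          (LocSolR O f ∧ LocSolR P f)} :
        Set (Fin r → MvPolynomial (Fin (n + 1)) K)).ncard : ℝ) := by
    rw [← Nat.cast_pow, ← Nat.cast_mul, ← h3]
    refine congrArg Nat.cast (congrArg Finset.card ?_)
    ext F
    simp only [Finset.mem_filter]
  rw [← h3']
  have hsub : ((T.TBox n d a).filter fun F => ∃ x : Vc n O, x ≠ 0 ∧ ∀ i, ev (F i) x = 0) ⊆
      ((T.TBox n d a).filter fun F => SmoothCI (polyK K F) ∧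
        (LocSolR O (polyK K F) ∧ LocSolR P (polyK K F))) ∪
      ((T.TBox n d a).filter fun F => ¬ SmoothCI (polyK K F)) := by
    intro F hF
    rw [Finset.mem_filter] at hF
    obtain ⟨hF, x, hx, hx0⟩ := hF
    rw [Finset.mem_union, Finset.mem_filter, Finset.mem_filter]
    by_cases hs : SmoothCI (polyK K F)
    · left
      have hinj : Function.Injective (algebraMap O K) := IsFractionRing.injective O K
      have hy : (fun i => algebraMap O K (x i)) ≠ 0 := by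
        intro h0
        apply hx
        funext i
        exact hinj ((congrFun h0 i).trans (map_zero _).symm)
      have hz : ∀ k, MvPolynomial.aeval (fun i => algebraMap O K (x i)) (polyK K F k) = 0 := by
        intro k
        unfold polyK
        rw [MvPolynomial.aeval_def, Algebra.algebraMap_self, MvPolynomial.eval₂_map,
          RingHom.id_comp, eval2_poly]
        have h5 := ev_map (algebraMap O K) (F k) x
        rw [hx0 k, map_zero] at h5
        exact h5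
      exact ⟨hF, hs, locR_of_zero O hy hz, locR_of_zero P hy hz⟩
    · right
      exact ⟨hF, hs⟩
  have h4 := (Finset.card_le_card hsub).trans (Finset.card_union_le _ _)
  have h4' : (((T.TBox n d a).filter fun F => ∃ x : Vc n O, x ≠ 0 ∧ ∀ i, ev (F i) x = 0).card : ℝ)
      ≤ (((T.TBox n d a).filter fun F => SmoothCI (polyK K F) ∧
        (LocSolR O (polyK K F) ∧ LocSolR P (polyK K F))).card : ℝ) +
      (((T.TBox n d a).filter fun F => ¬ SmoothCI (polyK K F)).card : ℝ) := by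
    exact_mod_cast h4
  linarith

/-- Almost all everywhere locally soluble tuples of forms have a small zero. -/
theorem final1Z (n : ℕ) {r : ℕ} (d : Fin r → ℕ) (hM : T.MainP n d) (hP : T.PosP n d)
    (hN : T.NonSmP n d) (ε : ℝ) (hε : 0 < ε) : ∃ M a0 : ℕ, ∀ a : ℕ, a0 ≤ a →
    (({f | (∀ k, f k ∈ FormsIn (T.L a) n (d k)) ∧ (LocSolR O f ∧ LocSolR P f) ∧
        ¬ ∃ b : ℕ, b * (n + 1 - ∑ k, d k) ≤ r * a + M ∧ ZeroIn (T.L b) f} :
      Set (Fin r → MvPolynomial (Fin (n + 1)) K)).ncard : ℝ) ≤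
      ε * (({f | (∀ k, f k ∈ FormsIn (T.L a) n (d k)) ∧ SmoothCI f ∧
          (LocSolR O f ∧ LocSolR P f)} :
        Set (Fin r → MvPolynomial (Fin (n + 1)) K)).ncard : ℝ) := by
  obtain ⟨δ, hδ, a1, h1⟩ := T.goodZ n d hP hN
  obtain ⟨M, a2, h2⟩ := hM (ε * δ) (mul_pos hε hδ)
  refine ⟨M, a1 + a2, fun a ha => ?_⟩
  have g1 := h1 a (by omega)
  have g2 := h2 a (by omega)
  have h3 := T.xferK n d a (fun f => (LocSolR O f ∧ LocSolR P f) ∧
        ¬ ∃ b : ℕ, b * (n + 1 - ∑ k, d k) ≤ r * a + M ∧ ZeroIn (T.L b) f)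
  have hh : (0 : ℝ) < (T.h a : ℝ) ^ LoT n d := by
    have := T.h_pos a
    positivity
  refine le_of_mul_le_mul_left ?_ hh
  have h3' : (((T.TBox n d a).filter fun F => (LocSolR O (polyK K F) ∧ LocSolR P (polyK K F)) ∧
        ¬ ∃ b : ℕ, b * (n + 1 - ∑ k, d k) ≤ r * a + M ∧ ZeroIn (T.L b) (polyK K F)).card : ℝ) =
      (T.h a : ℝ) ^ LoT n d * (({f | (∀ k, f k ∈ FormsIn (T.L a) n (d k)) ∧
        (LocSolR O f ∧ LocSolR P f) ∧
        ¬ ∃ b : ℕ, b * (n + 1 - ∑ k, d k) ≤ r * a + M ∧ ZeroIn (T.L b) f} :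
      Set (Fin r → MvPolynomial (Fin (n + 1)) K)).ncard : ℝ) := by
    rw [← Nat.cast_pow, ← Nat.cast_mul, ← h3]
    refine congrArg Nat.cast (congrArg Finset.card ?_)
    ext F
    simp only [Finset.mem_filter]
  rw [← h3']
  have hsub : ((T.TBox n d a).filter fun F => (LocSolR O (polyK K F) ∧ LocSolR P (polyK K F)) ∧
        ¬ ∃ b : ℕ, b * (n + 1 - ∑ k, d k) ≤ r * a + M ∧ ZeroIn (T.L b) (polyK K F)) ⊆
      ((T.TBox n d a).filter fun F => PSol F ∧ PSol (T.ftw a F) ∧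
        ¬ ∃ (b : ℕ) (x : Vc n O), b * (n + 1 - ∑ i, d i) ≤ r * a + M ∧ x ≠ 0 ∧ x ∈ T.VB n b ∧
          ∀ i, ev (F i) x = 0) := by
    intro F hF
    rw [Finset.mem_filter] at hF ⊢
    obtain ⟨hF, ⟨hO, hPP⟩, hno⟩ := hF
    refine ⟨hF, psol_of_locR hO, psol_of_locR (T.locR_twist hF hPP), ?_⟩
    rintro ⟨b, x, hb, hx, hxb, hx0⟩
    exact hno ⟨b, hb, (T.zeroIn_iff b F).2 ⟨x, hx, hxb, hx0⟩⟩
  have h4 : (((T.TBox n d a).filter fun F => (LocSolR O (polyK K F) ∧ LocSolR P (polyK K F)) ∧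
        ¬ ∃ b : ℕ, b * (n + 1 - ∑ k, d k) ≤ r * a + M ∧ ZeroIn (T.L b) (polyK K F)).card : ℝ) ≤
      (((T.TBox n d a).filter fun F => PSol F ∧ PSol (T.ftw a F) ∧
        ¬ ∃ (b : ℕ) (x : Vc n O), b * (n + 1 - ∑ i, d i) ≤ r * a + M ∧ x ≠ 0 ∧ x ∈ T.VB n b ∧
          ∀ i, ev (F i) x = 0).card : ℝ) := by
    exact_mod_cast Finset.card_le_card hsub
  calc (((T.TBox n d a).filter fun F => (LocSolR O (polyK K F) ∧ LocSolR P (polyK K F)) ∧
        ¬ ∃ b : ℕ, b * (n + 1 - ∑ k, d k) ≤ r * a + M ∧ ZeroIn (T.L b) (polyK K F)).card : ℝ)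
      ≤ ε * δ * ((T.TBox n d a).card : ℝ) := h4.trans g2
    _ = ε * (δ * ((T.TBox n d a).card : ℝ)) := by ring
    _ ≤ ε * ((T.h a : ℝ) ^ LoT n d *
      (({f | (∀ k, f k ∈ FormsIn (T.L a) n (d k)) ∧ SmoothCI f ∧
          (LocSolR O f ∧ LocSolR P f)} :
        Set (Fin r → MvPolynomial (Fin (n + 1)) K)).ncard : ℝ)) :=
        mul_le_mul_of_nonneg_left g1 hε.le
    _ = _ := by ring

/-- A positive proportion of all tuples of forms is smooth and everywhere locally soluble. -/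
theorem final3Z (n : ℕ) {r : ℕ} (d : Fin r → ℕ) (hP : T.PosP n d) (hN : T.NonSmP n d) :
    ∃ δ : ℝ, 0 < δ ∧ ∃ a0 : ℕ, ∀ a : ℕ, a0 ≤ a →
    δ * (({f | ∀ k, f k ∈ FormsIn (T.L a) n (d k)} :
        Set (Fin r → MvPolynomial (Fin (n + 1)) K)).ncard : ℝ) ≤
      (({f | (∀ k, f k ∈ FormsIn (T.L a) n (d k)) ∧ SmoothCI f ∧
          (LocSolR O f ∧ LocSolR P f)} :
        Set (Fin r → MvPolynomial (Fin (n + 1)) K)).ncard : ℝ) := by
  obtain ⟨δ, hδ, a1, h1⟩ := T.goodZ n d hP hN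
  refine ⟨δ, hδ, a1, fun a ha => ?_⟩
  have g1 := h1 a ha
  have hh : (0 : ℝ) < (T.h a : ℝ) ^ LoT n d := by
    have := T.h_pos a
    positivity
  refine le_of_mul_le_mul_left ?_ hh
  have h3 := T.xferK n d a (fun _ => True)
  simp only [and_true, Finset.filter_true] at h3
  have h3' : ((T.TBox n d a).card : ℝ) = (T.h a : ℝ) ^ LoT n d *
      (({f | ∀ k, f k ∈ FormsIn (T.L a) n (d k)} :
        Set (Fin r → MvPolynomial (Fin (n + 1)) K)).ncard : ℝ) := by
    exact_mod_cast h3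
  rw [h3'] at g1
  refine le_trans (le_of_eq ?_) g1
  ring

end TC

end Pool.Agent.Lib.MP_1ad228_ntZ
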