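import Pool.Agent.Lib.MP_1ad228_ntZ.FT
import Pool.Agent.Lib.MP_1ad228_ntZ.FM_F

/-! Global function fields: the spaces `L(c)`, local solubility, and the final theorems. -/

namespace Pool.Agent.Lib.MP_1ad228_ntZ

open Polynomial Classical

section defs
variable (F K : Type) [Field F] [Field K] [Algebra F[X] K] [Algebra (RatFunc F) K]

/-- The space `L(c)`: the elements `z` of `K` integral over `F[t]` such that `z / t ^ c` is integral
over the valuation ring of `F(t)` at infinity. -/
def LL (c : ℕ) : Set K :=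
  {z | IsIntegral F[X] z ∧ IsIntegral (Ainf F) (algebraMap (RatFunc F) K RatFunc.X⁻¹ ^ c * z)}

/-- The forms `f k` over the function field `K` have a common nonzero zero over every completion of
`K`: at all nonzero primes of the integral closure of `F[t]` and of the integral closure of the
valuation ring of `F(t)` at infinity. -/
def LocSol [FiniteDimensional (RatFunc F) K] [Algebra.IsSeparable (RatFunc F) K]
    [IsScalarTower F[X] (RatFunc F) K] {n r : ℕ}
    (f : Fin r → MvPolynomial (Fin (n + 1)) K) : Prop :=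
  LocSolR (FunctionField.ringOfIntegers F K) f ∧ LocSolR (Pinf F K) f

end defs

variable (F K : Type) [Field F] [Finite F] [Field K] [Algebra F[X] K] [Algebra (RatFunc F) K]
  [IsScalarTower F[X] (RatFunc F) K] [FiniteDimensional (RatFunc F) K]
  [Algebra.IsSeparable (RatFunc F) K]

theorem TCK_L (c : ℕ) : (TCK F K).L c = LL F K c := by
  have hs : algebraMap (Pinf F K) K (TCK F K).s = algebraMap (RatFunc F) K RatFunc.X⁻¹ := by
    rw [TCK_s, sP_coe]
  ext z
  constructor
  · rintro ⟨w, hw, rfl⟩
    obtain ⟨p, hp⟩ := ((TCK F K).mem_H).1 hw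
    refine ⟨w.2, ?_⟩
    rw [← hs, ← hp]
    exact p.2
  · rintro ⟨h1, h2⟩
    refine ⟨⟨z, h1⟩, ((TCK F K).mem_H).2 ⟨⟨_, h2⟩, ?_⟩, rfl⟩
    rw [hs]
    rfl

end Pool.Agent.Lib.MP_1ad228_ntZ
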