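import Pool.Agent.Lib.MP_1ad228_ntZ.EEZ

/-! MP_1ad228_ntZ, file PairOK.  Control of the pairs, main case. -/

namespace Pool.Agent.Lib.MP_1ad228_ntZ

open Classical

namespace TC
variable {K O P : Type} [Field K] [CommRing O] [IsDedekindDomain O] [Algebra O K]
  [IsFractionRing O K] [CommRing P] [IsDedekindDomain P] [Algebra P K]
  [IsFractionRing P K] (T : TC K O P)

theorem pairOK0 {n r : ℕ} (d : Fin r → ℕ) (hd : ∀ i, 2 ≤ d i) : T.PairOK n d 0 := by
  refine ⟨1, le_rfl, 0, le_rfl, fun a b g ha ha2 => ⟨fun i x hx y hy hxy => ?_, ∅, ?_, ?_⟩⟩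
  · have h := T.n2_le (hd i) hx hy hxy (a := a) (by omega)
    rw [one_mul]
    exact_mod_cast h
  · simp
  · intro w i x hx y hy hxy _ h1 h2 m hm m' hm'
    exact T.sl_good (hd i) hx hy hxy (by omega) h1 h2 hm hm'

end TC

end Pool.Agent.Lib.MP_1ad228_ntZ
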