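import Pool.Agent.Lib.MP_1ad228_ntN.Defs

/-!
MP_1ad228_nt, Fano complete intersections over global function fields.  Definitions.
Two charts: `K` is a field, `O` and `P` are Dedekind domains with fraction field `K` and finite
quotients; in the application `O` is the integral closure of `F[t]` in `K` and `P` the integral
closure in `K` of the valuation ring of `F(t)` at infinity, `s = 1 / t`.
`H c` = the elements `z` of `O` such that `s ^ c * z` lies in `P` (a finite group), `tw c z = s ^ c * z`.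
-/

namespace Pool.Agent.Lib.MP_1ad228_ntZ

export Pool.Agent.Lib.MP_219881_nt (Vc lin Uni mn lin_add lin_add_right lin_sub lin_sub_right
  lin_smul lin_smul_right lin_comm lin_single mn_swap)

export Pool.Agent.Lib.MP_1ad228_ntF (Ten ev tp dev Tup VV Kp pt ev_tp ev_add ev_sub ev_neg
  ev_zero ev_smul ev_smul' ev_sum ev_scale ev_map dev_map dev_add dev_smul' dev_neg dev_sub euler)

export Pool.Agent.Lib.MP_1ad228_ntN (vmap tmap fmap smR ExcR)

open Classical

section ring
variable {R : Type} [CommRing R]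

/-- Number of residue classes. -/
noncomputable def nI (I : Ideal R) : ℕ := Nat.card (R ⧸ I)

/-- Ideal generated by all minors. -/
def Dd {n : ℕ} (x y : Vc n R) : Ideal R :=
  Ideal.span (Set.range fun p : Fin (n + 1) × Fin (n + 1) => mn x y p.1 p.2)

/-- `x` and `y` are proportional (all minors vanish). -/
def Prp {n : ℕ} (x y : Vc n R) : Prop := ∀ i j, mn x y i j = 0

/-- Reduction of a tuple modulo an ideal. -/
def red {n r : ℕ} {d : Fin r → ℕ} (I : Ideal R) (F : Tup n d R) : Tup n d (R ⧸ I) :=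
  fmap (Ideal.Quotient.mk I) F

/-- Number of unimodular common zeros modulo the ideal `I`. -/
noncomputable def smI {n r : ℕ} {d : Fin r → ℕ} (I : Ideal R) (F : Tup n d R) : ℕ :=
  smR (red I F)

/-- Solubility modulo all powers of all prime ideals. -/
def PSol {n r : ℕ} {d : Fin r → ℕ} (F : Tup n d R) : Prop :=
  ∀ p : Ideal R, p.IsPrime → p ≠ ⊥ → ∀ m : ℕ, ∃ x : Vc n R, (∃ i, x i ∉ p) ∧
    ∀ k, ev (F k) x ∈ p ^ m

variable (R) in
/-- Finite quotients, and at most `C X` ideals of norm at most `X`. -/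
class FQ : Prop where
  fin : ∀ I : Ideal R, I ≠ ⊥ → Finite (R ⧸ I)
  cnt : ∃ C : ℝ, 1 ≤ C ∧ ∀ X : ℝ, 1 ≤ X → ∀ S : Finset (Ideal R),
    (∀ I ∈ S, I ≠ ⊥ ∧ (nI I : ℝ) ≤ X) → (S.card : ℝ) ≤ C * X

variable (R) in
/-- The ideals of norm at most `w`. -/
def ideals (w : ℕ) : Set (Ideal R) := {I | I ≠ ⊥ ∧ nI I ≤ w}

variable (R) in
/-- The modulus: the `w`-th power of the product of all ideals of norm at most `w`. -/
noncomputable def WD (w : ℕ) : Ideal R := (∏ᶠ I ∈ ideals R w, I) ^ w

end ring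

/-- The data of two charts. -/
structure TC (K O P : Type) [Field K] [CommRing O] [Algebra O K] [CommRing P] [Algebra P K] where
  /-- the parameter -/
  t : O
  /-- the inverse of the parameter -/
  s : P
  /-- `q ^ e` -/
  Q : ℕ
  /-- the constant of rounding -/
  c1 : ℕ
  /-- the constant of the lower bound -/
  C0 : ℕ
  ts : algebraMap O K t * algebraMap P K s = 1
  two_le : 2 ≤ Q
  finO : ∀ I : Ideal O, I ≠ ⊥ → Finite (O ⧸ I)
  finP : ∀ I : Ideal P, I ≠ ⊥ → Finite (P ⧸ I)
  nrm_s : nI (Ideal.span {s}) = Q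
  fewO : ∀ X : ℕ, (ideals O X).Finite
  fewP : ∀ X : ℕ, (ideals P X).Finite
  finH : ∀ c : ℕ, {z : O | ∃ p : P, algebraMap P K p = algebraMap P K s ^ c * algebraMap O K z}.Finite
  low : ∀ c : ℕ, Q ^ c ≤ C0 *
    {z : O | ∃ p : P, algebraMap P K p = algebraMap P K s ^ c * algebraMap O K z}.ncard
  rnd : ∀ κ : K, ∃ g : O, ∃ p : P,
    algebraMap P K p = algebraMap P K s ^ c1 * (κ - algebraMap O K g)
  prod_le : ∀ (c : ℕ) (z : O) (p : P), z ≠ 0 →
    algebraMap P K p = algebraMap P K s ^ c * algebraMap O K z →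
    ∀ (I : Ideal O) (J : Ideal P), z ∈ I → p ∈ J → nI I * nI J ≤ Q ^ c

namespace TC
variable {K O P : Type} [Field K] [CommRing O] [Algebra O K] [CommRing P] [Algebra P K]
  (T : TC K O P)

/-- Elements with poles at infinity only, bounded by `c`. -/
noncomputable def H (c : ℕ) : Finset O := (T.finH c).toFinset

/-- Number of elements of `H c`. -/
noncomputable def h (c : ℕ) : ℕ := (T.H c).card

/-- Multiplication by `s ^ c`, from `H c` to `P`. -/
noncomputable def tw (c : ℕ) (z : O) : P :=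
  if h : ∃ p : P, algebraMap P K p = algebraMap P K T.s ^ c * algebraMap O K z then h.choose else 0

/-- Vectors with entries in `H c`. -/
noncomputable def VB (n c : ℕ) : Finset (Vc n O) := Fintype.piFinset fun _ => T.H c

/-- Tensors with entries in `H c`. -/
noncomputable def Box (n d c : ℕ) : Finset (Ten n d O) := Fintype.piFinset fun _ => T.H c

/-- Tuples with entries in `H c`. -/
noncomputable def TBox (n : ℕ) {r : ℕ} (d : Fin r → ℕ) (c : ℕ) : Finset (Tup n d O) :=
  Fintype.piFinset fun i => T.Box n (d i) c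

/-- The vector `s ^ c * x`. -/
noncomputable def vtw {n : ℕ} (c : ℕ) (x : Vc n O) : Vc n P := fun i => T.tw c (x i)

/-- The tensor `s ^ c * a`. -/
noncomputable def ttw {n d : ℕ} (c : ℕ) (a : Ten n d O) : Ten n d P := fun i => T.tw c (a i)

/-- The tuple `s ^ c * F`. -/
noncomputable def ftw {n r : ℕ} {d : Fin r → ℕ} (c : ℕ) (F : Tup n d O) : Tup n d P :=
  fun i => T.ttw c (F i)

/-- Elements of `H c` in the ideal `I` with twist in the ideal `J`. -/
noncomputable def M (c : ℕ) (I : Ideal O) (J : Ideal P) : Finset O :=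
  (T.H c).filter fun z => z ∈ I ∧ T.tw c z ∈ J

/-- Norm of the divisor of the minors of `x` and `y`. -/
noncomputable def nD {n : ℕ} (b : ℕ) (x y : Vc n O) : ℕ :=
  nI (Dd x y) * nI (Dd (T.vtw b x) (T.vtw b y))

/-- `x` is `h`-good: `n` independent vectors over `H h` orthogonal to `x`. -/
def Good {n : ℕ} (g : ℕ) (x : Vc n O) : Prop :=
  ∃ f : Fin n → Vc n O, LinearIndependent O f ∧ (∀ i, lin (f i) x = 0) ∧
    ∀ i j, f i j ∈ T.H g

/-- The test points: unimodular in both charts and good. -/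
noncomputable def GG (n b g : ℕ) : Finset (Vc n O) :=
  (T.VB n b).filter fun x => Uni x ∧ Uni (T.vtw b x) ∧ T.Good g x

/-- Number of tensors over `H a` vanishing at `x`. -/
noncomputable def n1 {n : ℕ} (d : ℕ) (x : Vc n O) (a : ℕ) : ℕ :=
  ((T.Box n d a).filter fun G => ev G x = 0).card

/-- Number of tensors over `H a` vanishing at `x` and at `y`. -/
noncomputable def n2 {n : ℕ} (d : ℕ) (x y : Vc n O) (a : ℕ) : ℕ :=
  ((T.Box n d a).filter fun G => ev G x = 0 ∧ ev G y = 0).card

/-- Number of tensors over `H a` with values `m` at `x` and `m'` at `y`. -/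
noncomputable def sl {n : ℕ} (d a : ℕ) (x y : Vc n O) (m m' : O) : ℕ :=
  ((T.Box n d a).filter fun G => ev G x = m ∧ ev G y = m').card

/-- The values allowed by the local conditions of level `w`. -/
noncomputable def MS (w c : ℕ) : Finset O := T.M c (WD O w) (WD P w)

/-- Number of test points on the intersection. -/
noncomputable def Nn {n r : ℕ} {d : Fin r → ℕ} (b g : ℕ) (F : Tup n d O) : ℕ :=
  ((T.GG n b g).filter fun x => ∀ i, ev (F i) x = 0).card

/-- Local prediction. -/
noncomputable def Ll {n r : ℕ} {d : Fin r → ℕ} (a b g w : ℕ) (F : Tup n d O) : ℝ :=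
  (((T.GG n b g).filter fun x => ∀ i, ev (F i) x ∈ T.MS w (a + d i * b)).card : ℝ) /
    ∏ i, ((T.MS w (a + d i * b)).card : ℝ)

/-- The variance. -/
noncomputable def Qv {n r : ℕ} (d : Fin r → ℕ) (a b g w : ℕ) : ℝ :=
  ∑ F ∈ T.TBox n d a, ((T.Nn b g F : ℝ) - T.Ll a b g w F) ^ 2

/-- Almost all everywhere locally soluble tuples have a small common zero. -/
def MainP (n : ℕ) {r : ℕ} (d : Fin r → ℕ) : Prop :=
  ∀ ε : ℝ, 0 < ε → ∃ M a0 : ℕ, ∀ a : ℕ, a0 ≤ a →
    (((T.TBox n d a).filter fun F => PSol F ∧ PSol (T.ftw a F) ∧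
        ¬ ∃ (b : ℕ) (x : Vc n O), b * (n + 1 - ∑ i, d i) ≤ r * a + M ∧ x ≠ 0 ∧ x ∈ T.VB n b ∧
          ∀ i, ev (F i) x = 0).card : ℝ) ≤ ε * ((T.TBox n d a).card : ℝ)

/-- A positive proportion of the tuples has a common nonzero zero. -/
def PosP (n : ℕ) {r : ℕ} (d : Fin r → ℕ) : Prop :=
  ∃ δ : ℝ, 0 < δ ∧ ∃ a0 : ℕ, ∀ a : ℕ, a0 ≤ a → δ * ((T.TBox n d a).card : ℝ) ≤
    (((T.TBox n d a).filter fun F => ∃ x : Vc n O, x ≠ 0 ∧ ∀ i, ev (F i) x = 0).card : ℝ)

end TC

end Pool.Agent.Lib.MP_1ad228_ntZ
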