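import Pool.Agent.Lib.MP_1ad228_ntF.B_PPv
import Pool.Agent.Lib.MP_1ad228_ntZ.Defs

/-!
LEAF BPP (borderline case).  The polynomial `bP` is not identically zero over any infinite field, also in characteristic 2.
Model: ntN/B_PPnK.lean, `bPPn_valK` and `bP_neK`.  There `g t = s t • e_(w t)` with `s j2 = σ`, `σ^2 = 1`, and the value is `e i j - σ e l j2`.  For a general `σ` (`s t = 1` for `t ≠ j2`) the value is `σ^3 * (σ * e i j - e l j2)`
(up to a sign; `bCr g` is multiplied by `σ`, `bDt g j z` by `σ^2` for `j ≠ j2` and by `σ` for `j = j2` apart from `bU`, which is multiplied by `σ`).  An infinite field has `σ ≠ 0` with `σ * e i j ≠ e l j2` (`e i j ≠ 0`).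
-/

namespace Pool.Agent.Lib.MP_1ad228_ntZ

open Classical

/-- An equivalence with two prescribed values. -/
private theorem BPP_equiv {n : ℕ} (m l i j j2 : Fin n) (hlm : l ≠ m) (him : i ≠ m) (hli : l ≠ i)
    (hj : j2 ≠ j) : ∃ w : Fin n ≃ {c : Fin (n + 1) // c ≠ m.succ},
      (w j : Fin (n + 1)) = l.succ ∧ (w j2 : Fin (n + 1)) = i.succ := by
  let a : {c : Fin (n + 1) // c ≠ m.succ} := ⟨l.succ, fun h => hlm (Fin.succ_injective _ h)⟩
  let b : {c : Fin (n + 1) // c ≠ m.succ} := ⟨i.succ, fun h => him (Fin.succ_injective _ h)⟩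
  have hab : a ≠ b := by
    intro h
    exact hli (Fin.succ_injective _ (congrArg Subtype.val h))
  let w0 : Fin n ≃ {c : Fin (n + 1) // c ≠ m.succ} := finSuccAboveEquiv m.succ
  let w1 := w0.setValue j a
  have h1 : w1 j = a := Equiv.setValue_eq w0 j a
  let w2 := w1.setValue j2 b
  have h2 : w2 j2 = b := Equiv.setValue_eq w1 j2 b
  have h3 : w2 j = a := by
    change w1 (Equiv.swap j2 (w1.symm b) j) = a
    rw [Equiv.swap_apply_of_ne_of_ne hj.symm ?_, h1]
    intro h4
    apply hab
    rw [← h1, h4, Equiv.apply_symm_apply]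
  exact ⟨w2, congrArg Subtype.val h3, congrArg Subtype.val h2⟩

private theorem BPP_val {F : Type} [Field F] {n : ℕ} (e : Fin n → Fin n → F) (i l m j j2 : Fin n)
    (hli : l ≠ i) (him : i ≠ m) (hlm : l ≠ m) (hj : j2 ≠ j) (σ : F) (hσ : σ ≠ 0) :
    ∃ (f g : Fin n → Vc n F) (c : F), c ≠ 0 ∧ Pool.Agent.Lib.MP_1ad228_ntF.bP e i l m f g =
      c * c * (c * c) * (e i j - σ⁻¹ * e l j2) := by
  obtain ⟨w, hw1, hw2⟩ := BPP_equiv m l i j j2 hlm him hli hj
  let s : Fin n → F := fun t => if t = j2 then σ else 1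
  have hs : ∀ t, s t ≠ 0 := by
    intro t
    by_cases ht : t = j2
    · simp only [s, if_pos ht]
      exact hσ
    · simp only [s, if_neg ht]
      exact one_ne_zero
  let f : Fin n → Vc n F := fun k => Pi.single k.succ 1
  let g : Fin n → Vc n F := fun t => s t • Pi.single (w t : Fin (n + 1)) 1
  let y : Vc n F := Pool.Agent.Lib.MP_1ad228_ntF.bCr g
  let c : F := y m.succ
  have hsingle : ∀ (a : Fin (n + 1)) (x : Vc n F), lin x (Pi.single a 1) = x a := by
    intro a x
    rw [lin_comm, lin_single]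
  have hyw : ∀ t, y (w t : Fin (n + 1)) = 0 := by
    intro t
    have h1 : lin y (g t) = 0 := Pool.Agent.Lib.MP_1ad228_ntF.bCr_perp g t
    have h2 : lin y (g t) = s t * y (w t : Fin (n + 1)) := by
      change lin y (s t • Pi.single (w t : Fin (n + 1)) 1) = _
      rw [lin_smul_right, hsingle]
    rw [h2] at h1
    exact (mul_eq_zero.1 h1).resolve_left (hs t)
  have hy0 : ∀ a : Fin (n + 1), a ≠ m.succ → y a = 0 := by
    intro a ha
    have h1 := hyw (w.symm ⟨a, ha⟩)
    rwa [Equiv.apply_symm_apply] at h1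
  have hyy : lin y y = c * c := by
    unfold Pool.Agent.Lib.MP_219881_nt.lin
    rw [Finset.sum_eq_single m.succ]
    · intro a _ ha
      rw [hy0 a ha, zero_mul]
    · intro h
      exact absurd (Finset.mem_univ _) h
  have hcc : c ≠ 0 := by
    let M : Matrix (Fin (n + 1)) (Fin (n + 1)) F :=
      Matrix.of (Fin.cons (Pi.single m.succ 1) g : Fin (n + 1) → Vc n F)
    have hM : c = M.det := rfl
    have hMM : M * M.transpose =
        Matrix.diagonal (Fin.cons 1 (fun t => s t * s t) : Fin (n + 1) → F) := by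
      have hrow : ∀ a b : Fin (n + 1), (M * M.transpose) a b =
          lin ((Fin.cons (Pi.single m.succ 1) g : Fin (n + 1) → Vc n F) a)
            ((Fin.cons (Pi.single m.succ 1) g : Fin (n + 1) → Vc n F) b) := by
        intro a b
        rw [Matrix.mul_apply]
        rfl
      ext a b
      rw [hrow]
      refine Fin.cases ?_ (fun t => ?_) a
      · refine Fin.cases ?_ (fun t' => ?_) b
        · rw [Fin.cons_zero, lin_single, Pi.single_eq_same, Matrix.diagonal_apply_eq,
            Fin.cons_zero]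
        · rw [Fin.cons_zero, Fin.cons_succ, lin_single,
            Matrix.diagonal_apply_ne _ (Fin.succ_ne_zero t').symm]
          change s t' * (Pi.single (w t' : Fin (n + 1)) 1 : Vc n F) m.succ = 0
          rw [Pi.single_eq_of_ne (w t').2.symm, mul_zero]
      · refine Fin.cases ?_ (fun t' => ?_) b
        · rw [Fin.cons_zero, Fin.cons_succ, hsingle,
            Matrix.diagonal_apply_ne _ (Fin.succ_ne_zero t)]
          change s t * (Pi.single (w t : Fin (n + 1)) 1 : Vc n F) m.succ = 0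
          rw [Pi.single_eq_of_ne (w t).2.symm, mul_zero]
        · rw [Fin.cons_succ, Fin.cons_succ]
          change lin (s t • Pi.single (w t : Fin (n + 1)) 1)
            (s t' • Pi.single (w t' : Fin (n + 1)) 1) = _
          rw [lin_smul, lin_smul_right, lin_single]
          by_cases htt : t = t'
          · subst htt
            rw [Pi.single_eq_same, mul_one, Matrix.diagonal_apply_eq, Fin.cons_succ]
          · rw [Matrix.diagonal_apply_ne _ (fun h => htt (Fin.succ_injective _ h)),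
              Pi.single_eq_of_ne, mul_zero, mul_zero]
            intro h
            exact htt (w.injective (Subtype.ext h))
    have h1 := congrArg Matrix.det hMM
    rw [Matrix.det_mul, Matrix.det_transpose, Matrix.det_diagonal, Fin.prod_univ_succ,
      Fin.cons_zero, one_mul] at h1
    intro hc
    rw [← hM, hc, mul_zero] at h1
    refine (Finset.prod_ne_zero_iff.2 fun t _ => ?_) h1.symm
    rw [Fin.cons_succ]
    exact mul_ne_zero (hs t) (hs t)
  have hyf : ∀ k : Fin n, lin y (f k) = if k = m then c else 0 := by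
    intro k
    change lin y (Pi.single k.succ 1) = _
    rw [hsingle]
    by_cases hk : k = m
    · rw [if_pos hk, hk]
    · rw [if_neg hk]
      exact hy0 _ fun h => hk (Fin.succ_injective _ h)
  have hfi : f i = σ⁻¹ • g j2 := by
    change Pi.single i.succ 1 = σ⁻¹ • (s j2 • Pi.single (w j2 : Fin (n + 1)) 1)
    rw [hw2, smul_smul]
    simp only [s, if_true]
    rw [inv_mul_cancel₀ hσ, one_smul]
  have hfl : f l = g j := by
    change Pi.single l.succ 1 = s j • Pi.single (w j : Fin (n + 1)) 1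
    rw [hw1]
    simp only [s, if_neg hj.symm]
    rw [one_smul]
  have hUi : Pool.Agent.Lib.MP_1ad228_ntF.bU y f i m = (c * σ⁻¹) • g j2 := by
    unfold Pool.Agent.Lib.MP_1ad228_ntF.bU
    rw [hyf, hyf, if_pos rfl, if_neg him, zero_smul, sub_zero, hfi, smul_smul]
  have hUl : Pool.Agent.Lib.MP_1ad228_ntF.bU y f l m = c • g j := by
    unfold Pool.Agent.Lib.MP_1ad228_ntF.bU
    rw [hyf, hyf, if_pos rfl, if_neg hlm, zero_smul, sub_zero, hfl]
  have hAi : ∀ k, Pool.Agent.Lib.MP_1ad228_ntF.bA y f i m k = if k = i then c else 0 := by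
    intro k
    unfold Pool.Agent.Lib.MP_1ad228_ntF.bA
    rw [hyf, hyf, if_pos rfl, if_neg him]
    simp only [ite_self, sub_zero]
  have hAl : ∀ k, Pool.Agent.Lib.MP_1ad228_ntF.bA y f l m k = if k = l then c else 0 := by
    intro k
    unfold Pool.Agent.Lib.MP_1ad228_ntF.bA
    rw [hyf, hyf, if_pos rfl, if_neg hlm]
    simp only [ite_self, sub_zero]
  have hDl : ∀ t, Pool.Agent.Lib.MP_1ad228_ntF.bDt g t
      (Pool.Agent.Lib.MP_1ad228_ntF.bU y f l m) = if j = t then c * (c * c) else 0 := by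
    intro t
    rw [hUl, Pool.Agent.Lib.MP_1ad228_ntF.bDt_smul, Pool.Agent.Lib.MP_1ad228_ntF.bDt_self]
    change c * (if j = t then lin y y else 0) = _
    rw [hyy]
    by_cases ht : j = t
    · rw [if_pos ht, if_pos ht]
    · rw [if_neg ht, if_neg ht, mul_zero]
  have hDi : ∀ t, Pool.Agent.Lib.MP_1ad228_ntF.bDt g t
      (Pool.Agent.Lib.MP_1ad228_ntF.bU y f i m) = if j2 = t then c * σ⁻¹ * (c * c) else 0 := by
    intro t
    rw [hUi, Pool.Agent.Lib.MP_1ad228_ntF.bDt_smul, Pool.Agent.Lib.MP_1ad228_ntF.bDt_self]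
    change c * σ⁻¹ * (if j2 = t then lin y y else 0) = _
    rw [hyy]
    by_cases ht : j2 = t
    · rw [if_pos ht, if_pos ht]
    · rw [if_neg ht, if_neg ht, mul_zero]
  refine ⟨f, g, c, hcc, ?_⟩
  have h1 : Pool.Agent.Lib.MP_1ad228_ntF.bP e i l m f g =
      ∑ k, ∑ t, (e k t * ((if k = i then c else 0) * (if j = t then c * (c * c) else 0))
      - e k t * ((if k = l then c else 0) * (if j2 = t then c * σ⁻¹ * (c * c) else 0))) := by
    unfold Pool.Agent.Lib.MP_1ad228_ntF.bP
    refine Finset.sum_congr rfl fun k _ => Finset.sum_congr rfl fun t _ => ?_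
    change e k t * (Pool.Agent.Lib.MP_1ad228_ntF.bA y f i m k *
      Pool.Agent.Lib.MP_1ad228_ntF.bDt g t (Pool.Agent.Lib.MP_1ad228_ntF.bU y f l m) -
      Pool.Agent.Lib.MP_1ad228_ntF.bA y f l m k *
      Pool.Agent.Lib.MP_1ad228_ntF.bDt g t (Pool.Agent.Lib.MP_1ad228_ntF.bU y f i m)) = _
    rw [hAi, hAl, hDl, hDi, mul_sub]
  have h2 : ∑ k, ∑ t, e k t * ((if k = i then c else 0) *
      (if j = t then c * (c * c) else 0)) = e i j * (c * (c * (c * c))) := by
    rw [Finset.sum_eq_single i, Finset.sum_eq_single j]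
    · rw [if_pos rfl, if_pos rfl]
    · intro t _ ht
      rw [if_neg (Ne.symm ht), mul_zero, mul_zero]
    · intro h
      exact absurd (Finset.mem_univ _) h
    · intro k _ hk
      refine Finset.sum_eq_zero fun t _ => ?_
      rw [if_neg hk, zero_mul, mul_zero]
    · intro h
      exact absurd (Finset.mem_univ _) h
  have h3 : ∑ k, ∑ t, e k t * ((if k = l then c else 0) *
      (if j2 = t then c * σ⁻¹ * (c * c) else 0)) =
      e l j2 * (c * (c * σ⁻¹ * (c * c))) := by
    rw [Finset.sum_eq_single l, Finset.sum_eq_single j2]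
    · rw [if_pos rfl, if_pos rfl]
    · intro t _ ht
      rw [if_neg (Ne.symm ht), mul_zero, mul_zero]
    · intro h
      exact absurd (Finset.mem_univ _) h
    · intro k _ hk
      refine Finset.sum_eq_zero fun t _ => ?_
      rw [if_neg hk, zero_mul, mul_zero]
    · intro h
      exact absurd (Finset.mem_univ _) h
  rw [h1]
  simp only [Finset.sum_sub_distrib]
  rw [h2, h3]
  ring

theorem bP_neF {F : Type} [Field F] [Infinite F] {n : ℕ} (hn : 3 ≤ n) (e : Fin n → Fin n → F)
    (i j : Fin n) (hij : e i j ≠ 0) :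
    ∃ (l m : Fin n) (f g : Fin n → Vc n F),
      Pool.Agent.Lib.MP_1ad228_ntF.bP e i l m f g ≠ 0 := by
  have hc3 : 2 < (Finset.univ : Finset (Fin n)).card := by
    rw [Finset.card_univ, Fintype.card_fin]
    omega
  obtain ⟨l, hl⟩ : ∃ l : Fin n, l ≠ i := by
    obtain ⟨l, _, hl⟩ := Finset.exists_mem_ne (by omega : 1 < (Finset.univ : Finset (Fin n)).card) i
    exact ⟨l, hl⟩
  obtain ⟨j2, hj2⟩ : ∃ j2 : Fin n, j2 ≠ j := by
    obtain ⟨l, _, hl⟩ := Finset.exists_mem_ne (by omega : 1 < (Finset.univ : Finset (Fin n)).card) j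
    exact ⟨l, hl⟩
  obtain ⟨m, hm⟩ : ∃ m : Fin n, m ∉ ({i, l} : Finset (Fin n)) := by
    by_contra hcon
    push Not at hcon
    have h1 : (Finset.univ : Finset (Fin n)) ⊆ {i, l} := fun m _ => hcon m
    have h2 := Finset.card_le_card h1
    have h3 : ({i, l} : Finset (Fin n)).card ≤ 2 := Finset.card_le_two
    omega
  rw [Finset.mem_insert, Finset.mem_singleton, not_or] at hm
  obtain ⟨σ, hσ⟩ := Infinite.exists_notMem_finset ({0, e l j2 / e i j} : Finset F)
  rw [Finset.mem_insert, Finset.mem_singleton, not_or] at hσ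
  obtain ⟨f, g, c, hc, hfg⟩ :=
    BPP_val e i l m j j2 hl (Ne.symm hm.1) (Ne.symm hm.2) hj2 σ hσ.1
  refine ⟨l, m, f, g, ?_⟩
  rw [hfg]
  refine mul_ne_zero (mul_ne_zero (mul_ne_zero hc hc) (mul_ne_zero hc hc)) fun h => hσ.2 ?_
  rw [eq_div_iff hij, sub_eq_zero.1 h, mul_inv_cancel_left₀ hσ.1]

/-- Model: excPoly of ntN/B_ExcK.lean (copy). -/
theorem excPolyF {F : Type} [Field F] [Infinite F] {n : ℕ} (hn : 3 ≤ n) (e : Fin n → Fin n → F)
    (he : ∃ i j, e i j ≠ 0) :
    ∃ Pl : MvPolynomial (Bool × Fin n × Fin (n + 1)) F, Pl ≠ 0 ∧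
      ∀ (z : Bool × Fin n × Fin (n + 1) → F) (E : Fin (n + 1) → Fin (n + 1) → F),
        (∀ i j, E i j = E j i) →
        (∀ k j, e k j = ∑ a, ∑ b, z (true, k, a) * E a b * z (false, j, b)) →
        MvPolynomial.eval z Pl = 0 := by
  obtain ⟨i, j, hij⟩ := he
  obtain ⟨l, m, f, g, hfg⟩ := bP_neF hn e i j hij
  obtain ⟨Q, hQ⟩ : ∃ Q : MvPolynomial (Bool × Fin n × Fin (n + 1)) F,
      Q = Pool.Agent.Lib.MP_1ad228_ntF.bP (fun k j => MvPolynomial.C (e k j)) i l m
        (fun k a => MvPolynomial.X (true, k, a)) (fun k a => MvPolynomial.X (false, k, a)) :=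
    ⟨_, rfl⟩
  have heval : ∀ z : Bool × Fin n × Fin (n + 1) → F, MvPolynomial.eval z Q =
      Pool.Agent.Lib.MP_1ad228_ntF.bP e i l m
        (fun k a => z (true, k, a)) (fun k a => z (false, k, a)) := by
    intro z
    have h := Pool.Agent.Lib.MP_1ad228_ntF.bP_map (MvPolynomial.eval z)
      (fun k j => MvPolynomial.C (e k j)) i l m
      (fun k a => MvPolynomial.X (true, k, a)) (fun k a => MvPolynomial.X (false, k, a))
    simp only [MvPolynomial.eval_C, MvPolynomial.eval_X] at h
    rw [hQ, h]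
  refine ⟨Q, ?_, ?_⟩
  · intro h0
    have h1 := heval fun c => if c.1 then f c.2.1 c.2.2 else g c.2.1 c.2.2
    rw [h0, map_zero] at h1
    apply hfg
    simp only [if_true, Bool.false_eq_true, if_false] at h1
    exact h1.symm
  · intro z E hE he
    rw [heval z]
    exact Pool.Agent.Lib.MP_1ad228_ntF.bP_zero E hE _ _ e he i l m

end Pool.Agent.Lib.MP_1ad228_ntZ
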