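import Pool.Agent.Lib.MP_1ad228_ntZ.Surj

/-!
LEAF DvCnt.  Number of pairs of ideals.
dvCount: for a pair `p = (I, J)` of nonzero ideals, `N = nI I * nI J ≤ X`, let `c` be the least natural number with `N < h c` (exists: `h c ≥ Q^c / C0`).  By exists_M there is `z <> 0` in `M c I J`.
`(z) = I * I'`, `(tw c z) = J * J'`, and `nI (z) * nI (tw c z) ≤ Q^c` (`T.prod_le` with the principal ideals), so `nI I' * nI J' ≤ Q^c / N ≤ C2` with `C2 = C0 * Q` (if `c ≥ 1` then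
`Q^(c-1) ≤ C0 h(c-1) ≤ C0 N`; if `c = 0` then `Q^c = 1`).  The pair is determined by `(c, z, I', J')`.  `c ≤ cmax`, where `cmax` is the least one for which `X < h`,
`Q^(cmax) ≤ Q C0 X` or `cmax = 0`; number of `(c, z)`: sum over `c ≤ cmax` of `h c ≤ sum Q^(c+1) ≤ 2 Q^(cmax+1)`.  Number of `(I', J')`: both of norm at most `C2`: a constant (`T.fewO`, `T.fewP`).
dvTail: dyadic classes `2^j (w+1) ≤ N < 2^(j+1) (w+1)` as in ntN/NB_Ideals.lean, idealTail (copy).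
dvSum: dvTail with `w = 0`.  FQO, FQP: dvCount with `J = ⊤` resp. `I = ⊤` (`nI_top`).
-/

namespace Pool.Agent.Lib.MP_1ad228_ntZ

open Classical

namespace TC
variable {K O P : Type} [Field K] [CommRing O] [IsDedekindDomain O] [Algebra O K]
  [IsFractionRing O K] [CommRing P] [IsDedekindDomain P] [Algebra P K]
  [IsFractionRing P K] (T : TC K O P)

/-- The data attached to a pair of ideals. -/
private theorem DvCnt_key {I : Ideal O} {J : Ideal P} (hI : I ≠ ⊥) (hJ : J ≠ ⊥) :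
    ∃ (c : ℕ) (z : O) (I' : Ideal O) (J' : Ideal P), z ∈ T.H c ∧ Ideal.span {z} = I * I' ∧
      Ideal.span {T.tw c z} = J * J' ∧ I' ≠ ⊥ ∧ J' ≠ ⊥ ∧ nI I' ≤ T.Q * T.C0 ∧
      nI J' ≤ T.Q * T.C0 ∧ T.Q ^ c ≤ T.Q * T.C0 * (nI I * nI J) := by
  have hN : 0 < nI I * nI J := Nat.mul_pos (nI_pos T.finO hI) (nI_pos T.finP hJ)
  have hC0 := T.C0_pos
  have hQ := T.two_le
  have hex : ∃ c, nI I * nI J < T.h c := by
    refine ⟨T.C0 * (nI I * nI J), ?_⟩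
    by_contra hcon
    have h1 := T.h_low (T.C0 * (nI I * nI J))
    have h2 : T.C0 * T.h (T.C0 * (nI I * nI J)) ≤ T.C0 * (nI I * nI J) :=
      Nat.mul_le_mul_left _ (not_lt.1 hcon)
    have h3 : T.C0 * (nI I * nI J) < T.Q ^ (T.C0 * (nI I * nI J)) := Nat.lt_pow_self hQ
    exact absurd (h1.trans h2) (not_le.2 h3)
  obtain ⟨c, hc, hmin⟩ : ∃ c, nI I * nI J < T.h c ∧ ∀ c' < c, ¬ nI I * nI J < T.h c' :=
    ⟨Nat.find hex, Nat.find_spec hex, fun c' hc' => Nat.find_min hex hc'⟩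
  obtain ⟨z, hz, hz0⟩ := T.exists_M hI hJ hc
  rw [T.mem_M] at hz
  obtain ⟨hzH, hzI, hzJ⟩ := hz
  have htw0 : T.tw c z ≠ 0 := fun h => hz0 ((T.tw_eq_zero hzH).1 h)
  have hsz : Ideal.span {z} ≠ (⊥ : Ideal O) := by
    rw [Ne, Ideal.span_singleton_eq_bot]
    exact hz0
  have hst : Ideal.span {T.tw c z} ≠ (⊥ : Ideal P) := by
    rw [Ne, Ideal.span_singleton_eq_bot]
    exact htw0
  obtain ⟨I', hI'⟩ : I ∣ Ideal.span {z} :=
    Ideal.dvd_iff_le.2 ((Ideal.span_singleton_le_iff_mem _).2 hzI)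
  obtain ⟨J', hJ'⟩ : J ∣ Ideal.span {T.tw c z} :=
    Ideal.dvd_iff_le.2 ((Ideal.span_singleton_le_iff_mem _).2 hzJ)
  have hI'0 : I' ≠ ⊥ := by
    rintro rfl
    exact hsz (by rw [hI', Ideal.mul_bot])
  have hJ'0 : J' ≠ ⊥ := by
    rintro rfl
    exact hst (by rw [hJ', Ideal.mul_bot])
  have hprod := T.prod_le c z (T.tw c z) hz0 (T.tw_spec hzH) (Ideal.span {z})
    (Ideal.span {T.tw c z}) (Ideal.mem_span_singleton_self _) (Ideal.mem_span_singleton_self _)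
  rw [hI', hJ', nI_mul T.finO hI hI'0, nI_mul T.finP hJ hJ'0] at hprod
  have hQc : T.Q ^ c ≤ T.Q * T.C0 * (nI I * nI J) := by
    rcases Nat.eq_zero_or_pos c with h0 | h0
    · rw [h0, pow_zero]
      exact Nat.mul_pos (Nat.mul_pos (by omega) hC0) hN
    · have h1 := not_lt.1 (hmin (c - 1) (by omega))
      have h2 := T.h_low (c - 1)
      have h3 : T.Q ^ c = T.Q * T.Q ^ (c - 1) := by
        rw [← pow_succ']
        congr 1
        omega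
      rw [h3, mul_assoc]
      exact Nat.mul_le_mul_left _ (h2.trans (Nat.mul_le_mul_left _ h1))
  have hcof : nI I' * nI J' ≤ T.Q * T.C0 := by
    have h1 : (nI I' * nI J') * (nI I * nI J) ≤ T.Q * T.C0 * (nI I * nI J) := by
      calc (nI I' * nI J') * (nI I * nI J) = nI I * nI I' * (nI J * nI J') := by ring
        _ ≤ _ := hprod.trans hQc
    exact Nat.le_of_mul_le_mul_right h1 hN
  refine ⟨c, z, I', J', hzH, hI', hJ', hI'0, hJ'0, ?_, ?_, hQc⟩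
  · exact (Nat.le_mul_of_pos_right _ (nI_pos T.finP hJ'0)).trans hcof
  · exact (Nat.le_mul_of_pos_left _ (nI_pos T.finO hI'0)).trans hcof

include T in
theorem dvCount : ∃ C : ℝ, 1 ≤ C ∧ ∀ X : ℝ, 1 ≤ X → ∀ S : Finset (Ideal O × Ideal P),
    (∀ p ∈ S, p.1 ≠ ⊥ ∧ p.2 ≠ ⊥ ∧ (nI p.1 : ℝ) * nI p.2 ≤ X) → (S.card : ℝ) ≤ C * X := by
  classical
  obtain ⟨A, hA⟩ : ∃ A : Finset (Ideal O), A = (T.fewO (T.Q * T.C0)).toFinset := ⟨_, rfl⟩
  obtain ⟨B, hB⟩ : ∃ B : Finset (Ideal P), B = (T.fewP (T.Q * T.C0)).toFinset := ⟨_, rfl⟩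
  have hQ := T.two_le
  refine ⟨(T.Q : ℝ) ^ 3 * T.C0 * (A.card * B.card) + 1, ?_, fun X hX S hS => ?_⟩
  · have : (0 : ℝ) ≤ (T.Q : ℝ) ^ 3 * T.C0 * (A.card * B.card) := by positivity
    linarith
  obtain ⟨Y, hY⟩ : ∃ Y : ℕ, Y = T.Q * T.C0 * ⌊X⌋₊ := ⟨_, rfl⟩
  have hX1 : 1 ≤ ⌊X⌋₊ := Nat.le_floor (by simpa using hX)
  have hY1 : Y ≠ 0 := by
    rw [hY]
    exact (Nat.mul_pos (Nat.mul_pos (by omega) T.C0_pos) hX1).ne'
  have key : ∀ p : Ideal O × Ideal P, ∃ q : (Σ _ : ℕ, O) × Ideal O × Ideal P, p ∈ S →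
      q.1.2 ∈ T.H q.1.1 ∧ Ideal.span {q.1.2} = p.1 * q.2.1 ∧
      Ideal.span {T.tw q.1.1 q.1.2} = p.2 * q.2.2 ∧ q.2.1 ≠ ⊥ ∧ q.2.2 ≠ ⊥ ∧
      nI q.2.1 ≤ T.Q * T.C0 ∧ nI q.2.2 ≤ T.Q * T.C0 ∧ T.Q ^ q.1.1 ≤ Y := by
    intro p
    by_cases hp : p ∈ S
    · obtain ⟨h1, h2, h3⟩ := hS p hp
      obtain ⟨c, z, I', J', g1, g2, g3, g4, g5, g6, g7, g8⟩ := T.DvCnt_key h1 h2
      refine ⟨(⟨c, z⟩, I', J'), fun _ => ⟨g1, g2, g3, g4, g5, g6, g7, g8.trans ?_⟩⟩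
      rw [hY]
      refine Nat.mul_le_mul_left _ (Nat.le_floor ?_)
      push_cast
      exact h3
    · exact ⟨(⟨0, 0⟩, ⊤, ⊤), fun h => absurd h hp⟩
  choose Φ hΦ using key
  have hmaps : Set.MapsTo Φ S
      (((Finset.range (Nat.log T.Q Y + 1)).sigma (fun c => T.H c)) ×ˢ (A ×ˢ B) : Finset _) := by
    intro p hp
    obtain ⟨g1, g2, g3, g4, g5, g6, g7, g8⟩ := hΦ p hp
    rw [Finset.mem_coe, Finset.mem_product, Finset.mem_product, Finset.mem_sigma, Finset.mem_range]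
    refine ⟨⟨Nat.lt_succ_of_le (Nat.le_log_of_pow_le (by omega) g8), g1⟩, ?_, ?_⟩
    · rw [hA, Set.Finite.mem_toFinset]
      exact ⟨g4, g6⟩
    · rw [hB, Set.Finite.mem_toFinset]
      exact ⟨g5, g7⟩
  have hinj : Set.InjOn Φ (S : Set (Ideal O × Ideal P)) := by
    intro p hp p' hp' e
    obtain ⟨g1, g2, g3, g4, g5, -, -, -⟩ := hΦ p hp
    obtain ⟨-, k2, k3, -, -, -, -, -⟩ := hΦ p' hp'
    rw [← e] at k2 k3
    refine Prod.ext ?_ ?_
    · exact mul_right_cancel₀ (b := (Φ p).2.1) (by simpa using g4) (g2.symm.trans k2)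
    · exact mul_right_cancel₀ (b := (Φ p).2.2) (by simpa using g5) (g3.symm.trans k3)
  have hcard := Finset.card_le_card_of_injOn Φ hmaps hinj
  rw [Finset.card_product, Finset.card_product, Finset.card_sigma] at hcard
  have hsum : ∑ c ∈ Finset.range (Nat.log T.Q Y + 1), (T.H c).card ≤ T.Q ^ 3 * T.C0 * ⌊X⌋₊ := by
    calc ∑ c ∈ Finset.range (Nat.log T.Q Y + 1), (T.H c).card
        ≤ ∑ c ∈ Finset.range (Nat.log T.Q Y + 1), T.Q * T.Q ^ c :=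
          Finset.sum_le_sum (fun c _ => (T.h_up c).trans_eq (pow_succ' _ _))
      _ = T.Q * ∑ c ∈ Finset.range (Nat.log T.Q Y + 1), T.Q ^ c := by rw [Finset.mul_sum]
      _ ≤ T.Q * T.Q ^ (Nat.log T.Q Y + 1) := Nat.mul_le_mul_left _
          (Nat.geomSum_lt hQ (fun k hk => Finset.mem_range.1 hk)).le
      _ = T.Q ^ 2 * T.Q ^ (Nat.log T.Q Y) := by ring
      _ ≤ T.Q ^ 2 * Y := Nat.mul_le_mul_left _ (Nat.pow_log_le_self _ hY1)
      _ = _ := by rw [hY]; ring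
  have hfin : S.card ≤ T.Q ^ 3 * T.C0 * ⌊X⌋₊ * (A.card * B.card) :=
    hcard.trans (Nat.mul_le_mul_right _ hsum)
  have hfl : ((⌊X⌋₊ : ℕ) : ℝ) ≤ X := Nat.floor_le (by linarith)
  calc (S.card : ℝ) ≤ ((T.Q ^ 3 * T.C0 * ⌊X⌋₊ * (A.card * B.card) : ℕ) : ℝ) := by exact_mod_cast hfin
    _ = (T.Q : ℝ) ^ 3 * T.C0 * (A.card * B.card) * (⌊X⌋₊ : ℝ) := by push_cast; ring
    _ ≤ (T.Q : ℝ) ^ 3 * T.C0 * (A.card * B.card) * X :=
        mul_le_mul_of_nonneg_left hfl (by positivity)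
    _ ≤ _ := by linarith

include T in
theorem dvTail : ∃ C : ℝ, 1 ≤ C ∧ ∀ (w : ℕ) (S : Finset (Ideal O × Ideal P)),
    (∀ p ∈ S, p.1 ≠ ⊥ ∧ p.2 ≠ ⊥ ∧ (w : ℝ) < (nI p.1 : ℝ) * nI p.2) →
    ∑ p ∈ S, 1 / ((nI p.1 : ℝ) * nI p.2) ^ 2 ≤ C / (w + 1) := by
  obtain ⟨C, hC1, hC⟩ := T.dvCount
  refine ⟨4 * C, by linarith, fun w S hS => ?_⟩
  obtain ⟨Nf, hNf⟩ : ∃ Nf : Ideal O × Ideal P → ℕ, ∀ p, Nf p = nI p.1 * nI p.2 := ⟨_, fun _ => rfl⟩
  have hcast : ∀ p : Ideal O × Ideal P, (nI p.1 : ℝ) * nI p.2 = (Nf p : ℝ) := by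
    intro p
    rw [hNf]
    push_cast
    rfl
  simp only [hcast] at hS hC ⊢
  -- dyadic classes
  let j : Ideal O × Ideal P → ℕ := fun I => Nat.log 2 (Nf I / (w + 1))
  have hw0 : (0 : ℝ) < w + 1 := by positivity
  have hS1 : ∀ I ∈ S, w + 1 ≤ Nf I := fun I hI => by exact_mod_cast (hS I hI).2.2
  have hlow : ∀ I ∈ S, (2 : ℝ) ^ j I * (w + 1) ≤ Nf I := by
    intro I hI
    have h1 : Nf I / (w + 1) ≠ 0 := by
      have := Nat.div_pos (hS1 I hI) (Nat.succ_pos w)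
      exact this.ne'
    have h2 : 2 ^ j I ≤ Nf I / (w + 1) := Nat.pow_log_le_self 2 h1
    have h3 : 2 ^ j I * (w + 1) ≤ Nf I :=
      (Nat.mul_le_mul_right _ h2).trans (Nat.div_mul_le_self _ _)
    exact_mod_cast h3
  have hup : ∀ I ∈ S, (Nf I : ℝ) ≤ 2 * 2 ^ j I * (w + 1) := by
    intro I hI
    have h2 : Nf I / (w + 1) < 2 ^ (j I + 1) := Nat.lt_pow_succ_log_self (by norm_num) _
    have h3 : Nf I < 2 ^ (j I + 1) * (w + 1) :=
      (Nat.div_lt_iff_lt_mul (Nat.succ_pos w)).1 h2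
    have h4 : (Nf I : ℝ) < 2 ^ (j I + 1) * (w + 1) := by exact_mod_cast h3
    rw [pow_succ] at h4
    linarith
  let J : ℕ := S.sup j + 1
  have hJ : ∀ I ∈ S, j I ∈ Finset.range J := fun I hI =>
    Finset.mem_range.2 (Nat.lt_succ_of_le (Finset.le_sup hI))
  have hsplit : ∑ I ∈ S, 1 / (Nf I : ℝ) ^ 2 =
      ∑ i ∈ Finset.range J, ∑ I ∈ S.filter (fun I => j I = i), 1 / (Nf I : ℝ) ^ 2 :=
    (Finset.sum_fiberwise_of_maps_to hJ _).symm
  rw [hsplit]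
  have hone : ∀ i ∈ Finset.range J,
      ∑ I ∈ S.filter (fun I => j I = i), 1 / (Nf I : ℝ) ^ 2 ≤
        (2 * C / (w + 1)) * (1 / 2) ^ i := by
    intro i _
    have h1 : ∀ I ∈ S.filter (fun I => j I = i), 1 / (Nf I : ℝ) ^ 2 ≤
        1 / ((2 : ℝ) ^ i * (w + 1)) ^ 2 := by
      intro I hI
      obtain ⟨hI1, hI2⟩ := Finset.mem_filter.1 hI
      have h2 := hlow I hI1
      rw [hI2] at h2
      have h3 : 0 < (2 : ℝ) ^ i * (w + 1) := by positivity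
      gcongr
    have h4 : ((S.filter (fun I => j I = i)).card : ℝ) ≤ C * (2 * 2 ^ i * (w + 1)) := by
      refine hC _ ?_ _ fun I hI => ?_
      · have h5 : (1 : ℝ) ≤ 2 ^ i := one_le_pow₀ (by norm_num)
        have h6 : (0 : ℝ) ≤ w := Nat.cast_nonneg w
        nlinarith
      · obtain ⟨hI1, hI2⟩ := Finset.mem_filter.1 hI
        have h2 := hup I hI1
        rw [hI2] at h2
        exact ⟨(hS I hI1).1, (hS I hI1).2.1, h2⟩
    calc _ ≤ ∑ I ∈ S.filter (fun I => j I = i), 1 / ((2 : ℝ) ^ i * (w + 1)) ^ 2 :=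
          Finset.sum_le_sum h1
      _ = ((S.filter (fun I => j I = i)).card : ℝ) * (1 / ((2 : ℝ) ^ i * (w + 1)) ^ 2) := by
          rw [Finset.sum_const, nsmul_eq_mul]
      _ ≤ C * (2 * 2 ^ i * (w + 1)) * (1 / ((2 : ℝ) ^ i * (w + 1)) ^ 2) :=
          mul_le_mul_of_nonneg_right h4 (by positivity)
      _ = (2 * C / (w + 1)) * (1 / 2) ^ i := by
          have h5 : (2 : ℝ) ^ i ≠ 0 := by positivity
          rw [one_div, one_div, inv_pow]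
          field_simp
  refine (Finset.sum_le_sum hone).trans ?_
  rw [← Finset.mul_sum]
  have hgeo : ∑ i ∈ Finset.range J, (1 / 2 : ℝ) ^ i ≤ 2 := by
    have h1 := geom_sum_eq (show (1 / 2 : ℝ) ≠ 1 by norm_num) J
    rw [h1]
    have h2 : (0 : ℝ) ≤ (1 / 2) ^ J := by positivity
    rw [div_le_iff_of_neg (by norm_num)]
    linarith
  calc 2 * C / (w + 1) * ∑ i ∈ Finset.range J, (1 / 2 : ℝ) ^ i ≤ 2 * C / (w + 1) * 2 :=
        mul_le_mul_of_nonneg_left hgeo (by positivity)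
    _ = 4 * C / (w + 1) := by ring

include T in
theorem FQO : FQ O := by
  refine ⟨T.finO, ?_⟩
  obtain ⟨C, hC1, hC⟩ := T.dvCount
  refine ⟨C, hC1, fun X hX S hS => ?_⟩
  have h := hC X hX (S.image fun I => (I, (⊤ : Ideal P))) (by
    intro p hp
    obtain ⟨I, hI, rfl⟩ := Finset.mem_image.1 hp
    refine ⟨(hS I hI).1, bot_ne_top.symm, ?_⟩
    rw [nI_top, Nat.cast_one, mul_one]
    exact (hS I hI).2)
  rwa [Finset.card_image_of_injective _ (fun a b e => congrArg Prod.fst e)] at h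

include T in
theorem FQP : FQ P := by
  refine ⟨T.finP, ?_⟩
  obtain ⟨C, hC1, hC⟩ := T.dvCount
  refine ⟨C, hC1, fun X hX S hS => ?_⟩
  have h := hC X hX (S.image fun J => ((⊤ : Ideal O), J)) (by
    intro p hp
    obtain ⟨I, hI, rfl⟩ := Finset.mem_image.1 hp
    refine ⟨bot_ne_top.symm, (hS I hI).1, ?_⟩
    rw [nI_top, Nat.cast_one, one_mul]
    exact (hS I hI).2)
  rwa [Finset.card_image_of_injective _ (fun a b e => congrArg Prod.snd e)] at h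

end TC

end Pool.Agent.Lib.MP_1ad228_ntZ
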