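import Pool.Agent.Lib.MP_1ad228_ntZ.N2
import Pool.Agent.Lib.MP_1ad228_ntZ.DvCnt

/-!
LEAF CntY.  Number of points `y` with given divisor of minors.
cntY: if `Dd x y ≤ I` and `lin u x = 1` then `y_i - λ x_i ∈ I` for all `i` with `λ = lin u y` (`y_i = sum_j u_j x_j y_i = sum_j u_j (x_i y_j + minor)`); the same in `P` for the twists with `λ'`, modulo `J`.
So the set is covered by the `nI I * nI J` sets (one for each pair of classes of `λ`, `λ'`; representatives by `Ideal.Quotient.mk_surjective`) of the vectors with `y_i ≡ λ x_i (I)`, `tw y_i ≡ λ' tw x_i (J)`, each a product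
(piFinset) of `n+1` classes with at most `1 + Q * Q^b / N ≤ 2 Q * Q^b / N` elements (class_up, `N = nI I * nI J ≤ Q^b`).  `C = (2 Q)^(n+1)`.
prp_cnt: `y_i = c x_i` with `c = lin u y` in `O`, `tw y_i = c' tw x_i` with `c' ∈ P`; as some `x_i ≠ 0`, `c = c'` in `K`, so `c ∈ H 0` (tw_eq); `y ↦ c` is injective.
bad_gt: if `WD O w` is not contained in `D = Dd x y` then `nI D > w` (WD_le), the other factor is `≥ 1`.
nD_pos: Dd_ne, nI_pos.  nD_up: some minor is nonzero, it lies in `H (b+b)`: `T.prod_le`.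
-/

namespace Pool.Agent.Lib.MP_1ad228_ntZ

open Classical

private theorem CntY_sum {R : Type} [CommRing R] {n : ℕ} {x y u : Vc n R} (hu : lin u x = 1)
    (i : Fin (n + 1)) : y i - lin u y * x i = ∑ j, u j * mn x y j i := by
  have h1 : y i = lin u x * y i := by rw [hu, one_mul]
  have h2 : ∑ j, u j * mn x y j i = lin u x * y i - lin u y * x i := by
    rw [Pool.Agent.Lib.MP_219881_nt.lin, Pool.Agent.Lib.MP_219881_nt.lin, Finset.sum_mul, Finset.sum_mul, ← Finset.sum_sub_distrib]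
    refine Finset.sum_congr rfl fun j _ => ?_
    rw [Pool.Agent.Lib.MP_219881_nt.mn]
    ring
  rw [h2, ← h1]

private theorem CntY_mn {R : Type} [CommRing R] {n : ℕ} (x y : Vc n R) (i j : Fin (n + 1)) :
    mn x y i j ∈ Dd x y :=
  Ideal.subset_span ⟨(i, j), rfl⟩

private theorem CntY_lam {R : Type} [CommRing R] {n : ℕ} {x y u : Vc n R} (hu : lin u x = 1)
    {I : Ideal R} (h : Dd x y ≤ I) (i : Fin (n + 1)) : y i - lin u y * x i ∈ I := by
  rw [CntY_sum hu]
  exact Ideal.sum_mem _ fun j _ => I.mul_mem_left _ (h (CntY_mn x y j i))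

private theorem CntY_prp {R : Type} [CommRing R] {n : ℕ} {x y u : Vc n R} (hu : lin u x = 1)
    (h : Prp x y) (i : Fin (n + 1)) : y i = lin u y * x i := by
  have h1 := CntY_sum (y := y) hu i
  rw [Finset.sum_eq_zero fun j _ => by rw [h j i, mul_zero]] at h1
  exact sub_eq_zero.1 h1

namespace TC
variable {K O P : Type} [Field K] [CommRing O] [IsDedekindDomain O] [Algebra O K]
  [IsFractionRing O K] [CommRing P] [IsDedekindDomain P] [Algebra P K]
  [IsFractionRing P K] (T : TC K O P)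

theorem cntY (n b : ℕ) {x : Vc n O} (hx : x ∈ T.VB n b) (hx1 : Uni x) (hx2 : Uni (T.vtw b x))
    {I : Ideal O} {J : Ideal P} (hI : I ≠ ⊥) (hJ : J ≠ ⊥) (h : nI I * nI J ≤ T.Q ^ b) :
    (((T.VB n b).filter fun y => Dd x y ≤ I ∧ Dd (T.vtw b x) (T.vtw b y) ≤ J).card : ℝ) ≤
      (2 * T.Q : ℝ) ^ (n + 1) * ((T.Q : ℝ) ^ (b * (n + 1)) / ((nI I : ℝ) * nI J) ^ n) := by
  obtain ⟨u, hu⟩ := hx1
  obtain ⟨u', hu'⟩ := hx2
  have hfI := T.finO I hI
  have hfJ := T.finP J hJ
  have := Fintype.ofFinite (O ⧸ I)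
  have := Fintype.ofFinite (P ⧸ J)
  have hN1 : 1 ≤ nI I := nI_pos T.finO hI
  have hN2 : 1 ≤ nI J := nI_pos T.finP hJ
  have hN : (0 : ℝ) < (nI I : ℝ) * nI J := by
    have h1 : (0 : ℝ) < nI I := by exact_mod_cast hN1
    have h2 : (0 : ℝ) < nI J := by exact_mod_cast hN2
    positivity
  have hQ : (1 : ℝ) ≤ T.Q := by
    have := T.two_le
    exact_mod_cast (by omega : 1 ≤ T.Q)
  have hle : (nI I : ℝ) * nI J ≤ (T.Q : ℝ) ^ b := by exact_mod_cast h
  set rO : O ⧸ I → O := fun α => (Ideal.Quotient.mk_surjective α).choose with hrO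
  set rP : P ⧸ J → P := fun β => (Ideal.Quotient.mk_surjective β).choose with hrP
  have hrO' : ∀ α, Ideal.Quotient.mk I (rO α) = α := fun α =>
    (Ideal.Quotient.mk_surjective α).choose_spec
  have hrP' : ∀ β, Ideal.Quotient.mk J (rP β) = β := fun β =>
    (Ideal.Quotient.mk_surjective β).choose_spec
  set B : (O ⧸ I) × (P ⧸ J) → Finset (Vc n O) := fun p => Fintype.piFinset fun i =>
    (T.H b).filter fun z => z - rO p.1 * x i ∈ I ∧ T.tw b z - rP p.2 * T.vtw b x i ∈ J with hB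
  have hsub : ((T.VB n b).filter fun y => Dd x y ≤ I ∧ Dd (T.vtw b x) (T.vtw b y) ≤ J) ⊆
      Finset.univ.biUnion B := by
    intro y hy
    rw [Finset.mem_filter, T.mem_VB] at hy
    obtain ⟨hy1, hy2, hy3⟩ := hy
    rw [Finset.mem_biUnion]
    refine ⟨(Ideal.Quotient.mk I (lin u y), Ideal.Quotient.mk J (lin u' (T.vtw b y))),
      Finset.mem_univ _, ?_⟩
    rw [hB, Fintype.mem_piFinset]
    intro i
    rw [Finset.mem_filter]
    refine ⟨hy1 i, ?_, ?_⟩
    · have h1 := CntY_lam hu hy2 i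
      have h2 : lin u y - rO (Ideal.Quotient.mk I (lin u y)) ∈ I := by
        rw [← Ideal.Quotient.eq, hrO']
      have h3 : y i - rO (Ideal.Quotient.mk I (lin u y)) * x i =
          (y i - lin u y * x i) +
            (lin u y - rO (Ideal.Quotient.mk I (lin u y))) * x i := by ring
      show y i - rO (Ideal.Quotient.mk I (lin u y)) * x i ∈ I
      rw [h3]
      exact I.add_mem h1 (I.mul_mem_right _ h2)
    · have h1 := CntY_lam hu' hy3 i
      have h2 : lin u' (T.vtw b y) - rP (Ideal.Quotient.mk J (lin u' (T.vtw b y))) ∈ J := by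
        rw [← Ideal.Quotient.eq, hrP']
      have h3 : T.vtw b y i - rP (Ideal.Quotient.mk J (lin u' (T.vtw b y))) * T.vtw b x i =
          (T.vtw b y i - lin u' (T.vtw b y) * T.vtw b x i) +
            (lin u' (T.vtw b y) - rP (Ideal.Quotient.mk J (lin u' (T.vtw b y)))) *
              T.vtw b x i := by ring
      show T.vtw b y i - rP (Ideal.Quotient.mk J (lin u' (T.vtw b y))) * T.vtw b x i ∈ J
      rw [h3]
      exact J.add_mem h1 (J.mul_mem_right _ h2)
  set X : ℝ := (T.Q : ℝ) ^ b / ((nI I : ℝ) * nI J) with hX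
  have hX1 : 1 ≤ X := by
    rw [hX, le_div_iff₀ hN, one_mul]
    exact hle
  have hBc : ∀ p, ((B p).card : ℝ) ≤ (2 * T.Q * X) ^ (n + 1) := by
    intro p
    rw [hB]
    show (((Fintype.piFinset fun i => (T.H b).filter fun z => z - rO p.1 * x i ∈ I ∧
      T.tw b z - rP p.2 * T.vtw b x i ∈ J).card : ℕ) : ℝ) ≤ _
    rw [Fintype.card_piFinset]
    push_cast
    refine (Finset.prod_le_prod (fun _ _ => Nat.cast_nonneg _)
      (g := fun _ : Fin (n + 1) => 2 * (T.Q : ℝ) * X) fun i _ => ?_).trans (le_of_eq ?_)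
    · have h1 := T.class_up b hI hJ (rO p.1 * x i) (rP p.2 * T.vtw b x i)
      refine h1.trans ?_
      have h2 : (1 : ℝ) ≤ T.Q * X := by
        nlinarith
      have h3 : (2 : ℝ) * T.Q * X = T.Q * X + T.Q * X := by ring
      rw [h3]
      linarith
    · rw [Finset.prod_const, Finset.card_univ, Fintype.card_fin]
  have h1 : (((T.VB n b).filter fun y => Dd x y ≤ I ∧
      Dd (T.vtw b x) (T.vtw b y) ≤ J).card : ℝ) ≤ ∑ p, ((B p).card : ℝ) := by
    have h2 := (Finset.card_le_card hsub).trans Finset.card_biUnion_le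
    exact_mod_cast h2
  refine h1.trans ((Finset.sum_le_sum fun p _ => hBc p).trans (le_of_eq ?_))
  rw [Finset.sum_const, Finset.card_univ, Fintype.card_prod, ← Nat.card_eq_fintype_card,
    ← Nat.card_eq_fintype_card, nsmul_eq_mul]
  change (((nI I * nI J : ℕ)) : ℝ) * _ = _
  push_cast
  rw [hX, mul_pow, div_pow, ← pow_mul, pow_succ ((nI I : ℝ) * nI J) n]
  have hne : ((nI I : ℝ) * nI J) ≠ 0 := hN.ne'
  field_simp

theorem prp_cnt {n b g : ℕ} {x : Vc n O} (hx : x ∈ T.GG n b g) :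
    ((T.GG n b g).filter fun y => Prp x y).card ≤ T.h 0 := by
  obtain ⟨hxV, ⟨u, hu⟩, ⟨u', hu'⟩, _⟩ := T.mem_GG.1 hx
  have hprp : ∀ y ∈ T.VB n b, Prp x y → Prp (T.vtw b x) (T.vtw b y) := by
    intro y hy h i j
    rw [← T.tw_mn hxV hy, h i j, T.tw_zero]
  have hex : ∃ i, x i ≠ 0 := by
    by_contra hc
    push Not at hc
    have h1 : lin u x = 0 := by
      rw [Pool.Agent.Lib.MP_219881_nt.lin]
      exact Finset.sum_eq_zero fun i _ => by rw [hc i, mul_zero]
    rw [hu] at h1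
    exact one_ne_zero h1
  obtain ⟨i, hi⟩ := hex
  have hxH := T.mem_VB.1 hxV
  refine Finset.card_le_card_of_injOn (fun y => lin u y) ?_ ?_
  · intro y hy
    rw [Finset.mem_coe, Finset.mem_filter, T.mem_GG] at hy
    obtain ⟨⟨hyV, _⟩, hy2⟩ := hy
    have hyH := T.mem_VB.1 hyV
    have h1 := CntY_prp hu hy2 i
    have h2 := CntY_prp hu' (hprp y hyV hy2) i
    have h3 := congrArg (algebraMap P K) h2
    have h4 : algebraMap P K (T.vtw b y i) =
        algebraMap P K T.s ^ b * algebraMap O K (y i) := T.tw_spec (hyH i)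
    have h5 : algebraMap P K (T.vtw b x i) =
        algebraMap P K T.s ^ b * algebraMap O K (x i) := T.tw_spec (hxH i)
    rw [map_mul, h4, h5, h1, map_mul] at h3
    have h6 : algebraMap O K (x i) ≠ 0 := by
      rw [Ne, IsFractionRing.to_map_eq_zero_iff]
      exact hi
    have h7 : algebraMap P K T.s ^ b ≠ 0 := pow_ne_zero _ T.s_ne
    have h8 : algebraMap P K (lin u' (T.vtw b y)) =
        algebraMap P K T.s ^ 0 * algebraMap O K (lin u y) := by
      rw [pow_zero, one_mul]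
      have h9 : (algebraMap P K T.s ^ b * algebraMap O K (x i)) *
          (algebraMap P K (lin u' (T.vtw b y)) - algebraMap O K (lin u y)) = 0 := by
        linear_combination -h3
      rcases mul_eq_zero.1 h9 with h10 | h10
      · exact absurd h10 (mul_ne_zero h7 h6)
      · exact sub_eq_zero.1 h10
    rw [Finset.mem_coe]
    exact (T.tw_eq h8).1
  · intro y hy z hz hyz
    rw [Finset.mem_coe, Finset.mem_filter] at hy hz
    funext k
    rw [CntY_prp hu hy.2 k, CntY_prp hu hz.2 k]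
    simp only at hyz
    rw [hyz]

theorem nD_pos {n b : ℕ} {x y : Vc n O} (hx : x ∈ T.VB n b) (hy : y ∈ T.VB n b)
    (hxy : ¬ Prp x y) : 1 ≤ T.nD b x y := by
  have h := T.Dd_ne hx hy hxy
  rw [nD]
  exact Nat.mul_pos (nI_pos T.finO h.1) (nI_pos T.finP h.2)

theorem nD_up {n b : ℕ} {x y : Vc n O} (hx : x ∈ T.VB n b) (hy : y ∈ T.VB n b)
    (hxy : ¬ Prp x y) : T.nD b x y ≤ T.Q ^ (b + b) := by
  rw [Prp] at hxy
  push Not at hxy
  obtain ⟨i, j, hij⟩ := hxy
  have h1 := T.tw_spec (T.mn_mem hx hy i j)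
  refine T.prod_le (b + b) (mn x y i j) (T.tw (b + b) (mn x y i j)) hij h1 _ _
    (CntY_mn x y i j) ?_
  rw [T.tw_mn hx hy]
  exact CntY_mn _ _ i j

theorem bad_gt {n b w : ℕ} {x y : Vc n O} (hx : x ∈ T.VB n b) (hy : y ∈ T.VB n b)
    (hxy : ¬ Prp x y) (h : ¬ (WD O w ≤ Dd x y ∧ WD P w ≤ Dd (T.vtw b x) (T.vtw b y))) :
    w < T.nD b x y := by
  by_contra hc
  rw [not_lt, nD] at hc
  obtain ⟨h1, h2⟩ := T.Dd_ne hx hy hxy
  have h3 := nI_pos T.finO h1
  have h4 := nI_pos T.finP h2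
  refine h ⟨WD_le T.finO (T.fewO w) h1 ?_, WD_le T.finP (T.fewP w) h2 ?_⟩
  · exact (Nat.le_mul_of_pos_right _ h4).trans hc
  · exact (Nat.le_mul_of_pos_left _ h3).trans hc

end TC

end Pool.Agent.Lib.MP_1ad228_ntZ
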