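import Pool.Agent.Lib.MP_1ad228_ntZ.BPair
import Pool.Agent.Lib.MP_1ad228_ntZ.BPP
import Pool.Agent.Lib.MP_1ad228_ntZ.CntY

/-!
LEAF BCnt (borderline case).  The number of exceptional pairs; the n2 bound with a loss.
szZ (Schwartz-Zippel): `MvPolynomial.schwartz_zippel_totalDegree` over `K` with the finite set image of `T.H g` (model: szUnionK in ntN/B_SzK.lean; `h g ≤ Q^(g+1)`).
excCountZ: `K` is infinite (it contains `O`; `T.h c ≥ Q^c / C0` is unbounded).  `I` = the finite set `T.TT n k` (finite and without 0: exSet.choose_spec); for `τ ∈ I` `excPolyF` for `e i j = τ (i, j)`.  The map `(x, y) ↦ (fb x, fb y)` has fibres of at most `(h 0)^2` elements: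
if `fb x = fb x'` then `x, x'` are orthogonal to the same `n` independent vectors, so `Prp x x'` (model excInj), and prp_cnt.  (model: excCount in ntN/B_ExcK.lean)
n2_leB: `n2 (a) ≤ n2 (a + k)` (H_mono), `n2_le` at level `a + k`, and `h (a + k) ≤ Q^(a+k+1) ≤ C0 Q^(k+1) h a`, `h (a + 2b) ≤ h (a + k + 2b)`.
-/

namespace Pool.Agent.Lib.MP_1ad228_ntZ

open Classical

/-- The image of a vector over `K`. -/
private def BCnt_kv (K : Type) {O : Type} [CommRing O] [Field K] [Algebra O K] {n : ℕ}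
    (x : Vc n O) : Vc n K := fun i => algebraMap O K (x i)

private theorem BCnt_lin {K O : Type} [CommRing O] [Field K] [Algebra O K] {n : ℕ}
    (f x : Vc n O) : lin (BCnt_kv K f) (BCnt_kv K x) = algebraMap O K (lin f x) := by
  unfold lin BCnt_kv
  simp only [map_sum, map_mul]

private noncomputable def BCnt_L (K : Type) {O : Type} [CommRing O] [Field K] [Algebra O K]
    (n : ℕ) : Vc n O →ₗ[O] Vc n K where
  toFun x := BCnt_kv K x
  map_add' x y := by
    funext i
    simp [BCnt_kv]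
  map_smul' c x := by
    funext i
    simp [BCnt_kv, Algebra.smul_def]

private theorem BCnt_span {K : Type} [Field K] {n : ℕ} (f : Fin n → Vc n K) (z : Vc n K)
    (hz : ∀ s, lin (f s) z = 0) (u : Vc n K) (hu : u ∈ Submodule.span K (Set.range f)) :
    lin u z = 0 := by
  induction hu using Submodule.span_induction with
  | mem x hx =>
    obtain ⟨s, rfl⟩ := hx
    exact hz s
  | zero => simp [lin]
  | add x y _ _ hx hy =>
    have : lin (x + y) z = lin x z + lin y z := by
      simp only [lin, Pi.add_apply, add_mul, Finset.sum_add_distrib]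
    rw [this, hx, hy, add_zero]
  | smul c x _ hx =>
    have : lin (c • x) z = c * lin x z := by
      simp only [lin, Pi.smul_apply, smul_eq_mul, Finset.mul_sum, mul_assoc]
    rw [this, hx, mul_zero]

private theorem BCnt_lin2 {K O : Type} [CommRing O] [Field K] [Algebra O K] {n : ℕ}
    (o j : Fin (n + 1)) (a b : K) (z : Vc n O) :
    lin (fun i => (if i = o then a else 0) - (if i = j then b else 0)) (BCnt_kv K z) =
      a * algebraMap O K (z o) - b * algebraMap O K (z j) := by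
  simp only [lin, sub_mul, Finset.sum_sub_distrib, ite_mul, zero_mul,
    Finset.sum_ite_eq', Finset.mem_univ, if_true]
  rfl

private theorem BCnt_perp {K O : Type} [CommRing O] [IsDomain O] [Field K] [Algebra O K]
    [IsFractionRing O K] {n : ℕ} (x : Vc n O) (hx : x ≠ 0) (f : Fin n → Vc n O)
    (hf : LinearIndependent O f) (h0 : ∀ s, lin (f s) x = 0) {u : Vc n K}
    (hu : lin u (BCnt_kv K x) = 0) :
    u ∈ Submodule.span K (Set.range fun s : Fin n => BCnt_kv K (f s)) := by
  refine Pool.Agent.Lib.MP_1ad228_ntN.perpSpanF (BCnt_kv K x) (fun h => hx ?_) _ ?_ (fun s => ?_) u hu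
  · funext i
    have := congrFun h i
    exact IsFractionRing.injective O K (by rw [Pi.zero_apply, map_zero]; exact this)
  · have hinj : LinearMap.ker (BCnt_L K (O := O) n) = ⊥ := by
      rw [LinearMap.ker_eq_bot]
      intro a b hab
      funext i
      exact IsFractionRing.injective O K (congrFun hab i)
    have h1 := hf.map' (BCnt_L K (O := O) n) hinj
    exact (LinearIndependent.iff_fractionRing O K).mp h1
  · rw [BCnt_lin, h0 s]
    simp

/-- Vectors orthogonal to the same independent vectors are proportional. -/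
private theorem BCnt_inj {K O : Type} [CommRing O] [IsDomain O] [Field K] [Algebra O K]
    [IsFractionRing O K] {n : ℕ} (x x' : Vc n O) (hx0 : x ≠ 0) (f : Fin n → Vc n O)
    (hf : LinearIndependent O f) (h0 : ∀ s, lin (f s) x = 0) (h1 : ∀ s, lin (f s) x' = 0) :
    Prp x x' := by
  intro i j
  obtain ⟨u, hu⟩ : ∃ u : Vc n K, u = fun l => (if l = i then algebraMap O K (x j) else 0) -
      (if l = j then algebraMap O K (x i) else 0) := ⟨_, rfl⟩
  have hux : lin u (BCnt_kv K x) = 0 := by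
    rw [hu, BCnt_lin2]
    ring
  have h2 := BCnt_perp x hx0 f hf h0 hux
  have h3 : lin u (BCnt_kv K x') = 0 := by
    refine BCnt_span _ _ (fun s => ?_) u h2
    rw [BCnt_lin, h1 s]
    exact map_zero _
  rw [hu, BCnt_lin2, ← map_mul, ← map_mul, ← map_sub] at h3
  have h5 : x j * x' i - x i * x' j = 0 := by
    apply IsFractionRing.injective O K
    rw [map_zero]
    exact h3
  simp only [mn]
  linear_combination -h5

namespace TC
variable {K O P : Type} [Field K] [CommRing O] [IsDedekindDomain O] [Algebra O K]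
  [IsFractionRing O K] [CommRing P] [IsDedekindDomain P] [Algebra P K]
  [IsFractionRing P K] (T : TC K O P)

include T in
private theorem BCnt_inf : Infinite K := by
  rw [← not_finite_iff_infinite]
  intro hK
  have hinj : Function.Injective (algebraMap O K) := IsFractionRing.injective O K
  have hO : Finite O := Finite.of_injective _ hinj
  have : Fintype O := Fintype.ofFinite O
  have h1 : ∀ c : ℕ, T.Q ^ c ≤ T.C0 * Fintype.card O := fun c =>
    (T.h_low c).trans (Nat.mul_le_mul_left _ (Finset.card_le_univ _))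
  have h2 := h1 (T.C0 * Fintype.card O)
  have h3 : T.C0 * Fintype.card O < T.Q ^ (T.C0 * Fintype.card O) :=
    Nat.lt_pow_self (by have := T.two_le; omega)
  omega

private theorem BCnt_sz {κ : Type} [Fintype κ] (Pl : MvPolynomial κ K) (hP : Pl ≠ 0) (g : ℕ) :
    (((Fintype.piFinset fun _ : κ => T.H g).filter fun z =>
      MvPolynomial.eval (fun k => algebraMap O K (z k)) Pl = 0).card : ℝ) ≤
      (Pl.totalDegree : ℝ) * (T.h g : ℝ) ^ (Fintype.card κ - 1) := by
  obtain ⟨w, -⟩ : ∃ w : κ ≃ Fin (Fintype.card κ), w = w := ⟨Fintype.equivFin κ, rfl⟩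
  have hQ : MvPolynomial.rename w Pl ≠ 0 := by
    intro h
    apply hP
    apply MvPolynomial.rename_injective w w.injective
    rw [h, map_zero]
  have hdeg : (MvPolynomial.rename w Pl).totalDegree ≤ Pl.totalDegree :=
    MvPolynomial.totalDegree_rename_le _ _
  have hinj : Function.Injective (fun z : O => algebraMap O K z) := IsFractionRing.injective O K
  have h := MvPolynomial.schwartz_zippel_totalDegree hQ ((T.H g).image fun z : O => algebraMap O K z)
  have hS : ((T.H g).image fun z : O => algebraMap O K z).card = T.h g :=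
    Finset.card_image_of_injective _ hinj
  have hS0 : 0 < T.h g := T.h_pos g
  rw [hS] at h
  have hcard : ((Fintype.piFinset fun _ : κ => T.H g).filter fun z =>
      MvPolynomial.eval (fun k => algebraMap O K (z k)) Pl = 0).card =
      ((Fintype.piFinset fun _ : Fin (Fintype.card κ) => ((T.H g).image fun z : O => algebraMap O K z)).filter
        fun z => MvPolynomial.eval z (MvPolynomial.rename w Pl) = 0).card := by
    refine Finset.card_bij (fun z _ j => algebraMap O K (z (w.symm j))) ?_ ?_ ?_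
    · intro z hz
      have hz' := Finset.mem_filter.mp hz
      refine Finset.mem_filter.mpr ⟨?_, ?_⟩
      · rw [Fintype.mem_piFinset] at hz' ⊢
        intro j
        exact Finset.mem_image.2 ⟨z (w.symm j), hz'.1 (w.symm j), rfl⟩
      · rw [MvPolynomial.eval_rename]
        have e : (fun j => algebraMap O K (z (w.symm j))) ∘ w = fun k => algebraMap O K (z k) := by
          funext j
          simp
        rw [e]
        exact hz'.2
    · intro z _ z' _ hzz
      funext j
      have := congrFun hzz (w j)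
      simp only [Equiv.symm_apply_apply] at this
      exact hinj this
    · intro y hy
      have hy' := Finset.mem_filter.mp hy
      have h1 := hy'.1
      rw [Fintype.mem_piFinset] at h1
      choose z hz hzy using fun j => Finset.mem_image.1 (h1 j)
      refine ⟨z ∘ w, Finset.mem_filter.mpr ⟨?_, ?_⟩, ?_⟩
      · rw [Fintype.mem_piFinset]
        intro j
        exact hz (w j)
      · have h2 := hy'.2
        rw [MvPolynomial.eval_rename] at h2
        have e : y ∘ w = fun k => algebraMap O K ((z ∘ w) k) := by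
          funext j
          exact (hzy (w j)).symm
        rw [e] at h2
        exact h2
      · funext j
        simp only [Function.comp_apply, Equiv.apply_symm_apply]
        exact hzy j
  rw [hcard]
  obtain ⟨N, hN⟩ : ∃ N : ℕ, N = ((Fintype.piFinset fun _ : Fin (Fintype.card κ) => ((T.H g).image fun z : O => algebraMap O K z)).filter
        fun z => MvPolynomial.eval z (MvPolynomial.rename w Pl) = 0).card := ⟨_, rfl⟩
  obtain ⟨D, hD⟩ : ∃ D : ℕ, D = (MvPolynomial.rename w Pl).totalDegree := ⟨_, rfl⟩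
  obtain ⟨s, hs⟩ : ∃ s : ℕ, s = T.h g := ⟨_, rfl⟩
  rw [← hD, ← hs] at h
  rw [← hD] at hdeg
  rw [← hs] at hS0
  rw [← hN, ← hs]
  have h' : (N : ℝ) / (s : ℝ) ^ (Fintype.card κ) ≤ (D : ℝ) / (s : ℝ) := by
    have h2 : (((N : ℚ≥0) / (s : ℚ≥0) ^ (Fintype.card κ) : ℚ≥0) : ℝ) ≤
        (((D : ℚ≥0) / (s : ℚ≥0) : ℚ≥0) : ℝ) := by
      refine NNRat.cast_le.mpr ?_
      refine le_trans (le_of_eq ?_) h
      rw [hN]
    push_cast at h2 ⊢
    exact h2
  have hb1 : (1 : ℝ) ≤ (s : ℝ) := by exact_mod_cast hS0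
  have hb : (0 : ℝ) < (s : ℝ) := by linarith
  rw [div_le_div_iff₀ (pow_pos hb _) hb] at h'
  have hDP : (D : ℝ) ≤ Pl.totalDegree := by exact_mod_cast hdeg
  have hN0 : (0 : ℝ) ≤ N := Nat.cast_nonneg _
  have hD0 : (0 : ℝ) ≤ D := Nat.cast_nonneg _
  rcases Nat.eq_zero_or_pos (Fintype.card κ) with h0 | h0
  · rw [h0, pow_zero, mul_one] at h'
    rw [h0]
    simp only [Nat.zero_sub, pow_zero, mul_one]
    nlinarith
  · obtain ⟨k, hK⟩ : ∃ k, Fintype.card κ = k + 1 := ⟨Fintype.card κ - 1, by omega⟩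
    rw [hK] at h' ⊢
    rw [Nat.add_sub_cancel]
    rw [pow_succ, ← mul_assoc] at h'
    have h3 := le_of_mul_le_mul_right h' hb
    refine h3.trans ?_
    exact mul_le_mul_of_nonneg_right hDP (pow_nonneg hb.le _)

private theorem BCnt_union {κ ι : Type} [Fintype κ] (I : Finset ι) (Pl : ι → MvPolynomial κ K)
    (hP : ∀ i ∈ I, Pl i ≠ 0) : ∃ C : ℝ, 1 ≤ C ∧ ∀ g : ℕ,
    (((Fintype.piFinset fun _ : κ => T.H g).filter fun z =>
      ∃ i ∈ I, MvPolynomial.eval (fun k => algebraMap O K (z k)) (Pl i) = 0).card : ℝ) ≤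
      C * (T.Q : ℝ) ^ (g * (Fintype.card κ - 1)) := by
  have hQ0 : (0 : ℝ) ≤ T.Q := Nat.cast_nonneg _
  refine ⟨1 + (∑ i ∈ I, ((Pl i).totalDegree : ℝ)) * (T.Q : ℝ) ^ (Fintype.card κ - 1), ?_, ?_⟩
  · have h1 : 0 ≤ ∑ i ∈ I, ((Pl i).totalDegree : ℝ) := Finset.sum_nonneg fun _ _ => Nat.cast_nonneg _
    have h3 : 0 ≤ (∑ i ∈ I, ((Pl i).totalDegree : ℝ)) * (T.Q : ℝ) ^ (Fintype.card κ - 1) := by positivity
    linarith
  · intro g
    have hsub : ((Fintype.piFinset fun _ : κ => T.H g).filter fun z =>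
        ∃ i ∈ I, MvPolynomial.eval (fun k => algebraMap O K (z k)) (Pl i) = 0) ⊆
        I.biUnion fun i => (Fintype.piFinset fun _ : κ => T.H g).filter
          fun z => MvPolynomial.eval (fun k => algebraMap O K (z k)) (Pl i) = 0 := by
      intro z hz
      obtain ⟨h1, i, hi, h2⟩ := Finset.mem_filter.mp hz
      exact Finset.mem_biUnion.mpr ⟨i, hi, Finset.mem_filter.mpr ⟨h1, h2⟩⟩
    have h1 := (Finset.card_le_card hsub).trans Finset.card_biUnion_le
    have h2 : (((Fintype.piFinset fun _ : κ => T.H g).filter fun z =>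
        ∃ i ∈ I, MvPolynomial.eval (fun k => algebraMap O K (z k)) (Pl i) = 0).card : ℝ) ≤
        ∑ i ∈ I, (((Fintype.piFinset fun _ : κ => T.H g).filter
          fun z => MvPolynomial.eval (fun k => algebraMap O K (z k)) (Pl i) = 0).card : ℝ) := by
      exact_mod_cast h1
    refine h2.trans ?_
    have h5 : (T.h g : ℝ) ^ (Fintype.card κ - 1) ≤
        (T.Q : ℝ) ^ (Fintype.card κ - 1) * (T.Q : ℝ) ^ (g * (Fintype.card κ - 1)) := by
      have h6 : (T.h g : ℝ) ≤ (T.Q : ℝ) * (T.Q : ℝ) ^ g := by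
        have h7 := T.h_up g
        rw [pow_succ'] at h7
        exact_mod_cast h7
      refine (pow_le_pow_left₀ (Nat.cast_nonneg _) h6 _).trans (le_of_eq ?_)
      rw [mul_pow, ← pow_mul]
    have h3 : ∀ i ∈ I, (((Fintype.piFinset fun _ : κ => T.H g).filter
          fun z => MvPolynomial.eval (fun k => algebraMap O K (z k)) (Pl i) = 0).card : ℝ) ≤
        ((Pl i).totalDegree : ℝ) * ((T.Q : ℝ) ^ (Fintype.card κ - 1) *
          (T.Q : ℝ) ^ (g * (Fintype.card κ - 1))) := by
      intro i hi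
      exact (T.BCnt_sz (Pl i) (hP i hi) g).trans (mul_le_mul_of_nonneg_left h5 (Nat.cast_nonneg _))
    refine (Finset.sum_le_sum h3).trans ?_
    rw [← Finset.sum_mul]
    have h4 : 0 ≤ (T.Q : ℝ) ^ (g * (Fintype.card κ - 1)) := by positivity
    nlinarith

theorem n2_leB {n b g a d k : ℕ} (hd : 2 ≤ d) {x y : Vc n O} (hx : x ∈ T.GG n b g)
    (hy : y ∈ T.GG n b g) (hxy : ¬ Prp x y) (ha : 2 * g + T.c1 ≤ a + k) :
    T.n2 d x y a * T.h (a + d * b) ^ 2 ≤
      (T.C0 * T.Q ^ (k + 1)) ^ (n + 1) ^ d * (T.h a ^ (n + 1) ^ d * T.nD b x y) := by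
  have hsub : T.n2 d x y a ≤ T.n2 d x y (a + k) := by
    unfold n2
    refine Finset.card_le_card fun G hG => ?_
    rw [Finset.mem_filter] at hG ⊢
    exact ⟨T.mem_Box.2 fun i => T.H_mono (Nat.le_add_right a k) (T.mem_Box.1 hG.1 i), hG.2⟩
  have h1 := T.n2_le hd hx hy hxy ha
  have h2 : T.h (a + d * b) ≤ T.h (a + k + d * b) :=
    Finset.card_le_card (T.H_mono (by omega))
  have h3 : T.h (a + k) ≤ T.C0 * T.Q ^ (k + 1) * T.h a := by
    calc T.h (a + k) ≤ T.Q ^ (a + k + 1) := T.h_up _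
      _ = T.Q ^ a * T.Q ^ (k + 1) := by rw [← pow_add, add_assoc]
      _ ≤ (T.C0 * T.h a) * T.Q ^ (k + 1) := Nat.mul_le_mul_right _ (T.h_low a)
      _ = T.C0 * T.Q ^ (k + 1) * T.h a := by ring
  calc T.n2 d x y a * T.h (a + d * b) ^ 2
      ≤ T.n2 d x y (a + k) * T.h (a + k + d * b) ^ 2 :=
        Nat.mul_le_mul hsub (Nat.pow_le_pow_left h2 2)
    _ ≤ T.h (a + k) ^ (n + 1) ^ d * T.nD b x y := h1
    _ ≤ (T.C0 * T.Q ^ (k + 1) * T.h a) ^ (n + 1) ^ d * T.nD b x y :=
      Nat.mul_le_mul_right _ (Nat.pow_le_pow_left h3 _)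
    _ = (T.C0 * T.Q ^ (k + 1)) ^ (n + 1) ^ d * (T.h a ^ (n + 1) ^ d * T.nD b x y) := by
      rw [mul_pow (T.C0 * T.Q ^ (k + 1)) (T.h a), mul_assoc]

theorem excCountZ (n : ℕ) (hn : 3 ≤ n) (k : ℕ) : ∃ C : ℝ, 1 ≤ C ∧
    ∀ (b g : ℕ) (fb : Vc n O → Fin n → Vc n O),
    (∀ x ∈ T.GG n b g, LinearIndependent O (fb x) ∧ (∀ i, lin (fb x i) x = 0) ∧
      ∀ i j, fb x i j ∈ T.H g) →
    ((((T.GG n b g) ×ˢ (T.GG n b g)).filter fun p => T.ExcB k (fb p.1) (fb p.2)).card : ℝ) ≤
      C * (T.Q : ℝ) ^ (g * (2 * n * (n + 1) - 1)) := by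
  have hinf : Infinite K := T.BCnt_inf
  have hTTs := (T.exSet (Fin n × Fin n) k).choose_spec
  have hfin : (T.TT n k).Finite := hTTs.1
  have hnz : (0 : Fin n × Fin n → K) ∉ T.TT n k := hTTs.2.1
  have hne : ∀ τ ∈ hfin.toFinset, ∃ i j, (fun i j => τ (i, j)) i j ≠ (0 : K) := by
    intro τ hτ
    rw [Set.Finite.mem_toFinset] at hτ
    by_contra hc
    push Not at hc
    apply hnz
    have e : τ = 0 := by
      funext p
      exact hc p.1 p.2
    rwa [e] at hτ
  choose! Pl hP0 hPz using fun (τ : Fin n × Fin n → K) (hτ : τ ∈ hfin.toFinset) =>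
    excPolyF hn (fun i j => τ (i, j)) (hne τ hτ)
  obtain ⟨C, hC, hcount⟩ := T.BCnt_union hfin.toFinset Pl hP0
  have hD1 : (1 : ℝ) ≤ T.h 0 := by
    have := T.h_pos 0
    exact_mod_cast this
  refine ⟨(T.h 0 : ℝ) ^ 2 * C, ?_, ?_⟩
  · calc (1 : ℝ) = 1 * 1 := (one_mul 1).symm
      _ ≤ (T.h 0 : ℝ) ^ 2 * C := mul_le_mul (one_le_pow₀ hD1) hC zero_le_one (by positivity)
  intro b g fb hfb
  have h1 := hcount g
  have hcard : Fintype.card (Bool × Fin n × Fin (n + 1)) = 2 * n * (n + 1) := by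
    rw [Fintype.card_prod, Fintype.card_prod, Fintype.card_bool, Fintype.card_fin, Fintype.card_fin,
      mul_assoc]
  rw [hcard] at h1
  obtain ⟨S, hS⟩ : ∃ S : Finset (Vc n O × Vc n O),
      S = ((T.GG n b g) ×ˢ (T.GG n b g)).filter fun p => T.ExcB k (fb p.1) (fb p.2) := ⟨_, rfl⟩
  obtain ⟨Z, hZ, h1⟩ : ∃ Z : Finset (Bool × Fin n × Fin (n + 1) → O),
      (∀ z, ((∀ c, z c ∈ T.H g) ∧
        ∃ i ∈ hfin.toFinset, MvPolynomial.eval (fun k => algebraMap O K (z k)) (Pl i) = 0) → z ∈ Z) ∧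
      (Z.card : ℝ) ≤ C * (T.Q : ℝ) ^ (g * (2 * n * (n + 1) - 1)) :=
    ⟨_, fun z hz => Finset.mem_filter.mpr
      ⟨(@Fintype.mem_piFinset _ (fun _ _ => Classical.propDecidable _) _ _ _ _).mpr hz.1, hz.2⟩, h1⟩
  obtain ⟨F, hF⟩ : ∃ F : Vc n O × Vc n O → (Bool × Fin n × Fin (n + 1) → O),
      F = fun p c => if c.1 then fb p.1 c.2.1 c.2.2 else fb p.2 c.2.1 c.2.2 := ⟨_, rfl⟩
  rw [← hS]
  have hmap : ∀ p ∈ S, F p ∈ Z := by
    intro p hp
    rw [hS] at hp
    obtain ⟨hp1, hp2⟩ := Finset.mem_filter.mp hp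
    obtain ⟨hpx, hpy⟩ := Finset.mem_product.mp hp1
    rw [hF]
    refine hZ _ ⟨?_, ?_⟩
    · intro c
      by_cases hc : c.1 = true
      · simp only [hc, if_true]
        exact (hfb p.1 hpx).2.2 _ _
      · simp only [hc]
        exact (hfb p.2 hpy).2.2 _ _
    · obtain ⟨τ, hτ, E, hE, hEb⟩ := hp2
      have hτ' : τ ∈ hfin.toFinset := (Set.Finite.mem_toFinset _).2 hτ
      refine ⟨τ, hτ', ?_⟩
      exact hPz τ hτ' _ E hE fun i j => by
        simp only [if_true, Bool.false_eq_true, if_false]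
        exact hEb i j
  have hfib : ∀ z ∈ Z, (S.filter fun p => F p = z).card ≤ T.h 0 ^ 2 := by
    intro z _
    rcases (S.filter fun p => F p = z).eq_empty_or_nonempty with h0 | ⟨p0, hp0⟩
    · rw [h0, Finset.card_empty]
      exact Nat.zero_le _
    obtain ⟨hp0S, hp0z⟩ := Finset.mem_filter.mp hp0
    rw [hS] at hp0S
    obtain ⟨hx0, hy0⟩ := Finset.mem_product.mp (Finset.mem_filter.mp hp0S).1
    have hGne : ∀ x ∈ T.GG n b g, x ≠ 0 := by
      intro x hx h
      obtain ⟨_, ⟨u, hu⟩, _⟩ := T.mem_GG.1 hx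
      rw [h] at hu
      have h2 : lin u (0 : Vc n O) = 0 := by simp [lin]
      rw [h2] at hu
      exact zero_ne_one hu
    have hsub : (S.filter fun p => F p = z) ⊆
        ((T.GG n b g).filter fun y => Prp p0.1 y) ×ˢ ((T.GG n b g).filter fun y => Prp p0.2 y) := by
      intro p hp
      obtain ⟨hpS, hpz⟩ := Finset.mem_filter.mp hp
      rw [hS] at hpS
      obtain ⟨hx, hy⟩ := Finset.mem_product.mp (Finset.mem_filter.mp hpS).1
      have hpp : F p0 = F p := by rw [hp0z, hpz]
      rw [hF] at hpp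
      have e1 : fb p0.1 = fb p.1 := by
        funext s i
        have := congrFun hpp (true, s, i)
        simpa only [if_true] using this
      have e2 : fb p0.2 = fb p.2 := by
        funext s i
        have := congrFun hpp (false, s, i)
        simpa only [Bool.false_eq_true, if_false] using this
      refine Finset.mem_product.mpr ⟨Finset.mem_filter.mpr ⟨hx, ?_⟩, Finset.mem_filter.mpr ⟨hy, ?_⟩⟩
      · refine BCnt_inj (K := K) p0.1 p.1 (hGne _ hx0) (fb p0.1) (hfb p0.1 hx0).1 (hfb p0.1 hx0).2.1 ?_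
        intro s
        rw [e1]
        exact (hfb p.1 hx).2.1 s
      · refine BCnt_inj (K := K) p0.2 p.2 (hGne _ hy0) (fb p0.2) (hfb p0.2 hy0).1 (hfb p0.2 hy0).2.1 ?_
        intro s
        rw [e2]
        exact (hfb p.2 hy).2.1 s
    calc (S.filter fun p => F p = z).card
        ≤ (((T.GG n b g).filter fun y => Prp p0.1 y) ×ˢ
            ((T.GG n b g).filter fun y => Prp p0.2 y)).card := Finset.card_le_card hsub
      _ = ((T.GG n b g).filter fun y => Prp p0.1 y).card *
            ((T.GG n b g).filter fun y => Prp p0.2 y).card := Finset.card_product _ _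
      _ ≤ T.h 0 * T.h 0 := Nat.mul_le_mul (T.prp_cnt hx0) (T.prp_cnt hy0)
      _ = T.h 0 ^ 2 := (sq _).symm
  have h2 : S.card ≤ T.h 0 ^ 2 * Z.card :=
    Finset.card_le_mul_card_image_of_maps_to hmap (T.h 0 ^ 2) hfib
  have h3 : (S.card : ℝ) ≤ (T.h 0 : ℝ) ^ 2 * (Z.card : ℝ) := by exact_mod_cast h2
  calc (S.card : ℝ) ≤ (T.h 0 : ℝ) ^ 2 * (Z.card : ℝ) := h3
    _ ≤ (T.h 0 : ℝ) ^ 2 * (C * (T.Q : ℝ) ^ (g * (2 * n * (n + 1) - 1))) :=
        mul_le_mul_of_nonneg_left h1 (by positivity)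
    _ = (T.h 0 : ℝ) ^ 2 * C * (T.Q : ℝ) ^ (g * (2 * n * (n + 1) - 1)) := by ring

end TC

end Pool.Agent.Lib.MP_1ad228_ntZ
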