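import Pool.Agent.Lib.MP_1ad228_ntZ.EEZ
import Pool.Agent.Lib.MP_1ad228_ntZ.BCnt

/-!
LEAF PairOKB (borderline case).  Control of the pairs when all degrees are 2.
Proof.  `lam := (C0 Q^(k+1))^((n+1)^2)`, by n2_leB.  `CX` from excCountZ.  For the test points choose bases: `fb x` := the vectors in the definition of `T.Good g x`
(`x ∈ GG` gives Good, mem_GG; for other `x` anything), `X := ((GG ×ˢ GG).filter fun p => ExcB k (fb p.1) (fb p.2))`; excCountZ bounds `#X`, sl_goodB gives the equality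
(`T.c1 ≤ a` from `g + c1 ≤ a`, `2 g ≤ a + k`).
-/

namespace Pool.Agent.Lib.MP_1ad228_ntZ

open Classical

namespace TC
variable {K O P : Type} [Field K] [CommRing O] [IsDedekindDomain O] [Algebra O K]
  [IsFractionRing O K] [CommRing P] [IsDedekindDomain P] [Algebra P K]
  [IsFractionRing P K] (T : TC K O P)

theorem pairOKB {n r : ℕ} (hn : 3 ≤ n) (d : Fin r → ℕ) (hd : ∀ i, d i = 2) (k : ℕ) :
    T.PairOK n d k := by
  obtain ⟨C, hC, hX⟩ := T.excCountZ n hn k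
  have hC0 : 1 ≤ T.C0 * T.Q ^ (k + 1) := Nat.mul_pos T.C0_pos (pow_pos (by have := T.two_le; omega) _)
  refine ⟨((T.C0 * T.Q ^ (k + 1) : ℕ) : ℝ) ^ (n + 1) ^ 2, one_le_pow₀ (by exact_mod_cast hC0), C,
    by linarith, ?_⟩
  intro a b g ha hk
  refine ⟨?_, ?_⟩
  · intro i x hx y hy hxy
    rw [hd i]
    have h := T.n2_leB (d := 2) le_rfl hx hy hxy hk
    rw [mul_assoc]
    exact_mod_cast h
  · -- the bases
    have hb : ∀ x : Vc n O, ∃ f : Fin n → Vc n O, x ∈ T.GG n b g →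
        LinearIndependent O f ∧ (∀ i, lin (f i) x = 0) ∧ ∀ i j, f i j ∈ T.H g := by
      intro x
      by_cases hx : x ∈ T.GG n b g
      · obtain ⟨f, hf⟩ := (T.mem_GG.1 hx).2.2.2
        exact ⟨f, fun _ => hf⟩
      · exact ⟨0, fun h => absurd h hx⟩
    choose fb hfb using hb
    refine ⟨((T.GG n b g) ×ˢ (T.GG n b g)).filter fun p => T.ExcB k (fb p.1) (fb p.2),
      hX b g fb fun x hx => hfb x hx, ?_⟩
    intro w i x hx y hy hxy hnX hw hw' m hm m' hm'
    rw [hd i] at hm hm' ⊢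
    obtain ⟨f1, f2, f3⟩ := hfb x hx
    obtain ⟨g1, g2, g3⟩ := hfb y hy
    refine T.sl_goodB (k := k) hx hy hxy (by omega) (by omega) (fb x) (fb y) f1 g1 f2 g2 f3 g3 ?_ hw hw' hm hm'
    intro hexc
    exact hnX (Finset.mem_filter.2 ⟨Finset.mem_product.2 ⟨hx, hy⟩, hexc⟩)

end TC

end Pool.Agent.Lib.MP_1ad228_ntZ
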