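import Pool.Agent.Lib.MP_1ad228_ntZ.Defs

/-!
LEAF Grp.  Finite groups given as finsets: kernel times image.
A finset `S` containing `0` and closed under subtraction is (the carrier of) a finite additive subgroup; the nonempty fibres of `φ` on `S` are
cosets of the kernel (translation by `x0` is a bijection), so `#S = sum over the image of #fibre` (`Finset.card_eq_sum_card_image`).
-/

namespace Pool.Agent.Lib.MP_1ad228_ntZ

open Classical

theorem fin_fib {X Y : Type*} [AddCommGroup X] [AddCommGroup Y] (S : Finset X)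
    (h0 : (0 : X) ∈ S) (hsub : ∀ x ∈ S, ∀ y ∈ S, x - y ∈ S) (φ : X →+ Y) (x0 : X) (hx0 : x0 ∈ S) :
    (S.filter fun x => φ x = φ x0).card = (S.filter fun x => φ x = 0).card := by
  refine Finset.card_bij' (fun x _ => x - x0) (fun x _ => x + x0) ?_ ?_ ?_ ?_
  · intro x hx
    rw [Finset.mem_filter] at hx ⊢
    exact ⟨hsub x hx.1 x0 hx0, by rw [map_sub, hx.2, sub_self]⟩
  · intro x hx
    rw [Finset.mem_filter] at hx ⊢
    have h1 : x + x0 = x - (0 - x0) := by abel
    refine ⟨?_, by rw [map_add, hx.2, zero_add]⟩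
    rw [h1]
    exact hsub x hx.1 _ (hsub 0 h0 x0 hx0)
  · intro x _
    exact sub_add_cancel x x0
  · intro x _
    exact add_sub_cancel_right x x0

theorem fin_fib_le {X Y : Type*} [AddCommGroup X] [AddCommGroup Y] (S : Finset X)
    (h0 : (0 : X) ∈ S) (hsub : ∀ x ∈ S, ∀ y ∈ S, x - y ∈ S) (φ : X →+ Y) (y : Y) :
    (S.filter fun x => φ x = y).card ≤ (S.filter fun x => φ x = 0).card := by
  by_cases h : ∃ x0 ∈ S, φ x0 = y
  · obtain ⟨x0, hx0, rfl⟩ := h
    exact (fin_fib S h0 hsub φ x0 hx0).le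
  · have h1 : (S.filter fun x => φ x = y) = ∅ := by
      rw [Finset.filter_eq_empty_iff]
      intro x hx hxy
      exact h ⟨x, hx, hxy⟩
    rw [h1, Finset.card_empty]
    exact Nat.zero_le _

theorem fin_ker_im {X Y : Type*} [AddCommGroup X] [AddCommGroup Y] (S : Finset X)
    (h0 : (0 : X) ∈ S) (hsub : ∀ x ∈ S, ∀ y ∈ S, x - y ∈ S) (φ : X →+ Y) :
    S.card = (S.filter fun x => φ x = 0).card * (S.image φ).card := by
  have h1 : S.card = ∑ b ∈ S.image φ, (S.filter fun x => φ x = b).card :=
    Finset.card_eq_sum_card_fiberwise fun x hx => Finset.mem_coe.2 (Finset.mem_image_of_mem φ (Finset.mem_coe.1 hx))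
  rw [h1, Finset.sum_congr rfl (g := fun _ => (S.filter fun x => φ x = 0).card), Finset.sum_const, smul_eq_mul,
    mul_comm]
  intro b hb
  obtain ⟨x0, hx0, rfl⟩ := Finset.mem_image.1 hb
  exact fin_fib S h0 hsub φ x0 hx0

/-- A map onto a finite group is exactly uniform. -/
theorem fin_unif {X Y : Type*} [AddCommGroup X] [AddCommGroup Y] [Finite Y] (S : Finset X)
    (h0 : (0 : X) ∈ S) (hsub : ∀ x ∈ S, ∀ y ∈ S, x - y ∈ S) (φ : X →+ Y)
    (hs : ∀ y, ∃ x ∈ S, φ x = y) (A : Set Y) :
    (S.filter fun x => φ x ∈ A).card * Nat.card Y = S.card * A.ncard := by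
  have hf : Fintype Y := Fintype.ofFinite Y
  have himg : S.image φ = Finset.univ := by
    rw [Finset.eq_univ_iff_forall]
    intro y
    obtain ⟨x, hx, hxy⟩ := hs y
    exact Finset.mem_image.2 ⟨x, hx, hxy⟩
  have h1 := fin_ker_im S h0 hsub φ
  rw [himg, Finset.card_univ, ← Nat.card_eq_fintype_card] at h1
  have hA : A.ncard = (Finset.univ.filter fun y => y ∈ A).card := by
    rw [← Set.ncard_coe_finset]
    congr 1
    ext y
    simp
  have h2 : (S.filter fun x => φ x ∈ A).card = (S.filter fun x => φ x = 0).card * A.ncard := by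
    have h3 : (S.filter fun x => φ x ∈ A).card =
        ∑ b ∈ Finset.univ.filter (fun y => y ∈ A), ((S.filter fun x => φ x ∈ A).filter fun x => φ x = b).card := by
      refine Finset.card_eq_sum_card_fiberwise fun x hx => ?_
      have hx' := (Finset.mem_filter.1 (Finset.mem_coe.1 hx)).2
      exact Finset.mem_coe.2 (Finset.mem_filter.2 ⟨Finset.mem_univ _, hx'⟩)
    rw [h3, hA, Finset.sum_congr rfl (g := fun _ => (S.filter fun x => φ x = 0).card), Finset.sum_const,
      smul_eq_mul, mul_comm]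
    intro b hb
    have hb' := (Finset.mem_filter.1 hb).2
    obtain ⟨x0, hx0, rfl⟩ := hs b
    rw [← fin_fib S h0 hsub φ x0 hx0, Finset.filter_filter]
    congr 1
    ext x
    simp only [Finset.mem_filter]
    constructor
    · rintro ⟨a, -, c⟩
      exact ⟨a, c⟩
    · rintro ⟨a, c⟩
      exact ⟨a, by rw [c]; exact hb', c⟩
  rw [h2, h1]
  ring

/-- The kernel of a map to a finite group has index at most the order of the group. -/
theorem fin_index {X Y : Type*} [AddCommGroup X] [AddCommGroup Y] [Finite Y] (S : Finset X)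
    (h0 : (0 : X) ∈ S) (hsub : ∀ x ∈ S, ∀ y ∈ S, x - y ∈ S) (φ : X →+ Y) :
    S.card ≤ (S.filter fun x => φ x = 0).card * Nat.card Y := by
  have hf : Fintype Y := Fintype.ofFinite Y
  have h1 := fin_ker_im S h0 hsub φ
  rw [Nat.card_eq_fintype_card]
  calc S.card = (S.filter fun x => φ x = 0).card * (S.image φ).card := h1
    _ ≤ _ := Nat.mul_le_mul_left _ (Finset.card_le_univ _)

end Pool.Agent.Lib.MP_1ad228_ntZ
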