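import Pool.Agent.Lib.MP_1ad228_ntZ.Defs

/-!
LEAF Nrm.  Norms `nI I = #(R / I)` in a Dedekind domain `R` with finite quotients.
-/

namespace Pool.Agent.Lib.MP_1ad228_ntZ

open Classical

section dede
variable {R : Type} [CommRing R] [IsDedekindDomain R]

private theorem Nrm_eq (I : Ideal R) : nI I = Submodule.cardQuot I := (Submodule.cardQuot_apply I).symm

private theorem Nrm_ne {I J : Ideal R} (hI : I ≠ ⊥) (hJ : J ≠ ⊥) : I * J ≠ ⊥ := by
  intro h
  rcases Ideal.mul_eq_bot.1 h with h1 | h1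
  · exact hI h1
  · exact hJ h1

private theorem Nrm_mul_inf (h : Infinite R) (I J : Ideal R) : nI (I * J) = nI I * nI J := by
  rw [Nrm_eq, Nrm_eq, Nrm_eq]
  exact UniqueFactorizationMonoid.multiplicative_of_coprime Submodule.cardQuot I J
    (Submodule.cardQuot_bot _ _) (fun {I J} hI => by simp [Ideal.isUnit_iff.mp hI, Ideal.mul_top])
    (fun {I} i hI =>
      have : Ideal.IsPrime I := Ideal.isPrime_of_prime hI
      cardQuot_pow_of_prime hI.ne_zero)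
    fun {I J} hIJ => cardQuot_mul_of_coprime <| Ideal.isCoprime_iff_sup_eq.mpr
      (Ideal.isUnit_iff.mp
        (hIJ (Ideal.dvd_iff_le.mpr le_sup_left) (Ideal.dvd_iff_le.mpr le_sup_right)))

private theorem Nrm_top_of_finite (h : Finite R) {I : Ideal R} (hI : I ≠ ⊥) : I = ⊤ := by
  obtain ⟨x, hx, hx0⟩ := Submodule.exists_mem_ne_zero_of_ne_bot hI
  obtain ⟨y, hy⟩ := (Finite.injective_iff_surjective.1 (mul_right_injective₀ hx0)) 1
  rw [Ideal.eq_top_iff_one, ← show x * y = 1 from hy]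
  exact I.mul_mem_right y hx

theorem nI_top : nI (⊤ : Ideal R) = 1 := by
  rw [Nrm_eq]
  exact Submodule.cardQuot_top R R

theorem nI_pos (hfin : ∀ I : Ideal R, I ≠ ⊥ → Finite (R ⧸ I)) {I : Ideal R} (hI : I ≠ ⊥) :
    0 < nI I := by
  have := hfin I hI
  exact Nat.card_pos

theorem nI_mul (hfin : ∀ I : Ideal R, I ≠ ⊥ → Finite (R ⧸ I)) {I J : Ideal R} (hI : I ≠ ⊥)
    (hJ : J ≠ ⊥) : nI (I * J) = nI I * nI J := by
  by_cases h : Infinite R
  · exact Nrm_mul_inf h I J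
  · have hf : Finite R := not_infinite_iff_finite.1 h
    rw [Nrm_top_of_finite hf hI, Nrm_top_of_finite hf hJ, Ideal.top_mul, nI_top]

theorem nI_pow (hfin : ∀ I : Ideal R, I ≠ ⊥ → Finite (R ⧸ I)) {I : Ideal R} (hI : I ≠ ⊥)
    (k : ℕ) : nI (I ^ k) = nI I ^ k := by
  induction k with
  | zero => rw [pow_zero, pow_zero, Ideal.one_eq_top, nI_top]
  | succ k ih =>
    have h0 : I ^ k ≠ ⊥ := by
      rw [← Ideal.zero_eq_bot] at hI ⊢
      exact pow_ne_zero k hI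
    rw [pow_succ, pow_succ, nI_mul hfin h0 hI, ih]

theorem nI_mono (hfin : ∀ I : Ideal R, I ≠ ⊥ → Finite (R ⧸ I)) {I J : Ideal R} (hI : I ≠ ⊥)
    (h : I ≤ J) : nI J ≤ nI I := by
  have := hfin I hI
  exact Nat.card_le_card_of_surjective (Ideal.Quotient.factor h) (Ideal.Quotient.factor_surjective h)

theorem two_le_nI (hfin : ∀ I : Ideal R, I ≠ ⊥ → Finite (R ⧸ I)) {I : Ideal R} (hI : I ≠ ⊥)
    (h : I ≠ ⊤) : 2 ≤ nI I := by
  have h1 := nI_pos hfin hI
  have h2 : nI I ≠ 1 := by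
    rw [Nrm_eq]
    intro h3
    exact h (Submodule.cardQuot_eq_one_iff.1 h3)
  omega

private theorem Nrm_prod {w : ℕ} (hf : (ideals R w).Finite) :
    ∏ᶠ I ∈ ideals R w, I = ∏ I ∈ hf.toFinset, I :=
  finprod_mem_eq_finite_toFinset_prod _ hf

theorem WD_ne_bot {w : ℕ} (hf : (ideals R w).Finite) : WD R w ≠ ⊥ := by
  unfold WD
  rw [Nrm_prod hf, ← Ideal.zero_eq_bot]
  refine pow_ne_zero _ (Finset.prod_ne_zero_iff.2 fun I hI => ?_)
  rw [Set.Finite.mem_toFinset] at hI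
  rw [Ideal.zero_eq_bot]
  exact hI.1

private theorem Nrm_le {w : ℕ} (hf : (ideals R w).Finite) {I : Ideal R} (hI : I ≠ ⊥)
    (h : nI I ≤ w) : ∏ᶠ I ∈ ideals R w, I ≤ I := by
  rw [Nrm_prod hf]
  refine Ideal.le_of_dvd (Finset.dvd_prod_of_mem (fun I : Ideal R => I) ?_)
  rw [Set.Finite.mem_toFinset]
  exact ⟨hI, h⟩

/-- Ideals of norm at most `w` contain the modulus. -/
theorem WD_le (hfin : ∀ I : Ideal R, I ≠ ⊥ → Finite (R ⧸ I)) {w : ℕ}
    (hf : (ideals R w).Finite) {I : Ideal R} (hI : I ≠ ⊥) (h : nI I ≤ w) : WD R w ≤ I := by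
  have h1 := nI_pos hfin hI
  unfold WD
  exact (Ideal.pow_le_self (by omega)).trans (Nrm_le hf hI h)

/-- High powers of the small primes contain the modulus. -/
theorem WD_le_pow (hfin : ∀ I : Ideal R, I ≠ ⊥ → Finite (R ⧸ I)) {w : ℕ}
    (hf : (ideals R w).Finite) {I : Ideal R} (hI : I ≠ ⊥) (h : nI I ≤ w) : WD R w ≤ I ^ w := by
  unfold WD
  exact Ideal.pow_right_mono (Nrm_le hf hI h) w

/-- Primes containing the modulus are small. -/
theorem nI_of_WD_le (hfin : ∀ I : Ideal R, I ≠ ⊥ → Finite (R ⧸ I)) {w : ℕ}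
    (hf : (ideals R w).Finite) {p : Ideal R} (hp : p.IsPrime) (h : WD R w ≤ p) : nI p ≤ w := by
  unfold WD at h
  rw [Nrm_prod hf] at h
  have h1 : ∏ I ∈ hf.toFinset, I ≤ p := hp.le_of_pow_le h
  obtain ⟨I, hI, h2⟩ := hp.prod_le.1 h1
  rw [Set.Finite.mem_toFinset] at hI
  exact (nI_mono hfin hI.1 h2).trans hI.2

end dede

end Pool.Agent.Lib.MP_1ad228_ntZ
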