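import Pool.Agent.Lib.MP_1ad228_ntZ.Tw
import Pool.Agent.Lib.MP_1ad228_ntZ.Nrm
import Pool.Agent.Lib.MP_1ad228_ntZ.Grp

/-!
Upper bounds for the numbers of elements of `H c` in ideals.
-/

namespace Pool.Agent.Lib.MP_1ad228_ntZ

open Classical

/-- Number of classes of the elements of `J` modulo a smaller ideal. -/
private theorem Up_classes {R : Type} [CommRing R] {A J : Ideal R} (hAJ : A ≤ J)
    (hA : Finite (R ⧸ A)) (hJ : Finite (R ⧸ J)) (k : ℕ) (hk : nI A = k * nI J) (hJ0 : 0 < nI J) (C : Finset (R ⧸ A))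
    (hC : ∀ c ∈ C, ∃ x ∈ J, Ideal.Quotient.mk A x = c) : C.card ≤ k := by
  have := Fintype.ofFinite (R ⧸ A)
  have h1 := fin_unif (Finset.univ : Finset (R ⧸ A)) (Finset.mem_univ _)
    (fun _ _ _ _ => Finset.mem_univ _) (Ideal.Quotient.factor hAJ).toAddMonoidHom
    (fun y => by
      obtain ⟨x, rfl⟩ := Ideal.Quotient.mk_surjective y
      exact ⟨Ideal.Quotient.mk A x, Finset.mem_univ _, Ideal.Quotient.factor_mk hAJ x⟩) {0}
  have h2 : (Finset.univ : Finset (R ⧸ A)).card = nI A := by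
    rw [Finset.card_univ, ← Nat.card_eq_fintype_card]
    rfl
  have h3 : Nat.card (R ⧸ J) = nI J := rfl
  rw [h2, h3, Set.ncard_singleton, mul_one, hk] at h1
  have h4 := Nat.eq_of_mul_eq_mul_right hJ0 h1
  rw [← h4]
  refine Finset.card_le_card fun c hc => ?_
  obtain ⟨x, hx, rfl⟩ := hC c hc
  rw [Finset.mem_filter]
  refine ⟨Finset.mem_univ _, ?_⟩
  rw [Set.mem_singleton_iff]
  show Ideal.Quotient.factor hAJ (Ideal.Quotient.mk A x) = 0
  rw [Ideal.Quotient.factor_mk, Ideal.Quotient.eq_zero_iff_mem]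
  exact hx

namespace TC
variable {K O P : Type} [Field K] [CommRing O] [IsDedekindDomain O] [Algebra O K]
  [IsFractionRing O K] [CommRing P] [IsDedekindDomain P] [Algebra P K]
  [IsFractionRing P K] (T : TC K O P)

theorem mem_M {c : ℕ} {I : Ideal O} {J : Ideal P} {z : O} :
    z ∈ T.M c I J ↔ z ∈ T.H c ∧ z ∈ I ∧ T.tw c z ∈ J := by
  unfold M
  rw [Finset.mem_filter]

theorem M_zero {c : ℕ} {I : Ideal O} {J : Ideal P} (h : T.Q ^ c < nI I * nI J) {z : O}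
    (hz : z ∈ T.M c I J) : z = 0 := by
  rw [mem_M] at hz
  by_contra hne
  have h1 := T.prod_le c z (T.tw c z) hne (T.tw_spec hz.1) I J hz.2.1 hz.2.2
  omega

private theorem Up_pow {m : ℕ} {J : Ideal P} (hJ : J ≠ ⊥) :
    Ideal.span {T.s} ^ m * J ≠ ⊥ ∧ nI (Ideal.span {T.s} ^ m * J) = T.Q ^ m * nI J := by
  have h1 : Ideal.span {T.s} ≠ ⊥ := fun h => T.s_ne' (Ideal.span_singleton_eq_bot.1 h)
  have h2 : Ideal.span {T.s} ^ m ≠ ⊥ := pow_ne_zero m h1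
  exact ⟨mul_ne_zero h2 hJ, by rw [nI_mul T.finP h2 hJ, nI_pow T.finP h1, T.nrm_s]⟩

private theorem Up_card (c m : ℕ) {I : Ideal O} {J : Ideal P} (hJ : J ≠ ⊥)
    (h : T.Q ^ c < nI I * nI J * T.Q ^ m) : (T.M c I J).card ≤ T.Q ^ m := by
  obtain ⟨h1, h2⟩ := T.Up_pow (m := m) hJ
  have hAJ : Ideal.span {T.s} ^ m * J ≤ J := Ideal.mul_le_right
  obtain ⟨A, hA⟩ : ∃ A : Ideal P, A = Ideal.span {T.s} ^ m * J := ⟨_, rfl⟩
  rw [← hA] at h1 h2 hAJ
  have hinj : Set.InjOn (fun z => Ideal.Quotient.mk A (T.tw c z)) (T.M c I J : Set O) := by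
    intro z hz w hw hzw
    have hz' := T.mem_M.1 (Finset.mem_coe.1 hz)
    have hw' := T.mem_M.1 (Finset.mem_coe.1 hw)
    have h3 : T.tw c z - T.tw c w ∈ A := (Ideal.Quotient.eq).1 hzw
    rw [← T.tw_sub hz'.1 hw'.1] at h3
    have h4 : z - w ∈ T.M c I A := T.mem_M.2 ⟨T.sub_mem_H hz'.1 hw'.1, I.sub_mem hz'.2.1 hw'.2.1, h3⟩
    have h5 := T.M_zero (by rw [h2]; calc T.Q ^ c < nI I * nI J * T.Q ^ m := h
        _ = nI I * (T.Q ^ m * nI J) := by ring) h4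
    exact sub_eq_zero.1 h5
  rw [← Finset.card_image_of_injOn hinj]
  refine Up_classes hAJ (T.finP A h1) (T.finP J hJ) _ h2 (nI_pos T.finP hJ) _ fun q hq => ?_
  obtain ⟨z, hz, rfl⟩ := Finset.mem_image.1 hq
  exact ⟨T.tw c z, (T.mem_M.1 hz).2.2, rfl⟩

theorem M_up (c : ℕ) {I : Ideal O} {J : Ideal P} (hI : I ≠ ⊥) (hJ : J ≠ ⊥) :
    ((T.M c I J).card : ℝ) ≤ 1 + T.Q * ((T.Q : ℝ) ^ c / ((nI I : ℝ) * nI J)) := by
  have hQ := T.two_le
  have ha : 0 < nI I := nI_pos T.finO hI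
  have hb : 0 < nI J := nI_pos T.finP hJ
  have hab : (0 : ℝ) < (nI I : ℝ) * nI J := by positivity
  have hex : ∃ m : ℕ, T.Q ^ c < nI I * nI J * T.Q ^ m := by
    refine ⟨c + 1, ?_⟩
    have h1 : T.Q ^ c < T.Q ^ (c + 1) := Nat.pow_lt_pow_right (by omega) (by omega)
    have h2 : 1 ≤ nI I * nI J := Nat.mul_pos ha hb
    calc T.Q ^ c < T.Q ^ (c + 1) := h1
      _ = 1 * T.Q ^ (c + 1) := (one_mul _).symm
      _ ≤ nI I * nI J * T.Q ^ (c + 1) := Nat.mul_le_mul_right _ h2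
  have h3 := T.Up_card c (Nat.find hex) hJ (Nat.find_spec hex)
  have h4 : ((T.M c I J).card : ℝ) ≤ (T.Q : ℝ) ^ (Nat.find hex) := by exact_mod_cast h3
  have h5 : (0 : ℝ) ≤ T.Q * ((T.Q : ℝ) ^ c / ((nI I : ℝ) * nI J)) := by positivity
  rcases Nat.eq_zero_or_pos (Nat.find hex) with h0 | h0
  · rw [h0, pow_zero] at h4
    linarith
  · have h6 := Nat.find_min hex (m := Nat.find hex - 1) (by omega)
    have h7 : nI I * nI J * T.Q ^ (Nat.find hex - 1) ≤ T.Q ^ c := not_lt.1 h6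
    have h8 : (nI I : ℝ) * nI J * (T.Q : ℝ) ^ (Nat.find hex - 1) ≤ (T.Q : ℝ) ^ c := by exact_mod_cast h7
    have h9 : (T.Q : ℝ) ^ (Nat.find hex - 1) ≤ (T.Q : ℝ) ^ c / ((nI I : ℝ) * nI J) := by
      rw [le_div_iff₀ hab]
      linarith
    have h10 : (T.Q : ℝ) ^ (Nat.find hex) = T.Q * (T.Q : ℝ) ^ (Nat.find hex - 1) := by
      rw [← pow_succ']
      congr 1
      omega
    have h11 : (T.Q : ℝ) * (T.Q : ℝ) ^ (Nat.find hex - 1) ≤
        T.Q * ((T.Q : ℝ) ^ c / ((nI I : ℝ) * nI J)) := mul_le_mul_of_nonneg_left h9 (by positivity)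
    linarith

theorem class_up (c : ℕ) {I : Ideal O} {J : Ideal P} (hI : I ≠ ⊥) (hJ : J ≠ ⊥) (α : O) (β : P) :
    (((T.H c).filter fun z => z - α ∈ I ∧ T.tw c z - β ∈ J).card : ℝ) ≤
      1 + T.Q * ((T.Q : ℝ) ^ c / ((nI I : ℝ) * nI J)) := by
  refine le_trans ?_ (T.M_up c hI hJ)
  rcases ((T.H c).filter fun z => z - α ∈ I ∧ T.tw c z - β ∈ J).eq_empty_or_nonempty with h | ⟨w, hw⟩
  · rw [h, Finset.card_empty]
    exact_mod_cast Nat.zero_le _
  · rw [Finset.mem_filter] at hw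
    have h1 : ((T.H c).filter fun z => z - α ∈ I ∧ T.tw c z - β ∈ J).card ≤ (T.M c I J).card := by
      refine Finset.card_le_card_of_injOn (fun z => z - w) (fun z hz => ?_)
        (fun z _ z' _ h => sub_left_injective h)
      have hz' := Finset.mem_filter.1 (Finset.mem_coe.1 hz)
      rw [Finset.mem_coe, mem_M]
      refine ⟨T.sub_mem_H hz'.1 hw.1, ?_, ?_⟩
      · have h2 := I.sub_mem hz'.2.1 hw.2.1
        rwa [sub_sub_sub_cancel_right] at h2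
      · rw [T.tw_sub hz'.1 hw.1]
        have h2 := J.sub_mem hz'.2.2 hw.2.2
        rwa [sub_sub_sub_cancel_right] at h2
    exact_mod_cast h1

theorem h_up (c : ℕ) : T.h c ≤ T.Q ^ (c + 1) := by
  have hQ := T.two_le
  have h1 : T.M c (⊤ : Ideal O) (⊤ : Ideal P) = T.H c := by
    ext z
    rw [mem_M]
    exact ⟨fun h => h.1, fun h => ⟨h, trivial, trivial⟩⟩
  have h2 := T.Up_card c (c + 1) (I := (⊤ : Ideal O)) (J := (⊤ : Ideal P)) (by
    intro h
    have h3 : (1 : P) ∈ (⊤ : Ideal P) := trivial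
    rw [h] at h3
    exact one_ne_zero ((Ideal.mem_bot).1 h3)) (by
    rw [nI_top, nI_top, one_mul, one_mul]
    exact Nat.pow_lt_pow_right (by omega) (by omega))
  rw [h1] at h2
  exact h2

theorem h_low (c : ℕ) : T.Q ^ c ≤ T.C0 * T.h c := by
  have h1 := T.low c
  rw [Set.ncard_eq_toFinset_card _ (T.finH c)] at h1
  exact h1

theorem C0_pos : 0 < T.C0 := by
  have h1 := T.h_low 0
  rw [pow_zero] at h1
  by_contra h
  have h2 : T.C0 = 0 := by omega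
  rw [h2, zero_mul] at h1
  omega

end TC

end Pool.Agent.Lib.MP_1ad228_ntZ
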