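import Pool.Agent.Lib.MP_1ad228_ntZ.Im
import Pool.Agent.Lib.MP_1ad228_ntZ.Up

/-!
LEAF HCnt.  Number of points on a hyperplane.
`T.im` with `ι = Fin (n+1)`, `κ = Unit`, row `A () = f` (`c = l`), `u` = the vectors `f_i e_j - f_j e_i` (`σ = Fin (n+1) × Fin (n+1)`), in `H l`, which span the orthogonal space of `f ≠ 0` over `K`
(if `f_p ≠ 0` and `sum f_i r_i = 0` then `r = sum_i (r_i / f_p) (f_p e_i - f_i e_p)`).  So for `b ≥ l + c1` the image of `VB n b` under `x ↦ lin f x` contains all `m ∈ H (b+l)` with `m ∈ c = span (range f)` and `tw m ∈ c' = span (range (vtw l f))`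
(elements of `c` are values `sum f_i G_i`: `Ideal.mem_span_range_iff_exists_fun`), and this group `M (b+l) c c'` has at least `h (b+l) / (nI c * nI c')` elements (two elements of `H (b+l)` with the same classes modulo `c`, `c'` differ by one).
fin_ker_im for `φ = lin f` on `VB n b`.
-/

namespace Pool.Agent.Lib.MP_1ad228_ntZ

open Classical

/-- The vector `f_p e_q - f_q e_p`. -/
private noncomputable def HCnt_u {n : ℕ} {R : Type} [CommRing R] (f : Vc n R) (τ : Fin (n + 1) × Fin (n + 1))
    (i : Fin (n + 1)) : R :=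
  (if i = τ.2 then f τ.1 else 0) - (if i = τ.1 then f τ.2 else 0)

/-- It is orthogonal to `f`. -/
private theorem HCnt_orth {n : ℕ} {R : Type} [CommRing R] (f : Vc n R) (τ : Fin (n + 1) × Fin (n + 1)) :
    ∑ i, f i * HCnt_u f τ i = 0 := by
  unfold HCnt_u
  simp only [mul_sub, mul_ite, mul_zero, Finset.sum_sub_distrib, Finset.sum_ite_eq', Finset.mem_univ,
    if_true]
  ring

/-- These vectors span the orthogonal space of `f`, over the field of fractions. -/
private theorem HCnt_span {n : ℕ} {O K : Type} [CommRing O] [IsDomain O] [Field K] [Algebra O K]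
    [IsFractionRing O K] {f : Vc n O} (hf0 : f ≠ 0) (r : Fin (n + 1) → K)
    (hr : ∑ i, algebraMap O K (f i) * r i = 0) :
    ∃ k : Fin (n + 1) × Fin (n + 1) → K, ∀ i, r i = ∑ τ, k τ * algebraMap O K (HCnt_u f τ i) := by
  obtain ⟨p, hp⟩ : ∃ p, f p ≠ 0 := by
    by_contra h
    push Not at h
    exact hf0 (funext h)
  have hp' : algebraMap O K (f p) ≠ 0 := by
    intro h
    exact hp (IsFractionRing.injective O K (by rw [h, map_zero]))
  refine ⟨fun τ => if τ.1 = p then r τ.2 / algebraMap O K (f p) else 0, fun i => ?_⟩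
  rw [Fintype.sum_prod_type, Finset.sum_eq_single p]
  · have h1 : ∀ q : Fin (n + 1), (if (p, q).1 = p then r (p, q).2 / algebraMap O K (f p) else 0) *
        algebraMap O K (HCnt_u f (p, q) i) =
        (if i = q then r q else 0) -
          (if i = p then (algebraMap O K (f q) * r q) * (algebraMap O K (f p))⁻¹ else 0) := by
      intro q
      rw [if_pos rfl]
      unfold HCnt_u
      rw [map_sub]
      by_cases h2 : i = q
      · by_cases h3 : i = p
        · rw [if_pos h2, if_pos h3, if_pos h2, if_pos h3]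
          field_simp
        · rw [if_pos h2, if_neg h3, if_pos h2, if_neg h3, map_zero]
          field_simp
          ring
      · by_cases h3 : i = p
        · rw [if_neg h2, if_pos h3, if_neg h2, if_pos h3, map_zero]
          field_simp
          ring
        · rw [if_neg h2, if_neg h3, if_neg h2, if_neg h3, map_zero]
          ring
    rw [Finset.sum_congr rfl fun q _ => h1 q, Finset.sum_sub_distrib, Finset.sum_ite_eq,
      if_pos (Finset.mem_univ _)]
    by_cases h3 : i = p
    · simp only [if_pos h3]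
      rw [← Finset.sum_mul, hr, zero_mul, sub_zero]
    · simp only [if_neg h3, Finset.sum_const_zero, sub_zero]
  · intro q _ hq
    refine Finset.sum_eq_zero fun j _ => ?_
    show (if q = p then r j / algebraMap O K (f p) else 0) * algebraMap O K (HCnt_u f (q, j) i) = 0
    rw [if_neg hq, zero_mul]
  · intro h
    exact absurd (Finset.mem_univ _) h

namespace TC
variable {K O P : Type} [Field K] [CommRing O] [IsDedekindDomain O] [Algebra O K]
  [IsFractionRing O K] [CommRing P] [IsDedekindDomain P] [Algebra P K]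
  [IsFractionRing P K] (T : TC K O P)

/-- All elements of `M (b + l) c c'` are values of `lin f` on `VB n b`. -/
private theorem HCnt_val {n b l : ℕ} (hb : l + T.c1 ≤ b) {f : Vc n O} (hf : f ∈ T.VB n l) (hf0 : f ≠ 0)
    {m : O} (hm : m ∈ T.M (b + l) (Ideal.span (Set.range f)) (Ideal.span (Set.range (T.vtw l f)))) :
    ∃ x ∈ T.VB n b, lin f x = m := by
  rw [mem_M] at hm
  obtain ⟨h1, h2, h3⟩ := hm
  obtain ⟨G, hG⟩ := (Ideal.mem_span_range_iff_exists_fun).1 h2
  obtain ⟨G', hG'⟩ := (Ideal.mem_span_range_iff_exists_fun).1 h3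
  obtain ⟨F, hF, hF2⟩ := T.im (κ := Unit) (g := l) (a := b) (c := l) hb (fun _ => f)
    (fun _ i => T.mem_VB.1 hf i) (HCnt_u f)
    (fun τ i => by
      unfold HCnt_u
      refine T.sub_mem_H ?_ ?_
      · split_ifs
        · exact T.mem_VB.1 hf _
        · exact T.zero_mem_H l
      · split_ifs
        · exact T.mem_VB.1 hf _
        · exact T.zero_mem_H l)
    (fun τ _ => HCnt_orth f τ)
    (fun r hr => HCnt_span hf0 r (hr ()))
    (fun _ => m) (fun _ => h1) G
    (fun _ => by
      rw [← hG]
      exact Finset.sum_congr rfl fun i _ => mul_comm _ _)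
    G'
    (fun _ => by
      rw [← hG']
      exact Finset.sum_congr rfl fun i _ => mul_comm _ _)
  exact ⟨F, T.mem_VB.2 hF, hF2 ()⟩

/-- `M c I J` has index at most `nI I * nI J` in `H c`. -/
private theorem HCnt_index (c : ℕ) {I : Ideal O} {J : Ideal P} (hI : I ≠ ⊥) (hJ : J ≠ ⊥) :
    T.h c ≤ (T.M c I J).card * (nI I * nI J) := by
  have h1 := T.finO I hI
  have h2 := T.finP J hJ
  have := Fintype.ofFinite (O ⧸ I)
  have := Fintype.ofFinite (P ⧸ J)
  have h3 := Finset.card_le_mul_card_image (T.H c) (T.M c I J).card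
    (f := fun z => (Ideal.Quotient.mk I z, Ideal.Quotient.mk J (T.tw c z))) (by
      intro a ha
      obtain ⟨w, hw, rfl⟩ := Finset.mem_image.1 ha
      refine Finset.card_le_card_of_injOn (fun z => z - w) (fun z hz => ?_)
        (fun z _ z' _ h => sub_left_injective h)
      have hz' := Finset.mem_filter.1 (Finset.mem_coe.1 hz)
      have h4 := Prod.ext_iff.1 hz'.2
      rw [Finset.mem_coe, mem_M]
      refine ⟨T.sub_mem_H hz'.1 hw, (Ideal.Quotient.eq).1 h4.1, ?_⟩
      rw [T.tw_sub hz'.1 hw]
      exact (Ideal.Quotient.eq).1 h4.2)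
  refine h3.trans (Nat.mul_le_mul_left _ ?_)
  refine (Finset.card_le_univ _).trans (le_of_eq ?_)
  rw [Fintype.card_prod, ← Nat.card_eq_fintype_card, ← Nat.card_eq_fintype_card]
  rfl

theorem cnt_lin {n b l : ℕ} (hb : l + T.c1 ≤ b) {f : Vc n O} (hf : f ∈ T.VB n l) (hf0 : f ≠ 0) :
    ((T.VB n b).filter fun x => lin f x = 0).card * T.h (b + l) ≤
      T.h b ^ (n + 1) *
        (nI (Ideal.span (Set.range f)) * nI (Ideal.span (Set.range (T.vtw l f)))) := by
  obtain ⟨p, hp⟩ : ∃ p, f p ≠ 0 := by
    by_contra h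
    push Not at h
    exact hf0 (funext h)
  have hc : Ideal.span (Set.range f) ≠ ⊥ := by
    intro h
    have h1 : f p ∈ Ideal.span (Set.range f) := Ideal.subset_span ⟨p, rfl⟩
    rw [h] at h1
    exact hp ((Ideal.mem_bot).1 h1)
  have hc' : Ideal.span (Set.range (T.vtw l f)) ≠ ⊥ := by
    intro h
    have h1 : T.vtw l f p ∈ Ideal.span (Set.range (T.vtw l f)) := Ideal.subset_span ⟨p, rfl⟩
    rw [h] at h1
    exact hp ((T.tw_eq_zero (T.mem_VB.1 hf p)).1 ((Ideal.mem_bot).1 h1))
  have h1 := fin_ker_im (T.VB n b) (T.mem_VB.2 fun _ => T.zero_mem_H b)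
    (fun x hx y hy => T.mem_VB.2 fun i => T.sub_mem_H (T.mem_VB.1 hx i) (T.mem_VB.1 hy i))
    (AddMonoidHom.mk' (fun x : Vc n O => lin f x) (lin_add_right f))
  have h2 : (T.M (b + l) (Ideal.span (Set.range f)) (Ideal.span (Set.range (T.vtw l f)))).card ≤
      ((T.VB n b).image (AddMonoidHom.mk' (fun x : Vc n O => lin f x) (lin_add_right f))).card := by
    refine Finset.card_le_card fun m hm => ?_
    obtain ⟨x, hx, hxm⟩ := T.HCnt_val hb hf hf0 hm
    exact Finset.mem_image.2 ⟨x, hx, hxm⟩
  have h3 := T.HCnt_index (b + l) hc hc'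
  rw [T.card_VB] at h1
  have h4 : ((T.VB n b).filter fun x => lin f x = 0).card =
      ((T.VB n b).filter fun x =>
        AddMonoidHom.mk' (fun x : Vc n O => lin f x) (lin_add_right f) x = 0).card := rfl
  rw [h1, h4]
  calc ((T.VB n b).filter fun x =>
        AddMonoidHom.mk' (fun x : Vc n O => lin f x) (lin_add_right f) x = 0).card * T.h (b + l)
      ≤ ((T.VB n b).filter fun x =>
        AddMonoidHom.mk' (fun x : Vc n O => lin f x) (lin_add_right f) x = 0).card *
        ((T.M (b + l) (Ideal.span (Set.range f)) (Ideal.span (Set.range (T.vtw l f)))).card *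
        (nI (Ideal.span (Set.range f)) * nI (Ideal.span (Set.range (T.vtw l f))))) :=
        Nat.mul_le_mul_left _ h3
    _ ≤ ((T.VB n b).filter fun x =>
        AddMonoidHom.mk' (fun x : Vc n O => lin f x) (lin_add_right f) x = 0).card *
        (((T.VB n b).image (AddMonoidHom.mk' (fun x : Vc n O => lin f x) (lin_add_right f))).card *
        (nI (Ideal.span (Set.range f)) * nI (Ideal.span (Set.range (T.vtw l f))))) :=
        Nat.mul_le_mul_left _ (Nat.mul_le_mul_right _ h2)
    _ = _ := by rw [← mul_assoc]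

end TC

end Pool.Agent.Lib.MP_1ad228_ntZ
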