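import Pool.Agent.Lib.MP_1ad228_ntZ.HShort
import Pool.Agent.Lib.MP_1ad228_ntZ.HCnt
import Pool.Agent.Lib.MP_1ad228_ntZ.DvCnt

/-!
LEAF HG.  Most points are good.
By `T.short` the set is contained in the union over `f ∈ VB n l`, `f ≠ 0`, of `{x : lin f x = 0}` (`lin_comm` if needed), with at most `h(b)^(n+1) N(f) / h(b+l)` elements, `N(f) = nI c * nI c'` (cnt_lin).  `N(f) ≤ Q^l` (`T.prod_le` for a nonzero entry).
Group by `(c, c') = (I, J)`: at most `(#M l I J)^(n+1) ≤ (2 Q * Q^l / N)^(n+1)` vectors `f` (M_up, `N ≤ Q^l`).  The total is `≤ h(b)^(n+1) / h(b+l) * (2Q)^(n+1) Q^(l(n+1)) * sum N^(-n)`, `n ≥ 2`, `sum over pairs of N^(-2) ≤ C` (dvTail with w = 0),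
and `h(b)^(n+1)/h(b+l) ≤ Q^((b+1)(n+1)) C0 / Q^(b+l)`.
-/

namespace Pool.Agent.Lib.MP_1ad228_ntZ

open Classical

namespace TC
variable {K O P : Type} [Field K] [CommRing O] [IsDedekindDomain O] [Algebra O K]
  [IsFractionRing O K] [CommRing P] [IsDedekindDomain P] [Algebra P K]
  [IsFractionRing P K] (T : TC K O P)

/-- The nonzero vectors. -/
private noncomputable def HG_V (n l : ℕ) : Finset (Vc n O) := (T.VB n l).filter fun f => f ≠ 0

/-- The pair of the contents. -/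
private noncomputable def HG_pr {n : ℕ} (l : ℕ) (f : Vc n O) : Ideal O × Ideal P :=
  (Ideal.span (Set.range f), Ideal.span (Set.range (T.vtw l f)))

private theorem HG_ne {n l : ℕ} {f : Vc n O} (hf : f ∈ T.HG_V n l) :
    (T.HG_pr l f).1 ≠ ⊥ ∧ (T.HG_pr l f).2 ≠ ⊥ ∧
      nI (T.HG_pr l f).1 * nI (T.HG_pr l f).2 ≤ T.Q ^ l := by
  obtain ⟨h1, h2⟩ := Finset.mem_filter.1 hf
  obtain ⟨i, hi⟩ := Function.ne_iff.1 h2
  have hi' : f i ≠ 0 := hi
  have hH : f i ∈ T.H l := (T.mem_VB.1 h1) i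
  have ht : T.tw l (f i) ≠ 0 := fun h => hi' ((T.tw_eq_zero hH).1 h)
  have m1 : f i ∈ (T.HG_pr l f).1 := Ideal.subset_span ⟨i, rfl⟩
  have m2 : T.tw l (f i) ∈ (T.HG_pr l f).2 := Ideal.subset_span ⟨i, rfl⟩
  refine ⟨fun h => hi' ?_, fun h => ht ?_, T.prod_le l (f i) (T.tw l (f i)) hi' (T.tw_spec hH) _ _ m1 m2⟩
  · rw [h] at m1
    exact (Submodule.mem_bot O).1 m1
  · rw [h] at m2
    exact (Submodule.mem_bot P).1 m2

private theorem HG_fib {n l : ℕ} (p : Ideal O × Ideal P) :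
    ((T.HG_V n l).filter fun f => T.HG_pr l f = p).card ≤ (T.M l p.1 p.2).card ^ (n + 1) := by
  have h1 : ((T.HG_V n l).filter fun f => T.HG_pr l f = p) ⊆
      Fintype.piFinset fun _ : Fin (n + 1) => T.M l p.1 p.2 := by
    intro f hf
    obtain ⟨h2, h3⟩ := Finset.mem_filter.1 hf
    obtain ⟨h4, -⟩ := Finset.mem_filter.1 h2
    refine Fintype.mem_piFinset.2 fun i => T.mem_M.2 ⟨(T.mem_VB.1 h4) i, ?_, ?_⟩
    · rw [← h3]
      exact Ideal.subset_span ⟨i, rfl⟩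
    · rw [← h3]
      exact Ideal.subset_span ⟨i, rfl⟩
  refine (Finset.card_le_card h1).trans (le_of_eq ?_)
  rw [Fintype.card_piFinset]
  simp

/-- Sum of the norms of the contents. -/
private theorem HG_sum (n : ℕ) (hn : 2 ≤ n) : ∃ C : ℝ, 1 ≤ C ∧ ∀ l : ℕ,
    ∑ f ∈ T.HG_V n l, ((nI (T.HG_pr l f).1 : ℝ) * nI (T.HG_pr l f).2) ≤
      (2 * (T.Q : ℝ) * (T.Q : ℝ) ^ l) ^ (n + 1) * C := by
  obtain ⟨C, hC, hT⟩ := T.dvTail
  refine ⟨C, hC, fun l => ?_⟩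
  have hQ : (1 : ℝ) ≤ (T.Q : ℝ) := by
    have := T.two_le
    exact_mod_cast (by omega : 1 ≤ T.Q)
  set A : ℝ := 2 * (T.Q : ℝ) * (T.Q : ℝ) ^ l with hA
  have hA0 : 0 ≤ A := by positivity
  set S : Finset (Ideal O × Ideal P) := (T.HG_V n l).image (T.HG_pr l) with hS
  rw [← Finset.sum_fiberwise_of_maps_to (s := T.HG_V n l) (t := S) (g := T.HG_pr l)
    (fun f hf => Finset.mem_image_of_mem _ hf)]
  have h1 : ∀ p ∈ S, p.1 ≠ ⊥ ∧ p.2 ≠ ⊥ ∧ nI p.1 * nI p.2 ≤ T.Q ^ l := by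
    intro p hp
    obtain ⟨f, hf, rfl⟩ := Finset.mem_image.1 hp
    exact T.HG_ne hf
  have hpos : ∀ p ∈ S, (1 : ℝ) ≤ (nI p.1 : ℝ) * nI p.2 := by
    intro p hp
    obtain ⟨h2, h3, -⟩ := h1 p hp
    have h4 := nI_pos T.finO h2
    have h5 := nI_pos T.finP h3
    exact_mod_cast Nat.mul_pos h4 h5
  have h6 : ∀ p ∈ S, ∑ f ∈ (T.HG_V n l).filter (fun f => T.HG_pr l f = p),
      ((nI (T.HG_pr l f).1 : ℝ) * nI (T.HG_pr l f).2) ≤
        A ^ (n + 1) * (1 / ((nI p.1 : ℝ) * nI p.2) ^ 2) := by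
    intro p hp
    obtain ⟨h2, h3, h4⟩ := h1 p hp
    have hN := hpos p hp
    set N : ℝ := (nI p.1 : ℝ) * nI p.2 with hNd
    have h5 : ∑ f ∈ (T.HG_V n l).filter (fun f => T.HG_pr l f = p),
        ((nI (T.HG_pr l f).1 : ℝ) * nI (T.HG_pr l f).2) =
          (((T.HG_V n l).filter fun f => T.HG_pr l f = p).card : ℝ) * N := by
      rw [Finset.sum_congr rfl (g := fun _ => N), Finset.sum_const, nsmul_eq_mul]
      intro f hf
      rw [(Finset.mem_filter.1 hf).2]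
    have hN0 : 0 < N := by linarith
    have hNQ : N ≤ (T.Q : ℝ) ^ l := by
      rw [hNd]
      exact_mod_cast h4
    have h7 : ((T.M l p.1 p.2).card : ℝ) ≤ A / N := by
      refine (T.M_up l h2 h3).trans ?_
      have h8 : (1 : ℝ) ≤ (T.Q : ℝ) ^ l / N := by
        rw [le_div_iff₀ hN0]
        linarith
      have h9 : A / N = T.Q * ((T.Q : ℝ) ^ l / N) + T.Q * ((T.Q : ℝ) ^ l / N) := by
        rw [hA]
        ring
      rw [h9]
      have h10 : (1 : ℝ) ≤ T.Q * ((T.Q : ℝ) ^ l / N) := by nlinarith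
      linarith
    have h8 : (((T.HG_V n l).filter fun f => T.HG_pr l f = p).card : ℝ) ≤ (A / N) ^ (n + 1) := by
      have h9 : (((T.HG_V n l).filter fun f => T.HG_pr l f = p).card : ℝ) ≤
          ((T.M l p.1 p.2).card : ℝ) ^ (n + 1) := by exact_mod_cast T.HG_fib p
      exact h9.trans (pow_le_pow_left₀ (Nat.cast_nonneg _) h7 _)
    rw [h5]
    calc (((T.HG_V n l).filter fun f => T.HG_pr l f = p).card : ℝ) * N ≤ (A / N) ^ (n + 1) * N :=
          mul_le_mul_of_nonneg_right h8 hN0.le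
      _ = A ^ (n + 1) * (1 / N ^ n) := by
          rw [div_pow, pow_succ N n]
          field_simp
      _ ≤ A ^ (n + 1) * (1 / N ^ 2) := by
          refine mul_le_mul_of_nonneg_left ?_ (pow_nonneg hA0 _)
          exact one_div_le_one_div_of_le (pow_pos hN0 2) (pow_le_pow_right₀ hN hn)
  refine (Finset.sum_le_sum h6).trans ?_
  rw [← Finset.mul_sum]
  refine mul_le_mul_of_nonneg_left ?_ (pow_nonneg hA0 _)
  have h7 := hT 0 S (by
    intro p hp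
    obtain ⟨h2, h3, -⟩ := h1 p hp
    refine ⟨h2, h3, ?_⟩
    have := hpos p hp
    push_cast
    linarith)
  simpa using h7

theorem notGood [IsPrincipalIdealRing P] (n : ℕ) (hn : 2 ≤ n) : ∃ C : ℝ, 1 ≤ C ∧
    ∀ b g l : ℕ, l + T.c1 ≤ b → l ≤ g →
      T.C0 ^ (n + 1) * T.Q ^ (b + 1) < T.Q ^ (g + (n - 1) * l) →
      (((T.VB n b).filter fun x => ¬ T.Good g x).card : ℝ) ≤ C * (T.Q : ℝ) ^ ((b + l) * n) := by
  obtain ⟨C, hC, hS⟩ := T.HG_sum n hn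
  have hQ : (1 : ℝ) ≤ (T.Q : ℝ) := by
    have := T.two_le
    exact_mod_cast (by omega : 1 ≤ T.Q)
  have hC0 : (1 : ℝ) ≤ (T.C0 : ℝ) := by exact_mod_cast T.C0_pos
  refine ⟨(T.C0 : ℝ) * C * (2 * (T.Q : ℝ)) ^ (n + 1) * (T.Q : ℝ) ^ (n + 1), ?_, ?_⟩
  · have h1 : (1 : ℝ) ≤ (T.C0 : ℝ) * C := one_le_mul_of_one_le_of_one_le hC0 hC
    have h2 : (1 : ℝ) ≤ (2 * (T.Q : ℝ)) ^ (n + 1) := one_le_pow₀ (by linarith)
    have h3 : (1 : ℝ) ≤ (T.Q : ℝ) ^ (n + 1) := one_le_pow₀ hQ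
    exact one_le_mul_of_one_le_of_one_le (one_le_mul_of_one_le_of_one_le h1 h2) h3
  intro b g l hb hlg hc
  have hsub : ((T.VB n b).filter fun x => ¬ T.Good g x) ⊆
      (T.HG_V n l).biUnion fun f => (T.VB n b).filter fun x => lin f x = 0 := by
    intro x hx
    obtain ⟨h1, h2⟩ := Finset.mem_filter.1 hx
    obtain ⟨f, hf, hf0, hl⟩ := T.short (by omega) hlg hc h1 h2
    exact Finset.mem_biUnion.2 ⟨f, Finset.mem_filter.2 ⟨hf, hf0⟩, Finset.mem_filter.2 ⟨h1, hl⟩⟩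
  have h1 : (((T.VB n b).filter fun x => ¬ T.Good g x).card : ℝ) ≤
      ∑ f ∈ T.HG_V n l, (((T.VB n b).filter fun x => lin f x = 0).card : ℝ) := by
    exact_mod_cast (Finset.card_le_card hsub).trans Finset.card_biUnion_le
  set B : ℝ := (((T.VB n b).filter fun x => ¬ T.Good g x).card : ℝ) with hB
  have hB0 : 0 ≤ B := Nat.cast_nonneg _
  have hh0 : (0 : ℝ) ≤ (T.h (b + l) : ℝ) := Nat.cast_nonneg _
  have h2 : B * T.h (b + l) ≤ (T.h b : ℝ) ^ (n + 1) *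
      ((2 * (T.Q : ℝ) * (T.Q : ℝ) ^ l) ^ (n + 1) * C) := by
    calc B * T.h (b + l) ≤
          (∑ f ∈ T.HG_V n l, (((T.VB n b).filter fun x => lin f x = 0).card : ℝ)) * T.h (b + l) :=
          mul_le_mul_of_nonneg_right h1 hh0
      _ = ∑ f ∈ T.HG_V n l, (((T.VB n b).filter fun x => lin f x = 0).card : ℝ) * T.h (b + l) :=
          Finset.sum_mul _ _ _
      _ ≤ ∑ f ∈ T.HG_V n l, (T.h b : ℝ) ^ (n + 1) *
            ((nI (T.HG_pr l f).1 : ℝ) * nI (T.HG_pr l f).2) := by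
          refine Finset.sum_le_sum fun f hf => ?_
          obtain ⟨h3, h4⟩ := Finset.mem_filter.1 hf
          exact_mod_cast T.cnt_lin hb h3 h4
      _ = (T.h b : ℝ) ^ (n + 1) * ∑ f ∈ T.HG_V n l,
            ((nI (T.HG_pr l f).1 : ℝ) * nI (T.HG_pr l f).2) := (Finset.mul_sum _ _ _).symm
      _ ≤ _ := mul_le_mul_of_nonneg_left (hS l) (by positivity)
  have h3 : ((T.Q : ℝ) ^ (b + l)) ≤ (T.C0 : ℝ) * T.h (b + l) := by exact_mod_cast T.h_low (b + l)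
  have h4 : (T.h b : ℝ) ≤ (T.Q : ℝ) ^ (b + 1) := by exact_mod_cast T.h_up b
  have hQp : (0 : ℝ) < (T.Q : ℝ) ^ (b + l) := by positivity
  refine le_of_mul_le_mul_right ?_ hQp
  calc B * (T.Q : ℝ) ^ (b + l) ≤ B * ((T.C0 : ℝ) * T.h (b + l)) :=
        mul_le_mul_of_nonneg_left h3 hB0
    _ = (T.C0 : ℝ) * (B * T.h (b + l)) := by ring
    _ ≤ (T.C0 : ℝ) * ((T.h b : ℝ) ^ (n + 1) *
          ((2 * (T.Q : ℝ) * (T.Q : ℝ) ^ l) ^ (n + 1) * C)) :=
        mul_le_mul_of_nonneg_left h2 (by linarith)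
    _ ≤ (T.C0 : ℝ) * (((T.Q : ℝ) ^ (b + 1)) ^ (n + 1) *
          ((2 * (T.Q : ℝ) * (T.Q : ℝ) ^ l) ^ (n + 1) * C)) := by
        refine mul_le_mul_of_nonneg_left (mul_le_mul_of_nonneg_right
          (pow_le_pow_left₀ (Nat.cast_nonneg _) h4 _) ?_) (by linarith)
        have : (0 : ℝ) ≤ C := by linarith
        positivity
    _ = _ := by
        rw [mul_pow (2 * (T.Q : ℝ)) ((T.Q : ℝ) ^ l) (n + 1)]
        have e1 : ((T.Q : ℝ) ^ (b + 1)) ^ (n + 1) = (T.Q : ℝ) ^ (b * (n + 1)) * (T.Q : ℝ) ^ (n + 1) := by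
          rw [← pow_mul, ← pow_add]
          congr 1
          ring
        have e2 : ((T.Q : ℝ) ^ l) ^ (n + 1) = (T.Q : ℝ) ^ (l * (n + 1)) := by
          rw [← pow_mul]
        have e3 : (T.Q : ℝ) ^ ((b + l) * n) * (T.Q : ℝ) ^ (b + l) =
            (T.Q : ℝ) ^ (b * (n + 1)) * (T.Q : ℝ) ^ (l * (n + 1)) := by
          rw [← pow_add, ← pow_add]
          congr 1
          ring
        rw [e1, e2, mul_assoc _ ((T.Q : ℝ) ^ ((b + l) * n)), e3]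
        ring

end TC

end Pool.Agent.Lib.MP_1ad228_ntZ
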