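import Pool.Agent.Lib.MP_1ad228_ntZ.Cls
import Pool.Agent.Lib.MP_1ad228_ntZ.CntY

/-!
LEAF Low.  Lower bound for the number of test points which satisfy the local conditions.
low_cnt: for every unimodular common zero `z` of `red (WD O w) F` and `z'` of `red (WD P w) (ftw a F)` choose representatives `ξ`, `ξ'`.  The classes `Cls w b ξ ξ'` are disjoint.  A point `x` of the class satisfies `ev (F i) x ∈ WD O w`
(`ev_map` for the quotient map) and `tw (a + d_i b) (ev (F i) x) = ev (ftw a F i) (vtw b x) ∈ WD P w` (tw_ev), so `ev (F i) x ∈ MS w (a + d_i b)`.  It is in `GG` if it is unimodular in `O` (all but nonUni), unimodular in `P` (uniP) and good (all but the last term).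
many: low_cnt-type argument with the single class `ξ = e_0`, `ξ' = e_0` and a fixed `w` with `C / (w+1)` small compared to `C0^(-(n+1))`: `#Cls ≥ (Q^b / (C0 NW))^(n+1)`.
-/

namespace Pool.Agent.Lib.MP_1ad228_ntZ

open Classical

/-- Lifting of a unimodular vector modulo an ideal. -/
theorem low_uniLift {R : Type} [CommRing R] {n : ℕ} (I : Ideal R) (ξ : Vc n R)
    (h : Uni (fun i => Ideal.Quotient.mk I (ξ i))) : ∃ u : Vc n R, lin u ξ - 1 ∈ I := by
  obtain ⟨v, hv⟩ := h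
  choose u hu using fun i => Ideal.Quotient.mk_surjective (I := I) (v i)
  refine ⟨u, ?_⟩
  rw [← Ideal.Quotient.eq_zero_iff_mem, map_sub, map_one, sub_eq_zero, ← hv]
  unfold Pool.Agent.Lib.MP_219881_nt.lin
  rw [map_sum]
  exact Finset.sum_congr rfl fun i _ => by rw [map_mul, hu]

namespace TC
variable {K O P : Type} [Field K] [CommRing O] [IsDedekindDomain O] [Algebra O K]
  [IsFractionRing O K] [CommRing P] [IsDedekindDomain P] [Algebra P K]
  [IsFractionRing P K] (T : TC K O P)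

include T in
theorem low_NWpos (w : ℕ) : 0 < NW O P w :=
  Nat.mul_pos (nI_pos T.finO (WD_ne_bot (T.fewO w))) (nI_pos T.finP (WD_ne_bot (T.fewP w)))

theorem low_memCls {n w b : ℕ} {ξ : Vc n O} {ξ' : Vc n P} {x : Vc n O} : x ∈ T.Cls w b ξ ξ' ↔
    x ∈ T.VB n b ∧ (∀ i, x i - ξ i ∈ WD O w) ∧ ∀ i, T.vtw b x i - ξ' i ∈ WD P w := by
  unfold Cls
  rw [Finset.mem_filter]

/-- Points of the class of a pair of local zeros satisfy the local conditions. -/
theorem low_evCls {n r : ℕ} {d : Fin r → ℕ} {w a b : ℕ} {F : Tup n d O} (hF : F ∈ T.TBox n d a)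
    {ξ : Vc n O} {ξ' : Vc n P}
    (hξ : ∀ i, ev (red (WD O w) F i) (fun j => Ideal.Quotient.mk (WD O w) (ξ j)) = 0)
    (hξ' : ∀ i, ev (red (WD P w) (T.ftw a F) i)
      (fun j => Ideal.Quotient.mk (WD P w) (ξ' j)) = 0)
    {x : Vc n O} (hx : x ∈ T.Cls w b ξ ξ') (i : Fin r) :
    ev (F i) x ∈ T.MS w (a + d i * b) := by
  rw [low_memCls] at hx
  obtain ⟨hxV, hx1, hx2⟩ := hx
  have hFi : F i ∈ T.Box n (d i) a := T.mem_TBox.1 hF i
  unfold MS
  rw [mem_M]
  refine ⟨T.ev_mem hFi hxV, ?_, ?_⟩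
  · have e : (fun j => Ideal.Quotient.mk (WD O w) (x j)) =
        fun j => Ideal.Quotient.mk (WD O w) (ξ j) := by
      funext j
      exact (Ideal.Quotient.mk_eq_mk_iff_sub_mem _ _).2 (hx1 j)
    rw [← Ideal.Quotient.eq_zero_iff_mem, ← ev_map, e]
    exact hξ i
  · have e : (fun j => Ideal.Quotient.mk (WD P w) (T.vtw b x j)) =
        fun j => Ideal.Quotient.mk (WD P w) (ξ' j) := by
      funext j
      exact (Ideal.Quotient.mk_eq_mk_iff_sub_mem _ _).2 (hx2 j)
    rw [T.tw_ev hFi hxV, ← Ideal.Quotient.eq_zero_iff_mem, ← ev_map, e]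
    exact hξ' i

theorem low_cardCls {n : ℕ} {w b : ℕ} (h : T.C1 * NW O P w ≤ T.Q ^ b) (ξ : Vc n O)
    (ξ' : Vc n P) : ((T.Cls w b ξ ξ').card : ℝ) =
      (T.h b : ℝ) ^ (n + 1) / (NW O P w : ℝ) ^ (n + 1) := by
  have hN : (0 : ℝ) < (NW O P w : ℝ) := by exact_mod_cast T.low_NWpos w
  rw [eq_div_iff (by positivity)]
  exact_mod_cast T.card_Cls h ξ ξ'

theorem low_cnt (n : ℕ) (hn : 1 ≤ n) {r : ℕ} (d : Fin r → ℕ)
    (hs : ∀ p : Ideal P, p.IsPrime → p ≠ ⊥ → T.s ∈ p) : ∃ C : ℝ, 1 ≤ C ∧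
    ∀ (w a b g : ℕ) (F : Tup n d O), T.Q ≤ w → T.C1 * NW O P w ≤ T.Q ^ b →
      F ∈ T.TBox n d a →
      ((smI (WD O w) F : ℝ) * smI (WD P w) (T.ftw a F)) *
        ((T.h b : ℝ) ^ (n + 1) / (NW O P w : ℝ) ^ (n + 1) -
          C * (((T.Q : ℝ) ^ b / (NW O P w : ℝ)) ^ (n + 1) / (w + 1) + (T.Q : ℝ) ^ b)) -
        ((T.VB n b).filter fun x => ¬ T.Good g x).card ≤
      (((T.GG n b g).filter fun x => ∀ i, ev (F i) x ∈ T.MS w (a + d i * b)).card : ℝ) := by
  obtain ⟨C, hC, hnon⟩ := T.nonUni n hn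
  refine ⟨C, hC, fun w a b g F hw hb hF => ?_⟩
  have : Finite (O ⧸ WD O w) := T.finO _ (WD_ne_bot (T.fewO w))
  have : Finite (P ⧸ WD P w) := T.finP _ (WD_ne_bot (T.fewP w))
  set Z := {z : Vc n (O ⧸ WD O w) // Uni z ∧ ∀ i, ev (red (WD O w) F i) z = 0} with hZ
  set Z' := {z : Vc n (P ⧸ WD P w) // Uni z ∧ ∀ i, ev (red (WD P w) (T.ftw a F) i) z = 0} with hZ'
  letI : Fintype Z := Fintype.ofFinite _
  letI : Fintype Z' := Fintype.ofFinite _
  have c1 : (smI (WD O w) F : ℝ) = (Fintype.card Z : ℝ) := by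
    unfold smI Pool.Agent.Lib.MP_1ad228_ntN.smR
    rw [Nat.card_eq_fintype_card]
  have c2 : (smI (WD P w) (T.ftw a F) : ℝ) = (Fintype.card Z' : ℝ) := by
    unfold smI Pool.Agent.Lib.MP_1ad228_ntN.smR
    rw [Nat.card_eq_fintype_card]
  choose ξ hξ using fun (z : Z) (i : Fin (n + 1)) =>
    Ideal.Quotient.mk_surjective (I := WD O w) (z.1 i)
  choose ξ' hξ' using fun (z : Z') (i : Fin (n + 1)) =>
    Ideal.Quotient.mk_surjective (I := WD P w) (z.1 i)
  have e1 : ∀ z : Z, (fun j => Ideal.Quotient.mk (WD O w) (ξ z j)) = z.1 :=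
    fun z => funext fun j => hξ z j
  have e2 : ∀ z : Z', (fun j => Ideal.Quotient.mk (WD P w) (ξ' z j)) = z.1 :=
    fun z => funext fun j => hξ' z j
  set D : Z × Z' → Finset (Vc n O) := fun q => T.Cls w b (ξ q.1) (ξ' q.2) with hD
  have hdisj : ∀ q q' : Z × Z', q ≠ q' → Disjoint (D q) (D q') := by
    intro q q' hqq
    rw [Finset.disjoint_left]
    intro x hx hx'
    apply hqq
    simp only [hD] at hx hx'
    rw [low_memCls] at hx hx'
    refine Prod.ext (Subtype.ext (funext fun i => ?_)) (Subtype.ext (funext fun i => ?_))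
    · rw [← hξ q.1 i, ← hξ q'.1 i]
      rw [Ideal.Quotient.mk_eq_mk_iff_sub_mem]
      have := (WD O w).sub_mem (hx'.2.1 i) (hx.2.1 i)
      have h3 : ξ q.1 i - ξ q'.1 i = x i - ξ q'.1 i - (x i - ξ q.1 i) := by ring
      rw [h3]; exact this
    · rw [← hξ' q.2 i, ← hξ' q'.2 i]
      rw [Ideal.Quotient.mk_eq_mk_iff_sub_mem]
      have := (WD P w).sub_mem (hx'.2.2 i) (hx.2.2 i)
      have h3 : ξ' q.2 i - ξ' q'.2 i = T.vtw b x i - ξ' q'.2 i - (T.vtw b x i - ξ' q.2 i) := by ring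
      rw [h3]; exact this
  set A := (T.GG n b g).filter fun x => ∀ i, ev (F i) x ∈ T.MS w (a + d i * b) with hA
  set B := (T.VB n b).filter fun x => ¬ T.Good g x with hB
  have hsum : ∀ E : Finset (Vc n O), ∑ q : Z × Z', ((D q ∩ E).card : ℝ) ≤ (E.card : ℝ) := by
    intro E
    have h1 : (Finset.univ.biUnion fun q : Z × Z' => D q ∩ E).card =
        ∑ q : Z × Z', (D q ∩ E).card := by
      refine Finset.card_biUnion fun q _ q' _ hqq => ?_
      exact (hdisj q q' hqq).mono Finset.inter_subset_left Finset.inter_subset_left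
    have h2 : (Finset.univ.biUnion fun q : Z × Z' => D q ∩ E).card ≤ E.card := by
      refine Finset.card_le_card fun x hx => ?_
      rw [Finset.mem_biUnion] at hx
      obtain ⟨q, _, hq⟩ := hx
      exact (Finset.mem_inter.1 hq).2
    rw [h1] at h2
    exact_mod_cast h2
  have hone : ∀ q : Z × Z', (T.h b : ℝ) ^ (n + 1) / (NW O P w : ℝ) ^ (n + 1) -
      C * (((T.Q : ℝ) ^ b / (NW O P w : ℝ)) ^ (n + 1) / (w + 1) + (T.Q : ℝ) ^ b) ≤
      ((D q ∩ A).card : ℝ) + ((D q ∩ B).card : ℝ) := by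
    intro q
    obtain ⟨u, hu⟩ := low_uniLift (WD O w) (ξ q.1) (by rw [e1]; exact q.1.2.1)
    obtain ⟨u', hu'⟩ := low_uniLift (WD P w) (ξ' q.2) (by rw [e2]; exact q.2.2.1)
    have h1 := hnon w b (ξ q.1) u (ξ' q.2) hu
    have h2 : (D q).card ≤ (D q ∩ A).card + (D q ∩ B).card +
        ((D q).filter fun x => ¬ Uni x).card := by
      have : D q ⊆ ((D q ∩ A) ∪ (D q ∩ B)) ∪ (D q).filter fun x => ¬ Uni x := by
        intro x hx
        rw [Finset.mem_union, Finset.mem_union]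
        by_cases hU : Uni x
        · left
          have hxC : x ∈ T.Cls w b (ξ q.1) (ξ' q.2) := hx
          have hxV : x ∈ T.VB n b := (T.low_memCls.1 hxC).1
          by_cases hG : T.Good g x
          · left
            refine Finset.mem_inter.2 ⟨hx, ?_⟩
            rw [hA, Finset.mem_filter]
            refine ⟨?_, fun i => T.low_evCls hF (fun k => ?_) (fun k => ?_) hxC i⟩
            · unfold GG
              rw [Finset.mem_filter]
              exact ⟨hxV, hU, T.uniP hw hs hu' hxC, hG⟩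
            · rw [e1]; exact q.1.2.2 k
            · rw [e2]; exact q.2.2.2 k
          · right
            refine Finset.mem_inter.2 ⟨hx, ?_⟩
            rw [hB, Finset.mem_filter]
            exact ⟨hxV, hG⟩
        · right
          exact Finset.mem_filter.2 ⟨hx, hU⟩
      exact (Finset.card_le_card this).trans ((Finset.card_union_le _ _).trans
        (Nat.add_le_add_right (Finset.card_union_le _ _) _))
    have h3 : ((D q).card : ℝ) = (T.h b : ℝ) ^ (n + 1) / (NW O P w : ℝ) ^ (n + 1) :=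
      T.low_cardCls hb (ξ q.1) (ξ' q.2)
    have h2' : ((D q).card : ℝ) ≤ ((D q ∩ A).card : ℝ) + ((D q ∩ B).card : ℝ) +
        (((D q).filter fun x => ¬ Uni x).card : ℝ) := by exact_mod_cast h2
    have h1' : (((D q).filter fun x => ¬ Uni x).card : ℝ) ≤
        C * (((T.Q : ℝ) ^ b / (NW O P w : ℝ)) ^ (n + 1) / (w + 1) + (T.Q : ℝ) ^ b) := h1
    linarith
  have htot := Finset.sum_le_sum fun q (_ : q ∈ (Finset.univ : Finset (Z × Z'))) => hone q
  rw [Finset.sum_add_distrib, Finset.sum_const, Finset.card_univ, Fintype.card_prod,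
    nsmul_eq_mul, Nat.cast_mul] at htot
  have hA' := hsum A
  have hB' := hsum B
  rw [c1, c2]
  linarith

theorem many (n : ℕ) (hn : 1 ≤ n)
    (hs : ∀ p : Ideal P, p.IsPrime → p ≠ ⊥ → T.s ∈ p) : ∃ c : ℝ, 0 < c ∧ ∃ b0 : ℕ,
    ∀ b g : ℕ, b0 ≤ b → c * (T.Q : ℝ) ^ (b * (n + 1)) -
      ((T.VB n b).filter fun x => ¬ T.Good g x).card ≤ ((T.GG n b g).card : ℝ) := by
  obtain ⟨C, hC, hnon⟩ := T.nonUni n hn
  have hQ : (2 : ℝ) ≤ T.Q := by exact_mod_cast T.two_le
  have hC0 : (0 : ℝ) < T.C0 := by exact_mod_cast T.C0_pos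
  obtain ⟨w1, hw1⟩ := exists_nat_ge (4 * C * (T.C0 : ℝ) ^ (n + 1))
  set w := max T.Q w1 with hw
  have hwQ : T.Q ≤ w := le_max_left _ _
  have hw2 : 4 * C * (T.C0 : ℝ) ^ (n + 1) ≤ (w : ℝ) + 1 := by
    have : (w1 : ℝ) ≤ (w : ℝ) := by exact_mod_cast le_max_right T.Q w1
    linarith
  have hN : (0 : ℝ) < (NW O P w : ℝ) := by exact_mod_cast T.low_NWpos w
  obtain ⟨b1, hb1⟩ := exists_nat_ge ((T.C1 : ℝ) * NW O P w)
  obtain ⟨b2, hb2⟩ := exists_nat_ge (4 * C * ((T.C0 : ℝ) * NW O P w) ^ (n + 1))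
  refine ⟨1 / (2 * ((T.C0 : ℝ) * NW O P w) ^ (n + 1)), by positivity, max b1 b2,
    fun b g hb => ?_⟩
  have hbQ : (b : ℝ) ≤ (T.Q : ℝ) ^ b := by
    have h1 : b < T.Q ^ b := Nat.lt_pow_self (by have := T.two_le; omega)
    exact_mod_cast h1.le
  have hbm1 : (b1 : ℝ) ≤ b := by exact_mod_cast (le_max_left b1 b2).trans hb
  have hbm2 : (b2 : ℝ) ≤ b := by exact_mod_cast (le_max_right b1 b2).trans hb
  have hbC : T.C1 * NW O P w ≤ T.Q ^ b := by
    have : (T.C1 : ℝ) * NW O P w ≤ (T.Q : ℝ) ^ b := by linarith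
    exact_mod_cast this
  set e : Vc n O := Pi.single 0 1 with he
  set e' : Vc n P := Pi.single 0 1 with he'
  have hle : lin e e - 1 ∈ WD O w := by
    have : lin e e = 1 := by
      unfold Pool.Agent.Lib.MP_219881_nt.lin
      rw [Finset.sum_eq_single 0]
      · simp [he]
      · intro i _ hi; simp [he, hi]
      · simp
    rw [this, sub_self]; exact Ideal.zero_mem _
  have hle' : lin e' e' - 1 ∈ WD P w := by
    have : lin e' e' = 1 := by
      unfold Pool.Agent.Lib.MP_219881_nt.lin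
      rw [Finset.sum_eq_single 0]
      · simp [he']
      · intro i _ hi; simp [he', hi]
      · simp
    rw [this, sub_self]; exact Ideal.zero_mem _
  have h1 := hnon w b e e e' hle
  have h3 := T.low_cardCls (n := n) hbC e e'
  have h2 : (T.Cls w b e e').card ≤ (T.GG n b g).card +
      ((T.VB n b).filter fun x => ¬ T.Good g x).card +
      ((T.Cls w b e e').filter fun x => ¬ Uni x).card := by
    have : T.Cls w b e e' ⊆ (T.GG n b g ∪ (T.VB n b).filter fun x => ¬ T.Good g x) ∪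
        (T.Cls w b e e').filter fun x => ¬ Uni x := by
      intro x hx
      rw [Finset.mem_union, Finset.mem_union]
      by_cases hU : Uni x
      · left
        have hxV : x ∈ T.VB n b := (T.low_memCls.1 hx).1
        by_cases hG : T.Good g x
        · left
          unfold GG
          rw [Finset.mem_filter]
          exact ⟨hxV, hU, T.uniP hwQ hs hle' hx, hG⟩
        · right
          exact Finset.mem_filter.2 ⟨hxV, hG⟩
      · right
        exact Finset.mem_filter.2 ⟨hx, hU⟩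
    exact (Finset.card_le_card this).trans ((Finset.card_union_le _ _).trans
      (Nat.add_le_add_right (Finset.card_union_le _ _) _))
  have h2' : ((T.Cls w b e e').card : ℝ) ≤ ((T.GG n b g).card : ℝ) +
      (((T.VB n b).filter fun x => ¬ T.Good g x).card : ℝ) +
      (((T.Cls w b e e').filter fun x => ¬ Uni x).card : ℝ) := by exact_mod_cast h2
  -- sizes
  set X : ℝ := (T.Q : ℝ) ^ b / (NW O P w : ℝ) with hX
  have hXpos : 0 < X := by positivity
  have hlow : (T.Q : ℝ) ^ b / T.C0 ≤ T.h b := by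
    rw [div_le_iff₀ hC0, mul_comm]
    exact_mod_cast T.h_low b
  have m1 : (X / T.C0) ^ (n + 1) ≤ (T.h b : ℝ) ^ (n + 1) / (NW O P w : ℝ) ^ (n + 1) := by
    rw [← div_pow]
    refine pow_le_pow_left₀ (by positivity) ?_ _
    rw [hX, div_div, mul_comm, ← div_div]
    exact div_le_div_of_nonneg_right hlow hN.le
  have m2 : C * (X ^ (n + 1) / (w + 1)) ≤ (1 / 4) * (X / T.C0) ^ (n + 1) := by
    have e6 : (X / T.C0) ^ (n + 1) = X ^ (n + 1) / (T.C0 : ℝ) ^ (n + 1) := div_pow _ _ _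
    rw [e6, ← mul_div_assoc, ← mul_div_assoc, div_le_div_iff₀ (by positivity) (by positivity)]
    have : 0 ≤ X ^ (n + 1) := by positivity
    nlinarith [mul_le_mul_of_nonneg_left hw2 this]
  have m3 : C * (T.Q : ℝ) ^ b ≤ (1 / 4) * (X / T.C0) ^ (n + 1) := by
    have e5 : X / T.C0 = (T.Q : ℝ) ^ b / ((T.C0 : ℝ) * NW O P w) := by
      rw [hX, div_div, mul_comm]
    rw [e5, div_pow, ← mul_div_assoc, le_div_iff₀ (by positivity)]
    have h5 : 4 * C * ((T.C0 : ℝ) * NW O P w) ^ (n + 1) ≤ (T.Q : ℝ) ^ b := by linarith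
    have h6 : (T.Q : ℝ) ^ b * (T.Q : ℝ) ^ b ≤ ((T.Q : ℝ) ^ b) ^ (n + 1) := by
      rw [← sq]
      refine pow_le_pow_right₀ (one_le_pow₀ (by linarith)) (by omega)
    have h7 : 0 < (T.Q : ℝ) ^ b := by positivity
    nlinarith [mul_le_mul_of_nonneg_left h5 h7.le]
  have m4 : 1 / (2 * ((T.C0 : ℝ) * NW O P w) ^ (n + 1)) * (T.Q : ℝ) ^ (b * (n + 1)) =
      (1 / 2) * (X / T.C0) ^ (n + 1) := by
    have e5 : X / T.C0 = (T.Q : ℝ) ^ b / ((T.C0 : ℝ) * NW O P w) := by
      rw [hX, div_div, mul_comm]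
    rw [e5, div_pow, pow_mul]
    field_simp
  rw [m4]
  have h1' : (((T.Cls w b e e').filter fun x => ¬ Uni x).card : ℝ) ≤
      C * (X ^ (n + 1) / (w + 1)) + C * (T.Q : ℝ) ^ b := by
    rw [← mul_add]; exact h1
  linarith

end TC

end Pool.Agent.Lib.MP_1ad228_ntZ
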