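import Mathlib

/-!
LEAF ParZ (natural numbers only).  The parameters.
Proof.  `ι := n + 1 - D ≥ 1`, `b := (r a + M) / ι`, `l := (b - s) / n`, `S := s + n + κ + 2`, `g := l + S`.
`b ι ≤ r a + M < b ι + ι`, `n l ≤ b - s < n l + n`.  So `κ + b + 2 ≤ g + (n-1) l = n l + S` (if `s ≤ b`).
`n ι (2 l) ≤ 2 b ι ≤ 2 r a + 2 M`.  If `2 r < n ι` take `k = 0`: `n ι (2 l + 2 S + c1) ≤ (n ι - 1) a + 2 M + n ι (2 S + c1) ≤ n ι a` for large `a`.
If `2 r = n ι` take `k := 2 M + 2 S + c1`: `2 l ≤ a + 2 M` (as `n ι ≥ 1`).  Then `g + c1 ≤ a` for `a ≥ k + c1`-like bounds.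
`n (g n + (g+b)(r+1)) ≤ n (b + S n) + (b + S n + b n)(r+1) ≤ b (n + (n+1)(r+1)) + const ≤ b (n^2 + n - 1) + const` because `(n+1)(r+1) ≤ (n+1)(n-1) = n^2 - 1`.
`g (2n(n+1) - 1) = 2(n+1) (g n) - g ≤ 2 (n+1) (b + S n) - g` and `g ≥ A + 2 (n+1) S n` for large `a`.
All of `b, l, g` tend to infinity with `a` (`r ≥ 1`, `b ι + ι > r a`, so `b + 1 > a / ι`).
(You may split into the two cases and use explicit `a0`.)
-/

namespace Pool.Agent.Lib.MP_1ad228_ntZ

theorem parZ (n r D c1 κ : ℕ) (hr : 1 ≤ r) (hn : r + 2 ≤ n) (hD : D ≤ n)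
    (h2 : 2 * r ≤ n * (n + 1 - D)) (M s : ℕ) :
    ∃ k : ℕ, (2 * r < n * (n + 1 - D) → k = 0) ∧ ∀ A : ℕ, ∃ a0 : ℕ, ∀ a : ℕ, a0 ≤ a →
      ∃ b g l : ℕ, A ≤ b ∧ b * (n + 1 - D) ≤ r * a + M ∧
        r * a + M < b * (n + 1 - D) + (n + 1 - D) ∧ l ≤ g ∧ l + c1 ≤ b ∧
        κ + b + 2 ≤ g + (n - 1) * l ∧ n * l + s ≤ b ∧
        g * n + (g + b) * (r + 1) + A ≤ b * (n + 1) ∧
        g * (2 * n * (n + 1) - 1) + A ≤ 2 * (b * (n + 1)) ∧
        g + c1 ≤ a ∧ 2 * g + c1 ≤ a + k := by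
  obtain ⟨ι, hι⟩ : ∃ ι : ℕ, ι = n + 1 - D := ⟨_, rfl⟩
  rw [← hι] at h2 ⊢
  have hι1 : 1 ≤ ι := by omega
  obtain ⟨S, hS⟩ : ∃ S : ℕ, S = s + n + κ + 2 := ⟨_, rfl⟩
  obtain ⟨k, hk⟩ : ∃ k : ℕ, k = if 2 * r < n * ι then 0 else 2 * M + 2 * S + c1 := ⟨_, rfl⟩
  have hn3 : 3 ≤ n := by omega
  have hn0 : 0 < n := by omega
  have hkey : (n + 1) * (r + 1) + 1 ≤ n * n := by
    obtain ⟨m, rfl⟩ := Nat.exists_eq_add_of_le hn
    nlinarith
  refine ⟨k, fun h => by rw [hk, if_pos h], fun A => ?_⟩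
  obtain ⟨L0, hL0⟩ : ∃ L0 : ℕ, L0 = A + 2 * (n + 1) * (S * n) := ⟨_, rfl⟩
  obtain ⟨B0, hB0⟩ : ∃ B0 : ℕ, B0 = A + 2 * c1 + S * n * n + S * n * (r + 1) + n * A +
    (s + n * (L0 + 1)) := ⟨_, rfl⟩
  refine ⟨ι * (B0 + 1) + 2 * M + n * ι * (2 * S + c1), fun a ha => ?_⟩
  obtain ⟨b, hb⟩ : ∃ b : ℕ, b = (r * a + M) / ι := ⟨_, rfl⟩
  have hb1 : b * ι ≤ r * a + M := by
    rw [hb]
    exact Nat.div_mul_le_self _ _
  have hb2 : r * a + M < b * ι + ι := by
    rw [hb]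
    exact Nat.lt_div_mul_add hι1
  have hra : a ≤ r * a := Nat.le_mul_of_pos_left a hr
  have hbB : B0 < b := by
    have h1 : ι * (B0 + 1) < (b + 1) * ι := by
      have h3 : (b + 1) * ι = b * ι + ι := by ring
      rw [h3]
      omega
    rw [mul_comm] at h1
    have h3 := Nat.lt_of_mul_lt_mul_right h1
    omega
  obtain ⟨l, hl⟩ : ∃ l : ℕ, l = (b - s) / n := ⟨_, rfl⟩
  have hl1 : l * n ≤ b - s := by
    rw [hl]
    exact Nat.div_mul_le_self _ _
  have hl2 : b - s < l * n + n := by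
    rw [hl]
    exact Nat.lt_div_mul_add hn0
  have hsb : s + n * (L0 + 1) ≤ b := by omega
  have hsb' : s ≤ b := by omega
  have hlL : L0 < l := by
    have h1 : n * (L0 + 1) < (l + 1) * n := by
      have h3 : (l + 1) * n = l * n + n := by ring
      rw [h3]
      omega
    rw [mul_comm] at h1
    have h3 := Nat.lt_of_mul_lt_mul_right h1
    omega
  obtain ⟨g, hg⟩ : ∃ g : ℕ, g = l + S := ⟨_, rfl⟩
  have hgn : g * n ≤ b + S * n := by
    rw [hg, add_mul]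
    omega
  have hgl : g + (n - 1) * l = l * n + S := by
    obtain ⟨m, rfl⟩ := Nat.exists_eq_add_of_le hn0
    rw [hg]
    have h1 : 0 + 1 + m - 1 = m := by omega
    have h3 : (Nat.succ 0 + m) - 1 = m := by omega
    rw [h3]
    ring
  have hgni : n * ι * g ≤ r * a + M + ι * (S * n) := by
    calc n * ι * g = ι * (g * n) := by ring
      _ ≤ ι * (b + S * n) := Nat.mul_le_mul_left ι hgn
      _ = b * ι + ι * (S * n) := by ring
      _ ≤ _ := Nat.add_le_add_right hb1 _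
  have hni : 0 < n * ι := Nat.mul_pos hn0 hι1
  refine ⟨b, g, l, by omega, hb1, hb2, by omega, ?_, ?_, ?_, ?_, ?_, ?_, ?_⟩
  · have h1 : l * 3 ≤ l * n := Nat.mul_le_mul_left l hn3
    omega
  · rw [hgl, hS]
    omega
  · rw [mul_comm n l]
    omega
  · -- eight
    refine Nat.le_of_mul_le_mul_left ?_ hn0
    have h1 : b * ((n + 1) * (r + 1)) + b ≤ b * (n * n) := by
      have h3 := Nat.mul_le_mul_left b hkey
      rw [mul_add, mul_one] at h3
      exact h3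
    have h3 : S * n * n + S * n * (r + 1) + n * A ≤ b := by omega
    calc n * (g * n + (g + b) * (r + 1) + A)
        = n * (g * n) + (g * n + b * n) * (r + 1) + n * A := by ring
      _ ≤ n * (b + S * n) + (b + S * n + b * n) * (r + 1) + n * A := by
          refine Nat.add_le_add_right (Nat.add_le_add (Nat.mul_le_mul_left n hgn)
            (Nat.mul_le_mul_right (r + 1) (Nat.add_le_add_right hgn _))) _
      _ = b * n + (b * ((n + 1) * (r + 1)) + (S * n * n + S * n * (r + 1) + n * A)) := by ring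
      _ ≤ b * n + (b * ((n + 1) * (r + 1)) + b) :=
          Nat.add_le_add_left (Nat.add_le_add_left h3 _) _
      _ ≤ b * n + b * (n * n) := Nat.add_le_add_left h1 _
      _ = n * (b * (n + 1)) := by ring
  · -- nine
    obtain ⟨q, hq⟩ : ∃ q : ℕ, q = 2 * n * (n + 1) - 1 := ⟨_, rfl⟩
    have hpos : 0 < 2 * n * (n + 1) := by positivity
    have hq1 : q + 1 = 2 * n * (n + 1) := by omega
    rw [← hq]
    have h1 : g * q + g = 2 * (n + 1) * (g * n) := by
      calc g * q + g = g * (q + 1) := by ring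
        _ = _ := by rw [hq1]; ring
    have h3 : 2 * (n + 1) * (g * n) ≤ 2 * (b * (n + 1)) + 2 * (n + 1) * (S * n) := by
      calc 2 * (n + 1) * (g * n) ≤ 2 * (n + 1) * (b + S * n) := Nat.mul_le_mul_left _ hgn
        _ = _ := by ring
    omega
  · -- ten
    refine Nat.le_of_mul_le_mul_left ?_ hni
    have h1 : M + ι * (S * n) + n * ι * c1 ≤ 2 * a := by
      have h3 : n * ι * (2 * S + c1) = 2 * (ι * (S * n)) + n * ι * c1 := by ring
      rw [h3] at ha
      have h4 : 0 ≤ ι * (B0 + 1) := Nat.zero_le _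
      omega
    calc n * ι * (g + c1) = n * ι * g + n * ι * c1 := by ring
      _ ≤ r * a + M + ι * (S * n) + n * ι * c1 := Nat.add_le_add_right hgni _
      _ ≤ r * a + 2 * a := by omega
      _ = (r + 2) * a := by ring
      _ ≤ n * a := Nat.mul_le_mul_right a hn
      _ ≤ n * ι * a := Nat.mul_le_mul_right a (Nat.le_mul_of_pos_right n hι1)
  · -- eleven
    refine Nat.le_of_mul_le_mul_left ?_ hni
    have h1 : n * ι * (2 * g + c1) ≤ 2 * r * a + (2 * M + n * ι * (2 * S + c1)) := by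
      calc n * ι * (2 * g + c1) = 2 * (n * ι * g) + n * ι * c1 := by ring
        _ ≤ 2 * (r * a + M + ι * (S * n)) + n * ι * c1 :=
            Nat.add_le_add_right (Nat.mul_le_mul_left 2 hgni) _
        _ = _ := by ring
    by_cases hc : 2 * r < n * ι
    · rw [hk, if_pos hc, add_zero]
      have h3 : 2 * M + n * ι * (2 * S + c1) ≤ a := by omega
      calc n * ι * (2 * g + c1) ≤ 2 * r * a + (2 * M + n * ι * (2 * S + c1)) := h1
        _ ≤ 2 * r * a + a := Nat.add_le_add_left h3 _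
        _ = (2 * r + 1) * a := by ring
        _ ≤ n * ι * a := Nat.mul_le_mul_right a hc
    · rw [hk, if_neg hc]
      have h3 : 2 * M ≤ n * ι * (2 * M) := Nat.le_mul_of_pos_left _ hni
      calc n * ι * (2 * g + c1) ≤ 2 * r * a + (2 * M + n * ι * (2 * S + c1)) := h1
        _ ≤ n * ι * a + (n * ι * (2 * M) + n * ι * (2 * S + c1)) :=
            Nat.add_le_add (Nat.mul_le_mul_right a h2) (Nat.add_le_add_right h3 _)
        _ = _ := by ring

end Pool.Agent.Lib.MP_1ad228_ntZ
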