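import Pool.Agent.Lib.MP_1ad228_ntZ.TotZ2
import Pool.Agent.Lib.MP_1ad228_ntZ.Low
import Pool.Agent.Lib.MP_1ad228_ntZ.HG
import Pool.Agent.Lib.MP_1ad228_ntZ.ParZ

/-!
LEAF PosG.  A positive proportion of the tuples has a common nonzero zero.
Proof.  `c, b0` from many; `C'` from notGood; choose `s` with `C' / Q^s ≤ c / 2`; `κ` with `C0^(n+1) ≤ Q^κ`; `M := (n + 1) + r`; parZ (with `D = ∑ d`, `c1 = T.c1`) gives `k`;
`hP k` gives `lam, CX`; parZ with `A := b0` gives `a0`.  For `a ≥ a0` take `b, g, l`.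
notGood (`C0^(n+1) Q^(b+1) ≤ Q^(κ+b+1) < Q^(g+(n-1)l)`): `#{not Good} ≤ C' Q^((b+l)n) ≤ C' Q^(b(n+1)) / Q^s ≤ (c/2) Q^(b(n+1))` as `(b+l) n + s ≤ b(n+1)`; so `#GG ≥ (c/2) Q^(b(n+1))`.
`1 ≤ EE` by EE_ge (`A = 0`: `r a + r ≤ b ι`, from `r a + M < b ι + ι`, `ι ≤ n + 1`).
S1 := `∑ Nn = #GG #TBox / ∏ h ≥ (c/2) EE #TBox` (oneTot).  S2 := `∑ Nn^2 ≤ C #TBox (EE + lam^r EE^2 (1 + Ne)) ≤ C #TBox EE^2 (1 + 2 lam^r)` (pairTot, `Ne ≤ 1` by Ne_le).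
Cauchy-Schwarz: `S1^2 ≤ #{F | 0 < Nn} * S2` (`Finset.sum_mul_sq_le_sq_mul_sq` or `inner_mul_le_norm_mul_norm`-type; S1 is the sum over `{0 < Nn}`), so
`#{0 < Nn} ≥ (c^2/4)/(C (1 + 2 lam^r)) #TBox =: δ #TBox`.  `0 < Nn` gives `x ∈ GG` with all `ev = 0`, `x ≠ 0` because `x` is unimodular (`Uni x`, mem_GG, `O` nontrivial).
-/

namespace Pool.Agent.Lib.MP_1ad228_ntZ

open Classical

namespace TC
variable {K O P : Type} [Field K] [CommRing O] [IsDedekindDomain O] [Algebra O K]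
  [IsFractionRing O K] [CommRing P] [IsDedekindDomain P] [Algebra P K]
  [IsFractionRing P K] (T : TC K O P)

/-- A point of positive multiplicity is a nonzero zero. -/
private theorem PosG_zero {n r : ℕ} {d : Fin r → ℕ} {b g : ℕ} {F : Tup n d O}
    (h : 0 < T.Nn b g F) : ∃ x : Vc n O, x ≠ 0 ∧ ∀ i, ev (F i) x = 0 := by
  unfold TC.Nn at h
  obtain ⟨x, hx⟩ := Finset.card_pos.mp h
  rw [Finset.mem_filter] at hx
  refine ⟨x, ?_, hx.2⟩
  rintro rfl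
  obtain ⟨u, hu⟩ := (T.mem_GG.mp hx.1).2.1
  have h0 : lin u (0 : Vc n O) = 0 := by
    unfold Pool.Agent.Lib.MP_219881_nt.lin
    exact Finset.sum_eq_zero fun i _ => by rw [Pi.zero_apply, mul_zero]
  rw [h0] at hu
  exact zero_ne_one hu

/-- The Cauchy-Schwarz step. -/
private theorem PosG_cs {α : Type*} (S : Finset α) (N : α → ℕ) :
    (∑ F ∈ S, (N F : ℝ)) ^ 2 ≤ ((S.filter fun F => 0 < N F).card : ℝ) *
      ∑ F ∈ S, (N F : ℝ) ^ 2 := by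
  have h1 : ∑ F ∈ S, (N F : ℝ) = ∑ F ∈ S.filter (fun F => 0 < N F), (N F : ℝ) := by
    rw [Finset.sum_filter]
    refine Finset.sum_congr rfl fun F _ => ?_
    by_cases h : 0 < N F
    · rw [if_pos h]
    · rw [if_neg h]
      have : N F = 0 := by omega
      rw [this, Nat.cast_zero]
  rw [h1]
  refine (sq_sum_le_card_mul_sum_sq).trans ?_
  refine mul_le_mul_of_nonneg_left ?_ (Nat.cast_nonneg _)
  exact Finset.sum_le_sum_of_subset_of_nonneg (Finset.filter_subset _ _)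
    fun F _ _ => by positivity

/-- The final inequality. -/
private theorem PosG_fin {c C L E B S1 S2 p : ℝ} (hc : 0 < c) (hC : 1 ≤ C) (hL : 0 ≤ L)
    (hE : 1 ≤ E) (hB : 0 ≤ B) (hp : 0 ≤ p) (h1 : c / 2 * E * B ≤ S1)
    (h2 : S2 ≤ C * B * (E ^ 2 * (1 + 2 * L))) (h3 : S1 ^ 2 ≤ p * S2) :
    c ^ 2 / 4 / (C * (1 + 2 * L)) * B ≤ p := by
  have hCL : 0 < C * (1 + 2 * L) := by positivity
  rcases hB.eq_or_lt with h0 | hB'
  · rw [← h0, mul_zero]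
    exact hp
  have h4 : (c / 2 * E * B) ^ 2 ≤ S1 ^ 2 := pow_le_pow_left₀ (by positivity) h1 2
  have h5 : (c / 2 * E * B) ^ 2 ≤ p * (C * B * (E ^ 2 * (1 + 2 * L))) :=
    (h4.trans h3).trans (mul_le_mul_of_nonneg_left h2 hp)
  have hEB : 0 < E ^ 2 * B := by positivity
  have h6 : (c ^ 2 / 4 * B) * (E ^ 2 * B) ≤ (p * (C * (1 + 2 * L))) * (E ^ 2 * B) := by
    calc (c ^ 2 / 4 * B) * (E ^ 2 * B) = (c / 2 * E * B) ^ 2 := by ring
      _ ≤ p * (C * B * (E ^ 2 * (1 + 2 * L))) := h5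
      _ = (p * (C * (1 + 2 * L))) * (E ^ 2 * B) := by ring
  have h7 : c ^ 2 / 4 * B ≤ p * (C * (1 + 2 * L)) := le_of_mul_le_mul_right h6 hEB
  rw [div_mul_eq_mul_div, div_le_iff₀ hCL]
  exact h7

theorem posG [IsPrincipalIdealRing P] (n : ℕ) {r : ℕ} (hr : 1 ≤ r)
    (hn : r + 2 ≤ n) (d : Fin r → ℕ) (hD : ∑ i, d i ≤ n)
    (h2 : 2 * r ≤ n * (n + 1 - ∑ i, d i))
    (hs : ∀ p : Ideal P, p.IsPrime → p ≠ ⊥ → T.s ∈ p)
    (hP : ∀ k : ℕ, (2 * r < n * (n + 1 - ∑ i, d i) → k = 0) → T.PairOK n d k) :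
    T.PosP n d := by
  have hQ2 := T.two_le
  have hQ : (2 : ℝ) ≤ (T.Q : ℝ) := T.two_le_Q
  have hQ0 : (0 : ℝ) < (T.Q : ℝ) := by linarith
  have hQ1 : (1 : ℝ) ≤ (T.Q : ℝ) := by linarith
  obtain ⟨c, hc, b0, hmany⟩ := T.many n (by omega) hs
  obtain ⟨C', hC', hng⟩ := T.notGood n (by omega)
  obtain ⟨s, hs'⟩ : ∃ s : ℕ, C' ≤ (c / 2) * (T.Q : ℝ) ^ s := by
    obtain ⟨s, hs⟩ := pow_unbounded_of_one_lt (C' / (c / 2)) (by linarith : (1 : ℝ) < (T.Q : ℝ))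
    refine ⟨s, ?_⟩
    rw [div_lt_iff₀ (by linarith)] at hs
    linarith
  obtain ⟨κ, hκ⟩ : ∃ κ : ℕ, T.C0 ^ (n + 1) ≤ T.Q ^ κ :=
    ⟨T.C0 ^ (n + 1), (Nat.lt_pow_self (by omega)).le⟩
  obtain ⟨k, hk, hpar⟩ := parZ n r (∑ i, d i) T.c1 κ hr hn hD h2 (n + 1 + r) s
  obtain ⟨lam, hlam, CX, hCX, hPair⟩ := hP k hk
  obtain ⟨C, hC, hmom⟩ := T.pairTot n r hn
  obtain ⟨a0, ha0⟩ := hpar b0
  have hlr : (0 : ℝ) ≤ lam ^ r := pow_nonneg (by linarith) _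
  refine ⟨c ^ 2 / 4 / (C * (1 + 2 * lam ^ r)), by positivity, a0, fun a ha => ?_⟩
  obtain ⟨b, g, l, hb0, hb1, hb2, hlg, hlb, hkap, hnl, hNe, hgX, hga, h2g⟩ := ha0 a ha
  -- the bad points
  have hbad := hng b g l hlb hlg (by
    calc T.C0 ^ (n + 1) * T.Q ^ (b + 1) ≤ T.Q ^ κ * T.Q ^ (b + 1) := Nat.mul_le_mul_right _ hκ
      _ = T.Q ^ (κ + (b + 1)) := (pow_add _ _ _).symm
      _ < T.Q ^ (g + (n - 1) * l) := Nat.pow_lt_pow_right (by omega) (by omega))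
  have hbad2 : C' * (T.Q : ℝ) ^ ((b + l) * n) ≤ c / 2 * (T.Q : ℝ) ^ (b * (n + 1)) := by
    calc C' * (T.Q : ℝ) ^ ((b + l) * n)
        ≤ (c / 2 * (T.Q : ℝ) ^ s) * (T.Q : ℝ) ^ ((b + l) * n) :=
          mul_le_mul_of_nonneg_right hs' (by positivity)
      _ = c / 2 * (T.Q : ℝ) ^ (s + (b + l) * n) := by rw [pow_add]; ring
      _ ≤ c / 2 * (T.Q : ℝ) ^ (b * (n + 1)) := by
          refine mul_le_mul_of_nonneg_left (pow_le_pow_right₀ hQ1 ?_) (by linarith)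
          have e1 : s + (b + l) * n = b * n + (n * l + s) := by ring
          have e2 : b * (n + 1) = b * n + b := by ring
          rw [e1, e2]
          omega
  have hGG : c / 2 * (T.Q : ℝ) ^ (b * (n + 1)) ≤ ((T.GG n b g).card : ℝ) := by
    have := hmany b g hb0
    linarith
  -- the expected number
  have hE1 : 1 ≤ T.EE n d a b := by
    have h := T.EE_ge (n := n) d (a := a) (b := b) (A := 0) hD (by omega)
    simpa using h
  have hprod : (0 : ℝ) < ∏ i, (T.h (a + d i * b) : ℝ) :=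
    Finset.prod_pos fun i _ => by exact_mod_cast T.h_pos _
  -- the moments
  have hS1 : c / 2 * T.EE n d a b * ((T.TBox n d a).card : ℝ) ≤
      ∑ F ∈ T.TBox n d a, (T.Nn b g F : ℝ) := by
    have h1 := T.oneTot (n := n) d (b := b) (g := g) hga
    have h3 : ∑ F ∈ T.TBox n d a, (T.Nn b g F : ℝ) =
        ((T.GG n b g).card : ℝ) * ((T.TBox n d a).card : ℝ) /
          ∏ i, (T.h (a + d i * b) : ℝ) := by
      rw [eq_div_iff hprod.ne', h1]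
    rw [h3]
    unfold TC.EE
    rw [mul_div_assoc', div_mul_eq_mul_div]
    refine div_le_div_of_nonneg_right ?_ hprod.le
    exact mul_le_mul_of_nonneg_right hGG (Nat.cast_nonneg _)
  have hNe1 : T.Ne n r b g ≤ 1 := by
    have h := T.Ne_le (n := n) (r := r) (b := b) (g := g) (A := 0) (by omega)
    simpa using h
  have hS2 : ∑ F ∈ T.TBox n d a, (T.Nn b g F : ℝ) ^ 2 ≤
      C * ((T.TBox n d a).card : ℝ) * (T.EE n d a b ^ 2 * (1 + 2 * lam ^ r)) := by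
    refine (hmom d a b g lam hga hlam (fun i x hx y hy hxy =>
      (hPair a b g hga h2g).1 i x hx y hy hxy)).trans ?_
    refine mul_le_mul_of_nonneg_left ?_ (by positivity)
    have e1 : T.EE n d a b ≤ T.EE n d a b ^ 2 := by nlinarith
    have e2 : lam ^ r * T.EE n d a b ^ 2 * (1 + T.Ne n r b g) ≤
        lam ^ r * T.EE n d a b ^ 2 * 2 :=
      mul_le_mul_of_nonneg_left (by linarith) (by positivity)
    calc T.EE n d a b + lam ^ r * T.EE n d a b ^ 2 * (1 + T.Ne n r b g)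
        ≤ T.EE n d a b ^ 2 + lam ^ r * T.EE n d a b ^ 2 * 2 := add_le_add e1 e2
      _ = T.EE n d a b ^ 2 * (1 + 2 * lam ^ r) := by ring
  have hfin := PosG_fin hc hC hlr hE1 (Nat.cast_nonneg _) (Nat.cast_nonneg _) hS1 hS2
    (PosG_cs (T.TBox n d a) fun F => T.Nn b g F)
  refine hfin.trans ?_
  have hsub : (T.TBox n d a).filter (fun F => 0 < T.Nn b g F) ⊆
      (T.TBox n d a).filter fun F => ∃ x : Vc n O, x ≠ 0 ∧ ∀ i, ev (F i) x = 0 := by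
    intro F hF
    rw [Finset.mem_filter] at hF ⊢
    exact ⟨hF.1, T.PosG_zero hF.2⟩
  exact_mod_cast Finset.card_le_card hsub

end TC

end Pool.Agent.Lib.MP_1ad228_ntZ
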