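import Pool.Agent.Lib.MP_1ad228_ntZ.MainG
import Pool.Agent.Lib.MP_1ad228_ntZ.PosG
import Pool.Agent.Lib.MP_1ad228_ntZ.PairOK
import Pool.Agent.Lib.MP_1ad228_ntZ.PairOKB

/-! MP_1ad228_ntZ, file FinZ.  The final theorems of the two chart formalism. -/

namespace Pool.Agent.Lib.MP_1ad228_ntZ

open Classical

namespace TC
variable {K O P : Type} [Field K] [CommRing O] [IsDedekindDomain O] [Algebra O K]
  [IsFractionRing O K] [CommRing P] [IsDedekindDomain P] [Algebra P K]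
  [IsFractionRing P K] (T : TC K O P)

/-- Numerical alternative: either the strict inequality, or `n = 2 r` and all degrees are 2. -/
theorem finZ_alt {n r : ℕ} (hr : 1 ≤ r) (hn : r + 2 ≤ n) (d : Fin r → ℕ) (hd : ∀ i, 2 ≤ d i)
    (hD : ∑ i, d i ≤ n) : 2 * r ≤ n * (n + 1 - ∑ i, d i) ∧
      (2 * r < n * (n + 1 - ∑ i, d i) ∨ (3 ≤ n ∧ ∀ i, d i = 2)) := by
  have h1 : 2 * r ≤ ∑ i, d i := by
    calc 2 * r = ∑ _i : Fin r, 2 := by simp [mul_comm]
      _ ≤ ∑ i, d i := Finset.sum_le_sum fun i _ => hd i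
  obtain ⟨e, he⟩ : ∃ e, e + 1 + ∑ i, d i = n + 1 := ⟨n - ∑ i, d i, by omega⟩
  have he' : n + 1 - ∑ i, d i = e + 1 := by omega
  rw [he']
  have h2 : n * (e + 1) = n * e + n := by ring
  refine ⟨by rw [h2]; omega, ?_⟩
  rcases Nat.lt_or_ge (2 * r) (n * (e + 1)) with h | h
  · exact Or.inl h
  · right
    rw [h2] at h
    have h3 : n = 2 * r := by omega
    have h4 : ∑ i, d i = 2 * r := by omega
    refine ⟨by omega, ?_⟩
    have h5 : ∑ i, (d i - 2) = 0 := by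
      have h6 : ∑ i, d i = ∑ i, ((d i - 2) + 2) :=
        Finset.sum_congr rfl fun i _ => by have := hd i; omega
      rw [Finset.sum_add_distrib] at h6
      simp only [Finset.sum_const, Finset.card_univ, Fintype.card_fin, smul_eq_mul] at h6
      omega
    intro i
    have h7 := (Finset.sum_eq_zero_iff.1 h5) i (Finset.mem_univ i)
    have := hd i
    omega

/-- Control of the pairs for all levels allowed by the parameters. -/
theorem finZ_pair {n r : ℕ} (hr : 1 ≤ r) (hn : r + 2 ≤ n) (d : Fin r → ℕ) (hd : ∀ i, 2 ≤ d i)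
    (hD : ∑ i, d i ≤ n) (k : ℕ) (hk : 2 * r < n * (n + 1 - ∑ i, d i) → k = 0) :
    T.PairOK n d k := by
  rcases (finZ_alt hr hn d hd hD).2 with h | ⟨h3, h4⟩
  · rw [hk h]
    exact T.pairOK0 d hd
  · exact T.pairOKB h3 d h4 k

theorem mainZ [IsPrincipalIdealRing P] [Infinite O] [Infinite P] (n : ℕ) {r : ℕ} (hr : 1 ≤ r)
    (hn : r + 2 ≤ n) (d : Fin r → ℕ) (hd : ∀ i, 2 ≤ d i) (hD : ∑ i, d i ≤ n)
    (hs : ∀ p : Ideal P, p.IsPrime → p ≠ ⊥ → T.s ∈ p) : T.MainP n d :=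
  T.mainG n hr hn d hd hD (finZ_alt hr hn d hd hD).1 hs fun k hk =>
    T.finZ_pair hr hn d hd hD k hk

theorem posZ [IsPrincipalIdealRing P] (n : ℕ) {r : ℕ} (hr : 1 ≤ r)
    (hn : r + 2 ≤ n) (d : Fin r → ℕ) (hd : ∀ i, 2 ≤ d i) (hD : ∑ i, d i ≤ n)
    (hs : ∀ p : Ideal P, p.IsPrime → p ≠ ⊥ → T.s ∈ p) : T.PosP n d :=
  T.posG n hr hn d hD (finZ_alt hr hn d hd hD).1 hs fun k hk =>
    T.finZ_pair hr hn d hd hD k hk

end TC

end Pool.Agent.Lib.MP_1ad228_ntZ
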