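import Pool.Agent.Lib.MP_1ad228_ntZ.FinalF
import Pool.Agent.Lib.MP_1ad228_ntZ.FinZ

/-! The main theorems on tuples of tensors for the two charts of a global function field. -/

namespace Pool.Agent.Lib.MP_1ad228_ntZ

open Polynomial Classical

variable (F K : Type) [Field F] [Finite F] [Field K] [Algebra F[X] K] [Algebra (RatFunc F) K]
  [IsScalarTower F[X] (RatFunc F) K] [FiniteDimensional (RatFunc F) K]
  [Algebra.IsSeparable (RatFunc F) K]

theorem O_infinite : Infinite (FunctionField.ringOfIntegers F K) := by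
  have h : Function.Injective (algebraMap F[X] (FunctionField.ringOfIntegers F K)) := by
    have h1 : Function.Injective (algebraMap F[X] K) := by
      rw [IsScalarTower.algebraMap_eq F[X] (RatFunc F) K]
      exact (algebraMap (RatFunc F) K).injective.comp (IsFractionRing.injective F[X] (RatFunc F))
    intro a b hab
    apply h1
    rw [IsScalarTower.algebraMap_apply F[X] (FunctionField.ringOfIntegers F K) K,
      IsScalarTower.algebraMap_apply F[X] (FunctionField.ringOfIntegers F K) K, hab]
  exact Infinite.of_injective _ h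

theorem mainFF {r : ℕ} (hr : 1 ≤ r) (n : ℕ) (hn : r + 2 ≤ n) (d : Fin r → ℕ) (hd : ∀ k, 2 ≤ d k)
    (hD : ∑ k, d k ≤ n) : (TCK F K).MainP n d := by
  have := O_infinite F K
  exact (TCK F K).mainZ n hr hn d hd hD (fun p hp hp0 => by rw [TCK_s]; exact sP_mem F K p hp hp0)

theorem posFF {r : ℕ} (hr : 1 ≤ r) (n : ℕ) (hn : r + 2 ≤ n) (d : Fin r → ℕ) (hd : ∀ k, 2 ≤ d k)
    (hD : ∑ k, d k ≤ n) : (TCK F K).PosP n d :=
  (TCK F K).posZ n hr hn d hd hD (fun p hp hp0 => by rw [TCK_s]; exact sP_mem F K p hp hp0)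

end Pool.Agent.Lib.MP_1ad228_ntZ
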