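import Pool.Agent.Lib.MP_1ad228_ntZ.FM_L
import Pool.Agent.Lib.MP_1ad228_ntF.RP_Phi

/-!
LEAF FM_S.  Almost all tuples are smooth, in every characteristic.

exPhiF.  Port of `chartPhi` and `exPhi` (Lib/MP_1ad228_ntF/RP_Phi.lean) from the base ring `ℤ` to a field `k`: in chartPhi replace `MvPolynomial σ ℤ` by `MvPolynomial σ k` and `AlgebraicIndependent ℤ` by
`AlgebraicIndependent k` (`chart`, `chart_map`, `chart_surj` are over any commutative ring; `MvPolynomial.trdeg_of_isDomain` is over any domain); for a field `K` with `φ : k →+* K` use `letI := φ.toAlgebra` and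
`MvPolynomial.aeval_def`.
nonSmZ.  Let `Φ` be the polynomial of `exPhiF k`, `Φ' = map φ Φ ≠ 0` in `MvPolynomial (Kp n d) O` (`φ` is injective, `MvPolynomial.map_injective`). If `F` is not smooth then `Sing` of its image over the algebraic closure
(`smooth_of_not_sing`), so `Φ'` vanishes at the entries of `F` (the map `O → AlgebraicClosure K` is injective). Schwartz-Zippel (`MvPolynomial.schwartz_zippel_totalDegree`, needs variables `Fin m`: reindex `Kp n d ≃ Fin m`,
`Fintype.equivFin`; `Kp n d = Σ i, (Fin (d i) → Fin (n+1))`, or use the version for a general Fintype if there is one) for the finite set `S = T.H a` of the domain `O`: at most `deg Φ' * h a ^ (V - 1)` of the `h a ^ V` tuples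
(`card_TBox`), `V = VV n d = Fintype.card (Kp n d)`, so a proportion `≤ deg Φ' / h a`, and `h a → ∞`: `2 ^ a ≤ Q ^ a ≤ C0 * h a` (`T.two_le`, `T.low`, `h a = ncard ..`: `T.finH`, `Set.ncard_eq_toFinset_card`).
-/

namespace Pool.Agent.Lib.MP_1ad228_ntZ

open Classical

private theorem FM_S_chart (k : Type) [Field k] (n : ℕ) {r : ℕ} (d : Fin r → ℕ)
    (hd : ∀ i, 1 ≤ d i) (p : Fin (n + 1)) (i0 : Fin r) : ∃ Φ : MvPolynomial (Kp n d) k, Φ ≠ 0 ∧
      ∀ (K : Type) [Field K] (φ : k →+* K) (F : Tup n d K) (x : Vc n K) (t : Fin r → K), x p = 1 →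
        t i0 = 1 → (∀ l, ev (F l) x = 0) → (∀ j, j ≠ p → ∑ l, t l * dev (F l) x j = 0) →
        MvPolynomial.eval₂ φ (fun c : Kp n d => F c.1 c.2) Φ = 0 := by
  set c0 : Kp n d := ⟨i0, fun _ => p⟩ with hc0
  set y0 : Kp n d → MvPolynomial {c : Kp n d // c ≠ c0} k := fun c =>
    if h : c ≠ c0 then MvPolynomial.X ⟨c, h⟩ else 0 with hy0
  set G : Kp n d → MvPolynomial {c : Kp n d // c ≠ c0} k := fun c =>
    Pool.Agent.Lib.MP_1ad228_ntF.chart p i0 y0 c.1 c.2 with hG
  have hna : ¬ AlgebraicIndependent k G := by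
    intro h
    have h1 := h.cardinalMk_le_trdeg
    rw [MvPolynomial.trdeg_of_isDomain, Cardinal.lift_id, Cardinal.mk_fintype,
      Cardinal.mk_fintype] at h1
    have h2 : Fintype.card (Kp n d) ≤ Fintype.card {c : Kp n d // c ≠ c0} := by exact_mod_cast h1
    have h3 : Fintype.card {c : Kp n d // c ≠ c0} < Fintype.card (Kp n d) :=
      Fintype.card_subtype_lt (x := c0) (by simp)
    omega
  rw [algebraicIndependent_iff] at hna
  push Not at hna
  obtain ⟨Φ, hΦ, hΦ0⟩ := hna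
  refine ⟨Φ, hΦ0, ?_⟩
  intro K _ φ F x t hp ht h0 h1
  let _ : Algebra k K := φ.toAlgebra
  obtain ⟨y, hy, hF⟩ := Pool.Agent.Lib.MP_1ad228_ntF.chart_surj hd p i0 F x t hp ht h0 h1
  set f : MvPolynomial {c : Kp n d // c ≠ c0} k →ₐ[k] K :=
    MvPolynomial.aeval (fun c : {c : Kp n d // c ≠ c0} => y c.1) with hf
  have hfy : (fun c => (f : MvPolynomial {c : Kp n d // c ≠ c0} k →+* K) (y0 c)) = y := by
    funext c
    by_cases h : c ≠ c0
    · have e : y0 c = MvPolynomial.X ⟨c, h⟩ := dif_pos h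
      rw [e]
      show f (MvPolynomial.X ⟨c, h⟩) = y c
      rw [hf, MvPolynomial.aeval_X]
    · have e : y0 c = 0 := dif_neg h
      rw [e, map_zero]
      push Not at h
      rw [h]
      exact hy.symm
  have hfG : ∀ c : Kp n d, f (G c) = F c.1 c.2 := by
    intro c
    have h2 := Pool.Agent.Lib.MP_1ad228_ntF.chart_map
      (f : MvPolynomial {c : Kp n d // c ≠ c0} k →+* K) p i0 y0 c.1 c.2
    rw [hfy, hF] at h2
    exact h2.symm
  have h3 := MvPolynomial.comp_aeval_apply G f Φ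
  rw [hΦ, map_zero] at h3
  have h4 : (fun c : Kp n d => F c.1 c.2) = fun c => f (G c) := by
    funext c
    exact (hfG c).symm
  rw [h4]
  exact h3.symm

theorem exPhiF (k : Type) [Field k] (n : ℕ) {r : ℕ} (d : Fin r → ℕ) (hd : ∀ i, 1 ≤ d i) :
    ∃ Φ : MvPolynomial (Kp n d) k, Φ ≠ 0 ∧ ∀ (K : Type) [Field K] (φ : k →+* K) (F : Tup n d K),
      Pool.Agent.Lib.MP_1ad228_ntF.Sing F →
        MvPolynomial.eval₂ φ (fun c : Kp n d => F c.1 c.2) Φ = 0 := by
  choose Φ hΦ0 hΦ using fun p i0 => FM_S_chart k n d hd p i0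
  refine ⟨∏ p, ∏ i0, Φ p i0, ?_, ?_⟩
  · exact Finset.prod_ne_zero_iff.mpr fun p _ => Finset.prod_ne_zero_iff.mpr fun i0 _ => hΦ0 p i0
  · intro K _ φ F hS
    obtain ⟨x, t, hx, ht, h0, h1⟩ := hS
    obtain ⟨p, hp⟩ := Function.ne_iff.mp hx
    obtain ⟨i0, hi0⟩ := Function.ne_iff.mp ht
    have hp' : x p ≠ 0 := hp
    have hi0' : t i0 ≠ 0 := hi0
    rw [MvPolynomial.eval₂_prod]
    apply Finset.prod_eq_zero (Finset.mem_univ p)
    rw [MvPolynomial.eval₂_prod]
    apply Finset.prod_eq_zero (Finset.mem_univ i0)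
    have hti : t i0 * x p ^ (d i0 - 1) ≠ 0 := mul_ne_zero hi0' (pow_ne_zero _ hp')
    refine hΦ p i0 K φ F (fun j => (x p)⁻¹ * x j)
      (fun l => t l * x p ^ (d l - 1) * (t i0 * x p ^ (d i0 - 1))⁻¹) ?_ ?_ ?_ ?_
    · exact inv_mul_cancel₀ hp'
    · exact mul_inv_cancel₀ hti
    · intro l
      rw [ev_scale, h0 l, mul_zero]
    · intro j _
      have e : ∀ l, t l * x p ^ (d l - 1) * (t i0 * x p ^ (d i0 - 1))⁻¹ *
          dev (F l) (fun j => (x p)⁻¹ * x j) j =
          (t i0 * x p ^ (d i0 - 1))⁻¹ * (t l * dev (F l) x j) := by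
        intro l
        rw [Pool.Agent.Lib.MP_1ad228_ntF.dev_scale]
        have e1 : x p ^ (d l - 1) * (x p)⁻¹ ^ (d l - 1) = 1 := by
          rw [← mul_pow, mul_inv_cancel₀ hp', one_pow]
        calc t l * x p ^ (d l - 1) * (t i0 * x p ^ (d i0 - 1))⁻¹ *
            ((x p)⁻¹ ^ (d l - 1) * dev (F l) x j) =
            (x p ^ (d l - 1) * (x p)⁻¹ ^ (d l - 1)) * ((t i0 * x p ^ (d i0 - 1))⁻¹ *
              (t l * dev (F l) x j)) := by ring
          _ = _ := by rw [e1, one_mul]
      rw [Finset.sum_congr rfl fun l _ => e l, ← Finset.mul_sum, h1 j, mul_zero]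

private theorem FM_S_card (n : ℕ) {r : ℕ} (d : Fin r → ℕ) : Fintype.card (Kp n d) = VV n d := by
  unfold VV
  rw [Fintype.card_sigma]
  refine Finset.sum_congr rfl fun i _ => ?_
  rw [Fintype.card_fun, Fintype.card_fin, Fintype.card_fin]

/-- Schwartz-Zippel for tuples. -/
private theorem FM_S_sz {O : Type} [CommRing O] [IsDomain O] (n : ℕ) {r : ℕ} (d : Fin r → ℕ)
    (Φ : MvPolynomial (Kp n d) O) (hΦ : Φ ≠ 0) : ∃ D : ℕ, ∀ (S : Finset O) (B : Finset (Tup n d O)),
      (∀ F ∈ B, ∀ c : Kp n d, F c.1 c.2 ∈ S) →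
      (∀ F ∈ B, MvPolynomial.eval (fun c : Kp n d => F c.1 c.2) Φ = 0) →
      (B.card : ℝ) * S.card ≤ D * (S.card : ℝ) ^ VV n d := by
  set m : ℕ := Fintype.card (Kp n d) with hm
  have hmV : m = VV n d := FM_S_card n d
  let e : Kp n d ≃ Fin m := Fintype.equivFin (Kp n d)
  set Ψ : MvPolynomial (Fin m) O := MvPolynomial.rename e Φ with hΨ
  have hΨ0 : Ψ ≠ 0 := by
    intro h
    apply hΦ
    apply MvPolynomial.rename_injective e e.injective
    rw [map_zero]
    exact h
  refine ⟨Ψ.totalDegree, fun S B hS hB => ?_⟩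
  have h1 := MvPolynomial.schwartz_zippel_totalDegree hΨ0 S
  set Z : Finset (Fin m → O) := (Fintype.piFinset fun _ : Fin m => S).filter fun f =>
    MvPolynomial.eval f Ψ = 0 with hZ
  have h2 : B.card ≤ Z.card := by
    refine Finset.card_le_card_of_injOn (fun F j => F (e.symm j).1 (e.symm j).2) ?_ ?_
    · intro F hF
      have hF' : F ∈ B := hF
      rw [hZ, Finset.mem_coe, Finset.mem_filter, Fintype.mem_piFinset]
      refine ⟨fun j => hS F hF' (e.symm j), ?_⟩
      rw [hΨ, MvPolynomial.eval_rename]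
      have h3 : ((fun j => F (e.symm j).1 (e.symm j).2) ∘ e) = fun c : Kp n d => F c.1 c.2 := by
        funext c
        show F (e.symm (e c)).1 (e.symm (e c)).2 = F c.1 c.2
        rw [e.symm_apply_apply]
      rw [h3]
      exact hB F hF'
    · intro F _ G _ h
      funext i s
      have h3 := congrFun h (e ⟨i, s⟩)
      simp only at h3
      rw [e.symm_apply_apply] at h3
      exact h3
  have h4 : ((Z.card : ℝ)) / (S.card : ℝ) ^ m ≤ (Ψ.totalDegree : ℝ) / S.card := by
    have h5 := (NNRat.cast_le (K := ℝ)).2 h1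
    push_cast at h5
    exact h5
  by_cases hS0 : S.card = 0
  · have h5 : ∀ F ∈ B, IsEmpty (Kp n d) := by
      intro F hF
      refine ⟨fun c => ?_⟩
      have h6 := hS F hF c
      rw [Finset.card_eq_zero.1 hS0] at h6
      exact absurd h6 (Finset.notMem_empty _)
    rw [hS0, Nat.cast_zero, mul_zero]
    positivity
  · have hSp : (0 : ℝ) < S.card := by exact_mod_cast Nat.pos_of_ne_zero hS0
    rw [div_le_div_iff₀ (by positivity) hSp] at h4
    have h6 : (B.card : ℝ) ≤ Z.card := by exact_mod_cast h2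
    calc (B.card : ℝ) * S.card ≤ Z.card * S.card := mul_le_mul_of_nonneg_right h6 hSp.le
      _ ≤ _ := by rw [← hmV]; exact h4

namespace TC
variable {K O P : Type} [Field K] [CommRing O] [IsDedekindDomain O] [Algebra O K]
  [IsFractionRing O K] [CommRing P] [IsDedekindDomain P] [Algebra P K]
  [IsFractionRing P K] (T : TC K O P)

theorem nonSmZ (k : Type) [Field k] (φ : k →+* O) (n : ℕ) {r : ℕ} (d : Fin r → ℕ)
    (hd : ∀ i, 1 ≤ d i) : T.NonSmP n d := by
  obtain ⟨Φ, hΦ0, hΦ⟩ := exPhiF k n d hd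
  have hΦ'0 : MvPolynomial.map φ Φ ≠ 0 := by
    intro h
    apply hΦ0
    apply MvPolynomial.map_injective φ φ.injective
    rw [map_zero]
    exact h
  obtain ⟨D, hD⟩ := FM_S_sz n d (MvPolynomial.map φ Φ) hΦ'0
  intro ε hε
  refine ⟨⌈(D : ℝ) * T.C0 / ε⌉₊, fun a ha => ?_⟩
  have h1 := hD (T.H a) ((T.TBox n d a).filter fun F => ¬ SmoothCI (polyK K F)) ?_ ?_
  · have h2 : (D : ℝ) ≤ ε * T.h a := by
      have h3 : T.Q ^ a ≤ T.C0 * T.h a := by
        have h4 := T.low a
        rwa [Set.ncard_eq_toFinset_card _ (T.finH a)] at h4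
      have h4 : 2 ^ a ≤ T.C0 * T.h a := (Nat.pow_le_pow_left T.two_le a).trans h3
      have h5 : (a : ℝ) ≤ (T.C0 : ℝ) * T.h a := by
        have h6 : a ≤ T.C0 * T.h a := (Nat.lt_two_pow_self).le.trans h4
        exact_mod_cast h6
      have h6 : (D : ℝ) * T.C0 / ε ≤ a := (Nat.le_ceil _).trans (by exact_mod_cast ha)
      rw [div_le_iff₀ hε] at h6
      have h7 : 0 < T.C0 := by
        rcases Nat.eq_zero_or_pos T.C0 with h8 | h8
        · rw [h8, zero_mul] at h4
          exact absurd h4 (not_le.2 (by positivity))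
        · exact h8
      have h8 : (0 : ℝ) < T.C0 := by exact_mod_cast h7
      have h9 : (D : ℝ) * T.C0 ≤ (ε * T.h a) * T.C0 := by
        calc (D : ℝ) * T.C0 ≤ a * ε := h6
          _ ≤ ((T.C0 : ℝ) * T.h a) * ε := mul_le_mul_of_nonneg_right h5 hε.le
          _ = (ε * T.h a) * T.C0 := by ring
      exact le_of_mul_le_mul_right h9 h8
    have h3 : (0 : ℝ) < T.h a := by exact_mod_cast T.h_pos a
    rw [T.card_TBox, Nat.cast_pow]
    refine le_of_mul_le_mul_right ?_ h3
    calc _ ≤ (D : ℝ) * (T.h a : ℝ) ^ VV n d := h1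
      _ ≤ (ε * T.h a) * (T.h a : ℝ) ^ VV n d := mul_le_mul_of_nonneg_right h2 (by positivity)
      _ = _ := by ring
  · intro F hF c
    have h4 := T.mem_TBox.1 (Finset.mem_filter.1 hF).1 c.1
    exact T.mem_Box.1 h4 c.2
  · intro F hF
    have h4 := (Finset.mem_filter.1 hF).2
    have h5 : Pool.Agent.Lib.MP_1ad228_ntF.Sing
        (fmap ((algebraMap K (AlgebraicClosure K)).comp (algebraMap O K)) F) := by
      by_contra h6
      exact h4 (smooth_of_not_sing h6)
    have h6 := hΦ (AlgebraicClosure K)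
      (((algebraMap K (AlgebraicClosure K)).comp (algebraMap O K)).comp φ) _ h5
    have hinj : Function.Injective ((algebraMap K (AlgebraicClosure K)).comp (algebraMap O K)) :=
      (algebraMap K (AlgebraicClosure K)).injective.comp (IsFractionRing.injective O K)
    apply hinj
    rw [map_zero, MvPolynomial.eval_map, MvPolynomial.hom_eval₂]
    exact h6

end TC

end Pool.Agent.Lib.MP_1ad228_ntZ
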