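import Pool.Agent.Lib.MP_1ad228_ntZ.FL
import Pool.Agent.Lib.MP_1ad228_ntZ.FM_S

/-! Global function fields: from the main theorem on tensors to the statement on forms. -/

namespace Pool.Agent.Lib.MP_1ad228_ntZ

open Polynomial Classical

variable (F K : Type) [Field F] [Finite F] [Field K] [Algebra F[X] K] [Algebra (RatFunc F) K]
  [IsScalarTower F[X] (RatFunc F) K] [FiniteDimensional (RatFunc F) K]
  [Algebra.IsSeparable (RatFunc F) K]

theorem TCK_nonSm (n : ℕ) {r : ℕ} (d : Fin r → ℕ) (hd : ∀ i, 1 ≤ d i) :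
    (TCK F K).NonSmP n d :=
  (TCK F K).nonSmZ F ((algebraMap F[X] (FunctionField.ringOfIntegers F K)).comp Polynomial.C)
    n d hd

theorem LL_finite (c : ℕ) : (LL F K c).Finite := by
  rw [← TCK_L]
  refine ((Finset.finite_toSet ((TCK F K).H c)).image
    (algebraMap (FunctionField.ringOfIntegers F K) K)).subset ?_
  rintro z ⟨w, hw, rfl⟩
  exact ⟨w, hw, rfl⟩

/-- The final statement from the two properties of tensors. -/
theorem finalFF (n : ℕ) {r : ℕ} (d : Fin r → ℕ) (hd : ∀ i, 1 ≤ d i)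
    (hM : (TCK F K).MainP n d) (hP : (TCK F K).PosP n d) :
    (∀ c, (LL F K c).Finite) ∧
    (∀ ε : ℝ, 0 < ε → ∃ M a0 : ℕ, ∀ a : ℕ, a0 ≤ a →
      (({f | (∀ k, f k ∈ FormsIn (LL F K a) n (d k)) ∧ LocSol F K f ∧
          ¬ ∃ b : ℕ, b * (n + 1 - ∑ k, d k) ≤ r * a + M ∧ ZeroIn (LL F K b) f} :
        Set (Fin r → MvPolynomial (Fin (n + 1)) K)).ncard : ℝ) ≤
      ε * (({f | (∀ k, f k ∈ FormsIn (LL F K a) n (d k)) ∧ SmoothCI f ∧ LocSol F K f} :
        Set (Fin r → MvPolynomial (Fin (n + 1)) K)).ncard : ℝ)) ∧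
    (∃ δ : ℝ, 0 < δ ∧ ∃ a0 : ℕ, ∀ a : ℕ, a0 ≤ a →
      δ * (({f | ∀ k, f k ∈ FormsIn (LL F K a) n (d k)} :
        Set (Fin r → MvPolynomial (Fin (n + 1)) K)).ncard : ℝ) ≤
      (({f | (∀ k, f k ∈ FormsIn (LL F K a) n (d k)) ∧ SmoothCI f ∧ LocSol F K f} :
        Set (Fin r → MvPolynomial (Fin (n + 1)) K)).ncard : ℝ)) := by
  have hN := TCK_nonSm F K n d hd
  have h1 := (TCK F K).final1Z n d hM hP hN
  have h3 := (TCK F K).final3Z n d hP hN
  simp only [TCK_L] at h1 h3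
  exact ⟨LL_finite F K, h1, h3⟩

end Pool.Agent.Lib.MP_1ad228_ntZ
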