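import Pool.Agent.Lib.MP_1ad228_ntZ.N1

/-!
LEAF N2.  Tensors with given values at two points.
pair_surj: `T.im` with `κ = Fin 2` (or Bool), rows `x` and `y`, `c = d*b`, `u` from span2 (in `H (g+g)`), `G` from `(m, m') ∈ Lam d x y`, `G'` from `(tw m, tw m') ∈ Lam d (vtw b x) (vtw b y)`.
n2_le: let `S2 = {(m, m') in H(a+db)^2 : (m,m') ∈ Lam d x y, (tw m, tw m') ∈ Lam d (vtw b x) (vtw b y)}`.  It is the kernel on `H(a+db)^2` of a map to `(O×O)/Lam × (P×P)/Lam` (only additive on H: use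
a map defined on the subgroup, or count directly: two elements of `H^2` with the same classes differ by an element of `S2`, so `h^2 ≤ #S2 * #classes`: `Finset.card_le_mul_card_image`), of order `≤ nD b x y` (Lam_index twice), so `h^2 ≤ #S2 * nD`.
By pair_surj `S2` is contained in the image of `Box` under `G ↦ (ev G x, ev G y)`, and `n2 * #image = h a ^ ((n+1)^d)` (fin_ker_im).
Dd of a non proportional pair is not `⊥`, also for the twists (tw_mn, tw_eq_zero).
sl_good: by Lam_mem and pair_surj there is `G0` in the box with the values `(m, m')`; fin_fib.  sl_le: fin_fib_le.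
-/

namespace Pool.Agent.Lib.MP_1ad228_ntZ

open Classical

namespace TC
variable {K O P : Type} [Field K] [CommRing O] [IsDedekindDomain O] [Algebra O K]
  [IsFractionRing O K] [CommRing P] [IsDedekindDomain P] [Algebra P K]
  [IsFractionRing P K] (T : TC K O P)

private theorem N2_prod {ι : Type*} {b : ℕ} (f : ι → O) (hf : ∀ i, f i ∈ T.H b) (S : Finset ι) :
    ∏ i ∈ S, f i ∈ T.H (S.card * b) ∧
      T.tw (S.card * b) (∏ i ∈ S, f i) = ∏ i ∈ S, T.tw b (f i) := by
  induction S using Finset.induction_on with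
  | empty =>
    rw [Finset.prod_empty, Finset.prod_empty, Finset.card_empty, zero_mul]
    exact ⟨T.one_mem_H, T.tw_one⟩
  | insert i S hi ih =>
    have h1 : (insert i S).card * b = b + S.card * b := by
      rw [Finset.card_insert_of_notMem hi]
      ring
    rw [Finset.prod_insert hi, Finset.prod_insert hi, h1]
    refine ⟨T.mul_mem_H (hf i) ih.1, ?_⟩
    rw [T.tw_mul (hf i) ih.1, ih.2]

private theorem N2_prod' {d b : ℕ} (f : Fin d → O) (hf : ∀ i, f i ∈ T.H b) :
    ∏ i, f i ∈ T.H (d * b) ∧ T.tw (d * b) (∏ i, f i) = ∏ i, T.tw b (f i) := by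
  have h := N2_prod T f hf Finset.univ
  rw [Finset.card_univ, Fintype.card_fin] at h
  exact h

/-- The pair of values of a tensor. -/
private def N2_phi {n : ℕ} (d : ℕ) (x y : Vc n O) : Ten n d O →+ O × O where
  toFun G := (ev G x, ev G y)
  map_zero' := by
    rw [ev_zero, ev_zero]
    rfl
  map_add' G G' := by
    rw [ev_add, ev_add]
    rfl

private theorem N2_phi_apply {n d : ℕ} (x y : Vc n O) (G : Ten n d O) :
    N2_phi d x y G = (ev G x, ev G y) := rfl

private theorem N2_zero {n d a : ℕ} : (0 : Ten n d O) ∈ T.Box n d a := by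
  rw [T.mem_Box]
  intro i
  exact T.zero_mem_H a

private theorem N2_sub {n d a : ℕ} : ∀ x ∈ T.Box n d a, ∀ y ∈ T.Box n d a, x - y ∈ T.Box n d a := by
  intro x hx y hy
  rw [T.mem_Box] at hx hy ⊢
  intro i
  exact T.sub_mem_H (hx i) (hy i)

private theorem N2_n2 {n d a : ℕ} (x y : Vc n O)
    (inst : DecidablePred fun G : Ten n d O => N2_phi d x y G = 0) :
    (@Finset.filter _ (fun G => N2_phi d x y G = 0) inst (T.Box n d a)).card = T.n2 d x y a := by
  unfold n2
  refine congrArg Finset.card (Finset.ext fun G => ?_)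
  rw [Finset.mem_filter, Finset.mem_filter, N2_phi_apply, Prod.mk_eq_zero]

private theorem N2_img {α β : Type*} (inst : DecidableEq β) (f : α → β) (S : Finset α)
    (U : Finset β) (h : ∀ p ∈ U, ∃ G ∈ S, f G = p) : U.card ≤ (@Finset.image _ _ inst f S).card :=
  Finset.card_le_card fun p hp => Finset.mem_image.2 (h p hp)

private theorem N2_le {n d a : ℕ} (x y : Vc n O) (S : Finset (O × O))
    (hS : ∀ p ∈ S, ∃ G ∈ T.Box n d a, N2_phi d x y G = p) :
    T.n2 d x y a * S.card ≤ T.h a ^ (n + 1) ^ d := by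
  have hker := fin_ker_im (T.Box n d a) (N2_zero T) (N2_sub T) (N2_phi d x y)
  rw [N2_n2, T.card_Box] at hker
  rw [hker]
  exact Nat.mul_le_mul_left _ (N2_img _ _ _ _ hS)

theorem Dd_ne {n b : ℕ} {x y : Vc n O} (hx : x ∈ T.VB n b) (hy : y ∈ T.VB n b)
    (hxy : ¬ Prp x y) : Dd x y ≠ ⊥ ∧ Dd (T.vtw b x) (T.vtw b y) ≠ ⊥ := by
  have hx' := T.mem_VB.1 hx
  have hy' := T.mem_VB.1 hy
  constructor
  · intro h
    apply hxy
    intro i j
    unfold Dd at h
    rw [Ideal.span_eq_bot] at h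
    exact h _ ⟨(i, j), rfl⟩
  · intro h
    apply hxy
    intro i j
    unfold Dd at h
    rw [Ideal.span_eq_bot] at h
    have h1 : mn (T.vtw b x) (T.vtw b y) i j = 0 := h _ ⟨(i, j), rfl⟩
    rw [← T.tw_mn hx hy i j] at h1
    exact (T.tw_eq_zero (T.mn_mem hx hy i j)).1 h1

theorem pair_surj {n b g a d : ℕ} (hd : 2 ≤ d) {x y : Vc n O} (hx : x ∈ T.GG n b g)
    (hy : y ∈ T.GG n b g) (hxy : ¬ Prp x y) (ha : 2 * g + T.c1 ≤ a) {m m' : O}
    (hm : m ∈ T.H (a + d * b)) (hm' : m' ∈ T.H (a + d * b)) (h1 : (m, m') ∈ Lam d x y)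
    (h2 : (T.tw (a + d * b) m, T.tw (a + d * b) m') ∈ Lam d (T.vtw b x) (T.vtw b y)) :
    ∃ G ∈ T.Box n d a, ev G x = m ∧ ev G y = m' := by
  obtain ⟨hxV, hxU, hxU', hxG⟩ := T.mem_GG.1 hx
  obtain ⟨hyV, hyU, hyU', hyG⟩ := T.mem_GG.1 hy
  have hxV' := T.mem_VB.1 hxV
  have hyV' := T.mem_VB.1 hyV
  obtain ⟨c, hc1, hc2, hc3, hc4⟩ := T.span2 d hd g x y hxy hxG hyG
  obtain ⟨G, hG1, hG2⟩ := h1
  obtain ⟨G', hG1', hG2'⟩ := h2
  let A : Bool → (Fin d → Fin (n + 1)) → O := fun j s => if j then ∏ k, x (s k) else ∏ k, y (s k)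
  have hA1 : ∀ s, A true s = ∏ k, x (s k) := fun s => rfl
  have hA2 : ∀ s, A false s = ∏ k, y (s k) := fun s => rfl
  let mm : Bool → O := fun j => if j then m else m'
  have hx1 : ∀ s : Fin d → Fin (n + 1), ∏ k, x (s k) ∈ T.H (d * b) ∧
      T.tw (d * b) (∏ k, x (s k)) = ∏ k, T.vtw b x (s k) :=
    fun s => N2_prod' T (fun k => x (s k)) fun k => hxV' _
  have hy1 : ∀ s : Fin d → Fin (n + 1), ∏ k, y (s k) ∈ T.H (d * b) ∧
      T.tw (d * b) (∏ k, y (s k)) = ∏ k, T.vtw b y (s k) :=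
    fun s => N2_prod' T (fun k => y (s k)) fun k => hyV' _
  have hev : ∀ {R : Type} [CommRing R] (a : Ten n d R) (z : Vc n R),
      ∑ s, (∏ k, z (s k)) * a s = ev a z := by
    intro R _ a z
    unfold ev
    exact Finset.sum_congr rfl fun s _ => mul_comm _ _
  obtain ⟨F, hF1, hF2⟩ := T.im (c := d * b) (g := g + g) (a := a) (by omega) A (by
      intro j s
      cases j
      · exact (hy1 s).1
      · exact (hx1 s).1)
    c (fun τ i => T.mem_Box.1 (hc3 τ) i) (by
      intro τ j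
      cases j
      · exact (hev (c τ) y).trans (hc2 τ)
      · exact (hev (c τ) x).trans (hc1 τ))
    (by
      intro r hr
      refine hc4 r ?_ ?_
      · have h3 := hr true
        rw [← h3]
        unfold ev
        refine Finset.sum_congr rfl fun s _ => ?_
        rw [hA1, map_prod, mul_comm]
      · have h3 := hr false
        rw [← h3]
        unfold ev
        refine Finset.sum_congr rfl fun s _ => ?_
        rw [hA2, map_prod, mul_comm])
    mm (by
      intro j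
      cases j
      · exact hm'
      · exact hm)
    G (by
      intro j
      cases j
      · exact (hev G y).trans hG2
      · exact (hev G x).trans hG1)
    G' (by
      intro j
      cases j
      · rw [Finset.sum_congr rfl fun s _ => by rw [hA2, (hy1 s).2]]
        exact (hev G' (T.vtw b y)).trans hG2'
      · rw [Finset.sum_congr rfl fun s _ => by rw [hA1, (hx1 s).2]]
        exact (hev G' (T.vtw b x)).trans hG1')
  exact ⟨F, T.mem_Box.2 hF1, (hev F x).symm.trans (hF2 true), (hev F y).symm.trans (hF2 false)⟩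

theorem n2_le {n b g a d : ℕ} (hd : 2 ≤ d) {x y : Vc n O} (hx : x ∈ T.GG n b g)
    (hy : y ∈ T.GG n b g) (hxy : ¬ Prp x y) (ha : 2 * g + T.c1 ≤ a) :
    T.n2 d x y a * T.h (a + d * b) ^ 2 ≤ T.h a ^ (n + 1) ^ d * T.nD b x y := by
  obtain ⟨hxV, hxU, hxU', hxG⟩ := T.mem_GG.1 hx
  obtain ⟨hyV, hyU, hyU', hyG⟩ := T.mem_GG.1 hy
  obtain ⟨hD, hD'⟩ := T.Dd_ne hxV hyV hxy
  obtain ⟨hf1, hi1⟩ := Lam_index (d := d) (by omega) hxU hyU (T.finO _ hD)
  obtain ⟨hf2, hi2⟩ := Lam_index (d := d) (by omega) hxU' hyU' (T.finP _ hD')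
  set c := a + d * b with hc
  -- the pairs of admissible values
  let S2 : Finset (O × O) := ((T.H c) ×ˢ (T.H c)).filter fun p =>
    p ∈ Lam d x y ∧ (T.tw c p.1, T.tw c p.2) ∈ Lam d (T.vtw b x) (T.vtw b y)
  have hS2 : T.n2 d x y a * S2.card ≤ T.h a ^ (n + 1) ^ d := by
    refine N2_le T x y S2 fun p hp => ?_
    rw [Finset.mem_filter, Finset.mem_product] at hp
    obtain ⟨G, hG, h1, h2⟩ := T.pair_surj hd hx hy hxy ha hp.1.1 hp.1.2 hp.2.1 hp.2.2
    refine ⟨G, hG, ?_⟩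
    rw [N2_phi_apply, h1, h2]
  -- the classes
  let ψ : O × O → ((O × O) ⧸ Lam d x y) × ((P × P) ⧸ Lam d (T.vtw b x) (T.vtw b y)) :=
    fun p => (QuotientAddGroup.mk p, QuotientAddGroup.mk (T.tw c p.1, T.tw c p.2))
  have hfib := Finset.card_le_mul_card_image (f := ψ) ((T.H c) ×ˢ (T.H c)) S2.card (by
    intro q hq
    rw [Finset.mem_image] at hq
    obtain ⟨p0, hp0, rfl⟩ := hq
    rw [Finset.mem_product] at hp0
    refine Finset.card_le_card_of_injOn (fun p => p - p0) ?_ ?_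
    · intro p hp
      rw [Finset.mem_coe, Finset.mem_filter, Finset.mem_product] at hp
      obtain ⟨⟨h1, h2⟩, h3⟩ := hp
      have h4 := congrArg Prod.fst h3
      have h5 := congrArg Prod.snd h3
      have h6 : -p0 + p ∈ Lam d x y := QuotientAddGroup.eq.1 h4.symm
      have h7 : -(T.tw c p0.1, T.tw c p0.2) + (T.tw c p.1, T.tw c p.2) ∈
          Lam d (T.vtw b x) (T.vtw b y) := QuotientAddGroup.eq.1 h5.symm
      rw [Finset.mem_coe, Finset.mem_filter, Finset.mem_product]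
      refine ⟨⟨T.sub_mem_H h1 hp0.1, T.sub_mem_H h2 hp0.2⟩, ?_, ?_⟩
      · rw [neg_add_eq_sub] at h6
        exact h6
      · rw [neg_add_eq_sub] at h7
        have h8 : (T.tw c (p - p0).1, T.tw c (p - p0).2) =
            (T.tw c p.1, T.tw c p.2) - (T.tw c p0.1, T.tw c p0.2) := by
          refine Prod.ext ?_ ?_
          · exact T.tw_sub h1 hp0.1
          · exact T.tw_sub h2 hp0.2
        rw [h8]
        exact h7
    · intro p _ p' _ h
      exact sub_left_injective h)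
  have hfin : Finite (((O × O) ⧸ Lam d x y) × ((P × P) ⧸ Lam d (T.vtw b x) (T.vtw b y))) :=
    inferInstance
  have him : (((T.H c) ×ˢ (T.H c)).image ψ).card ≤ T.nD b x y := by
    have h1 : (((T.H c) ×ˢ (T.H c)).image ψ).card ≤
        Nat.card (((O × O) ⧸ Lam d x y) × ((P × P) ⧸ Lam d (T.vtw b x) (T.vtw b y))) := by
      have : Fintype (((O × O) ⧸ Lam d x y) × ((P × P) ⧸ Lam d (T.vtw b x) (T.vtw b y))) :=
        Fintype.ofFinite _
      rw [Nat.card_eq_fintype_card]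
      exact Finset.card_le_univ _
    refine h1.trans ?_
    rw [Nat.card_prod]
    exact Nat.mul_le_mul hi1 hi2
  rw [Finset.card_product] at hfib
  have hh : (T.H c).card = T.h c := rfl
  rw [hh] at hfib
  calc T.n2 d x y a * T.h c ^ 2 = T.n2 d x y a * (T.h c * T.h c) := by rw [sq]
    _ ≤ T.n2 d x y a * (S2.card * T.nD b x y) :=
      Nat.mul_le_mul_left _ (hfib.trans (Nat.mul_le_mul_left _ him))
    _ = (T.n2 d x y a * S2.card) * T.nD b x y := by ring
    _ ≤ T.h a ^ (n + 1) ^ d * T.nD b x y := Nat.mul_le_mul_right _ hS2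

theorem n2_le_n1 {n a : ℕ} (d : ℕ) (x y : Vc n O) : T.n2 d x y a ≤ T.n1 d x a := by
  unfold n2 n1
  refine Finset.card_le_card fun G hG => ?_
  rw [Finset.mem_filter] at hG ⊢
  exact ⟨hG.1, hG.2.1⟩

private theorem N2_sl {n : ℕ} (d a : ℕ) (x y : Vc n O) (m m' : O)
    (inst : DecidablePred fun G : Ten n d O => N2_phi d x y G = (m, m')) :
    (@Finset.filter _ (fun G => N2_phi d x y G = (m, m')) inst (T.Box n d a)).card =
      T.sl d a x y m m' := by
  unfold sl
  refine congrArg Finset.card (Finset.ext fun G => ?_)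
  rw [Finset.mem_filter, Finset.mem_filter, N2_phi_apply, Prod.mk.injEq]

theorem sl_le {n : ℕ} (d a : ℕ) (x y : Vc n O) (m m' : O) : T.sl d a x y m m' ≤ T.n2 d x y a := by
  have h := fin_fib_le (T.Box n d a) (N2_zero T) (N2_sub T) (N2_phi d x y) (m, m')
  rw [N2_sl, N2_n2] at h
  exact h

theorem sl_good {n b g a d w : ℕ} (hd : 2 ≤ d) {x y : Vc n O} (hx : x ∈ T.GG n b g)
    (hy : y ∈ T.GG n b g) (hxy : ¬ Prp x y) (ha : 2 * g + T.c1 ≤ a)
    (h1 : WD O w ≤ Dd x y) (h2 : WD P w ≤ Dd (T.vtw b x) (T.vtw b y)) {m m' : O}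
    (hm : m ∈ T.MS w (a + d * b)) (hm' : m' ∈ T.MS w (a + d * b)) :
    T.sl d a x y m m' = T.n2 d x y a := by
  obtain ⟨hxV, hxU, hxU', hxG⟩ := T.mem_GG.1 hx
  obtain ⟨hyV, hyU, hyU', hyG⟩ := T.mem_GG.1 hy
  have hm1 := T.mem_M.1 hm
  have hm1' := T.mem_M.1 hm'
  obtain ⟨G0, hG0, h3, h4⟩ := T.pair_surj hd hx hy hxy ha hm1.1 hm1'.1
    (Lam_mem (by omega) hxU hyU (h1 hm1.2.1) (h1 hm1'.2.1))
    (Lam_mem (by omega) hxU' hyU' (h2 hm1.2.2) (h2 hm1'.2.2))
  have h5 : N2_phi d x y G0 = (m, m') := by rw [N2_phi_apply, h3, h4]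
  have h6 := fin_fib (T.Box n d a) (N2_zero T) (N2_sub T) (N2_phi d x y) G0 hG0
  rw [N2_n2] at h6
  rw [← h6, h5, N2_sl]

end TC

end Pool.Agent.Lib.MP_1ad228_ntZ
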