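import Pool.Agent.Lib.MP_1ad228_ntZ.CntY

/-!
LEAF Alpha.  Pairs with large divisor of minors.
Let `f_1, .., f_n ∈ VB g` be independent and orthogonal to `x` (`T.Good g x`).  For `y` in the sum let `p = (D, D')`, `N = nD b x y > Q^b`, `U_s = lin (f_s) y ∈ H (g+b)`.  `U_s ∈ D`: `y_i ≡ λ x_i (D)` (as in cntY) so `lin f_s y ≡ λ lin f_s x = 0`;
the same for the twist in `P` (tw_lin), so `U_s ∈ M (g+b) D D'`, a set with at most `1 + Q * Q^(g+b)/N ≤ 2 Q * Q^g` elements (M_up).  `U` determines `y` up to `y ↦ y + c x` with `c ∈ H 0` (if `U(y) = U(y')` then `y - y'` is orthogonal to the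
`n` independent `f_s`, so proportional to `x` over `K`, and as in prp_cnt `c ∈ H 0`), so at most `(2Q)^n Q^(g n) h 0` values `y` for given `p`.  Some `U_s ≠ 0` (else `y` is proportional to `x`), so `N ≤ Q^(g+b)` (M_zero).
The number of `p` with norm `≤ Q^(g+b)` is `≤ C Q^(g+b)` (dvCount), and `N^r ≤ Q^((g+b) r)`.
-/

namespace Pool.Agent.Lib.MP_1ad228_ntZ

open Classical

section field
variable {F : Type*} [Field F]

/-- The linear functional `u ↦ lin u y`. -/
private noncomputable def alpha_fun {n : ℕ} (y : Vc n F) : Vc n F →ₗ[F] F where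
  toFun u := lin u y
  map_add' u v := lin_add u v y
  map_smul' c u := by
    rw [lin_smul]
    rfl

/-- `n` independent vectors orthogonal to a nonzero vector span its orthogonal complement. -/
private theorem alpha_span {n : ℕ} (x : Vc n F) (hx : x ≠ 0) (f : Fin n → Vc n F)
    (hf : LinearIndependent F f) (h0 : ∀ s, lin (f s) x = 0) (u : Vc n F)
    (hu : lin u x = 0) : u ∈ Submodule.span F (Set.range f) := by
  have hker : ∀ s, f s ∈ LinearMap.ker (alpha_fun x) := by
    intro s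
    rw [LinearMap.mem_ker]
    exact h0 s
  have hne : alpha_fun x ≠ 0 := by
    intro h
    apply hx
    funext i
    have h4 : alpha_fun x (Pi.single i 1) = 0 := by rw [h]; rfl
    change lin (Pi.single i 1) x = 0 at h4
    rw [lin_single] at h4
    exact h4
  have hrange : Module.finrank F (LinearMap.range (alpha_fun x)) = 1 := by
    have : LinearMap.range (alpha_fun x) = ⊤ :=
      LinearMap.range_eq_top.mpr (LinearMap.surjective hne)
    rw [this]
    simp
  have hdim : Module.finrank F (LinearMap.ker (alpha_fun x)) = n := by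
    have := LinearMap.finrank_range_add_finrank_ker (alpha_fun x)
    rw [hrange] at this
    simp at this
    omega
  have hle : Submodule.span F (Set.range f) ≤ LinearMap.ker (alpha_fun x) := by
    rw [Submodule.span_le]
    rintro _ ⟨s, rfl⟩
    exact hker s
  have heq : Submodule.span F (Set.range f) = LinearMap.ker (alpha_fun x) := by
    apply Submodule.eq_of_le_of_finrank_eq hle
    rw [hdim, finrank_span_eq_card hf]
    simp
  rw [heq, LinearMap.mem_ker]
  exact hu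

/-- A vector orthogonal to the `f s` is proportional to `x`. -/
private theorem alpha_prop {n : ℕ} (x z : Vc n F) (hx : x ≠ 0) (f : Fin n → Vc n F)
    (hf : LinearIndependent F f) (h0 : ∀ s, lin (f s) x = 0) (hz : ∀ s, lin (f s) z = 0)
    (o j : Fin (n + 1)) : x o * z j = x j * z o := by
  obtain ⟨u, hu⟩ : ∃ u : Vc n F, u = (x o) • (Pi.single j 1 : Vc n F) -
      (x j) • (Pi.single o 1 : Vc n F) := ⟨_, rfl⟩
  have hlin : ∀ w : Vc n F, lin u w = x o * w j - x j * w o := by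
    intro w
    rw [hu, lin_sub, lin_smul, lin_smul, lin_single, lin_single]
  have h1 : lin u x = 0 := by
    rw [hlin]
    ring
  have h2 : u ∈ LinearMap.ker (alpha_fun z) := by
    have h3 : Submodule.span F (Set.range f) ≤ LinearMap.ker (alpha_fun z) := by
      rw [Submodule.span_le]
      rintro _ ⟨s, rfl⟩
      exact hz s
    exact h3 (alpha_span x hx f hf h0 u h1)
  have h3 : lin u z = 0 := h2
  rw [hlin, sub_eq_zero] at h3
  exact h3

end field

section frac

/-- The map to the fraction field on vectors. -/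
private noncomputable def alpha_map (O K : Type) [CommRing O] [IsDomain O] [Field K]
    [Algebra O K] (n : ℕ) : Vc n O →ₗ[O] Vc n K where
  toFun x := fun i => algebraMap O K (x i)
  map_add' x y := by
    funext i
    simp
  map_smul' c x := by
    funext i
    simp [Algebra.smul_def]

private theorem alpha_propO {O : Type} (K : Type) [CommRing O] [IsDomain O] [Field K]
    [Algebra O K] [IsFractionRing O K] {n : ℕ} (x z : Vc n O) (hx : x ≠ 0) (f : Fin n → Vc n O)
    (hf : LinearIndependent O f) (h0 : ∀ s, lin (f s) x = 0) (hz : ∀ s, lin (f s) z = 0)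
    (o j : Fin (n + 1)) : x o * z j = x j * z o := by
  have hinj := IsFractionRing.injective O K
  have hli : LinearIndependent K (fun s => alpha_map O K n (f s)) := by
    have hk : LinearMap.ker (alpha_map O K n) = ⊥ := by
      rw [LinearMap.ker_eq_bot]
      intro a b hab
      funext i
      exact hinj (congrFun hab i)
    have h1 : LinearIndependent O (alpha_map O K n ∘ f) := hf.map' (alpha_map O K n) hk
    exact (LinearIndependent.iff_fractionRing O K).mp h1
  have hl : ∀ u w : Vc n O, lin (alpha_map O K n u) (alpha_map O K n w) =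
      algebraMap O K (lin u w) := by
    intro u w
    simp only [Pool.Agent.Lib.MP_219881_nt.lin, map_sum, map_mul]
    rfl
  have h1 := alpha_prop (alpha_map O K n x) (alpha_map O K n z) (by
    intro h
    apply hx
    funext i
    have h2 := congrFun h i
    have h3 : algebraMap O K (x i) = 0 := h2
    exact (map_eq_zero_iff _ hinj).1 h3) (fun s => alpha_map O K n (f s)) hli
    (fun s => by rw [hl, h0 s, map_zero]) (fun s => by rw [hl, hz s, map_zero]) o j
  apply hinj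
  rw [map_mul, map_mul]
  exact h1

end frac

section ring
variable {R : Type} [CommRing R]

private theorem alpha_mn {n : ℕ} (x y : Vc n R) (i j : Fin (n + 1)) : mn x y i j ∈ Dd x y :=
  Ideal.subset_span ⟨(i, j), rfl⟩

private theorem alpha_lam {n : ℕ} {x y : Vc n R} (hx : Uni x) (I : Ideal R)
    (h : ∀ i j, mn x y i j ∈ I) : ∃ l : R, ∀ j, y j - l * x j ∈ I := by
  obtain ⟨u, hu⟩ := hx
  refine ⟨lin u y, fun j => ?_⟩
  have h1 : y j - lin u y * x j = ∑ i, u i * mn x y i j := by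
    have h2 : y j = y j * lin u x := by rw [hu, mul_one]
    have h3 : y j * lin u x - lin u y * x j = ∑ i, u i * mn x y i j := by
      simp only [Pool.Agent.Lib.MP_219881_nt.lin, Finset.mul_sum, Finset.sum_mul,
        ← Finset.sum_sub_distrib, Pool.Agent.Lib.MP_219881_nt.mn]
      exact Finset.sum_congr rfl fun i _ => by ring
    rw [← h3, ← h2]
  rw [h1]
  exact Ideal.sum_mem _ fun i _ => Ideal.mul_mem_left _ _ (h i j)

private theorem alpha_dvd {n : ℕ} (x y : Vc n R) (hx : Uni x) (f : Vc n R) (h0 : lin f x = 0) :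
    lin f y ∈ Dd x y := by
  obtain ⟨l, hl⟩ := alpha_lam hx (Dd x y) (alpha_mn x y)
  have h2 : lin f y = ∑ j, f j * (y j - l * x j) := by
    have h3 : ∑ j, f j * (y j - l * x j) = lin f y - l * lin f x := by
      simp only [Pool.Agent.Lib.MP_219881_nt.lin, Finset.mul_sum, ← Finset.sum_sub_distrib]
      refine Finset.sum_congr rfl fun j _ => ?_
      ring
    rw [h3, h0, mul_zero, sub_zero]
  rw [h2]
  exact Ideal.sum_mem _ fun j _ => Ideal.mul_mem_left _ _ (hl j)

private theorem alpha_mul {n : ℕ} {x z u : Vc n R} (hu : lin u x = 1)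
    (h : ∀ i j, x i * z j = x j * z i) (j : Fin (n + 1)) : z j = lin u z * x j := by
  have h2 : z j * lin u x = lin u z * x j := by
    simp only [Pool.Agent.Lib.MP_219881_nt.lin, Finset.mul_sum, Finset.sum_mul]
    refine Finset.sum_congr rfl fun i _ => ?_
    linear_combination u i * h i j
  rwa [hu, mul_one] at h2

end ring

namespace TC
variable {K O P : Type} [Field K] [CommRing O] [IsDedekindDomain O] [Algebra O K]
  [IsFractionRing O K] [CommRing P] [IsDedekindDomain P] [Algebra P K]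
  [IsFractionRing P K] (T : TC K O P)

omit [IsDedekindDomain O] [IsFractionRing O K] [IsDedekindDomain P] [IsFractionRing P K] in
private theorem alpha_GG {n b g : ℕ} {x : Vc n O} (hx : x ∈ T.GG n b g) :
    x ∈ T.VB n b ∧ Uni x ∧ Uni (T.vtw b x) ∧ T.Good g x := by
  unfold GG at hx
  exact Finset.mem_filter.1 hx

private theorem alpha_ne {n : ℕ} {x : Vc n O} (hx : Uni x) : ∃ j, x j ≠ 0 := by
  obtain ⟨u, hu⟩ := hx
  by_contra hcon
  push Not at hcon
  have h1 : lin u x = 0 := by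
    simp only [Pool.Agent.Lib.MP_219881_nt.lin]
    refine Finset.sum_eq_zero fun i _ => ?_
    rw [hcon i, mul_zero]
  rw [h1] at hu
  exact zero_ne_one hu

/-- The values of the linear forms lie in `M`. -/
private theorem alpha_memM {n b g : ℕ} {x y f : Vc n O} (hx : x ∈ T.GG n b g)
    (hy : y ∈ T.GG n b g) (hf : f ∈ T.VB n g) (h0 : lin f x = 0) :
    lin f y ∈ T.M (g + b) (Dd x y) (Dd (T.vtw b x) (T.vtw b y)) := by
  obtain ⟨hx0, hx1, hx2, -⟩ := T.alpha_GG hx
  obtain ⟨hy0, -, -, -⟩ := T.alpha_GG hy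
  rw [T.mem_M]
  refine ⟨T.lin_mem hf hy0, alpha_dvd x y hx1 f h0, ?_⟩
  rw [T.tw_lin hf hy0]
  refine alpha_dvd _ _ hx2 _ ?_
  rw [← T.tw_lin hf hx0, h0, T.tw_zero]

/-- Two points with the same values of the linear forms. -/
private theorem alpha_fib {n b g : ℕ} {x y y' : Vc n O} (hx : x ∈ T.GG n b g)
    (hy : y ∈ T.GG n b g) (hy' : y' ∈ T.GG n b g) (f : Fin n → Vc n O)
    (hf : LinearIndependent O f) (h0 : ∀ s, lin (f s) x = 0)
    (he : ∀ s, lin (f s) y = lin (f s) y') :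
    ∃ c : O, c ∈ T.H 0 ∧ ∀ j, y j = y' j + c * x j := by
  obtain ⟨hx0, hx1, hx2, -⟩ := T.alpha_GG hx
  obtain ⟨hy0, -, -, -⟩ := T.alpha_GG hy
  obtain ⟨hy0', -, -, -⟩ := T.alpha_GG hy'
  obtain ⟨j0, hj0⟩ := alpha_ne hx1
  have hxne : x ≠ 0 := fun h => hj0 (congrFun h j0)
  obtain ⟨z, hz⟩ : ∃ z : Vc n O, z = y - y' := ⟨_, rfl⟩
  have hz0 : ∀ s, lin (f s) z = 0 := by
    intro s
    rw [hz, lin_sub_right, he s, sub_self]
  have hzH : ∀ j, z j ∈ T.H b := by
    intro j
    rw [hz]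
    exact T.sub_mem_H (T.mem_VB.1 hy0 j) (T.mem_VB.1 hy0' j)
  have hxH := T.mem_VB.1 hx0
  have hp : ∀ i j, x i * z j = x j * z i := fun i j => alpha_propO K x z hxne f hf h0 hz0 i j
  have hp' : ∀ i j, T.vtw b x i * T.vtw b z j = T.vtw b x j * T.vtw b z i := by
    intro i j
    show T.tw b (x i) * T.tw b (z j) = T.tw b (x j) * T.tw b (z i)
    rw [← T.tw_mul (hxH i) (hzH j), ← T.tw_mul (hxH j) (hzH i), hp i j]
  obtain ⟨u, hu⟩ := hx1
  obtain ⟨u', hu'⟩ := hx2
  have h1 := alpha_mul hu hp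
  have h2 := alpha_mul hu' hp'
  refine ⟨lin u z, ?_, fun j => ?_⟩
  · have h3 : algebraMap P K (lin u' (T.vtw b z)) =
        algebraMap P K T.s ^ 0 * algebraMap O K (lin u z) := by
      rw [pow_zero, one_mul]
      have h4 : algebraMap P K (T.tw b (z j0)) =
          algebraMap P K (lin u' (T.vtw b z)) * algebraMap P K (T.tw b (x j0)) := by
        rw [← map_mul]
        exact congrArg _ (h2 j0)
      rw [T.tw_spec (hzH j0), T.tw_spec (hxH j0), h1 j0, map_mul] at h4
      have h5 : algebraMap P K T.s ^ b ≠ 0 := pow_ne_zero _ T.s_ne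
      have h6 : algebraMap O K (x j0) ≠ 0 := by
        intro h
        exact hj0 ((map_eq_zero_iff _ (IsFractionRing.injective O K)).1 h)
      have h7 : (algebraMap P K T.s ^ b * algebraMap O K (x j0)) ≠ 0 := mul_ne_zero h5 h6
      apply mul_right_cancel₀ h7
      rw [← h4]
      ring
    exact (T.tw_eq h3).1
  · rw [← h1 j, hz, Pi.sub_apply]
    ring

omit [IsDedekindDomain P] [IsFractionRing P K] in
/-- Some linear form does not vanish. -/
private theorem alpha_some {n b g : ℕ} {x y : Vc n O} (hx : x ∈ T.GG n b g)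
    (hxy : ¬ Prp x y) (f : Fin n → Vc n O)
    (hf : LinearIndependent O f) (h0 : ∀ s, lin (f s) x = 0) : ∃ s, lin (f s) y ≠ 0 := by
  obtain ⟨hx0, hx1, hx2, -⟩ := T.alpha_GG hx
  obtain ⟨j0, hj0⟩ := alpha_ne hx1
  have hxne : x ≠ 0 := fun h => hj0 (congrFun h j0)
  by_contra hcon
  push Not at hcon
  apply hxy
  intro i j
  have h1 := alpha_propO K x y hxne f hf h0 hcon i j
  show x i * y j - x j * y i = 0
  rw [h1, sub_self]

/-- The number of points with given pair of ideals. -/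
private theorem alpha_cell {n b g : ℕ} {x : Vc n O} (hx : x ∈ T.GG n b g) {I : Ideal O}
    {J : Ideal P} (hI : I ≠ ⊥) (hJ : J ≠ ⊥) (hN : T.Q ^ b < nI I * nI J) :
    (((T.GG n b g).filter fun y => Dd x y = I ∧ Dd (T.vtw b x) (T.vtw b y) = J).card : ℝ) ≤
      T.h 0 * (2 * (T.Q : ℝ) * (T.Q : ℝ) ^ g) ^ n := by
  obtain ⟨hx0, hx1, hx2, f, hf, h0, hfH⟩ := T.alpha_GG hx
  have hfV : ∀ s, f s ∈ T.VB n g := fun s => T.mem_VB.2 fun j => hfH s j
  obtain ⟨Z, hZ⟩ : ∃ Z, Z = (T.GG n b g).filter fun y =>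
    Dd x y = I ∧ Dd (T.vtw b x) (T.vtw b y) = J := ⟨_, rfl⟩
  have hcard : Z.card ≤ (T.H 0).card *
      (Fintype.piFinset fun _ : Fin n => T.M (g + b) I J).card := by
    refine Finset.card_le_mul_card_image_of_maps_to (f := fun y s => lin (f s) y) ?_ _ ?_
    · intro y hy
      rw [hZ] at hy
      obtain ⟨hyG, hyI, hyJ⟩ := Finset.mem_filter.1 hy
      refine Fintype.mem_piFinset.2 fun s => ?_
      have h1 := T.alpha_memM hx hyG (hfV s) (h0 s)
      rw [hyI, hyJ] at h1
      exact h1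
    · intro v _
      rcases (Z.filter fun y => (fun s => lin (f s) y) = v).eq_empty_or_nonempty with hem | ⟨y', hy'⟩
      · rw [hem]
        exact Nat.zero_le _
      · obtain ⟨hy'Z, hy'b⟩ := Finset.mem_filter.1 hy'
        have hsub : (Z.filter fun y => (fun s => lin (f s) y) = v) ⊆
            (T.H 0).image fun c => fun l => y' l + c * x l := by
          intro y hy
          obtain ⟨hyZ, hyb⟩ := Finset.mem_filter.1 hy
          have he : ∀ s, lin (f s) y = lin (f s) y' := fun s => congrFun (hyb.trans hy'b.symm) s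
          rw [hZ] at hyZ hy'Z
          obtain ⟨c, hc, hcy⟩ := T.alpha_fib hx (Finset.mem_filter.1 hyZ).1
            (Finset.mem_filter.1 hy'Z).1 f hf h0 he
          refine Finset.mem_image.2 ⟨c, hc, ?_⟩
          funext l
          exact (hcy l).symm
        exact (Finset.card_le_card hsub).trans Finset.card_image_le
  have hQ1 : (1 : ℝ) ≤ T.Q := by
    have := T.two_le
    exact_mod_cast (by omega : 1 ≤ T.Q)
  have hN' : (T.Q : ℝ) ^ b < (nI I : ℝ) * nI J := by exact_mod_cast hN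
  have hN0 : (0 : ℝ) < (nI I : ℝ) * nI J := lt_of_le_of_lt (by positivity) hN'
  have hM : ((T.M (g + b) I J).card : ℝ) ≤ 2 * (T.Q : ℝ) * (T.Q : ℝ) ^ g := by
    refine (T.M_up (g + b) hI hJ).trans ?_
    have h1 : (T.Q : ℝ) ^ (g + b) / ((nI I : ℝ) * nI J) ≤ (T.Q : ℝ) ^ g := by
      rw [div_le_iff₀ hN0, pow_add]
      exact mul_le_mul_of_nonneg_left hN'.le (by positivity)
    have h2 : (1 : ℝ) ≤ (T.Q : ℝ) * (T.Q : ℝ) ^ g :=
      one_le_mul_of_one_le_of_one_le hQ1 (one_le_pow₀ hQ1)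
    have h3 : (T.Q : ℝ) * ((T.Q : ℝ) ^ (g + b) / ((nI I : ℝ) * nI J)) ≤
        (T.Q : ℝ) * (T.Q : ℝ) ^ g := mul_le_mul_of_nonneg_left h1 (by linarith)
    linarith
  have hpi : ((Fintype.piFinset fun _ : Fin n => T.M (g + b) I J).card : ℝ) ≤
      (2 * (T.Q : ℝ) * (T.Q : ℝ) ^ g) ^ n := by
    rw [Fintype.card_piFinset, Nat.cast_prod, Finset.prod_const, Finset.card_univ,
      Fintype.card_fin]
    exact pow_le_pow_left₀ (Nat.cast_nonneg _) hM n
  rw [← hZ]
  calc (Z.card : ℝ) ≤ ((T.H 0).card : ℝ) *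
        ((Fintype.piFinset fun _ : Fin n => T.M (g + b) I J).card : ℝ) := by
        exact_mod_cast hcard
    _ ≤ T.h 0 * (2 * (T.Q : ℝ) * (T.Q : ℝ) ^ g) ^ n :=
        mul_le_mul_of_nonneg_left hpi (Nat.cast_nonneg _)

theorem alpha (n r : ℕ) : ∃ C : ℝ, 1 ≤ C ∧ ∀ (b g : ℕ) (x : Vc n O), x ∈ T.GG n b g →
    ∑ y ∈ (T.GG n b g).filter (fun y => ¬ Prp x y ∧ T.Q ^ b < T.nD b x y),
      (T.nD b x y : ℝ) ^ r ≤ C * (T.Q : ℝ) ^ (g * n + (g + b) * (r + 1)) := by
  obtain ⟨C, hC, hcnt⟩ := T.dvCount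
  have hQ1 : (1 : ℝ) ≤ T.Q := by
    have := T.two_le
    exact_mod_cast (by omega : 1 ≤ T.Q)
  have hh : (1 : ℝ) ≤ T.h 0 := by exact_mod_cast T.h_pos 0
  refine ⟨C * (T.h 0 * (2 * (T.Q : ℝ)) ^ n), ?_, ?_⟩
  · exact one_le_mul_of_one_le_of_one_le hC
      (one_le_mul_of_one_le_of_one_le hh (one_le_pow₀ (by linarith)))
  intro b g x hx
  obtain ⟨hx0, hx1, hx2, f, hf, h0, hfH⟩ := T.alpha_GG hx
  have hfV : ∀ s, f s ∈ T.VB n g := fun s => T.mem_VB.2 fun j => hfH s j
  obtain ⟨Y, hY⟩ : ∃ Y, Y = (T.GG n b g).filter (fun y => ¬ Prp x y ∧ T.Q ^ b < T.nD b x y) :=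
    ⟨_, rfl⟩
  rw [← hY]
  -- the norms
  have hnorm : ∀ y ∈ Y, T.nD b x y ≤ T.Q ^ (g + b) := by
    intro y hy
    rw [hY] at hy
    obtain ⟨hyG, hp, hd⟩ := Finset.mem_filter.1 hy
    obtain ⟨s, hs⟩ := T.alpha_some hx hp f hf h0
    by_contra hcon
    push Not at hcon
    exact hs (T.M_zero hcon (T.alpha_memM hx hyG (hfV s) (h0 s)))
  obtain ⟨S, hS⟩ : ∃ S : Finset (Ideal O × Ideal P),
      S = Y.image fun y => (Dd x y, Dd (T.vtw b x) (T.vtw b y)) := ⟨_, rfl⟩
  have hSmem : ∀ p ∈ S, p.1 ≠ ⊥ ∧ p.2 ≠ ⊥ ∧ T.Q ^ b < nI p.1 * nI p.2 ∧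
      nI p.1 * nI p.2 ≤ T.Q ^ (g + b) := by
    intro p hp
    rw [hS] at hp
    obtain ⟨y, hy, rfl⟩ := Finset.mem_image.1 hp
    have hn := hnorm y hy
    rw [hY] at hy
    obtain ⟨hyG, hp, hd⟩ := Finset.mem_filter.1 hy
    obtain ⟨hy0, -, -, -⟩ := T.alpha_GG hyG
    obtain ⟨h1, h2⟩ := T.Dd_ne hx0 hy0 hp
    exact ⟨h1, h2, hd, hn⟩
  have hSc : (S.card : ℝ) ≤ C * (T.Q : ℝ) ^ (g + b) := by
    refine hcnt _ (one_le_pow₀ hQ1) S fun p hp => ?_
    obtain ⟨h1, h2, -, h3⟩ := hSmem p hp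
    exact ⟨h1, h2, by exact_mod_cast h3⟩
  have hYc : (Y.card : ℝ) ≤ (S.card : ℝ) * (T.h 0 * (2 * (T.Q : ℝ) * (T.Q : ℝ) ^ g) ^ n) := by
    have h1 : Y.card = ∑ p ∈ S,
        (Y.filter fun y => (Dd x y, Dd (T.vtw b x) (T.vtw b y)) = p).card :=
      Finset.card_eq_sum_card_fiberwise (fun y hy => by
        rw [hS]
        exact Finset.mem_image_of_mem _ hy)
    rw [h1, Nat.cast_sum]
    calc ∑ p ∈ S, ((Y.filter fun y => (Dd x y, Dd (T.vtw b x) (T.vtw b y)) = p).card : ℝ)
        ≤ ∑ _p ∈ S, (T.h 0 * (2 * (T.Q : ℝ) * (T.Q : ℝ) ^ g) ^ n) := by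
          refine Finset.sum_le_sum fun p hp => ?_
          obtain ⟨h2, h3, h4, -⟩ := hSmem p hp
          refine le_trans ?_ (T.alpha_cell hx h2 h3 h4)
          have h5 : (Y.filter fun y => (Dd x y, Dd (T.vtw b x) (T.vtw b y)) = p) ⊆
              (T.GG n b g).filter fun y => Dd x y = p.1 ∧ Dd (T.vtw b x) (T.vtw b y) = p.2 := by
            intro y hy
            obtain ⟨hy1, hy2⟩ := Finset.mem_filter.1 hy
            rw [hY] at hy1
            exact Finset.mem_filter.2 ⟨(Finset.mem_filter.1 hy1).1, congrArg Prod.fst hy2,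
              congrArg Prod.snd hy2⟩
          exact_mod_cast Finset.card_le_card h5
      _ = (S.card : ℝ) * (T.h 0 * (2 * (T.Q : ℝ) * (T.Q : ℝ) ^ g) ^ n) := by
          rw [Finset.sum_const, nsmul_eq_mul]
  have hh0 : (0 : ℝ) ≤ T.h 0 := by linarith
  calc ∑ y ∈ Y, (T.nD b x y : ℝ) ^ r ≤ ∑ _y ∈ Y, ((T.Q : ℝ) ^ (g + b)) ^ r := by
        refine Finset.sum_le_sum fun y hy => ?_
        refine pow_le_pow_left₀ (Nat.cast_nonneg _) ?_ r
        exact_mod_cast hnorm y hy
    _ = (Y.card : ℝ) * ((T.Q : ℝ) ^ (g + b)) ^ r := by rw [Finset.sum_const, nsmul_eq_mul]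
    _ ≤ ((C * (T.Q : ℝ) ^ (g + b)) * (T.h 0 * (2 * (T.Q : ℝ) * (T.Q : ℝ) ^ g) ^ n)) *
          ((T.Q : ℝ) ^ (g + b)) ^ r := by
        refine mul_le_mul_of_nonneg_right (hYc.trans ?_) (by positivity)
        exact mul_le_mul_of_nonneg_right hSc (by positivity)
    _ = C * (T.h 0 * (2 * (T.Q : ℝ)) ^ n) * (T.Q : ℝ) ^ (g * n + (g + b) * (r + 1)) := by
        rw [mul_pow (2 * (T.Q : ℝ)), ← pow_mul, ← pow_mul, pow_add, mul_add, mul_one, pow_add]
        ring

end TC

end Pool.Agent.Lib.MP_1ad228_ntZ
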