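import Pool.Agent.Lib.MP_1ad228_ntZ.Beta
import Pool.Agent.Lib.MP_1ad228_ntZ.Alpha

/-!
LEAF PairSum.  Sum over all pairs and over the bad pairs, one `x` fixed.
psBad: a bad `y` has `w < nD` (bad_gt); split `nD ≤ Q^b` (beta) or `Q^b < nD` (alpha).  psAll: the same with `w = 0` in beta (`0 < nD` by nD_pos).
-/

namespace Pool.Agent.Lib.MP_1ad228_ntZ

open Classical

namespace TC
variable {K O P : Type} [Field K] [CommRing O] [IsDedekindDomain O] [Algebra O K]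
  [IsFractionRing O K] [CommRing P] [IsDedekindDomain P] [Algebra P K]
  [IsFractionRing P K] (T : TC K O P)

omit [IsDedekindDomain O] [IsFractionRing O K] [IsDedekindDomain P] [IsFractionRing P K] in
private theorem PairSum_gen {n r b g w : ℕ} {x : Vc n O} (S : Vc n O → Prop) [DecidablePred S]
    (hS : ∀ y ∈ T.GG n b g, S y → ¬ Prp x y ∧ w < T.nD b x y) :
    ∑ y ∈ (T.GG n b g).filter S, (T.nD b x y : ℝ) ^ r ≤
      ∑ y ∈ (T.GG n b g).filter (fun y => ¬ Prp x y ∧ w < T.nD b x y ∧ T.nD b x y ≤ T.Q ^ b),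
        (T.nD b x y : ℝ) ^ r +
      ∑ y ∈ (T.GG n b g).filter (fun y => ¬ Prp x y ∧ T.Q ^ b < T.nD b x y),
        (T.nD b x y : ℝ) ^ r := by
  have h0 : ∀ y : Vc n O, (0 : ℝ) ≤ (T.nD b x y : ℝ) ^ r := fun y => by positivity
  have hd : Disjoint
      ((T.GG n b g).filter (fun y => ¬ Prp x y ∧ w < T.nD b x y ∧ T.nD b x y ≤ T.Q ^ b))
      ((T.GG n b g).filter (fun y => ¬ Prp x y ∧ T.Q ^ b < T.nD b x y)) := by
    rw [Finset.disjoint_filter]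
    intro y _ h1 h2
    exact absurd h2.2 (not_lt.mpr h1.2.2)
  rw [← Finset.sum_union hd]
  refine Finset.sum_le_sum_of_subset_of_nonneg ?_ fun y _ _ => h0 y
  intro y hy
  rw [Finset.mem_filter] at hy
  rw [Finset.mem_union, Finset.mem_filter, Finset.mem_filter]
  obtain ⟨h1, h2⟩ := hS y hy.1 hy.2
  rcases le_or_gt (T.nD b x y) (T.Q ^ b) with h | h
  · exact Or.inl ⟨hy.1, h1, h2, h⟩
  · exact Or.inr ⟨hy.1, h1, h⟩

omit [IsDedekindDomain O] [IsFractionRing O K] [IsDedekindDomain P] [IsFractionRing P K] in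
private theorem PairSum_mem {n b g : ℕ} {x : Vc n O} (hx : x ∈ T.GG n b g) : x ∈ T.VB n b :=
  (Finset.mem_filter.1 hx).1

theorem psBad (n r : ℕ) (hn : r + 2 ≤ n) : ∃ C : ℝ, 1 ≤ C ∧ ∀ (b g w : ℕ) (x : Vc n O),
    x ∈ T.GG n b g →
    ∑ y ∈ (T.GG n b g).filter (fun y => ¬ Prp x y ∧
        ¬ (WD O w ≤ Dd x y ∧ WD P w ≤ Dd (T.vtw b x) (T.vtw b y))), (T.nD b x y : ℝ) ^ r ≤
      C * ((T.Q : ℝ) ^ (b * (n + 1)) / (w + 1) + (T.Q : ℝ) ^ (g * n + (g + b) * (r + 1))) := by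
  obtain ⟨Cb, hCb, hb⟩ := T.beta n r hn
  obtain ⟨Ca, hCa, ha⟩ := T.alpha n r
  refine ⟨Cb + Ca, by linarith, fun b g w x hx => ?_⟩
  have h1 := T.PairSum_gen (r := r) (w := w) (x := x) (b := b) (g := g)
    (fun y => ¬ Prp x y ∧ ¬ (WD O w ≤ Dd x y ∧ WD P w ≤ Dd (T.vtw b x) (T.vtw b y)))
    fun y hy h => ⟨h.1, T.bad_gt (T.PairSum_mem hx) (T.PairSum_mem hy) h.1 h.2⟩
  have h2 := hb b g w x hx
  have h3 := ha b g x hx
  have h4 : (0 : ℝ) ≤ (T.Q : ℝ) ^ (b * (n + 1)) / (w + 1) := by positivity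
  have h5 : (0 : ℝ) ≤ (T.Q : ℝ) ^ (g * n + (g + b) * (r + 1)) := by positivity
  have h6 : 0 ≤ Ca * ((T.Q : ℝ) ^ (b * (n + 1)) / (w + 1)) := mul_nonneg (by linarith) h4
  have h7 : 0 ≤ Cb * (T.Q : ℝ) ^ (g * n + (g + b) * (r + 1)) := mul_nonneg (by linarith) h5
  have h8 : (Cb + Ca) * ((T.Q : ℝ) ^ (b * (n + 1)) / (w + 1) +
      (T.Q : ℝ) ^ (g * n + (g + b) * (r + 1))) =
      Cb * ((T.Q : ℝ) ^ (b * (n + 1)) / (w + 1)) + Ca * ((T.Q : ℝ) ^ (b * (n + 1)) / (w + 1)) +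
      (Cb * (T.Q : ℝ) ^ (g * n + (g + b) * (r + 1)) +
        Ca * (T.Q : ℝ) ^ (g * n + (g + b) * (r + 1))) := by ring
  rw [h8]
  linarith

theorem psAll (n r : ℕ) (hn : r + 2 ≤ n) : ∃ C : ℝ, 1 ≤ C ∧ ∀ (b g : ℕ) (x : Vc n O),
    x ∈ T.GG n b g →
    ∑ y ∈ (T.GG n b g).filter (fun y => ¬ Prp x y), (T.nD b x y : ℝ) ^ r ≤
      C * ((T.Q : ℝ) ^ (b * (n + 1)) + (T.Q : ℝ) ^ (g * n + (g + b) * (r + 1))) := by
  obtain ⟨Cb, hCb, hb⟩ := T.beta n r hn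
  obtain ⟨Ca, hCa, ha⟩ := T.alpha n r
  refine ⟨Cb + Ca, by linarith, fun b g x hx => ?_⟩
  have h1 := T.PairSum_gen (r := r) (w := 0) (x := x) (b := b) (g := g)
    (fun y => ¬ Prp x y)
    fun y hy hp => ⟨hp, T.nD_pos (T.PairSum_mem hx) (T.PairSum_mem hy) hp⟩
  have h2 := hb b g 0 x hx
  have h3 := ha b g x hx
  rw [Nat.cast_zero, zero_add, div_one] at h2
  have h4 : (0 : ℝ) ≤ (T.Q : ℝ) ^ (b * (n + 1)) := by positivity
  have h5 : (0 : ℝ) ≤ (T.Q : ℝ) ^ (g * n + (g + b) * (r + 1)) := by positivity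
  have h6 : 0 ≤ Ca * (T.Q : ℝ) ^ (b * (n + 1)) := mul_nonneg (by linarith) h4
  have h7 : 0 ≤ Cb * (T.Q : ℝ) ^ (g * n + (g + b) * (r + 1)) := mul_nonneg (by linarith) h5
  have h8 : (Cb + Ca) * ((T.Q : ℝ) ^ (b * (n + 1)) +
      (T.Q : ℝ) ^ (g * n + (g + b) * (r + 1))) =
      Cb * (T.Q : ℝ) ^ (b * (n + 1)) + Ca * (T.Q : ℝ) ^ (b * (n + 1)) +
      (Cb * (T.Q : ℝ) ^ (g * n + (g + b) * (r + 1)) +
        Ca * (T.Q : ℝ) ^ (g * n + (g + b) * (r + 1))) := by ring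
  rw [h8]
  linarith

end TC

end Pool.Agent.Lib.MP_1ad228_ntZ
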