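import Pool.Agent.Lib.MP_1ad228_ntZ.FM_Def
import Pool.Agent.Lib.MP_1ad228_ntZ.Tw

/-! From tensors to forms over the group `H c`: all fibres of `F ↦ polyT F` have `h c ^ LoT n d`
elements. -/

namespace Pool.Agent.Lib.MP_1ad228_ntZ

open Classical

namespace TC
variable {K O P : Type} [Field K] [CommRing O] [IsDedekindDomain O] [Algebra O K]
  [IsFractionRing O K] [CommRing P] [IsDedekindDomain P] [Algebra P K]
  [IsFractionRing P K] (T : TC K O P)

/-- Tensors over `H c` supported outside the chosen indices. -/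
private noncomputable def FM_X_BB (n d c : ℕ) : Finset (Ten n d O) :=
  Fintype.piFinset fun s => if IsRp s then {0} else T.H c

omit [IsDedekindDomain O] [IsFractionRing O K] [IsDedekindDomain P] [IsFractionRing P K] in
private theorem FM_X_mem_BB {n d c : ℕ} {b : Ten n d O} : b ∈ FM_X_BB T n d c ↔
    ∀ s, (IsRp s → b s = 0) ∧ (¬ IsRp s → b s ∈ T.H c) := by
  unfold FM_X_BB
  rw [Fintype.mem_piFinset]
  refine forall_congr' fun s => ?_
  by_cases h : IsRp s
  · rw [if_pos h, Finset.mem_singleton]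
    exact ⟨fun h1 => ⟨fun _ => h1, fun h2 => absurd h h2⟩, fun h1 => h1.1 h⟩
  · rw [if_neg h]
    exact ⟨fun h1 => ⟨fun h2 => absurd h2 h, fun _ => h1⟩, fun h1 => h1.2 h⟩

omit [IsDedekindDomain O] [IsFractionRing O K] [IsDedekindDomain P] [IsFractionRing P K] in
private theorem FM_X_card_BB (n d c : ℕ) : (FM_X_BB T n d c).card = T.h c ^ Lo n d := by
  unfold FM_X_BB
  rw [Fintype.card_piFinset]
  have h1 : ∀ s : Fin d → Fin (n + 1), (if IsRp s then ({0} : Finset O) else T.H c).card =
      if IsRp s then 1 else (T.H c).card := by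
    intro s
    split_ifs
    · rfl
    · rfl
  rw [Finset.prod_congr rfl fun s _ => h1 s, Finset.prod_ite, Finset.prod_const_one, one_mul,
    Finset.prod_const]
  rfl

private theorem FM_X_toTen_mem {n c : ℕ} (d : ℕ) {f : MvPolynomial (Fin (n + 1)) O}
    (hf : ∀ m, f.coeff m ∈ T.H c) : toTen d f ∈ T.Box n d c := by
  rw [T.mem_Box]
  intro s
  unfold Pool.Agent.Lib.MP_1ad228_ntN.toTen
  split_ifs with h
  · exact hf _
  · exact T.zero_mem_H c

private theorem FM_X_coeff_mem {n d c : ℕ} {a : Ten n d O} (ha : a ∈ T.Box n d c)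
    (m : Fin (n + 1) →₀ ℕ) : (poly a).coeff m ∈ T.H c := by
  rw [coeff_poly]
  apply T.sum_mem_H
  intro s _
  split_ifs with h
  · exact T.mem_Box.1 ha s
  · exact T.zero_mem_H c

private theorem FM_X_mkT_mem {n d c : ℕ} {α b : Ten n d O} (hα : α ∈ T.Box n d c)
    (hb : b ∈ FM_X_BB T n d c) : mkT α b ∈ T.Box n d c := by
  have hb' := (FM_X_mem_BB T).1 hb
  rw [T.mem_Box]
  intro s
  unfold Pool.Agent.Lib.MP_1ad228_ntN.mkT
  by_cases h : IsRp s
  · rw [if_pos h]
    apply T.sub_mem_H
    · exact T.mem_Box.1 hα s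
    · apply T.sum_mem_H
      intro t ht
      exact (hb' t).2 (Finset.mem_filter.1 ht).2.2
  · rw [if_neg h]
    exact (hb' s).2 h

private theorem FM_X_fib {n d : ℕ} (c : ℕ) (f : MvPolynomial (Fin (n + 1)) O) :
    ((T.Box n d c).filter fun a => poly a = f).card ≤ T.h c ^ Lo n d := by
  rw [← FM_X_card_BB T n d c]
  apply Finset.card_le_card_of_injOn (fun a : Ten n d O => fun s => if IsRp s then 0 else a s)
  · intro a ha
    rw [Finset.mem_coe, Finset.mem_filter] at ha
    rw [Finset.mem_coe, FM_X_mem_BB]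
    intro s
    refine ⟨fun h => if_pos h, fun h => ?_⟩
    show (if IsRp s then 0 else a s) ∈ _
    rw [if_neg h]
    exact T.mem_Box.1 ha.1 s
  · intro a ha a' ha' heq
    rw [Finset.mem_coe, Finset.mem_filter] at ha ha'
    have h1 : ∀ s, ¬ IsRp s → (a - a') s = 0 := by
      intro s h
      have h2 := congrFun heq s
      simp only [if_neg h] at h2
      simp only [Pi.sub_apply, h2, sub_self]
    have h2 : poly (a - a') = poly (0 : Ten n d O) := by
      rw [poly_sub, ha.2, ha'.2, sub_self]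
      have := poly_sub (0 : Ten n d O) 0
      rw [sub_self, sub_self] at this
      exact this.symm
    have h3 : a - a' = 0 := by
      rw [← toTen_poly h1, h2]
      exact toTen_poly (c := 0) (fun _ _ => rfl)
    exact sub_eq_zero.1 h3

theorem formsO_finite (n : ℕ) {r : ℕ} (d : Fin r → ℕ) (c : ℕ) :
    ({f | ∀ k, (f k).IsHomogeneous (d k) ∧ ∀ m, (f k).coeff m ∈ T.H c} :
        Set (Fin r → MvPolynomial (Fin (n + 1)) O)).Finite := by
  refine Set.Finite.subset ((T.TBox n d c).finite_toSet.image polyT) ?_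
  intro f hf
  rw [Set.mem_ofPred_eq] at hf
  refine ⟨fun k => toTen (d k) (f k), ?_, ?_⟩
  · rw [Finset.mem_coe, T.mem_TBox]
    intro k
    exact FM_X_toTen_mem T (d k) (hf k).2
  · funext k
    exact poly_toTen (hf k).1

theorem xfer (n : ℕ) {r : ℕ} (d : Fin r → ℕ) (c : ℕ)
    (S : (Fin r → MvPolynomial (Fin (n + 1)) O) → Prop) :
    ((T.TBox n d c).filter fun F => S (polyT F)).card = T.h c ^ LoT n d *
      ({f | (∀ k, (f k).IsHomogeneous (d k) ∧ ∀ m, (f k).coeff m ∈ T.H c) ∧ S f} :
        Set (Fin r → MvPolynomial (Fin (n + 1)) O)).ncard := by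
  have hfin : ({f | (∀ k, (f k).IsHomogeneous (d k) ∧ ∀ m, (f k).coeff m ∈ T.H c) ∧ S f} :
        Set (Fin r → MvPolynomial (Fin (n + 1)) O)).Finite :=
    (T.formsO_finite n d c).subset fun f hf => hf.1
  have hmem : ∀ f : Fin r → MvPolynomial (Fin (n + 1)) O, f ∈ hfin.toFinset ↔
      (∀ k, (f k).IsHomogeneous (d k) ∧ ∀ m, (f k).coeff m ∈ T.H c) ∧ S f := by
    intro f
    rw [Set.Finite.mem_toFinset, Set.mem_ofPred_eq]
  rw [Set.ncard_eq_toFinset_card _ hfin]
  apply Nat.le_antisymm
  · have himg : ((T.TBox n d c).filter fun F => S (polyT F)).image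
        (fun F : Tup n d O => polyT F) ⊆ hfin.toFinset := by
      intro f hf
      rw [Finset.mem_image] at hf
      obtain ⟨F, hF, rfl⟩ := hf
      rw [Finset.mem_filter] at hF
      rw [hmem]
      exact ⟨fun k => ⟨poly_hom (F k), FM_X_coeff_mem T (T.mem_TBox.1 hF.1 k)⟩, hF.2⟩
    refine (Finset.card_le_mul_card_image (f := fun F : Tup n d O => polyT F)
      ((T.TBox n d c).filter fun F => S (polyT F)) (T.h c ^ LoT n d) ?_).trans
      (Nat.mul_le_mul_left _ (Finset.card_le_card himg))
    intro f _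
    have hsub : (((T.TBox n d c).filter fun F => S (polyT F)).filter fun F => polyT F = f) ⊆
        (Fintype.piFinset fun k => (T.Box n (d k) c).filter fun a => poly a = f k) := by
      intro F hF
      rw [Finset.mem_filter, Finset.mem_filter] at hF
      obtain ⟨h1, h2⟩ := hF
      rw [Fintype.mem_piFinset]
      intro k
      rw [Finset.mem_filter]
      exact ⟨T.mem_TBox.1 h1.1 k, congrFun h2 k⟩
    refine (Finset.card_le_card hsub).trans ?_
    unfold Pool.Agent.Lib.MP_1ad228_ntF.LoT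
    rw [Fintype.card_piFinset, ← Finset.prod_pow_eq_pow_sum]
    exact Finset.prod_le_prod' fun k _ => FM_X_fib T c (f k)
  · have hBB : T.h c ^ LoT n d = (Fintype.piFinset fun k => FM_X_BB T n (d k) c).card := by
      rw [Fintype.card_piFinset]
      unfold Pool.Agent.Lib.MP_1ad228_ntF.LoT
      rw [← Finset.prod_pow_eq_pow_sum]
      exact Finset.prod_congr rfl fun k _ => (FM_X_card_BB T n (d k) c).symm
    rw [hBB, ← Finset.card_product]
    refine Finset.card_le_card_of_injOn
      (fun x => (fun k => mkT (toTen (d k) (x.2 k)) (x.1 k) : Tup n d O)) ?_ ?_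
    · rintro ⟨b, f⟩ hx
      rw [Finset.mem_coe, Finset.mem_product, hmem, Fintype.mem_piFinset] at hx
      obtain ⟨hb, hf⟩ := hx
      have hpT : polyT (fun k => mkT (toTen (d k) (f k)) (b k) : Tup n d O) = f := by
        funext k
        show poly (mkT (toTen (d k) (f k)) (b k)) = f k
        rw [poly_mkT (toTen_supp (f k)), poly_toTen (hf.1 k).1]
      rw [Finset.mem_coe, Finset.mem_filter, T.mem_TBox]
      refine ⟨?_, ?_⟩
      · intro k
        exact FM_X_mkT_mem T (FM_X_toTen_mem T (d k) (hf.1 k).2) (hb k)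
      · show S (polyT (fun k => mkT (toTen (d k) (f k)) (b k) : Tup n d O))
        rw [hpT]
        exact hf.2
    · rintro ⟨b, f⟩ hx ⟨b', f'⟩ hx' he
      rw [Finset.mem_coe, Finset.mem_product, hmem, Fintype.mem_piFinset] at hx hx'
      obtain ⟨hb, hf⟩ := hx
      obtain ⟨hb', hf'⟩ := hx'
      have h1 : ∀ k, toTen (d k) (f k) = toTen (d k) (f' k) ∧ b k = b' k := fun k =>
        mkT_inj (toTen_supp (f k)) (toTen_supp (f' k))
          (fun s => ((FM_X_mem_BB T).1 (hb k) s).1)
          (fun s => ((FM_X_mem_BB T).1 (hb' k) s).1) (congrFun he k)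
      have h2 : f = f' := by
        funext k
        have e1 : poly (toTen (d k) (f k)) = f k := poly_toTen (hf.1 k).1
        have e2 : poly (toTen (d k) (f' k)) = f' k := poly_toTen (hf'.1 k).1
        rw [← e1, ← e2, (h1 k).1]
      have h3 : b = b' := funext fun k => (h1 k).2
      rw [h2, h3]

/-- Base change of a tuple of forms to the field. -/
private noncomputable def FM_X_mp (n r : ℕ) (f : Fin r → MvPolynomial (Fin (n + 1)) O) :
    Fin r → MvPolynomial (Fin (n + 1)) K :=
  fun k => MvPolynomial.map (algebraMap O K) (f k)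

omit [IsDedekindDomain O] in
private theorem FM_X_mp_inj (n r : ℕ) : Function.Injective (FM_X_mp (K := K) (O := O) n r) := by
  intro f g h
  funext k
  exact MvPolynomial.map_injective (algebraMap O K) (IsFractionRing.injective O K) (congrFun h k)

omit [IsDedekindDomain O] [IsDedekindDomain P] [IsFractionRing P K] in
private theorem FM_X_lift {n d c : ℕ} {g : MvPolynomial (Fin (n + 1)) K}
    (hg : g ∈ FormsIn (T.L c) n d) : ∃ f : MvPolynomial (Fin (n + 1)) O,
      (f.IsHomogeneous d ∧ ∀ m, f.coeff m ∈ T.H c) ∧ MvPolynomial.map (algebraMap O K) f = g := by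
  obtain ⟨hh, hc⟩ := hg
  choose w hw hw' using hc
  have hinj := IsFractionRing.injective O K
  have hcoef : ∀ m, (∑ m ∈ g.support, MvPolynomial.monomial m (w m) :
      MvPolynomial (Fin (n + 1)) O).coeff m = w m := by
    intro m
    rw [MvPolynomial.coeff_sum]
    simp only [MvPolynomial.coeff_monomial]
    rw [Finset.sum_ite_eq']
    split_ifs with h
    · rfl
    · have h1 : g.coeff m = 0 := by
        rwa [MvPolynomial.notMem_support_iff] at h
      have h2 := hw' m
      rw [h1, ← map_zero (algebraMap O K)] at h2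
      exact (hinj h2).symm
  refine ⟨∑ m ∈ g.support, MvPolynomial.monomial m (w m), ⟨?_, ?_⟩, ?_⟩
  · apply MvPolynomial.IsHomogeneous.sum
    intro m hm
    apply MvPolynomial.isHomogeneous_monomial
    rw [MvPolynomial.mem_support_iff] at hm
    by_contra hne
    exact hm (hh.coeff_eq_zero hne)
  · intro m
    rw [hcoef]
    exact hw m
  · ext m
    rw [MvPolynomial.coeff_map, hcoef, hw']

omit [IsDedekindDomain O] [IsDedekindDomain P] [IsFractionRing P K] in
private theorem FM_X_img (n : ℕ) {r : ℕ} (d : Fin r → ℕ) (c : ℕ)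
    (S : (Fin r → MvPolynomial (Fin (n + 1)) K) → Prop) :
    ({f | (∀ k, f k ∈ FormsIn (T.L c) n (d k)) ∧ S f} :
        Set (Fin r → MvPolynomial (Fin (n + 1)) K)) =
      FM_X_mp (K := K) (O := O) n r '' {f | (∀ k, (f k).IsHomogeneous (d k) ∧
        ∀ m, (f k).coeff m ∈ T.H c) ∧ S (FM_X_mp (K := K) n r f)} := by
  ext g
  constructor
  · rintro ⟨hg, hS⟩
    choose f hf hfg using fun k => FM_X_lift T (hg k)
    have h1 : FM_X_mp (K := K) (O := O) n r f = g := funext hfg
    exact ⟨f, ⟨hf, by rw [h1]; exact hS⟩, h1⟩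
  · rintro ⟨f, ⟨hf, hS⟩, rfl⟩
    refine ⟨fun k => ⟨(hf k).1.map _, fun m => ?_⟩, hS⟩
    exact ⟨(f k).coeff m, (hf k).2 m, (MvPolynomial.coeff_map _ _ _).symm⟩

theorem formsK_finite (n : ℕ) {r : ℕ} (d : Fin r → ℕ) (c : ℕ) :
    ({f | ∀ k, f k ∈ FormsIn (T.L c) n (d k)} :
        Set (Fin r → MvPolynomial (Fin (n + 1)) K)).Finite := by
  have h := FM_X_img T n d c (fun _ => True)
  have h1 : ({f | ∀ k, f k ∈ FormsIn (T.L c) n (d k)} :
      Set (Fin r → MvPolynomial (Fin (n + 1)) K)) =
      {f | (∀ k, f k ∈ FormsIn (T.L c) n (d k)) ∧ True} := by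
    ext f
    exact ⟨fun hf => ⟨hf, trivial⟩, fun hf => hf.1⟩
  rw [h1, h]
  exact Set.Finite.image _ ((T.formsO_finite n d c).subset fun f hf => hf.1)

theorem xferK (n : ℕ) {r : ℕ} (d : Fin r → ℕ) (c : ℕ)
    (S : (Fin r → MvPolynomial (Fin (n + 1)) K) → Prop) :
    ((T.TBox n d c).filter fun F => S (polyK K F)).card = T.h c ^ LoT n d *
      ({f | (∀ k, f k ∈ FormsIn (T.L c) n (d k)) ∧ S f} :
        Set (Fin r → MvPolynomial (Fin (n + 1)) K)).ncard := by
  rw [FM_X_img T n d c S, Set.ncard_image_of_injective _ (FM_X_mp_inj n r)]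
  exact T.xfer n d c fun f => S (FM_X_mp (K := K) n r f)

end TC

end Pool.Agent.Lib.MP_1ad228_ntZ
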