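import Pool.Agent.Lib.MP_1ad228_ntZ.Tw

/-!
LEAF BEx (borderline case).  A finite set of obstructions to rounding modulo a subspace.
Notation: `N = {v : ι → K | v_i = g_i + s^k p_i, g_i ∈ O, p_i ∈ P}`, an additive subgroup of `ι → K`.
(1) `(ι → K) / N` is finite: enough for one coordinate: by `T.rnd` every `u ∈ K` is `g + t^c1 p`, so modulo `N` it is `t^c1 p`, and `p, p' ∈ P` with `p - p' ∈ (s^(c1+k))` give the same class; `P/(s^(c1+k))` is finite (`T.finP`).
(2) Let `X` be the additive group of characters `(ι → K) →+ AddCircle (1 : ℚ)` (or `CharacterModule`) which are trivial on `N`: finite.  For a character `χ ≠ 0` put `χ_i (u) = χ (Pi.single i u)`, an element of the `K`-vector space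
`M = (K →+ AddCircle (1:ℚ))` with `(z χ)(u) = χ (z u)` (Mathlib: `CharacterModule K` is a `K`-module).  Some `χ_i ≠ 0`; there is a `K`-linear map `λ : M → K` with `λ (χ_i) ≠ 0` (`exists_dual_forall_apply_eq_zero`-type lemmas; `Module.exists_dual_ne_zero`/`Submodule.exists_le_ker_of_lt_top`);
`τ^χ := (λ χ_i)_i ≠ 0`.  `TT` = the set of all `τ^χ`.
(3) Let `R` be a `K`-subspace such that `R + N` is not everything.  There is a nonzero character of the quotient `(ι → K)/(R + N)` (`CharacterModule.exists_character_apply_ne_zero_of_ne_zero`), so `χ ≠ 0` in `X`, trivial on `R`.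
For `c ∈ R` and `z ∈ K`: `z c ∈ R`, so `∑ χ_i (z c_i) = 0`, that is `∑ c_i χ_i = 0` in `M`; apply `λ`: `∑ τ_i c_i = 0`.  So `τ^χ` violates the hypothesis.
-/

namespace Pool.Agent.Lib.MP_1ad228_ntZ

open Classical

namespace TC
variable {K O P : Type} [Field K] [CommRing O] [IsDedekindDomain O] [Algebra O K]
  [IsFractionRing O K] [CommRing P] [IsDedekindDomain P] [Algebra P K]
  [IsFractionRing P K] (T : TC K O P)

/-- The vectors `g + s ^ k * p` (rounding errors). -/
private def BEx_N (ι : Type) (k : ℕ) : AddSubgroup (ι → K) where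
  carrier := {v | ∃ (g : ι → O) (p : ι → P),
    ∀ i, v i = algebraMap O K (g i) + algebraMap P K (T.s ^ k * p i)}
  add_mem' := by
    rintro v w ⟨g, p, h⟩ ⟨g', p', h'⟩
    refine ⟨fun i => g i + g' i, fun i => p i + p' i, fun i => ?_⟩
    rw [Pi.add_apply, h, h', mul_add, map_add, map_add]
    ring
  zero_mem' := ⟨fun _ => 0, fun _ => 0, fun i => by simp⟩
  neg_mem' := by
    rintro v ⟨g, p, h⟩
    refine ⟨fun i => -g i, fun i => -p i, fun i => ?_⟩
    rw [Pi.neg_apply, h, mul_neg, map_neg, map_neg]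
    ring

omit [IsDedekindDomain O] [IsFractionRing O K] [IsDedekindDomain P] [IsFractionRing P K] in
private theorem BEx_mem {ι : Type} {k : ℕ} {v : ι → K} :
    v ∈ T.BEx_N ι k ↔ ∃ (g : ι → O) (p : ι → P),
      ∀ i, v i = algebraMap O K (g i) + algebraMap P K (T.s ^ k * p i) := Iff.rfl

private theorem BEx_fin (ι : Type) [Fintype ι] (k : ℕ) : Finite ((ι → K) ⧸ T.BEx_N ι k) := by
  obtain ⟨I, hI⟩ : ∃ I : Ideal P, I = Ideal.span {T.s ^ (T.c1 + k)} := ⟨_, rfl⟩
  have hI0 : I ≠ ⊥ := by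
    rw [hI]
    intro h
    rw [Ideal.span_singleton_eq_bot] at h
    exact pow_ne_zero _ T.s_ne' h
  have hfin : Finite (P ⧸ I) := T.finP I hI0
  let f : (ι → P ⧸ I) → (ι → K) ⧸ T.BEx_N ι k := fun q =>
    QuotientAddGroup.mk fun i =>
      algebraMap O K T.t ^ T.c1 * algebraMap P K (Function.surjInv Ideal.Quotient.mk_surjective (q i))
  refine Finite.of_surjective f ?_
  intro x
  obtain ⟨v, rfl⟩ := QuotientAddGroup.mk_surjective x
  choose g p hp using fun i => T.rnd (v i)
  refine ⟨fun i => Ideal.Quotient.mk I (p i), ?_⟩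
  rw [QuotientAddGroup.eq]
  have h1 : ∀ i, ∃ w : P, p i - Function.surjInv Ideal.Quotient.mk_surjective
      (Ideal.Quotient.mk I (p i)) = T.s ^ (T.c1 + k) * w := by
    intro i
    have h2 : p i - Function.surjInv Ideal.Quotient.mk_surjective
        (Ideal.Quotient.mk I (p i)) ∈ I := Ideal.Quotient.eq.1
      (Function.surjInv_eq Ideal.Quotient.mk_surjective (Ideal.Quotient.mk I (p i))).symm
    have h3 : ∀ x ∈ I, ∃ w : P, x = T.s ^ (T.c1 + k) * w := by
      intro x hx
      rw [hI, Ideal.mem_span_singleton] at hx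
      exact hx
    exact h3 _ h2
  choose w hw using h1
  refine ⟨g, w, fun i => ?_⟩
  have hts : algebraMap O K T.t ^ T.c1 * algebraMap P K T.s ^ T.c1 = 1 := by
    rw [← mul_pow, T.ts, one_pow]
  have h2 := congrArg (algebraMap P K) (hw i)
  rw [map_sub, map_mul, map_pow, pow_add] at h2
  rw [Pi.add_apply, Pi.neg_apply, map_mul, map_pow]
  linear_combination (v i - algebraMap O K (g i)) * (-hts) +
    algebraMap O K T.t ^ T.c1 * (-hp i) + algebraMap O K T.t ^ T.c1 * h2 +
    (algebraMap P K T.s ^ k * algebraMap P K (w i)) * hts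

/-- The largest subspace in an additive subgroup. -/
private def BEx_W {ι : Type} (U : AddSubgroup (ι → K)) : Submodule K (ι → K) where
  carrier := {v | ∀ z : K, z • v ∈ U}
  add_mem' := fun {v w} hv hw z => by
    rw [smul_add]
    exact U.add_mem (hv z) (hw z)
  zero_mem' := fun z => by
    rw [smul_zero]
    exact U.zero_mem
  smul_mem' := fun c v hv z => by
    rw [smul_smul]
    exact hv _

private theorem BEx_dual {ι : Type} [Fintype ι] {U : AddSubgroup (ι → K)} (hU : U ≠ ⊤) :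
    ∃ τ : ι → K, τ ≠ 0 ∧ ∀ c : ι → K, (∀ z : K, z • c ∈ U) → ∑ i, τ i * c i = 0 := by
  have h1 : BEx_W U < ⊤ := by
    rw [lt_top_iff_ne_top]
    intro h
    apply hU
    rw [eq_top_iff]
    intro v _
    have h2 : v ∈ BEx_W U := by
      rw [h]
      exact Submodule.mem_top
    have h3 := h2 1
    rwa [one_smul] at h3
  obtain ⟨f, hf, hfU⟩ := Submodule.exists_le_ker_of_lt_top _ h1
  have hfe : ∀ c : ι → K, ∑ i, f (Pi.single i 1) * c i = f c := by
    intro c
    rw [LinearMap.pi_apply_eq_sum_univ f c]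
    refine Finset.sum_congr rfl fun i _ => ?_
    have h2 : (Pi.single i 1 : ι → K) = fun j => if i = j then 1 else 0 := by
      funext j
      rw [Pi.single_apply]
      simp only [eq_comm]
    rw [smul_eq_mul, mul_comm, h2]
  refine ⟨fun i => f (Pi.single i 1), fun h0 => hf ?_, fun c hc => ?_⟩
  · refine LinearMap.ext fun c => ?_
    rw [← hfe c, LinearMap.zero_apply]
    refine Finset.sum_eq_zero fun i _ => ?_
    have h2 : f (Pi.single i 1) = 0 := congrFun h0 i
    rw [h2, zero_mul]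
  · rw [hfe c]
    exact LinearMap.mem_ker.1 (hfU (show c ∈ BEx_W U from hc))

include T in
theorem exSet (ι : Type) [Fintype ι] (k : ℕ) : ∃ TT : Set (ι → K), TT.Finite ∧ (0 : ι → K) ∉ TT ∧
    ∀ R : Submodule K (ι → K), (∀ τ ∈ TT, ∃ c ∈ R, ∑ i, τ i * c i ≠ 0) →
      ∀ r : ι → K, ∃ c ∈ R, ∃ (g : ι → O) (p : ι → P),
        ∀ i, r i = c i + algebraMap O K (g i) + algebraMap P K (T.s ^ k * p i) := by
  have hfin := T.BEx_fin ι k
  obtain ⟨Q, hQ⟩ : ∃ Q : AddSubgroup ((ι → K) ⧸ T.BEx_N ι k) → (ι → K),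
      ∀ S, S ≠ ⊤ → Q S ≠ 0 ∧ ∀ c : ι → K,
        (∀ z : K, z • c ∈ S.comap (QuotientAddGroup.mk' (T.BEx_N ι k))) →
          ∑ i, Q S i * c i = 0 := by
    have h1 : ∀ S : AddSubgroup ((ι → K) ⧸ T.BEx_N ι k), ∃ τ : ι → K,
        S ≠ ⊤ → τ ≠ 0 ∧ ∀ c : ι → K,
          (∀ z : K, z • c ∈ S.comap (QuotientAddGroup.mk' (T.BEx_N ι k))) →
            ∑ i, τ i * c i = 0 := by
      intro S
      by_cases hS : S = ⊤
      · exact ⟨0, fun h => absurd hS h⟩
      · have h2 : S.comap (QuotientAddGroup.mk' (T.BEx_N ι k)) ≠ ⊤ := by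
          intro h
          apply hS
          rw [eq_top_iff]
          intro x _
          obtain ⟨v, rfl⟩ := QuotientAddGroup.mk_surjective x
          have h3 : v ∈ S.comap (QuotientAddGroup.mk' (T.BEx_N ι k)) := by
            rw [h]
            exact AddSubgroup.mem_top v
          exact h3
        obtain ⟨τ, h3, h4⟩ := BEx_dual h2
        exact ⟨τ, fun _ => ⟨h3, h4⟩⟩
    choose Q hQ using h1
    exact ⟨Q, hQ⟩
  refine ⟨Q '' {S | S ≠ ⊤}, (Set.toFinite _).image _, ?_, ?_⟩
  · rintro ⟨S, hS, h0⟩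
    exact (hQ S hS).1 h0
  · intro R hR r
    have htop : R.toAddSubgroup.map (QuotientAddGroup.mk' (T.BEx_N ι k)) = ⊤ := by
      by_contra hne
      obtain ⟨c, hc, hc0⟩ := hR _ ⟨_, hne, rfl⟩
      apply hc0
      refine (hQ _ hne).2 c fun z => ?_
      exact ⟨z • c, R.smul_mem z hc, rfl⟩
    have h1 : (QuotientAddGroup.mk' (T.BEx_N ι k)) r ∈
        R.toAddSubgroup.map (QuotientAddGroup.mk' (T.BEx_N ι k)) := by
      rw [htop]
      exact AddSubgroup.mem_top _
    obtain ⟨c, hc, hcr⟩ := h1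
    have h2 : -c + r ∈ T.BEx_N ι k := QuotientAddGroup.eq.1 hcr
    obtain ⟨g, p, hgp⟩ := T.BEx_mem.1 h2
    refine ⟨c, hc, g, p, fun i => ?_⟩
    have h3 := hgp i
    rw [Pi.add_apply, Pi.neg_apply] at h3
    linear_combination h3

/-- The finite set of obstructions for pairs of bases. -/
noncomputable def TT (n k : ℕ) : Set (Fin n × Fin n → K) := (T.exSet (Fin n × Fin n) k).choose

/-- The pair of bases `(f, g)` is exceptional. -/
def ExcB {n : ℕ} (k : ℕ) (f g : Fin n → Vc n O) : Prop :=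
  ∃ τ ∈ T.TT n k, ∃ E : Fin (n + 1) → Fin (n + 1) → K, (∀ i j, E i j = E j i) ∧
    ∀ i j, τ (i, j) = ∑ a, ∑ b, algebraMap O K (f i a) * E a b * algebraMap O K (g j b)

end TC

end Pool.Agent.Lib.MP_1ad228_ntZ
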