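import Pool.Agent.Lib.MP_1ad228_ntZ.Surj

/-!
LEAF Equi.  Tuples in a box are exactly uniform modulo an ideal.
`fin_unif` with `S = T.TBox n d a`, `φ = red I` (all entries by surjC with the other ideal `⊤`); for the second chart the map `F ↦ red J (ftw a F)` is additive only on the box: apply `fin_unif` to the image
finset of the twisted tuples (`(T.TBox n d a).image (T.ftw a)`, `ftw a` is injective on the box), a finite group in `Tup n d P`.
-/

namespace Pool.Agent.Lib.MP_1ad228_ntZ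

open Classical

namespace TC
variable {K O P : Type} [Field K] [CommRing O] [IsDedekindDomain O] [Algebra O K]
  [IsFractionRing O K] [CommRing P] [IsDedekindDomain P] [Algebra P K]
  [IsFractionRing P K] (T : TC K O P)

private theorem Equi_card {n r : ℕ} (d : Fin r → ℕ) {R : Type} [CommRing R] (I : Ideal R) :
    Nat.card (Tup n d (R ⧸ I)) = nI I ^ VV n d := by
  unfold VV nI
  rw [← Finset.prod_pow_eq_pow_sum]
  show Nat.card ((i : Fin r) → (Fin (d i) → Fin (n + 1)) → R ⧸ I) = _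
  rw [Nat.card_pi]
  refine Finset.prod_congr rfl fun i _ => ?_
  rw [Nat.card_fun, Nat.card_fun, Nat.card_fin, Nat.card_fin]

private theorem Equi_fin {n r : ℕ} (d : Fin r → ℕ) {R : Type} [CommRing R] (I : Ideal R)
    (h : Finite (R ⧸ I)) : Finite (Tup n d (R ⧸ I)) := by
  show Finite ((i : Fin r) → (Fin (d i) → Fin (n + 1)) → R ⧸ I)
  infer_instance

/-- The reduction of tuples as a homomorphism. -/
private def Equi_red {n r : ℕ} (d : Fin r → ℕ) {R : Type} [CommRing R] (I : Ideal R) :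
    Tup n d R →+ Tup n d (R ⧸ I) :=
  AddMonoidHom.mk' (red I) fun F G => by
    funext i s
    exact map_add (Ideal.Quotient.mk I) (F i s) (G i s)

private theorem Equi_mem {n r : ℕ} {d : Fin r → ℕ} {a : ℕ} {F : Tup n d O} :
    F ∈ T.TBox n d a ↔ ∀ i s, F i s ∈ T.H a := by
  rw [T.mem_TBox]
  exact forall_congr' fun i => T.mem_Box

private theorem Equi_zero {n r : ℕ} {d : Fin r → ℕ} {a : ℕ} : (0 : Tup n d O) ∈ T.TBox n d a :=
  (Equi_mem T).2 fun _ _ => T.zero_mem_H a

private theorem Equi_sub {n r : ℕ} {d : Fin r → ℕ} {a : ℕ} {F G : Tup n d O}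
    (hF : F ∈ T.TBox n d a) (hG : G ∈ T.TBox n d a) : F - G ∈ T.TBox n d a :=
  (Equi_mem T).2 fun i s => T.sub_mem_H ((Equi_mem T).1 hF i s) ((Equi_mem T).1 hG i s)

theorem equiO (n : ℕ) {r : ℕ} (d : Fin r → ℕ) {I : Ideal O} (hI : I ≠ ⊥) {a : ℕ}
    (ha : T.C1 * nI I ≤ T.Q ^ a) (S : Set (Tup n d (O ⧸ I))) :
    ((T.TBox n d a).filter fun F => red I F ∈ S).card * nI I ^ VV n d =
      (T.TBox n d a).card * S.ncard := by
  have : Finite (O ⧸ I) := T.finO I hI
  have : Finite (Tup n d (O ⧸ I)) := Equi_fin d I inferInstance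
  have hs : ∀ y : Tup n d (O ⧸ I), ∃ x ∈ T.TBox n d a, Equi_red d I x = y := by
    intro y
    have h1 : ∀ i s, ∃ w ∈ T.H a, Ideal.Quotient.mk I w = y i s := by
      intro i s
      obtain ⟨α, hα⟩ := Ideal.Quotient.mk_surjective (y i s)
      obtain ⟨w, hw, hw1, -⟩ := T.surjC (c := a) (J := ⊤) hI top_ne_bot
        (by rw [nI_top, mul_one]; exact ha) α 0
      exact ⟨w, hw, by rw [← hα]; exact Ideal.Quotient.eq.2 hw1⟩
    choose F hF hF' using h1
    refine ⟨F, (Equi_mem T).2 hF, ?_⟩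
    funext i s
    exact hF' i s
  have h2 := fin_unif (T.TBox n d a) (Equi_zero T) (fun x hx y hy => Equi_sub T hx hy)
    (Equi_red d I) hs S
  rw [Equi_card] at h2
  exact h2

theorem ftw_inj (n : ℕ) {r : ℕ} (d : Fin r → ℕ) {a : ℕ} {F G : Tup n d O}
    (hF : F ∈ T.TBox n d a) (hG : G ∈ T.TBox n d a) (h : T.ftw a F = T.ftw a G) : F = G := by
  funext i s
  have h1 : T.tw a (F i s) = T.tw a (G i s) := congrFun (congrFun h i) s
  have hf := (Equi_mem T).1 hF i s
  have hg := (Equi_mem T).1 hG i s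
  have h2 : T.tw a (F i s - G i s) = 0 := by rw [T.tw_sub hf hg, h1, sub_self]
  exact sub_eq_zero.1 ((T.tw_eq_zero (T.sub_mem_H hf hg)).1 h2)

theorem equiP (n : ℕ) {r : ℕ} (d : Fin r → ℕ) {J : Ideal P} (hJ : J ≠ ⊥) {a : ℕ}
    (ha : T.C1 * nI J ≤ T.Q ^ a) (S : Set (Tup n d (P ⧸ J))) :
    ((T.TBox n d a).filter fun F => red J (T.ftw a F) ∈ S).card * nI J ^ VV n d =
      (T.TBox n d a).card * S.ncard := by
  have : Finite (P ⧸ J) := T.finP J hJ
  have : Finite (Tup n d (P ⧸ J)) := Equi_fin d J inferInstance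
  have hinj : Set.InjOn (T.ftw a) (T.TBox n d a : Set (Tup n d O)) := fun F hF G hG h =>
    T.ftw_inj n d hF hG h
  have hs : ∀ y : Tup n d (P ⧸ J), ∃ x ∈ (T.TBox n d a).image (T.ftw a), Equi_red d J x = y := by
    intro y
    have h1 : ∀ i s, ∃ w ∈ T.H a, Ideal.Quotient.mk J (T.tw a w) = y i s := by
      intro i s
      obtain ⟨β, hβ⟩ := Ideal.Quotient.mk_surjective (y i s)
      obtain ⟨w, hw, -, hw1⟩ := T.surjC (c := a) (I := ⊤) top_ne_bot hJ
        (by rw [nI_top, one_mul]; exact ha) 0 β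
      exact ⟨w, hw, by rw [← hβ]; exact Ideal.Quotient.eq.2 hw1⟩
    choose F hF hF' using h1
    refine ⟨T.ftw a F, Finset.mem_image_of_mem _ ((Equi_mem T).2 hF), ?_⟩
    funext i s
    exact hF' i s
  have h0 : (0 : Tup n d P) ∈ (T.TBox n d a).image (T.ftw a) := by
    refine Finset.mem_image.2 ⟨0, Equi_zero T, ?_⟩
    funext i s
    exact T.tw_zero a
  have hsub : ∀ x ∈ (T.TBox n d a).image (T.ftw a), ∀ y ∈ (T.TBox n d a).image (T.ftw a),
      x - y ∈ (T.TBox n d a).image (T.ftw a) := by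
    intro x hx y hy
    obtain ⟨F, hF, rfl⟩ := Finset.mem_image.1 hx
    obtain ⟨G, hG, rfl⟩ := Finset.mem_image.1 hy
    refine Finset.mem_image.2 ⟨F - G, Equi_sub T hF hG, ?_⟩
    funext i s
    exact T.tw_sub ((Equi_mem T).1 hF i s) ((Equi_mem T).1 hG i s)
  have h2 := fin_unif ((T.TBox n d a).image (T.ftw a)) h0 hsub (Equi_red d J) hs S
  rw [Equi_card, Finset.card_image_of_injOn hinj, Finset.filter_image,
    Finset.card_image_of_injOn (hinj.mono fun x hx => (Finset.mem_filter.1 hx).1)] at h2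
  exact h2

end TC

end Pool.Agent.Lib.MP_1ad228_ntZ
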