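import Pool.Agent.Lib.MP_1ad228_ntZ.Low
import Pool.Agent.Lib.MP_1ad228_ntZ.Equi

/-!
LEAF BLow (borderline case).  The points which are not good, in the mean over the tuples.
low_cntB: the proof of low_cnt (Low.lean) with `RR` in place of the number of all points which are not good (the points of the classes which are unimodular in both charts but not good satisfy the local conditions).
markB: exchange the sums; for `x ∈ VB n b` unimodular in both charts the number of `F` in the box with all `ev (F i) x ∈ MS w (a + d_i b)` is exactly `#TBox / NW^r`: the map `G ↦ (class of ev G x modulo WD O w, class of tw (a + d b) (ev G x) = ev (ttw a G) (vtw b x) modulo WD P w)`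
from `Box n d a` to `O/WD × P/WD` is additive and onto: by ev_onto choose tensors over `O/WD` and `P/WD` with the given values and lift all entries simultaneously by surjC (`C1 * NW ≤ Q^a`); fin_unif (the second component is additive on the box only; use tw_ev).
-/

namespace Pool.Agent.Lib.MP_1ad228_ntZ

open Classical

namespace TC
variable {K O P : Type} [Field K] [CommRing O] [IsDedekindDomain O] [Algebra O K]
  [IsFractionRing O K] [CommRing P] [IsDedekindDomain P] [Algebra P K]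
  [IsFractionRing P K] (T : TC K O P)

/-- Number of points which satisfy the local conditions and are unimodular but not good. -/
noncomputable def RR {n r : ℕ} {d : Fin r → ℕ} (a b g w : ℕ) (F : Tup n d O) : ℕ :=
  ((T.VB n b).filter fun x => (Uni x ∧ Uni (T.vtw b x) ∧ ¬ T.Good g x) ∧
    ∀ i, ev (F i) x ∈ T.MS w (a + d i * b)).card

theorem low_cntB (n : ℕ) (hn : 1 ≤ n) {r : ℕ} (d : Fin r → ℕ)
    (hs : ∀ p : Ideal P, p.IsPrime → p ≠ ⊥ → T.s ∈ p) : ∃ C : ℝ, 1 ≤ C ∧
    ∀ (w a b g : ℕ) (F : Tup n d O), T.Q ≤ w → T.C1 * NW O P w ≤ T.Q ^ b →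
      F ∈ T.TBox n d a →
      ((smI (WD O w) F : ℝ) * smI (WD P w) (T.ftw a F)) *
        ((T.h b : ℝ) ^ (n + 1) / (NW O P w : ℝ) ^ (n + 1) -
          C * (((T.Q : ℝ) ^ b / (NW O P w : ℝ)) ^ (n + 1) / (w + 1) + (T.Q : ℝ) ^ b)) -
        T.RR a b g w F ≤
      (((T.GG n b g).filter fun x => ∀ i, ev (F i) x ∈ T.MS w (a + d i * b)).card : ℝ) := by
  obtain ⟨C, hC, hnon⟩ := T.nonUni n hn
  refine ⟨C, hC, fun w a b g F hw hb hF => ?_⟩
  have : Finite (O ⧸ WD O w) := T.finO _ (WD_ne_bot (T.fewO w))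
  have : Finite (P ⧸ WD P w) := T.finP _ (WD_ne_bot (T.fewP w))
  set Z := {z : Vc n (O ⧸ WD O w) // Uni z ∧ ∀ i, ev (red (WD O w) F i) z = 0} with hZ
  set Z' := {z : Vc n (P ⧸ WD P w) // Uni z ∧ ∀ i, ev (red (WD P w) (T.ftw a F) i) z = 0} with hZ'
  letI : Fintype Z := Fintype.ofFinite _
  letI : Fintype Z' := Fintype.ofFinite _
  have c1 : (smI (WD O w) F : ℝ) = (Fintype.card Z : ℝ) := by
    unfold smI Pool.Agent.Lib.MP_1ad228_ntN.smR
    rw [Nat.card_eq_fintype_card]
  have c2 : (smI (WD P w) (T.ftw a F) : ℝ) = (Fintype.card Z' : ℝ) := by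
    unfold smI Pool.Agent.Lib.MP_1ad228_ntN.smR
    rw [Nat.card_eq_fintype_card]
  choose ξ hξ using fun (z : Z) (i : Fin (n + 1)) =>
    Ideal.Quotient.mk_surjective (I := WD O w) (z.1 i)
  choose ξ' hξ' using fun (z : Z') (i : Fin (n + 1)) =>
    Ideal.Quotient.mk_surjective (I := WD P w) (z.1 i)
  have e1 : ∀ z : Z, (fun j => Ideal.Quotient.mk (WD O w) (ξ z j)) = z.1 :=
    fun z => funext fun j => hξ z j
  have e2 : ∀ z : Z', (fun j => Ideal.Quotient.mk (WD P w) (ξ' z j)) = z.1 :=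
    fun z => funext fun j => hξ' z j
  set D : Z × Z' → Finset (Vc n O) := fun q => T.Cls w b (ξ q.1) (ξ' q.2) with hD
  have hdisj : ∀ q q' : Z × Z', q ≠ q' → Disjoint (D q) (D q') := by
    intro q q' hqq
    rw [Finset.disjoint_left]
    intro x hx hx'
    apply hqq
    simp only [hD] at hx hx'
    rw [low_memCls] at hx hx'
    refine Prod.ext (Subtype.ext (funext fun i => ?_)) (Subtype.ext (funext fun i => ?_))
    · rw [← hξ q.1 i, ← hξ q'.1 i]
      rw [Ideal.Quotient.mk_eq_mk_iff_sub_mem]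
      have := (WD O w).sub_mem (hx'.2.1 i) (hx.2.1 i)
      have h3 : ξ q.1 i - ξ q'.1 i = x i - ξ q'.1 i - (x i - ξ q.1 i) := by ring
      rw [h3]; exact this
    · rw [← hξ' q.2 i, ← hξ' q'.2 i]
      rw [Ideal.Quotient.mk_eq_mk_iff_sub_mem]
      have := (WD P w).sub_mem (hx'.2.2 i) (hx.2.2 i)
      have h3 : ξ' q.2 i - ξ' q'.2 i = T.vtw b x i - ξ' q'.2 i - (T.vtw b x i - ξ' q.2 i) := by ring
      rw [h3]; exact this
  set A := (T.GG n b g).filter fun x => ∀ i, ev (F i) x ∈ T.MS w (a + d i * b) with hA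
  set B := (T.VB n b).filter fun x => (Uni x ∧ Uni (T.vtw b x) ∧ ¬ T.Good g x) ∧
    ∀ i, ev (F i) x ∈ T.MS w (a + d i * b) with hB
  have hsum : ∀ E : Finset (Vc n O), ∑ q : Z × Z', ((D q ∩ E).card : ℝ) ≤ (E.card : ℝ) := by
    intro E
    have h1 : (Finset.univ.biUnion fun q : Z × Z' => D q ∩ E).card =
        ∑ q : Z × Z', (D q ∩ E).card := by
      refine Finset.card_biUnion fun q _ q' _ hqq => ?_
      exact (hdisj q q' hqq).mono Finset.inter_subset_left Finset.inter_subset_left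
    have h2 : (Finset.univ.biUnion fun q : Z × Z' => D q ∩ E).card ≤ E.card := by
      refine Finset.card_le_card fun x hx => ?_
      rw [Finset.mem_biUnion] at hx
      obtain ⟨q, _, hq⟩ := hx
      exact (Finset.mem_inter.1 hq).2
    rw [h1] at h2
    exact_mod_cast h2
  have hone : ∀ q : Z × Z', (T.h b : ℝ) ^ (n + 1) / (NW O P w : ℝ) ^ (n + 1) -
      C * (((T.Q : ℝ) ^ b / (NW O P w : ℝ)) ^ (n + 1) / (w + 1) + (T.Q : ℝ) ^ b) ≤
      ((D q ∩ A).card : ℝ) + ((D q ∩ B).card : ℝ) := by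
    intro q
    obtain ⟨u, hu⟩ := low_uniLift (WD O w) (ξ q.1) (by rw [e1]; exact q.1.2.1)
    obtain ⟨u', hu'⟩ := low_uniLift (WD P w) (ξ' q.2) (by rw [e2]; exact q.2.2.1)
    have h1 := hnon w b (ξ q.1) u (ξ' q.2) hu
    have h2 : (D q).card ≤ (D q ∩ A).card + (D q ∩ B).card +
        ((D q).filter fun x => ¬ Uni x).card := by
      have : D q ⊆ ((D q ∩ A) ∪ (D q ∩ B)) ∪ (D q).filter fun x => ¬ Uni x := by
        intro x hx
        rw [Finset.mem_union, Finset.mem_union]
        by_cases hU : Uni x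
        · left
          have hxC : x ∈ T.Cls w b (ξ q.1) (ξ' q.2) := hx
          have hxV : x ∈ T.VB n b := (T.low_memCls.1 hxC).1
          have hUP : Uni (T.vtw b x) := T.uniP hw hs hu' hxC
          have hMS : ∀ i, ev (F i) x ∈ T.MS w (a + d i * b) := by
            refine fun i => T.low_evCls hF (fun k => ?_) (fun k => ?_) hxC i
            · rw [e1]; exact q.1.2.2 k
            · rw [e2]; exact q.2.2.2 k
          by_cases hG : T.Good g x
          · left
            refine Finset.mem_inter.2 ⟨hx, ?_⟩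
            rw [hA, Finset.mem_filter]
            refine ⟨?_, hMS⟩
            unfold GG
            rw [Finset.mem_filter]
            exact ⟨hxV, hU, hUP, hG⟩
          · right
            refine Finset.mem_inter.2 ⟨hx, ?_⟩
            rw [hB, Finset.mem_filter]
            exact ⟨hxV, ⟨hU, hUP, hG⟩, hMS⟩
        · right
          exact Finset.mem_filter.2 ⟨hx, hU⟩
      exact (Finset.card_le_card this).trans ((Finset.card_union_le _ _).trans
        (Nat.add_le_add_right (Finset.card_union_le _ _) _))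
    have h3 : ((D q).card : ℝ) = (T.h b : ℝ) ^ (n + 1) / (NW O P w : ℝ) ^ (n + 1) :=
      T.low_cardCls hb (ξ q.1) (ξ' q.2)
    have h2' : ((D q).card : ℝ) ≤ ((D q ∩ A).card : ℝ) + ((D q ∩ B).card : ℝ) +
        (((D q).filter fun x => ¬ Uni x).card : ℝ) := by exact_mod_cast h2
    have h1' : (((D q).filter fun x => ¬ Uni x).card : ℝ) ≤
        C * (((T.Q : ℝ) ^ b / (NW O P w : ℝ)) ^ (n + 1) / (w + 1) + (T.Q : ℝ) ^ b) := h1
    linarith
  have htot := Finset.sum_le_sum fun q (_ : q ∈ (Finset.univ : Finset (Z × Z'))) => hone q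
  rw [Finset.sum_add_distrib, Finset.sum_const, Finset.card_univ, Fintype.card_prod,
    nsmul_eq_mul, Nat.cast_mul] at htot
  have hA' := hsum A
  have hB' := hsum B
  have hRR : T.RR a b g w F = B.card := rfl
  rw [c1, c2, hRR]
  linarith

/-- Reduction of a unimodular vector. -/
private theorem BLow_uni {R S : Type} [CommRing R] [CommRing S] {n : ℕ} (f : R →+* S)
    {x : Vc n R} (h : Uni x) : Uni (fun i => f (x i)) := by
  obtain ⟨u, hu⟩ := h
  refine ⟨fun i => f (u i), ?_⟩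
  rw [← map_one f, ← hu]
  unfold Pool.Agent.Lib.MP_219881_nt.lin
  rw [map_sum]
  exact Finset.sum_congr rfl fun i _ => by rw [map_mul]

/-- The classes of the values of a pair of tensors. -/
private def BLow_φ {n d : ℕ} (I : Ideal O) (J : Ideal P) (x : Vc n O) (y : Vc n P) :
    Ten n d O × Ten n d P →+ (O ⧸ I) × (P ⧸ J) :=
  AddMonoidHom.prodMap
    (AddMonoidHom.mk' (fun G => Ideal.Quotient.mk I (ev G x)) fun G G' => by
      rw [ev_add, map_add])
    (AddMonoidHom.mk' (fun G => Ideal.Quotient.mk J (ev G y)) fun G G' => by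
      rw [ev_add, map_add])

/-- The values of the tensors of a box are uniform modulo the moduli of level `w`. -/
private theorem BLow_one {n d w a b : ℕ} (ha : T.C1 * NW O P w ≤ T.Q ^ a) {x : Vc n O}
    (hx : x ∈ T.VB n b) (hU : Uni x) (hU' : Uni (T.vtw b x)) :
    ((T.Box n d a).filter fun G => ev G x ∈ T.MS w (a + d * b)).card * NW O P w =
      (T.Box n d a).card := by
  have hI : WD O w ≠ ⊥ := WD_ne_bot (T.fewO w)
  have hJ : WD P w ≠ ⊥ := WD_ne_bot (T.fewP w)
  have : Finite (O ⧸ WD O w) := T.finO _ hI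
  have : Finite (P ⧸ WD P w) := T.finP _ hJ
  have hinj : Function.Injective fun G : Ten n d O => (G, T.ttw a G) :=
    fun G G' h => congrArg Prod.fst h
  set S : Finset (Ten n d O × Ten n d P) := (T.Box n d a).image fun G => (G, T.ttw a G) with hS
  have h0 : (0 : Ten n d O × Ten n d P) ∈ S := by
    refine Finset.mem_image.2 ⟨0, T.mem_Box.2 fun _ => T.zero_mem_H a, ?_⟩
    refine Prod.ext rfl (funext fun s => ?_)
    exact T.tw_zero a
  have hsub : ∀ p ∈ S, ∀ q ∈ S, p - q ∈ S := by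
    intro p hp q hq
    obtain ⟨G, hG, rfl⟩ := Finset.mem_image.1 hp
    obtain ⟨G', hG', rfl⟩ := Finset.mem_image.1 hq
    refine Finset.mem_image.2 ⟨G - G', T.mem_Box.2 fun s =>
      T.sub_mem_H (T.mem_Box.1 hG s) (T.mem_Box.1 hG' s), ?_⟩
    refine Prod.ext rfl (funext fun s => ?_)
    exact T.tw_sub (T.mem_Box.1 hG s) (T.mem_Box.1 hG' s)
  have hs : ∀ y, ∃ p ∈ S, BLow_φ (d := d) (WD O w) (WD P w) x (T.vtw b x) p = y := by
    intro y
    obtain ⟨G0, hG0⟩ := ev_onto d (BLow_uni (Ideal.Quotient.mk (WD O w)) hU) y.1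
    obtain ⟨G1, hG1⟩ := ev_onto d (BLow_uni (Ideal.Quotient.mk (WD P w)) hU') y.2
    have h1 : ∀ s, ∃ z ∈ T.H a, Ideal.Quotient.mk (WD O w) z = G0 s ∧
        Ideal.Quotient.mk (WD P w) (T.tw a z) = G1 s := by
      intro s
      obtain ⟨α, hα⟩ := Ideal.Quotient.mk_surjective (G0 s)
      obtain ⟨β, hβ⟩ := Ideal.Quotient.mk_surjective (G1 s)
      obtain ⟨z, hz, hz1, hz2⟩ := T.surjC (c := a) hI hJ ha α β
      exact ⟨z, hz, by rw [← hα]; exact Ideal.Quotient.eq.2 hz1, by
        rw [← hβ]; exact Ideal.Quotient.eq.2 hz2⟩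
    choose G hG hGO hGP using h1
    refine ⟨(G, T.ttw a G), Finset.mem_image_of_mem _ (T.mem_Box.2 hG), ?_⟩
    refine Prod.ext ?_ ?_
    · show Ideal.Quotient.mk (WD O w) (ev G x) = y.1
      rw [← ev_map, ← hG0]
      congr 1
      exact funext hGO
    · show Ideal.Quotient.mk (WD P w) (ev (T.ttw a G) (T.vtw b x)) = y.2
      rw [← ev_map, ← hG1]
      congr 1
      exact funext hGP
  have hScard : S.card = (T.Box n d a).card := by
    rw [hS, Finset.card_image_of_injective _ hinj]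
  have hmem : ∀ G ∈ T.Box n d a, ev G x ∈ T.MS w (a + d * b) ↔
      BLow_φ (d := d) (WD O w) (WD P w) x (T.vtw b x) (G, T.ttw a G) = 0 := by
    intro G hG
    unfold MS
    rw [mem_M, T.tw_ev hG hx]
    constructor
    · rintro ⟨-, h1, h2⟩
      exact Prod.ext (Ideal.Quotient.eq_zero_iff_mem.2 h1) (Ideal.Quotient.eq_zero_iff_mem.2 h2)
    · intro h1
      have h2 := Prod.ext_iff.1 h1
      exact ⟨T.ev_mem hG hx, Ideal.Quotient.eq_zero_iff_mem.1 h2.1,
        Ideal.Quotient.eq_zero_iff_mem.1 h2.2⟩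
  obtain ⟨A, hA⟩ : ∃ A : Set ((O ⧸ WD O w) × (P ⧸ WD P w)), A = {0} := ⟨_, rfl⟩
  have hA1 : A.ncard = 1 := by rw [hA, Set.ncard_singleton]
  have hA2 : ∀ y, y ∈ A ↔ y = 0 := fun y => by rw [hA, Set.mem_singleton_iff]
  have key := fin_unif S h0 hsub (BLow_φ (d := d) (WD O w) (WD P w) x (T.vtw b x)) hs A
  rw [hA1, mul_one, Nat.card_prod, hScard] at key
  rw [← key]
  refine congrArg (· * NW O P w) ?_
  refine Finset.card_bij (fun G _ => (G, T.ttw a G)) ?_ ?_ ?_
  · intro G hG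
    obtain ⟨hG1, hG2⟩ := Finset.mem_filter.1 hG
    rw [Finset.mem_filter]
    exact ⟨Finset.mem_image_of_mem _ hG1, (hA2 _).2 ((hmem G hG1).1 hG2)⟩
  · intro G _ G' _ h
    exact congrArg Prod.fst h
  · intro p hp
    rw [Finset.mem_filter] at hp
    obtain ⟨hp1, hp2⟩ := hp
    obtain ⟨G, hG, rfl⟩ := Finset.mem_image.1 hp1
    exact ⟨G, Finset.mem_filter.2 ⟨hG, (hmem G hG).2 ((hA2 _).1 hp2)⟩, rfl⟩

/-- The same for tuples. -/
private theorem BLow_tup {n r : ℕ} (d : Fin r → ℕ) {w a b : ℕ}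
    (ha : T.C1 * NW O P w ≤ T.Q ^ a) {x : Vc n O}
    (hx : x ∈ T.VB n b) (hU : Uni x) (hU' : Uni (T.vtw b x)) :
    ((T.TBox n d a).filter fun F => ∀ i, ev (F i) x ∈ T.MS w (a + d i * b)).card *
      NW O P w ^ r = (T.TBox n d a).card := by
  have h1 : ((T.TBox n d a).filter fun F => ∀ i, ev (F i) x ∈ T.MS w (a + d i * b)) =
      Fintype.piFinset fun i => (T.Box n (d i) a).filter fun G =>
        ev G x ∈ T.MS w (a + d i * b) := by
    ext F
    unfold TBox
    simp only [Finset.mem_filter, Fintype.mem_piFinset]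
    exact ⟨fun h i => ⟨h.1 i, h.2 i⟩, fun h => ⟨fun i => (h i).1, fun i => (h i).2⟩⟩
  have h2 : NW O P w ^ r = ∏ _i : Fin r, NW O P w := by
    rw [Finset.prod_const, Finset.card_univ, Fintype.card_fin]
  rw [h1, Fintype.card_piFinset, h2, ← Finset.prod_mul_distrib]
  unfold TBox
  rw [Fintype.card_piFinset]
  exact Finset.prod_congr rfl fun i _ => T.BLow_one ha hx hU hU'

theorem markB {n : ℕ} {r : ℕ} (d : Fin r → ℕ) {w a b g : ℕ}
    (ha : T.C1 * NW O P w ≤ T.Q ^ a) :
    (∑ F ∈ T.TBox n d a, T.RR a b g w F) * NW O P w ^ r ≤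
      ((T.VB n b).filter fun x => ¬ T.Good g x).card * (T.TBox n d a).card := by
  have h1 : ∑ F ∈ T.TBox n d a, T.RR a b g w F =
      ∑ x ∈ (T.VB n b).filter (fun x => Uni x ∧ Uni (T.vtw b x) ∧ ¬ T.Good g x),
        ((T.TBox n d a).filter fun F => ∀ i, ev (F i) x ∈ T.MS w (a + d i * b)).card := by
    have h2 := Finset.sum_card_bipartiteAbove_eq_sum_card_bipartiteBelow
      (s := T.TBox n d a) (t := (T.VB n b).filter fun x => Uni x ∧ Uni (T.vtw b x) ∧
        ¬ T.Good g x) (fun F x => ∀ i, ev (F i) x ∈ T.MS w (a + d i * b))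
    refine Eq.trans (Finset.sum_congr rfl fun F _ => ?_) h2
    unfold RR Finset.bipartiteAbove
    rw [Finset.filter_filter]
  rw [h1, Finset.sum_mul, Finset.sum_congr rfl fun x hx => T.BLow_tup d ha
    (Finset.mem_filter.1 hx).1 (Finset.mem_filter.1 hx).2.1 (Finset.mem_filter.1 hx).2.2.1,
    Finset.sum_const, smul_eq_mul]
  refine Nat.mul_le_mul_right _ (Finset.card_le_card fun x hx => ?_)
  rw [Finset.mem_filter] at hx ⊢
  exact ⟨hx.1, hx.2.2.2⟩

end TC

end Pool.Agent.Lib.MP_1ad228_ntZ
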