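import Pool.Agent.Lib.MP_1ad228_ntZ.BEx
import Pool.Agent.Lib.MP_1ad228_ntZ.N2

/-!
LEAF BPair (borderline case).  Non exceptional pairs: prescribed values at level `a`, `2 g ≤ a + k`.
Degree 2: a tensor is `G : (Fin 2 → Fin (n+1)) → O`, `ev G x = ∑ s, G s * x (s 0) * x (s 1)`.
pair_surjB.  Let `G` over `O` and `G'` over `P` have the values `(m, m')` resp. the twisted values (definition of Lam).  `b := G - t^a G'` (entries in `K`) vanishes at `x` and at `y`.
(1) Over `K`: `b = ∑ a_ij (e_i ⊗ e_j - e_j ⊗ e_i) + ∑ r_st f_s ⊗ f'_t`.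
(2) If `τ` vanishes on the `c` with `∑ c_st f_s ⊗ f'_t` alternating, then `τ_st = ∑ E_ij f_s(i) f'_t(j)` with `E` symmetric.
(3) Rounding of the coefficients.
sl_goodB: as sl_good (N2).
-/

namespace Pool.Agent.Lib.MP_1ad228_ntZ

open Classical
open Pool.Agent.Lib.MP_1ad228_ntN (perpSpanF)

set_option linter.unusedSectionVars false

section lina
variable {K : Type} [Field K] {n : ℕ}

/-- product matrix -/
private def BPair_ot (u v : Vc n K) : Fin (n + 1) → Fin (n + 1) → K := fun i j => u i * v j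

variable (K n) in
/-- alternating matrices -/
private def BPair_Alt : Submodule K (Fin (n + 1) → Fin (n + 1) → K) where
  carrier := {A | (∀ i, A i i = 0) ∧ ∀ i j, A i j + A j i = 0}
  zero_mem' := ⟨fun i => rfl, fun i j => add_zero _⟩
  add_mem' := by
    rintro A B ⟨h1, h2⟩ ⟨h3, h4⟩
    refine ⟨fun i => ?_, fun i j => ?_⟩
    · show A i i + B i i = 0
      rw [h1, h3, add_zero]
    · show A i j + B i j + (A j i + B j i) = 0
      linear_combination h2 i j + h4 i j
  smul_mem' := by
    rintro c A ⟨h1, h2⟩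
    refine ⟨fun i => ?_, fun i j => ?_⟩
    · show c * A i i = 0
      rw [h1, mul_zero]
    · show c * A i j + c * A j i = 0
      linear_combination c * h2 i j

private theorem BPair_dec {X Y : Vc n K} {i0 j0 : Fin (n + 1)}
    (hD : X i0 * Y j0 - X j0 * Y i0 ≠ 0) (W : Submodule K (Fin (n + 1) → Fin (n + 1) → K))
    (hW : ∀ u v : Vc n K, lin u X = 0 → lin v Y = 0 → BPair_ot u v ∈ W)
    (B : Fin (n + 1) → Fin (n + 1) → K) (hX : ∑ i, ∑ j, B i j * (X i * X j) = 0)
    (hY : ∑ i, ∑ j, B i j * (Y i * Y j) = 0) : B ∈ BPair_Alt K n ⊔ W := by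
  set D : K := X i0 * Y j0 - X j0 * Y i0 with hDdef
  let e : Fin (n + 1) → Vc n K := fun i => Pi.single i 1
  let p : Vc n K := D⁻¹ • (Y j0 • e i0 - Y i0 • e j0)
  let r : Vc n K := D⁻¹ • (X i0 • e j0 - X j0 • e i0)
  have hpx : lin p X = 1 := by
    show lin (D⁻¹ • (Y j0 • e i0 - Y i0 • e j0)) X = 1
    rw [lin_smul, lin_sub, lin_smul, lin_smul, lin_single, lin_single]
    have h1 : Y j0 * X i0 - Y i0 * X j0 = D := by ring
    rw [h1, inv_mul_cancel₀ hD]
  have hpy : lin p Y = 0 := by
    show lin (D⁻¹ • (Y j0 • e i0 - Y i0 • e j0)) Y = 0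
    rw [lin_smul, lin_sub, lin_smul, lin_smul, lin_single, lin_single]
    ring
  have hrx : lin r X = 0 := by
    show lin (D⁻¹ • (X i0 • e j0 - X j0 • e i0)) X = 0
    rw [lin_smul, lin_sub, lin_smul, lin_smul, lin_single, lin_single]
    ring
  have hry : lin r Y = 1 := by
    show lin (D⁻¹ • (X i0 • e j0 - X j0 • e i0)) Y = 1
    rw [lin_smul, lin_sub, lin_smul, lin_smul, lin_single, lin_single]
    exact inv_mul_cancel₀ hD
  clear_value p r
  let hh : Fin (n + 1) → Vc n K := fun i => e i - X i • p - Y i • r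
  have hhx : ∀ i, lin (hh i) X = 0 := by
    intro i
    show lin (e i - X i • p - Y i • r) X = 0
    rw [lin_sub, lin_sub, lin_smul, lin_smul, hpx, hrx, lin_single]
    ring
  have hhy : ∀ i, lin (hh i) Y = 0 := by
    intro i
    show lin (e i - X i • p - Y i • r) Y = 0
    rw [lin_sub, lin_sub, lin_smul, lin_smul, hpy, hry, lin_single]
    ring
  set S := BPair_Alt K n ⊔ W with hS
  have h1 : ∀ u v : Vc n K, lin u X = 0 → lin v Y = 0 → BPair_ot u v ∈ S := fun u v h h' =>
    Submodule.mem_sup_right (hW u v h h')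
  have h2 : ∀ u v : Vc n K, lin v X = 0 → lin u Y = 0 → BPair_ot u v ∈ S := by
    intro u v h h'
    have h3 : BPair_ot u v = (BPair_ot u v - BPair_ot v u) + BPair_ot v u := (sub_add_cancel _ _).symm
    rw [h3]
    refine Submodule.add_mem _ (Submodule.mem_sup_left ?_) (h1 v u h h')
    refine ⟨fun i => ?_, fun i j => ?_⟩
    · show u i * v i - v i * u i = 0
      ring
    · show u i * v j - v i * u j + (u j * v i - v j * u i) = 0
      ring
  have hsX : ∀ (c : K) (u : Vc n K), lin u X = 0 → lin (c • u) X = 0 := fun c u h => by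
    rw [lin_smul, h, mul_zero]
  have hsY : ∀ (c : K) (u : Vc n K), lin u Y = 0 → lin (c • u) Y = 0 := fun c u h => by
    rw [lin_smul, h, mul_zero]
  have key : ∀ i j, BPair_ot (e i) (e j) - (X i * X j) • BPair_ot p p -
      (Y i * Y j) • BPair_ot r r ∈ S := by
    intro i j
    have h4 : BPair_ot (e i) (e j) - (X i * X j) • BPair_ot p p - (Y i * Y j) • BPair_ot r r =
        BPair_ot (X i • p) (Y j • r) + BPair_ot (X i • p) (hh j) + BPair_ot (Y i • r) (X j • p) +
        BPair_ot (Y i • r) (hh j) + BPair_ot (hh i) (X j • p) + BPair_ot (hh i) (Y j • r) +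
        BPair_ot (hh i) (hh j) := by
      funext a b
      show e i a * e j b - X i * X j * (p a * p b) - Y i * Y j * (r a * r b) =
        X i * p a * (Y j * r b) + X i * p a * (e j b - X j * p b - Y j * r b) +
        Y i * r a * (X j * p b) + Y i * r a * (e j b - X j * p b - Y j * r b) +
        (e i a - X i * p a - Y i * r a) * (X j * p b) +
        (e i a - X i * p a - Y i * r a) * (Y j * r b) +
        (e i a - X i * p a - Y i * r a) * (e j b - X j * p b - Y j * r b)
      ring
    rw [h4]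
    refine Submodule.add_mem _ (Submodule.add_mem _ (Submodule.add_mem _ (Submodule.add_mem _
      (Submodule.add_mem _ (Submodule.add_mem _ ?_ ?_) ?_) ?_) ?_) ?_) ?_
    · exact h2 _ _ (hsX _ _ hrx) (hsY _ _ hpy)
    · exact h2 _ _ (hhx j) (hsY _ _ hpy)
    · exact h1 _ _ (hsX _ _ hrx) (hsY _ _ hpy)
    · exact h1 _ _ (hsX _ _ hrx) (hhy j)
    · exact h1 _ _ (hhx i) (hsY _ _ hpy)
    · exact h2 _ _ (hsX _ _ hrx) (hhy i)
    · exact h1 _ _ (hhx i) (hhy j)
  have hB : B = ∑ i, ∑ j, B i j • (BPair_ot (e i) (e j) - (X i * X j) • BPair_ot p p -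
      (Y i * Y j) • BPair_ot r r) := by
    funext a b
    have e1 : (∑ i, ∑ j, B i j • (BPair_ot (e i) (e j) - (X i * X j) • BPair_ot p p -
        (Y i * Y j) • BPair_ot r r)) a b =
        (∑ i, ∑ j, B i j * (e i a * e j b)) - (∑ i, ∑ j, B i j * (X i * X j)) * (p a * p b) -
          (∑ i, ∑ j, B i j * (Y i * Y j)) * (r a * r b) := by
      simp only [Finset.sum_apply, Finset.sum_mul, ← Finset.sum_sub_distrib]
      refine Finset.sum_congr rfl fun i _ => Finset.sum_congr rfl fun j _ => ?_
      show B i j * (e i a * e j b - X i * X j * (p a * p b) - Y i * Y j * (r a * r b)) = _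
      ring
    rw [e1, hX, hY, zero_mul, zero_mul, sub_zero, sub_zero]
    have e2 : ∀ i j, B i j * (e i a * e j b) = if a = i then (if b = j then B i j else 0) else 0 := by
      intro i j
      show B i j * ((Pi.single i (1 : K) : Vc n K) a * (Pi.single j (1 : K) : Vc n K) b) = _
      rw [Pi.single_apply, Pi.single_apply]
      split_ifs <;> simp
    simp only [e2]
    simp
  rw [hB]
  exact Submodule.sum_mem _ fun i _ => Submodule.sum_mem _ fun j _ => Submodule.smul_mem _ _ (key i j)

/-- A functional which vanishes on the alternating combinations comes from a symmetric matrix. -/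
private theorem BPair_fac {ι : Type} [Fintype ι] (U V : ι → Vc n K) (τ : ι → K)
    (h : ∀ c : ι → K, Fintype.linearCombination K (fun q => BPair_ot (U q) (V q)) c ∈
      BPair_Alt K n → ∑ q, τ q * c q = 0) :
    ∃ E : Fin (n + 1) → Fin (n + 1) → K, (∀ i j, E i j = E j i) ∧
      ∀ q, τ q = ∑ a, ∑ b, U q a * E a b * V q b := by
  let Φ := Fintype.linearCombination K (fun q => BPair_ot (U q) (V q))
  let Ψ : (ι → K) →ₗ[K] (Fin (n + 1) ⊕ Fin (n + 1) × Fin (n + 1) → K) :=
    { toFun := fun c => Sum.elim (fun a => Φ c a a) (fun p => Φ c p.1 p.2 + Φ c p.2 p.1)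
      map_add' := by
        intro c c'
        funext j
        rcases j with a | p
        · show Φ (c + c') a a = Φ c a a + Φ c' a a
          rw [map_add]
          rfl
        · show Φ (c + c') p.1 p.2 + Φ (c + c') p.2 p.1 =
            Φ c p.1 p.2 + Φ c p.2 p.1 + (Φ c' p.1 p.2 + Φ c' p.2 p.1)
          rw [map_add]
          show Φ c p.1 p.2 + Φ c' p.1 p.2 + (Φ c p.2 p.1 + Φ c' p.2 p.1) = _
          ring
      map_smul' := by
        intro z c
        funext j
        rcases j with a | p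
        · show Φ (z • c) a a = z * Φ c a a
          rw [map_smul]
          rfl
        · show Φ (z • c) p.1 p.2 + Φ (z • c) p.2 p.1 = z * (Φ c p.1 p.2 + Φ c p.2 p.1)
          rw [map_smul]
          show z * Φ c p.1 p.2 + z * Φ c p.2 p.1 = _
          ring }
  let f : Module.Dual K (ι → K) :=
    { toFun := fun c => ∑ q, τ q * c q
      map_add' := fun c c' => by
        rw [← Finset.sum_add_distrib]
        exact Finset.sum_congr rfl fun q _ => mul_add _ _ _
      map_smul' := fun z c => by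
        show ∑ q, τ q * (z * c q) = z * ∑ q, τ q * c q
        rw [Finset.mul_sum]
        exact Finset.sum_congr rfl fun q _ => by ring }
  have hf : f ∈ (LinearMap.ker Ψ).dualAnnihilator := by
    rw [Submodule.mem_dualAnnihilator]
    intro c hc
    refine h c ?_
    have hc' : Ψ c = 0 := hc
    refine ⟨fun a => ?_, fun a b => ?_⟩
    · exact congrFun hc' (Sum.inl a)
    · exact congrFun hc' (Sum.inr (a, b))
  rw [← LinearMap.range_dualMap_eq_dualAnnihilator_ker] at hf
  obtain ⟨φ, hφ⟩ := hf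
  let φ1 : Fin (n + 1) → K := fun a => φ fun j => if Sum.inl a = j then 1 else 0
  let φ2 : Fin (n + 1) → Fin (n + 1) → K := fun a b => φ fun j => if Sum.inr (a, b) = j then 1 else 0
  refine ⟨fun a b => (if a = b then φ1 a else 0) + φ2 a b + φ2 b a, fun a b => ?_, fun q => ?_⟩
  · by_cases hab : a = b
    · subst hab
      rfl
    · show (if a = b then φ1 a else 0) + φ2 a b + φ2 b a =
        (if b = a then φ1 b else 0) + φ2 b a + φ2 a b
      rw [if_neg hab, if_neg (Ne.symm hab)]
      ring
  · have h1 : τ q = f (Pi.single q 1) := by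
      show τ q = ∑ q', τ q' * (Pi.single q (1 : K) : ι → K) q'
      rw [Finset.sum_eq_single q]
      · rw [Pi.single_eq_same, mul_one]
      · intro q' _ hq'
        rw [Pi.single_eq_of_ne hq', mul_zero]
      · intro hq
        exact absurd (Finset.mem_univ q) hq
    have h2 : f (Pi.single q 1) = φ (Ψ (Pi.single q 1)) := by rw [← hφ]; rfl
    have h3 : Φ (Pi.single q 1) = BPair_ot (U q) (V q) := by
      show Fintype.linearCombination K (fun q => BPair_ot (U q) (V q)) (Pi.single q 1) = _
      rw [Fintype.linearCombination_apply_single, one_smul]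
    rw [h1, h2, LinearMap.pi_apply_eq_sum_univ, Fintype.sum_sum_type, Fintype.sum_prod_type]
    have h4 : ∀ a, Ψ (Pi.single q 1) (Sum.inl a) = U q a * V q a := fun a => by
      show Φ (Pi.single q 1) a a = _
      rw [h3]
      rfl
    have h5 : ∀ a b, Ψ (Pi.single q 1) (Sum.inr (a, b)) = U q a * V q b + U q b * V q a :=
      fun a b => by
        show Φ (Pi.single q 1) a b + Φ (Pi.single q 1) b a = _
        rw [h3]
        rfl
    simp only [h4, h5, smul_eq_mul]
    have h6 : ∀ a b : Fin (n + 1), U q a * ((if a = b then φ1 a else 0) + φ2 a b + φ2 b a) * V q b =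
        (if a = b then U q a * V q a * φ1 a else 0) + U q a * V q b * φ2 a b +
          U q a * V q b * φ2 b a := by
      intro a b
      by_cases hab : a = b
      · subst hab
        rw [if_pos rfl, if_pos rfl]
        ring
      · rw [if_neg hab, if_neg hab]
        ring
    simp only [h6, Finset.sum_add_distrib]
    have h7 : ∑ a, ∑ b, U q a * V q b * φ2 b a = ∑ a, ∑ b, U q b * V q a * φ2 a b := by
      rw [Finset.sum_comm]
    rw [h7]
    simp only [Finset.sum_ite_eq, Finset.mem_univ, if_true, add_mul, Finset.sum_add_distrib]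
    show (∑ a, U q a * V q a * φ1 a) + (∑ a, ∑ b, U q a * V q b * φ2 a b +
      ∑ a, ∑ b, U q b * V q a * φ2 a b) = _
    ring

end lina

section gen

private theorem BPair_vec {α : Type} (s : Fin 2 → α) : ![s 0, s 1] = s := by
  funext k
  fin_cases k <;> rfl

private theorem BPair_ev {R : Type} [CommRing R] {n : ℕ} (a : Ten n 2 R) (x : Vc n R) :
    ev a x = ∑ i, ∑ j, a ![i, j] * (x i * x j) := by
  have h1 : ev a x = ∑ p : Fin (n + 1) × Fin (n + 1), a ![p.1, p.2] * (x p.1 * x p.2) := by
    unfold ev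
    refine Fintype.sum_equiv (finTwoArrowEquiv _) _ _ fun s => ?_
    show a s * ∏ k, x (s k) = a ![s 0, s 1] * (x (s 0) * x (s 1))
    rw [BPair_vec, Fin.prod_univ_two]
  rw [h1, Fintype.sum_prod_type]

/-- An alternating matrix has the value zero. -/
private theorem BPair_alt0 {R : Type} [CommRing R] {n : ℕ} (A : Fin (n + 1) → Fin (n + 1) → R)
    (h1 : ∀ i, A i i = 0) (h2 : ∀ i j, A i j + A j i = 0) (x : Vc n R) :
    ∑ i, ∑ j, A i j * (x i * x j) = 0 := by
  rw [← Fintype.sum_prod_type' (f := fun i j => A i j * (x i * x j))]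
  refine Finset.sum_involution (fun p _ => p.swap) ?_ ?_ ?_ ?_
  · rintro ⟨i, j⟩ _
    show A i j * (x i * x j) + A j i * (x j * x i) = 0
    linear_combination (x i * x j) * h2 i j
  · rintro ⟨i, j⟩ _ h3 h4
    apply h3
    have h5 : j = i := congrArg Prod.fst h4
    show A i j * (x i * x j) = 0
    rw [h5, h1, zero_mul]
  · intro p _
    exact Finset.mem_univ _
  · intro p _
    exact Prod.swap_swap p

variable {K O : Type} [Field K] [CommRing O] [IsDomain O] [Algebra O K] [IsFractionRing O K]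

private theorem BPair_inj {a b : O} (h : algebraMap O K a = algebraMap O K b) : a = b :=
  IsFractionRing.injective O K h

private noncomputable def BPair_L (n : ℕ) : Vc n O →ₗ[O] Vc n K where
  toFun x := fun i => algebraMap O K (x i)
  map_add' x y := by
    funext i
    simp
  map_smul' c x := by
    funext i
    simp [Algebra.smul_def]

private theorem BPair_linInd {n : ℕ} {ι : Type*} (f : ι → Vc n O) (hf : LinearIndependent O f) :
    LinearIndependent K (fun s => (fun i => algebraMap O K (f s i) : Vc n K)) := by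
  have hinj : LinearMap.ker (BPair_L (K := K) (O := O) n) = ⊥ := by
    rw [LinearMap.ker_eq_bot]
    intro a b hab
    funext i
    exact BPair_inj (K := K) (congrFun hab i)
  have h1 := hf.map' (BPair_L (K := K) (O := O) n) hinj
  exact (LinearIndependent.iff_fractionRing O K).mp h1

private theorem BPair_perp {n : ℕ} (x : Vc n O) (hx : x ≠ 0) (f : Fin n → Vc n O)
    (hf : LinearIndependent O f) (h0 : ∀ s, lin (f s) x = 0) {u : Vc n K}
    (hu : lin u (fun i => algebraMap O K (x i)) = 0) :
    ∃ c : Fin n → K, ∀ i, u i = ∑ s, c s * algebraMap O K (f s i) := by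
  have h1 : u ∈ Submodule.span K (Set.range fun s : Fin n =>
      (fun i => algebraMap O K (f s i) : Vc n K)) := by
    refine perpSpanF (fun i => algebraMap O K (x i)) (fun h => hx ?_) _ (BPair_linInd f hf)
      (fun s => ?_) u hu
    · funext i
      have := congrFun h i
      exact BPair_inj (K := K) (by rw [Pi.zero_apply, map_zero]; exact this)
    · have h2 := congrArg (algebraMap O K) (h0 s)
      rw [map_zero] at h2
      rw [← h2]
      unfold lin
      simp only [map_sum, map_mul]
  obtain ⟨c, hc⟩ := (Submodule.mem_span_range_iff_exists_fun K).1 h1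
  refine ⟨c, fun i => ?_⟩
  rw [← hc]
  simp only [Finset.sum_apply, Pi.smul_apply, smul_eq_mul]

end gen

namespace TC
variable {K O P : Type} [Field K] [CommRing O] [IsDedekindDomain O] [Algebra O K]
  [IsFractionRing O K] [CommRing P] [IsDedekindDomain P] [Algebra P K]
  [IsFractionRing P K] (T : TC K O P)

/-- The difference of two tensors with the same values has the value zero. -/
private theorem BPair_val {n b a : ℕ} {z : Vc n O} (hz : z ∈ T.VB n b) {m : O}
    (hm : m ∈ T.H (a + 2 * b)) {G : Ten n 2 O} {G' : Ten n 2 P} (h : ev G z = m)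
    (h' : ev G' (T.vtw b z) = T.tw (a + 2 * b) m) :
    ∑ i, ∑ j, (algebraMap O K (G ![i, j]) - algebraMap O K T.t ^ a * algebraMap P K (G' ![i, j])) *
      (algebraMap O K (z i) * algebraMap O K (z j)) = 0 := by
  have hz' := T.mem_VB.1 hz
  have hs := T.s_ne
  have e1 : ∑ i, ∑ j, algebraMap O K (G ![i, j]) * (algebraMap O K (z i) * algebraMap O K (z j)) =
      algebraMap O K m := by
    rw [← h, BPair_ev, map_sum]
    refine Finset.sum_congr rfl fun i _ => ?_
    rw [map_sum]
    refine Finset.sum_congr rfl fun j _ => ?_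
    rw [map_mul, map_mul]
  have e2 : algebraMap P K T.s ^ (2 * b) * ∑ i, ∑ j, algebraMap P K (G' ![i, j]) *
      (algebraMap O K (z i) * algebraMap O K (z j)) =
      algebraMap P K T.s ^ (a + 2 * b) * algebraMap O K m := by
    rw [← T.tw_spec hm, ← h', BPair_ev, map_sum, Finset.mul_sum]
    refine Finset.sum_congr rfl fun i _ => ?_
    rw [map_sum, Finset.mul_sum]
    refine Finset.sum_congr rfl fun j _ => ?_
    rw [map_mul, map_mul]
    unfold vtw
    rw [T.tw_spec (hz' i), T.tw_spec (hz' j)]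
    ring
  have e3 : ∑ i, ∑ j, algebraMap P K (G' ![i, j]) *
      (algebraMap O K (z i) * algebraMap O K (z j)) =
      algebraMap P K T.s ^ a * algebraMap O K m := by
    refine mul_left_cancel₀ (pow_ne_zero (2 * b) hs) ?_
    rw [e2, pow_add]
    ring
  have e4 : algebraMap O K T.t ^ a * algebraMap P K T.s ^ a = 1 := by
    rw [← mul_pow, T.ts, one_pow]
  have e5 : ∑ i, ∑ j, (algebraMap O K (G ![i, j]) -
      algebraMap O K T.t ^ a * algebraMap P K (G' ![i, j])) *
      (algebraMap O K (z i) * algebraMap O K (z j)) =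
      (∑ i, ∑ j, algebraMap O K (G ![i, j]) * (algebraMap O K (z i) * algebraMap O K (z j))) -
      algebraMap O K T.t ^ a * ∑ i, ∑ j, algebraMap P K (G' ![i, j]) *
        (algebraMap O K (z i) * algebraMap O K (z j)) := by
    simp only [Finset.mul_sum, ← Finset.sum_sub_distrib]
    refine Finset.sum_congr rfl fun i _ => Finset.sum_congr rfl fun j _ => ?_
    ring
  rw [e5, e1, e3, ← mul_assoc, e4, one_mul, sub_self]

theorem pair_surjB {n b g a k : ℕ} {x y : Vc n O} (hx : x ∈ T.GG n b g)
    (hy : y ∈ T.GG n b g) (hxy : ¬ Prp x y) (ha : T.c1 ≤ a) (hk : 2 * g ≤ a + k)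
    (f f' : Fin n → Vc n O) (hf : LinearIndependent O f) (hf' : LinearIndependent O f')
    (f0 : ∀ i, lin (f i) x = 0) (f0' : ∀ i, lin (f' i) y = 0) (fH : ∀ i j, f i j ∈ T.H g)
    (fH' : ∀ i j, f' i j ∈ T.H g) (hexc : ¬ T.ExcB k f f') {m m' : O}
    (hm : m ∈ T.H (a + 2 * b)) (hm' : m' ∈ T.H (a + 2 * b)) (h1 : (m, m') ∈ Lam 2 x y)
    (h2 : (T.tw (a + 2 * b) m, T.tw (a + 2 * b) m') ∈ Lam 2 (T.vtw b x) (T.vtw b y)) :
    ∃ G ∈ T.Box n 2 a, ev G x = m ∧ ev G y = m' := by
  obtain ⟨hxV, hxU, hxU', hxG⟩ := T.mem_GG.1 hx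
  obtain ⟨hyV, hyU, hyU', hyG⟩ := T.mem_GG.1 hy
  obtain ⟨G, hG1, hG2⟩ := h1
  obtain ⟨G', hG1', hG2'⟩ := h2
  obtain ⟨i0, j0, hij⟩ : ∃ i j, mn x y i j ≠ 0 := by
    by_contra hcon
    push Not at hcon
    exact hxy hcon
  have hx0 : x ≠ 0 := by
    intro h
    apply hij
    simp [mn, h]
  have hy0 : y ≠ 0 := by
    intro h
    apply hij
    simp [mn, h]
  let X : Vc n K := fun i => algebraMap O K (x i)
  let Y : Vc n K := fun i => algebraMap O K (y i)
  let F : Fin n → Vc n K := fun s i => algebraMap O K (f s i)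
  let F' : Fin n → Vc n K := fun s i => algebraMap O K (f' s i)
  let B : Fin (n + 1) → Fin (n + 1) → K := fun i j =>
    algebraMap O K (G ![i, j]) - algebraMap O K T.t ^ a * algebraMap P K (G' ![i, j])
  have hBX : ∑ i, ∑ j, B i j * (X i * X j) = 0 := BPair_val T hxV hm hG1 hG1'
  have hBY : ∑ i, ∑ j, B i j * (Y i * Y j) = 0 := BPair_val T hyV hm' hG2 hG2'
  have hD : X i0 * Y j0 - X j0 * Y i0 ≠ 0 := by
    have e1 : X i0 * Y j0 - X j0 * Y i0 = algebraMap O K (mn x y i0 j0) := by
      simp [mn, X, Y]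
    rw [e1]
    intro h
    exact hij (BPair_inj (K := K) (by rw [map_zero]; exact h))
  -- the decomposition over `K`
  have hdec := BPair_dec (X := X) (Y := Y) hD
    (Submodule.span K (Set.range fun q : Fin n × Fin n => BPair_ot (F q.1) (F' q.2))) (by
      intro u v hu hv
      obtain ⟨α, hα⟩ := BPair_perp x hx0 f hf f0 (u := u) hu
      obtain ⟨β, hβ⟩ := BPair_perp y hy0 f' hf' f0' (u := v) hv
      refine (Submodule.mem_span_range_iff_exists_fun K).2 ⟨fun q => α q.1 * β q.2, ?_⟩
      funext i j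
      rw [Finset.sum_apply, Finset.sum_apply, Fintype.sum_prod_type]
      show ∑ s, ∑ t, α s * β t * (F s i * F' t j) = u i * v j
      rw [hα i, hβ j, Finset.sum_mul_sum]
      refine Finset.sum_congr rfl fun s _ => Finset.sum_congr rfl fun t _ => ?_
      show α s * β t * (algebraMap O K (f s i) * algebraMap O K (f' t j)) = _
      ring) B hBX hBY
  obtain ⟨A, hA, w, hw, hAw⟩ := Submodule.mem_sup.1 hdec
  obtain ⟨r, hr⟩ := (Submodule.mem_span_range_iff_exists_fun K).1 hw
  -- the rounding modulo alternating matrices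
  let Φ := Fintype.linearCombination K (fun q : Fin n × Fin n => BPair_ot (F q.1) (F' q.2))
  obtain ⟨c, hc, gr, pr, hgp⟩ := (T.exSet (Fin n × Fin n) k).choose_spec.2.2
    ((BPair_Alt K n).comap Φ) (by
      intro τ hτ
      by_contra hcon
      push Not at hcon
      obtain ⟨E, hE1, hE2⟩ := BPair_fac (fun q : Fin n × Fin n => F q.1) (fun q => F' q.2) τ
        fun c hc => hcon c hc
      exact hexc ⟨τ, hτ, E, hE1, fun i j => hE2 (i, j)⟩) r
  have hA' : A + Φ c ∈ BPair_Alt K n := Submodule.add_mem _ hA hc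
  obtain ⟨hA1, hA2⟩ := hA'
  have hB : ∀ i j, B i j = (A + Φ c) i j +
      ∑ q : Fin n × Fin n, (algebraMap O K (gr q) + algebraMap P K (T.s ^ k * pr q)) *
        (F q.1 i * F' q.2 j) := by
    intro i j
    have e1 : B i j = A i j + w i j := by rw [← hAw]; rfl
    have e2 : w i j = ∑ q : Fin n × Fin n, r q * (F q.1 i * F' q.2 j) := by
      rw [← hr, Finset.sum_apply, Finset.sum_apply]
      rfl
    have e3 : Φ c i j = ∑ q : Fin n × Fin n, c q * (F q.1 i * F' q.2 j) := by
      show Fintype.linearCombination K (fun q : Fin n × Fin n => BPair_ot (F q.1) (F' q.2)) c i j = _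
      rw [Fintype.linearCombination_apply, Finset.sum_apply, Finset.sum_apply]
      rfl
    rw [e1, e2]
    show A i j + _ = A i j + Φ c i j + _
    rw [e3, add_assoc, ← Finset.sum_add_distrib]
    congr 1
    refine Finset.sum_congr rfl fun q _ => ?_
    rw [hgp q]
    ring
  choose g0 p0 hp0 using fun ij : Fin (n + 1) × Fin (n + 1) => T.rnd ((A + Φ c) ij.1 ij.2)
  let gm : Fin (n + 1) → Fin (n + 1) → O := fun i j =>
    if i < j then g0 (i, j) else if j < i then -g0 (j, i) else 0
  let pm : Fin (n + 1) → Fin (n + 1) → P := fun i j =>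
    if i < j then p0 (i, j) else if j < i then -p0 (j, i) else 0
  have hpm : ∀ i j, algebraMap P K (pm i j) =
      algebraMap P K T.s ^ T.c1 * ((A + Φ c) i j - algebraMap O K (gm i j)) := by
    intro i j
    rcases lt_trichotomy i j with h | h | h
    · have e1 : pm i j = p0 (i, j) := if_pos h
      have e2 : gm i j = g0 (i, j) := if_pos h
      rw [e1, e2, hp0]
    · have e1 : pm i j = 0 := by
        show (if i < j then p0 (i, j) else if j < i then -p0 (j, i) else 0) = 0
        rw [if_neg (not_lt.2 h.ge), if_neg (not_lt.2 h.le)]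
      have e2 : gm i j = 0 := by
        show (if i < j then g0 (i, j) else if j < i then -g0 (j, i) else 0) = 0
        rw [if_neg (not_lt.2 h.ge), if_neg (not_lt.2 h.le)]
      have e3 : (A + Φ c) i j = 0 := by rw [h]; exact hA1 j
      rw [e1, e2, e3, map_zero, map_zero, sub_zero, mul_zero]
    · have e1 : pm i j = -p0 (j, i) := by
        show (if i < j then p0 (i, j) else if j < i then -p0 (j, i) else 0) = _
        rw [if_neg (not_lt.2 h.le), if_pos h]
      have e2 : gm i j = -g0 (j, i) := by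
        show (if i < j then g0 (i, j) else if j < i then -g0 (j, i) else 0) = _
        rw [if_neg (not_lt.2 h.le), if_pos h]
      have e3 : (A + Φ c) i j + (A + Φ c) j i = 0 := hA2 i j
      rw [e1, e2, map_neg, map_neg, hp0]
      show -(algebraMap P K T.s ^ T.c1 * ((A + Φ c) j i - algebraMap O K (g0 (j, i)))) = _
      linear_combination (-algebraMap P K T.s ^ T.c1) * e3
  have hgm1 : ∀ i, gm i i = 0 := by
    intro i
    show (if i < i then g0 (i, i) else if i < i then -g0 (i, i) else 0) = 0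
    rw [if_neg (lt_irrefl i), if_neg (lt_irrefl i)]
  have hgm2 : ∀ i j, gm i j + gm j i = 0 := by
    intro i j
    show (if i < j then g0 (i, j) else if j < i then -g0 (j, i) else 0) +
      (if j < i then g0 (j, i) else if i < j then -g0 (i, j) else 0) = 0
    rcases lt_trichotomy i j with h | h | h
    · rw [if_pos h, if_neg (not_lt.2 h.le), if_pos h, add_neg_cancel]
    · rw [if_neg (not_lt.2 h.ge), if_neg (not_lt.2 h.le), if_neg (not_lt.2 h.le),
        if_neg (not_lt.2 h.ge), add_zero]
    · rw [if_neg (not_lt.2 h.le), if_pos h, if_pos h, neg_add_cancel]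
  clear_value gm pm
  -- the tensor
  let H : Ten n 2 O := fun s => G s - gm (s 0) (s 1) -
    ∑ q : Fin n × Fin n, gr q * (f q.1 (s 0) * f' q.2 (s 1))
  have hval : ∀ (z : Vc n O) (mz : O), ev G z = mz →
      ((∀ i, lin (f i) z = 0) ∨ ∀ i, lin (f' i) z = 0) → ev H z = mz := by
    intro z mz hz hfz
    have e1 : ev H z = (∑ i, ∑ j, G ![i, j] * (z i * z j)) - (∑ i, ∑ j, gm i j * (z i * z j)) -
        ∑ i, ∑ j, (∑ q : Fin n × Fin n, gr q * (f q.1 i * f' q.2 j)) * (z i * z j) := by
      rw [BPair_ev, ← Finset.sum_sub_distrib, ← Finset.sum_sub_distrib]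
      refine Finset.sum_congr rfl fun i _ => ?_
      rw [← Finset.sum_sub_distrib, ← Finset.sum_sub_distrib]
      refine Finset.sum_congr rfl fun j _ => ?_
      show (G ![i, j] - gm i j - ∑ q : Fin n × Fin n, gr q * (f q.1 i * f' q.2 j)) * (z i * z j) = _
      ring
    have e2 : ∑ i, ∑ j, (∑ q : Fin n × Fin n, gr q * (f q.1 i * f' q.2 j)) * (z i * z j) =
        ∑ q : Fin n × Fin n, gr q * (lin (f q.1) z * lin (f' q.2) z) := by
      have e3 : ∀ q : Fin n × Fin n, gr q * (lin (f q.1) z * lin (f' q.2) z) =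
          ∑ i, ∑ j, gr q * (f q.1 i * f' q.2 j) * (z i * z j) := by
        intro q
        unfold lin
        rw [Finset.sum_mul_sum, Finset.mul_sum]
        refine Finset.sum_congr rfl fun i _ => ?_
        rw [Finset.mul_sum]
        refine Finset.sum_congr rfl fun j _ => ?_
        ring
      simp only [e3, Finset.sum_mul]
      symm
      rw [Finset.sum_comm]
      refine Finset.sum_congr rfl fun i _ => ?_
      rw [Finset.sum_comm]
    have e4 : ∑ q : Fin n × Fin n, gr q * (lin (f q.1) z * lin (f' q.2) z) = 0 := by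
      refine Finset.sum_eq_zero fun q _ => ?_
      rcases hfz with h | h
      · rw [h, zero_mul, mul_zero]
      · rw [h, mul_zero, mul_zero]
    rw [e1, e2, e4, BPair_alt0 gm hgm1 hgm2 z, ← BPair_ev, hz, sub_zero, sub_zero]
  refine ⟨H, T.mem_Box.2 fun s => ?_, hval x m hG1 (Or.inl f0), hval y m' hG2 (Or.inr f0')⟩
  refine (T.tw_eq (p := G' s + T.s ^ (a - T.c1) * pm (s 0) (s 1) +
    ∑ q : Fin n × Fin n, T.s ^ (a + k - 2 * g) *
      (pr q * (T.tw g (f q.1 (s 0)) * T.tw g (f' q.2 (s 1))))) ?_).1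
  have e1 : algebraMap O K T.t ^ a * algebraMap P K T.s ^ a = 1 := by
    rw [← mul_pow, T.ts, one_pow]
  have e2 := hB (s 0) (s 1)
  have e3 : B (s 0) (s 1) =
      algebraMap O K (G s) - algebraMap O K T.t ^ a * algebraMap P K (G' s) := by
    show algebraMap O K (G ![s 0, s 1]) - algebraMap O K T.t ^ a *
      algebraMap P K (G' ![s 0, s 1]) = _
    rw [BPair_vec]
  rw [e3] at e2
  have e4 := hpm (s 0) (s 1)
  have e5 : algebraMap P K T.s ^ a = algebraMap P K T.s ^ (a - T.c1) * algebraMap P K T.s ^ T.c1 := by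
    rw [← pow_add, Nat.sub_add_cancel ha]
  have e6 : ∀ q : Fin n × Fin n, algebraMap P K (T.s ^ (a + k - 2 * g) *
      (pr q * (T.tw g (f q.1 (s 0)) * T.tw g (f' q.2 (s 1))))) =
      algebraMap P K T.s ^ a * (algebraMap P K (T.s ^ k * pr q) * (F q.1 (s 0) * F' q.2 (s 1))) := by
    intro q
    have e7 : algebraMap P K T.s ^ (a + k - 2 * g) * (algebraMap P K T.s ^ g *
        algebraMap P K T.s ^ g) = algebraMap P K T.s ^ a * algebraMap P K T.s ^ k := by
      rw [← pow_add, ← pow_add, ← pow_add]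
      congr 1
      omega
    rw [map_mul, map_mul, map_mul, map_mul, map_pow, map_pow, T.tw_spec (fH _ _),
      T.tw_spec (fH' _ _)]
    show _ = algebraMap P K T.s ^ a * (algebraMap P K T.s ^ k * algebraMap P K (pr q) *
      (algebraMap O K (f q.1 (s 0)) * algebraMap O K (f' q.2 (s 1))))
    linear_combination (algebraMap P K (pr q) * (algebraMap O K (f q.1 (s 0)) *
      algebraMap O K (f' q.2 (s 1)))) * e7
  have e8 : algebraMap O K (H s) = algebraMap O K (G s) - algebraMap O K (gm (s 0) (s 1)) -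
      ∑ q : Fin n × Fin n, algebraMap O K (gr q) * (F q.1 (s 0) * F' q.2 (s 1)) := by
    show algebraMap O K (G s - gm (s 0) (s 1) -
      ∑ q : Fin n × Fin n, gr q * (f q.1 (s 0) * f' q.2 (s 1))) = _
    rw [map_sub, map_sub, map_sum]
    congr 1
    refine Finset.sum_congr rfl fun q _ => ?_
    rw [map_mul, map_mul]
  have e9 : ∑ q : Fin n × Fin n, (algebraMap O K (gr q) + algebraMap P K (T.s ^ k * pr q)) *
        (F q.1 (s 0) * F' q.2 (s 1)) =
      (∑ q : Fin n × Fin n, algebraMap O K (gr q) * (F q.1 (s 0) * F' q.2 (s 1))) +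
      ∑ q : Fin n × Fin n, algebraMap P K (T.s ^ k * pr q) * (F q.1 (s 0) * F' q.2 (s 1)) := by
    rw [← Finset.sum_add_distrib]
    exact Finset.sum_congr rfl fun q _ => add_mul _ _ _
  rw [e9] at e2
  rw [map_add, map_add, map_sum, Finset.sum_congr rfl fun q _ => e6 q, ← Finset.mul_sum, map_mul,
    map_pow, e4, e8]
  linear_combination (-(algebraMap P K T.s ^ a)) * e2 - algebraMap P K (G' s) * e1 -
    ((A + Φ c) (s 0) (s 1) - algebraMap O K (gm (s 0) (s 1))) * e5

/-- The pair of values of a tensor. -/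
private def BPair_phi {n : ℕ} (d : ℕ) (x y : Vc n O) : Ten n d O →+ O × O where
  toFun G := (ev G x, ev G y)
  map_zero' := by
    rw [ev_zero, ev_zero]
    rfl
  map_add' G G' := by
    rw [ev_add, ev_add]
    rfl

private theorem BPair_phi_apply {n d : ℕ} (x y : Vc n O) (G : Ten n d O) :
    BPair_phi d x y G = (ev G x, ev G y) := rfl

private theorem BPair_zero {n d a : ℕ} : (0 : Ten n d O) ∈ T.Box n d a := by
  rw [T.mem_Box]
  intro i
  exact T.zero_mem_H a

private theorem BPair_sub {n d a : ℕ} :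
    ∀ x ∈ T.Box n d a, ∀ y ∈ T.Box n d a, x - y ∈ T.Box n d a := by
  intro x hx y hy
  rw [T.mem_Box] at hx hy ⊢
  intro i
  exact T.sub_mem_H (hx i) (hy i)

private theorem BPair_n2 {n d a : ℕ} (x y : Vc n O)
    (inst : DecidablePred fun G : Ten n d O => BPair_phi d x y G = 0) :
    (@Finset.filter _ (fun G => BPair_phi d x y G = 0) inst (T.Box n d a)).card =
      T.n2 d x y a := by
  unfold n2
  refine congrArg Finset.card (Finset.ext fun G => ?_)
  rw [Finset.mem_filter, Finset.mem_filter, BPair_phi_apply, Prod.mk_eq_zero]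

private theorem BPair_sl {n : ℕ} (d a : ℕ) (x y : Vc n O) (m m' : O)
    (inst : DecidablePred fun G : Ten n d O => BPair_phi d x y G = (m, m')) :
    (@Finset.filter _ (fun G => BPair_phi d x y G = (m, m')) inst (T.Box n d a)).card =
      T.sl d a x y m m' := by
  unfold sl
  refine congrArg Finset.card (Finset.ext fun G => ?_)
  rw [Finset.mem_filter, Finset.mem_filter, BPair_phi_apply, Prod.mk.injEq]

theorem sl_goodB {n b g a k w : ℕ} {x y : Vc n O} (hx : x ∈ T.GG n b g)
    (hy : y ∈ T.GG n b g) (hxy : ¬ Prp x y) (ha : T.c1 ≤ a) (hk : 2 * g ≤ a + k)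
    (f f' : Fin n → Vc n O) (hf : LinearIndependent O f) (hf' : LinearIndependent O f')
    (f0 : ∀ i, lin (f i) x = 0) (f0' : ∀ i, lin (f' i) y = 0) (fH : ∀ i j, f i j ∈ T.H g)
    (fH' : ∀ i j, f' i j ∈ T.H g) (hexc : ¬ T.ExcB k f f')
    (h1 : WD O w ≤ Dd x y) (h2 : WD P w ≤ Dd (T.vtw b x) (T.vtw b y)) {m m' : O}
    (hm : m ∈ T.MS w (a + 2 * b)) (hm' : m' ∈ T.MS w (a + 2 * b)) :
    T.sl 2 a x y m m' = T.n2 2 x y a := by
  obtain ⟨hxV, hxU, hxU', hxG⟩ := T.mem_GG.1 hx
  obtain ⟨hyV, hyU, hyU', hyG⟩ := T.mem_GG.1 hy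
  have hm1 := T.mem_M.1 hm
  have hm1' := T.mem_M.1 hm'
  obtain ⟨G0, hG0, h3, h4⟩ := T.pair_surjB hx hy hxy ha hk f f' hf hf' f0 f0' fH fH' hexc
    hm1.1 hm1'.1
    (Lam_mem (by omega) hxU hyU (h1 hm1.2.1) (h1 hm1'.2.1))
    (Lam_mem (by omega) hxU' hyU' (h2 hm1.2.2) (h2 hm1'.2.2))
  have h5 : BPair_phi 2 x y G0 = (m, m') := by rw [BPair_phi_apply, h3, h4]
  have h6 := fin_fib (T.Box n 2 a) (BPair_zero T) (BPair_sub T) (BPair_phi 2 x y) G0 hG0
  rw [BPair_n2] at h6
  rw [← h6, h5, BPair_sl]

end TC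


end Pool.Agent.Lib.MP_1ad228_ntZ
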