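import Pool.Agent.Lib.MP_1ad228_ntZ.CntY

/-!
LEAF Beta.  Pairs with small divisor of minors.
Group the `y` by the pair `p = (Dd x y, Dd (vtw b x) (vtw b y))`: for each `p` with norm `N ≤ Q^b` there are at most
`C Q^(b(n+1)) / N^n` values `y` (cntY), each contributing `N^r`; `N^r / N^n ≤ 1 / N^2` as `N ≥ 1`, `r + 2 ≤ n`; dvTail.
-/

namespace Pool.Agent.Lib.MP_1ad228_ntZ

open Classical

namespace TC
variable {K O P : Type} [Field K] [CommRing O] [IsDedekindDomain O] [Algebra O K]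
  [IsFractionRing O K] [CommRing P] [IsDedekindDomain P] [Algebra P K]
  [IsFractionRing P K] (T : TC K O P)

theorem beta (n r : ℕ) (hn : r + 2 ≤ n) : ∃ C : ℝ, 1 ≤ C ∧ ∀ (b g w : ℕ) (x : Vc n O),
    x ∈ T.GG n b g →
    ∑ y ∈ (T.GG n b g).filter (fun y => ¬ Prp x y ∧ w < T.nD b x y ∧ T.nD b x y ≤ T.Q ^ b),
      (T.nD b x y : ℝ) ^ r ≤ C * ((T.Q : ℝ) ^ (b * (n + 1)) / (w + 1)) := by
  obtain ⟨C1, hC1, htail⟩ := T.dvTail
  have hQ2 : (1 : ℝ) ≤ 2 * T.Q := by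
    have h := T.two_le
    have h' : (2 : ℝ) ≤ T.Q := by exact_mod_cast h
    linarith
  refine ⟨(2 * T.Q : ℝ) ^ (n + 1) * C1, one_le_mul_of_one_le_of_one_le (one_le_pow₀ hQ2) hC1, ?_⟩
  intro b g w x hx
  have hxm : x ∈ T.VB n b ∧ Uni x ∧ Uni (T.vtw b x) ∧ T.Good g x := by
    have h := hx
    unfold GG at h
    rwa [Finset.mem_filter] at h
  set Y := (T.GG n b g).filter (fun y => ¬ Prp x y ∧ w < T.nD b x y ∧ T.nD b x y ≤ T.Q ^ b) with hY
  have hYmem : ∀ y ∈ Y, y ∈ T.VB n b ∧ ¬ Prp x y ∧ w < T.nD b x y ∧ T.nD b x y ≤ T.Q ^ b := by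
    intro y hy
    rw [hY, Finset.mem_filter] at hy
    refine ⟨?_, hy.2⟩
    have h := hy.1
    unfold GG at h
    exact (Finset.mem_filter.1 h).1
  set π : Vc n O → Ideal O × Ideal P := fun y => (Dd x y, Dd (T.vtw b x) (T.vtw b y)) with hπ
  rw [← Finset.sum_fiberwise_of_maps_to (g := π) (t := Y.image π)
    fun y hy => Finset.mem_image_of_mem π hy]
  set A : ℝ := (2 * T.Q : ℝ) ^ (n + 1) * (T.Q : ℝ) ^ (b * (n + 1)) with hA
  have hA0 : 0 ≤ A := by positivity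
  have hfacts : ∀ p ∈ Y.image π, p.1 ≠ ⊥ ∧ p.2 ≠ ⊥ ∧ (w : ℝ) < (nI p.1 : ℝ) * nI p.2 ∧
      nI p.1 * nI p.2 ≤ T.Q ^ b ∧ 1 ≤ nI p.1 * nI p.2 := by
    intro p hp
    obtain ⟨y, hy, rfl⟩ := Finset.mem_image.1 hp
    obtain ⟨h1, h2, h3, h4⟩ := hYmem y hy
    have h5 := T.nD_pos hxm.1 h1 h2
    have h6 : T.nD b x y = nI (Dd x y) * nI (Dd (T.vtw b x) (T.vtw b y)) := rfl
    obtain ⟨hne1, hne2⟩ := T.Dd_ne hxm.1 h1 h2
    refine ⟨hne1, hne2, ?_, ?_, ?_⟩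
    · have h7 : w < nI (Dd x y) * nI (Dd (T.vtw b x) (T.vtw b y)) := h3
      exact_mod_cast h7
    · exact h4
    · exact h5
  have hfib : ∀ p ∈ Y.image π, ∑ y ∈ Y.filter (fun y => π y = p), (T.nD b x y : ℝ) ^ r ≤
      A * (1 / ((nI p.1 : ℝ) * nI p.2) ^ 2) := by
    intro p hp
    obtain ⟨hp1, hp2, hpw, hpQ, hp0⟩ := hfacts p hp
    set N : ℝ := (nI p.1 : ℝ) * nI p.2 with hN
    have hN1 : 1 ≤ N := by
      rw [hN]
      exact_mod_cast hp0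
    have hN0 : 0 < N := by linarith
    have hterm : ∀ y ∈ Y.filter (fun y => π y = p), (T.nD b x y : ℝ) ^ r = N ^ r := by
      intro y hy
      have h1 := (Finset.mem_filter.1 hy).2
      have h2 : T.nD b x y = nI p.1 * nI p.2 := by
        rw [← h1]
        rfl
      rw [h2, hN]
      push_cast
      rfl
    rw [Finset.sum_congr rfl hterm, Finset.sum_const, nsmul_eq_mul]
    have hsub : Y.filter (fun y => π y = p) ⊆
        (T.VB n b).filter fun y => Dd x y ≤ p.1 ∧ Dd (T.vtw b x) (T.vtw b y) ≤ p.2 := by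
      intro y hy
      obtain ⟨hyY, hyp⟩ := Finset.mem_filter.1 hy
      rw [Finset.mem_filter]
      refine ⟨(hYmem y hyY).1, ?_, ?_⟩
      · rw [← hyp]
      · rw [← hyp]
    have hcard := (Nat.cast_le (α := ℝ).2 (Finset.card_le_card hsub)).trans
      (T.cntY n b hxm.1 hxm.2.1 hxm.2.2.1 hp1 hp2 hpQ)
    have hpow : N ^ r * N ^ 2 ≤ N ^ n := by
      rw [← pow_add]
      exact pow_le_pow_right₀ hN1 hn
    calc ((Y.filter (fun y => π y = p)).card : ℝ) * N ^ r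
        ≤ ((2 * T.Q : ℝ) ^ (n + 1) * ((T.Q : ℝ) ^ (b * (n + 1)) / N ^ n)) * N ^ r :=
          mul_le_mul_of_nonneg_right hcard (pow_nonneg hN0.le _)
      _ = A * (N ^ r / N ^ n) := by
          rw [hA]
          ring
      _ ≤ A * (1 / N ^ 2) := by
          refine mul_le_mul_of_nonneg_left ?_ hA0
          rw [div_le_div_iff₀ (pow_pos hN0 _) (pow_pos hN0 _), one_mul]
          exact hpow
  have hsum := htail w (Y.image π) fun p hp => ⟨(hfacts p hp).1, (hfacts p hp).2.1, (hfacts p hp).2.2.1⟩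
  calc ∑ p ∈ Y.image π, ∑ y ∈ Y.filter (fun y => π y = p), (T.nD b x y : ℝ) ^ r
      ≤ ∑ p ∈ Y.image π, A * (1 / ((nI p.1 : ℝ) * nI p.2) ^ 2) := Finset.sum_le_sum hfib
    _ = A * ∑ p ∈ Y.image π, 1 / ((nI p.1 : ℝ) * nI p.2) ^ 2 := by rw [Finset.mul_sum]
    _ ≤ A * (C1 / (w + 1)) := mul_le_mul_of_nonneg_left hsum hA0
    _ = (2 * T.Q : ℝ) ^ (n + 1) * C1 * ((T.Q : ℝ) ^ (b * (n + 1)) / (w + 1)) := by
        rw [hA]
        ring

end TC

end Pool.Agent.Lib.MP_1ad228_ntZ
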