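import Pool.Agent.Lib.MP_1ad228_ntZ.DvCnt

/-!
LEAF Cls.  Points in a residue class.
card_Cls: a product of `n+1` classes, class_eq.
nonUni: `W = WD O w`.  If `x = 0`: one point, `≤ Q^b`.  Let `x ≠ 0`, not unimodular: some prime `p ≠ ⊥` contains all `x_i` (the ideal of the `x_i` is not `⊤`; it is not `⊥`).  `p` does not contain `W` (else `1 ∈ p` by `lin u ξ - 1 ∈ W`, `x ≡ ξ`), so `nI p > w` (WD_le), `W, p` coprime.
`nI p ≤ Q^b` (`T.prod_le` for a nonzero entry).  For a given `p` the `x_i` lie in one class modulo `p W` (if two elements are in `p` and congruent modulo `W` then their difference is in `p ∩ W = p W`) and modulo `WD P w`: at most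
`1 + Q * Q^b/(nI p * NW)` values (class_up).  If `nI p * NW ≤ Q^b` this is `≤ 2 Q * Q^b / (nI p NW)`, and the sum over `p` of the `(n+1)`-th powers is `≤ (2Q)^(n+1) (Q^b/NW)^(n+1) * sum 1/(nI p)^2`, dvTail (pairs `(p, ⊤)`); otherwise at most `2 Q` values, and at most
`C Q^b` primes (dvCount).
uniP: `P` has only the primes containing `s`, of norm `≤ Q ≤ w` (nI_mono, nrm_s); if `vtw b x` were not unimodular some prime `p ≠ ⊥` would contain all entries, and `WD P w ≤ p` (WD_le), so `1 ∈ p`.  (If `p = ⊥`: all entries zero, then `1 ∈ WD P w`, which is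
contained in the prime containing `s`: take a maximal ideal above `(s)`, `nI (s) = Q ≥ 2`.)
-/

namespace Pool.Agent.Lib.MP_1ad228_ntZ

open Classical

/-- A vector which is not unimodular has its entries in a maximal ideal. -/
private theorem Cls_max {R : Type} [CommRing R] {n : ℕ} (x : Vc n R) (h : ¬ Uni x) :
    ∃ p : Ideal R, p.IsMaximal ∧ ∀ l, x l ∈ p := by
  have h1 : Ideal.span (Set.range x) ≠ ⊤ := by
    intro ht
    apply h
    have h1 : (1 : R) ∈ Ideal.span (Set.range x) := by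
      rw [ht]
      trivial
    obtain ⟨c, hc⟩ := Ideal.mem_span_range_iff_exists_fun.mp h1
    exact ⟨c, hc⟩
  obtain ⟨p, hp, hle⟩ := Ideal.exists_le_maximal _ h1
  exact ⟨p, hp, fun l => hle (Ideal.subset_span ⟨l, rfl⟩)⟩

/-- A maximal ideal with all entries of a vector of a unimodular class does not contain the modulus. -/
private theorem Cls_not_le {R : Type} [CommRing R] {n : ℕ} {x ξ u : Vc n R} {W p : Ideal R}
    (hu : lin u ξ - 1 ∈ W) (h1 : ∀ l, x l - ξ l ∈ W) (hp : p.IsMaximal) (h2 : ∀ l, x l ∈ p) :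
    ¬ W ≤ p := by
  intro hW
  have h3 : ∀ l, ξ l ∈ p := by
    intro l
    have h4 : ξ l = x l - (x l - ξ l) := by ring
    rw [h4]
    exact p.sub_mem (h2 l) (hW (h1 l))
  have h6 : lin u ξ ∈ p := p.sum_mem fun l _ => p.mul_mem_left _ (h3 l)
  have h7 : (1 : R) ∈ p := by
    have h8 : (1 : R) = lin u ξ - (lin u ξ - 1) := by ring
    rw [h8]
    exact p.sub_mem h6 (hW hu)
  exact hp.ne_top ((Ideal.eq_top_iff_one p).2 h7)

private theorem Cls_pow (n : ℕ) (t : ℝ) (ht : 0 ≤ t) :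
    (1 + t) ^ (n + 1) ≤ 2 ^ (n + 1) * (1 + t ^ (n + 1)) := by
  rcases le_total 1 t with h | h
  · have h1 : (1 + t) ^ (n + 1) ≤ (2 * t) ^ (n + 1) := pow_le_pow_left₀ (by linarith) (by linarith) _
    rw [mul_pow] at h1
    have h2 : (0 : ℝ) ≤ 2 ^ (n + 1) := by positivity
    linarith
  · have h1 : (1 + t) ^ (n + 1) ≤ 2 ^ (n + 1) := pow_le_pow_left₀ (by linarith) (by linarith) _
    have h2 : (0 : ℝ) ≤ 2 ^ (n + 1) * t ^ (n + 1) := by positivity
    linarith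

namespace TC
variable {K O P : Type} [Field K] [CommRing O] [IsDedekindDomain O] [Algebra O K]
  [IsFractionRing O K] [CommRing P] [IsDedekindDomain P] [Algebra P K]
  [IsFractionRing P K] (T : TC K O P)

/-- Points in a residue class of level `w`. -/
noncomputable def Cls {n : ℕ} (w b : ℕ) (ξ : Vc n O) (ξ' : Vc n P) : Finset (Vc n O) :=
  (T.VB n b).filter fun x => (∀ i, x i - ξ i ∈ WD O w) ∧ ∀ i, T.vtw b x i - ξ' i ∈ WD P w

variable (O P) in
/-- The norm of the modulus of level `w`. -/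
noncomputable def NW (w : ℕ) : ℕ := nI (WD O w) * nI (WD P w)

include T in
theorem NW_pos (w : ℕ) : 0 < NW O P w :=
  Nat.mul_pos (nI_pos T.finO (WD_ne_bot (T.fewO w))) (nI_pos T.finP (WD_ne_bot (T.fewP w)))

theorem card_Cls {n : ℕ} {w b : ℕ} (h : T.C1 * NW O P w ≤ T.Q ^ b) (ξ : Vc n O) (ξ' : Vc n P) :
    (T.Cls w b ξ ξ').card * NW O P w ^ (n + 1) = T.h b ^ (n + 1) := by
  have h1 : T.Cls w b ξ ξ' = Fintype.piFinset fun i : Fin (n + 1) =>
      (T.H b).filter fun z => z - ξ i ∈ WD O w ∧ T.tw b z - ξ' i ∈ WD P w := by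
    ext x
    rw [Cls, Finset.mem_filter, mem_VB, Fintype.mem_piFinset]
    constructor
    · rintro ⟨h1, h2, h3⟩ i
      exact Finset.mem_filter.2 ⟨h1 i, h2 i, h3 i⟩
    · intro h1
      exact ⟨fun i => (Finset.mem_filter.1 (h1 i)).1, fun i => (Finset.mem_filter.1 (h1 i)).2.1,
        fun i => (Finset.mem_filter.1 (h1 i)).2.2⟩
  have h2 : ∀ i : Fin (n + 1), ((T.H b).filter fun z => z - ξ i ∈ WD O w ∧
      T.tw b z - ξ' i ∈ WD P w).card * NW O P w = T.h b := fun i =>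
    T.class_eq (WD_ne_bot (T.fewO w)) (WD_ne_bot (T.fewP w)) h (ξ i) (ξ' i)
  rw [h1, Fintype.card_piFinset]
  have h3 : NW O P w ^ (n + 1) = ∏ _i : Fin (n + 1), NW O P w := by
    rw [Finset.prod_const, Finset.card_univ, Fintype.card_fin]
  have h4 : T.h b ^ (n + 1) = ∏ _i : Fin (n + 1), T.h b := by
    rw [Finset.prod_const, Finset.card_univ, Fintype.card_fin]
  rw [h3, h4, ← Finset.prod_mul_distrib]
  exact Finset.prod_congr rfl fun i _ => h2 i

/-- The points of the class with entries in the maximal ideal `p`. -/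
private theorem Cls_p (n : ℕ) (hn : 1 ≤ n) {w b : ℕ} {p : Ideal O} (hp : p.IsMaximal)
    (hp0 : p ≠ ⊥) (hW : ¬ WD O w ≤ p) (ξ : Vc n O) (ξ' : Vc n P) :
    (((T.Cls w b ξ ξ').filter fun x => ∀ l, x l ∈ p).card : ℝ) ≤
      (2 ^ (n + 1) * (T.Q : ℝ) ^ (n + 1)) *
        (1 + ((T.Q : ℝ) ^ b / (NW O P w : ℝ)) ^ (n + 1) * (1 / (nI p : ℝ) ^ 2)) := by
  have hQ1 : (1 : ℝ) ≤ T.Q := by
    have := T.two_le
    exact_mod_cast (by omega : 1 ≤ T.Q)
  have hW0 := WD_ne_bot (T.fewO w)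
  have hW0' := WD_ne_bot (T.fewP w)
  have hNW : (0 : ℝ) < (NW O P w : ℝ) := by exact_mod_cast T.NW_pos w
  have hN1 : (1 : ℝ) ≤ (nI p : ℝ) := by exact_mod_cast nI_pos T.finO hp0
  have hN0 : (0 : ℝ) < (nI p : ℝ) := by linarith
  set XP := (T.Cls w b ξ ξ').filter fun x => ∀ l, x l ∈ p with hXP
  have hsup : p ⊔ WD O w = ⊤ := by
    refine hp.out.2 _ (lt_of_le_of_ne le_sup_left fun he => hW ?_)
    rw [he]
    exact le_sup_right
  have hco : IsCoprime p (WD O w) := Ideal.isCoprime_iff_sup_eq.2 hsup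
  have hmul : p ⊓ WD O w = p * WD O w := (Ideal.mul_eq_inf_of_isCoprime hco).symm
  have hI0 : p * WD O w ≠ ⊥ := by
    rw [Ne, Ideal.mul_eq_bot]
    rintro (h | h)
    · exact hp0 h
    · exact hW0 h
  have hIN : ((nI (p * WD O w) : ℕ) : ℝ) * (nI (WD P w) : ℝ) = (nI p : ℝ) * (NW O P w : ℝ) := by
    rw [nI_mul T.finO hp0 hW0]
    unfold NW
    push_cast
    ring
  set tt : ℝ := T.Q * ((T.Q : ℝ) ^ b / ((nI p : ℝ) * (NW O P w : ℝ))) with htt
  have htt0 : 0 ≤ tt := by positivity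
  have hcoord : ∀ l, ((XP.image fun x => x l).card : ℝ) ≤ 1 + tt := by
    intro l
    rcases Finset.eq_empty_or_nonempty XP with he | ⟨x0, hx0⟩
    · rw [he]
      simp only [Finset.image_empty, Finset.card_empty, Nat.cast_zero]
      linarith
    · have h1 : (XP.image fun x => x l) ⊆ (T.H b).filter fun z => z - x0 l ∈ p * WD O w ∧
          T.tw b z - T.tw b (x0 l) ∈ WD P w := by
        intro z hz
        rw [Finset.mem_image] at hz
        obtain ⟨x, hx, rfl⟩ := hz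
        rw [hXP, Finset.mem_filter, Cls, Finset.mem_filter, mem_VB] at hx hx0
        rw [Finset.mem_filter]
        refine ⟨hx.1.1 l, ?_, ?_⟩
        · rw [← hmul]
          refine ⟨p.sub_mem (hx.2 l) (hx0.2 l), ?_⟩
          have h1 : x l - x0 l = (x l - ξ l) - (x0 l - ξ l) := by ring
          rw [h1]
          exact (WD O w).sub_mem (hx.1.2.1 l) (hx0.1.2.1 l)
        · have h1 : T.tw b (x l) - T.tw b (x0 l) = (T.vtw b x l - ξ' l) - (T.vtw b x0 l - ξ' l) := by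
            unfold vtw
            ring
          rw [h1]
          exact (WD P w).sub_mem (hx.1.2.2 l) (hx0.1.2.2 l)
      have h2 := T.class_up b hI0 hW0' (x0 l) (T.tw b (x0 l))
      rw [hIN] at h2
      exact le_trans (by exact_mod_cast Finset.card_le_card h1) h2
  have hsub : XP ⊆ Fintype.piFinset fun l : Fin (n + 1) => XP.image fun x => x l := by
    intro x hx
    rw [Fintype.mem_piFinset]
    intro l
    exact Finset.mem_image_of_mem _ hx
  have h1 : (XP.card : ℝ) ≤ (1 + tt) ^ (n + 1) := by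
    calc (XP.card : ℝ) ≤ ((Fintype.piFinset fun l : Fin (n + 1) => XP.image fun x => x l).card : ℝ) := by
          exact_mod_cast Finset.card_le_card hsub
      _ = ∏ l : Fin (n + 1), ((XP.image fun x => x l).card : ℝ) := by
          rw [Fintype.card_piFinset]
          push_cast
          rfl
      _ ≤ ∏ _l : Fin (n + 1), (1 + tt) :=
          Finset.prod_le_prod (fun _ _ => Nat.cast_nonneg _) fun l _ => hcoord l
      _ = _ := by rw [Finset.prod_const, Finset.card_univ, Fintype.card_fin]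
  have h2 := Cls_pow n tt htt0
  have h3 : tt ^ (n + 1) ≤ (T.Q : ℝ) ^ (n + 1) *
      (((T.Q : ℝ) ^ b / (NW O P w : ℝ)) ^ (n + 1) * (1 / (nI p : ℝ) ^ 2)) := by
    have e1 : tt ^ (n + 1) = (T.Q : ℝ) ^ (n + 1) *
        (((T.Q : ℝ) ^ b / (NW O P w : ℝ)) ^ (n + 1) * (1 / (nI p : ℝ) ^ (n + 1))) := by
      rw [htt, mul_pow, div_pow, mul_pow, div_pow]
      field_simp
    rw [e1]
    have e2 : 1 / (nI p : ℝ) ^ (n + 1) ≤ 1 / (nI p : ℝ) ^ 2 :=
      one_div_le_one_div_of_le (by positivity) (pow_le_pow_right₀ hN1 (by omega))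
    exact mul_le_mul_of_nonneg_left (mul_le_mul_of_nonneg_left e2 (by positivity)) (by positivity)
  have h4 : (1 : ℝ) ≤ (T.Q : ℝ) ^ (n + 1) := one_le_pow₀ hQ1
  have h5 : 1 + tt ^ (n + 1) ≤ (T.Q : ℝ) ^ (n + 1) *
      (1 + ((T.Q : ℝ) ^ b / (NW O P w : ℝ)) ^ (n + 1) * (1 / (nI p : ℝ) ^ 2)) := by
    rw [mul_add, mul_one]
    exact add_le_add h4 h3
  calc (XP.card : ℝ) ≤ (1 + tt) ^ (n + 1) := h1
    _ ≤ 2 ^ (n + 1) * (1 + tt ^ (n + 1)) := h2
    _ ≤ 2 ^ (n + 1) * ((T.Q : ℝ) ^ (n + 1) *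
      (1 + ((T.Q : ℝ) ^ b / (NW O P w : ℝ)) ^ (n + 1) * (1 / (nI p : ℝ) ^ 2))) :=
        mul_le_mul_of_nonneg_left h5 (by positivity)
    _ = _ := by ring

theorem nonUni (n : ℕ) (hn : 1 ≤ n) : ∃ C : ℝ, 1 ≤ C ∧ ∀ (w b : ℕ) (ξ u : Vc n O) (ξ' : Vc n P),
    lin u ξ - 1 ∈ WD O w →
    (((T.Cls w b ξ ξ').filter fun x => ¬ Uni x).card : ℝ) ≤
      C * (((T.Q : ℝ) ^ b / (NW O P w : ℝ)) ^ (n + 1) / (w + 1) + (T.Q : ℝ) ^ b) := by
  obtain ⟨Cc, hCc, hcnt⟩ := T.dvCount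
  obtain ⟨Ct, hCt, htail⟩ := T.dvTail
  have hQ1 : (1 : ℝ) ≤ T.Q := by
    have := T.two_le
    exact_mod_cast (by omega : 1 ≤ T.Q)
  set C1 : ℝ := 2 ^ (n + 1) * (T.Q : ℝ) ^ (n + 1) with hC1
  have hC1' : 1 ≤ C1 := by
    rw [hC1]
    exact one_le_mul_of_one_le_of_one_le (one_le_pow₀ (by norm_num)) (one_le_pow₀ hQ1)
  have hC10 : 0 ≤ C1 := by linarith
  refine ⟨1 + C1 * (Cc + Ct), ?_, ?_⟩
  · have : 0 ≤ C1 * (Cc + Ct) := mul_nonneg hC10 (by linarith)
    linarith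
  intro w b ξ u ξ' hu
  have hNW : (0 : ℝ) < (NW O P w : ℝ) := by exact_mod_cast T.NW_pos w
  have hQb : (1 : ℝ) ≤ (T.Q : ℝ) ^ b := one_le_pow₀ hQ1
  set A : ℝ := ((T.Q : ℝ) ^ b / (NW O P w : ℝ)) ^ (n + 1) with hA
  have hA0 : 0 ≤ A := by positivity
  set F := (T.Cls w b ξ ξ').filter fun x => x ≠ 0 ∧ ¬ Uni x with hF
  have hex : ∀ x ∈ F, ∃ p : Ideal O, (p.IsMaximal ∧ p ≠ ⊥ ∧ ¬ WD O w ≤ p ∧
      w < nI p ∧ nI p ≤ T.Q ^ b) ∧ ∀ l, x l ∈ p := by
    intro x hx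
    rw [hF, Finset.mem_filter, Cls, Finset.mem_filter, mem_VB] at hx
    obtain ⟨p, hp, hpx⟩ := Cls_max x hx.2.2
    obtain ⟨l, hl⟩ : ∃ l, x l ≠ 0 := by
      by_contra hcon
      push Not at hcon
      exact hx.2.1 (funext hcon)
    have hp0 : p ≠ ⊥ := by
      intro h0
      have h3 := hpx l
      rw [h0, Ideal.mem_bot] at h3
      exact hl h3
    have h1 := Cls_not_le hu hx.1.2.1 hp hpx
    refine ⟨p, ⟨hp, hp0, h1, ?_, ?_⟩, hpx⟩
    · by_contra hcon
      exact h1 (WD_le T.finO (T.fewO w) hp0 (not_lt.1 hcon))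
    · have h2 := T.prod_le b (x l) (T.tw b (x l)) hl (T.tw_spec (hx.1.1 l)) p ⊤ (hpx l)
        Submodule.mem_top
      rwa [nI_top, mul_one] at h2
  choose! p hp using hex
  set PS := F.image p with hPS
  have hgood : ∀ q ∈ PS, q.IsMaximal ∧ q ≠ ⊥ ∧ ¬ WD O w ≤ q ∧ w < nI q ∧ nI q ≤ T.Q ^ b := by
    intro q hq
    rw [hPS, Finset.mem_image] at hq
    obtain ⟨x, hx, rfl⟩ := hq
    exact (hp x hx).1
  have hsub : F ⊆ PS.biUnion fun q => (T.Cls w b ξ ξ').filter fun x => ∀ l, x l ∈ q := by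
    intro x hx
    rw [Finset.mem_biUnion]
    refine ⟨p x, Finset.mem_image_of_mem _ hx, ?_⟩
    have h1 := (hp x hx).2
    rw [hF, Finset.mem_filter] at hx
    rw [Finset.mem_filter]
    exact ⟨hx.1, h1⟩
  have h1 : (F.card : ℝ) ≤ ∑ q ∈ PS, (((T.Cls w b ξ ξ').filter fun x => ∀ l, x l ∈ q).card : ℝ) := by
    exact_mod_cast (Finset.card_le_card hsub).trans Finset.card_biUnion_le
  have h2 : ∀ q ∈ PS, (((T.Cls w b ξ ξ').filter fun x => ∀ l, x l ∈ q).card : ℝ) ≤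
      C1 * (1 + A * (1 / (nI q : ℝ) ^ 2)) := by
    intro q hq
    obtain ⟨q1, q2, q3, -, -⟩ := hgood q hq
    exact T.Cls_p n hn q1 q2 q3 ξ ξ'
  -- pairs with the unit ideal
  have htop : (⊤ : Ideal P) ≠ ⊥ := top_ne_bot
  have hinj : Set.InjOn (fun q : Ideal O => (q, (⊤ : Ideal P))) PS := fun q _ q' _ h =>
    (Prod.mk.inj h).1
  set S : Finset (Ideal O × Ideal P) := PS.image fun q => (q, (⊤ : Ideal P)) with hS
  have hScard : S.card = PS.card := Finset.card_image_of_injOn hinj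
  have hSmem : ∀ s ∈ S, s.1 ∈ PS ∧ s.2 = ⊤ := by
    intro s hs
    rw [hS, Finset.mem_image] at hs
    obtain ⟨q, hq, rfl⟩ := hs
    exact ⟨hq, rfl⟩
  have h3 : (PS.card : ℝ) ≤ Cc * (T.Q : ℝ) ^ b := by
    rw [← hScard]
    refine hcnt _ hQb S fun s hs => ?_
    obtain ⟨hs1, hs2⟩ := hSmem s hs
    obtain ⟨-, q2, -, -, q5⟩ := hgood _ hs1
    refine ⟨q2, by rw [hs2]; exact htop, ?_⟩
    rw [hs2, nI_top, Nat.cast_one, mul_one]
    exact_mod_cast q5
  have h4 : ∑ q ∈ PS, 1 / (nI q : ℝ) ^ 2 ≤ Ct / (w + 1) := by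
    have h5 := htail w S (fun s hs => by
      obtain ⟨hs1, hs2⟩ := hSmem s hs
      obtain ⟨-, q2, -, q4, -⟩ := hgood _ hs1
      refine ⟨q2, by rw [hs2]; exact htop, ?_⟩
      rw [hs2, nI_top, Nat.cast_one, mul_one]
      exact_mod_cast q4)
    rw [hS, Finset.sum_image hinj] at h5
    simpa only [nI_top, Nat.cast_one, mul_one] using h5
  have h6 : (F.card : ℝ) ≤ C1 * (Cc * (T.Q : ℝ) ^ b + A * (Ct / (w + 1))) := by
    refine h1.trans ((Finset.sum_le_sum h2).trans ?_)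
    rw [← Finset.mul_sum, Finset.sum_add_distrib, Finset.sum_const, nsmul_eq_mul, mul_one,
      ← Finset.mul_sum]
    exact mul_le_mul_of_nonneg_left (add_le_add h3 (mul_le_mul_of_nonneg_left h4 hA0)) hC10
  have h7 : (((T.Cls w b ξ ξ').filter fun x => ¬ Uni x).card : ℝ) ≤ 1 + F.card := by
    have h8 : ((T.Cls w b ξ ξ').filter fun x => ¬ Uni x) ⊆ {0} ∪ F := by
      intro x hx
      rw [Finset.mem_filter] at hx
      rw [Finset.mem_union, Finset.mem_singleton]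
      by_cases h0 : x = 0
      · exact Or.inl h0
      · right
        rw [hF, Finset.mem_filter]
        exact ⟨hx.1, h0, hx.2⟩
    have h9 := (Finset.card_le_card h8).trans (Finset.card_union_le _ _)
    rw [Finset.card_singleton] at h9
    exact_mod_cast h9
  have hw1 : (0 : ℝ) < (w : ℝ) + 1 := by positivity
  have h10 : 0 ≤ A / ((w : ℝ) + 1) := by positivity
  have h11 : C1 * (Cc * (T.Q : ℝ) ^ b + A * (Ct / (w + 1))) =
      C1 * Cc * (T.Q : ℝ) ^ b + C1 * Ct * (A / (w + 1)) := by ring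
  have h12 : (1 + C1 * (Cc + Ct)) * (A / ((w : ℝ) + 1) + (T.Q : ℝ) ^ b) =
      (T.Q : ℝ) ^ b + C1 * Cc * (T.Q : ℝ) ^ b + C1 * Ct * (A / (w + 1)) + (A / (w + 1) +
        C1 * Cc * (A / (w + 1)) + C1 * Ct * (T.Q : ℝ) ^ b) := by ring
  have h13 : 0 ≤ A / ((w : ℝ) + 1) + C1 * Cc * (A / (w + 1)) + C1 * Ct * (T.Q : ℝ) ^ b := by
    have e1 : 0 ≤ C1 * Cc := mul_nonneg hC10 (by linarith)
    have e2 : 0 ≤ C1 * Ct := mul_nonneg hC10 (by linarith)
    have e3 := mul_nonneg e1 h10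
    have e4 := mul_nonneg e2 (by linarith : (0 : ℝ) ≤ (T.Q : ℝ) ^ b)
    linarith
  rw [h12]
  rw [h11] at h6
  linarith

theorem uniP {n w b : ℕ} (hw : T.Q ≤ w) {ξ : Vc n O} {ξ' u : Vc n P}
    (hs : ∀ p : Ideal P, p.IsPrime → p ≠ ⊥ → T.s ∈ p)
    (hu : lin u ξ' - 1 ∈ WD P w) {x : Vc n O} (hx : x ∈ T.Cls w b ξ ξ') : Uni (T.vtw b x) := by
  by_contra hcon
  obtain ⟨m, hm, hmx⟩ := Cls_max (T.vtw b x) hcon
  rw [Cls, Finset.mem_filter] at hx
  have hs0 : Ideal.span {T.s} ≠ ⊥ := by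
    rw [Ne, Ideal.span_singleton_eq_bot]
    exact T.s_ne'
  have hm0 : m ≠ ⊥ := by
    intro h0
    have h1 : Ideal.span {T.s} = ⊤ := by
      refine hm.out.2 _ ?_
      rw [h0]
      exact bot_lt_iff_ne_bot.2 hs0
    have h2 := T.nrm_s
    rw [h1, nI_top] at h2
    have := T.two_le
    omega
  have h1 : Ideal.span {T.s} ≤ m := by
    rw [Ideal.span_singleton_le_iff_mem]
    exact hs m hm.isPrime hm0
  have h2 : nI m ≤ w := by
    have h3 := nI_mono T.finP hs0 h1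
    rw [T.nrm_s] at h3
    omega
  exact Cls_not_le hu hx.2.2 hm hmx (WD_le T.finP (T.fewP w) hm0 h2)

end TC

end Pool.Agent.Lib.MP_1ad228_ntZ
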