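import Pool.Agent.Lib.MP_1ad228_ntZ.Var
import Pool.Agent.Lib.MP_1ad228_ntZ.N2

/-!
MP_1ad228_ntZ, file EEZ.  Notation for the final estimates: the expected number `EE` of points, the
near term `Ne`, control of the pairs of test points `PairOK`.
-/

namespace Pool.Agent.Lib.MP_1ad228_ntZ

open Classical

namespace TC
variable {K O P : Type} [Field K] [CommRing O] [IsDedekindDomain O] [Algebra O K]
  [IsFractionRing O K] [CommRing P] [IsDedekindDomain P] [Algebra P K]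
  [IsFractionRing P K] (T : TC K O P)

/-- The expected number of points. -/
noncomputable def EE (n : ℕ) {r : ℕ} (d : Fin r → ℕ) (a b : ℕ) : ℝ :=
  (T.Q : ℝ) ^ (b * (n + 1)) / ∏ i, (T.h (a + d i * b) : ℝ)

/-- The near term. -/
noncomputable def Ne (n r b g : ℕ) : ℝ :=
  (T.Q : ℝ) ^ (g * n + (g + b) * (r + 1)) / (T.Q : ℝ) ^ (b * (n + 1))

/-- The pairs of test points are under control when `2 g + c1 ≤ a + k`. -/
def PairOK (n : ℕ) {r : ℕ} (d : Fin r → ℕ) (k : ℕ) : Prop :=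
  ∃ lam : ℝ, 1 ≤ lam ∧ ∃ CX : ℝ, 0 ≤ CX ∧ ∀ a b g : ℕ, g + T.c1 ≤ a → 2 * g + T.c1 ≤ a + k →
    (∀ i, ∀ x ∈ T.GG n b g, ∀ y ∈ T.GG n b g, ¬ Prp x y →
      (T.n2 (d i) x y a : ℝ) * (T.h (a + d i * b) : ℝ) ^ 2 ≤
        lam * (T.h a : ℝ) ^ (n + 1) ^ d i * T.nD b x y) ∧
    ∃ X : Finset (Vc n O × Vc n O),
      (X.card : ℝ) ≤ CX * (T.Q : ℝ) ^ (g * (2 * n * (n + 1) - 1)) ∧
      ∀ w i, ∀ x ∈ T.GG n b g, ∀ y ∈ T.GG n b g, ¬ Prp x y → (x, y) ∉ X → WD O w ≤ Dd x y →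
        WD P w ≤ Dd (T.vtw b x) (T.vtw b y) → ∀ m ∈ T.MS w (a + d i * b),
        ∀ m' ∈ T.MS w (a + d i * b), T.sl (d i) a x y m m' = T.n2 (d i) x y a

theorem two_le_Q : (2 : ℝ) ≤ (T.Q : ℝ) := by
  exact_mod_cast T.two_le

theorem EE_pos (n : ℕ) {r : ℕ} (d : Fin r → ℕ) (a b : ℕ) : 0 < T.EE n d a b := by
  have h := T.two_le_Q
  have h2 : ∀ i, (0 : ℝ) < (T.h (a + d i * b) : ℝ) := fun i => by exact_mod_cast T.h_pos _
  unfold EE
  exact div_pos (pow_pos (by linarith) _) (Finset.prod_pos fun i _ => h2 i)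

theorem Ne_nonneg (n r b g : ℕ) : 0 ≤ T.Ne n r b g := by
  have h := T.two_le_Q
  unfold Ne
  positivity

theorem Ne_le {n r b g A : ℕ} (h : g * n + (g + b) * (r + 1) + A ≤ b * (n + 1)) :
    T.Ne n r b g * (T.Q : ℝ) ^ A ≤ 1 := by
  have hQ := T.two_le_Q
  unfold Ne
  rw [div_mul_eq_mul_div, div_le_one (pow_pos (by linarith) _), ← pow_add]
  exact pow_le_pow_right₀ (by linarith) h

/-- Lower bound of the expected number of points. -/
theorem EE_ge {n r : ℕ} (d : Fin r → ℕ) {a b A : ℕ} (hD : ∑ i, d i ≤ n)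
    (h : r * a + r + A ≤ b * (n + 1 - ∑ i, d i)) : (T.Q : ℝ) ^ A ≤ T.EE n d a b := by
  have hQ := T.two_le_Q
  have h2 : ∀ i, (0 : ℝ) < (T.h (a + d i * b) : ℝ) := fun i => by exact_mod_cast T.h_pos _
  unfold EE
  rw [le_div_iff₀ (Finset.prod_pos fun i _ => h2 i)]
  have h3 : ∏ i, (T.h (a + d i * b) : ℝ) ≤ ∏ i, (T.Q : ℝ) ^ (a + d i * b + 1) :=
    Finset.prod_le_prod (fun i _ => (h2 i).le) fun i _ => by
      have := T.h_up (a + d i * b)
      exact_mod_cast this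
  rw [Finset.prod_pow_eq_pow_sum] at h3
  have h4 : ∑ i, (a + d i * b + 1) = r * a + (∑ i, d i) * b + r := by
    rw [Finset.sum_add_distrib, Finset.sum_add_distrib, ← Finset.sum_mul]
    simp
  rw [h4] at h3
  calc (T.Q : ℝ) ^ A * ∏ i, (T.h (a + d i * b) : ℝ)
      ≤ (T.Q : ℝ) ^ A * (T.Q : ℝ) ^ (r * a + (∑ i, d i) * b + r) :=
        mul_le_mul_of_nonneg_left h3 (pow_nonneg (by linarith) _)
    _ = (T.Q : ℝ) ^ (A + (r * a + (∑ i, d i) * b + r)) := (pow_add _ _ _).symm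
    _ ≤ (T.Q : ℝ) ^ (b * (n + 1)) := by
        refine pow_le_pow_right₀ (by linarith) ?_
        obtain ⟨e, he⟩ : ∃ e, e + ∑ i, d i = n + 1 := ⟨n + 1 - ∑ i, d i, by omega⟩
        have he' : n + 1 - ∑ i, d i = e := by omega
        rw [he'] at h
        have h5 : b * (n + 1) = b * e + (∑ i, d i) * b := by rw [← he]; ring
        rw [h5]
        omega

end TC

end Pool.Agent.Lib.MP_1ad228_ntZ
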