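import Pool.Agent.Lib.MP_1ad228_ntZ.Nrm

/-!
LEAF FA.  Integral closures of principal ideal domains with finite quotients.
`S` is free of rank `[K:k]` over `A` (`IsIntegralClosure.module_free`, `IsIntegralClosure.finite`, `IsIntegralClosure.rank`; `Module.IsTorsionFree A K` from injectivity of `A → K`).
FA_norm: `a = Algebra.norm A z`; `Algebra.norm_localization` (`K` is the localization of `S` at `A \ 0`: `IsIntegralClosure.isLocalization_of_isSeparable`) gives the norm over `k`.
`S / (z) ≅ prod A / (c_i)` (`Ideal.quotientEquivPiSpan`), `a` associated to `prod c_i` (`associated_norm_prod_smith`), and `nI (span {c c'}) = nI (span {c}) nI (span {c'})` (nI_mul of Nrm; `Ideal.span_singleton_mul_span_singleton`).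
FA_fin: `I` contains some `z ≠ 0`, `S / (z)` is finite by the same isomorphism, `S/I` is a quotient.  FA_basis: a basis of `S` over `A`; it is a basis of `K` over `k` (`Module.Basis.localizationLocalization`).
few_ideals: `R` infinite: choose `w + 1` distinct elements; if `nI I ≤ w`, `I ≠ ⊥` (so `R/I` is finite: nI I = 0 is impossible? NOTE: if `R/I` is infinite then `nI I = 0 ≤ w`; use the hypothesis `hfin`), two of them are congruent modulo `I`,
so `I` contains one of finitely many nonzero elements; a nonzero element lies in finitely many ideals (divisors of a nonzero ideal: `UniqueFactorizationMonoid.fintypeSubtypeDvd` for `Ideal R`, or `Ideal.finite_factors`-type lemmas).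
-/

namespace Pool.Agent.Lib.MP_1ad228_ntZ

open Classical
open scoped nonZeroDivisors

private theorem FA_prod {R ι : Type} [CommRing R] [IsDedekindDomain R]
    (hfin : ∀ I : Ideal R, I ≠ ⊥ → Finite (R ⧸ I)) (s : Finset ι) (c : ι → R)
    (hc : ∀ i, c i ≠ 0) :
    nI (Ideal.span {∏ i ∈ s, c i}) = ∏ i ∈ s, nI (Ideal.span {c i}) := by
  induction s using Finset.induction_on with
  | empty =>
    rw [Finset.prod_empty, Finset.prod_empty, Ideal.span_singleton_one, nI_top]
  | insert i s hi ih =>
    rw [Finset.prod_insert hi, Finset.prod_insert hi, ← Ideal.span_singleton_mul_span_singleton,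
      nI_mul hfin, ih]
    · rw [Ne, Ideal.span_singleton_eq_bot]
      exact hc i
    · rw [Ne, Ideal.span_singleton_eq_bot]
      exact Finset.prod_ne_zero_iff.2 fun j _ => hc j

section pid
variable (A k : Type) {K S : Type} [CommRing A] [IsDomain A] [IsPrincipalIdealRing A] [Field k]
  [Algebra A k] [IsFractionRing A k] [Field K] [Algebra k K] [Algebra A K] [IsScalarTower A k K]
  [FiniteDimensional k K] [Algebra.IsSeparable k K] [CommRing S] [Algebra A S] [Algebra S K]
  [IsScalarTower A S K] [IsIntegralClosure S A K]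

include k K in
private theorem FA_inst : IsDomain S ∧ Module.Free A S ∧ Module.Finite A S ∧
    Module.finrank A S = Module.finrank k K ∧ IsLocalization (Algebra.algebraMapSubmonoid S A⁰) K := by
  have h0 : IsDomain S :=
    (IsIntegralClosure.equiv A S K (integralClosure A K)).toMulEquiv.isDomain (integralClosure A K)
  have h1 : Module.IsTorsionFree A K := .trans_faithfulSMul A k K
  exact ⟨h0, IsIntegralClosure.module_free A k K S, IsIntegralClosure.finite A k K S,
    IsIntegralClosure.rank A k K S, IsIntegralClosure.isLocalization A k K S⟩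

include k in
theorem FA_norm (hfin : ∀ I : Ideal A, I ≠ ⊥ → Finite (A ⧸ I)) {z : S} (hz : z ≠ 0) :
    ∃ a : A, a ≠ 0 ∧ algebraMap A k a = Algebra.norm k (algebraMap S K z) ∧
      nI (Ideal.span {z}) = nI (Ideal.span {a}) := by
  obtain ⟨h0, h1, h2, h3, h4⟩ := FA_inst A k (K := K) (S := S)
  have hz' : Ideal.span {z} ≠ ⊥ := by
    rw [Ne, Ideal.span_singleton_eq_bot]
    exact hz
  let b := Module.Free.chooseBasis A S
  refine ⟨Algebra.norm A z, (Algebra.norm_ne_zero_iff_of_basis b).2 hz,
    (Algebra.norm_localization (Rₘ := k) (Sₘ := K) A A⁰ z).symm, ?_⟩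
  have h5 := associated_norm_prod_smith b hz
  rw [Ideal.span_singleton_eq_span_singleton.2 h5,
    FA_prod hfin _ _ fun i => Ideal.smithCoeffs_ne_zero b _ hz' i]
  unfold nI
  rw [Nat.card_congr (Ideal.quotientEquivPiSpan (Ideal.span {z}) b hz').toEquiv, Nat.card_pi]

include k K in
theorem FA_fin (hfin : ∀ I : Ideal A, I ≠ ⊥ → Finite (A ⧸ I)) (I : Ideal S) (hI : I ≠ ⊥) :
    Finite (S ⧸ I) := by
  obtain ⟨h0, h1, h2, h3, h4⟩ := FA_inst A k (K := K) (S := S)
  let b := Module.Free.chooseBasis A S
  have h5 : ∀ i, Finite (A ⧸ Ideal.span ({I.smithCoeffs b hI i} : Set A)) := fun i =>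
    hfin _ (by
      rw [Ne, Ideal.span_singleton_eq_bot]
      exact Ideal.smithCoeffs_ne_zero b I hI i)
  exact Finite.of_equiv _ (Ideal.quotientEquivPiSpan I b hI).toEquiv.symm

theorem FA_basis : ∃ ω : Fin (Module.finrank k K) → S,
    (∀ z : S, ∃ c : Fin (Module.finrank k K) → A, z = ∑ i, algebraMap A S (c i) * ω i) ∧
    (∀ κ : K, ∃ c : Fin (Module.finrank k K) → k,
      κ = ∑ i, algebraMap k K (c i) * algebraMap S K (ω i)) ∧
    (∀ c : Fin (Module.finrank k K) → A, ∑ i, algebraMap A S (c i) * ω i = 0 → ∀ i, c i = 0) := by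
  obtain ⟨h0, h1, h2, h3, h4⟩ := FA_inst A k (K := K) (S := S)
  let b : Module.Basis (Fin (Module.finrank k K)) A S := Module.finBasisOfFinrankEq A S h3
  refine ⟨b, fun z => ⟨fun i => b.repr z i, ?_⟩, fun κ =>
    ⟨fun i => (b.localizationLocalization k A⁰ K).repr κ i, ?_⟩, fun c hc => ?_⟩
  · conv_lhs => rw [← b.sum_repr z]
    exact Finset.sum_congr rfl fun i _ => Algebra.smul_def _ _
  · conv_lhs => rw [← (b.localizationLocalization k A⁰ K).sum_repr κ]
    refine Finset.sum_congr rfl fun i _ => ?_
    rw [Module.Basis.localizationLocalization_apply, Algebra.smul_def]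
  · refine Fintype.linearIndependent_iff.1 b.linearIndependent c ?_
    rw [← hc]
    exact Finset.sum_congr rfl fun i _ => Algebra.smul_def _ _

end pid

theorem few_ideals (R : Type) [CommRing R] [IsDedekindDomain R] [Infinite R]
    (hfin : ∀ I : Ideal R, I ≠ ⊥ → Finite (R ⧸ I)) (w : ℕ) : (ideals R w).Finite := by
  have hdiv : ∀ x : R, x ≠ 0 → {I : Ideal R | x ∈ I}.Finite := by
    intro x hx
    have h1 : Ideal.span {x} ≠ 0 := by
      rw [Ne, Ideal.zero_eq_bot, Ideal.span_singleton_eq_bot]
      exact hx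
    have h2 := UniqueFactorizationMonoid.fintypeSubtypeDvd (Ideal.span {x}) h1
    have h3 : {I : Ideal R | x ∈ I} = {I : Ideal R | I ∣ Ideal.span {x}} := by
      ext I
      exact (Ideal.dvd_iff_le.trans (Ideal.span_singleton_le_iff_mem I)).symm
    rw [h3]
    exact Set.finite_coe_iff.1 (@Finite.of_fintype _ h2)
  let e := Infinite.natEmbedding R
  have hfin2 : (⋃ i : Fin (w + 1), ⋃ j : Fin (w + 1), {I : Ideal R | e i ≠ e j ∧ e i - e j ∈ I}).Finite := by
    refine Set.finite_iUnion fun i => Set.finite_iUnion fun j => ?_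
    by_cases h : e i = e j
    · refine Set.Finite.subset Set.finite_empty fun I hI => ?_
      exact hI.1 h
    · exact (hdiv _ (sub_ne_zero.2 h)).subset fun I hI => hI.2
  refine hfin2.subset fun I hI => ?_
  have := hfin I hI.1
  have h4 : Nat.card (R ⧸ I) < Nat.card (Fin (w + 1)) := by
    rw [Nat.card_eq_fintype_card (α := Fin (w + 1)), Fintype.card_fin]
    exact Nat.lt_succ_of_le hI.2
  have h5 : ¬ Function.Injective fun i : Fin (w + 1) => Ideal.Quotient.mk I (e i) := by
    intro h
    exact absurd (Nat.card_le_card_of_injective _ h) (not_le.2 h4)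
  rw [Function.not_injective_iff] at h5
  obtain ⟨i, j, h6, h7⟩ := h5
  rw [Set.mem_iUnion]
  refine ⟨i, ?_⟩
  rw [Set.mem_iUnion]
  exact ⟨j, fun h => h7 (Fin.ext (e.injective h)), Ideal.Quotient.eq.1 h6⟩

end Pool.Agent.Lib.MP_1ad228_ntZ
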