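import Pool.Agent.Lib.MP_1ad228_ntZ.Defs

/-!
Function field base: definitions.  `F` finite field, `K / F(t)` finite separable.
`O` = `FunctionField.ringOfIntegers F K` (integral closure of `F[t]`), `P` = `Pinf F K` = integral closure of the
valuation ring `Ainf F` of `F(t)` at infinity.
-/

namespace Pool.Agent.Lib.MP_1ad228_ntZ

open Polynomial Classical

/-- The valuation ring of `F(t)` at infinity (rational functions of degree at most `0`). -/
noncomputable def Ainf (F : Type) [Field F] : ValuationSubring (RatFunc F) :=
  (RatFunc.inftyValuation F).valuationSubring

/-- The integral closure in `K` of the valuation ring at infinity. -/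
noncomputable def Pinf (F K : Type) [Field F] [Field K] [Algebra (RatFunc F) K] :
    Subalgebra (Ainf F) K := integralClosure (Ainf F) K

end Pool.Agent.Lib.MP_1ad228_ntZ
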