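import Pool.Agent.Lib.MP_1ad228_ntZ.FBDefs

/-!
LEAF FI.  The valuation ring of `F(t)` at infinity, and the polynomial ring.
mem_Ainf: `Valuation.mem_valuationSubring_iff`, `RatFunc.inftyValuation_of_nonzero` (value `exp (intDegree)`).  sA_fac: `z * X^(-intDegree z)` has degree 0 (`RatFunc.intDegree_mul`, `intDegree_inv`), so it and its inverse are in the ring.
DVR: `IsDiscreteValuationRing.ofHasUnitMulPowIrreducibleFactorization` with `sA`, which is irreducible (it generates the elements of negative degree).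
card_Ainf: `A / (s^(m+1))`: the map `F^m → A / (s^m)`, `(a_i) ↦ sum a_i s^i` is bijective: surjective because every `z ∈ A` is `c + s z'` with `c ∈ F` (leading coefficient quotient: `z = f/g`, `deg f ≤ deg g`, `c = coeff f (deg g) / leadingCoeff g`,
`z - c` has degree `< 0`), injective by degrees.  (Or: `#(A/s) = q` and induction with nI-type multiplicativity of powers of the maximal ideal of a DVR.)
nI_poly: `F[X]/(g)` has dimension `natDegree g` over `F` (`finrank_quotient_span_eq_natDegree`), `Module.card_eq_pow_finrank` / `Module.natCard_eq_pow_finrank`.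
-/

namespace Pool.Agent.Lib.MP_1ad228_ntZ

open Polynomial Classical

variable {F : Type} [Field F]

theorem mem_Ainf {z : RatFunc F} : z ∈ Ainf F ↔ z = 0 ∨ z.intDegree ≤ 0 := by
  unfold Ainf
  rw [Valuation.mem_valuationSubring_iff]
  by_cases hz : z = 0
  · subst hz
    simp
  · rw [RatFunc.inftyValuation_apply, RatFunc.inftyValuation_of_nonzero F hz, ← WithZero.exp_zero,
      WithZero.exp_le_exp]
    simp [hz]

private theorem FI_mem {z : RatFunc F} (h : z.intDegree ≤ 0) : z ∈ Ainf F := mem_Ainf.2 (Or.inr h)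

private theorem FI_deg (z : Ainf F) (hz : z ≠ 0) : (z : RatFunc F).intDegree ≤ 0 := by
  rcases mem_Ainf.1 z.2 with h | h
  · exact absurd (Subtype.ext h) hz
  · exact h

private theorem FI_powX (n : ℕ) : (RatFunc.X ^ n : RatFunc F).intDegree = n := by
  have h : (RatFunc.X ^ n : RatFunc F) = algebraMap F[X] (RatFunc F) (Polynomial.X ^ n) := by
    rw [map_pow, RatFunc.algebraMap_X]
  rw [h, RatFunc.intDegree_polynomial, Polynomial.natDegree_X_pow]

private theorem FI_powXi (n : ℕ) : (RatFunc.X⁻¹ ^ n : RatFunc F).intDegree = -n := by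
  rw [inv_pow, RatFunc.intDegree_inv, FI_powX]

private theorem FI_X : (RatFunc.X : RatFunc F) ≠ 0 := RatFunc.X_ne_zero

variable (F) in
/-- The uniformizer `1 / t`. -/
noncomputable def sA : Ainf F := ⟨RatFunc.X⁻¹, by
  refine FI_mem ?_
  rw [RatFunc.intDegree_inv, RatFunc.intDegree_X]
  norm_num⟩

private theorem FI_sA : ((sA F : Ainf F) : RatFunc F) = RatFunc.X⁻¹ := rfl

theorem sA_ne : sA F ≠ 0 := by
  intro h
  have h1 : (RatFunc.X⁻¹ : RatFunc F) = 0 := congrArg Subtype.val h
  exact FI_X (inv_eq_zero.1 h1)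

/-- Elements of degree zero are units. -/
private theorem FI_unit {z : RatFunc F} (hz : z ≠ 0) (h : z.intDegree = 0) :
    ∃ u : (Ainf F)ˣ, ((u : Ainf F) : RatFunc F) = z := by
  refine ⟨⟨⟨z, FI_mem h.le⟩, ⟨z⁻¹, FI_mem ?_⟩, ?_, ?_⟩, rfl⟩
  · rw [RatFunc.intDegree_inv, h]
    norm_num
  · exact Subtype.ext (mul_inv_cancel₀ hz)
  · exact Subtype.ext (inv_mul_cancel₀ hz)

private theorem FI_unit_deg (u : (Ainf F)ˣ) : ((u : Ainf F) : RatFunc F).intDegree = 0 := by
  have h1 : ((u : Ainf F) : RatFunc F) * (((u⁻¹ : (Ainf F)ˣ) : Ainf F) : RatFunc F) = 1 :=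
    congrArg Subtype.val u.mul_inv
  have hu : ((u : Ainf F) : RatFunc F) ≠ 0 := left_ne_zero_of_mul (by rw [h1]; exact one_ne_zero)
  have hv : (((u⁻¹ : (Ainf F)ˣ) : Ainf F) : RatFunc F) ≠ 0 :=
    right_ne_zero_of_mul (by rw [h1]; exact one_ne_zero)
  have h2 := RatFunc.intDegree_mul hu hv
  rw [h1, RatFunc.intDegree_one] at h2
  have h3 := FI_deg (u : Ainf F) u.ne_zero
  have h4 := FI_deg ((u⁻¹ : (Ainf F)ˣ) : Ainf F) (u⁻¹).ne_zero
  omega

theorem sA_fac (z : Ainf F) (hz : z ≠ 0) :
    ∃ u : (Ainf F)ˣ, z = u * sA F ^ (-(z : RatFunc F).intDegree).toNat := by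
  have hz' : (z : RatFunc F) ≠ 0 := fun h => hz (Subtype.ext h)
  have hd := FI_deg z hz
  set d : ℕ := (-(z : RatFunc F).intDegree).toNat with hdd
  have hd' : (d : ℤ) = -(z : RatFunc F).intDegree := Int.toNat_of_nonneg (by omega)
  have hXd : (RatFunc.X ^ d : RatFunc F) ≠ 0 := pow_ne_zero d FI_X
  obtain ⟨u, hu⟩ := FI_unit (mul_ne_zero hz' hXd) (by
    rw [RatFunc.intDegree_mul hz' hXd, FI_powX]
    omega)
  refine ⟨u, Subtype.ext ?_⟩
  show (z : RatFunc F) = ((u : Ainf F) : RatFunc F) * (RatFunc.X⁻¹) ^ d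
  rw [hu, mul_assoc, ← mul_pow, mul_inv_cancel₀ FI_X, one_pow, mul_one]

private theorem FI_irr : Irreducible (sA F) := by
  refine ⟨?_, ?_⟩
  · rintro ⟨u, hu⟩
    have h1 := FI_unit_deg u
    rw [hu, FI_sA, RatFunc.intDegree_inv, RatFunc.intDegree_X] at h1
    norm_num at h1
  · intro a b hab
    have hab' : (a : RatFunc F) * (b : RatFunc F) = RatFunc.X⁻¹ := (congrArg Subtype.val hab).symm
    have ha : (a : RatFunc F) ≠ 0 := by
      intro h
      rw [h, zero_mul] at hab'
      exact FI_X (inv_eq_zero.1 hab'.symm)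
    have hb : (b : RatFunc F) ≠ 0 := by
      intro h
      rw [h, mul_zero] at hab'
      exact FI_X (inv_eq_zero.1 hab'.symm)
    have h2 := RatFunc.intDegree_mul ha hb
    rw [hab', RatFunc.intDegree_inv, RatFunc.intDegree_X] at h2
    have h3 := FI_deg a (fun h => ha (congrArg Subtype.val h))
    have h4 := FI_deg b (fun h => hb (congrArg Subtype.val h))
    rcases (by omega : (a : RatFunc F).intDegree = 0 ∨ (b : RatFunc F).intDegree = 0) with h | h
    · left
      obtain ⟨u, hu⟩ := FI_unit ha h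
      exact ⟨u, Subtype.ext hu⟩
    · right
      obtain ⟨u, hu⟩ := FI_unit hb h
      exact ⟨u, Subtype.ext hu⟩

instance : IsDiscreteValuationRing (Ainf F) := by
  refine IsDiscreteValuationRing.ofHasUnitMulPowIrreducibleFactorization
    ⟨sA F, FI_irr, fun {x} hx => ?_⟩
  obtain ⟨u, hu⟩ := sA_fac x hx
  exact ⟨(-(x : RatFunc F).intDegree).toNat, u, by rw [mul_comm]; exact hu.symm⟩

private theorem FI_max : IsLocalRing.maximalIdeal (Ainf F) = Ideal.span {sA F} :=
  FI_irr.maximalIdeal_eq

theorem sA_prime (p : Ideal (Ainf F)) (hp : p.IsPrime) (hp0 : p ≠ ⊥) : p = Ideal.span {sA F} := by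
  rw [← FI_max]
  exact IsLocalRing.eq_maximalIdeal (hp.isMaximal hp0)

private theorem FI_prime : (Ideal.span {sA F}).IsPrime := by
  rw [← FI_max]
  infer_instance

private theorem FI_span_ne : Ideal.span {sA F} ≠ ⊥ := by
  rw [Ne, Ideal.span_singleton_eq_bot]
  exact sA_ne

/-- Elements of negative degree are multiples of `1 / t`. -/
private theorem FI_dvd (z : Ainf F) (h : (z : RatFunc F) = 0 ∨ (z : RatFunc F).intDegree < 0) :
    z ∈ Ideal.span {sA F} := by
  rw [Ideal.mem_span_singleton]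
  rcases h with h | h
  · rw [show z = 0 from Subtype.ext h]
    exact dvd_zero _
  · by_cases hz : (z : RatFunc F) = 0
    · rw [show z = 0 from Subtype.ext hz]
      exact dvd_zero _
    · refine ⟨⟨(z : RatFunc F) * RatFunc.X, FI_mem ?_⟩, Subtype.ext ?_⟩
      · rw [RatFunc.intDegree_mul hz FI_X, RatFunc.intDegree_X]
        omega
      · show (z : RatFunc F) = RatFunc.X⁻¹ * ((z : RatFunc F) * RatFunc.X)
        rw [mul_comm (z : RatFunc F), ← mul_assoc, inv_mul_cancel₀ FI_X, one_mul]

/-- The constants. -/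
private noncomputable def FI_C (c : F) : Ainf F := ⟨RatFunc.C c, FI_mem (by rw [RatFunc.intDegree_C])⟩

private theorem FI_C_sub {c d : F} (h : FI_C c - FI_C d ∈ Ideal.span {sA F}) : c = d := by
  by_contra hcd
  obtain ⟨u, hu⟩ := FI_unit (F := F) (z := RatFunc.C (c - d)) (by
    rw [Ne, map_eq_zero]
    exact sub_ne_zero.2 hcd) (RatFunc.intDegree_C _)
  have h1 : FI_C c - FI_C d = (u : Ainf F) := Subtype.ext (by
    rw [hu, map_sub]
    rfl)
  rw [h1] at h
  exact FI_prime.ne_top (Ideal.eq_top_of_isUnit_mem _ h u.isUnit)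

/-- A quotient of polynomials, the numerator of smaller degree. -/
private theorem FI_quot {p g : F[X]} (hg : g ≠ 0) (h : p.degree < g.degree) :
    algebraMap F[X] (RatFunc F) p / algebraMap F[X] (RatFunc F) g = 0 ∨
      (algebraMap F[X] (RatFunc F) p / algebraMap F[X] (RatFunc F) g).intDegree < 0 := by
  by_cases hp : p = 0
  · left
    rw [hp, map_zero, zero_div]
  · right
    have h1 : algebraMap F[X] (RatFunc F) p ≠ 0 := RatFunc.algebraMap_ne_zero hp
    have h2 : algebraMap F[X] (RatFunc F) g ≠ 0 := RatFunc.algebraMap_ne_zero hg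
    rw [RatFunc.intDegree_div h1 h2, RatFunc.intDegree_polynomial, RatFunc.intDegree_polynomial]
    have h3 := Polynomial.natDegree_lt_natDegree hp h
    omega

/-- Every element is a constant plus a multiple of `1 / t`. -/
private theorem FI_surj (z : Ainf F) : ∃ c : F, z - FI_C c ∈ Ideal.span {sA F} := by
  by_cases hz : (z : RatFunc F) = 0 ∨ (z : RatFunc F).intDegree < 0
  · refine ⟨0, FI_dvd _ ?_⟩
    have h0 : ((z - FI_C 0 : Ainf F) : RatFunc F) = (z : RatFunc F) := by
      show (z : RatFunc F) - RatFunc.C 0 = _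
      rw [map_zero, sub_zero]
    rw [h0]
    exact hz
  · push Not at hz
    obtain ⟨hz0, hzd⟩ := hz
    have hd := FI_deg z (fun h => hz0 (congrArg Subtype.val h))
    have hd0 : (z : RatFunc F).intDegree = 0 := le_antisymm hd hzd
    set p := (z : RatFunc F).num with hp
    set g := (z : RatFunc F).denom with hg
    have hg0 : g ≠ 0 := RatFunc.denom_ne_zero _
    have hp0 : p ≠ 0 := RatFunc.num_ne_zero hz0
    have hgm : g.Monic := RatFunc.monic_denom _
    have hdeg : p.natDegree = g.natDegree := by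
      have h1 : ((z : RatFunc F).num.natDegree : ℤ) - ((z : RatFunc F).denom.natDegree : ℤ) = 0 := hd0
      have h2 : (p.natDegree : ℤ) = g.natDegree := by
        rw [hp, hg]
        omega
      exact_mod_cast h2
    have hzq : (z : RatFunc F) = algebraMap F[X] (RatFunc F) p / algebraMap F[X] (RatFunc F) g :=
      (RatFunc.num_div_denom _).symm
    have hg1 : algebraMap F[X] (RatFunc F) g ≠ 0 := RatFunc.algebraMap_ne_zero hg0
    refine ⟨p.leadingCoeff, FI_dvd _ ?_⟩
    have hlc : p.leadingCoeff ≠ 0 := Polynomial.leadingCoeff_ne_zero.2 hp0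
    have h1 : ((z - FI_C p.leadingCoeff : Ainf F) : RatFunc F) =
        algebraMap F[X] (RatFunc F) (p - Polynomial.C p.leadingCoeff * g) /
          algebraMap F[X] (RatFunc F) g := by
      show (z : RatFunc F) - RatFunc.C p.leadingCoeff = _
      rw [hzq, map_sub, map_mul, RatFunc.algebraMap_C, sub_div, mul_div_assoc, div_self hg1, mul_one]
    rw [h1]
    refine FI_quot hg0 ?_
    have h2 : (p - Polynomial.C p.leadingCoeff * g).degree < p.degree := by
      refine Polynomial.degree_sub_lt_left ?_ hp0 ?_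
      · rw [Polynomial.degree_C_mul hlc, Polynomial.degree_eq_natDegree hp0,
          Polynomial.degree_eq_natDegree hg0, hdeg]
      · rw [Polynomial.leadingCoeff_mul, Polynomial.leadingCoeff_C, hgm.leadingCoeff, mul_one]
    rwa [Polynomial.degree_eq_natDegree hp0, hdeg, ← Polynomial.degree_eq_natDegree hg0] at h2

private theorem FI_card : Nat.card (Ainf F ⧸ Ideal.span {sA F}) = Nat.card F := by
  refine (Nat.card_congr (Equiv.ofBijective
    (fun c : F => Ideal.Quotient.mk (Ideal.span {sA F}) (FI_C c)) ⟨?_, ?_⟩)).symm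
  · intro c d hcd
    exact FI_C_sub ((Ideal.Quotient.eq).1 hcd)
  · intro x
    obtain ⟨z, rfl⟩ := Ideal.Quotient.mk_surjective x
    obtain ⟨c, hc⟩ := FI_surj z
    exact ⟨c, ((Ideal.Quotient.eq).2 hc).symm⟩

theorem nI_Ainf [Finite F] (z : Ainf F) (hz : z ≠ 0) :
    nI (Ideal.span {z}) = Nat.card F ^ (-(z : RatFunc F).intDegree).toNat := by
  obtain ⟨u, hu⟩ := sA_fac z hz
  have h1 : Ideal.span {z} = Ideal.span {sA F} ^ (-(z : RatFunc F).intDegree).toNat := by
    rw [Ideal.span_singleton_pow]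
    conv_lhs => rw [hu]
    exact Ideal.span_singleton_mul_left_unit u.isUnit _
  rw [h1, nI]
  have := FI_prime (F := F)
  have h2 := cardQuot_pow_of_prime (S := Ainf F) (P := Ideal.span {sA F}) FI_span_ne
    (i := (-(z : RatFunc F).intDegree).toNat)
  rw [Submodule.cardQuot_apply, Submodule.cardQuot_apply, FI_card] at h2
  exact h2

theorem Ainf_fin [Finite F] (I : Ideal (Ainf F)) (hI : I ≠ ⊥) : Finite (Ainf F ⧸ I) := by
  obtain ⟨z, hz⟩ := (IsPrincipalIdealRing.principal I).principal
  have hz' : I = Ideal.span {z} := hz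
  have hz0 : z ≠ 0 := by
    intro h
    rw [h] at hz'
    exact hI (hz'.trans (Ideal.span_singleton_eq_bot.2 rfl))
  have h1 := nI_Ainf z hz0
  rw [hz']
  refine Nat.finite_of_card_ne_zero ?_
  show nI (Ideal.span {z}) ≠ 0
  rw [h1]
  exact pow_ne_zero _ Nat.card_pos.ne'

private theorem FI_polyfin (g : F[X]) (hg : g ≠ 0) : Module.Finite F (F[X] ⧸ Ideal.span {g}) :=
  (AdjoinRoot.powerBasis hg).finite

theorem nI_poly [Finite F] (g : F[X]) (hg : g ≠ 0) :
    nI (Ideal.span {g}) = Nat.card F ^ g.natDegree := by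
  have := FI_polyfin g hg
  rw [nI, Module.natCard_eq_pow_finrank (K := F), finrank_quotient_span_eq_natDegree]

theorem poly_fin [Finite F] (I : Ideal F[X]) (hI : I ≠ ⊥) : Finite (F[X] ⧸ I) := by
  obtain ⟨g, hg⟩ := (IsPrincipalIdealRing.principal I).principal
  have hg' : I = Ideal.span {g} := hg
  have hg0 : g ≠ 0 := by
    intro h
    rw [h] at hg'
    exact hI (hg'.trans (Ideal.span_singleton_eq_bot.2 rfl))
  rw [hg']
  have := FI_polyfin g hg0
  exact Module.finite_of_finite F

/-- Every rational function is a polynomial plus an element of negative degree (or zero). -/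
theorem poly_part (κ : RatFunc F) : ∃ g : F[X], κ - algebraMap F[X] (RatFunc F) g ∈ Ainf F := by
  have hg0 : κ.denom ≠ 0 := RatFunc.denom_ne_zero _
  have hg1 : algebraMap F[X] (RatFunc F) κ.denom ≠ 0 := RatFunc.algebraMap_ne_zero hg0
  refine ⟨κ.num / κ.denom, ?_⟩
  have h1 : κ - algebraMap F[X] (RatFunc F) (κ.num / κ.denom) =
      algebraMap F[X] (RatFunc F) (κ.num % κ.denom) / algebraMap F[X] (RatFunc F) κ.denom := by
    rw [eq_div_iff hg1, sub_mul]
    have h2 : κ * algebraMap F[X] (RatFunc F) κ.denom = algebraMap F[X] (RatFunc F) κ.num := by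
      conv_lhs => rw [← RatFunc.num_div_denom κ]
      rw [RatFunc.num_div_denom κ, ← eq_div_iff hg1, RatFunc.num_div_denom κ]
    rw [h2, ← map_mul, ← map_sub]
    congr 1
    have h3 := EuclideanDomain.div_add_mod κ.num κ.denom
    linear_combination -h3
  rw [h1]
  rcases FI_quot hg0 (EuclideanDomain.mod_lt κ.num hg0) with h | h
  · rw [h]
    exact (Ainf F).zero_mem
  · exact FI_mem h.le

/-- Elements become elements of the valuation ring after multiplication by a power of `1/t`. -/
theorem exists_pow (κ : RatFunc F) : ∃ c : ℕ, ∀ m : ℕ, c ≤ m → RatFunc.X⁻¹ ^ m * κ ∈ Ainf F := by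
  refine ⟨κ.intDegree.toNat, fun m hm => ?_⟩
  by_cases hκ : κ = 0
  · rw [hκ, mul_zero]
    exact (Ainf F).zero_mem
  · refine FI_mem ?_
    have hX : (RatFunc.X⁻¹ ^ m : RatFunc F) ≠ 0 := pow_ne_zero m (inv_ne_zero FI_X)
    rw [RatFunc.intDegree_mul hX hκ, FI_powXi]
    have h1 := Int.self_le_toNat κ.intDegree
    have h2 : ((κ.intDegree.toNat : ℕ) : ℤ) ≤ m := by exact_mod_cast hm
    omega

end Pool.Agent.Lib.MP_1ad228_ntZ
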