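import Mathlib

/-! Forms over a field, smooth complete intersections, local solubility: the definitions of the
final statement. -/

namespace Pool.Agent.Lib.MP_1ad228_ntZ

open IsDedekindDomain

variable {K : Type} [Field K]

/-- Forms of degree `d` in `n + 1` variables over `K` with all coefficients in the set `L`. -/
def FormsIn (L : Set K) (n d : ℕ) : Set (MvPolynomial (Fin (n + 1)) K) :=
  {f | f.IsHomogeneous d ∧ ∀ m, f.coeff m ∈ L}

/-- The forms `f k` define a smooth complete intersection of codimension `r` (over the algebraic
closure of `K`): their gradients are linearly independent at every nonzero common zero. -/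
def SmoothCI {n r : ℕ} (f : Fin r → MvPolynomial (Fin (n + 1)) K) : Prop :=
  ∀ x : Fin (n + 1) → AlgebraicClosure K, x ≠ 0 → (∀ k, MvPolynomial.aeval x (f k) = 0) →
    LinearIndependent (AlgebraicClosure K)
      (fun (k : Fin r) (i : Fin (n + 1)) => MvPolynomial.aeval x (MvPolynomial.pderiv i (f k)))

/-- The forms have a common nonzero zero over the completion of `K` at every nonzero prime ideal of
the Dedekind domain `R` with field of fractions `K`. -/
def LocSolR (R : Type) [CommRing R] [IsDedekindDomain R] [Algebra R K] [IsFractionRing R K]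
    {n r : ℕ} (f : Fin r → MvPolynomial (Fin (n + 1)) K) : Prop :=
  ∀ v : HeightOneSpectrum R, ∃ x : Fin (n + 1) → v.adicCompletion K, x ≠ 0 ∧
    ∀ k, MvPolynomial.aeval x (f k) = 0

/-- The forms have a common nonzero zero with coordinates in the set `L`. -/
def ZeroIn (L : Set K) {n r : ℕ} (f : Fin r → MvPolynomial (Fin (n + 1)) K) : Prop :=
  ∃ x : Fin (n + 1) → K, x ≠ 0 ∧ (∀ i, x i ∈ L) ∧ ∀ k, MvPolynomial.aeval x (f k) = 0

end Pool.Agent.Lib.MP_1ad228_ntZ
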