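import Pool.Agent.Lib.MP_1ad228_ntZ.Defs
import Pool.Agent.Lib.MP_1ad228_ntZ.FormsGen
import Pool.Agent.Lib.MP_1ad228_ntN.FM_Alg

/-! Forms and tensors over the two charts: definitions. -/

namespace Pool.Agent.Lib.MP_1ad228_ntZ

export Pool.Agent.Lib.MP_1ad228_ntF (mo rp IsRp Lo Up LoT UpT degree_mo exists_mo mo_rp isRp_rp
  rp_unique Lo_add_Up LoT_add_UpT)

export Pool.Agent.Lib.MP_1ad228_ntN (poly polyT toTen mkT coeff_poly poly_hom poly_sub eval2_poly
  aeval_poly pderiv_poly coeff_rp toTen_supp poly_toTen toTen_poly poly_mkT mkT_inj)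

open Classical

/-- The forms over `K` of a tuple of tensors over `R`. -/
noncomputable def polyK (K : Type) [Field K] {R : Type} [CommRing R] [Algebra R K] {n r : ℕ}
    {d : Fin r → ℕ} (F : Tup n d R) : Fin r → MvPolynomial (Fin (n + 1)) K :=
  fun k => MvPolynomial.map (algebraMap R K) (poly (F k))

namespace TC
variable {K O P : Type} [Field K] [CommRing O] [IsDedekindDomain O] [Algebra O K]
  [IsFractionRing O K] [CommRing P] [IsDedekindDomain P] [Algebra P K]
  [IsFractionRing P K] (T : TC K O P)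

/-- The elements of `H c` in the field `K`. -/
def L (c : ℕ) : Set K := {z | ∃ w ∈ T.H c, algebraMap O K w = z}

/-- Almost all tuples are smooth. -/
def NonSmP (n : ℕ) {r : ℕ} (d : Fin r → ℕ) : Prop :=
  ∀ ε : ℝ, 0 < ε → ∃ a0 : ℕ, ∀ a : ℕ, a0 ≤ a →
    (((T.TBox n d a).filter fun F => ¬ SmoothCI (polyK K F)).card : ℝ) ≤
      ε * ((T.TBox n d a).card : ℝ)

end TC

end Pool.Agent.Lib.MP_1ad228_ntZ
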