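import Pool.Agent.Lib.MP_1ad228_ntZ.FI
import Pool.Agent.Lib.MP_1ad228_ntZ.FA

/-!
LEAF FP.  The chart at infinity.
`Pinf F K` is the integral closure of `Ainf F` in `K`: `integralClosure.isIntegralClosure`, Dedekind by `IsIntegralClosure.isDedekindDomain (Ainf F) (RatFunc F) K _` (a DVR is Dedekind), fraction ring by
`integralClosure.isFractionRing_of_finite_extension (RatFunc F) K`.  Primes: a nonzero prime lies over a nonzero prime of `Ainf F` (integral extension: `Ideal.IsIntegralClosure.comap_ne_bot` or `Ideal.comap_ne_bot_of_integral_mem`), that is `(s)`;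
so it divides `(s)`, and there are finitely many divisors: PID by `IsPrincipalIdealRing.of_finite_primes`.  Infinite: contains all powers of `s`.
-/

namespace Pool.Agent.Lib.MP_1ad228_ntZ

open Polynomial Classical

variable (F K : Type) [Field F] [Field K] [Algebra (RatFunc F) K]

instance : IsIntegralClosure (Pinf F K) (Ainf F) K := by
  unfold Pinf
  infer_instance

private theorem FP_inj : Function.Injective (algebraMap (Ainf F) K) := by
  rw [IsScalarTower.algebraMap_eq (Ainf F) (RatFunc F) K]
  exact (algebraMap (RatFunc F) K).injective.comp (IsFractionRing.injective (Ainf F) (RatFunc F))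

private theorem FP_inj' : Function.Injective (algebraMap (Ainf F) (Pinf F K)) := by
  intro a b h
  apply FP_inj F K
  rw [IsScalarTower.algebraMap_apply (Ainf F) (Pinf F K) K a,
    IsScalarTower.algebraMap_apply (Ainf F) (Pinf F K) K b, h]

instance [FiniteDimensional (RatFunc F) K] : IsFractionRing (Pinf F K) K := by
  unfold Pinf
  exact integralClosure.isFractionRing_of_finite_extension (RatFunc F) K

instance [FiniteDimensional (RatFunc F) K] [Algebra.IsSeparable (RatFunc F) K] :
    IsDedekindDomain (Pinf F K) :=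
  IsIntegralClosure.isDedekindDomain (Ainf F) (RatFunc F) K (Pinf F K)

private theorem FP_infA : Infinite (Ainf F) := by
  by_contra h
  rw [not_infinite_iff_finite] at h
  exact IsDiscreteValuationRing.not_isField (Ainf F) (Finite.isField_of_domain (Ainf F))

instance : Infinite (Pinf F K) := by
  have := FP_infA F
  exact Infinite.of_injective _ (FP_inj' F K)

/-- The parameter at infinity in the chart. -/
noncomputable def sP : Pinf F K := algebraMap (Ainf F) (Pinf F K) (sA F)

theorem sP_coe : algebraMap (Pinf F K) K (sP F K) = algebraMap (RatFunc F) K RatFunc.X⁻¹ := by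
  unfold sP
  rw [← IsScalarTower.algebraMap_apply (Ainf F) (Pinf F K) K (sA F),
    IsScalarTower.algebraMap_apply (Ainf F) (RatFunc F) K (sA F)]
  rfl

theorem sP_mem [FiniteDimensional (RatFunc F) K] [Algebra.IsSeparable (RatFunc F) K]
    (p : Ideal (Pinf F K)) (hp : p.IsPrime) (hp0 : p ≠ ⊥) : sP F K ∈ p := by
  have hi : Algebra.IsIntegral (Ainf F) (Pinf F K) :=
    IsIntegralClosure.isIntegral_algebra (Ainf F) K
  have h1 : p.comap (algebraMap (Ainf F) (Pinf F K)) ≠ ⊥ :=
    Ideal.IsIntegral.comap_ne_bot (Ainf F) hp0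
  have h2 := sA_prime (p.comap (algebraMap (Ainf F) (Pinf F K))) (Ideal.comap_isPrime _ _) h1
  have h3 : sA F ∈ p.comap (algebraMap (Ainf F) (Pinf F K)) := by
    rw [h2]
    exact Ideal.mem_span_singleton_self _
  exact h3

private theorem FP_sne : sP F K ≠ 0 := by
  intro h
  apply sA_ne (F := F)
  apply FP_inj' F K
  rw [map_zero]
  exact h

instance [FiniteDimensional (RatFunc F) K] [Algebra.IsSeparable (RatFunc F) K] :
    IsPrincipalIdealRing (Pinf F K) := by
  apply IsPrincipalIdealRing.of_finite_primes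
  have hs : (Ideal.span {sP F K} : Ideal (Pinf F K)) ≠ 0 := by
    rw [Ne, Ideal.zero_eq_bot, Ideal.span_singleton_eq_bot]
    exact FP_sne F K
  have hf : {I : Ideal (Pinf F K) | I ∣ Ideal.span {sP F K}}.Finite := by
    have hft : Finite {x : Ideal (Pinf F K) // x ∣ Ideal.span {sP F K}} :=
      @Finite.of_fintype _ (UniqueFactorizationMonoid.fintypeSubtypeDvd _ hs)
    exact hft
  refine (hf.union (Set.finite_singleton (⊥ : Ideal (Pinf F K)))).subset ?_
  intro p hp
  by_cases hp0 : p = ⊥
  · right
    exact hp0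
  · left
    show p ∣ Ideal.span {sP F K}
    rw [Ideal.dvd_span_singleton]
    exact sP_mem F K p hp hp0

theorem Pinf_fin [Finite F] [FiniteDimensional (RatFunc F) K] [Algebra.IsSeparable (RatFunc F) K]
    (I : Ideal (Pinf F K)) (hI : I ≠ ⊥) : Finite (Pinf F K ⧸ I) :=
  FA_fin (Ainf F) (RatFunc F) (K := K) (fun J hJ => Ainf_fin J hJ) I hI

private theorem FP_deg (n : ℕ) : ((RatFunc.X⁻¹ : RatFunc F) ^ n).intDegree = -(n : ℤ) := by
  induction n with
  | zero => simp
  | succ n ih =>
    have hX : (RatFunc.X⁻¹ : RatFunc F) ≠ 0 := inv_ne_zero RatFunc.X_ne_zero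
    rw [pow_succ, RatFunc.intDegree_mul (pow_ne_zero _ hX) hX, ih, RatFunc.intDegree_inv,
      RatFunc.intDegree_X]
    push_cast
    ring

theorem nrm_sP [Finite F] [FiniteDimensional (RatFunc F) K] [Algebra.IsSeparable (RatFunc F) K] :
    nI (Ideal.span {sP F K}) = Nat.card F ^ Module.finrank (RatFunc F) K := by
  obtain ⟨a, ha, h1, h2⟩ := FA_norm (Ainf F) (RatFunc F) (K := K) (fun J hJ => Ainf_fin J hJ)
    (FP_sne F K)
  rw [h2, nI_Ainf a ha]
  rw [sP_coe, Algebra.norm_algebraMap] at h1
  have h3 : (a : RatFunc F) = RatFunc.X⁻¹ ^ Module.finrank (RatFunc F) K := h1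
  rw [h3, FP_deg]
  simp

end Pool.Agent.Lib.MP_1ad228_ntZ
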