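import Pool.Agent.Lib.MP_1ad228_ntZ.FT2

/-!
LEAF FT.  The two charts of a global function field (assembly).
-/

namespace Pool.Agent.Lib.MP_1ad228_ntZ

open Polynomial Classical

variable (F K : Type) [Field F] [Finite F] [Field K] [Algebra F[X] K] [Algebra (RatFunc F) K]
  [IsScalarTower F[X] (RatFunc F) K] [FiniteDimensional (RatFunc F) K]
  [Algebra.IsSeparable (RatFunc F) K]

/-- The two charts of the function field `K`. -/
noncomputable def TCK : TC K (FunctionField.ringOfIntegers F K) (Pinf F K) where
  t := algebraMap F[X] (FunctionField.ringOfIntegers F K) X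
  s := sP F K
  Q := Nat.card F ^ Module.finrank (RatFunc F) K
  c1 := (FT_rnd F K).choose
  C0 := (Nat.card F ^ Module.finrank (RatFunc F) K) ^ (FT_rnd F K).choose
  ts := by
    rw [sP_coe, ← IsScalarTower.algebraMap_apply F[X] (FunctionField.ringOfIntegers F K) K,
      IsScalarTower.algebraMap_apply F[X] (RatFunc F) K, RatFunc.algebraMap_X, ← map_mul,
      mul_inv_cancel₀ RatFunc.X_ne_zero, map_one]
  two_le := by
    have h1 : 2 ≤ Nat.card F := Finite.one_lt_card
    have h2 : Module.finrank (RatFunc F) K ≠ 0 := Module.finrank_pos.ne'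
    exact h1.trans (Nat.le_self_pow h2 _)
  finO := O_fin F K
  finP := Pinf_fin F K
  nrm_s := nrm_sP F K
  fewO := few_ideals _ (O_fin F K)
  fewP := few_ideals _ (Pinf_fin F K)
  finH := FT_finH F K
  low := (FT_rnd F K).choose_spec.2
  rnd := (FT_rnd F K).choose_spec.1
  prod_le := FT_prod F K

theorem TCK_s : (TCK F K).s = sP F K := rfl

end Pool.Agent.Lib.MP_1ad228_ntZ
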