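import Pool.Agent.Lib.MP_1ad228_ntZ.FP

/-!
LEAF FT1 (O_fin, Infinite, FT_prod, FT_finH; the other items of this text belong to FT2).  The two charts of a global function field.  `O = FunctionField.ringOfIntegers F K`, `P = Pinf F K`, `q = #F`, `e = [K : F(t)]`, `Q = q^e`.
FT_prod: `nI I ≤ nI (span {z})`, `nI J ≤ nI (span {p})` (nI_mono).  By FA_norm there are `a ∈ F[X]`, `a' ∈ Ainf F`, nonzero, with `a = N z`, `a' = N p` in `F(t)` (norms of `K / F(t)`), `nI (z) = nI (a) = q^(natDegree a)` (nI_poly), `nI (p) = q^(- intDegree a')` (nI_Ainf).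
`p = s^c z` gives `a' = X^(-c e) a` (`Algebra.norm_algebraMap`, `map_pow`), so `intDegree a' = natDegree a - c e` and the product is `q^(c e)`.
FT_rnd: basis `ω_i` (FA_basis, A = F[X]); `κ = sum κ_i ω_i`, `g = sum (poly_part κ_i) ω_i`; `c1` such that `s^c1 ω_i ∈ P` for all `i`: `ω_i` is integral over `F[X]`; in `K` there is `c` with `s^c ω_i` integral over `Ainf F` (FT_pole).
FT_pole: every `κ ∈ K`: for `c` large `s^c κ ∈ P`: `P` is the integral closure and `K` is its fraction field over `Ainf F`: `κ = w / a` with `w ∈ P`, `a ∈ Ainf F` nonzero (`IsIntegralClosure.exists_smul_eq_mul` / `IsLocalization` of `K`), and `s^c / a ∈ Ainf F` for `c` large (exists_pow).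
FT_low: the elements `sum g_i ω_i` with `g_i` polynomials of degree `≤ c - c1` lie in `H c` and are distinct: at least `q^(e (c - c1))` elements, `C0 = Q^c1` works for `c ≥ c1`; for `c < c1` use `Q^c ≤ Q^c1` and that `0 ∈ H c`.
FT_finH: `z ↦ s^c z` modulo `s^(c+1)` is injective on `H c`: if `s^c (z - z') ∈ (s^(c+1))` and `z ≠ z'` then by FT_prod with `I = ⊤`, `J = (s^(c+1))`: `Q^(c+1) ≤ Q^c`.  The quotient is finite (Pinf_fin).
-/

namespace Pool.Agent.Lib.MP_1ad228_ntZ

open Polynomial Classical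

variable (F K : Type) [Field F] [Finite F] [Field K] [Algebra F[X] K] [Algebra (RatFunc F) K]
  [IsScalarTower F[X] (RatFunc F) K] [FiniteDimensional (RatFunc F) K]
  [Algebra.IsSeparable (RatFunc F) K]

theorem O_fin (I : Ideal (FunctionField.ringOfIntegers F K)) (hI : I ≠ ⊥) :
    Finite (FunctionField.ringOfIntegers F K ⧸ I) := by
  exact FA_fin F[X] (RatFunc F) (K := K) (fun J hJ => poly_fin J hJ) I hI

omit [Finite F] [FiniteDimensional (RatFunc F) K] [Algebra.IsSeparable (RatFunc F) K] in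
private theorem FT1_infinite : Infinite (FunctionField.ringOfIntegers F K) :=
  Infinite.of_injective (algebraMap F[X] (FunctionField.ringOfIntegers F K))
    (FunctionField.ringOfIntegers.algebraMap_injective F K)

instance : Infinite (FunctionField.ringOfIntegers F K) := by
  exact FT1_infinite F K

omit [Finite F] [Algebra F[X] K] [IsScalarTower F[X] (RatFunc F) K]
  [FiniteDimensional (RatFunc F) K] [Algebra.IsSeparable (RatFunc F) K] in
private theorem FT1_sP_ne : sP F K ≠ 0 := by
  intro h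
  have h1 := sP_coe F K
  rw [h, map_zero] at h1
  exact (inv_ne_zero (RatFunc.X_ne_zero (K := F)))
    ((map_eq_zero_iff _ (algebraMap (RatFunc F) K).injective).1 h1.symm)

omit [Finite F] in
/-- The degree of the norm on the two sides. -/
private theorem FT1_deg (e c : ℕ) (a : F[X]) (ha : a ≠ 0) (a' : RatFunc F)
    (h : a' = (RatFunc.X⁻¹ : RatFunc F) ^ (e * c) * algebraMap F[X] (RatFunc F) a) :
    a'.intDegree = (a.natDegree : ℤ) - (e * c : ℕ) := by
  have h1 : algebraMap F[X] (RatFunc F) a ≠ 0 := by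
    rw [Ne, map_eq_zero_iff _ (IsFractionRing.injective F[X] (RatFunc F))]
    exact ha
  have h2 : ∀ m : ℕ, ((RatFunc.X⁻¹ : RatFunc F) ^ m).intDegree = -(m : ℤ) := by
    intro m
    induction m with
    | zero => rw [pow_zero, RatFunc.intDegree_one]; simp
    | succ m ih =>
      rw [pow_succ, RatFunc.intDegree_mul (pow_ne_zero m (inv_ne_zero RatFunc.X_ne_zero))
        (inv_ne_zero RatFunc.X_ne_zero), ih, RatFunc.intDegree_inv, RatFunc.intDegree_X]
      push_cast
      ring
  rw [h, RatFunc.intDegree_mul (pow_ne_zero _ (inv_ne_zero RatFunc.X_ne_zero)) h1, h2,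
    RatFunc.intDegree_polynomial]
  ring

private theorem FT1_norms (c : ℕ) (z : FunctionField.ringOfIntegers F K) (p : Pinf F K) (hz : z ≠ 0)
    (hp : p ≠ 0)
    (h : algebraMap (Pinf F K) K p = algebraMap (Pinf F K) K (sP F K) ^ c *
      algebraMap (FunctionField.ringOfIntegers F K) K z) :
    nI (Ideal.span {z}) * nI (Ideal.span {p}) =
      (Nat.card F ^ Module.finrank (RatFunc F) K) ^ c := by
  obtain ⟨a, ha0, ha1, ha2⟩ := FA_norm F[X] (RatFunc F) (K := K)
    (S := FunctionField.ringOfIntegers F K) (fun J hJ => poly_fin J hJ) hz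
  obtain ⟨b, hb0, hb1, hb2⟩ := FA_norm (Ainf F) (RatFunc F) (K := K)
    (S := Pinf F K) (fun J hJ => Ainf_fin J hJ) hp
  have h1 : (b : RatFunc F) = (RatFunc.X⁻¹ : RatFunc F) ^ (Module.finrank (RatFunc F) K * c) *
      algebraMap F[X] (RatFunc F) a := by
    have h2 : algebraMap (Ainf F) (RatFunc F) b = (b : RatFunc F) := rfl
    rw [← h2, hb1, h, sP_coe, map_mul, map_pow, Algebra.norm_algebraMap, ha1, ← pow_mul]
  have h3 := FT1_deg F (Module.finrank (RatFunc F) K) c a ha0 b h1
  have h4 : (b : RatFunc F).intDegree ≤ 0 := by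
    rcases mem_Ainf.1 b.2 with h5 | h5
    · exact absurd (Subtype.ext h5) hb0
    · exact h5
  rw [ha2, hb2, nI_poly a ha0, nI_Ainf b hb0, ← pow_add, ← pow_mul]
  refine congrArg (fun m : ℕ => Nat.card F ^ m) ?_
  omega

theorem FT_prod (c : ℕ) (z : FunctionField.ringOfIntegers F K) (p : Pinf F K) (hz : z ≠ 0)
    (h : algebraMap (Pinf F K) K p = algebraMap (Pinf F K) K (sP F K) ^ c *
      algebraMap (FunctionField.ringOfIntegers F K) K z)
    (I : Ideal (FunctionField.ringOfIntegers F K)) (J : Ideal (Pinf F K)) (hI : z ∈ I)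
    (hJ : p ∈ J) : nI I * nI J ≤ (Nat.card F ^ Module.finrank (RatFunc F) K) ^ c := by
  have hp : p ≠ 0 := by
    intro h0
    rw [h0, map_zero] at h
    rcases mul_eq_zero.1 h.symm with h1 | h1
    · exact FT1_sP_ne F K ((map_eq_zero_iff _ (IsFractionRing.injective (Pinf F K) K)).1
        (eq_zero_of_pow_eq_zero h1))
    · exact hz ((map_eq_zero_iff _
        (IsFractionRing.injective (FunctionField.ringOfIntegers F K) K)).1 h1)
  rw [← FT1_norms F K c z p hz hp h]
  refine Nat.mul_le_mul (nI_mono (O_fin F K) ?_ ?_) (nI_mono (Pinf_fin F K) ?_ ?_)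
  · rw [Ne, Ideal.span_singleton_eq_bot]
    exact hz
  · rw [Ideal.span_le, Set.singleton_subset_iff]
    exact hI
  · rw [Ne, Ideal.span_singleton_eq_bot]
    exact hp
  · rw [Ideal.span_le, Set.singleton_subset_iff]
    exact hJ

omit [Algebra F[X] K] [IsScalarTower F[X] (RatFunc F) K] [Algebra.IsSeparable (RatFunc F) K] in
private theorem FT1_two_le : 2 ≤ Nat.card F ^ Module.finrank (RatFunc F) K := by
  have h1 : 1 < Nat.card F := Finite.one_lt_card
  have h2 : 0 < Module.finrank (RatFunc F) K := Module.finrank_pos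
  exact (Nat.succ_le_of_lt h1).trans (Nat.le_self_pow h2.ne' _)

theorem FT_finH (c : ℕ) : {z : FunctionField.ringOfIntegers F K | ∃ p : Pinf F K,
    algebraMap (Pinf F K) K p = algebraMap (Pinf F K) K (sP F K) ^ c *
      algebraMap (FunctionField.ringOfIntegers F K) K z}.Finite := by
  have hJ0 : (Ideal.span {sP F K} : Ideal (Pinf F K)) ≠ ⊥ := by
    rw [Ne, Ideal.span_singleton_eq_bot]
    exact FT1_sP_ne F K
  have hJ : (Ideal.span {sP F K} : Ideal (Pinf F K)) ^ (c + 1) ≠ ⊥ := by
    rw [← Ideal.zero_eq_bot] at hJ0 ⊢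
    exact pow_ne_zero _ hJ0
  have hfin := Pinf_fin F K _ hJ
  refine Set.Finite.of_finite_image (f := fun z : FunctionField.ringOfIntegers F K =>
    if h : ∃ p : Pinf F K, algebraMap (Pinf F K) K p = algebraMap (Pinf F K) K (sP F K) ^ c *
      algebraMap (FunctionField.ringOfIntegers F K) K z then
      Ideal.Quotient.mk ((Ideal.span {sP F K} : Ideal (Pinf F K)) ^ (c + 1)) h.choose else 0)
    (Set.toFinite _) ?_
  intro z hz z' hz' hzz
  by_contra hne
  simp only [dif_pos hz.out, dif_pos hz'.out] at hzz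
  have h1 := hz.out.choose_spec
  have h2 := hz'.out.choose_spec
  rw [Ideal.Quotient.mk_eq_mk_iff_sub_mem] at hzz
  have h3 := FT_prod F K c (z - z') (hz.out.choose - hz'.out.choose) (sub_ne_zero.2 hne)
    (by rw [map_sub, map_sub, h1, h2]; ring) ⊤ _ trivial hzz
  rw [nI_top, one_mul, nI_pow (Pinf_fin F K) hJ0, nrm_sP] at h3
  exact absurd h3 (not_le.2 (Nat.pow_lt_pow_right (FT1_two_le F K) (Nat.lt_succ_self c)))

end Pool.Agent.Lib.MP_1ad228_ntZ
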