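import Pool.Agent.Lib.MP_1ad228_ntZ.FT1

/-!
LEAF FT2 (FT_pole, FT_rnd).  The two charts of a global function field.  `O = FunctionField.ringOfIntegers F K`,
`P = Pinf F K`, `q = #F`, `e = [K : F(t)]`, `Q = q^e`.
-/

namespace Pool.Agent.Lib.MP_1ad228_ntZ

open Polynomial Classical

variable (F K : Type) [Field F] [Finite F] [Field K] [Algebra F[X] K] [Algebra (RatFunc F) K]
  [IsScalarTower F[X] (RatFunc F) K] [FiniteDimensional (RatFunc F) K]
  [Algebra.IsSeparable (RatFunc F) K]

theorem FT_pole (κ : K) : ∃ c : ℕ, ∀ m : ℕ, c ≤ m → ∃ p : Pinf F K,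
    algebraMap (Pinf F K) K p = algebraMap (Pinf F K) K (sP F K) ^ m * κ := by
  have halg : IsAlgebraic (Ainf F) κ :=
    (IsFractionRing.isAlgebraic_iff (Ainf F) (RatFunc F) K).2 (Algebra.IsAlgebraic.isAlgebraic κ)
  obtain ⟨a, ha, hint⟩ := halg.exists_integral_multiple
  obtain ⟨c, hc⟩ := exists_pow ((a : RatFunc F)⁻¹)
  refine ⟨c, fun m hm => ?_⟩
  have ha0 : (a : RatFunc F) ≠ 0 := by
    intro h
    exact ha (Subtype.ext h)
  have e1 : algebraMap (Pinf F K) K (sP F K) ^ m * κ =
      algebraMap (Ainf F) K ⟨_, hc m hm⟩ * (a • κ) := by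
    rw [sP_coe, Algebra.smul_def, IsScalarTower.algebraMap_apply (Ainf F) (RatFunc F) K,
      IsScalarTower.algebraMap_apply (Ainf F) (RatFunc F) K, ← mul_assoc, ← map_mul, ← map_pow]
    congr 2
    show RatFunc.X⁻¹ ^ m = RatFunc.X⁻¹ ^ m * (a : RatFunc F)⁻¹ * (a : RatFunc F)
    rw [mul_assoc, inv_mul_cancel₀ ha0, mul_one]
  have h2 : IsIntegral (Ainf F) (algebraMap (Pinf F K) K (sP F K) ^ m * κ) := by
    rw [e1]
    exact IsIntegral.mul isIntegral_algebraMap hint
  exact ⟨⟨_, h2⟩, rfl⟩

private theorem FT2_key (n : ℕ) (a : Ainf F) (ω : K) (p : Pinf F K)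
    (hp : algebraMap (Pinf F K) K p = algebraMap (Pinf F K) K (sP F K) ^ n * ω) :
    algebraMap (Pinf F K) K (algebraMap (Ainf F) (Pinf F K) a * p) =
      algebraMap (Pinf F K) K (sP F K) ^ n * (algebraMap (RatFunc F) K (a : RatFunc F) * ω) := by
  rw [map_mul, hp, ← IsScalarTower.algebraMap_apply (Ainf F) (Pinf F K) K,
    IsScalarTower.algebraMap_apply (Ainf F) (RatFunc F) K]
  show algebraMap (RatFunc F) K (a : RatFunc F) * _ = _
  ring

private theorem FT2_deg (n : ℕ) (g : F[X]) (hg : g ∈ degreeLT F n) :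
    RatFunc.X⁻¹ ^ n * algebraMap F[X] (RatFunc F) g ∈ Ainf F := by
  rw [mem_Ainf]
  by_cases h0 : g = 0
  · left
    rw [h0, map_zero, mul_zero]
  · right
    have h1 : (RatFunc.X⁻¹ : RatFunc F) ^ n ≠ 0 := pow_ne_zero _ (inv_ne_zero RatFunc.X_ne_zero)
    have h2 : algebraMap F[X] (RatFunc F) g ≠ 0 := by
      simpa using h0
    rw [RatFunc.intDegree_mul h1 h2, RatFunc.intDegree_polynomial]
    have h3 : ((RatFunc.X⁻¹ : RatFunc F) ^ n).intDegree = -(n : ℤ) := by
      clear h1 hg
      induction n with
      | zero => simp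
      | succ n ih =>
        rw [pow_succ, RatFunc.intDegree_mul (pow_ne_zero _ (inv_ne_zero RatFunc.X_ne_zero))
          (inv_ne_zero RatFunc.X_ne_zero), ih, RatFunc.intDegree_inv, RatFunc.intDegree_X]
        push_cast
        ring
    rw [h3]
    rw [mem_degreeLT, degree_eq_natDegree h0] at hg
    have h4 : g.natDegree < n := by exact_mod_cast hg
    omega

/-- Rounding and lower bound, with one constant. -/
theorem FT_rnd : ∃ c1 : ℕ, (∀ κ : K, ∃ g : FunctionField.ringOfIntegers F K, ∃ p : Pinf F K,
    algebraMap (Pinf F K) K p = algebraMap (Pinf F K) K (sP F K) ^ c1 *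
      (κ - algebraMap (FunctionField.ringOfIntegers F K) K g)) ∧
    ∀ c : ℕ, (Nat.card F ^ Module.finrank (RatFunc F) K) ^ c ≤
      (Nat.card F ^ Module.finrank (RatFunc F) K) ^ c1 *
        {z : FunctionField.ringOfIntegers F K | ∃ p : Pinf F K,
          algebraMap (Pinf F K) K p = algebraMap (Pinf F K) K (sP F K) ^ c *
            algebraMap (FunctionField.ringOfIntegers F K) K z}.ncard := by
  obtain ⟨ω, -, hω2, hω3⟩ := FA_basis F[X] (RatFunc F) (K := K) (S := FunctionField.ringOfIntegers F K)
  choose cc hcc using fun i => FT_pole F K (algebraMap (FunctionField.ringOfIntegers F K) K (ω i))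
  set c1 := Finset.univ.sup cc with hc1
  have hle : ∀ i, cc i ≤ c1 := fun i => Finset.le_sup (Finset.mem_univ i)
  choose pp hpp using fun i => hcc i c1 (hle i)
  refine ⟨c1, ?_, ?_⟩
  · intro κ
    obtain ⟨c, hc⟩ := hω2 κ
    choose g hg using fun i => poly_part (c i)
    refine ⟨∑ i, algebraMap F[X] (FunctionField.ringOfIntegers F K) (g i) * ω i,
      ∑ i, algebraMap (Ainf F) (Pinf F K) ⟨_, hg i⟩ * pp i, ?_⟩
    rw [map_sum, map_sum, hc, ← Finset.sum_sub_distrib, Finset.mul_sum]
    refine Finset.sum_congr rfl fun i _ => ?_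
    rw [FT2_key F K c1 _ _ _ (hpp i)]
    congr 1
    rw [map_mul, ← IsScalarTower.algebraMap_apply F[X] (FunctionField.ringOfIntegers F K) K,
      IsScalarTower.algebraMap_apply F[X] (RatFunc F) K, ← sub_mul, ← map_sub]
  · intro c
    have hfin := FT_finH F K c
    have : Finite ↥{z : FunctionField.ringOfIntegers F K | ∃ p : Pinf F K,
          algebraMap (Pinf F K) K p = algebraMap (Pinf F K) K (sP F K) ^ c *
            algebraMap (FunctionField.ringOfIntegers F K) K z} := hfin
    have hQ : 0 < Nat.card F ^ Module.finrank (RatFunc F) K := pow_pos Nat.card_pos _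
    rcases le_total c c1 with h | h
    · have h1 : 0 < {z : FunctionField.ringOfIntegers F K | ∃ p : Pinf F K,
          algebraMap (Pinf F K) K p = algebraMap (Pinf F K) K (sP F K) ^ c *
            algebraMap (FunctionField.ringOfIntegers F K) K z}.ncard := by
        rw [Set.ncard_pos hfin]
        exact ⟨0, 0, by rw [map_zero, map_zero, mul_zero]⟩
      calc (Nat.card F ^ Module.finrank (RatFunc F) K) ^ c
          ≤ (Nat.card F ^ Module.finrank (RatFunc F) K) ^ c1 := Nat.pow_le_pow_right hQ h
        _ ≤ _ := Nat.le_mul_of_pos_right _ h1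
    · obtain ⟨n, rfl⟩ := Nat.exists_eq_add_of_le h
      rw [pow_add]
      refine Nat.mul_le_mul_left _ ?_
      have hmem : ∀ f : Fin (Module.finrank (RatFunc F) K) → Fin n → F,
          (∑ i, algebraMap F[X] (FunctionField.ringOfIntegers F K)
            ((degreeLTEquiv F n).symm (f i) : F[X]) * ω i) ∈
          {z : FunctionField.ringOfIntegers F K | ∃ p : Pinf F K,
            algebraMap (Pinf F K) K p = algebraMap (Pinf F K) K (sP F K) ^ (c1 + n) *
              algebraMap (FunctionField.ringOfIntegers F K) K z} := by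
        intro f
        have hd := fun i => FT2_deg F n _ ((degreeLTEquiv F n).symm (f i)).2
        refine ⟨∑ i, algebraMap (Ainf F) (Pinf F K) ⟨_, hd i⟩ * pp i, ?_⟩
        rw [map_sum, map_sum, Finset.mul_sum]
        refine Finset.sum_congr rfl fun i _ => ?_
        have hr : algebraMap (FunctionField.ringOfIntegers F K) K
            (algebraMap F[X] (FunctionField.ringOfIntegers F K)
              ((degreeLTEquiv F n).symm (f i) : F[X]) * ω i) =
            algebraMap (RatFunc F) K (algebraMap F[X] (RatFunc F)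
              ((degreeLTEquiv F n).symm (f i) : F[X])) *
              algebraMap (FunctionField.ringOfIntegers F K) K (ω i) := by
          rw [map_mul, ← IsScalarTower.algebraMap_apply F[X] (FunctionField.ringOfIntegers F K) K,
            IsScalarTower.algebraMap_apply F[X] (RatFunc F) K]
        rw [FT2_key F K c1 _ _ _ (hpp i), hr]
        show _ * (algebraMap (RatFunc F) K (RatFunc.X⁻¹ ^ n * algebraMap F[X] (RatFunc F)
              ((degreeLTEquiv F n).symm (f i) : F[X])) * _) = _
        rw [map_mul, map_pow, sP_coe F K]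
        ring
      have hcard : Nat.card (Fin (Module.finrank (RatFunc F) K) → Fin n → F) =
          (Nat.card F ^ Module.finrank (RatFunc F) K) ^ n := by
        rw [Nat.card_pi, Finset.prod_const, Nat.card_pi, Finset.prod_const, Finset.card_univ,
          Finset.card_univ, Fintype.card_fin, Fintype.card_fin, ← pow_mul, ← pow_mul, mul_comm]
      rw [← hcard, ← Nat.card_coe_set_eq]
      refine Nat.card_le_card_of_injective (fun f => ⟨_, hmem f⟩) ?_
      intro f f' hff
      have h1 := congrArg Subtype.val hff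
      have h2 : ∑ i, algebraMap F[X] (FunctionField.ringOfIntegers F K)
          (((degreeLTEquiv F n).symm (f i) : F[X]) - ((degreeLTEquiv F n).symm (f' i) : F[X])) * ω i = 0 := by
        have h3 : ∀ i, algebraMap F[X] (FunctionField.ringOfIntegers F K)
          (((degreeLTEquiv F n).symm (f i) : F[X]) - ((degreeLTEquiv F n).symm (f' i) : F[X])) * ω i =
          algebraMap F[X] (FunctionField.ringOfIntegers F K) ((degreeLTEquiv F n).symm (f i) : F[X]) * ω i -
          algebraMap F[X] (FunctionField.ringOfIntegers F K) ((degreeLTEquiv F n).symm (f' i) : F[X]) * ω i := by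
          intro i
          rw [map_sub, sub_mul]
        rw [Finset.sum_congr rfl fun i _ => h3 i, Finset.sum_sub_distrib, sub_eq_zero]
        exact h1
      have h4 := hω3 _ h2
      funext i
      have h5 : (degreeLTEquiv F n).symm (f i) = (degreeLTEquiv F n).symm (f' i) :=
        Subtype.ext (sub_eq_zero.1 (h4 i))
      exact (degreeLTEquiv F n).symm.injective h5

end Pool.Agent.Lib.MP_1ad228_ntZ
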