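import Pool.Agent.Lib.MP_1ad228_ntZ.Up

/-!
LEAF HShort.  A point which is not good is orthogonal to a short vector.
`S = {f ∈ VB n g : lin f x = 0}`.  By fin_ker_im `#S * h(g+b) ≥ h(g)^(n+1)` (values of `lin · x` lie in `H (g+b)`), so by h_low, h_up and the hypothesis `#S > Q^((n-1)(g-l))`.
Let `L` be the `P`-submodule of all `v` in `Fin (n+1) → P` whose image in `K^(n+1)` lies in the `K`-span `V` of `S`.  `P` is a PID, so `L` is free of
rank `m` (`Submodule.basisOfPid`; independent vectors of `L` are independent over `K`), and `m ≤ dim_K V ≤ n-1`: otherwise `S` contains `n` vectors independent over `K`, hence over `O`, and `x` would be good.  So `#(L / s^(g-l) L) = Q^(m (g-l)) ≤ Q^((n-1)(g-l))`.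
Pigeonhole: two different `f, f'` in `S` with `vtw g f - vtw g f' ∈ s^(g-l) L`; the difference `f - f'` is in `VB n l` (H_down), nonzero, orthogonal to `x`.
-/

namespace Pool.Agent.Lib.MP_1ad228_ntZ

open Classical

namespace TC
variable {K O P : Type} [Field K] [CommRing O] [IsDedekindDomain O] [Algebra O K]
  [IsFractionRing O K] [CommRing P] [IsDedekindDomain P] [Algebra P K]
  [IsFractionRing P K] (T : TC K O P)

/-- Many vectors orthogonal to `x`. -/
private theorem HShort_many {n b g l : ℕ} (hn : 1 ≤ n) (hlg : l ≤ g)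
    (hc : T.C0 ^ (n + 1) * T.Q ^ (b + 1) < T.Q ^ (g + (n - 1) * l)) {x : Vc n O}
    (hx : x ∈ T.VB n b) :
    T.Q ^ ((g - l) * (n - 1)) < ((T.VB n g).filter fun f => lin f x = 0).card := by
  have hQ := T.two_le
  let φ : Vc n O →+ O :=
    { toFun := fun f => lin f x
      map_zero' := by simp [lin]
      map_add' := fun f f' => lin_add f f' x }
  have h0 : (0 : Vc n O) ∈ T.VB n g := T.mem_VB.2 fun i => T.zero_mem_H g
  have h1 := fin_ker_im (T.VB n g) h0 (fun f hf f' hf' => T.mem_VB.2 fun i =>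
    T.sub_mem_H (T.mem_VB.1 hf i) (T.mem_VB.1 hf' i)) φ
  have h2 : ((T.VB n g).image φ).card ≤ T.h (g + b) := by
    refine Finset.card_le_card fun z hz => ?_
    obtain ⟨f, hf, rfl⟩ := Finset.mem_image.1 hz
    exact T.lin_mem hf hx
  have h3 := T.h_up (g + b)
  have h4 := T.h_low g
  rw [T.card_VB] at h1
  have h1' : T.h g ^ (n + 1) = ((T.VB n g).filter fun f => lin f x = 0).card *
      ((T.VB n g).image φ).card := h1
  generalize ((T.VB n g).filter fun f => lin f x = 0).card = s at h1' ⊢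
  have hs : 0 < s := by
    rcases Nat.eq_zero_or_pos s with h | h
    · rw [h, zero_mul] at h1'
      have := pow_pos (T.h_pos g) (n + 1)
      omega
    · exact h
  have h5 : (T.Q ^ g) ^ (n + 1) ≤ T.C0 ^ (n + 1) * (s * T.Q ^ (g + b + 1)) := by
    calc (T.Q ^ g) ^ (n + 1) ≤ (T.C0 * T.h g) ^ (n + 1) := Nat.pow_le_pow_left h4 _
      _ = T.C0 ^ (n + 1) * T.h g ^ (n + 1) := mul_pow _ _ _
      _ ≤ T.C0 ^ (n + 1) * (s * T.Q ^ (g + b + 1)) := by
        rw [h1']
        exact Nat.mul_le_mul_left _ (Nat.mul_le_mul_left _ (h2.trans h3))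
  have h6 : T.C0 ^ (n + 1) * (s * T.Q ^ (g + b + 1)) <
      T.Q ^ (g + (n - 1) * l) * (s * T.Q ^ g) := by
    have e : T.C0 ^ (n + 1) * (s * T.Q ^ (g + b + 1)) =
        (T.C0 ^ (n + 1) * T.Q ^ (b + 1)) * (s * T.Q ^ g) := by
      rw [add_assoc, pow_add]
      ring
    rw [e]
    exact Nat.mul_lt_mul_of_pos_right hc (Nat.mul_pos hs (by positivity))
  have h7 := lt_of_le_of_lt h5 h6
  have e1 : (T.Q ^ g) ^ (n + 1) = T.Q ^ ((g - l) * (n - 1)) * T.Q ^ (g + (n - 1) * l + g) := by
    rw [← pow_mul, ← pow_add]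
    congr 1
    obtain ⟨k, hk⟩ := Nat.exists_eq_add_of_le hlg
    obtain ⟨j, hj⟩ := Nat.exists_eq_add_of_le hn
    rw [hk, hj, Nat.add_sub_cancel_left, Nat.add_sub_cancel_left]
    ring
  have e2 : T.Q ^ (g + (n - 1) * l) * (s * T.Q ^ g) = s * T.Q ^ (g + (n - 1) * l + g) := by
    rw [pow_add _ (g + (n - 1) * l) g]
    ring
  rw [e1, e2] at h7
  exact lt_of_mul_lt_mul_right h7 (Nat.zero_le _)

/-- The lattice of the vectors over `P` in a subspace of `K ^ (n + 1)`. -/
private def HShort_L {K P : Type} [Field K] [CommRing P] [Algebra P K] (n : ℕ)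
    (V : Submodule K (Fin (n + 1) → K)) : Submodule P (Fin (n + 1) → P) where
  carrier := {v | (fun i => algebraMap P K (v i)) ∈ V}
  zero_mem' := by
    have h : (fun i : Fin (n + 1) => algebraMap P K ((0 : Fin (n + 1) → P) i)) = 0 := by
      funext i
      exact map_zero _
    show (fun i : Fin (n + 1) => algebraMap P K ((0 : Fin (n + 1) → P) i)) ∈ V
    rw [h]
    exact V.zero_mem
  add_mem' := by
    intro v w hv hw
    have h : (fun i => algebraMap P K ((v + w) i)) =
        (fun i => algebraMap P K (v i)) + fun i => algebraMap P K (w i) := by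
      funext i
      exact map_add _ _ _
    show (fun i => algebraMap P K ((v + w) i)) ∈ V
    rw [h]
    exact V.add_mem hv hw
  smul_mem' := by
    intro c v hv
    have h : (fun i => algebraMap P K ((c • v) i)) =
        algebraMap P K c • fun i => algebraMap P K (v i) := by
      funext i
      exact map_mul _ _ _
    show (fun i => algebraMap P K ((c • v) i)) ∈ V
    rw [h]
    exact V.smul_mem _ hv

private theorem HShort_rank {K P : Type} [Field K] [CommRing P] [IsDomain P] [Algebra P K]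
    [IsFractionRing P K] {n m : ℕ} (V : Submodule K (Fin (n + 1) → K))
    (b : Module.Basis (Fin m) P (HShort_L (P := P) n V)) : m ≤ Module.finrank K V := by
  let v : Fin m → V := fun j => ⟨fun i => algebraMap P K ((b j).1 i), (b j).2⟩
  have h1 : LinearIndependent P v := by
    rw [Fintype.linearIndependent_iff]
    intro c hc j
    have h2 : ∑ j, c j • b j = 0 := by
      apply Subtype.ext
      funext i
      apply IsFractionRing.injective P K
      have h3 := congrArg (fun w : V => w.1 i) hc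
      simp only [v, Submodule.coe_sum, Finset.sum_apply, Submodule.coe_zero, Pi.zero_apply] at h3
      rw [Submodule.coe_sum, Finset.sum_apply, map_sum, Submodule.coe_zero, Pi.zero_apply, map_zero,
        ← h3]
      refine Finset.sum_congr rfl fun j _ => ?_
      show algebraMap P K (c j * (b j).1 i) = c j • algebraMap P K ((b j).1 i)
      rw [map_mul, Algebra.smul_def]
    exact Fintype.linearIndependent_iff.1 b.linearIndependent c h2 j
  have h2 : LinearIndependent K v := (LinearIndependent.iff_fractionRing P K).1 h1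
  have h3 := h2.fintype_card_le_finrank
  rwa [Fintype.card_fin] at h3

private theorem HShort_good {n g : ℕ} {x : Vc n O} (hbad : ¬ T.Good g x) (hn : 1 ≤ n)
    (S : Set (Fin (n + 1) → K))
    (hS : ∀ v ∈ S, ∃ f ∈ T.VB n g, lin f x = 0 ∧ v = fun i => algebraMap O K (f i)) :
    Module.finrank K (Submodule.span K S) ≤ n - 1 := by
  by_contra hcon
  have hle : n ≤ Module.finrank K (Submodule.span K S) := by omega
  obtain ⟨f, hf, -, hli⟩ := Submodule.exists_fun_fin_finrank_span_eq K S
  choose u hu1 hu2 hu3 using fun i : Fin n => hS _ (hf (Fin.castLE hle i))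
  refine hbad ⟨u, ?_, hu2, fun i j => T.mem_VB.1 (hu1 i) j⟩
  have h1 : LinearIndependent K fun i : Fin n => f (Fin.castLE hle i) :=
    hli.comp _ (Fin.castLE_injective hle)
  have h2 : LinearIndependent O fun i : Fin n => f (Fin.castLE hle i) :=
    (LinearIndependent.iff_fractionRing O K).2 h1
  rw [Fintype.linearIndependent_iff] at h2 ⊢
  intro c hc j
  refine h2 c ?_ j
  funext i
  have h3 := congrArg (algebraMap O K) (congrFun hc i)
  rw [Pi.zero_apply, map_zero, Finset.sum_apply, map_sum] at h3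
  rw [Pi.zero_apply, Finset.sum_apply, ← h3]
  refine Finset.sum_congr rfl fun k _ => ?_
  rw [hu3 k]
  show c k • algebraMap O K (u k i) = algebraMap O K (c k * u k i)
  rw [map_mul, Algebra.smul_def]

theorem short [IsPrincipalIdealRing P] {n b g l : ℕ} (hn : 1 ≤ n) (hlg : l ≤ g)
    (hc : T.C0 ^ (n + 1) * T.Q ^ (b + 1) < T.Q ^ (g + (n - 1) * l)) {x : Vc n O}
    (hx : x ∈ T.VB n b) (hbad : ¬ T.Good g x) : ∃ f ∈ T.VB n l, f ≠ 0 ∧ lin f x = 0 := by
  have hmany := T.HShort_many hn hlg hc hx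
  obtain ⟨S, hS⟩ : ∃ S : Finset (Vc n O), S = (T.VB n g).filter fun f => lin f x = 0 := ⟨_, rfl⟩
  rw [← hS] at hmany
  obtain ⟨V, hV⟩ : ∃ V : Submodule K (Fin (n + 1) → K), V = Submodule.span K
    {v | ∃ f ∈ T.VB n g, lin f x = 0 ∧ v = fun i => algebraMap O K (f i)} := ⟨_, rfl⟩
  have hVr : Module.finrank K V ≤ n - 1 := by
    rw [hV]
    exact T.HShort_good hbad hn _ fun v hv => hv
  obtain ⟨m, bL⟩ := Submodule.basisOfPid (Pi.basisFun P (Fin (n + 1))) (HShort_L (P := P) n V)
  have hm : m ≤ n - 1 := (HShort_rank V bL).trans hVr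
  have hmemL : ∀ f ∈ S, T.vtw g f ∈ HShort_L (P := P) n V := by
    intro f hf
    rw [hS, Finset.mem_filter] at hf
    have h1 : (fun i => algebraMap P K (T.vtw g f i)) =
        algebraMap P K T.s ^ g • fun i => algebraMap O K (f i) := by
      funext i
      exact T.tw_spec (T.mem_VB.1 hf.1 i)
    show (fun i => algebraMap P K (T.vtw g f i)) ∈ V
    rw [h1, hV]
    exact Submodule.smul_mem _ _ (Submodule.subset_span ⟨f, hf.1, hf.2, rfl⟩)
  -- the pigeonhole
  have hs0 : Ideal.span {T.s} ≠ ⊥ := fun h => T.s_ne' (Ideal.span_singleton_eq_bot.1 h)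
  have hsk : Ideal.span {T.s} ^ (g - l) ≠ ⊥ := pow_ne_zero _ hs0
  obtain ⟨A, hA⟩ : ∃ A : Ideal P, A = Ideal.span {T.s} ^ (g - l) := ⟨_, rfl⟩
  have hfin : Finite (P ⧸ A) := by
    rw [hA]
    exact T.finP _ hsk
  have hcard : Nat.card (P ⧸ A) = T.Q ^ (g - l) := by
    show nI A = _
    rw [hA, nI_pow T.finP hs0, T.nrm_s]
  have hFt : Fintype (P ⧸ A) := Fintype.ofFinite _
  let Φ : Vc n O → Fin m → P ⧸ A := fun f =>
    if h : T.vtw g f ∈ HShort_L (P := P) n V then fun j => Ideal.Quotient.mk A (bL.repr ⟨_, h⟩ j)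
    else 0
  have hlt : (Finset.univ : Finset (Fin m → P ⧸ A)).card < S.card := by
    rw [Finset.card_univ, Fintype.card_fun, Fintype.card_fin, ← Nat.card_eq_fintype_card, hcard,
      ← pow_mul]
    refine lt_of_le_of_lt (Nat.pow_le_pow_right (by have := T.two_le; omega) ?_) hmany
    exact Nat.mul_le_mul_left _ hm
  obtain ⟨f, hf, f', hf', hne, heq⟩ := Finset.exists_ne_map_eq_of_card_lt_of_maps_to hlt
    (f := Φ) (fun f _ => Finset.mem_coe.2 (Finset.mem_univ _))
  have h1 : ∀ j, bL.repr ⟨_, hmemL f hf⟩ j - bL.repr ⟨_, hmemL f' hf'⟩ j ∈ A := by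
    intro j
    have h2 := congrFun heq j
    simp only [Φ] at h2
    rw [dif_pos (hmemL f hf), dif_pos (hmemL f' hf')] at h2
    exact (Ideal.Quotient.eq).1 h2
  have h2 : ∀ j, ∃ c, bL.repr ⟨_, hmemL f hf⟩ j - bL.repr ⟨_, hmemL f' hf'⟩ j =
      T.s ^ (g - l) * c := by
    intro j
    have h3 := h1 j
    rw [hA, Ideal.span_singleton_pow, Ideal.mem_span_singleton] at h3
    exact h3
  choose c hcj using h2
  have h3 : (⟨_, hmemL f hf⟩ : HShort_L (P := P) n V) - ⟨_, hmemL f' hf'⟩ =
      T.s ^ (g - l) • ∑ j, c j • bL j := by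
    apply bL.repr.injective
    ext j
    rw [map_sub, Finsupp.sub_apply, hcj j, map_smul, Finsupp.smul_apply, map_sum,
      Finsupp.finsetSum_apply]
    simp only [map_smul, Module.Basis.repr_self, Finsupp.smul_apply, smul_eq_mul]
    rw [Finset.sum_eq_single j]
    · rw [Finsupp.single_eq_same, mul_one]
    · intro k _ hk
      rw [Finsupp.single_eq_of_ne (Ne.symm hk), mul_zero]
    · intro h
      exact absurd (Finset.mem_univ j) h
  rw [hS, Finset.mem_filter] at hf hf'
  refine ⟨f - f', T.mem_VB.2 fun i => ?_, sub_ne_zero.2 hne, ?_⟩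
  · have h4 := congrFun (congrArg Subtype.val h3) i
    refine (T.H_down hlg (T.sub_mem_H (T.mem_VB.1 hf.1 i) (T.mem_VB.1 hf'.1 i))
      (p := (∑ j, c j • bL j : HShort_L (P := P) n V).1 i) ?_).1
    rw [T.tw_sub (T.mem_VB.1 hf.1 i) (T.mem_VB.1 hf'.1 i)]
    exact h4
  · rw [lin_sub, hf.2, hf'.2, sub_zero]

end TC

end Pool.Agent.Lib.MP_1ad228_ntZ
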