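import Pool.Agent.Lib.MP_1ad228_ntZ.Defs

/-!
LEAF Idx.  Values of tensors at unimodular vectors of a commutative ring.
ev_onto: `G s = m * prod_k u (s k)` where `lin u x = 1` (`ev G x = m * (lin u x)^d`, use `tp`/`ev_tp`).
Lam_mem: it is enough (additivity, `Submodule.span_induction`/`Ideal` generators times scalars) to reach `(c * mn x y i j, 0)` and `(0, c * mn x y i j)`: the tensor
`c * (y_j e_i - y_i e_j) x u x .. x u` has the value `c * (x_i y_j - x_j y_i)` at `x` (`lin u x = 1`) and `0` at `y`; symmetrically with `u'`, `lin u' y = 1`.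
Lam_index: the map `R → (R × R) / Lam`, `r ↦ (r, 0)` is surjective (subtract a tensor `G` with `ev G y = m'`) and kills `Dd x y`, so `#((R×R)/Lam) ≤ #(R / Dd x y)`.
-/

namespace Pool.Agent.Lib.MP_1ad228_ntZ

open Classical

section ring
variable {R : Type} [CommRing R]

theorem ev_onto {n : ℕ} (d : ℕ) {x : Vc n R} (hx : Uni x) (m : R) :
    ∃ G : Ten n d R, ev G x = m := by
  obtain ⟨u, hu⟩ := hx
  refine ⟨fun s => m * tp (fun _ : Fin d => u) s, ?_⟩
  rw [ev_smul, ev_tp, Finset.prod_congr rfl fun _ _ => hu, Finset.prod_const_one, mul_one]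

/-- The group of the pairs of values. -/
def Lam {n : ℕ} (d : ℕ) (x y : Vc n R) : AddSubgroup (R × R) where
  carrier := {p | ∃ G : Ten n d R, ev G x = p.1 ∧ ev G y = p.2}
  zero_mem' := ⟨0, by rw [ev_zero, ev_zero]; exact ⟨rfl, rfl⟩⟩
  add_mem' := by
    rintro p q ⟨G, h1, h2⟩ ⟨G', h3, h4⟩
    exact ⟨G + G', by rw [ev_add, h1, h3]; rfl, by rw [ev_add, h2, h4]; rfl⟩
  neg_mem' := by
    rintro p ⟨G, h1, h2⟩
    exact ⟨-G, by rw [ev_neg, h1]; rfl, by rw [ev_neg, h2]; rfl⟩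

private theorem Idx_left {n d : ℕ} (hd : 1 ≤ d) {x y : Vc n R} (hx : Uni x) {m : R}
    (hm : m ∈ Dd x y) : ∃ G : Ten n d R, ev G x = m ∧ ev G y = 0 := by
  obtain ⟨u, hu⟩ := hx
  unfold Dd at hm
  induction hm using Submodule.span_induction with
  | mem z hz =>
    obtain ⟨⟨i, j⟩, rfl⟩ := hz
    have h0 : 0 < d := hd
    let w : Vc n R := y j • Pi.single i 1 - y i • Pi.single j 1
    let U : Fin d → Vc n R := fun k => if k = ⟨0, h0⟩ then w else u
    have hw : ∀ z : Vc n R, lin w z = y j * z i - y i * z j := by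
      intro z
      rw [lin_sub, lin_smul, lin_smul, lin_single, lin_single]
    refine ⟨tp U, ?_, ?_⟩
    · rw [ev_tp, Finset.prod_eq_single (⟨0, h0⟩ : Fin d)]
      · have h1 : U ⟨0, h0⟩ = w := if_pos rfl
        rw [h1, hw]
        show y j * x i - y i * x j = x i * y j - x j * y i
        ring
      · intro k _ hk
        have h1 : U k = u := if_neg hk
        rw [h1, hu]
      · intro h
        exact absurd (Finset.mem_univ _) h
    · rw [ev_tp]
      refine Finset.prod_eq_zero (Finset.mem_univ (⟨0, h0⟩ : Fin d)) ?_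
      have h1 : U ⟨0, h0⟩ = w := if_pos rfl
      rw [h1, hw]
      ring
  | zero => exact ⟨0, ev_zero _, ev_zero _⟩
  | add a b _ _ ha hb =>
    obtain ⟨G, h1, h2⟩ := ha
    obtain ⟨G', h3, h4⟩ := hb
    exact ⟨G + G', by rw [ev_add, h1, h3], by rw [ev_add, h2, h4, add_zero]⟩
  | smul c a _ ha =>
    obtain ⟨G, h1, h2⟩ := ha
    exact ⟨c • G, by rw [ev_smul', h1, smul_eq_mul], by rw [ev_smul', h2, mul_zero]⟩

private theorem Idx_swap {n : ℕ} (x y : Vc n R) : Dd x y ≤ Dd y x := by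
  unfold Dd
  rw [Ideal.span_le]
  rintro _ ⟨⟨i, j⟩, rfl⟩
  refine Ideal.subset_span ⟨(j, i), ?_⟩
  show y j * x i - y i * x j = x i * y j - x j * y i
  ring

theorem Lam_mem {n d : ℕ} (hd : 1 ≤ d) {x y : Vc n R} (hx : Uni x) (hy : Uni y) {m m' : R}
    (hm : m ∈ Dd x y) (hm' : m' ∈ Dd x y) : (m, m') ∈ Lam d x y := by
  obtain ⟨G, h1, h2⟩ := Idx_left hd hx hm
  obtain ⟨G', h3, h4⟩ := Idx_left hd hy (Idx_swap x y hm')
  refine ⟨G + G', ?_, ?_⟩
  · show ev (G + G') x = m
    rw [ev_add, h1, h4, add_zero]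
  · show ev (G + G') y = m'
    rw [ev_add, h2, h3, zero_add]

theorem Lam_index {n d : ℕ} (hd : 1 ≤ d) {x y : Vc n R} (hx : Uni x) (hy : Uni y)
    (hfin : Finite (R ⧸ Dd x y)) :
    Finite ((R × R) ⧸ Lam d x y) ∧ Nat.card ((R × R) ⧸ Lam d x y) ≤ nI (Dd x y) := by
  have hsur : Function.Surjective (fun q : R ⧸ Dd x y =>
      (QuotientAddGroup.mk ((Quotient.out q : R), (0 : R)) : (R × R) ⧸ Lam d x y)) := by
    intro z
    obtain ⟨⟨a, b⟩, rfl⟩ := QuotientAddGroup.mk_surjective z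
    obtain ⟨G, hG⟩ := ev_onto d hy b
    refine ⟨Ideal.Quotient.mk (Dd x y) (a - ev G x), ?_⟩
    rw [QuotientAddGroup.eq]
    have hout : (a - ev G x) -
        (Quotient.out (Ideal.Quotient.mk (Dd x y) (a - ev G x)) : R) ∈ Dd x y := by
      rw [← Ideal.Quotient.mk_eq_mk_iff_sub_mem]
      exact (Quotient.out_eq _).symm
    have h1 : ((a - ev G x) - (Quotient.out (Ideal.Quotient.mk (Dd x y) (a - ev G x)) : R),
        (0 : R)) ∈ Lam d x y := Lam_mem hd hx hy hout (Ideal.zero_mem _)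
    have h2 : (ev G x, ev G y) ∈ Lam d x y := ⟨G, rfl, rfl⟩
    have h3 := (Lam d x y).add_mem h1 h2
    have h4 : -((Quotient.out (Ideal.Quotient.mk (Dd x y) (a - ev G x)) : R), (0 : R)) + (a, b) =
        ((a - ev G x) - (Quotient.out (Ideal.Quotient.mk (Dd x y) (a - ev G x)) : R), (0 : R)) +
          (ev G x, ev G y) := by
      rw [hG]
      refine Prod.ext ?_ ?_
      · show -(Quotient.out (Ideal.Quotient.mk (Dd x y) (a - ev G x)) : R) + a =
          (a - ev G x) - (Quotient.out (Ideal.Quotient.mk (Dd x y) (a - ev G x)) : R) + ev G x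
        ring
      · show -(0 : R) + b = 0 + b
        ring
    rw [h4]
    exact h3
  exact ⟨Finite.of_surjective _ hsur, Nat.card_le_card_of_surjective _ hsur⟩

end ring

end Pool.Agent.Lib.MP_1ad228_ntZ
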