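import Pool.Agent.Lib.MP_1ad228_ntZ.Tw

/-!
LEAF Im.  Local images determine the global image.
Proof.  In `K`: `r := G - t^a G'` (`t^a G'` has the same values: `sum_i A j i t^a G' i = t^(a+c) sum_i (s^c A j i) G' i = t^(a+c) s^(a+c) m j = m j`), so `r` is in the kernel and `r = sum_τ k_τ u_τ`.  Choose
`g_τ` in `O`, `p_τ` in `P` with `p_τ = s^c1 (k_τ - g_τ)` (`T.rnd`).  `F i := G i - sum_τ g_τ u_τ i` in `O`; `s^a F i = s^a (t^a G' i + sum_τ (k_τ - g_τ) u_τ i) = G' i + sum_τ p_τ * s^(a - c1 - g) * tw g (u_τ i)` lies in `P`,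
so `F i ∈ H a` (`tw_eq`).  The values of `F` are those of `G`.
-/

namespace Pool.Agent.Lib.MP_1ad228_ntZ

open Classical

namespace TC
variable {K O P : Type} [Field K] [CommRing O] [IsDedekindDomain O] [Algebra O K]
  [IsFractionRing O K] [CommRing P] [IsDedekindDomain P] [Algebra P K]
  [IsFractionRing P K] (T : TC K O P)

theorem im {ι κ σ : Type*} [Fintype ι] [Fintype κ] [Fintype σ] {c g a : ℕ}
    (ha : g + T.c1 ≤ a) (A : κ → ι → O) (hA : ∀ j i, A j i ∈ T.H c)
    (u : σ → ι → O) (hu : ∀ τ i, u τ i ∈ T.H g) (hu0 : ∀ τ j, ∑ i, A j i * u τ i = 0)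
    (hspan : ∀ r : ι → K, (∀ j, ∑ i, algebraMap O K (A j i) * r i = 0) →
      ∃ k : σ → K, ∀ i, r i = ∑ τ, k τ * algebraMap O K (u τ i))
    (m : κ → O) (hm : ∀ j, m j ∈ T.H (a + c))
    (G : ι → O) (hG : ∀ j, ∑ i, A j i * G i = m j)
    (G' : ι → P) (hG' : ∀ j, ∑ i, T.tw c (A j i) * G' i = T.tw (a + c) (m j)) :
    ∃ F : ι → O, (∀ i, F i ∈ T.H a) ∧ ∀ j, ∑ i, A j i * F i = m j := by
  have hs := T.s_ne
  have hts := T.ts
  have hts' : ∀ n : ℕ, algebraMap O K T.t ^ n * algebraMap P K T.s ^ n = 1 := by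
    intro n
    rw [← mul_pow, hts, one_pow]
  -- the values of `G'` in `K`
  have hval : ∀ j, ∑ i, algebraMap O K (A j i) * algebraMap P K (G' i) =
      algebraMap P K T.s ^ a * algebraMap O K (m j) := by
    intro j
    have h1 := congrArg (algebraMap P K) (hG' j)
    rw [map_sum, T.tw_spec (hm j)] at h1
    have h2 : ∑ i, algebraMap P K (T.tw c (A j i) * G' i) =
        algebraMap P K T.s ^ c * ∑ i, algebraMap O K (A j i) * algebraMap P K (G' i) := by
      rw [Finset.mul_sum]
      refine Finset.sum_congr rfl fun i _ => ?_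
      rw [map_mul, T.tw_spec (hA j i), mul_assoc]
    rw [h2, pow_add, mul_comm (algebraMap P K T.s ^ a), mul_assoc] at h1
    exact mul_left_cancel₀ (pow_ne_zero c hs) h1
  obtain ⟨k, hk⟩ := hspan
    (fun i => algebraMap O K (G i) - algebraMap O K T.t ^ a * algebraMap P K (G' i)) (by
      intro j
      have h1 : ∑ i, algebraMap O K (A j i) *
          (algebraMap O K (G i) - algebraMap O K T.t ^ a * algebraMap P K (G' i)) =
          algebraMap O K (∑ i, A j i * G i) - algebraMap O K T.t ^ a *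
            ∑ i, algebraMap O K (A j i) * algebraMap P K (G' i) := by
        rw [map_sum, Finset.mul_sum, ← Finset.sum_sub_distrib]
        refine Finset.sum_congr rfl fun i _ => ?_
        rw [map_mul]
        ring
      rw [h1, hval, hG, ← mul_assoc, hts', one_mul, sub_self])
  choose g' p hp using fun τ => T.rnd (k τ)
  refine ⟨fun i => G i - ∑ τ, g' τ * u τ i, fun i => ?_, fun j => ?_⟩
  · refine (T.tw_eq (p := G' i + ∑ τ, p τ * (T.s ^ (a - T.c1 - g) * T.tw g (u τ i))) ?_).1
    have h1 : algebraMap O K (G i) = algebraMap O K T.t ^ a * algebraMap P K (G' i) +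
        ∑ τ, k τ * algebraMap O K (u τ i) := by
      have h2 := hk i
      linear_combination h2
    have h3 : ∀ τ, algebraMap P K (p τ * (T.s ^ (a - T.c1 - g) * T.tw g (u τ i))) =
        algebraMap P K T.s ^ a * ((k τ - algebraMap O K (g' τ)) * algebraMap O K (u τ i)) := by
      intro τ
      have h4 : algebraMap P K T.s ^ a = algebraMap P K T.s ^ T.c1 *
          (algebraMap P K T.s ^ (a - T.c1 - g) * algebraMap P K T.s ^ g) := by
        rw [← pow_add, ← pow_add]
        congr 1
        omega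
      rw [map_mul, map_mul, map_pow, T.tw_spec (hu τ i), hp, h4]
      ring
    rw [map_add, map_sum, Finset.sum_congr rfl fun τ _ => h3 τ, map_sub, map_sum, h1,
      ← Finset.mul_sum]
    have h5 : ∑ τ, (k τ - algebraMap O K (g' τ)) * algebraMap O K (u τ i) =
        (∑ τ, k τ * algebraMap O K (u τ i)) - ∑ τ, algebraMap O K (g' τ * u τ i) := by
      rw [← Finset.sum_sub_distrib]
      refine Finset.sum_congr rfl fun τ _ => ?_
      rw [map_mul]
      ring
    rw [h5]
    have h6 := hts' a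
    linear_combination (-algebraMap P K (G' i)) * h6
  · have h1 : ∑ i, A j i * (G i - ∑ τ, g' τ * u τ i) =
        (∑ i, A j i * G i) - ∑ τ, g' τ * ∑ i, A j i * u τ i := by
      have h2 : ∑ τ, g' τ * ∑ i, A j i * u τ i = ∑ i, A j i * ∑ τ, g' τ * u τ i := by
        simp only [Finset.mul_sum]
        rw [Finset.sum_comm]
        refine Finset.sum_congr rfl fun i _ => Finset.sum_congr rfl fun τ _ => ?_
        ring
      rw [h2, ← Finset.sum_sub_distrib]
      refine Finset.sum_congr rfl fun i _ => ?_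
      ring
    rw [h1, hG]
    simp only [hu0, mul_zero, Finset.sum_const_zero, sub_zero]

end TC

end Pool.Agent.Lib.MP_1ad228_ntZ
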