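import Pool.Agent.Lib.MP_1ad228_ntZ.Defs
import Pool.Agent.Lib.MP_1ad228_ntN.LD_Base
import Pool.Agent.Lib.MP_1ad228_ntN.LD_Cnt

/-! Local densities over Dedekind domains with finite quotients: norms of ideals. -/

namespace Pool.Agent.Lib.MP_1ad228_ntZ.LZ

export Pool.Agent.Lib.MP_219881_nt (II mn_mem_II content)

export Pool.Agent.Lib.MP_1ad228_ntF (spi lsec lsec_ev lsec_dev ev_congr_dvd ev_taylor_dvd
  dev_congr_dvd dev_scale elim elim0 elim_inj uni_one)

export Pool.Agent.Lib.MP_1ad228_ntN (card_TupR card_TenR card_VcR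
  card_R_pos card_quot IdS LD_cnty LD_sumJ LD_uni)

open Classical

section defs
variable {n r : ℕ} {d : Fin r → ℕ} {R : Type} [CommRing R]

/-- Solubility modulo all powers of the prime ideal `P`. -/
def SolAt (P : Ideal R) (F : Tup n d R) : Prop :=
  ∀ m : ℕ, ∃ x : Vc n R, (∃ i, x i ∉ P) ∧ ∀ k, ev (F k) x ∈ P ^ m

end defs

section norm
variable {R : Type} [CommRing R]

theorem nI_def (I : Ideal R) : nI I = Nat.card (R ⧸ I) := rfl

theorem nI_cardQuot (I : Ideal R) : nI I = Submodule.cardQuot I := rfl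

theorem nI_top : nI (⊤ : Ideal R) = 1 := by
  rw [nI_cardQuot, Submodule.cardQuot_top]

theorem nI_pos {I : Ideal R} [Finite (R ⧸ I)] : 0 < nI I := Nat.card_pos

theorem nI_eq_one {I : Ideal R} : nI I = 1 ↔ I = ⊤ := by
  rw [nI_cardQuot, Submodule.cardQuot_eq_one_iff]

variable [IsDedekindDomain R]

theorem nI_mul [Infinite R] (I J : Ideal R) : nI (I * J) = nI I * nI J := by
  simp only [nI_cardQuot]
  exact UniqueFactorizationMonoid.multiplicative_of_coprime Submodule.cardQuot I J
      (Submodule.cardQuot_bot _ _)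
      (fun {I J} hI => by simp [Ideal.isUnit_iff.mp hI, Ideal.mul_top])
      (fun {I} i hI =>
        have : Ideal.IsPrime I := Ideal.isPrime_of_prime hI
        cardQuot_pow_of_prime hI.ne_zero)
      fun {I J} hIJ => cardQuot_mul_of_coprime <| Ideal.isCoprime_iff_sup_eq.mpr
        (Ideal.isUnit_iff.mp
          (hIJ (Ideal.dvd_iff_le.mpr le_sup_left) (Ideal.dvd_iff_le.mpr le_sup_right)))

theorem nI_pow [Infinite R] (I : Ideal R) (m : ℕ) : nI (I ^ m) = nI I ^ m := by
  induction m with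
  | zero => rw [pow_zero, pow_zero, Ideal.one_eq_top, nI_top]
  | succ m ih => rw [pow_succ, pow_succ, nI_mul, ih]

theorem nI_prod [Infinite R] {ι : Type*} (s : Finset ι) (f : ι → Ideal R) :
    nI (∏ i ∈ s, f i) = ∏ i ∈ s, nI (f i) := by
  induction s using Finset.induction_on with
  | empty => rw [Finset.prod_empty, Finset.prod_empty, Ideal.one_eq_top, nI_top]
  | insert i s hi ih => rw [Finset.prod_insert hi, Finset.prod_insert hi, nI_mul, ih]

theorem nI_dvd [Infinite R] {I J : Ideal R} (h : I ≤ J) : nI J ∣ nI I := by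
  obtain ⟨K, hK⟩ := Ideal.dvd_iff_le.2 h
  rw [hK, nI_mul]
  exact dvd_mul_right _ _

/-- All nonzero ideals have finite index. -/
def FinQ (R : Type) [CommRing R] : Prop := ∀ I : Ideal R, I ≠ ⊥ → Finite (R ⧸ I)

omit [IsDedekindDomain R] in
theorem FinQ.pos (hq : FinQ R) {I : Ideal R} (hI : I ≠ ⊥) : 0 < nI I := by
  have : Finite (R ⧸ I) := hq I hI
  exact nI_pos

end norm

end Pool.Agent.Lib.MP_1ad228_ntZ.LZ
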