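import Pool.Agent.Lib.MP_1ad228_ntZ.LZ_Base

/-! Classes of tuples modulo an ideal and modulo a larger ideal. -/

namespace Pool.Agent.Lib.MP_1ad228_ntZ.LZ

open Classical

section grp
variable {A B : Type*} [AddCommGroup A] [AddCommGroup B]

/-- The preimage of a set under a surjective homomorphism of finite groups. -/
theorem card_pre [Finite A] (φ : A →+ B) (hφ : Function.Surjective φ) (p : B → Prop) :
    Nat.card {a : A // p (φ a)} * Nat.card B = Nat.card {b : B // p b} * Nat.card A := by
  have : Finite B := Finite.of_surjective φ hφ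
  obtain ⟨σ, hσ⟩ := hφ.hasRightInverse
  have hσ' : ∀ b, φ (σ b) = b := hσ
  let e1 : {a : A // p (φ a)} ≃ {b : B // p b} × {a : A // φ a = 0} :=
    { toFun := fun a => (⟨φ a.1, a.2⟩, ⟨a.1 - σ (φ a.1), by rw [map_sub, hσ', sub_self]⟩)
      invFun := fun q => ⟨q.2.1 + σ q.1.1, by rw [map_add, q.2.2, zero_add, hσ']; exact q.1.2⟩
      left_inv := fun a => Subtype.ext (by simp)
      right_inv := fun q => by
        obtain ⟨⟨b, hb⟩, ⟨a, ha⟩⟩ := q
        simp [ha, hσ'] }
  let e2 : A ≃ B × {a : A // φ a = 0} :=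
    { toFun := fun a => (φ a, ⟨a - σ (φ a), by rw [map_sub, hσ', sub_self]⟩)
      invFun := fun q => q.2.1 + σ q.1
      left_inv := fun a => by simp
      right_inv := fun q => by
        obtain ⟨b, ⟨a, ha⟩⟩ := q
        simp [ha, hσ'] }
  rw [Nat.card_congr e1, Nat.card_congr e2, Nat.card_prod, Nat.card_prod]
  ring

end grp

section cls
variable {n r : ℕ} {d : Fin r → ℕ} {R : Type} [CommRing R] {I J : Ideal R}

/-- Class modulo `J` of a class modulo `I ≤ J`. -/
noncomputable def rdc (h : I ≤ J) (G : Tup n d (R ⧸ I)) : Tup n d (R ⧸ J) :=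
  fmap (Ideal.Quotient.factor h) G

theorem rdc_red (h : I ≤ J) (F : Tup n d R) : rdc h (red I F) = red J F := by
  funext i s
  exact Ideal.Quotient.factor_mk h (F i s)

theorem LZ_cls (h : I ≤ J) [Finite (R ⧸ I)] (p : Tup n d (R ⧸ J) → Prop) :
    Nat.card {G : Tup n d (R ⧸ I) // p (rdc h G)} * nI J ^ VV n d =
      Nat.card {G : Tup n d (R ⧸ J) // p G} * nI I ^ VV n d := by
  have hf : Finite (R ⧸ J) := Finite.of_surjective _ (Ideal.Quotient.factor_surjective h)
  let φ : Tup n d (R ⧸ I) →+ Tup n d (R ⧸ J) :=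
    { toFun := fun G => rdc h G
      map_zero' := by
        funext i s
        exact map_zero (Ideal.Quotient.factor h)
      map_add' := fun G G' => by
        funext i s
        exact map_add (Ideal.Quotient.factor h) (G i s) (G' i s) }
  have hφ : Function.Surjective φ := by
    intro G
    choose u hu using Ideal.Quotient.factor_surjective h
    refine ⟨fun i s => u (G i s), ?_⟩
    funext i s
    exact hu (G i s)
  have h1 := card_pre φ hφ p
  rw [card_TupR n d (R ⧸ J), card_TupR n d (R ⧸ I)] at h1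
  exact h1

end cls

end Pool.Agent.Lib.MP_1ad228_ntZ.LZ
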