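import Pool.Agent.Lib.MP_1ad228_ntZ.LZ_Base

/-!
LZ_Del.  The sum over the ideals of a quotient of the ring of integers without small prime factors.

`R = R ⧸ I`, all prime ideals containing `I` have norm `> p0`. Let `T` be a finite set of proper ideals of `R`. For `J ∈ T` put `J' = J.comap (Ideal.Quotient.mk I)`: `I ≤ J'`
(`Ideal.mk_ker`, `Ideal.ker_le_comap`), `J' ≠ ⊤` (`Ideal.comap_ne_top`, or `Ideal.comap_map_of_surjective`), `J' ≠ ⊥` (as `I ≠ ⊥`), and `J ↦ J'` is injective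
(`Ideal.comap_injective_of_surjective _ Ideal.Quotient.mk_surjective`). The rings `R ⧸ J` and `R ⧸ J'` are isomorphic
(`Ideal.quotientEquiv`, `DoubleQuot.quotQuotEquivQuotOfLE`, or directly: the composition `R → R → R ⧸ J` is surjective with kernel `J'`,
`RingHom.quotientKerEquivOfSurjective`), so `Nat.card (R ⧸ J) = nI J'` (`card_quotO`).
`J'` is contained in a maximal ideal `P` (`Ideal.exists_le_maximal`), `I ≤ P`, so `p0 < absNorm P`, and `absNorm P ∣ absNorm J'` (`nI_dvd_absNorm_of_le`), `absNorm J' ≠ 0`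
(`nI_ne_zero_iff`/`finite_quot`), so `p0 < absNorm J'`. Hence the sum is at most `∑ over the image of 1 / (absNorm J')^2 ≤ CK K 0 / (p0 + 1)` (`idTail 0 p0`).
-/

namespace Pool.Agent.Lib.MP_1ad228_ntZ.LZ

open Classical

private theorem LZ_Del_card {R : Type} [CommRing R] [IsDedekindDomain R] [Infinite R] (I : Ideal R) (J : Ideal (R ⧸ I)) :
    Nat.card ((R ⧸ I) ⧸ J) = nI (J.comap (Ideal.Quotient.mk I)) := by
  unfold nI
  have hsurj : Function.Surjective ((Ideal.Quotient.mk J).comp (Ideal.Quotient.mk I)) := by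
    rw [RingHom.coe_comp]
    exact Ideal.Quotient.mk_surjective.comp Ideal.Quotient.mk_surjective
  have hker : RingHom.ker ((Ideal.Quotient.mk J).comp (Ideal.Quotient.mk I)) = J.comap (Ideal.Quotient.mk I) := by
    rw [← RingHom.comap_ker, Ideal.mk_ker]
  have e := RingHom.quotientKerEquivOfSurjective hsurj
  rw [← hker]
  exact (Nat.card_congr e.toEquiv).symm

theorem LZ_del {R : Type} [CommRing R] [IsDedekindDomain R] [Infinite R] (hq : FinQ R)
    (p0 : ℕ) (C2 : ℝ)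
    (htail : ∀ T : Finset (Ideal R), (∀ J ∈ T, J ≠ ⊥ ∧ (p0 : ℝ) < nI J) →
      ∑ J ∈ T, 1 / (nI J : ℝ) ^ 2 ≤ C2 / (p0 + 1))
    (I : Ideal R) (hI : I ≠ ⊥)
    (h : ∀ P : Ideal R, P.IsPrime → I ≤ P → p0 < nI P) :
    IdS (R ⧸ I) (C2 / (p0 + 1)) := by
  intro T hT
  have hinj : Function.Injective (fun J : Ideal (R ⧸ I) => J.comap (Ideal.Quotient.mk I)) :=
    Ideal.comap_injective_of_surjective _ Ideal.Quotient.mk_surjective
  have hIle : ∀ J : Ideal (R ⧸ I), I ≤ J.comap (Ideal.Quotient.mk I) := by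
    intro J x hx
    rw [Ideal.mem_comap, Ideal.Quotient.eq_zero_iff_mem.2 hx]
    exact J.zero_mem
  have hsum : ∑ J ∈ T, (1 / (Nat.card ((R ⧸ I) ⧸ J) : ℝ)) ^ 2
      = ∑ J' ∈ T.image (fun J : Ideal (R ⧸ I) => J.comap (Ideal.Quotient.mk I)),
        1 / (nI J' : ℝ) ^ 2 := by
    rw [Finset.sum_image fun a _ b _ hab => hinj hab]
    refine Finset.sum_congr rfl fun J _ => ?_
    rw [LZ_Del_card, one_div, one_div, inv_pow]
  rw [hsum]
  refine htail _ fun J' hJ' => ?_
  obtain ⟨J, hJ, rfl⟩ := Finset.mem_image.1 hJ'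
  have hne_top : J.comap (Ideal.Quotient.mk I) ≠ ⊤ := by
    intro h0
    have h1 : J = ⊤ := by
      rw [Ideal.eq_top_iff_one]
      have h2 : (1 : R) ∈ J.comap (Ideal.Quotient.mk I) := by
        rw [h0]
        exact Submodule.mem_top
      rw [Ideal.mem_comap, map_one] at h2
      exact h2
    rw [h1] at hJ
    exact hT hJ
  have hne_bot : J.comap (Ideal.Quotient.mk I) ≠ ⊥ := by
    intro h0
    have h1 := hIle J
    rw [h0, le_bot_iff] at h1
    exact hI h1
  obtain ⟨P, hP, hle⟩ := Ideal.exists_le_maximal _ hne_top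
  have hIP : I ≤ P := (hIle J).trans hle
  have h1 : p0 < nI P := h P hP.isPrime hIP
  have h2 : nI P ∣ nI (J.comap (Ideal.Quotient.mk I)) := nI_dvd hle
  have h3 : 0 < nI (J.comap (Ideal.Quotient.mk I)) := hq.pos hne_bot
  have h4 := Nat.le_of_dvd h3 h2
  exact ⟨hne_bot, by exact_mod_cast lt_of_lt_of_le h1 h4⟩

end Pool.Agent.Lib.MP_1ad228_ntZ.LZ
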