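import Pool.Agent.Lib.MP_1ad228_ntZ.LZ_Base

/-! Tail of the sum over the ideals of the inverse squares of the norms. -/

namespace Pool.Agent.Lib.MP_1ad228_ntZ.LZ

open Classical

/-- Finite sets of ideals with norms larger than `w`. -/
theorem LZ_tail {R : Type} [CommRing R] {C : ℝ} (hC1 : 1 ≤ C)
    (hC : ∀ X : ℝ, 1 ≤ X → ∀ S : Finset (Ideal R), (∀ I ∈ S, I ≠ ⊥ ∧ (nI I : ℝ) ≤ X) →
      (S.card : ℝ) ≤ C * X) (w : ℕ) (S : Finset (Ideal R))
    (hS : ∀ I ∈ S, I ≠ ⊥ ∧ (w : ℝ) < nI I) :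
    ∑ I ∈ S, 1 / (nI I : ℝ) ^ 2 ≤ 4 * C / (w + 1) := by
  -- dyadic classes
  let j : Ideal R → ℕ := fun I => Nat.log 2 (nI I / (w + 1))
  have hw0 : (0 : ℝ) < w + 1 := by positivity
  have hS1 : ∀ I ∈ S, w + 1 ≤ nI I := fun I hI => by exact_mod_cast (hS I hI).2
  have hlow : ∀ I ∈ S, (2 : ℝ) ^ j I * (w + 1) ≤ nI I := by
    intro I hI
    have h1 : nI I / (w + 1) ≠ 0 := by
      have := Nat.div_pos (hS1 I hI) (Nat.succ_pos w)
      exact this.ne'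
    have h2 : 2 ^ j I ≤ nI I / (w + 1) := Nat.pow_log_le_self 2 h1
    have h3 : 2 ^ j I * (w + 1) ≤ nI I :=
      (Nat.mul_le_mul_right _ h2).trans (Nat.div_mul_le_self _ _)
    exact_mod_cast h3
  have hup : ∀ I ∈ S, (nI I : ℝ) ≤ 2 * 2 ^ j I * (w + 1) := by
    intro I hI
    have h2 : nI I / (w + 1) < 2 ^ (j I + 1) := Nat.lt_pow_succ_log_self (by norm_num) _
    have h3 : nI I < 2 ^ (j I + 1) * (w + 1) :=
      (Nat.div_lt_iff_lt_mul (Nat.succ_pos w)).1 h2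
    have h4 : (nI I : ℝ) < 2 ^ (j I + 1) * (w + 1) := by exact_mod_cast h3
    rw [pow_succ] at h4
    linarith
  let J : ℕ := S.sup j + 1
  have hJ : ∀ I ∈ S, j I ∈ Finset.range J := fun I hI =>
    Finset.mem_range.2 (Nat.lt_succ_of_le (Finset.le_sup hI))
  have hsplit : ∑ I ∈ S, 1 / (nI I : ℝ) ^ 2 =
      ∑ i ∈ Finset.range J, ∑ I ∈ S.filter (fun I => j I = i), 1 / (nI I : ℝ) ^ 2 :=
    (Finset.sum_fiberwise_of_maps_to hJ _).symm
  rw [hsplit]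
  have hone : ∀ i ∈ Finset.range J,
      ∑ I ∈ S.filter (fun I => j I = i), 1 / (nI I : ℝ) ^ 2 ≤
        (2 * C / (w + 1)) * (1 / 2) ^ i := by
    intro i _
    have h1 : ∀ I ∈ S.filter (fun I => j I = i), 1 / (nI I : ℝ) ^ 2 ≤
        1 / ((2 : ℝ) ^ i * (w + 1)) ^ 2 := by
      intro I hI
      obtain ⟨hI1, hI2⟩ := Finset.mem_filter.1 hI
      have h2 := hlow I hI1
      rw [hI2] at h2
      have h3 : 0 < (2 : ℝ) ^ i * (w + 1) := by positivity
      gcongr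
    have h4 : ((S.filter (fun I => j I = i)).card : ℝ) ≤ C * (2 * 2 ^ i * (w + 1)) := by
      refine hC _ ?_ _ fun I hI => ?_
      · have h5 : (1 : ℝ) ≤ 2 ^ i := one_le_pow₀ (by norm_num)
        have h6 : (0 : ℝ) ≤ w := Nat.cast_nonneg w
        nlinarith
      · obtain ⟨hI1, hI2⟩ := Finset.mem_filter.1 hI
        have h2 := hup I hI1
        rw [hI2] at h2
        exact ⟨(hS I hI1).1, h2⟩
    calc _ ≤ ∑ I ∈ S.filter (fun I => j I = i), 1 / ((2 : ℝ) ^ i * (w + 1)) ^ 2 :=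
          Finset.sum_le_sum h1
      _ = ((S.filter (fun I => j I = i)).card : ℝ) * (1 / ((2 : ℝ) ^ i * (w + 1)) ^ 2) := by
          rw [Finset.sum_const, nsmul_eq_mul]
      _ ≤ C * (2 * 2 ^ i * (w + 1)) * (1 / ((2 : ℝ) ^ i * (w + 1)) ^ 2) :=
          mul_le_mul_of_nonneg_right h4 (by positivity)
      _ = (2 * C / (w + 1)) * (1 / 2) ^ i := by
          have h5 : (2 : ℝ) ^ i ≠ 0 := by positivity
          rw [one_div, one_div, inv_pow]
          field_simp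
  refine (Finset.sum_le_sum hone).trans ?_
  rw [← Finset.mul_sum]
  have hgeo : ∑ i ∈ Finset.range J, (1 / 2 : ℝ) ^ i ≤ 2 := by
    have h1 := geom_sum_eq (show (1 / 2 : ℝ) ≠ 1 by norm_num) J
    rw [h1]
    have h2 : (0 : ℝ) ≤ (1 / 2) ^ J := by positivity
    rw [div_le_iff_of_neg (by norm_num)]
    linarith
  calc 2 * C / (w + 1) * ∑ i ∈ Finset.range J, (1 / 2 : ℝ) ^ i ≤ 2 * C / (w + 1) * 2 :=
        mul_le_mul_of_nonneg_left hgeo (by positivity)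
    _ = 4 * C / (w + 1) := by ring

end Pool.Agent.Lib.MP_1ad228_ntZ.LZ
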