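import Pool.Agent.Lib.MP_1ad228_ntZ.LZ_Hensel
import Pool.Agent.Lib.MP_1ad228_ntZ.LZ_Crt
import Pool.Agent.Lib.MP_1ad228_ntZ.LZ_Split
import Pool.Agent.Lib.MP_1ad228_ntZ.LZ_Del
import Pool.Agent.Lib.MP_1ad228_ntZ.LZ_Tail
import Pool.Agent.Lib.MP_1ad228_ntZ.LZ_Cls
import Pool.Agent.Lib.MP_1ad228_ntN.LD_Exc
import Pool.Agent.Lib.MP_1ad228_ntN.LD_MomC

/-!
Assembly of the local densities, for classes modulo an ideal of a Dedekind domain with finite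
quotients.
-/

namespace Pool.Agent.Lib.MP_1ad228_ntZ.LZ

open Classical Pool.Agent.Lib.MP_1ad228_ntN

variable {R : Type} [CommRing R] [IsDedekindDomain R] [Infinite R]

/-- Counting for the singular classes. -/
private theorem lz_exc (hq : FinQ R) (n : ℕ) {r : ℕ} (d : Fin r → ℕ) (hd : ∀ i, 1 ≤ d i)
    (I P : Ideal R) (hI : I ≠ ⊥) (hP0 : P ≠ ⊥) (e : ℕ) (h : I ≤ P ^ e) :
    (Nat.card {G : Tup n d (R ⧸ I) // ExcR (rdc h G)} : ℝ) ≤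
      (r * (n + 1)) / (nI P : ℝ) ^ e * (nI I : ℝ) ^ VV n d := by
  have hPe : P ^ e ≠ ⊥ := pow_ne_zero e hP0
  have hfI : Finite (R ⧸ I) := hq I hI
  have hfin : Finite (R ⧸ P ^ e) := hq _ hPe
  have h1 := LZ_cls h (fun G : Tup n d (R ⧸ P ^ e) => ExcR G)
  have h3 := LD_exc n d hd (R ⧸ P ^ e)
  rw [← nI_def] at h3
  have hN : (0 : ℝ) < (nI (P ^ e) : ℝ) := by exact_mod_cast hq.pos hPe
  have hNe : (nI (P ^ e) : ℝ) = (nI P : ℝ) ^ e := by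
    rw [nI_pow]
    push_cast
    rfl
  have h4 : (Nat.card {G : Tup n d (R ⧸ P ^ e) // ExcR G} : ℝ) *
      (nI (P ^ e) : ℝ) ≤ r * (n + 1) * (nI (P ^ e) : ℝ) ^ VV n d := by
    exact_mod_cast h3
  have h5 : (Nat.card {G : Tup n d (R ⧸ I) // ExcR (rdc h G)} : ℝ) * (nI (P ^ e) : ℝ) ^ VV n d =
      (Nat.card {G : Tup n d (R ⧸ P ^ e) // ExcR G} : ℝ) * (nI I : ℝ) ^ VV n d := by
    exact_mod_cast h1
  rw [← hNe]
  generalize (Nat.card {G : Tup n d (R ⧸ P ^ e) // ExcR G} : ℝ) = c at h4 h5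
  generalize (nI (P ^ e) : ℝ) = N at h4 hN h5 ⊢
  generalize (Nat.card {G : Tup n d (R ⧸ I) // ExcR (rdc h G)} : ℝ) = x at h5 ⊢
  have hNV : 0 < N ^ VV n d := by positivity
  have h6 : x = c / N ^ VV n d * (nI I : ℝ) ^ VV n d := by
    rw [div_mul_eq_mul_div, ← h5, mul_div_assoc, div_self hNV.ne', mul_one]
  have h7 : c / (N ^ VV n d) ≤ (r * (n + 1)) / N := by
    rw [div_le_div_iff₀ (by positivity) hN]
    exact h4
  rw [h6]
  exact mul_le_mul_of_nonneg_right h7 (by positivity)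

omit [IsDedekindDomain R] [Infinite R] in
/-- Counting for the classes with few zeros. -/
private theorem lz_few (hq : FinQ R) (n : ℕ) {r : ℕ} (hn : r + 2 ≤ n) (d : Fin r → ℕ)
    (hd : ∀ i, 1 ≤ d i) (I J : Ideal R) (hI : I ≠ ⊥) (hJ : J ≠ ⊥) (h : I ≤ J) {δ : ℝ}
    (hδ : IdS (R ⧸ J) δ) (hδ8 : δ ≤ 1 / 8) :
    (Nat.card {G : Tup n d (R ⧸ I) // (smR (rdc h G) : ℝ) * (nI J : ℝ) ^ r ≤
      (nI J : ℝ) ^ (n + 1) / 2} : ℝ) ≤ 16 * δ * (nI I : ℝ) ^ VV n d := by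
  have hfI : Finite (R ⧸ I) := hq I hI
  have hfin : Finite (R ⧸ J) := hq _ hJ
  have h1 := LZ_cls h (fun G : Tup n d (R ⧸ J) => (smR G : ℝ) * (nI J : ℝ) ^ r ≤
        (nI J : ℝ) ^ (n + 1) / 2)
  have h3 := LD_M1 n hn d hd (R ⧸ J) hδ hδ8
  rw [← nI_def] at h3
  have hN : (0 : ℝ) < (nI J : ℝ) := by exact_mod_cast hq.pos hJ
  have h5 : (Nat.card {G : Tup n d (R ⧸ I) // (smR (rdc h G) : ℝ) * (nI J : ℝ) ^ r ≤
      (nI J : ℝ) ^ (n + 1) / 2} : ℝ) * (nI J : ℝ) ^ VV n d =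
      (Nat.card {G : Tup n d (R ⧸ J) // (smR G : ℝ) * (nI J : ℝ) ^ r ≤
        (nI J : ℝ) ^ (n + 1) / 2} : ℝ) * (nI I : ℝ) ^ VV n d := by
    exact_mod_cast h1
  generalize (Nat.card {G : Tup n d (R ⧸ J) // (smR G : ℝ) * (nI J : ℝ) ^ r ≤
        (nI J : ℝ) ^ (n + 1) / 2} : ℝ) = c at h3 h5
  generalize (Nat.card {G : Tup n d (R ⧸ I) // (smR (rdc h G) : ℝ) * (nI J : ℝ) ^ r ≤
      (nI J : ℝ) ^ (n + 1) / 2} : ℝ) = x at h5 ⊢
  generalize (nI J : ℝ) = N at h3 hN h5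
  have hNV : 0 < N ^ VV n d := by positivity
  have h6 : x = c / N ^ VV n d * (nI I : ℝ) ^ VV n d := by
    rw [div_mul_eq_mul_div, ← h5, mul_div_assoc, div_self hNV.ne', mul_one]
  have h7 : c / (N ^ VV n d) ≤ 16 * δ := by
    rw [div_le_iff₀ hNV]
    exact h3
  rw [h6]
  exact mul_le_mul_of_nonneg_right h7 (by positivity)

/-- Lower bound for the number of zeros outside the exceptional sets. -/
theorem LZ_lower (hq : FinQ R) {n r : ℕ} (hr : 1 ≤ r)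
    (hn : r + 2 ≤ n) {d : Fin r → ℕ} (T : Finset (Ideal R))
    (hT : ∀ P ∈ T, P.IsPrime ∧ P ≠ ⊥) (m : Ideal R → ℕ) (I J : Ideal R) (hJ : J ≠ ⊥)
    (hJT : ∀ P ∈ T, ¬ J ≤ P) (e : ℕ) (he : 1 ≤ e) (hI : I = (∏ P ∈ T, P ^ m P) * J)
    (hm : ∀ P ∈ T, 2 * r * e ≤ m P) (F : Tup n d R) (hsol : ∀ P ∈ T, SolAt P F)
    (h1 : ∀ P ∈ T, ¬ ExcR (red (P ^ e) F))
    (h2 : (nI J : ℝ) ^ (n + 1) / 2 < (smI J F : ℝ) * (nI J : ℝ) ^ r) :
    (1 / 2 * ∏ P ∈ T, (1 / ((nI P : ℝ) ^ (2 * r * e * (n + 1 - r))))) *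
        (nI I : ℝ) ^ (n + 1) ≤
      (smI I F : ℝ) * (nI I : ℝ) ^ r := by
  have hNP : ∀ P ∈ T, (0 : ℝ) < (nI P : ℝ) := by
    intro P hP
    exact_mod_cast hq.pos (hT P hP).2
  have hprod0 : (∏ P ∈ T, P ^ m P) ≠ ⊥ := by
    have : (∏ P ∈ T, P ^ m P) ≠ 0 :=
      Finset.prod_ne_zero_iff.2 fun P hP => pow_ne_zero _ (hT P hP).2
    exact this
  have hmul := LZ_mul hq (∏ P ∈ T, P ^ m P) J hprod0 hJ (LZ_cop2 T hT m J hJT) F
  have hprod := LZ_prod hq T (fun P => P ^ m P) (fun P hP => pow_ne_zero _ (hT P hP).2)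
    (fun P hP Q hQ hPQ => LZ_cop (hT P hP).1 (hT P hP).2 (hT Q hQ).1 (hT Q hQ).2 hPQ _ _) F
  have hloc : ∏ P ∈ T, nI P ^ ((n + 1 - r) * (m P - 2 * r * e)) ≤
      ∏ P ∈ T, smI (P ^ m P) F := by
    refine Finset.prod_le_prod' fun P hP => ?_
    exact LZ_hensel hq hr P (hT P hP).1 (hT P hP).2 e (m P) he (hm P hP) F
      (hsol P hP) (h1 P hP)
  have hnat : (∏ P ∈ T, nI P ^ ((n + 1 - r) * (m P - 2 * r * e))) *
      smI J F ≤ smI I F := by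
    rw [hI]
    exact (Nat.mul_le_mul_right _ (hloc.trans hprod)).trans hmul
  have hall : (∏ P ∈ T, (nI P : ℝ) ^ ((n + 1 - r) * (m P - 2 * r * e))) *
      (smI J F : ℝ) ≤ (smI I F : ℝ) := by
    exact_mod_cast hnat
  have hcast : (nI I : ℝ) = (∏ P ∈ T, (nI P : ℝ) ^ m P) *
      (nI J : ℝ) := by
    have h3 : nI I = (∏ P ∈ T, nI P ^ m P) * nI J := by
      rw [hI, nI_mul, nI_prod]
      simp only [nI_pow]
    exact_mod_cast h3
  have hrr : ∀ P ∈ T,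
      (1 / ((nI P : ℝ) ^ (2 * r * e * (n + 1 - r)))) *
          ((nI P : ℝ) ^ m P) ^ (n + 1) =
        (nI P : ℝ) ^ ((n + 1 - r) * (m P - 2 * r * e)) *
          ((nI P : ℝ) ^ m P) ^ r := by
    intro P hP
    have hp0 := hNP P hP
    rw [one_div, inv_mul_eq_div, div_eq_iff (pow_pos hp0 _).ne', ← pow_mul, ← pow_mul, ← pow_add,
      ← pow_add]
    obtain ⟨k, hk⟩ : ∃ k, n + 1 = r + k := ⟨n + 1 - r, by omega⟩
    obtain ⟨v, hv⟩ : ∃ v, m P = 2 * r * e + v := ⟨m P - 2 * r * e, by have := hm P hP; omega⟩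
    rw [hk, hv, Nat.add_sub_cancel_left, Nat.add_sub_cancel_left]
    congr 1
    ring
  have hstep : (1 / 2 * ∏ P ∈ T, (1 / ((nI P : ℝ) ^ (2 * r * e * (n + 1 - r))))) *
        (nI I : ℝ) ^ (n + 1) =
      ((∏ P ∈ T, (nI P : ℝ) ^ ((n + 1 - r) * (m P - 2 * r * e))) *
        (∏ P ∈ T, (nI P : ℝ) ^ m P) ^ r) *
        ((nI J : ℝ) ^ (n + 1) / 2) := by
    rw [hcast, mul_pow, ← Finset.prod_pow, ← Finset.prod_pow, ← Finset.prod_mul_distrib,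
      ← Finset.prod_congr rfl hrr, Finset.prod_mul_distrib]
    ring
  rw [hstep]
  have hpos : 0 ≤ (∏ P ∈ T, (nI P : ℝ) ^ ((n + 1 - r) * (m P - 2 * r * e))) *
        (∏ P ∈ T, (nI P : ℝ) ^ m P) ^ r :=
    mul_nonneg (Finset.prod_nonneg fun _ _ => pow_nonneg (Nat.cast_nonneg _) _)
      (pow_nonneg (Finset.prod_nonneg fun _ _ => pow_nonneg (Nat.cast_nonneg _) _) _)
  refine (mul_le_mul_of_nonneg_left h2.le hpos).trans ?_
  have hall2 := mul_le_mul_of_nonneg_right hall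
    (pow_nonneg (Nat.cast_nonneg (α := ℝ) (nI I)) r)
  refine le_trans (le_of_eq ?_) hall2
  rw [hcast, mul_pow]
  ring

/-- The local densities with given parameters. -/
theorem LZ_densT (hq : FinQ R) (n : ℕ) {r : ℕ} (hr : 1 ≤ r) (hn : r + 2 ≤ n) (d : Fin r → ℕ)
    (hd : ∀ i, 1 ≤ d i) (T : Finset (Ideal R)) (hT : ∀ P ∈ T, P.IsPrime ∧ P ≠ ⊥) (e : ℕ)
    (he : 1 ≤ e) {δ : ℝ} (hδ8 : δ ≤ 1 / 8) (I : Ideal R) (hI : I ≠ ⊥)
    (hIe : ∀ P ∈ T, I ≤ P ^ (2 * r * e))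
    (hJ : ∀ J : Ideal R, J ≠ ⊥ → I ≤ J → (∀ P ∈ T, ¬ J ≤ P) → IdS (R ⧸ J) δ) :
    (Nat.card {G : Tup n d (R ⧸ I) // (∃ F : Tup n d R, red I F = G ∧ ∀ P ∈ T, SolAt P F) ∧
        (smR G : ℝ) * (nI I : ℝ) ^ r <
          (1 / 2 * ∏ P ∈ T, (1 / ((nI P : ℝ) ^ (2 * r * e * (n + 1 - r))))) *
            (nI I : ℝ) ^ (n + 1)} : ℝ) ≤
      (16 * δ + r * (n + 1) * ∑ P ∈ T, 1 / (nI P : ℝ) ^ e) * (nI I : ℝ) ^ VV n d := by
  have hfI : Finite (R ⧸ I) := hq I hI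
  have : Fintype (R ⧸ I) := Fintype.ofFinite _
  have : Fintype (Tup n d (R ⧸ I)) := Fintype.ofFinite _
  obtain ⟨m, J, hIJ, hJ0, hJT, hmax⟩ := LZ_split I hI T hT
  have hm : ∀ P ∈ T, 2 * r * e ≤ m P := fun P hP => hmax P hP _ (hIe P hP)
  have hle : I ≤ J := by
    rw [hIJ]
    exact Ideal.mul_le_right
  have hre : e ≤ 2 * r * e := by
    have h1 : 1 * e ≤ 2 * r * e := Nat.mul_le_mul_right e (by omega)
    omega
  have hPe : ∀ P ∈ T, I ≤ P ^ e := fun P hP => (hIe P hP).trans (Ideal.pow_le_pow_right hre)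
  set B := (Finset.univ : Finset (Tup n d (R ⧸ I))).filter
    (fun G => (∃ F : Tup n d R, red I F = G ∧ ∀ P ∈ T, SolAt P F) ∧
        (smR G : ℝ) * (nI I : ℝ) ^ r <
          (1 / 2 * ∏ P ∈ T, (1 / ((nI P : ℝ) ^ (2 * r * e * (n + 1 - r))))) *
            (nI I : ℝ) ^ (n + 1)) with hB
  let B1 := (Finset.univ : Finset (Tup n d (R ⧸ I))).filter
    (fun G => (smR (rdc hle G) : ℝ) * (nI J : ℝ) ^ r ≤ (nI J : ℝ) ^ (n + 1) / 2)
  let B2 : Ideal R → Finset (Tup n d (R ⧸ I)) := fun P =>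
    if h : I ≤ P ^ e then (Finset.univ : Finset (Tup n d (R ⧸ I))).filter
      (fun G => ExcR (rdc h G)) else ∅
  have hsub : B ⊆ B1 ∪ T.biUnion B2 := by
    intro G hG
    obtain ⟨-, ⟨F, hFG, hsol⟩, hlt⟩ := Finset.mem_filter.1 hG
    rw [Finset.mem_union, Finset.mem_biUnion]
    by_contra hcon
    rw [not_or] at hcon
    have h2 : (nI J : ℝ) ^ (n + 1) / 2 < (smI J F : ℝ) * (nI J : ℝ) ^ r := by
      by_contra h
      refine hcon.1 (Finset.mem_filter.2 ⟨Finset.mem_univ _, ?_⟩)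
      have h3 : smI J F = smR (rdc hle G) := by
        rw [← hFG, rdc_red]
        rfl
      rw [← h3]
      exact not_lt.1 h
    have h1 : ∀ P ∈ T, ¬ ExcR (red (P ^ e) F) := by
      intro P hP h
      refine hcon.2 ⟨P, hP, ?_⟩
      show G ∈ (if h : I ≤ P ^ e then (Finset.univ : Finset (Tup n d (R ⧸ I))).filter
        (fun G => ExcR (rdc h G)) else ∅)
      rw [dif_pos (hPe P hP), Finset.mem_filter]
      refine ⟨Finset.mem_univ _, ?_⟩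
      rw [← hFG, rdc_red]
      exact h
    have h3 := LZ_lower hq hr hn T hT m I J hJ0 hJT e he hIJ hm F hsol h1 h2
    have h4 : smI I F = smR G := by
      rw [← hFG]
      rfl
    rw [h4] at h3
    exact absurd h3 (not_le.2 hlt)
  have hc1 : (B1.card : ℝ) ≤ 16 * δ * (nI I : ℝ) ^ VV n d := by
    have h1 := lz_few hq n hn d hd I J hI hJ0 hle (hJ J hJ0 hle hJT) hδ8
    rw [Nat.card_eq_fintype_card, Fintype.card_subtype] at h1
    exact h1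
  have hc2 : ∀ P ∈ T, ((B2 P).card : ℝ) ≤ (r * (n + 1)) / (nI P : ℝ) ^ e * (nI I : ℝ) ^ VV n d := by
    intro P hP
    have h1 := lz_exc hq n d hd I P hI (hT P hP).2 e (hPe P hP)
    rw [Nat.card_eq_fintype_card, Fintype.card_subtype] at h1
    have h2 : B2 P = (Finset.univ : Finset (Tup n d (R ⧸ I))).filter
      (fun G => ExcR (rdc (hPe P hP) G)) := dif_pos (hPe P hP)
    rw [h2]
    exact h1
  rw [Nat.card_eq_fintype_card, Fintype.card_subtype]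
  have h5 : (B.card : ℝ) ≤ (B1.card : ℝ) + ∑ P ∈ T, ((B2 P).card : ℝ) := by
    have h1 := (Finset.card_le_card hsub).trans (Finset.card_union_le _ _)
    have h2 := h1.trans (Nat.add_le_add_left Finset.card_biUnion_le _)
    exact_mod_cast h2
  refine h5.trans ?_
  have h6 := Finset.sum_le_sum hc2
  have h7 : ∑ P ∈ T, (r * (n + 1)) / (nI P : ℝ) ^ e * (nI I : ℝ) ^ VV n d =
      r * (n + 1) * (∑ P ∈ T, 1 / (nI P : ℝ) ^ e) * (nI I : ℝ) ^ VV n d := by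
    rw [Finset.mul_sum, Finset.sum_mul]
    refine Finset.sum_congr rfl fun P _ => ?_
    ring
  rw [h7] at h6
  rw [add_mul]
  exact add_le_add hc1 h6

/-- The local densities. -/
theorem LZ_dens (hq : FinQ R) {C : ℝ} (hC1 : 1 ≤ C)
    (hC : ∀ X : ℝ, 1 ≤ X → ∀ S : Finset (Ideal R), (∀ I ∈ S, I ≠ ⊥ ∧ (nI I : ℝ) ≤ X) →
      (S.card : ℝ) ≤ C * X)
    (n : ℕ) {r : ℕ} (hr : 1 ≤ r) (hn : r + 2 ≤ n) (d : Fin r → ℕ)
    (hd : ∀ i, 1 ≤ d i) (ε : ℝ) (hε : 0 < ε) :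
    ∃ τ : ℝ, 0 < τ ∧ ∃ w0 : ℕ, ∀ w : ℕ, w0 ≤ w → ∀ I : Ideal R, I ≠ ⊥ →
      (∀ P : Ideal R, P.IsPrime → P ≠ ⊥ → nI P ≤ w → I ≤ P ^ w) →
      (Nat.card {G : Tup n d (R ⧸ I) // (∃ F : Tup n d R, red I F = G ∧
            ∀ P : Ideal R, P.IsPrime → P ≠ ⊥ → SolAt P F) ∧
          (smR G : ℝ) * (nI I : ℝ) ^ r < τ * (nI I : ℝ) ^ (n + 1)} : ℝ) ≤
        ε * (nI I : ℝ) ^ VV n d := by
  obtain ⟨p0, hp0⟩ := exists_nat_gt (4 * C * 8 + 4 * C * 32 / ε)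
  have hC0 : 0 < C := by linarith
  have hp0pos : (0 : ℝ) < (p0 : ℝ) + 1 := by positivity
  have hq1 : 0 < 4 * C * 32 / ε := by positivity
  have h8 : 4 * C / (p0 + 1) ≤ 1 / 8 := by
    rw [div_le_div_iff₀ hp0pos (by norm_num)]
    linarith
  have h16 : 16 * (4 * C / (p0 + 1)) ≤ ε / 2 := by
    have h1 : 4 * C * 32 / ε ≤ (p0 : ℝ) + 1 := by linarith
    rw [div_le_iff₀ hε] at h1
    have h2 : 16 * (4 * C / (p0 + 1)) = (16 * (4 * C)) / (p0 + 1) := by ring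
    rw [h2, div_le_div_iff₀ hp0pos (by norm_num)]
    linarith
  have hTfin : {P : Ideal R | P.IsPrime ∧ P ≠ ⊥ ∧ nI P ≤ p0}.Finite := by
    by_contra hinf
    obtain ⟨N, hN⟩ := exists_nat_gt (C * ((p0 : ℝ) + 1))
    obtain ⟨S, hS1, hS2⟩ := Set.Infinite.exists_subset_card_eq hinf N
    have h1 := hC ((p0 : ℝ) + 1) (by linarith [(Nat.cast_nonneg p0 : (0 : ℝ) ≤ p0)]) S
      fun I hI => by
        have h2 := hS1 hI
        refine ⟨h2.2.1, ?_⟩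
        have h3 : (nI I : ℝ) ≤ p0 := by exact_mod_cast h2.2.2
        linarith
    rw [hS2] at h1
    linarith
  obtain ⟨T, hTdef⟩ : ∃ T : Finset (Ideal R), T = hTfin.toFinset := ⟨_, rfl⟩
  have hTmem : ∀ P : Ideal R, P ∈ T ↔ P.IsPrime ∧ P ≠ ⊥ ∧ nI P ≤ p0 := by
    intro P
    rw [hTdef, Set.Finite.mem_toFinset]
    rfl
  have hT : ∀ P ∈ T, P.IsPrime ∧ P ≠ ⊥ := fun P hP =>
    ⟨((hTmem P).1 hP).1, ((hTmem P).1 hP).2.1⟩
  have hN2 : ∀ P ∈ T, 2 ≤ nI P := by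
    intro P hP
    have h0 : 0 < nI P := hq.pos (hT P hP).2
    have h1 : nI P ≠ 1 := by
      intro h
      exact (hT P hP).1.ne_top (nI_eq_one.1 h)
    omega
  obtain ⟨e1, he1⟩ := pow_unbounded_of_one_lt
    (2 * ((r : ℝ) * (n + 1)) * ((T.card : ℝ) + 1) / ε) (by norm_num : (1 : ℝ) < 2)
  obtain ⟨e, hedef⟩ : ∃ e : ℕ, e = e1 + 1 := ⟨_, rfl⟩
  have he : 1 ≤ e := by omega
  have he2 : 2 * ((r : ℝ) * (n + 1)) * ((T.card : ℝ) + 1) / ε ≤ 2 ^ e := by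
    refine he1.le.trans ?_
    exact pow_le_pow_right₀ (by norm_num) (by omega)
  refine ⟨1 / 2 * ∏ P ∈ T, (1 / ((nI P : ℝ) ^ (2 * r * e * (n + 1 - r)))), ?_,
    2 * r * e + p0, fun w hw I hI hIw => ?_⟩
  · refine mul_pos (by norm_num) (Finset.prod_pos fun P hP => ?_)
    have hp0 : (0 : ℝ) < (nI P : ℝ) := by
      have := hN2 P hP
      exact_mod_cast (by omega : 0 < nI P)
    positivity
  have hfI : Finite (R ⧸ I) := hq I hI
  have hw0 : p0 ≤ w := by omega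
  have hwe : 2 * r * e ≤ w := by omega
  have hIe : ∀ P ∈ T, I ≤ P ^ (2 * r * e) := fun P hP =>
    (hIw P (hT P hP).1 (hT P hP).2 (((hTmem P).1 hP).2.2.trans hw0)).trans
      (Ideal.pow_le_pow_right hwe)
  have hJ : ∀ J : Ideal R, J ≠ ⊥ → I ≤ J → (∀ P ∈ T, ¬ J ≤ P) →
      IdS (R ⧸ J) (4 * C / (p0 + 1)) := by
    intro J hJ0 _ hJT
    refine LZ_del hq p0 (4 * C) (fun S hS => LZ_tail hC1 hC p0 S hS) J hJ0 ?_
    intro Q hQ hJQ
    by_contra hcon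
    have hQ0 : Q ≠ ⊥ := by
      intro h
      rw [h] at hJQ
      exact hJ0 (le_bot_iff.1 hJQ)
    exact hJT Q ((hTmem Q).2 ⟨hQ, hQ0, not_lt.1 hcon⟩) hJQ
  have hmain := LZ_densT hq n hr hn d hd T hT e he h8 I hI hIe hJ
  have hmono : (Nat.card {G : Tup n d (R ⧸ I) // (∃ F : Tup n d R, red I F = G ∧
            ∀ P : Ideal R, P.IsPrime → P ≠ ⊥ → SolAt P F) ∧
          (smR G : ℝ) * (nI I : ℝ) ^ r <
            (1 / 2 * ∏ P ∈ T, (1 / ((nI P : ℝ) ^ (2 * r * e * (n + 1 - r))))) *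
              (nI I : ℝ) ^ (n + 1)} : ℝ) ≤
      (Nat.card {G : Tup n d (R ⧸ I) // (∃ F : Tup n d R, red I F = G ∧ ∀ P ∈ T, SolAt P F) ∧
        (smR G : ℝ) * (nI I : ℝ) ^ r <
          (1 / 2 * ∏ P ∈ T, (1 / ((nI P : ℝ) ^ (2 * r * e * (n + 1 - r))))) *
            (nI I : ℝ) ^ (n + 1)} : ℝ) := by
    have h1 : Nat.card {G : Tup n d (R ⧸ I) // (∃ F : Tup n d R, red I F = G ∧
            ∀ P : Ideal R, P.IsPrime → P ≠ ⊥ → SolAt P F) ∧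
          (smR G : ℝ) * (nI I : ℝ) ^ r <
            (1 / 2 * ∏ P ∈ T, (1 / ((nI P : ℝ) ^ (2 * r * e * (n + 1 - r))))) *
              (nI I : ℝ) ^ (n + 1)} ≤
      Nat.card {G : Tup n d (R ⧸ I) // (∃ F : Tup n d R, red I F = G ∧ ∀ P ∈ T, SolAt P F) ∧
        (smR G : ℝ) * (nI I : ℝ) ^ r <
          (1 / 2 * ∏ P ∈ T, (1 / ((nI P : ℝ) ^ (2 * r * e * (n + 1 - r))))) *
            (nI I : ℝ) ^ (n + 1)} := by
      refine Nat.card_le_card_of_injective (fun G => ⟨G.1, ?_, G.2.2⟩) ?_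
      · obtain ⟨F, hF, hs⟩ := G.2.1
        exact ⟨F, hF, fun P hP => hs P (hT P hP).1 (hT P hP).2⟩
      · intro G G' h
        have h2 := congrArg Subtype.val h
        exact Subtype.ext h2
    exact_mod_cast h1
  refine (hmono.trans hmain).trans ?_
  have hV : (0 : ℝ) ≤ (nI I : ℝ) ^ VV n d := by positivity
  refine mul_le_mul_of_nonneg_right ?_ hV
  have h3 : ∀ P ∈ T, 1 / (nI P : ℝ) ^ e ≤ 1 / 2 ^ e := by
    intro P hP
    have hpe : (2 : ℝ) ^ e ≤ (nI P : ℝ) ^ e := by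
      gcongr
      exact_mod_cast hN2 P hP
    exact one_div_le_one_div_of_le (by positivity) hpe
  have h4 : ∑ P ∈ T, 1 / (nI P : ℝ) ^ e ≤ (T.card : ℝ) * (1 / 2 ^ e) := by
    refine (Finset.sum_le_sum h3).trans ?_
    rw [Finset.sum_const, nsmul_eq_mul]
  have h5 : (r : ℝ) * (n + 1) * ((T.card : ℝ) * (1 / 2 ^ e)) ≤ ε / 2 := by
    rw [div_le_iff₀ hε] at he2
    have h2e : (0 : ℝ) < 2 ^ e := by positivity
    rw [mul_one_div, ← mul_div_assoc, div_le_iff₀ h2e]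
    have h6 : (0 : ℝ) ≤ (r : ℝ) * (n + 1) := by positivity
    nlinarith
  have h6 : (0 : ℝ) ≤ (r : ℝ) * (n + 1) := by positivity
  have h7 := mul_le_mul_of_nonneg_left h4 h6
  linarith

end Pool.Agent.Lib.MP_1ad228_ntZ.LZ
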