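import Pool.Agent.Lib.MP_1ad228_ntZ.LZ_Loc
import Pool.Agent.Lib.MP_1ad228_ntN.LD_Minor
import Pool.Agent.Lib.MP_1ad228_ntN.LD_Newt

/-!
LZ_Hensel.  Many zeros modulo `P^w`.  (Model with proof: Lib/MP_1ad228_ntF/LD_Hensel.lean; adapt it. LD_Loc, LD_Minor, LD_Newt are other jobs.)

PROOF.  Take `A, π, j, ρ` from LZ_loc, `G = fmap j F : Tup n d A` (`G k = fun s => j (F k s)`), so `fmap (ρ m) G = red (P ^ m) F` (funext, `ρ m (j z) = mk z`). Let `g = 2 r e`.
Hypothesis `h` for `m = g`: `z ∈ R^(n+1)`, `z i ∉ P`, `ev (F k) z ∈ P ^ g`. `j (z i)` is a unit, `u` its inverse, `x l = u * j (z l)`: `x i = 1`, `ev (G k) x = u ^ (d k) * j (ev (F k) z)`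
(`ev_scale`, `ev_map`), `ρ g` of it is `0` (`ρ g (j y) = mk y = 0` for `y ∈ P ^ g`), so `π ^ g ∣ ev (G k) x`, hence also `π ^ e ∣ ..` and `ρ e (ev (G k) x) = 0`.
LD_minor with `ρ e` gives the injective `S` (`S k ≠ i`) with the minor not divisible by `π^(D+1)`, `D = r (e-1)`; `2 D + 1 ≤ g ≤ w` (`r ≥ 1`, `e ≥ 1`).
For `c : R ⧸ P ^ (w - g)` choose a lift `b c : A` with `ρ (w-g) (b c) = c` (`ρ m` is surjective because `ρ m ∘ j = mk` is). For
`s : {l // ∀ k, l ≠ S k} → R ⧸ P ^ (w - g)` put `x_s l = x l + π^g * b (s l)` for `l` not in the range of `S` and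
`x_s (S k) = x (S k)`. `ev (G k) x_s ≡ ev (G k) x mod π^g` (`ev_congr_dvd`), so `π^g ∣ ev (G k) x_s`; the minor condition is kept (LD_stay with `c = g`). LD_lift (with `m = g`, `w`) gives `x_s'` with
the same coordinates outside of `S` and `π^w ∣ ev (G k) x_s'`. Apply `ρ w`: a common zero of `red (P^w) F` (`ev_map`); unimodular because the `i`-th coordinate
`1 + ρ w (π)^g * _` is a unit (`ρ w π` is nilpotent: `ρ w (π^w) = 0`; `g ≥ 1`; `IsNilpotent.isUnit_one_add`; `Uni` as in the model). Different `s` give different images: if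
`ρ w (π^g b (s l)) = ρ w (π^g b (s' l))` then `π^w ∣ π^g (b (s l) - b (s' l))`, so `π^(w-g) ∣ b (s l) - b (s' l)` (`A` is a domain, `mul_dvd_mul_iff_left`) and `s l = s' l` (apply `ρ (w-g)`).
The index set `{l // ∀ k, l ≠ S k}` has `n + 1 - r` elements (`S` injective, see the model: `lzhensel_card`), `Nat.card (R ⧸ P ^ (w-g)) = (absNorm P)^(w-g)` (`← nI_def`, `map_pow`), so there are
`((absNorm P)^(w-g))^(n+1-r)` different zeros (`Nat.card_le_card_of_injective`, the target is finite: `finite_quot`, `pow_ne_zero`; `Nat.card_fun`).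
-/

namespace Pool.Agent.Lib.MP_1ad228_ntZ.LZ

open Classical Pool.Agent.Lib.MP_1ad228_ntN

private theorem lzhensel_card (n r : ℕ) (S : Fin r → Fin (n + 1)) (hS : Function.Injective S) :
    Nat.card {l : Fin (n + 1) // ∀ k, l ≠ S k} = n + 1 - r := by
  rw [Nat.card_eq_fintype_card, Fintype.card_subtype]
  have h1 : (Finset.univ.filter fun l : Fin (n + 1) => ∀ k, l ≠ S k)
      = (Finset.univ.image S)ᶜ := by
    ext l
    simp only [Finset.mem_filter, Finset.mem_univ, true_and, Finset.mem_compl, Finset.mem_image,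
      not_exists]
    exact forall_congr' fun k => ⟨fun h h2 => h h2.symm, fun h h2 => h h2.symm⟩
  rw [h1, Finset.card_compl, Fintype.card_fin, Finset.card_image_of_injective _ hS,
    Finset.card_univ, Fintype.card_fin]

theorem LZ_hensel {R : Type} [CommRing R] [IsDedekindDomain R] [Infinite R] (hq : FinQ R) {n r : ℕ} {d : Fin r → ℕ} (hr : 1 ≤ r)
    (P : Ideal R) (hP : P.IsPrime) (hP0 : P ≠ ⊥) (e w : ℕ) (he : 1 ≤ e)
    (hw : 2 * r * e ≤ w) (F : Tup n d R)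
    (h : ∀ m : ℕ, ∃ x : Vc n R, (∃ i, x i ∉ P) ∧ ∀ k, ev (F k) x ∈ P ^ m)
    (hex : ¬ ExcR (red (P ^ e) F)) :
    nI P ^ ((n + 1 - r) * (w - 2 * r * e)) ≤ smI (P ^ w) F := by
  obtain ⟨A, _, _, _, π, j, ρ, hπ, hj, hρj, hρ0⟩ := LZ_loc P hP hP0
  obtain ⟨g, hg⟩ : ∃ g : ℕ, g = 2 * r * e := ⟨_, rfl⟩
  rw [← hg] at hw ⊢
  have hre : r * (e - 1) + r = r * e := by
    obtain ⟨e', rfl⟩ : ∃ e', e = e' + 1 := ⟨e - 1, by omega⟩
    rw [Nat.add_sub_cancel]
    ring
  have hg2 : g = 2 * (r * e) := by rw [hg, mul_assoc]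
  have hg1 : 2 * (r * (e - 1)) + 1 ≤ g := by omega
  have hgD : r * (e - 1) + 1 ≤ g := by omega
  have hg0 : 0 < g := by omega
  have heg : e ≤ g := by
    have h1 : 1 * e ≤ r * e := Nat.mul_le_mul_right e hr
    omega
  obtain ⟨G, hG⟩ : ∃ G : Tup n d A, ∀ k, G k = fun s => j (F k s) := ⟨fun k s => j (F k s), fun _ => rfl⟩
  have hGred : ∀ m, fmap (ρ m) G = red (P ^ m) F := by
    intro m
    funext k s
    show ρ m (G k s) = Ideal.Quotient.mk (P ^ m) (F k s)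
    rw [hG, hρj]
  -- the approximate zero
  obtain ⟨z, ⟨i, hzi⟩, hz0⟩ := h g
  obtain ⟨u, hu⟩ := (hj _ hzi).exists_left_inv
  obtain ⟨x, hx⟩ : ∃ x : Vc n A, x = fun l => u * j (z l) := ⟨_, rfl⟩
  have hxi : x i = 1 := by
    rw [hx]
    exact hu
  have hx0 : ∀ k, π ^ g ∣ ev (G k) x := by
    intro k
    rw [← hρ0, hx, ev_scale u (G k) (fun l => j (z l)), map_mul]
    have h1 : ev (G k) (fun l => j (z l)) = j (ev (F k) z) := by
      rw [hG]
      exact ev_map j (F k) z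
    rw [h1, hρj, Ideal.Quotient.eq_zero_iff_mem.2 (hz0 k), mul_zero]
  obtain ⟨S, hSi, hS, hmin⟩ := LD_minor hπ (ρ e) e he (fun a ha => (hρ0 e a).2 ha) G x i hxi
    (fun k => (hρ0 e _).2 ((pow_dvd_pow π heg).trans (hx0 k))) (by rw [hGred]; exact hex)
  have hsur : ∀ m (c : R ⧸ P ^ m), ∃ a : A, ρ m a = c := by
    intro m c
    obtain ⟨y, rfl⟩ := Ideal.Quotient.mk_surjective c
    exact ⟨j y, hρj m y⟩
  choose b hb using hsur (w - g)
  have hzero : ∀ s : {l : Fin (n + 1) // ∀ k, l ≠ S k} → R ⧸ P ^ (w - g), ∃ y : Vc n A,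
      (∀ l (hl : ∀ k, l ≠ S k), y l = x l + π ^ g * b (s ⟨l, hl⟩))
        ∧ ∀ k, π ^ w ∣ ev (G k) y := by
    intro s
    obtain ⟨hh, hhd⟩ : ∃ hh : Vc n A, ∀ l, hh l =
      if hl : ∀ k, l ≠ S k then π ^ g * b (s ⟨l, hl⟩) else 0 := ⟨fun l =>
        if hl : ∀ k, l ≠ S k then π ^ g * b (s ⟨l, hl⟩) else 0, fun _ => rfl⟩
    have hhl : ∀ l (hl : ∀ k, l ≠ S k), hh l = π ^ g * b (s ⟨l, hl⟩) := by
      intro l hl
      rw [hhd, dif_pos hl]
    have hdv : ∀ l, π ^ g ∣ hh l := by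
      intro l
      by_cases hl : ∀ k, l ≠ S k
      · rw [hhl l hl]
        exact dvd_mul_right _ _
      · rw [hhd, dif_neg hl]
        exact dvd_zero _
    have hxx : ∀ l, π ^ g ∣ (x + hh) l - x l := fun l => by
      rw [Pi.add_apply, add_sub_cancel_left]
      exact hdv l
    have hJ := LD_stay π g (r * (e - 1)) hgD G x (x + hh) S hxx hmin
    obtain ⟨y, hy1, -, hy0⟩ := LD_lift hπ (r * (e - 1)) g w hg1 hw G (x + hh) S hS
      (fun l => by
        have h1 := dvd_add (ev_congr_dvd (G l) x hh (π ^ g) hdv) (hx0 l)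
        rwa [sub_add_cancel] at h1) hJ
    refine ⟨y, ?_, hy0⟩
    intro l hl
    rw [hy1 l hl, Pi.add_apply, hhl l hl]
  choose y hy1 hy0 using hzero
  have hw0 : 0 < w := by omega
  have hnil : IsNilpotent (ρ w π) := by
    refine ⟨w, ?_⟩
    rw [← map_pow]
    exact (hρ0 w _).2 dvd_rfl
  have hij : ∀ k, i ≠ S k := fun k => (hSi k).symm
  have : Finite (R ⧸ P ^ w) := hq _ (pow_ne_zero w hP0)
  have hu1 : ∀ s, IsUnit (ρ w (y s i)) := by
    intro s
    have h11 : ρ w (y s i) = 1 + (ρ w π) ^ g * ρ w (b (s ⟨i, hij⟩)) := by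
      rw [hy1 s i hij, hxi, map_add, map_one, map_mul, map_pow]
    have h12 : IsNilpotent ((ρ w π) ^ g * ρ w (b (s ⟨i, hij⟩))) :=
      Commute.isNilpotent_mul_right (Commute.all _ _) (hnil.pow_of_pos (by omega))
    rw [h11]
    exact h12.isUnit_one_add
  let f : ({l : Fin (n + 1) // ∀ k, l ≠ S k} → R ⧸ P ^ (w - g)) →
      {z : Vc n (R ⧸ P ^ w) // Uni z ∧ ∀ k, ev (red (P ^ w) F k) z = 0} := fun s =>
    ⟨fun l => ρ w (y s l), by
      refine ⟨?_, ?_⟩
      · obtain ⟨c, hc⟩ := (hu1 s).exists_left_inv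
        refine ⟨Pi.single i c, ?_⟩
        have h14 : lin (Pi.single i c) (fun l => ρ w (y s l)) = c * ρ w (y s i) := by
          simp [Pool.Agent.Lib.MP_219881_nt.lin, Pi.single_apply]
        rw [h14, hc]
      · intro k
        rw [← hGred w]
        have h15 : ev (fmap (ρ w) G k) (fun l => ρ w (y s l)) = ρ w (ev (G k) (y s)) :=
          ev_map (ρ w) (G k) (y s)
        rw [h15]
        exact (hρ0 w _).2 (hy0 s k)⟩
  have hf : Function.Injective f := by
    intro s s' hss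
    funext ⟨l, hl⟩
    have h16 : ρ w (y s l) = ρ w (y s' l) := congrFun (congrArg Subtype.val hss) l
    have h17 : ρ w (π ^ g * (b (s ⟨l, hl⟩) - b (s' ⟨l, hl⟩))) = 0 := by
      have h18 : π ^ g * (b (s ⟨l, hl⟩) - b (s' ⟨l, hl⟩)) = y s l - y s' l := by
        rw [hy1 s l hl, hy1 s' l hl]
        ring
      rw [h18, map_sub, h16, sub_self]
    have h19 := (hρ0 w _).1 h17
    have h20 : π ^ w = π ^ g * π ^ (w - g) := by
      rw [← pow_add]
      congr 1
      omega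
    rw [h20, mul_dvd_mul_iff_left (pow_ne_zero g hπ.ne_zero)] at h19
    have h21 := (hρ0 (w - g) _).2 h19
    rw [map_sub, hb, hb, sub_eq_zero] at h21
    exact h21
  have hcard := Nat.card_le_card_of_injective f hf
  have h21 : Nat.card ({l : Fin (n + 1) // ∀ k, l ≠ S k} → R ⧸ P ^ (w - g))
      = nI P ^ ((n + 1 - r) * (w - g)) := by
    rw [Nat.card_fun, ← nI_def, lzhensel_card n r S hS, nI_pow, ← pow_mul, mul_comm]
  rw [← h21]
  exact hcard

end Pool.Agent.Lib.MP_1ad228_ntZ.LZ
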