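import Pool.Agent.Lib.MP_1ad228_ntZ.LZ_Base

/-!
LZ_Loc.  The localisation of the ring of integers at a prime ideal, and its quotients.

PROOF.  `A = Localization.AtPrime P` is a domain (`IsLocalization.isDomain_localization (Ideal.primeCompl_le_nonZeroDivisors P)`) and a discrete valuation ring
(`IsLocalization.AtPrime.isDiscreteValuationRing_of_dedekind_domain R hP0 A`), `j = algebraMap R A`, `π` a uniformizer (`IsDiscreteValuationRing.exists_irreducible A`),
`IsLocalRing.maximalIdeal A = Ideal.span {π}` (`Irreducible.maximalIdeal_eq`).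
`z ∉ P → IsUnit (j z)`: `IsLocalization.map_units A ⟨z, _⟩`.
`ρ m : A →+* R ⧸ P ^ m`: `IsLocalization.lift (M := P.primeCompl)` of `Ideal.Quotient.mk (P ^ m)`: for `s ∉ P` the image of `s` is a unit: `P` is maximal (nonzero prime of a Dedekind domain:
`Ideal.IsPrime.isMaximal`), so `Ideal.span {s} ⊔ P = ⊤`, `IsCoprime (span {s}) (P ^ m)` (`IsCoprime.pow_right`), that is `1 = s b + y` with `y ∈ P ^ m`; `mk s * mk b = 1`.
`ρ m (j z) = mk z`: `IsLocalization.lift_eq`.
`ρ m a = 0 ↔ π ^ m ∣ a`. Facts: (i) `j z ∈ maximalIdeal A ↔ z ∈ P` (`IsLocalization.AtPrime.to_map_mem_maximal_iff`), so `π ∣ j z` for `z ∈ P`, and `π ^ m ∣ j z` for `z ∈ P ^ m`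
(`Ideal.map_pow`, `Ideal.mem_map_of_mem`: `P.map j ≤ span {π}`, `(P^m).map j = (P.map j)^m ≤ span {π ^ m}`, `Ideal.span_singleton_pow`).
(ii) every `a : A` has `a * j s = j z` with `s ∉ P` (`IsLocalization.surj`). If `ρ m a = 0` then `mk z = ρ m (j z) = ρ m a * _ = 0`, `z ∈ P ^ m`, `π ^ m ∣ j z = a * j s`, `j s` a unit, so `π ^ m ∣ a`.
Conversely it is enough that `ρ m π ^ m = 0`: `π * j s = j z`, `s ∉ P`, `π ∣ j z`, so `z ∈ P` by (i), `mk (z ^ m) = 0` (`Ideal.pow_mem_pow`), `ρ m π ^ m * mk (s ^ m) = mk (z ^ m) = 0` and `mk s` is a unit.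
-/

namespace Pool.Agent.Lib.MP_1ad228_ntZ.LZ

open Classical

private theorem lz_loc_unit {R : Type} [CommRing R] [IsDedekindDomain R] (P : Ideal R) (hP : P.IsPrime)
    (hP0 : P ≠ ⊥) (m : ℕ) (s : R) (hs : s ∉ P) : IsUnit (Ideal.Quotient.mk (P ^ m) s) := by
  have hmax : P.IsMaximal := hP.isMaximal hP0
  have h1 : IsCoprime (Ideal.span {s}) P := by
    rw [Ideal.isCoprime_iff_sup_eq]
    refine hmax.1.2 _ (lt_of_le_of_ne le_sup_right ?_)
    intro he
    refine hs ?_
    rw [he]
    exact Ideal.mem_sup_left (Ideal.mem_span_singleton_self s)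
  have h2 : IsCoprime (Ideal.span {s}) (P ^ m) := h1.pow_right
  rw [Ideal.isCoprime_iff_exists] at h2
  obtain ⟨x, hx, y, hy, hxy⟩ := h2
  obtain ⟨b, rfl⟩ := Ideal.mem_span_singleton'.1 hx
  refine IsUnit.of_mul_eq_one (Ideal.Quotient.mk (P ^ m) b) ?_
  rw [← map_mul, mul_comm s b, ← map_one (Ideal.Quotient.mk (P ^ m)), ← hxy, map_add,
    Ideal.Quotient.eq_zero_iff_mem.2 hy, add_zero]

theorem LZ_loc {R : Type} [CommRing R] [IsDedekindDomain R] (P : Ideal R) (hP : P.IsPrime)
    (hP0 : P ≠ ⊥) :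
    ∃ (A : Type) (_ : CommRing A) (_ : IsDomain A) (_ : IsDiscreteValuationRing A) (π : A)
      (j : R →+* A) (ρ : (m : ℕ) → A →+* R ⧸ P ^ m), Irreducible π ∧
      (∀ z, z ∉ P → IsUnit (j z)) ∧ (∀ m z, ρ m (j z) = Ideal.Quotient.mk (P ^ m) z) ∧
      ∀ m a, ρ m a = 0 ↔ π ^ m ∣ a := by
  have hdom : IsDomain (Localization.AtPrime P) :=
    IsLocalization.isDomain_localization (Ideal.primeCompl_le_nonZeroDivisors P)
  have hdvr : IsDiscreteValuationRing (Localization.AtPrime P) :=
    IsLocalization.AtPrime.isDiscreteValuationRing_of_dedekind_domain R hP0 (Localization.AtPrime P)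
  obtain ⟨π, hπ⟩ := IsDiscreteValuationRing.exists_irreducible (Localization.AtPrime P)
  have hmaxπ : IsLocalRing.maximalIdeal (Localization.AtPrime P) = Ideal.span {π} := hπ.maximalIdeal_eq
  have hu : ∀ (m : ℕ) (s : P.primeCompl), IsUnit (Ideal.Quotient.mk (P ^ m) (s : R)) :=
    fun m s => lz_loc_unit P hP hP0 m s s.2
  have hρ : ∀ (m : ℕ) (z : R), IsLocalization.lift (M := P.primeCompl) (S := Localization.AtPrime P)
      (hu m) (algebraMap R (Localization.AtPrime P) z) = Ideal.Quotient.mk (P ^ m) z :=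
    fun m z => IsLocalization.lift_eq (hu m) z
  have hj : ∀ z : R, π ∣ algebraMap R (Localization.AtPrime P) z ↔ z ∈ P := by
    intro z
    rw [← Ideal.mem_span_singleton, ← hmaxπ]
    exact IsLocalization.AtPrime.to_map_mem_maximal_iff (Localization.AtPrime P) P z
  have hjm : ∀ (m : ℕ) (z : R), z ∈ P ^ m → π ^ m ∣ algebraMap R (Localization.AtPrime P) z := by
    intro m z hz
    have h1 : Ideal.map (algebraMap R (Localization.AtPrime P)) P ≤ Ideal.span {π} := by
      rw [Ideal.map_le_iff_le_comap]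
      intro x hx
      rw [Ideal.mem_comap, Ideal.mem_span_singleton]
      exact (hj x).2 hx
    have h2 : algebraMap R (Localization.AtPrime P) z ∈ Ideal.span {π ^ m} := by
      rw [← Ideal.span_singleton_pow]
      refine Ideal.pow_right_mono h1 m ?_
      rw [← Ideal.map_pow]
      exact Ideal.mem_map_of_mem _ hz
    exact Ideal.mem_span_singleton.1 h2
  refine ⟨Localization.AtPrime P, inferInstance, hdom, hdvr, π, algebraMap R (Localization.AtPrime P),
    fun m => IsLocalization.lift (M := P.primeCompl) (S := Localization.AtPrime P) (hu m), hπ, ?_, hρ, ?_⟩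
  · intro z hz
    exact IsLocalization.map_units (Localization.AtPrime P) (⟨z, hz⟩ : P.primeCompl)
  · intro m a
    constructor
    · intro ha
      obtain ⟨⟨z, s⟩, hzs⟩ := IsLocalization.surj P.primeCompl a
      simp only at hzs
      have h1 : Ideal.Quotient.mk (P ^ m) z = 0 := by
        rw [← hρ m z, ← hzs, map_mul, ha, zero_mul]
      have h2 := hjm m z (Ideal.Quotient.eq_zero_iff_mem.1 h1)
      rw [← hzs] at h2
      exact (IsLocalization.map_units (Localization.AtPrime P) s).dvd_mul_right.1 h2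
    · rintro ⟨b, rfl⟩
      rw [map_mul, map_pow]
      obtain ⟨⟨z, s⟩, hzs⟩ := IsLocalization.surj P.primeCompl π
      simp only at hzs
      have hz : z ∈ P := (hj z).1 (by rw [← hzs]; exact dvd_mul_right _ _)
      have h1 : IsLocalization.lift (M := P.primeCompl) (S := Localization.AtPrime P) (hu m) π *
          Ideal.Quotient.mk (P ^ m) (s : R) = Ideal.Quotient.mk (P ^ m) z := by
        rw [← hρ m s, ← map_mul, hzs, hρ]
      have h2 : (IsLocalization.lift (M := P.primeCompl) (S := Localization.AtPrime P) (hu m) π) ^ m *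
          (Ideal.Quotient.mk (P ^ m) (s : R)) ^ m = 0 := by
        rw [← mul_pow, h1, ← map_pow]
        exact Ideal.Quotient.eq_zero_iff_mem.2 (Ideal.pow_mem_pow hz m)
      have h3 : (IsLocalization.lift (M := P.primeCompl) (S := Localization.AtPrime P) (hu m) π) ^ m = 0 :=
        ((hu m s).pow m).mul_left_eq_zero.1 h2
      rw [h3, zero_mul]

end Pool.Agent.Lib.MP_1ad228_ntZ.LZ
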