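import Pool.Agent.Lib.MP_1ad228_ntZ.LZ_Dens

/-!
The local densities, final form.
-/

namespace Pool.Agent.Lib.MP_1ad228_ntZ.LZ

open Classical

variable {R : Type} [CommRing R]

theorem finQ_of_FQ [FQ R] : FinQ R := fun I hI => FQ.fin I hI

/-- There are finitely many ideals of norm at most `w`. -/
theorem ideals_finite [FQ R] (w : ℕ) : (ideals R w).Finite := by
  obtain ⟨C, hC1, hC⟩ := FQ.cnt (R := R)
  by_contra hinf
  obtain ⟨N, hN⟩ := exists_nat_gt (C * ((w : ℝ) + 1))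
  obtain ⟨S, hS1, hS2⟩ := Set.Infinite.exists_subset_card_eq hinf N
  have h1 := hC ((w : ℝ) + 1) (by linarith [(Nat.cast_nonneg w : (0 : ℝ) ≤ w)]) S
    fun I hI => by
      have h2 := hS1 hI
      refine ⟨h2.1, ?_⟩
      have h3 : (nI I : ℝ) ≤ w := by exact_mod_cast h2.2
      linarith
  rw [hS2] at h1
  linarith

theorem WD_eq [FQ R] (w : ℕ) : WD R w = (∏ I ∈ (ideals_finite (R := R) w).toFinset, I) ^ w := by
  unfold WD
  rw [finprod_mem_eq_finite_toFinset_prod _ (ideals_finite w)]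

theorem WD_ne_bot [IsDedekindDomain R] [FQ R] (w : ℕ) : WD R w ≠ ⊥ := by
  rw [WD_eq]
  refine pow_ne_zero w (Finset.prod_ne_zero_iff.2 fun I hI => ?_)
  rw [Set.Finite.mem_toFinset] at hI
  exact hI.1

theorem WD_le [IsDedekindDomain R] [FQ R] (w : ℕ) (I : Ideal R) (hI : I ≠ ⊥) (h : nI I ≤ w) :
    WD R w ≤ I ^ w := by
  rw [WD_eq, ← Ideal.dvd_iff_le]
  refine pow_dvd_pow_of_dvd (Finset.dvd_prod_of_mem (fun I : Ideal R => I) ?_) w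
  rw [Set.Finite.mem_toFinset]
  exact ⟨hI, h⟩

theorem locDensR (R : Type) [CommRing R] [IsDedekindDomain R] [Infinite R] [FQ R] (n : ℕ) {r : ℕ}
    (hr : 1 ≤ r) (hn : r + 2 ≤ n) (d : Fin r → ℕ) (hd : ∀ i, 1 ≤ d i) (ε : ℝ) (hε : 0 < ε) :
    ∃ τ : ℝ, 0 < τ ∧ ∃ w0 : ℕ, ∀ w : ℕ, w0 ≤ w →
      (Nat.card {G : Tup n d (R ⧸ WD R w) // (∃ F : Tup n d R, red (WD R w) F = G ∧ PSol F) ∧
          (smR G : ℝ) * (nI (WD R w) : ℝ) ^ r < τ * (nI (WD R w) : ℝ) ^ (n + 1)} : ℝ) ≤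
        ε * (Nat.card (Tup n d (R ⧸ WD R w)) : ℝ) := by
  obtain ⟨C, hC1, hC⟩ := FQ.cnt (R := R)
  obtain ⟨τ, hτ, w0, h⟩ := LZ_dens finQ_of_FQ hC1 hC n hr hn d hd ε hε
  refine ⟨τ, hτ, w0, fun w hw => ?_⟩
  have hI := WD_ne_bot (R := R) w
  have hf : Finite (R ⧸ WD R w) := FQ.fin _ hI
  have h1 := h w hw (WD R w) hI fun P _ hP0 hPw => WD_le w P hP0 hPw
  rw [card_TupR]
  have h2 : ((Nat.card (R ⧸ WD R w) ^ VV n d : ℕ) : ℝ) = (nI (WD R w) : ℝ) ^ VV n d := by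
    rw [nI]
    push_cast
    rfl
  rw [h2]
  exact h1

end Pool.Agent.Lib.MP_1ad228_ntZ.LZ
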