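import Pool.Agent.Lib.MP_1ad228_ntZ.EEZ
import Pool.Agent.Lib.MP_1ad228_ntZ.DvCnt
import Pool.Agent.Lib.MP_1ad228_ntZ.Equi
import Pool.Agent.Lib.MP_1ad228_ntZ.Cls
import Pool.Agent.Lib.MP_1ad228_ntZ.LocDens

/-!
LEAF LocEq.  The locally soluble tuples with few solutions modulo the modulus of level `w`.
Proof.  `T.FQO : FQ O`, `T.FQP : FQ P`.  Apply LZ.locDensR to `O` and to `P` with `ε / 2`: `τ1, w1` and `τ2, w2`; `τ := τ1 τ2`, `w0 := max w1 w2`.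
If `F` is in the set, then `smI (WD O w) F * N1^r < τ1 N1^(n+1)` or `smI (WD P w) (ftw a F) * N2^r < τ2 N2^(n+1)` (`N1 = nI (WD O w)`, `N2 = nI (WD P w)`, `NW O P w = N1 N2`; otherwise multiply).
First case: `red (WD O w) F` lies in the set `S1` of locDensR (`smI I F = smR (red I F)` by definition), equiO (`C1 * N1 ≤ C1 * NW ≤ Q^a`, nI_pos): number of `F` times `N1^VV` = `#TBox * ncard S1 ≤ #TBox * (ε/2) * N1^VV`
(`Nat.card (Tup n d (R ⧸ I)) = nI I ^ VV n d`, see Equi_card; `Set.ncard S = Nat.card S`).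
Second case: the same with equiP.
-/

namespace Pool.Agent.Lib.MP_1ad228_ntZ

open Classical

private theorem LocEq_card {n r : ℕ} (d : Fin r → ℕ) {R : Type} [CommRing R] (I : Ideal R) :
    Nat.card (Tup n d (R ⧸ I)) = nI I ^ VV n d := by
  unfold VV nI
  rw [← Finset.prod_pow_eq_pow_sum]
  show Nat.card ((i : Fin r) → (Fin (d i) → Fin (n + 1)) → R ⧸ I) = _
  rw [Nat.card_pi]
  refine Finset.prod_congr rfl fun i _ => ?_
  rw [Nat.card_fun, Nat.card_fun, Nat.card_fin, Nat.card_fin]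

/-- From the number of classes to the number of tuples. -/
private theorem LocEq_bd {m t N V s : ℕ} {ε : ℝ} (hN : 0 < N) (h1 : m * N ^ V = t * s)
    (h2 : (s : ℝ) ≤ ε * (N : ℝ) ^ V) : (m : ℝ) ≤ ε * t := by
  have hN' : (0 : ℝ) < (N : ℝ) ^ V := by positivity
  have h3 : (m : ℝ) * (N : ℝ) ^ V = t * s := by exact_mod_cast h1
  have h4 : (m : ℝ) * (N : ℝ) ^ V ≤ ε * t * (N : ℝ) ^ V := by
    rw [h3]
    calc (t : ℝ) * s ≤ t * (ε * (N : ℝ) ^ V) := mul_le_mul_of_nonneg_left h2 (Nat.cast_nonneg _)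
      _ = ε * t * (N : ℝ) ^ V := by ring
  exact le_of_mul_le_mul_right h4 hN'

namespace TC
variable {K O P : Type} [Field K] [CommRing O] [IsDedekindDomain O] [Algebra O K]
  [IsFractionRing O K] [CommRing P] [IsDedekindDomain P] [Algebra P K]
  [IsFractionRing P K] (T : TC K O P)

theorem locEq [Infinite O] [Infinite P] (n : ℕ) {r : ℕ} (hr : 1 ≤ r) (hn : r + 2 ≤ n)
    (d : Fin r → ℕ) (hd : ∀ i, 1 ≤ d i) (ε : ℝ) (hε : 0 < ε) :
    ∃ τ : ℝ, 0 < τ ∧ ∃ w0 : ℕ, ∀ w a : ℕ, w0 ≤ w → T.C1 * NW O P w ≤ T.Q ^ a →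
      (((T.TBox n d a).filter fun F => (PSol F ∧ PSol (T.ftw a F)) ∧
        (smI (WD O w) F : ℝ) * smI (WD P w) (T.ftw a F) * (NW O P w : ℝ) ^ r <
          τ * (NW O P w : ℝ) ^ (n + 1)).card : ℝ) ≤ ε * ((T.TBox n d a).card : ℝ) := by
  have hFO : FQ O := T.FQO
  have hFP : FQ P := T.FQP
  obtain ⟨τ1, hτ1, w1, h1⟩ := LZ.locDensR O n hr hn d hd (ε / 2) (by linarith)
  obtain ⟨τ2, hτ2, w2, h2⟩ := LZ.locDensR P n hr hn d hd (ε / 2) (by linarith)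
  refine ⟨τ1 * τ2, mul_pos hτ1 hτ2, max w1 w2, fun w a hw ha => ?_⟩
  have hw1 : w1 ≤ w := (le_max_left _ _).trans hw
  have hw2 : w2 ≤ w := (le_max_right _ _).trans hw
  have hI : WD O w ≠ ⊥ := WD_ne_bot (T.fewO w)
  have hJ : WD P w ≠ ⊥ := WD_ne_bot (T.fewP w)
  have hN1 : 0 < nI (WD O w) := nI_pos T.finO hI
  have hN2 : 0 < nI (WD P w) := nI_pos T.finP hJ
  have hNW : NW O P w = nI (WD O w) * nI (WD P w) := rfl
  have ha1 : T.C1 * nI (WD O w) ≤ T.Q ^ a := by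
    refine le_trans (Nat.mul_le_mul_left _ ?_) ha
    rw [hNW]
    exact Nat.le_mul_of_pos_right _ hN2
  have ha2 : T.C1 * nI (WD P w) ≤ T.Q ^ a := by
    refine le_trans (Nat.mul_le_mul_left _ ?_) ha
    rw [hNW]
    exact Nat.le_mul_of_pos_left _ hN1
  obtain ⟨S1, hS1⟩ : ∃ S : Set (Tup n d (O ⧸ WD O w)), S = {G | (∃ F : Tup n d O,
      red (WD O w) F = G ∧ PSol F) ∧ (smR G : ℝ) * (nI (WD O w) : ℝ) ^ r <
        τ1 * (nI (WD O w) : ℝ) ^ (n + 1)} := ⟨_, rfl⟩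
  obtain ⟨S2, hS2⟩ : ∃ S : Set (Tup n d (P ⧸ WD P w)), S = {G | (∃ F : Tup n d P,
      red (WD P w) F = G ∧ PSol F) ∧ (smR G : ℝ) * (nI (WD P w) : ℝ) ^ r <
        τ2 * (nI (WD P w) : ℝ) ^ (n + 1)} := ⟨_, rfl⟩
  have hc1 : (S1.ncard : ℝ) ≤ ε / 2 * (nI (WD O w) : ℝ) ^ VV n d := by
    have h3 := h1 w hw1
    rw [LocEq_card] at h3
    push_cast at h3
    rw [← Nat.card_coe_set_eq, hS1]
    exact h3
  have hc2 : (S2.ncard : ℝ) ≤ ε / 2 * (nI (WD P w) : ℝ) ^ VV n d := by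
    have h3 := h2 w hw2
    rw [LocEq_card] at h3
    push_cast at h3
    rw [← Nat.card_coe_set_eq, hS2]
    exact h3
  have e1 := LocEq_bd hN1 (T.equiO n d hI ha1 S1) hc1
  have e2 := LocEq_bd hN2 (T.equiP n d hJ ha2 S2) hc2
  have hsub : ((T.TBox n d a).filter fun F => (PSol F ∧ PSol (T.ftw a F)) ∧
        (smI (WD O w) F : ℝ) * smI (WD P w) (T.ftw a F) * (NW O P w : ℝ) ^ r <
          τ1 * τ2 * (NW O P w : ℝ) ^ (n + 1)) ⊆
      ((T.TBox n d a).filter fun F => red (WD O w) F ∈ S1) ∪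
        (T.TBox n d a).filter fun F => red (WD P w) (T.ftw a F) ∈ S2 := by
    intro F hF
    rw [Finset.mem_filter] at hF
    obtain ⟨hF0, ⟨hs1, hs2⟩, hlt⟩ := hF
    rw [Finset.mem_union, Finset.mem_filter, Finset.mem_filter]
    by_cases hc : (smI (WD O w) F : ℝ) * (nI (WD O w) : ℝ) ^ r <
        τ1 * (nI (WD O w) : ℝ) ^ (n + 1)
    · left
      refine ⟨hF0, ?_⟩
      rw [hS1]
      exact ⟨⟨F, rfl, hs1⟩, hc⟩
    · right
      refine ⟨hF0, ?_⟩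
      rw [hS2]
      refine ⟨⟨T.ftw a F, rfl, hs2⟩, ?_⟩
      by_contra hc2
      have k1 := not_lt.1 hc
      have k2 : τ2 * (nI (WD P w) : ℝ) ^ (n + 1) ≤
          (smI (WD P w) (T.ftw a F) : ℝ) * (nI (WD P w) : ℝ) ^ r := not_lt.1 hc2
      have k3 := mul_le_mul k1 k2 (by positivity) (by positivity)
      have k4 : τ1 * τ2 * (NW O P w : ℝ) ^ (n + 1) ≤
          (smI (WD O w) F : ℝ) * smI (WD P w) (T.ftw a F) * (NW O P w : ℝ) ^ r := by
        rw [hNW]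
        push_cast
        rw [mul_pow, mul_pow]
        calc τ1 * τ2 * ((nI (WD O w) : ℝ) ^ (n + 1) * (nI (WD P w) : ℝ) ^ (n + 1))
            = τ1 * (nI (WD O w) : ℝ) ^ (n + 1) * (τ2 * (nI (WD P w) : ℝ) ^ (n + 1)) := by ring
          _ ≤ _ := k3
          _ = _ := by ring
      exact absurd hlt (not_lt.2 k4)
  have h3 := (Finset.card_le_card hsub).trans (Finset.card_union_le _ _)
  have h4 : (((T.TBox n d a).filter fun F => (PSol F ∧ PSol (T.ftw a F)) ∧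
        (smI (WD O w) F : ℝ) * smI (WD P w) (T.ftw a F) * (NW O P w : ℝ) ^ r <
          τ1 * τ2 * (NW O P w : ℝ) ^ (n + 1)).card : ℝ) ≤
      (((T.TBox n d a).filter fun F => red (WD O w) F ∈ S1).card : ℝ) +
        ((T.TBox n d a).filter fun F => red (WD P w) (T.ftw a F) ∈ S2).card := by
    exact_mod_cast h3
  linarith

end TC

end Pool.Agent.Lib.MP_1ad228_ntZ
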