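import Pool.Agent.Lib.MP_1ad228_ntZ.EEZ
import Pool.Agent.Lib.MP_1ad228_ntZ.BLow

/-!
LEAF LowZ.  Lower bound of the local prediction.
Proof.  `C` from low_cntB.  Let `N := NW O P w`, `s := smI (WD O w) F * smI (WD P w) (ftw a F)`.  `Q^b ≤ C0 * h b` (h_low), so the bracket in low_cntB is at least
`(Q^b/N)^(n+1) * (1/C0^(n+1) - C/(w+1) - C N^(n+1) Q^b/Q^(b(n+1)))`, and this is `≥ (Q^b/N)^(n+1) / (2 C0^(n+1))` as soon as `C/(w+1) ≤ 1/(4 C0^(n+1))` (choice of `w1 ≥ Q`)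
and `C N^(n+1) ≤ Q^b /(4 C0^(n+1))` (choice of `b0`; `n ≥ 1`, so `Q^b * Q^b ≤ Q^(b(n+1))`).  Also `b0` with `C1 * N ≤ Q^b0`.
Hence `N^r * #{..} ≥ s N^r (Q^b/N)^(n+1)/(2 C0^(n+1)) - N^r RR ≥ τ Q^(b(n+1))/(2 C0^(n+1)) - τ Q^(b(n+1))/(4 C0^(n+1))`.
Finally `Ll = #{..} / ∏ #MS` and `#MS w (a + d i b) * N = h (a + d i b)` (card_M, WD_ne_bot; `C1 * N ≤ Q^b ≤ Q^(a + d i b)` as `d i ≥ 1`), so `Ll = N^r #{..} / ∏ h (a + d i b)`.
-/

namespace Pool.Agent.Lib.MP_1ad228_ntZ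

open Classical

namespace TC
variable {K O P : Type} [Field K] [CommRing O] [IsDedekindDomain O] [Algebra O K]
  [IsFractionRing O K] [CommRing P] [IsDedekindDomain P] [Algebra P K]
  [IsFractionRing P K] (T : TC K O P)

theorem lowZ (n : ℕ) (hn : 1 ≤ n) {r : ℕ} (d : Fin r → ℕ) (hd : ∀ i, 1 ≤ d i)
    (hs : ∀ p : Ideal P, p.IsPrime → p ≠ ⊥ → T.s ∈ p) (τ : ℝ) (hτ : 0 < τ) :
    ∃ w1 : ℕ, ∀ w : ℕ, w1 ≤ w → ∃ b0 : ℕ, ∀ (a b g : ℕ) (F : Tup n d O), b0 ≤ b →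
      F ∈ T.TBox n d a →
      τ * (NW O P w : ℝ) ^ (n + 1) ≤
        (smI (WD O w) F : ℝ) * smI (WD P w) (T.ftw a F) * (NW O P w : ℝ) ^ r →
      (T.RR a b g w F : ℝ) * (NW O P w : ℝ) ^ r ≤
        τ / (4 * (T.C0 : ℝ) ^ (n + 1)) * (T.Q : ℝ) ^ (b * (n + 1)) →
      τ / (4 * (T.C0 : ℝ) ^ (n + 1)) * T.EE n d a b ≤ T.Ll a b g w F := by
  obtain ⟨C, hC, hlow⟩ := T.low_cntB n hn d hs
  have hQ : (2 : ℝ) ≤ (T.Q : ℝ) := T.two_le_Q
  have hQ1 : (1 : ℝ) ≤ (T.Q : ℝ) := by linarith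
  have hQN : 1 < T.Q := T.two_le
  have hC0 : (0 : ℝ) < (T.C0 : ℝ) := by exact_mod_cast T.C0_pos
  set c0 : ℝ := (T.C0 : ℝ) ^ (n + 1) with hc0
  have hc0p : 0 < c0 := pow_pos hC0 _
  refine ⟨max T.Q ⌈4 * C * c0⌉₊, fun w hw => ?_⟩
  have hwQ : T.Q ≤ w := le_trans (le_max_left _ _) hw
  have hwC : 4 * C * c0 ≤ (w : ℝ) :=
    le_trans (Nat.le_ceil _) (by exact_mod_cast le_trans (le_max_right _ _) hw)
  have hN : (0 : ℝ) < (NW O P w : ℝ) := by exact_mod_cast T.NW_pos w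
  set N : ℝ := (NW O P w : ℝ) with hNdef
  obtain ⟨b1, hb1⟩ := pow_unbounded_of_one_lt (4 * c0 * C * N ^ (n + 1)) (by linarith : (1 : ℝ) < (T.Q : ℝ))
  obtain ⟨b2, hb2⟩ := pow_unbounded_of_one_lt (T.C1 * NW O P w) hQN
  refine ⟨max b1 b2, fun a b g F hb hF h1 h2 => ?_⟩
  have hbb1 : 4 * c0 * C * N ^ (n + 1) ≤ (T.Q : ℝ) ^ b :=
    hb1.le.trans (pow_le_pow_right₀ hQ1 (le_trans (le_max_left _ _) hb))
  have hbb2 : T.C1 * NW O P w ≤ T.Q ^ b :=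
    hb2.le.trans (Nat.pow_le_pow_right hQN.le (le_trans (le_max_right _ _) hb))
  have key := hlow w a b g F hwQ hbb2 hF
  set cnt : ℝ := (((T.GG n b g).filter fun x => ∀ i, ev (F i) x ∈ T.MS w (a + d i * b)).card : ℝ) with hcnt
  set sm : ℝ := (smI (WD O w) F : ℝ) * smI (WD P w) (T.ftw a F) with hsm
  have hsm0 : 0 ≤ sm := by positivity
  set q : ℝ := (T.Q : ℝ) ^ (b * (n + 1)) with hq
  have hqb : q = ((T.Q : ℝ) ^ b) ^ (n + 1) := by rw [hq, pow_mul]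
  have hQb : (1 : ℝ) ≤ (T.Q : ℝ) ^ b := one_le_pow₀ hQ1
  have hq0 : 0 < q := by rw [hqb]; positivity
  have hNp : 0 < N ^ (n + 1) := pow_pos hN _
  -- the lower bound of the number of all vectors
  have e1 : q / c0 ≤ (T.h b : ℝ) ^ (n + 1) := by
    rw [div_le_iff₀ hc0p, hqb, hc0, mul_comm, ← mul_pow]
    refine pow_le_pow_left₀ (by linarith) ?_ _
    have h3 := T.h_low b
    exact_mod_cast h3
  have e2 : C * (q / N ^ (n + 1) / ((w : ℝ) + 1)) ≤ q / N ^ (n + 1) / (4 * c0) := by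
    rw [mul_div_assoc', div_le_div_iff₀ (by positivity) (by positivity)]
    have h3 : C * (4 * c0) ≤ (w : ℝ) + 1 := by linarith
    have h4 : 0 ≤ q / N ^ (n + 1) := by positivity
    calc C * (q / N ^ (n + 1)) * (4 * c0) = q / N ^ (n + 1) * (C * (4 * c0)) := by ring
      _ ≤ q / N ^ (n + 1) * ((w : ℝ) + 1) := mul_le_mul_of_nonneg_left h3 h4
  have e3 : C * (T.Q : ℝ) ^ b ≤ q / N ^ (n + 1) / (4 * c0) := by
    rw [div_div, le_div_iff₀ (by positivity)]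
    have h3 : (T.Q : ℝ) ^ b * (T.Q : ℝ) ^ b ≤ q := by
      rw [hqb, ← pow_two]
      exact pow_le_pow_right₀ hQb (by omega)
    calc C * (T.Q : ℝ) ^ b * (N ^ (n + 1) * (4 * c0)) = (4 * c0 * C * N ^ (n + 1)) * (T.Q : ℝ) ^ b := by ring
      _ ≤ (T.Q : ℝ) ^ b * (T.Q : ℝ) ^ b := mul_le_mul_of_nonneg_right hbb1 (by linarith)
      _ ≤ q := h3
  have e4 : q / N ^ (n + 1) / (2 * c0) ≤ (T.h b : ℝ) ^ (n + 1) / N ^ (n + 1) -
      C * (((T.Q : ℝ) ^ b / N) ^ (n + 1) / ((w : ℝ) + 1) + (T.Q : ℝ) ^ b) := by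
    have h3 : ((T.Q : ℝ) ^ b / N) ^ (n + 1) = q / N ^ (n + 1) := by
      rw [div_pow, ← hqb]
    have h4 : q / N ^ (n + 1) / c0 ≤ (T.h b : ℝ) ^ (n + 1) / N ^ (n + 1) := by
      rw [div_right_comm]
      exact div_le_div_of_nonneg_right e1 hNp.le
    have h5 : q / N ^ (n + 1) / (2 * c0) = q / N ^ (n + 1) / c0 - q / N ^ (n + 1) / (4 * c0) -
        q / N ^ (n + 1) / (4 * c0) := by
      field_simp
      norm_num
    rw [h3, mul_add, h5]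
    linarith
  have e5 : sm * (q / N ^ (n + 1) / (2 * c0)) - T.RR a b g w F ≤ cnt :=
    (sub_le_sub_right (mul_le_mul_of_nonneg_left e4 hsm0) _).trans key
  have hNr : 0 < N ^ r := pow_pos hN _
  have e6 : τ / (4 * c0) * q ≤ cnt * N ^ r := by
    have h3 := mul_le_mul_of_nonneg_right e5 hNr.le
    have h4 : τ / (2 * c0) * q ≤ sm * (q / N ^ (n + 1) / (2 * c0)) * N ^ r := by
      have h5 : sm * (q / N ^ (n + 1) / (2 * c0)) * N ^ r = sm * N ^ r * (q / (2 * c0)) / N ^ (n + 1) := by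
        ring
      rw [h5, le_div_iff₀ hNp]
      have h6 : 0 ≤ q / (2 * c0) := by positivity
      calc τ / (2 * c0) * q * N ^ (n + 1) = τ * N ^ (n + 1) * (q / (2 * c0)) := by ring
        _ ≤ sm * N ^ r * (q / (2 * c0)) := mul_le_mul_of_nonneg_right h1 h6
    have h5 : τ / (4 * c0) * q = τ / (2 * c0) * q - τ / (4 * c0) * q := by
      field_simp
      norm_num
    rw [sub_mul] at h3
    rw [h5]
    linarith
  -- the number of the allowed values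
  have e7 : ∀ i, ((T.MS w (a + d i * b)).card : ℝ) * N = (T.h (a + d i * b) : ℝ) := by
    intro i
    have h3 : T.C1 * (nI (WD O w) * nI (WD P w)) ≤ T.Q ^ (a + d i * b) := by
      refine le_trans hbb2 (Nat.pow_le_pow_right hQN.le ?_)
      calc b = 1 * b := (one_mul b).symm
        _ ≤ d i * b := Nat.mul_le_mul_right b (hd i)
        _ ≤ a + d i * b := Nat.le_add_left _ _
    have h4 := T.card_M (WD_ne_bot (T.fewO w)) (WD_ne_bot (T.fewP w)) h3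
    rw [hNdef]
    unfold NW MS
    exact_mod_cast h4
  have e8 : ∏ i, (T.h (a + d i * b) : ℝ) = (∏ i, ((T.MS w (a + d i * b)).card : ℝ)) * N ^ r := by
    rw [← Finset.prod_congr rfl fun i _ => e7 i, Finset.prod_mul_distrib, Finset.prod_const, Finset.card_univ,
      Fintype.card_fin]
  have e9 : 0 < ∏ i, (T.h (a + d i * b) : ℝ) :=
    Finset.prod_pos fun i _ => by exact_mod_cast T.h_pos _
  have e10 : T.Ll a b g w F = cnt * N ^ r / ∏ i, (T.h (a + d i * b) : ℝ) := by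
    rw [e8, mul_div_mul_right _ _ hNr.ne']
    rfl
  rw [e10]
  unfold EE
  rw [mul_div_assoc']
  exact div_le_div_of_nonneg_right e6 e9.le

end TC

end Pool.Agent.Lib.MP_1ad228_ntZ
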