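import Pool.Agent.Lib.MP_1ad228_ntZ.EEZ
import Pool.Agent.Lib.MP_1ad228_ntZ.BLow
import Pool.Agent.Lib.MP_1ad228_ntZ.HG

/-!
LEAF MarkZ.  Few tuples have many points which are not good (Markov).
Proof.  By notGood: `#{x ∈ VB | not Good} ≤ C Q^((b+l) n)`; markB: `(∑_F RR) N^r ≤ #{not Good} * #TBox`.
The set of `F` with `η Q^(b(n+1)) < RR N^r` has at most `(∑ RR N^r)/(η Q^(b(n+1)))` elements; `(b+l) n + s ≤ b (n+1)`.
-/

namespace Pool.Agent.Lib.MP_1ad228_ntZ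

open Classical

namespace TC
variable {K O P : Type} [Field K] [CommRing O] [IsDedekindDomain O] [Algebra O K]
  [IsFractionRing O K] [CommRing P] [IsDedekindDomain P] [Algebra P K]
  [IsFractionRing P K] (T : TC K O P)

theorem markZ [IsPrincipalIdealRing P] (n : ℕ) (hn : 2 ≤ n) : ∃ C : ℝ, 1 ≤ C ∧
    ∀ (r : ℕ) (d : Fin r → ℕ) (η : ℝ) (s a b g l w : ℕ), 0 < η → l + T.c1 ≤ b → l ≤ g →
      T.C0 ^ (n + 1) * T.Q ^ (b + 1) < T.Q ^ (g + (n - 1) * l) → n * l + s ≤ b →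
      T.C1 * NW O P w ≤ T.Q ^ a →
      (((T.TBox n d a).filter fun F => η * (T.Q : ℝ) ^ (b * (n + 1)) <
        (T.RR a b g w F : ℝ) * (NW O P w : ℝ) ^ r).card : ℝ) * (η * (T.Q : ℝ) ^ s) ≤
        C * ((T.TBox n d a).card : ℝ) := by
  obtain ⟨C, hC, hG⟩ := T.notGood n hn
  refine ⟨C, hC, ?_⟩
  intro r d η s a b g l w hη hb hlg hc hs ha
  have hQ := T.two_le_Q
  have hQ1 : (1 : ℝ) ≤ (T.Q : ℝ) := by linarith
  have hQ0 : (0 : ℝ) < (T.Q : ℝ) := by linarith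
  have h1 := T.markB (n := n) (r := r) d (w := w) (a := a) (b := b) (g := g) ha
  have h2 := hG b g l hb hlg hc
  generalize hS : (T.TBox n d a).filter (fun F => η * (T.Q : ℝ) ^ (b * (n + 1)) <
        (T.RR a b g w F : ℝ) * (NW O P w : ℝ) ^ r) = S
  have h3 : (S.card : ℝ) * (η * (T.Q : ℝ) ^ (b * (n + 1))) ≤
      ∑ F ∈ T.TBox n d a, (T.RR a b g w F : ℝ) * (NW O P w : ℝ) ^ r := by
    have e : (S.card : ℝ) * (η * (T.Q : ℝ) ^ (b * (n + 1))) =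
        ∑ _F ∈ S, η * (T.Q : ℝ) ^ (b * (n + 1)) := by
      rw [Finset.sum_const, nsmul_eq_mul]
    rw [e]
    refine (Finset.sum_le_sum fun F hF => ?_).trans
      (Finset.sum_le_sum_of_subset_of_nonneg (hS ▸ Finset.filter_subset _ _) fun _ _ _ => by positivity)
    rw [← hS, Finset.mem_filter] at hF
    exact hF.2.le
  have h4 : ∑ F ∈ T.TBox n d a, (T.RR a b g w F : ℝ) * (NW O P w : ℝ) ^ r ≤
      (C * (T.Q : ℝ) ^ ((b + l) * n)) * ((T.TBox n d a).card : ℝ) := by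
    rw [← Finset.sum_mul]
    have h5 : (∑ F ∈ T.TBox n d a, (T.RR a b g w F : ℝ)) * (NW O P w : ℝ) ^ r ≤
        (((T.VB n b).filter fun x => ¬ T.Good g x).card : ℝ) * ((T.TBox n d a).card : ℝ) := by
      exact_mod_cast h1
    exact h5.trans (mul_le_mul_of_nonneg_right h2 (Nat.cast_nonneg _))
  have h5 := h3.trans h4
  have h6 : (T.Q : ℝ) ^ ((b + l) * n) * (T.Q : ℝ) ^ s ≤ (T.Q : ℝ) ^ (b * (n + 1)) := by
    rw [← pow_add]
    refine pow_le_pow_right₀ hQ1 ?_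
    have e : (b + l) * n + s = b * n + (n * l + s) := by ring
    have e' : b * (n + 1) = b * n + b := by ring
    rw [e, e']
    exact Nat.add_le_add_left hs _
  have hp : (0 : ℝ) < (T.Q : ℝ) ^ ((b + l) * n) := pow_pos hQ0 _
  refine le_of_mul_le_mul_left ?_ hp
  calc (T.Q : ℝ) ^ ((b + l) * n) * ((S.card : ℝ) * (η * (T.Q : ℝ) ^ s))
      = (S.card : ℝ) * η * ((T.Q : ℝ) ^ ((b + l) * n) * (T.Q : ℝ) ^ s) := by ring
    _ ≤ (S.card : ℝ) * η * (T.Q : ℝ) ^ (b * (n + 1)) :=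
        mul_le_mul_of_nonneg_left h6 (mul_nonneg (Nat.cast_nonneg _) hη.le)
    _ = (S.card : ℝ) * (η * (T.Q : ℝ) ^ (b * (n + 1))) := by ring
    _ ≤ (C * (T.Q : ℝ) ^ ((b + l) * n)) * ((T.TBox n d a).card : ℝ) := h5
    _ = (T.Q : ℝ) ^ ((b + l) * n) * (C * ((T.TBox n d a).card : ℝ)) := by ring

end TC

end Pool.Agent.Lib.MP_1ad228_ntZ
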