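import Pool.Agent.Lib.MP_1ad228_ntZ.TotZ1
import Pool.Agent.Lib.MP_1ad228_ntZ.LocEq
import Pool.Agent.Lib.MP_1ad228_ntZ.LowZ
import Pool.Agent.Lib.MP_1ad228_ntZ.MarkZ
import Pool.Agent.Lib.MP_1ad228_ntZ.ParZ

/-! MP_1ad228_ntZ, file MainG.  Almost all locally soluble tuples have a small zero. -/

namespace Pool.Agent.Lib.MP_1ad228_ntZ

open Classical

namespace TC
variable {K O P : Type} [Field K] [CommRing O] [IsDedekindDomain O] [Algebra O K]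
  [IsFractionRing O K] [CommRing P] [IsDedekindDomain P] [Algebra P K]
  [IsFractionRing P K] (T : TC K O P)

private theorem MainG_ne {n : ℕ} {x : Vc n O} (hx : Uni x) : x ≠ 0 := by
  obtain ⟨u, hu⟩ := hx
  rintro rfl
  have h : lin u (0 : Vc n O) = 0 := by
    unfold Pool.Agent.Lib.MP_219881_nt.lin
    exact Finset.sum_eq_zero fun i _ => mul_zero _
  rw [h] at hu
  exact zero_ne_one hu

/-- Chebyshev. -/
private theorem MainG_cheb {n r : ℕ} (d : Fin r → ℕ) (a b g w : ℕ) {l : ℝ} (hl : 0 ≤ l) :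
    (((T.TBox n d a).filter fun F => T.Nn b g F = 0 ∧ l ≤ T.Ll a b g w F).card : ℝ) * l ^ 2 ≤
      T.Qv (n := n) d a b g w := by
  unfold Qv
  rw [← nsmul_eq_mul, ← Finset.sum_const]
  calc ∑ _F ∈ (T.TBox n d a).filter (fun F => T.Nn b g F = 0 ∧ l ≤ T.Ll a b g w F), l ^ 2
      ≤ ∑ F ∈ (T.TBox n d a).filter (fun F => T.Nn b g F = 0 ∧ l ≤ T.Ll a b g w F),
          ((T.Nn b g F : ℝ) - T.Ll a b g w F) ^ 2 := by
        refine Finset.sum_le_sum fun F hF => ?_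
        obtain ⟨-, h1, h2⟩ := Finset.mem_filter.1 hF
        rw [h1, Nat.cast_zero, zero_sub, neg_sq]
        exact pow_le_pow_left₀ hl h2 2
    _ ≤ _ := Finset.sum_le_sum_of_subset_of_nonneg (Finset.filter_subset _ _)
        fun F _ _ => sq_nonneg _

omit [IsDedekindDomain O] [IsFractionRing O K] [IsDedekindDomain P] [IsFractionRing P K] in
private theorem MainG_pow (y : ℝ) : ∃ m : ℕ, y ≤ (T.Q : ℝ) ^ m := by
  have hQ : (1 : ℝ) < (T.Q : ℝ) := by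
    have := T.two_le
    exact_mod_cast (by omega : 1 < T.Q)
  obtain ⟨m, hm⟩ := pow_unbounded_of_one_lt y hQ
  exact ⟨m, hm.le⟩

theorem mainG [IsPrincipalIdealRing P] [Infinite O] [Infinite P] (n : ℕ) {r : ℕ} (hr : 1 ≤ r)
    (hn : r + 2 ≤ n) (d : Fin r → ℕ) (hd : ∀ i, 2 ≤ d i) (hD : ∑ i, d i ≤ n)
    (h2 : 2 * r ≤ n * (n + 1 - ∑ i, d i))
    (hs : ∀ p : Ideal P, p.IsPrime → p ≠ ⊥ → T.s ∈ p)
    (hP : ∀ k : ℕ, (2 * r < n * (n + 1 - ∑ i, d i) → k = 0) → T.PairOK n d k) :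
    T.MainP n d := by
  have hQ := T.two_le_Q
  have hQ1 : (1 : ℝ) ≤ (T.Q : ℝ) := by linarith
  have hQ0 : (0 : ℝ) < (T.Q : ℝ) := by linarith
  have hC0 : (0 : ℝ) < (T.C0 : ℝ) := by exact_mod_cast T.C0_pos
  have hd1 : ∀ i, 1 ≤ d i := fun i => by have := hd i; omega
  intro ε hε
  obtain ⟨C, hC, hTot⟩ := T.varTotG n r hn
  obtain ⟨Cm, hCm, hMark⟩ := T.markZ n (by omega)
  obtain ⟨τ, hτ, w0, hLoc⟩ := T.locEq n hr hn d hd1 (ε / 4) (by positivity)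
  obtain ⟨w1, hLow⟩ := T.lowZ n (by omega) d hd1 hs τ hτ
  obtain ⟨c, hc⟩ : ∃ c : ℝ, c = τ / (4 * (T.C0 : ℝ) ^ (n + 1)) := ⟨_, rfl⟩
  rw [← hc] at hLow
  have hc0 : 0 < c := by rw [hc]; positivity
  have hCp : 0 < C := by linarith
  have hCmp : 0 < Cm := by linarith
  obtain ⟨m, hm⟩ := T.MainG_pow (8 * C / (c ^ 2 * ε))
  obtain ⟨s, hsl⟩ := T.MainG_pow (4 * Cm / (c * ε))
  obtain ⟨κ, hκ'⟩ := T.MainG_pow ((T.C0 : ℝ) ^ (n + 1))
  have hκ : T.C0 ^ (n + 1) ≤ T.Q ^ κ := by exact_mod_cast hκ'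
  obtain ⟨k, hk, hpar⟩ := parZ n r (∑ i, d i) T.c1 κ hr hn hD h2 ((n + 1) + r + m) s
  obtain ⟨lam, hlam, CX, hCX, hPk⟩ := hP k hk
  have hlam0 : 0 < lam := by linarith
  obtain ⟨δ, hδ⟩ : ∃ δ : ℝ, δ = c ^ 2 * ε / (32 * C * lam ^ r) := ⟨_, rfl⟩
  have hδ0 : 0 < δ := by rw [hδ]; positivity
  obtain ⟨V, hV⟩ := exists_nat_ge (1 / δ)
  obtain ⟨w, hw⟩ : ∃ w : ℕ, w = max (max w0 w1) V := ⟨_, rfl⟩
  have hww0 : w0 ≤ w := by rw [hw]; omega
  have hww1 : w1 ≤ w := by rw [hw]; omega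
  have hwV : V ≤ w := by rw [hw]; omega
  obtain ⟨b0, hb0⟩ := hLow w hww1
  obtain ⟨A1, hA1⟩ := T.MainG_pow ((1 + (V : ℝ) ^ r * CX) / δ)
  obtain ⟨A2, hA2'⟩ := T.MainG_pow ((T.C1 * NW O P w : ℕ) : ℝ)
  have hA2 : T.C1 * NW O P w ≤ T.Q ^ A2 := by exact_mod_cast hA2'
  obtain ⟨a0, ha0⟩ := hpar (A1 + b0)
  refine ⟨(n + 1) + r + m, max a0 A2, fun a ha => ?_⟩
  obtain ⟨b, g, l, hAb, hbM, hMb, hlg, hlb, hkap, hls, hne, hX, hga, h2g⟩ := ha0 a (by omega)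
  obtain ⟨hPn2, X, hXc, hPX⟩ := hPk a b g hga h2g
  have hCa : T.C1 * NW O P w ≤ T.Q ^ a :=
    hA2.trans (Nat.pow_le_pow_right (by have := T.two_le; omega) (by omega))
  have hN0 : (0 : ℝ) ≤ ((T.TBox n d a).card : ℝ) := Nat.cast_nonneg _
  -- the three sets
  have hS1 := hLoc w a hww0 hCa
  have hS2 := hMark r d c s a b g l w hc0 hlb hlg (by
    have h1 : T.C0 ^ (n + 1) * T.Q ^ (b + 1) ≤ T.Q ^ κ * T.Q ^ (b + 1) :=
      Nat.mul_le_mul_right _ hκ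
    rw [← pow_add] at h1
    exact h1.trans_lt (Nat.pow_lt_pow_right (by have := T.two_le; omega) (by omega))) hls hCa
  have hS3 := T.MainG_cheb (n := n) d a b g w (l := c * T.EE n d a b)
    (mul_nonneg hc0.le (T.EE_pos n d a b).le)
  have hQv := hTot d a b g w V lam X hga hlam hPn2 (fun i x hx y hy hxy hn h1 h2 m hm m' hm' =>
    hPX w i x hx y hy hxy hn h1 h2 m hm m' hm')
  have hEE : (T.Q : ℝ) ^ m ≤ T.EE n d a b := T.EE_ge d hD (by omega)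
  have hNe : T.Ne n r b g * (T.Q : ℝ) ^ (A1 + b0) ≤ 1 := T.Ne_le hne
  have hNe0 := T.Ne_nonneg n r b g
  have hA1' : (1 + (V : ℝ) ^ r * CX) / δ ≤ (T.Q : ℝ) ^ (A1 + b0) :=
    hA1.trans (pow_le_pow_right₀ hQ1 (by omega))
  have hVC : 0 ≤ (V : ℝ) ^ r * CX := by positivity
  have hQA : 0 < (T.Q : ℝ) ^ (A1 + b0) := by positivity
  have hk1 : 1 ≤ δ * (T.Q : ℝ) ^ (A1 + b0) := by
    rw [div_le_iff₀ hδ0] at hA1'
    linarith
  have hk2 : (V : ℝ) ^ r * CX ≤ δ * (T.Q : ℝ) ^ (A1 + b0) := by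
    rw [div_le_iff₀ hδ0] at hA1'
    linarith
  have t1 : 1 / ((V : ℝ) + 1) ≤ δ := by
    rw [div_le_iff₀ (by positivity)]
    rw [div_le_iff₀ hδ0] at hV
    linarith
  have t2 : 1 / ((w : ℝ) + 1) ≤ δ := by
    refine le_trans ?_ t1
    have : (V : ℝ) ≤ w := by exact_mod_cast hwV
    exact one_div_le_one_div_of_le (by positivity) (by linarith)
  have t3 : T.Ne n r b g ≤ δ := by
    have h1 : T.Ne n r b g * (T.Q : ℝ) ^ (A1 + b0) ≤ δ * (T.Q : ℝ) ^ (A1 + b0) :=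
      hNe.trans hk1
    exact le_of_mul_le_mul_right h1 hQA
  have t4 : (V : ℝ) ^ r * (X.card : ℝ) / (T.Q : ℝ) ^ (2 * (b * (n + 1))) ≤ δ := by
    rw [div_le_iff₀ (by positivity)]
    calc (V : ℝ) ^ r * (X.card : ℝ)
        ≤ (V : ℝ) ^ r * (CX * (T.Q : ℝ) ^ (g * (2 * n * (n + 1) - 1))) :=
          mul_le_mul_of_nonneg_left hXc (by positivity)
      _ = ((V : ℝ) ^ r * CX) * (T.Q : ℝ) ^ (g * (2 * n * (n + 1) - 1)) := by ring
      _ ≤ (δ * (T.Q : ℝ) ^ (A1 + b0)) * (T.Q : ℝ) ^ (g * (2 * n * (n + 1) - 1)) :=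
          mul_le_mul_of_nonneg_right hk2 (by positivity)
      _ = δ * (T.Q : ℝ) ^ (g * (2 * n * (n + 1) - 1) + (A1 + b0)) := by
          rw [pow_add]; ring
      _ ≤ δ * (T.Q : ℝ) ^ (2 * (b * (n + 1))) :=
          mul_le_mul_of_nonneg_left (pow_le_pow_right₀ hQ1 hX) hδ0.le
  have hE0 := T.EE_pos n d a b
  -- the variance
  have hfin : T.Qv (n := n) d a b g w ≤
      (ε / 4) * ((T.TBox n d a).card : ℝ) * (c * T.EE n d a b) ^ 2 := by
    refine hQv.trans ?_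
    have e1 : T.EE n d a b ≤ T.EE n d a b ^ 2 * (c ^ 2 * ε / (8 * C)) := by
      have h1 : 8 * C / (c ^ 2 * ε) ≤ T.EE n d a b := hm.trans hEE
      rw [div_le_iff₀ (by positivity)] at h1
      have h2 : 8 * C * T.EE n d a b ≤ T.EE n d a b * (c ^ 2 * ε) * T.EE n d a b :=
        mul_le_mul_of_nonneg_right h1 hE0.le
      rw [mul_div_assoc', le_div_iff₀ (by positivity)]
      nlinarith [h2]
    have e2 : lam ^ r * T.EE n d a b ^ 2 *
        (1 / ((w : ℝ) + 1) + T.Ne n r b g + 1 / ((V : ℝ) + 1) +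
          (V : ℝ) ^ r * (X.card : ℝ) / (T.Q : ℝ) ^ (2 * (b * (n + 1)))) ≤
        T.EE n d a b ^ 2 * (c ^ 2 * ε / (8 * C)) := by
      calc _ ≤ lam ^ r * T.EE n d a b ^ 2 * (4 * δ) :=
            mul_le_mul_of_nonneg_left (by linarith) (by positivity)
        _ = T.EE n d a b ^ 2 * (c ^ 2 * ε / (8 * C)) := by
            rw [hδ]
            field_simp
            ring
    calc C * ((T.TBox n d a).card : ℝ) * (T.EE n d a b + lam ^ r * T.EE n d a b ^ 2 *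
        (1 / ((w : ℝ) + 1) + T.Ne n r b g + 1 / ((V : ℝ) + 1) +
          (V : ℝ) ^ r * (X.card : ℝ) / (T.Q : ℝ) ^ (2 * (b * (n + 1)))))
        ≤ C * ((T.TBox n d a).card : ℝ) * (T.EE n d a b ^ 2 * (c ^ 2 * ε / (8 * C)) +
            T.EE n d a b ^ 2 * (c ^ 2 * ε / (8 * C))) :=
          mul_le_mul_of_nonneg_left (add_le_add e1 e2) (by positivity)
      _ = (ε / 4) * ((T.TBox n d a).card : ℝ) * (c * T.EE n d a b) ^ 2 := by
          field_simp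
          ring
  have hcE : 0 < (c * T.EE n d a b) ^ 2 := by positivity
  have hS3' := le_of_mul_le_mul_right (hS3.trans hfin) hcE
  have hS2' : (((T.TBox n d a).filter fun F => c * (T.Q : ℝ) ^ (b * (n + 1)) <
        (T.RR a b g w F : ℝ) * (NW O P w : ℝ) ^ r).card : ℝ) ≤
        ε / 4 * ((T.TBox n d a).card : ℝ) := by
    rw [div_le_iff₀ (by positivity)] at hsl
    have h1 : (((T.TBox n d a).filter fun F => c * (T.Q : ℝ) ^ (b * (n + 1)) <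
        (T.RR a b g w F : ℝ) * (NW O P w : ℝ) ^ r).card : ℝ) * (4 * Cm) ≤
        (((T.TBox n d a).filter fun F => c * (T.Q : ℝ) ^ (b * (n + 1)) <
        (T.RR a b g w F : ℝ) * (NW O P w : ℝ) ^ r).card : ℝ) * ((T.Q : ℝ) ^ s * (c * ε)) :=
      mul_le_mul_of_nonneg_left hsl (Nat.cast_nonneg _)
    have h2 := mul_le_mul_of_nonneg_right hS2 hε.le
    have h3 : (((T.TBox n d a).filter fun F => c * (T.Q : ℝ) ^ (b * (n + 1)) <
        (T.RR a b g w F : ℝ) * (NW O P w : ℝ) ^ r).card : ℝ) * (4 * Cm) ≤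
        (ε / 4 * ((T.TBox n d a).card : ℝ)) * (4 * Cm) := by
      calc _ ≤ _ := h1
        _ = (((T.TBox n d a).filter fun F => c * (T.Q : ℝ) ^ (b * (n + 1)) <
        (T.RR a b g w F : ℝ) * (NW O P w : ℝ) ^ r).card : ℝ) * (c * (T.Q : ℝ) ^ s) * ε := by ring
        _ ≤ _ := h2
        _ = _ := by ring
    exact le_of_mul_le_mul_right h3 (by positivity)
  have hsub : ((T.TBox n d a).filter fun F => PSol F ∧ PSol (T.ftw a F) ∧
        ¬ ∃ (b : ℕ) (x : Vc n O), b * (n + 1 - ∑ i, d i) ≤ r * a + ((n + 1) + r + m) ∧ x ≠ 0 ∧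
          x ∈ T.VB n b ∧ ∀ i, ev (F i) x = 0) ⊆
      ((T.TBox n d a).filter fun F => (PSol F ∧ PSol (T.ftw a F)) ∧
        (smI (WD O w) F : ℝ) * smI (WD P w) (T.ftw a F) * (NW O P w : ℝ) ^ r <
          τ * (NW O P w : ℝ) ^ (n + 1)) ∪
      (((T.TBox n d a).filter fun F => c * (T.Q : ℝ) ^ (b * (n + 1)) <
        (T.RR a b g w F : ℝ) * (NW O P w : ℝ) ^ r) ∪
      ((T.TBox n d a).filter fun F => T.Nn b g F = 0 ∧ c * T.EE n d a b ≤ T.Ll a b g w F)) := by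
    intro F hF
    obtain ⟨hFT, hp1, hp2, hnz⟩ := Finset.mem_filter.1 hF
    rw [Finset.mem_union, Finset.mem_union, Finset.mem_filter, Finset.mem_filter,
      Finset.mem_filter]
    by_cases c1 : (smI (WD O w) F : ℝ) * smI (WD P w) (T.ftw a F) * (NW O P w : ℝ) ^ r <
          τ * (NW O P w : ℝ) ^ (n + 1)
    · exact Or.inl ⟨hFT, ⟨hp1, hp2⟩, c1⟩
    by_cases c2 : c * (T.Q : ℝ) ^ (b * (n + 1)) < (T.RR a b g w F : ℝ) * (NW O P w : ℝ) ^ r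
    · exact Or.inr (Or.inl ⟨hFT, c2⟩)
    refine Or.inr (Or.inr ⟨hFT, ?_, hb0 a b g F (by omega) hFT (not_lt.1 c1) (not_lt.1 c2)⟩)
    by_contra hNn
    apply hnz
    obtain ⟨x, hx⟩ := Finset.card_pos.1 (Nat.pos_of_ne_zero hNn)
    obtain ⟨hxG, hx0⟩ := Finset.mem_filter.1 hx
    obtain ⟨hxV, hxU, -, -⟩ := T.mem_GG.1 hxG
    exact ⟨b, x, hbM, MainG_ne hxU, hxV, hx0⟩
  have hcard := (Finset.card_le_card hsub).trans ((Finset.card_union_le _ _).trans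
    (Nat.add_le_add_left (Finset.card_union_le _ _) _))
  have hcard' := (Nat.cast_le (α := ℝ)).2 hcard
  rw [Nat.cast_add, Nat.cast_add] at hcard'
  refine hcard'.trans ?_
  have hfinal : ε / 4 * ((T.TBox n d a).card : ℝ) + (ε / 4 * ((T.TBox n d a).card : ℝ) +
      ε / 4 * ((T.TBox n d a).card : ℝ)) ≤ ε * ((T.TBox n d a).card : ℝ) := by
    have := mul_nonneg hε.le hN0
    linarith
  exact le_trans (add_le_add hS1 (add_le_add hS2' hS3')) hfinal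

end TC

end Pool.Agent.Lib.MP_1ad228_ntZ
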