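import Pool.Agent.Lib.MP_1ad228_ntZ.Span
import Pool.Agent.Lib.MP_1ad228_ntZ.Im
import Pool.Agent.Lib.MP_1ad228_ntZ.Idx
import Pool.Agent.Lib.MP_1ad228_ntZ.Up

/-!
LEAF N1.  Exact number of tensors vanishing at a good point.
ev_surj: `T.im` with `ι = (Fin d → Fin (n+1))`, `κ = Unit`, `σ` = the index type of span1, `A () s = prod_k x (s k)` in `H (d*b)`, `c = d*b`, `u` = the tensors of span1, `G`, `G'` from ev_onto in `O` (`Uni x`)
and in `P` (`Uni (vtw b x)`; `T.tw (d*b) (prod_k x (s k)) = prod_k vtw b x (s k)`).  (`ev G x = sum_s G s * prod_k x (s k)`; mind the order of factors.)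
n1_eq: fin_ker_im for `φ = (G ↦ ev G x)` on `S = T.Box n d a`: the image is exactly `T.H (a + d*b)` (ev_mem, ev_surj).
-/

namespace Pool.Agent.Lib.MP_1ad228_ntZ

open Classical

namespace TC
variable {K O P : Type} [Field K] [CommRing O] [IsDedekindDomain O] [Algebra O K]
  [IsFractionRing O K] [CommRing P] [IsDedekindDomain P] [Algebra P K]
  [IsFractionRing P K] (T : TC K O P)

theorem mem_GG {n b g : ℕ} {x : Vc n O} : x ∈ T.GG n b g ↔
    x ∈ T.VB n b ∧ Uni x ∧ Uni (T.vtw b x) ∧ T.Good g x := by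
  unfold GG
  rw [Finset.mem_filter]

theorem N1_prod {b : ℕ} : ∀ (d : ℕ) (f : Fin d → O), (∀ k, f k ∈ T.H b) →
    ∏ k, f k ∈ T.H (d * b) ∧ T.tw (d * b) (∏ k, f k) = ∏ k, T.tw b (f k) := by
  intro d
  induction d with
  | zero =>
    intro f _
    rw [Nat.zero_mul]
    simp only [Finset.univ_eq_empty, Finset.prod_empty]
    exact ⟨T.one_mem_H, T.tw_one⟩
  | succ d ih =>
    intro f hf
    obtain ⟨h1, h2⟩ := ih (fun k => f k.succ) fun k => hf k.succ
    have e : (d + 1) * b = b + d * b := by ring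
    rw [e, Fin.prod_univ_succ, Fin.prod_univ_succ]
    exact ⟨T.mul_mem_H (hf 0) h1, by rw [T.tw_mul (hf 0) h1, h2]⟩

theorem ev_surj {n b g a : ℕ} (d : ℕ) {x : Vc n O} (hx : x ∈ T.GG n b g) (ha : g + T.c1 ≤ a)
    {m : O} (hm : m ∈ T.H (a + d * b)) : ∃ G ∈ T.Box n d a, ev G x = m := by
  obtain ⟨hxB, hU, hU', hg⟩ := T.mem_GG.1 hx
  have hx0 : x ≠ 0 := by
    rintro rfl
    obtain ⟨u, hu⟩ := hU
    have : lin u (0 : Vc n O) = 0 := by simp [Pool.Agent.Lib.MP_219881_nt.lin]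
    rw [this] at hu
    exact zero_ne_one hu
  obtain ⟨c, hc0, hcB, hspan⟩ := T.span1 d g x hx0 hg
  obtain ⟨G, hG⟩ := ev_onto d hU m
  obtain ⟨G', hG'⟩ := ev_onto d hU' (T.tw (a + d * b) m)
  have hxk := T.mem_VB.1 hxB
  obtain ⟨F, hF, hF'⟩ := T.im (ι := Fin d → Fin (n + 1)) (κ := Unit) (c := d * b) ha
    (fun _ s => ∏ k, x (s k)) (fun _ s => (T.N1_prod d (fun k => x (s k)) fun k => hxk _).1)
    c (fun τ => T.mem_Box.1 (hcB τ))
    (fun τ _ => by
      refine Eq.trans (Finset.sum_congr rfl fun s _ => mul_comm _ _) (hc0 τ))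
    (fun r hr => by
      obtain ⟨k, hk⟩ := hspan r (by
        refine Eq.trans (Finset.sum_congr rfl fun s _ => ?_) (hr ())
        rw [map_prod, mul_comm])
      exact ⟨k, hk⟩)
    (fun _ => m) (fun _ => hm) G
    (fun _ => by
      refine Eq.trans (Finset.sum_congr rfl fun s _ => mul_comm _ _) hG)
    G' (fun _ => by
      refine Eq.trans (Finset.sum_congr rfl fun s _ => ?_) hG'
      rw [(T.N1_prod d (fun k => x (s k)) fun k => hxk _).2, mul_comm]
      rfl)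
  refine ⟨F, T.mem_Box.2 hF, ?_⟩
  exact Eq.trans (Finset.sum_congr rfl fun s _ => mul_comm _ _) (hF' ())

theorem n1_eq {n b g a : ℕ} (d : ℕ) {x : Vc n O} (hx : x ∈ T.GG n b g) (ha : g + T.c1 ≤ a) :
    T.n1 d x a * T.h (a + d * b) = T.h a ^ (n + 1) ^ d := by
  let φ : Ten n d O →+ O :=
    { toFun := fun G => ev G x
      map_zero' := by simp [Pool.Agent.Lib.MP_1ad228_ntF.ev]
      map_add' := fun G G' => by
        simp [Pool.Agent.Lib.MP_1ad228_ntF.ev, add_mul, Finset.sum_add_distrib] }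
  have h1 := fin_ker_im (T.Box n d a) (T.mem_Box.2 fun _ => T.zero_mem_H a)
    (fun F hF G hG => T.mem_Box.2 fun i => T.sub_mem_H (T.mem_Box.1 hF i) (T.mem_Box.1 hG i)) φ
  have h2 : (T.Box n d a).image φ = T.H (a + d * b) := by
    ext m
    rw [Finset.mem_image]
    constructor
    · rintro ⟨G, hG, rfl⟩
      exact T.ev_mem hG (T.mem_GG.1 hx).1
    · intro hm
      obtain ⟨G, hG, hG'⟩ := T.ev_surj d hx ha hm
      exact ⟨G, hG, hG'⟩
  rw [h2, T.card_Box] at h1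
  exact h1.symm

end TC

end Pool.Agent.Lib.MP_1ad228_ntZ
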