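import Pool.Agent.Lib.MP_1ad228_ntZ.Tw
import Pool.Agent.Lib.MP_1ad228_ntN.TpK

/-!
LEAF Span.  The tensors over `K` which vanish at `x` (at `x` and `y`) are spanned by small tensors over `O`
(port of ntN Span1 and Span2).
-/

namespace Pool.Agent.Lib.MP_1ad228_ntZ

open Classical
open Pool.Agent.Lib.MP_1ad228_ntN (tp_mem top_mem perpSpanF ten_sum tp_sum tp_smul)

set_option linter.unusedSectionVars false

section gen
variable {K O : Type} [Field K] [CommRing O] [IsDomain O] [Algebra O K] [IsFractionRing O K]

variable (K) in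
/-- The image of a vector over `K`. -/
private def span_kv {n : ℕ} (x : Vc n O) : Vc n K := fun i => algebraMap O K (x i)

variable (K) in
/-- The image of a tensor over `K`. -/
private def span_kt {n d : ℕ} (a : Ten n d O) : Ten n d K := fun s => algebraMap O K (a s)

private theorem span_inj {a b : O} (h : algebraMap O K a = algebraMap O K b) : a = b :=
  IsFractionRing.injective O K h

private theorem span_kt_tp {n d : ℕ} (v : Fin d → Vc n O) :
    span_kt K (tp v) = tp (fun l => span_kv K (v l)) := by
  funext s
  show algebraMap O K (∏ l, v l (s l)) = ∏ l, algebraMap O K (v l (s l))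
  rw [map_prod]

private theorem span_kv_single {n : ℕ} (j : Fin (n + 1)) :
    span_kv K (Pi.single j 1 : Vc n O) = Pi.single j 1 := by
  funext i
  show algebraMap O K ((Pi.single j 1 : Vc n O) i) = (Pi.single j 1 : Vc n K) i
  rw [Pi.single_apply, Pi.single_apply]
  split_ifs <;> simp

private theorem span_lin {n : ℕ} (f x : Vc n O) :
    lin (span_kv K f) (span_kv K x) = algebraMap O K (lin f x) := by
  unfold lin span_kv
  simp only [map_sum, map_mul]

private noncomputable def span_L (n : ℕ) : Vc n O →ₗ[O] Vc n K where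
  toFun x := span_kv K x
  map_add' x y := by
    funext i
    simp [span_kv]
  map_smul' c x := by
    funext i
    simp [span_kv, Algebra.smul_def]

private theorem span_linInd {n : ℕ} {ι : Type*} (f : ι → Vc n O) (hf : LinearIndependent O f) :
    LinearIndependent K (fun s => span_kv K (f s)) := by
  have hinj : LinearMap.ker (span_L (K := K) (O := O) n) = ⊥ := by
    rw [LinearMap.ker_eq_bot]
    intro a b hab
    funext i
    exact span_inj (K := K) (congrFun hab i)
  have h1 := hf.map' (span_L (K := K) (O := O) n) hinj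
  exact (LinearIndependent.iff_fractionRing O K).mp h1

private theorem span_perp {n : ℕ} (x : Vc n O) (hx : x ≠ 0) (f : Fin n → Vc n O)
    (hf : LinearIndependent O f) (h0 : ∀ s, lin (f s) x = 0) {u : Vc n K}
    (hu : lin u (span_kv K x) = 0) :
    u ∈ Submodule.span K (Set.range fun s : Fin n => span_kv K (f s)) := by
  refine perpSpanF (span_kv K x) (fun h => hx ?_) _ (span_linInd f hf) (fun s => ?_) u hu
  · funext i
    have := congrFun h i
    exact span_inj (K := K) (by rw [Pi.zero_apply, map_zero]; exact this)
  · rw [span_lin, h0 s]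
    simp

/-- A product of entries of unit vectors is zero or one. -/
private theorem span_zo {ι : Type*} {n : ℕ} (S : Finset ι) (v : ι → Vc n O) (σ τ : ι → Fin (n + 1))
    (h : ∀ l ∈ S, v l = Pi.single (σ l) 1) : ∏ l ∈ S, v l (τ l) = 0 ∨ ∏ l ∈ S, v l (τ l) = 1 := by
  by_cases hz : ∀ l ∈ S, v l (τ l) = 1
  · exact Or.inr (Finset.prod_eq_one hz)
  · push Not at hz
    obtain ⟨l, hl, h1⟩ := hz
    refine Or.inl (Finset.prod_eq_zero hl ?_)
    rw [h l hl, Pi.single_apply] at h1 ⊢
    split_ifs at h1 ⊢ with h2
    · exact absurd rfl h1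
    · rfl

private theorem span1_prod {n d : ℕ} {R : Type*} [CommRing R] (v : Fin d → Vc n R) (k : Fin d) (a : Vc n R)
    (s : Fin d → Fin (n + 1)) :
    tp (Function.update v k a) s = a (s k) * ∏ l ∈ Finset.univ.erase k, v l (s l) := by
  unfold tp
  rw [← Finset.mul_prod_erase Finset.univ _ (Finset.mem_univ k), Function.update_self]
  congr 1
  refine Finset.prod_congr rfl fun l hl => ?_
  rw [Function.update_of_ne (Finset.ne_of_mem_erase hl)]

private theorem span1_upd {n d : ℕ} (v : Fin d → Vc n K) (k : Fin d) (a b : Vc n K) (c : K) :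
    tp (Function.update v k (a - c • b)) = tp (Function.update v k a) - c • tp (Function.update v k b) := by
  funext s
  rw [Pi.sub_apply, Pi.smul_apply, span1_prod, span1_prod, span1_prod, Pi.sub_apply, Pi.smul_apply,
    smul_eq_mul, smul_eq_mul]
  ring

private def span1_c {n d : ℕ} (f : Fin n → Vc n O) (t : Fin d × Fin n × (Fin d → Fin (n + 1))) :
    Ten n d O :=
  tp (fun l => if l = t.1 then f t.2.1 else Pi.single (t.2.2 l) 1)

private noncomputable def span2_c {n d : ℕ} (f g : Fin n → Vc n O)
    (t : Fin d × Fin d × Fin n × Fin n × (Fin d → Fin (n + 1))) : Ten n d O :=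
  if t.1 = t.2.1 then 0 else
    tp (fun l => if l = t.1 then f t.2.2.1 else if l = t.2.1 then g t.2.2.2.1 else
      Pi.single (t.2.2.2.2 l) 1)

private theorem span2_slots {d : ℕ} (hd : 2 ≤ d) (v : Fin d → Fin 3) (h0 : v ≠ fun _ => 0)
    (h1 : v ≠ fun _ => 1) : ∃ k k' : Fin d, k ≠ k' ∧ v k ≠ 0 ∧ v k' ≠ 1 := by
  obtain ⟨k1, hk1⟩ : ∃ k, v k ≠ 0 := by
    by_contra hcon
    push Not at hcon
    exact h0 (funext hcon)
  obtain ⟨k2, hk2⟩ : ∃ k, v k ≠ 1 := by
    by_contra hcon
    push Not at hcon
    exact h1 (funext hcon)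
  by_cases he : k1 = k2
  · subst he
    obtain ⟨k', hk'⟩ : ∃ k' : Fin d, k' ≠ k1 := by
      by_cases hz : k1 = ⟨0, by omega⟩
      · refine ⟨⟨1, by omega⟩, ?_⟩
        rw [hz]
        intro h
        have := congrArg Fin.val h
        simp at this
      · exact ⟨⟨0, by omega⟩, fun h => hz h.symm⟩
    by_cases hv : v k' = 1
    · refine ⟨k', k1, hk', ?_, hk2⟩
      rw [hv]
      decide
    · exact ⟨k1, k', fun h => hk' h.symm, hk1, hv⟩
  · exact ⟨k1, k2, he, hk1, hk2⟩

end gen

namespace TC
variable {K O P : Type} [Field K] [CommRing O] [IsDedekindDomain O] [Algebra O K]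
  [IsFractionRing O K] [CommRing P] [IsDedekindDomain P] [Algebra P K]
  [IsFractionRing P K] (T : TC K O P)

theorem span1 {n : ℕ} (d g : ℕ) (x : Vc n O) (hx0 : x ≠ 0) (hx : T.Good g x) :
    ∃ c : (Fin d × Fin n × (Fin d → Fin (n + 1))) → Ten n d O, (∀ t, ev (c t) x = 0) ∧
      (∀ t, c t ∈ T.Box n d g) ∧
      ∀ b : Ten n d K, ev b (fun i => algebraMap O K (x i)) = 0 →
        ∃ r : (Fin d × Fin n × (Fin d → Fin (n + 1))) → K,
          ∀ s, b s = ∑ t, r t * algebraMap O K (c t s) := by
  obtain ⟨o, hxo⟩ : ∃ o, x o ≠ 0 := by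
    by_contra hcon
    push Not at hcon
    exact hx0 (funext hcon)
  obtain ⟨f, hf, h0, hH⟩ := hx
  refine ⟨span1_c f, ?_, ?_, ?_⟩
  · rintro ⟨k, s, σ⟩
    unfold span1_c
    rw [ev_tp]
    refine Finset.prod_eq_zero (Finset.mem_univ k) ?_
    rw [if_pos rfl]
    exact h0 s
  · rintro ⟨k, s, σ⟩
    rw [T.mem_Box]
    intro τ
    have e : span1_c f (k, s, σ) τ =
        ∏ l, (if l = k then f s else (Pi.single (σ l) 1 : Vc n O)) (τ l) := rfl
    rw [e, ← Finset.mul_prod_erase Finset.univ _ (Finset.mem_univ k), if_pos rfl]
    rcases span_zo (Finset.univ.erase k)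
      (fun l => if l = k then f s else (Pi.single (σ l) 1 : Vc n O)) σ τ
      (fun l hl => if_neg (Finset.ne_of_mem_erase hl)) with h1 | h1
    · rw [h1, mul_zero]
      exact T.zero_mem_H g
    · rw [h1, mul_one]
      exact hH s (τ k)
  · intro b hb
    let S : Submodule K (Ten n d K) := Submodule.span K (Set.range fun t => span_kt K (span1_c f t))
    let X : Vc n K := span_kv K x
    have hx1' : X o ≠ 0 := fun h => hxo (span_inj (K := K) (by rw [map_zero]; exact h))
    have hM : ∀ (u : Fin d → Vc n K) (k : Fin d), lin (u k) X = 0 → tp u ∈ S := by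
      intro u k hk
      refine tp_mem S (fun l => if l = k then (Set.range fun s : Fin n => span_kv K (f s)) else
        (Set.range fun j : Fin (n + 1) => (Pi.single j 1 : Vc n K))) ?_ u ?_
      · intro a ha
        have hak := ha k
        simp only [if_true] at hak
        obtain ⟨s, hs⟩ := hak
        have h2 : ∀ l, ∃ j : Fin (n + 1), l ≠ k → (Pi.single j 1 : Vc n K) = a l := by
          intro l
          by_cases hl : l = k
          · exact ⟨0, fun h => absurd hl h⟩
          · have hal := ha l
            simp only [if_neg hl] at hal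
            obtain ⟨j, hj⟩ := hal
            exact ⟨j, fun _ => hj⟩
        choose σ hσ using h2
        refine Submodule.subset_span ⟨(k, s, σ), ?_⟩
        show span_kt K (tp (fun l => if l = k then f s else Pi.single (σ l) 1)) = tp a
        rw [span_kt_tp]
        refine congrArg tp (funext fun l => ?_)
        by_cases hl : l = k
        · rw [if_pos hl, hl]
          exact hs
        · rw [if_neg hl, span_kv_single]
          exact hσ l hl
      · intro l
        by_cases hl : l = k
        · simp only [if_pos hl]
          rw [hl]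
          exact span_perp x hx0 f hf h0 hk
        · simp only [if_neg hl]
          exact top_mem (u l)
    let p : Vc n K := (X o)⁻¹ • (Pi.single o 1 : Vc n K)
    have hp : lin p X = 1 := by
      show lin ((X o)⁻¹ • (Pi.single o 1 : Vc n K)) X = 1
      rw [lin_smul, lin_single]
      exact inv_mul_cancel₀ hx1'
    have hT : ∀ (u : Fin d → Vc n K) (U : Finset (Fin d)),
        tp u - (∏ k ∈ U, lin (u k) X) • tp (fun k => if k ∈ U then p else u k) ∈ S := by
      intro u U
      induction U using Finset.induction_on with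
      | empty =>
        have e1 : (fun k => if k ∈ (∅ : Finset (Fin d)) then p else u k) = u := by
          funext k
          rw [if_neg (Finset.notMem_empty k)]
        rw [e1, Finset.prod_empty, one_smul, sub_self]
        exact S.zero_mem
      | insert k U hkT ih =>
        obtain ⟨v, hv⟩ : ∃ v : Fin d → Vc n K, v = fun l => if l ∈ U then p else u l := ⟨_, rfl⟩
        rw [← hv] at ih
        have hvk : v k = u k := by rw [hv]; exact if_neg hkT
        have e1 : Function.update v k (u k) = v := by rw [← hvk]; exact Function.update_eq_self k v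
        have e2 : (fun l => if l ∈ insert k U then p else u l) = Function.update v k p := by
          funext l
          by_cases hl : l = k
          · rw [hl, Function.update_self, if_pos (Finset.mem_insert_self k U)]
          · rw [Function.update_of_ne hl, hv]
            by_cases hlT : l ∈ U
            · rw [if_pos (Finset.mem_insert_of_mem hlT)]
              exact (if_pos hlT).symm
            · rw [if_neg (by rw [Finset.mem_insert, not_or]; exact ⟨hl, hlT⟩)]
              exact (if_neg hlT).symm
        have h3 : tp v - lin (u k) X • tp (Function.update v k p) ∈ S := by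
          have h4 := span1_upd v k (u k) p (lin (u k) X)
          rw [e1] at h4
          rw [← h4]
          refine hM _ k ?_
          rw [Function.update_self, lin_sub, lin_smul, hp]
          ring
        rw [Finset.prod_insert hkT, e2]
        have e3 : tp u - (lin (u k) X * ∏ k ∈ U, lin (u k) X) • tp (Function.update v k p) =
            (tp u - (∏ k ∈ U, lin (u k) X) • tp v) +
            (∏ k ∈ U, lin (u k) X) • (tp v - lin (u k) X • tp (Function.update v k p)) := by
          rw [smul_sub, smul_smul, mul_comm (lin (u k) X)]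
          abel
        rw [e3]
        exact S.add_mem ih (S.smul_mem _ h3)
    have hb2 : b - ev b X • tp (fun _ => p) ∈ S := by
      have e1 : b - ev b X • tp (fun _ => p) = ∑ σ : Fin d → Fin (n + 1), b σ •
          (tp (fun k => (Pi.single (σ k) 1 : Vc n K)) - (∏ k, X (σ k)) • tp (fun _ => p)) := by
        have e3 : ev b X • tp (fun _ : Fin d => p) = ∑ σ : Fin d → Fin (n + 1), b σ • (∏ k, X (σ k)) •
            tp (fun _ => p) := by
          unfold ev
          simp only [Finset.sum_smul, mul_smul]
        rw [e3]
        refine (congrArg (fun y => y - ∑ σ : Fin d → Fin (n + 1), b σ • (∏ k, X (σ k)) •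
            tp (fun _ => p)) (ten_sum b)).trans ?_
        show (∑ σ : Fin d → Fin (n + 1), b σ • tp (fun k => (Pi.single (σ k) 1 : Vc n K))) -
          ∑ σ : Fin d → Fin (n + 1), b σ • (∏ k, X (σ k)) • tp (fun _ => p) = _
        rw [← Finset.sum_sub_distrib]
        refine Finset.sum_congr rfl fun σ _ => ?_
        rw [smul_sub]
      rw [e1]
      refine Submodule.sum_mem _ fun σ _ => Submodule.smul_mem _ _ ?_
      have h5 := hT (fun k => (Pi.single (σ k) 1 : Vc n K)) Finset.univ
      simp only [Finset.mem_univ, if_true, lin_single] at h5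
      exact h5
    have hb3 : b ∈ S := by
      have e4 : ev b X = 0 := hb
      rw [e4, zero_smul, sub_zero] at hb2
      exact hb2
    obtain ⟨r, hr⟩ := (Submodule.mem_span_range_iff_exists_fun K).1 hb3
    refine ⟨r, fun s => ?_⟩
    rw [← hr]
    simp only [Finset.sum_apply, Pi.smul_apply, smul_eq_mul, span_kt]

theorem span2 {n : ℕ} (d : ℕ) (hd : 2 ≤ d) (g : ℕ) (x y : Vc n O) (hxy : ¬ Prp x y)
    (hx : T.Good g x) (hy : T.Good g y) :
    ∃ c : (Fin d × Fin d × Fin n × Fin n × (Fin d → Fin (n + 1))) → Ten n d O,
      (∀ t, ev (c t) x = 0) ∧ (∀ t, ev (c t) y = 0) ∧ (∀ t, c t ∈ T.Box n d (g + g)) ∧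
      ∀ b : Ten n d K, ev b (fun i => algebraMap O K (x i)) = 0 →
        ev b (fun i => algebraMap O K (y i)) = 0 →
        ∃ r : (Fin d × Fin d × Fin n × Fin n × (Fin d → Fin (n + 1))) → K,
          ∀ s, b s = ∑ t, r t * algebraMap O K (c t s) := by
  obtain ⟨o, j0, hj0⟩ : ∃ i j, mn x y i j ≠ 0 := by
    by_contra hcon
    push Not at hcon
    exact hxy hcon
  obtain ⟨f, hf, hf0, hfH⟩ := hx
  obtain ⟨f', hg, hg0, hgH⟩ := hy
  have hx0 : x ≠ 0 := by
    intro h
    apply hj0
    simp [mn, h]
  have hy0 : y ≠ 0 := by
    intro h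
    apply hj0
    simp [mn, h]
  have hev0 : ∀ z : Vc n O, ev (0 : Ten n d O) z = 0 := by
    intro z
    unfold ev
    exact Finset.sum_eq_zero fun s _ => by rw [Pi.zero_apply, zero_mul]
  refine ⟨span2_c f f', ?_, ?_, ?_, ?_⟩
  · rintro ⟨k, k', s, s', σ⟩
    unfold span2_c
    by_cases hk : k = k'
    · rw [if_pos hk]
      exact hev0 x
    · rw [if_neg hk, ev_tp]
      refine Finset.prod_eq_zero (Finset.mem_univ k) ?_
      rw [if_pos rfl]
      exact hf0 s
  · rintro ⟨k, k', s, s', σ⟩
    unfold span2_c
    by_cases hk : k = k'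
    · rw [if_pos hk]
      exact hev0 y
    · rw [if_neg hk, ev_tp]
      refine Finset.prod_eq_zero (Finset.mem_univ k') ?_
      rw [if_neg (Ne.symm hk), if_pos rfl]
      exact hg0 s'
  · rintro ⟨k, k', s, s', σ⟩
    rw [T.mem_Box]
    intro τ
    unfold span2_c
    by_cases hk : k = k'
    · rw [if_pos hk, Pi.zero_apply]
      exact T.zero_mem_H _
    · rw [if_neg hk]
      have hk2 : k' ∈ Finset.univ.erase k := Finset.mem_erase.2 ⟨Ne.symm hk, Finset.mem_univ _⟩
      show (∏ l, (if l = k then f s else if l = k' then f' s' else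
          (Pi.single (σ l) 1 : Vc n O)) (τ l)) ∈ T.H (g + g)
      rw [← Finset.mul_prod_erase Finset.univ _ (Finset.mem_univ k), if_pos rfl,
        ← Finset.mul_prod_erase (Finset.univ.erase k) _ hk2, if_neg (Ne.symm hk), if_pos rfl]
      rcases span_zo ((Finset.univ.erase k).erase k')
        (fun l => if l = k then f s else if l = k' then f' s' else
          (Pi.single (σ l) 1 : Vc n O)) σ τ
        (fun l hl => by
          show (if l = k then f s else if l = k' then f' s' else
            (Pi.single (σ l) 1 : Vc n O)) = Pi.single (σ l) 1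
          rw [if_neg (Finset.ne_of_mem_erase (Finset.mem_of_mem_erase hl)),
            if_neg (Finset.ne_of_mem_erase hl)]) with h1 | h1
      · rw [h1, mul_zero, mul_zero]
        exact T.zero_mem_H _
      · rw [h1, mul_one]
        exact T.mul_mem_H (hfH s (τ k)) (hgH s' (τ k'))
  · intro b hbx hby
    let S : Submodule K (Ten n d K) := Submodule.span K (Set.range fun t => span_kt K (span2_c f f' t))
    let X : Vc n K := span_kv K x
    let Y : Vc n K := span_kv K y
    have hM : ∀ (u : Fin d → Vc n K) (k k' : Fin d), k ≠ k' → lin (u k) X = 0 → lin (u k') Y = 0 →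
        tp u ∈ S := by
      intro u k k' hkk hk hk'
      refine tp_mem S (fun l => if l = k then (Set.range fun s : Fin n => span_kv K (f s)) else
        if l = k' then (Set.range fun s : Fin n => span_kv K (f' s)) else
        (Set.range fun j : Fin (n + 1) => (Pi.single j 1 : Vc n K))) ?_ u ?_
      · intro a ha
        have hak := ha k
        rw [if_pos rfl] at hak
        obtain ⟨s, hs⟩ := hak
        have hak' := ha k'
        rw [if_neg (Ne.symm hkk), if_pos rfl] at hak'
        obtain ⟨s', hs'⟩ := hak'
        have h2 : ∀ l, ∃ j : Fin (n + 1), l ≠ k → l ≠ k' → (Pi.single j 1 : Vc n K) = a l := by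
          intro l
          by_cases hl : l = k
          · exact ⟨0, fun h => absurd hl h⟩
          · by_cases hl' : l = k'
            · exact ⟨0, fun _ h => absurd hl' h⟩
            · have hal := ha l
              rw [if_neg hl, if_neg hl'] at hal
              obtain ⟨j, hj⟩ := hal
              exact ⟨j, fun _ _ => hj⟩
        choose σ hσ using h2
        refine Submodule.subset_span ⟨(k, k', s, s', σ), ?_⟩
        have e0 : span2_c f f' (k, k', s, s', σ) =
            tp (fun l => if l = k then f s else if l = k' then f' s' else Pi.single (σ l) 1) :=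
          if_neg hkk
        show span_kt K (span2_c f f' (k, k', s, s', σ)) = tp a
        rw [e0, span_kt_tp]
        refine congrArg tp (funext fun l => ?_)
        by_cases hl : l = k
        · rw [if_pos hl, hl]
          exact hs
        · by_cases hl' : l = k'
          · rw [if_neg hl, if_pos hl', hl']
            exact hs'
          · rw [if_neg hl, if_neg hl', span_kv_single]
            exact hσ l hl hl'
      · intro l
        by_cases hl : l = k
        · rw [if_pos hl, hl]
          exact span_perp x hx0 f hf hf0 hk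
        · by_cases hl' : l = k'
          · rw [if_neg hl, if_pos hl', hl']
            exact span_perp y hy0 f' hg hg0 hk'
          · rw [if_neg hl, if_neg hl']
            exact top_mem (u l)
    let e : Fin (n + 1) → Vc n K := fun i => Pi.single i 1
    let D : K := X o * Y j0 - X j0 * Y o
    have hD : D ≠ 0 := by
      have h1 : algebraMap O K (mn x y o j0) ≠ 0 :=
        fun h => hj0 (span_inj (K := K) (by rw [map_zero]; exact h))
      have h2 : algebraMap O K (mn x y o j0) = D := by
        simp [mn, D, X, Y, span_kv]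
      rwa [h2] at h1
    let p : Vc n K := D⁻¹ • (Y j0 • e o - Y o • e j0)
    let r : Vc n K := D⁻¹ • (X o • e j0 - X j0 • e o)
    have hpx : lin p X = 1 := by
      show lin (D⁻¹ • (Y j0 • e o - Y o • e j0)) X = 1
      rw [lin_smul, lin_sub, lin_smul, lin_smul, lin_single, lin_single]
      have h1 : Y j0 * X o - Y o * X j0 = D := by ring
      rw [h1, inv_mul_cancel₀ hD]
    have hpy : lin p Y = 0 := by
      show lin (D⁻¹ • (Y j0 • e o - Y o • e j0)) Y = 0
      rw [lin_smul, lin_sub, lin_smul, lin_smul, lin_single, lin_single]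
      ring
    have hrx : lin r X = 0 := by
      show lin (D⁻¹ • (X o • e j0 - X j0 • e o)) X = 0
      rw [lin_smul, lin_sub, lin_smul, lin_smul, lin_single, lin_single]
      ring
    have hry : lin r Y = 1 := by
      show lin (D⁻¹ • (X o • e j0 - X j0 • e o)) Y = 1
      rw [lin_smul, lin_sub, lin_smul, lin_smul, lin_single, lin_single]
      exact inv_mul_cancel₀ hD
    let w : Fin (n + 1) → Fin 3 → Vc n K := fun i a =>
      (![X i • p, Y i • r, e i - X i • p - Y i • r] : Fin 3 → Vc n K) a
    have hw : ∀ i, ∑ a, w i a = e i := by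
      intro i
      rw [Fin.sum_univ_three]
      show X i • p + Y i • r + (e i - X i • p - Y i • r) = e i
      abel
    have hwX : ∀ i (a : Fin 3), a ≠ 0 → lin (w i a) X = 0 := by
      intro i a ha
      fin_cases a
      · exact absurd rfl ha
      · show lin (Y i • r) X = 0
        rw [lin_smul, hrx, mul_zero]
      · show lin (e i - X i • p - Y i • r) X = 0
        have a1 : lin (X i • p) X = X i := by rw [lin_smul, hpx, mul_one]
        have a2 : lin (Y i • r) X = 0 := by rw [lin_smul, hrx, mul_zero]
        rw [lin_sub, lin_sub, a1, a2, lin_single]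
        ring
    have hwY : ∀ i (a : Fin 3), a ≠ 1 → lin (w i a) Y = 0 := by
      intro i a ha
      fin_cases a
      · show lin (X i • p) Y = 0
        rw [lin_smul, hpy, mul_zero]
      · exact absurd rfl ha
      · show lin (e i - X i • p - Y i • r) Y = 0
        have a1 : lin (X i • p) Y = 0 := by rw [lin_smul, hpy, mul_zero]
        have a2 : lin (Y i • r) Y = Y i := by rw [lin_smul, hry, mul_one]
        rw [lin_sub, lin_sub, a1, a2, lin_single]
        ring
    have hσ : ∀ σ : Fin d → Fin (n + 1), tp (fun k => e (σ k)) - (∏ k, X (σ k)) • tp (fun _ : Fin d => p)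
        - (∏ k, Y (σ k)) • tp (fun _ : Fin d => r) ∈ S := by
      intro σ
      have e1 : tp (fun k => e (σ k)) = ∑ v : Fin d → Fin 3, tp (fun k => w (σ k) (v k)) := by
        rw [← tp_sum (fun k => w (σ k))]
        exact congrArg tp (funext fun k => (hw (σ k)).symm)
      have e2 : (∏ k, X (σ k)) • tp (fun _ : Fin d => p) =
          tp (fun k => w (σ k) ((fun _ : Fin d => (0 : Fin 3)) k)) := (tp_smul (fun k => X (σ k)) _).symm
      have e3 : (∏ k, Y (σ k)) • tp (fun _ : Fin d => r) =
          tp (fun k => w (σ k) ((fun _ : Fin d => (1 : Fin 3)) k)) := (tp_smul (fun k => Y (σ k)) _).symm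
      have hne : (fun _ : Fin d => (1 : Fin 3)) ≠ (fun _ : Fin d => (0 : Fin 3)) := by
        intro h
        have := congrFun h ⟨0, by omega⟩
        exact absurd this (by decide)
      have hmem : (fun _ : Fin d => (1 : Fin 3)) ∈
          (Finset.univ : Finset (Fin d → Fin 3)).erase (fun _ => 0) :=
        Finset.mem_erase.2 ⟨hne, Finset.mem_univ _⟩
      rw [e1, e2, e3, ← Finset.add_sum_erase Finset.univ _ (Finset.mem_univ (fun _ : Fin d => (0 : Fin 3))),
        ← Finset.add_sum_erase _ _ hmem, add_sub_cancel_left, add_sub_cancel_left]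
      refine Submodule.sum_mem _ fun v hv => ?_
      have hv1 : v ≠ fun _ => 1 := Finset.ne_of_mem_erase hv
      have hv0 : v ≠ fun _ => 0 := Finset.ne_of_mem_erase (Finset.mem_of_mem_erase hv)
      obtain ⟨k, k', hkk, hk, hk'⟩ := span2_slots hd v hv0 hv1
      exact hM _ k k' hkk (hwX _ _ hk) (hwY _ _ hk')
    have hb2 : b - ev b X • tp (fun _ => p) - ev b Y • tp (fun _ => r) ∈ S := by
      have e1 : b - ev b X • tp (fun _ => p) - ev b Y • tp (fun _ => r) =
          ∑ σ : Fin d → Fin (n + 1), b σ • (tp (fun k => e (σ k)) - (∏ k, X (σ k)) • tp (fun _ : Fin d => p)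
            - (∏ k, Y (σ k)) • tp (fun _ : Fin d => r)) := by
        have e3 : ev b X • tp (fun _ : Fin d => p) = ∑ σ : Fin d → Fin (n + 1), b σ • (∏ k, X (σ k)) •
            tp (fun _ => p) := by
          unfold ev
          simp only [Finset.sum_smul, mul_smul]
        have e4 : ev b Y • tp (fun _ : Fin d => r) = ∑ σ : Fin d → Fin (n + 1), b σ • (∏ k, Y (σ k)) •
            tp (fun _ => r) := by
          unfold ev
          simp only [Finset.sum_smul, mul_smul]
        rw [e3, e4]
        refine (congrArg (fun z => z - (∑ σ : Fin d → Fin (n + 1), b σ • (∏ k, X (σ k)) •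
            tp (fun _ => p)) - ∑ σ : Fin d → Fin (n + 1), b σ • (∏ k, Y (σ k)) •
            tp (fun _ => r)) (ten_sum b)).trans ?_
        show (∑ σ : Fin d → Fin (n + 1), b σ • tp (fun k => e (σ k))) -
          (∑ σ : Fin d → Fin (n + 1), b σ • (∏ k, X (σ k)) • tp (fun _ => p)) -
          ∑ σ : Fin d → Fin (n + 1), b σ • (∏ k, Y (σ k)) • tp (fun _ => r) = _
        rw [← Finset.sum_sub_distrib, ← Finset.sum_sub_distrib]
        refine Finset.sum_congr rfl fun σ _ => ?_
        rw [smul_sub, smul_sub]
      rw [e1]
      exact Submodule.sum_mem _ fun σ _ => Submodule.smul_mem _ _ (hσ σ)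
    have hb3 : b ∈ S := by
      have e4 : ev b X = 0 := hbx
      have e5 : ev b Y = 0 := hby
      rw [e4, e5, zero_smul, zero_smul, sub_zero, sub_zero] at hb2
      exact hb2
    obtain ⟨t, ht⟩ := (Submodule.mem_span_range_iff_exists_fun K).1 hb3
    refine ⟨t, fun s => ?_⟩
    rw [← ht]
    simp only [Finset.sum_apply, Pi.smul_apply, smul_eq_mul, span_kt]

end TC

end Pool.Agent.Lib.MP_1ad228_ntZ
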