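import Pool.Agent.Lib.MP_1ad228_ntZ.Up

/-!
LEAF Surj.  `H c → O/I × P/J` is surjective if `c` is large.
exists_M: pigeonhole: the map `H c → O/I × P/J`, `z ↦ (z, tw c z)` is additive; `fin_index` gives `h c ≤ #M c I J * (nI I * nI J)`, so `#M c I J > 1`.
surj: take `z <> 0` in `M c I J` (exists_M).  `κ := (t^(c + c1) β - α) / z` in `K`, `g` in `O` with `s^c1 (κ - g)` in `P` (`T.rnd`).  `w := α + g z`.  Then `w - α` is in `I` and
`s^(c+c1) w = β - [s^c1 (κ - g)] * [s^c z]` in `K` (use `s t = 1`), which lies in `β + J`.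
surjC: from `C1 N ≤ Q^c` with `C1 = (C0 + 1) Q^(c1+1)`: `c ≥ c1 + 1` (as `N ≥ 1`), `Q^(c-c1) ≤ C0 h(c - c1)`, so `N < h (c - c1)`.
class_eq: `fin_unif` with `Y = O/I × P/J` and one point.
-/

namespace Pool.Agent.Lib.MP_1ad228_ntZ

open Classical

namespace TC
variable {K O P : Type} [Field K] [CommRing O] [IsDedekindDomain O] [Algebra O K]
  [IsFractionRing O K] [CommRing P] [IsDedekindDomain P] [Algebra P K]
  [IsFractionRing P K] (T : TC K O P)

private theorem Surj_fc {α : Type} (S : Finset α) (p q : α → Prop) (d1 : DecidablePred p)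
    (d2 : DecidablePred q) (h : ∀ x, p x ↔ q x) :
    (@Finset.filter α p d1 S).card = (@Finset.filter α q d2 S).card :=
  congrArg Finset.card (Finset.filter_congr fun x _ => h x)

/-- the graph of the twist -/
private noncomputable def Surj_S (c : ℕ) : Finset (O × P) := (T.H c).image fun z => (z, T.tw c z)

/-- the reduction on the product -/
private def Surj_φ (I : Ideal O) (J : Ideal P) : O × P →+ (O ⧸ I) × (P ⧸ J) :=
  AddMonoidHom.prodMap (Ideal.Quotient.mk I).toAddMonoidHom (Ideal.Quotient.mk J).toAddMonoidHom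

omit [IsDedekindDomain O] [IsDedekindDomain P] in
private theorem Surj_φ_eq {I : Ideal O} {J : Ideal P} (x : O × P) (α : O) (β : P) :
    Surj_φ I J x = (Ideal.Quotient.mk I α, Ideal.Quotient.mk J β) ↔ x.1 - α ∈ I ∧ x.2 - β ∈ J := by
  rw [Prod.ext_iff]
  exact and_congr Ideal.Quotient.eq Ideal.Quotient.eq

omit [IsDedekindDomain O] [IsFractionRing O K] [IsDedekindDomain P] [IsFractionRing P K] in
private theorem Surj_inj (c : ℕ) : Function.Injective fun z : O => (z, T.tw c z) := by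
  intro z w h
  exact congrArg Prod.fst h

omit [IsDedekindDomain O] [IsFractionRing O K] [IsDedekindDomain P] [IsFractionRing P K] in
private theorem Surj_card (c : ℕ) : (T.Surj_S c).card = T.h c :=
  Finset.card_image_of_injective _ (T.Surj_inj c)

private theorem Surj_zero (c : ℕ) : (0 : O × P) ∈ T.Surj_S c := by
  refine Finset.mem_image.2 ⟨0, T.zero_mem_H c, ?_⟩
  rw [T.tw_zero]
  rfl

private theorem Surj_sub (c : ℕ) : ∀ x ∈ T.Surj_S c, ∀ y ∈ T.Surj_S c, x - y ∈ T.Surj_S c := by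
  intro x hx y hy
  obtain ⟨z, hz, rfl⟩ := Finset.mem_image.1 hx
  obtain ⟨w, hw, rfl⟩ := Finset.mem_image.1 hy
  refine Finset.mem_image.2 ⟨z - w, T.sub_mem_H hz hw, ?_⟩
  rw [T.tw_sub hz hw]
  rfl

omit [IsDedekindDomain O] [IsFractionRing O K] [IsDedekindDomain P] [IsFractionRing P K] in
private theorem Surj_filter (c : ℕ) (I : Ideal O) (J : Ideal P) (α : O) (β : P) :
    ((T.Surj_S c).filter fun x => Surj_φ I J x = (Ideal.Quotient.mk I α, Ideal.Quotient.mk J β)).card =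
      ((T.H c).filter fun z => z - α ∈ I ∧ T.tw c z - β ∈ J).card := by
  rw [Surj_S, Finset.filter_image, Finset.card_image_of_injective _ (T.Surj_inj c)]
  congr 1
  refine Finset.filter_congr fun z _ => ?_
  exact Surj_φ_eq (z, T.tw c z) α β

omit [IsDedekindDomain O] [IsFractionRing O K] [IsDedekindDomain P] [IsFractionRing P K] in
private theorem Surj_M (c : ℕ) (I : Ideal O) (J : Ideal P) :
    ((T.H c).filter fun z => z - 0 ∈ I ∧ T.tw c z - 0 ∈ J) = T.M c I J := by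
  simp only [sub_zero]
  rfl

omit [IsDedekindDomain O] [IsDedekindDomain P] in
private theorem Surj_Y (I : Ideal O) (J : Ideal P) : Nat.card ((O ⧸ I) × (P ⧸ J)) = nI I * nI J :=
  Nat.card_prod _ _

theorem exists_M {c : ℕ} {I : Ideal O} {J : Ideal P} (hI : I ≠ ⊥) (hJ : J ≠ ⊥)
    (h : nI I * nI J < T.h c) : ∃ z ∈ T.M c I J, z ≠ 0 := by
  have hfI : Finite (O ⧸ I) := T.finO I hI
  have hfJ : Finite (P ⧸ J) := T.finP J hJ
  have h1 := fin_index (T.Surj_S c) (T.Surj_zero c) (T.Surj_sub c) (Surj_φ I J)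
  have h3 : T.h c ≤ (T.M c I J).card * (nI I * nI J) := by
    rw [← T.Surj_card, ← Surj_Y, ← T.Surj_M c I J, ← T.Surj_filter c I J 0 0]
    refine h1.trans (Nat.mul_le_mul_right _ (le_of_eq (Surj_fc _ _ _ _ _ fun x => ?_)))
    rw [map_zero, map_zero]
    exact Iff.rfl
  have h4 : 1 < (T.M c I J).card := by
    by_contra h5
    have h6 : (T.M c I J).card * (nI I * nI J) ≤ 1 * (nI I * nI J) := Nat.mul_le_mul_right _ (by omega)
    omega
  exact Finset.exists_mem_ne h4 0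

theorem surj {c : ℕ} {I : Ideal O} {J : Ideal P} (hI : I ≠ ⊥) (hJ : J ≠ ⊥)
    (h : nI I * nI J < T.h c) (α : O) (β : P) :
    ∃ w ∈ T.H (c + T.c1), w - α ∈ I ∧ T.tw (c + T.c1) w - β ∈ J := by
  obtain ⟨z, hz, hz0⟩ := T.exists_M hI hJ h
  obtain ⟨hzH, hzI, hzJ⟩ := T.mem_M.1 hz
  have hzK : algebraMap O K z ≠ 0 := by
    intro h0
    exact hz0 (IsFractionRing.injective O K (by rw [h0, map_zero]))
  obtain ⟨g, p, hp⟩ := T.rnd ((algebraMap O K T.t ^ (c + T.c1) * algebraMap P K β - algebraMap O K α) /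
    algebraMap O K z)
  have hst : algebraMap P K T.s ^ (c + T.c1) * algebraMap O K T.t ^ (c + T.c1) = 1 := by
    rw [← mul_pow, mul_comm, T.ts, one_pow]
  have hkey : algebraMap P K (β - p * T.tw c z) =
      algebraMap P K T.s ^ (c + T.c1) * algebraMap O K (α + g * z) := by
    rw [map_sub, map_mul, hp, T.tw_spec hzH, map_add, map_mul]
    have h1 : (algebraMap O K T.t ^ (c + T.c1) * algebraMap P K β - algebraMap O K α) /
        algebraMap O K z * algebraMap O K z =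
        algebraMap O K T.t ^ (c + T.c1) * algebraMap P K β - algebraMap O K α := div_mul_cancel₀ _ hzK
    have h2 : algebraMap P K T.s ^ T.c1 * ((algebraMap O K T.t ^ (c + T.c1) * algebraMap P K β - algebraMap O K α) /
        algebraMap O K z - algebraMap O K g) * (algebraMap P K T.s ^ c * algebraMap O K z) =
        algebraMap P K T.s ^ (c + T.c1) * ((algebraMap O K T.t ^ (c + T.c1) * algebraMap P K β - algebraMap O K α) /
        algebraMap O K z * algebraMap O K z) -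
        algebraMap P K T.s ^ (c + T.c1) * (algebraMap O K g * algebraMap O K z) := by
      rw [pow_add]
      ring
    rw [h2, h1]
    have h3 : algebraMap P K T.s ^ (c + T.c1) * (algebraMap O K T.t ^ (c + T.c1) * algebraMap P K β -
        algebraMap O K α) = algebraMap P K β - algebraMap P K T.s ^ (c + T.c1) * algebraMap O K α := by
      rw [mul_sub, ← mul_assoc, hst, one_mul]
    rw [h3]
    ring
  obtain ⟨hw, htw⟩ := T.tw_eq hkey
  refine ⟨α + g * z, hw, ?_, ?_⟩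
  · rw [add_sub_cancel_left]
    exact I.mul_mem_left g hzI
  · rw [htw, sub_sub_cancel_left]
    exact J.neg_mem (J.mul_mem_left p hzJ)

/-- The constant of surjectivity. -/
def C1 : ℕ := (T.C0 + 1) * T.Q ^ (T.c1 + 1)

theorem surjC {c : ℕ} {I : Ideal O} {J : Ideal P} (hI : I ≠ ⊥) (hJ : J ≠ ⊥)
    (h : T.C1 * (nI I * nI J) ≤ T.Q ^ c) (α : O) (β : P) :
    ∃ w ∈ T.H c, w - α ∈ I ∧ T.tw c w - β ∈ J := by
  have hfI : Finite (O ⧸ I) := T.finO I hI
  have hfJ : Finite (P ⧸ J) := T.finP J hJ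
  have hN : 0 < nI I * nI J := Nat.mul_pos Nat.card_pos Nat.card_pos
  have hQ : 2 ≤ T.Q := T.two_le
  obtain ⟨N, hNdef⟩ : ∃ N, N = nI I * nI J := ⟨_, rfl⟩
  rw [← hNdef] at h hN
  have hQc : 0 < T.Q ^ (T.c1 + 1) := pow_pos (by omega) _
  have h1 : T.Q ^ (T.c1 + 1) ≤ T.Q ^ c := by
    refine le_trans ?_ h
    rw [C1]
    calc T.Q ^ (T.c1 + 1) = 1 * T.Q ^ (T.c1 + 1) * 1 := by ring
      _ ≤ (T.C0 + 1) * T.Q ^ (T.c1 + 1) * N :=
        Nat.mul_le_mul (Nat.mul_le_mul_right _ (by omega)) hN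
  have h2 : T.c1 + 1 ≤ c := (Nat.pow_le_pow_iff_right (by omega)).1 h1
  obtain ⟨c', rfl⟩ : ∃ c', c = c' + T.c1 := ⟨c - T.c1, by omega⟩
  have h3 : (T.C0 + 1) * T.Q * N ≤ T.Q ^ c' := by
    have h4 : (T.C0 + 1) * T.Q * N * T.Q ^ T.c1 ≤ T.Q ^ c' * T.Q ^ T.c1 := by
      calc (T.C0 + 1) * T.Q * N * T.Q ^ T.c1 = T.C1 * N := by
            rw [C1, pow_succ]
            ring
        _ ≤ T.Q ^ (c' + T.c1) := h
        _ = T.Q ^ c' * T.Q ^ T.c1 := pow_add _ _ _
    exact Nat.le_of_mul_le_mul_right h4 (pow_pos (by omega) _)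
  have h5 : N < T.h c' := by
    by_contra h6
    have h7 : T.C0 * T.h c' ≤ T.C0 * N := Nat.mul_le_mul_left _ (by omega)
    have h8 := T.h_low c'
    have h9 : T.C0 * N < (T.C0 + 1) * T.Q * N := by
      refine Nat.mul_lt_mul_of_pos_right ?_ hN
      calc T.C0 < T.C0 + 1 := Nat.lt_succ_self _
        _ = (T.C0 + 1) * 1 := (mul_one _).symm
        _ ≤ (T.C0 + 1) * T.Q := Nat.mul_le_mul_left _ (by omega)
    omega
  rw [hNdef] at h5
  exact T.surj hI hJ h5 α β

/-- Exact count of a residue class. -/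
theorem class_eq {c : ℕ} {I : Ideal O} {J : Ideal P} (hI : I ≠ ⊥) (hJ : J ≠ ⊥)
    (h : T.C1 * (nI I * nI J) ≤ T.Q ^ c) (α : O) (β : P) :
    ((T.H c).filter fun z => z - α ∈ I ∧ T.tw c z - β ∈ J).card * (nI I * nI J) = T.h c := by
  have hfI : Finite (O ⧸ I) := T.finO I hI
  have hfJ : Finite (P ⧸ J) := T.finP J hJ
  have hs : ∀ y : (O ⧸ I) × (P ⧸ J), ∃ x ∈ T.Surj_S c, Surj_φ I J x = y := by
    rintro ⟨y1, y2⟩
    obtain ⟨a, rfl⟩ := Ideal.Quotient.mk_surjective y1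
    obtain ⟨b, rfl⟩ := Ideal.Quotient.mk_surjective y2
    obtain ⟨w, hw, h1, h2⟩ := T.surjC hI hJ h a b
    exact ⟨(w, T.tw c w), Finset.mem_image.2 ⟨w, hw, rfl⟩, (Surj_φ_eq _ _ _).2 ⟨h1, h2⟩⟩
  have h1 := fin_unif (T.Surj_S c) (T.Surj_zero c) (T.Surj_sub c) (Surj_φ I J) hs
    {(Ideal.Quotient.mk I α, Ideal.Quotient.mk J β)}
  rw [Set.ncard_singleton, mul_one, T.Surj_card, Surj_Y] at h1
  rw [← T.Surj_filter c I J α β]
  refine Eq.trans (congrArg (fun m => m * (nI I * nI J)) ?_) h1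
  exact Surj_fc _ _ _ _ _ fun x => Set.mem_singleton_iff.symm

theorem card_M {c : ℕ} {I : Ideal O} {J : Ideal P} (hI : I ≠ ⊥) (hJ : J ≠ ⊥)
    (h : T.C1 * (nI I * nI J) ≤ T.Q ^ c) :
    (T.M c I J).card * (nI I * nI J) = T.h c := by
  rw [← T.Surj_M c I J]
  exact T.class_eq hI hJ h 0 0

end TC

end Pool.Agent.Lib.MP_1ad228_ntZ
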