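import Pool.Agent.Lib.MP_1ad228_ntZ.EEZ
import Pool.Agent.Lib.MP_1ad228_ntZ.PairSum

/-!
LEAF TotZ1.  The variance with an exceptional set `X` of pairs and a loss `lam` in the n2 bound.
Proof.  varBoundG with `B x y := Prp x y ∨ ¬ (WD O w ≤ Dd x y ∧ WD P w ≤ Dd (vtw b x) (vtw b y)) ∨ (x, y) ∈ X`
(`hz`: mem_M, tw_zero, zero_mem; `hle`: sl_le; `heq` = the hypothesis h2).  Bound `∑_{B} ∏ n2` by three sums
(`Finset.sum_filter`, all terms `≥ 0`; or `Finset.sum_le_sum` pointwise in y):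
(i) `Prp x y`: `∏ n2 ≤ ∏ n1` (n2_le_n1), n1_eq gives `∏ n1 = #TBox / ∏ h (a + d i b)` (card_TBox, card_Box; `∏ h(a)^((n+1)^(d i)) = #TBox`), at most `h 0` such `y` (prp_cnt).
(ii) not `Prp`, bad: `∏ n2 ≤ lam^r #TBox nD^r / (∏ h (a + d i b))^2` (hypothesis h1), psBad for the sum over `y`.
(iii) not `Prp`, `(x, y) ∈ X`: the same bound for `∏ n2`; `∑ nD^r` over these pairs is at most `V^r #X + ∑_x ∑_(y, V < nD) nD^r`, and the last inner sum is at most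
`C (Q^(b(n+1))/(V+1) + Q^(gn+(g+b)(r+1)))` by beta (`V < nD ≤ Q^b`) and alpha (`Q^b < nD`) (see PairSum_gen / psBad in PairSum.lean).
The number of `x` is at most `#VB = h b ^(n+1) ≤ Q^((b+1)(n+1)) = Q^(n+1) Q^(b(n+1))` (card_VB, h_up).
Collect: `EE = Q^(b(n+1)) / ∏ h`, `Ne = Q^(gn+(g+b)(r+1)) / Q^(b(n+1))`, so e.g.
`Q^(b(n+1)) * (Q^(b(n+1))/(w+1)) / (∏ h)^2 = EE^2/(w+1)`, `V^r #X/(∏ h)^2 = EE^2 * (V^r #X/Q^(2 b(n+1)))`.
`C := 2 (Q^(n+1) h 0 + 2 Q^(n+1) (Cbad + Calpha + Cbeta) + 1)`.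
-/

namespace Pool.Agent.Lib.MP_1ad228_ntZ

open Classical

private theorem TotZ1_alg {s Qn E0 PH TB L h0 Cd Cb Ca N1 W V1 VX : ℝ} (hE : 0 < E0) (hP : 0 < PH)
    (hTB : 0 ≤ TB) (hL : 0 ≤ L) (hs : s ≤ Qn * E0) (hQn : 0 ≤ Qn) (hh : 0 ≤ h0) (hCd : 0 ≤ Cd)
    (hCb : 0 ≤ Cb) (hCa : 0 ≤ Ca) (hN : 0 ≤ N1) (hW : 0 < W) (hV1 : 0 < V1) (hVX : 0 ≤ VX) :
    2 * (s * (h0 * (TB / PH) + L * TB / PH ^ 2 *
        (Cd * (E0 / W + N1) + (Cb * (E0 / V1) + Ca * N1))) + L * TB / PH ^ 2 * VX) ≤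
      2 * (Qn * h0 + Qn * (Cd + Cb + Ca) + 1) * TB * (E0 / PH + L * (E0 / PH) ^ 2 *
        (1 / W + N1 / E0 + 1 / V1 + VX / E0 ^ 2)) := by
  have hA : 0 ≤ h0 * (TB / PH) + L * TB / PH ^ 2 *
      (Cd * (E0 / W + N1) + (Cb * (E0 / V1) + Ca * N1)) := by positivity
  have h2 := mul_le_mul_of_nonneg_right hs hA
  have key : Qn * E0 * (h0 * (TB / PH) + L * TB / PH ^ 2 *
      (Cd * (E0 / W + N1) + (Cb * (E0 / V1) + Ca * N1))) + L * TB / PH ^ 2 * VX =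
      Qn * h0 * (TB * (E0 / PH)) + TB * (L * (E0 / PH) ^ 2) *
        (Qn * Cd * (1 / W) + Qn * (Cd + Ca) * (N1 / E0) + Qn * Cb * (1 / V1) + VX / E0 ^ 2) := by
    field_simp
    ring
  have u0 : 0 ≤ TB * (E0 / PH) := by positivity
  have u1 : 0 ≤ 1 / W := by positivity
  have u2 : 0 ≤ N1 / E0 := by positivity
  have u3 : 0 ≤ 1 / V1 := by positivity
  have u4 : 0 ≤ VX / E0 ^ 2 := by positivity
  have u5 : 0 ≤ TB * (L * (E0 / PH) ^ 2) := by positivity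
  have k1 : 0 ≤ Qn * h0 := mul_nonneg hQn hh
  have k2 : 0 ≤ Qn * Cd := mul_nonneg hQn hCd
  have k3 : 0 ≤ Qn * Cb := mul_nonneg hQn hCb
  have k4 : 0 ≤ Qn * Ca := mul_nonneg hQn hCa
  have e1 : Qn * h0 * (TB * (E0 / PH)) ≤
      (Qn * h0 + Qn * (Cd + Cb + Ca) + 1) * (TB * (E0 / PH)) :=
    mul_le_mul_of_nonneg_right (by linarith [mul_add Qn (Cd + Cb) Ca, mul_add Qn Cd Cb]) u0
  have e2 : Qn * Cd * (1 / W) + Qn * (Cd + Ca) * (N1 / E0) + Qn * Cb * (1 / V1) + VX / E0 ^ 2 ≤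
      (Qn * h0 + Qn * (Cd + Cb + Ca) + 1) * (1 / W + N1 / E0 + 1 / V1 + VX / E0 ^ 2) := by
    have a1 := mul_le_mul_of_nonneg_right (show Qn * Cd ≤ Qn * h0 + Qn * (Cd + Cb + Ca) + 1 by
      linarith [mul_add Qn (Cd + Cb) Ca, mul_add Qn Cd Cb]) u1
    have a2 := mul_le_mul_of_nonneg_right
      (show Qn * (Cd + Ca) ≤ Qn * h0 + Qn * (Cd + Cb + Ca) + 1 by
      linarith [mul_add Qn (Cd + Cb) Ca, mul_add Qn Cd Cb, mul_add Qn Cd Ca]) u2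
    have a3 := mul_le_mul_of_nonneg_right (show Qn * Cb ≤ Qn * h0 + Qn * (Cd + Cb + Ca) + 1 by
      linarith [mul_add Qn (Cd + Cb) Ca, mul_add Qn Cd Cb]) u3
    have a4 := mul_le_mul_of_nonneg_right (show (1 : ℝ) ≤ Qn * h0 + Qn * (Cd + Cb + Ca) + 1 by
      linarith [mul_add Qn (Cd + Cb) Ca, mul_add Qn Cd Cb]) u4
    rw [mul_add, mul_add, mul_add]
    linarith
  have e3 := mul_le_mul_of_nonneg_left e2 u5
  have e4 : 2 * (Qn * h0 + Qn * (Cd + Cb + Ca) + 1) * TB * (E0 / PH + L * (E0 / PH) ^ 2 *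
        (1 / W + N1 / E0 + 1 / V1 + VX / E0 ^ 2)) =
      2 * ((Qn * h0 + Qn * (Cd + Cb + Ca) + 1) * (TB * (E0 / PH)) + TB * (L * (E0 / PH) ^ 2) *
        ((Qn * h0 + Qn * (Cd + Cb + Ca) + 1) *
          (1 / W + N1 / E0 + 1 / V1 + VX / E0 ^ 2))) := by ring
  rw [e4]
  linarith

private theorem TotZ1_X {O : Type} {n : ℕ} (G : Finset (Vc n O)) (X : Finset (Vc n O × Vc n O)) :
    ∑ x ∈ G, ((G.filter fun y => (x, y) ∈ X).card : ℝ) ≤ (X.card : ℝ) := by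
  have h : ∑ x ∈ G, (G.filter fun y => (x, y) ∈ X).card ≤ X.card := by
    rw [← Finset.card_sigma]
    refine Finset.card_le_card_of_injOn (fun p => (p.1, p.2)) ?_ ?_
    · rintro ⟨x, y⟩ hxy
      have h1 := (Finset.mem_sigma.1 hxy).2
      exact (Finset.mem_filter.1 h1).2
    · rintro ⟨x, y⟩ _ ⟨x', y'⟩ _ e
      obtain ⟨e1, e2⟩ := Prod.mk.inj e
      subst e1
      subst e2
      rfl
  exact_mod_cast h

namespace TC
variable {K O P : Type} [Field K] [CommRing O] [IsDedekindDomain O] [Algebra O K]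
  [IsFractionRing O K] [CommRing P] [IsDedekindDomain P] [Algebra P K]
  [IsFractionRing P K] (T : TC K O P)

private theorem TotZ1_card {n r : ℕ} (d : Fin r → ℕ) (a : ℕ) :
    ((T.TBox n d a).card : ℝ) = ∏ i, (T.h a : ℝ) ^ (n + 1) ^ d i := by
  unfold TBox
  rw [Fintype.card_piFinset, Nat.cast_prod]
  refine Finset.prod_congr rfl fun i _ => ?_
  rw [T.card_Box, Nat.cast_pow]

private theorem TotZ1_hp {r : ℕ} (d : Fin r → ℕ) (a b : ℕ) :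
    0 < ∏ i, (T.h (a + d i * b) : ℝ) :=
  Finset.prod_pos fun i _ => by exact_mod_cast T.h_pos _

private theorem TotZ1_prod {n r : ℕ} (d : Fin r → ℕ) {a b : ℕ} {lam : ℝ} (x y : Vc n O)
    (h1 : ∀ i, (T.n2 (d i) x y a : ℝ) * (T.h (a + d i * b) : ℝ) ^ 2 ≤
        lam * (T.h a : ℝ) ^ (n + 1) ^ d i * T.nD b x y) :
    ∏ i, (T.n2 (d i) x y a : ℝ) ≤ lam ^ r * ((T.TBox n d a).card : ℝ) /
      (∏ i, (T.h (a + d i * b) : ℝ)) ^ 2 * (T.nD b x y : ℝ) ^ r := by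
  rw [div_mul_eq_mul_div, le_div_iff₀ (pow_pos (T.TotZ1_hp d a b) 2), ← Finset.prod_pow,
    ← Finset.prod_mul_distrib]
  refine (Finset.prod_le_prod (fun i _ => by positivity) fun i _ => h1 i).trans (le_of_eq ?_)
  rw [Finset.prod_mul_distrib, Finset.prod_mul_distrib, TotZ1_card, Finset.prod_const,
    Finset.prod_const, Finset.card_univ, Fintype.card_fin]

private theorem TotZ1_prp {n r : ℕ} (d : Fin r → ℕ) {a b g : ℕ} {x : Vc n O}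
    (hx : x ∈ T.GG n b g) (ha : g + T.c1 ≤ a) (y : Vc n O) :
    ∏ i, (T.n2 (d i) x y a : ℝ) ≤
      ((T.TBox n d a).card : ℝ) / ∏ i, (T.h (a + d i * b) : ℝ) := by
  rw [le_div_iff₀ (T.TotZ1_hp d a b), ← Finset.prod_mul_distrib, TotZ1_card]
  refine Finset.prod_le_prod (fun i _ => by positivity) fun i _ => ?_
  have h3 : T.n2 (d i) x y a * T.h (a + d i * b) ≤ T.h a ^ (n + 1) ^ d i := by
    rw [← T.n1_eq (a := a) (d i) hx ha]
    exact Nat.mul_le_mul_right _ (T.n2_le_n1 (a := a) (d i) x y)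
  exact_mod_cast h3

private theorem TotZ1_inner {n r : ℕ} {b g w V : ℕ} (X : Finset (Vc n O × Vc n O))
    {x : Vc n O} (hx : x ∈ T.GG n b g) (B : Vc n O → Prop) (hB : ∀ y, B y → Prp x y ∨
      ¬ (WD O w ≤ Dd x y ∧ WD P w ≤ Dd (T.vtw b x) (T.vtw b y)) ∨ (x, y) ∈ X)
    {f : Vc n O → ℝ} {pp cc A1 A2 A3 : ℝ} (hpp : 0 ≤ pp)
    (hcc : 0 ≤ cc) (hf1 : ∀ y, f y ≤ pp)
    (hf2 : ∀ y ∈ T.GG n b g, ¬ Prp x y → f y ≤ cc * (T.nD b x y : ℝ) ^ r)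
    (h1 : ∑ y ∈ (T.GG n b g).filter (fun y => ¬ Prp x y ∧
        ¬ (WD O w ≤ Dd x y ∧ WD P w ≤ Dd (T.vtw b x) (T.vtw b y))), (T.nD b x y : ℝ) ^ r ≤ A1)
    (h2 : ∑ y ∈ (T.GG n b g).filter (fun y => ¬ Prp x y ∧ V < T.nD b x y ∧ T.nD b x y ≤ T.Q ^ b),
      (T.nD b x y : ℝ) ^ r ≤ A2)
    (h3 : ∑ y ∈ (T.GG n b g).filter (fun y => ¬ Prp x y ∧ T.Q ^ b < T.nD b x y),
      (T.nD b x y : ℝ) ^ r ≤ A3) :
    ∑ y ∈ (T.GG n b g).filter (fun y => B y), f y ≤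
      (T.h 0 : ℝ) * pp + cc * (A1 + (A2 + A3)) +
        cc * ((V : ℝ) ^ r * (((T.GG n b g).filter fun y => (x, y) ∈ X).card : ℝ)) := by
  have e1 : ∑ y ∈ T.GG n b g, (if Prp x y then pp else 0) ≤ (T.h 0 : ℝ) * pp := by
    rw [← Finset.sum_filter, Finset.sum_const, nsmul_eq_mul]
    exact mul_le_mul_of_nonneg_right (by exact_mod_cast T.prp_cnt hx) hpp
  have e2 : ∑ y ∈ T.GG n b g, (if (x, y) ∈ X then (V : ℝ) ^ r else 0) =
      (V : ℝ) ^ r * (((T.GG n b g).filter fun y => (x, y) ∈ X).card : ℝ) := by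
    rw [← Finset.sum_filter, Finset.sum_const, nsmul_eq_mul, mul_comm]
  rw [Finset.sum_filter] at h1 h2 h3
  have hD : ∀ y : Vc n O, (0 : ℝ) ≤ (T.nD b x y : ℝ) ^ r := fun y => by positivity
  have key : ∀ y ∈ T.GG n b g, (if B y then f y else 0) ≤
      (if Prp x y then pp else 0) + cc * ((if ¬ Prp x y ∧
        ¬ (WD O w ≤ Dd x y ∧ WD P w ≤ Dd (T.vtw b x) (T.vtw b y)) then (T.nD b x y : ℝ) ^ r else 0) +
        ((if ¬ Prp x y ∧ V < T.nD b x y ∧ T.nD b x y ≤ T.Q ^ b then (T.nD b x y : ℝ) ^ r else 0) +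
        (if ¬ Prp x y ∧ T.Q ^ b < T.nD b x y then (T.nD b x y : ℝ) ^ r else 0))) +
      cc * (if (x, y) ∈ X then (V : ℝ) ^ r else 0) := by
    intro y hy
    have q1 : (0 : ℝ) ≤ (if Prp x y then pp else 0) := by
      split_ifs
      · exact hpp
      · exact le_rfl
    have q2 : (0 : ℝ) ≤ (if ¬ Prp x y ∧
        ¬ (WD O w ≤ Dd x y ∧ WD P w ≤ Dd (T.vtw b x) (T.vtw b y)) then
          (T.nD b x y : ℝ) ^ r else 0) := by
      split_ifs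
      · exact hD y
      · exact le_rfl
    have q3 : (0 : ℝ) ≤ (if ¬ Prp x y ∧ V < T.nD b x y ∧ T.nD b x y ≤ T.Q ^ b then
        (T.nD b x y : ℝ) ^ r else 0) := by
      split_ifs
      · exact hD y
      · exact le_rfl
    have q4 : (0 : ℝ) ≤ (if ¬ Prp x y ∧ T.Q ^ b < T.nD b x y then
        (T.nD b x y : ℝ) ^ r else 0) := by
      split_ifs
      · exact hD y
      · exact le_rfl
    have q5 : (0 : ℝ) ≤ (if (x, y) ∈ X then (V : ℝ) ^ r else 0) := by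
      split_ifs
      · positivity
      · exact le_rfl
    have q6 : ∀ u v : ℝ, 0 ≤ u → 0 ≤ v → 0 ≤ cc * u + cc * v := fun u v hu hv =>
      add_nonneg (mul_nonneg hcc hu) (mul_nonneg hcc hv)
    by_cases hBy : B y
    swap
    · rw [if_neg hBy]
      have k2 := q6 _ _ (add_nonneg q2 (add_nonneg q3 q4)) q5
      linarith
    rw [if_pos hBy]
    by_cases hp : Prp x y
    · have k1 : (if Prp x y then pp else 0) = pp := if_pos hp
      have k2 := q6 _ _ (add_nonneg q2 (add_nonneg q3 q4)) q5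
      rw [k1]
      linarith [hf1 y]
    · by_cases hbad : ¬ (WD O w ≤ Dd x y ∧ WD P w ≤ Dd (T.vtw b x) (T.vtw b y))
      · rw [if_pos (⟨hp, hbad⟩ : ¬ Prp x y ∧
          ¬ (WD O w ≤ Dd x y ∧ WD P w ≤ Dd (T.vtw b x) (T.vtw b y)))]
        have k2 := q6 _ _ (add_nonneg q3 q4) q5
        rw [mul_add]
        linarith [hf2 y hy hp]
      · by_cases hX : (x, y) ∈ X
        · rw [if_pos hX]
          rw [if_pos hX] at q5
          have hf := hf2 y hy hp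
          rcases le_or_gt (T.nD b x y) V with hV | hV
          · have k3 : (T.nD b x y : ℝ) ^ r ≤ (V : ℝ) ^ r :=
              pow_le_pow_left₀ (by positivity) (by exact_mod_cast hV) r
            have k4 := mul_le_mul_of_nonneg_left k3 hcc
            have k5 := mul_nonneg hcc (add_nonneg q2 (add_nonneg q3 q4))
            linarith
          · rcases le_or_gt (T.nD b x y) (T.Q ^ b) with hQ | hQ
            · rw [if_pos (⟨hp, hV, hQ⟩ : ¬ Prp x y ∧ V < T.nD b x y ∧ T.nD b x y ≤ T.Q ^ b)]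
              have k5 := q6 _ _ (add_nonneg q2 q4) q5
              rw [mul_add, mul_add]
              rw [mul_add] at k5
              linarith
            · rw [if_pos (⟨hp, hQ⟩ : ¬ Prp x y ∧ T.Q ^ b < T.nD b x y)]
              have k5 := q6 _ _ (add_nonneg q2 q3) q5
              rw [mul_add, mul_add]
              rw [mul_add] at k5
              linarith
        · exact absurd (hB y hBy) (fun h => h.elim hp fun h => h.elim hbad hX)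
  have key2 := Finset.sum_le_sum key
  rw [Finset.sum_add_distrib, Finset.sum_add_distrib, ← Finset.mul_sum, ← Finset.mul_sum,
    Finset.sum_add_distrib, Finset.sum_add_distrib, e2, ← Finset.sum_filter] at key2
  have k6 := mul_le_mul_of_nonneg_left (add_le_add h1 (add_le_add h2 h3)) hcc
  linarith

theorem varTotG (n r : ℕ) (hn : r + 2 ≤ n) : ∃ C : ℝ, 1 ≤ C ∧
    ∀ (d : Fin r → ℕ) (a b g w V : ℕ) (lam : ℝ) (X : Finset (Vc n O × Vc n O)),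
    g + T.c1 ≤ a → 1 ≤ lam →
    (∀ i, ∀ x ∈ T.GG n b g, ∀ y ∈ T.GG n b g, ¬ Prp x y →
      (T.n2 (d i) x y a : ℝ) * (T.h (a + d i * b) : ℝ) ^ 2 ≤
        lam * (T.h a : ℝ) ^ (n + 1) ^ d i * T.nD b x y) →
    (∀ i, ∀ x ∈ T.GG n b g, ∀ y ∈ T.GG n b g, ¬ Prp x y → (x, y) ∉ X → WD O w ≤ Dd x y →
      WD P w ≤ Dd (T.vtw b x) (T.vtw b y) → ∀ m ∈ T.MS w (a + d i * b),
      ∀ m' ∈ T.MS w (a + d i * b), T.sl (d i) a x y m m' = T.n2 (d i) x y a) →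
    T.Qv (n := n) d a b g w ≤ C * ((T.TBox n d a).card : ℝ) *
      (T.EE n d a b + lam ^ r * T.EE n d a b ^ 2 *
        (1 / ((w : ℝ) + 1) + T.Ne n r b g + 1 / ((V : ℝ) + 1) +
          (V : ℝ) ^ r * (X.card : ℝ) / (T.Q : ℝ) ^ (2 * (b * (n + 1))))) := by
  obtain ⟨Cd, hCd, hd⟩ := T.psBad n r hn
  obtain ⟨Cb, hCb, hb⟩ := T.beta n r hn
  obtain ⟨Ca, hCa, ha⟩ := T.alpha n r
  have hQ : (0 : ℝ) < (T.Q : ℝ) := by linarith [T.two_le_Q]
  have hQn : (0 : ℝ) ≤ (T.Q : ℝ) ^ (n + 1) := (pow_pos hQ _).le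
  have hh0 : (0 : ℝ) ≤ (T.h 0 : ℝ) := Nat.cast_nonneg _
  refine ⟨2 * ((T.Q : ℝ) ^ (n + 1) * (T.h 0 : ℝ) + (T.Q : ℝ) ^ (n + 1) * (Cd + Cb + Ca) + 1), ?_,
    ?_⟩
  · have k1 : 0 ≤ (T.Q : ℝ) ^ (n + 1) * (T.h 0 : ℝ) := mul_nonneg hQn hh0
    have k2 : 0 ≤ (T.Q : ℝ) ^ (n + 1) * (Cd + Cb + Ca) := mul_nonneg hQn (by linarith)
    linarith
  intro d a b g w V lam X hga hlam h1 h2
  have hPH := T.TotZ1_hp d a b
  have hTB : (0 : ℝ) ≤ ((T.TBox n d a).card : ℝ) := Nat.cast_nonneg _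
  have hL : 0 ≤ lam ^ r := pow_nonneg (by linarith) _
  have hpp : 0 ≤ ((T.TBox n d a).card : ℝ) / ∏ i, (T.h (a + d i * b) : ℝ) :=
    div_nonneg hTB hPH.le
  have hcc : 0 ≤ lam ^ r * ((T.TBox n d a).card : ℝ) / (∏ i, (T.h (a + d i * b) : ℝ)) ^ 2 :=
    div_nonneg (mul_nonneg hL hTB) (pow_nonneg hPH.le _)
  obtain ⟨B, hB0⟩ : ∃ B : Vc n O → Vc n O → Prop, B = fun x y => Prp x y ∨
      ¬ (WD O w ≤ Dd x y ∧ WD P w ≤ Dd (T.vtw b x) (T.vtw b y)) ∨ (x, y) ∈ X := ⟨_, rfl⟩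
  have hvar := T.varBoundG (n := n) d a b g w B
    (fun c => T.mem_M.2 ⟨T.zero_mem_H c, Ideal.zero_mem _, by rw [T.tw_zero]; exact Ideal.zero_mem _⟩)
    (fun i x _ y _ m m' => T.sl_le (d i) a x y m m')
    (fun i x hx y hy hB m hm m' hm' => by
      rw [hB0, not_or, not_or, not_not] at hB
      exact h2 i x hx y hy hB.1 hB.2.2 hB.2.1.1 hB.2.1.2 m hm m' hm')
  have hin : ∀ x ∈ T.GG n b g, ∑ y ∈ (T.GG n b g).filter (fun y => B x y),
        ∏ i, (T.n2 (d i) x y a : ℝ) ≤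
      (T.h 0 : ℝ) * (((T.TBox n d a).card : ℝ) / ∏ i, (T.h (a + d i * b) : ℝ)) +
        lam ^ r * ((T.TBox n d a).card : ℝ) / (∏ i, (T.h (a + d i * b) : ℝ)) ^ 2 *
        (Cd * ((T.Q : ℝ) ^ (b * (n + 1)) / (w + 1) + (T.Q : ℝ) ^ (g * n + (g + b) * (r + 1))) +
          (Cb * ((T.Q : ℝ) ^ (b * (n + 1)) / (V + 1)) +
            Ca * (T.Q : ℝ) ^ (g * n + (g + b) * (r + 1)))) +
        lam ^ r * ((T.TBox n d a).card : ℝ) / (∏ i, (T.h (a + d i * b) : ℝ)) ^ 2 *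
          ((V : ℝ) ^ r * (((T.GG n b g).filter fun y => (x, y) ∈ X).card : ℝ)) := by
    intro x hx
    exact T.TotZ1_inner X hx (B x) (fun y hy => by rw [hB0] at hy; exact hy) hpp hcc (fun y => T.TotZ1_prp d hx hga y)
      (fun y hy hp => T.TotZ1_prod d x y fun i => h1 i x hx y hy hp)
      (hd b g w x hx) (hb b g V x hx) (ha b g x hx)
  have hsum := Finset.sum_le_sum hin
  rw [Finset.sum_add_distrib, Finset.sum_const, nsmul_eq_mul, ← Finset.mul_sum,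
    ← Finset.mul_sum] at hsum
  have hX := mul_le_mul_of_nonneg_left (mul_le_mul_of_nonneg_left
    (TotZ1_X (T.GG n b g) X) (pow_nonneg (Nat.cast_nonneg V) r : (0 : ℝ) ≤ (V : ℝ) ^ r)) hcc
  have hs : ((T.GG n b g).card : ℝ) ≤ (T.Q : ℝ) ^ (n + 1) * (T.Q : ℝ) ^ (b * (n + 1)) := by
    have k1 : (T.GG n b g).card ≤ T.Q ^ (n + 1) * T.Q ^ (b * (n + 1)) := by
      refine (Finset.card_le_card (Finset.filter_subset _ _)).trans ?_
      rw [T.card_VB]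
      refine (Nat.pow_le_pow_left (T.h_up b) (n + 1)).trans (le_of_eq ?_)
      rw [← pow_mul, ← pow_add]
      congr 1
      ring
    exact_mod_cast k1
  have halg := TotZ1_alg (s := ((T.GG n b g).card : ℝ)) (Qn := (T.Q : ℝ) ^ (n + 1))
    (E0 := (T.Q : ℝ) ^ (b * (n + 1))) (PH := ∏ i, (T.h (a + d i * b) : ℝ))
    (TB := ((T.TBox n d a).card : ℝ)) (L := lam ^ r) (h0 := (T.h 0 : ℝ)) (Cd := Cd) (Cb := Cb)
    (Ca := Ca) (N1 := (T.Q : ℝ) ^ (g * n + (g + b) * (r + 1))) (W := (w : ℝ) + 1)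
    (V1 := (V : ℝ) + 1) (VX := (V : ℝ) ^ r * (X.card : ℝ)) (pow_pos hQ _) hPH hTB hL hs hQn hh0
    (by linarith) (by linarith) (by linarith) (pow_pos hQ _).le (by positivity) (by positivity)
    (by positivity)
  have e0 : ((T.Q : ℝ) ^ (b * (n + 1))) ^ 2 = (T.Q : ℝ) ^ (2 * (b * (n + 1))) := by
    rw [← pow_mul, mul_comm]
  rw [e0] at halg
  refine le_trans ?_ halg
  refine hvar.trans (mul_le_mul_of_nonneg_left ?_ (by norm_num))
  exact hsum.trans (add_le_add le_rfl hX)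

end TC

end Pool.Agent.Lib.MP_1ad228_ntZ
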