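import Pool.Agent.Lib.MP_1ad228_ntZ.EEZ
import Pool.Agent.Lib.MP_1ad228_ntZ.PairSum

/-!
LEAF TotZ2.  First and second moment of the number of test points.
oneTot: exchange the sums; for `x ∈ GG` the number of `F ∈ TBox` with all `ev (F i) x = 0` is `∏ n1 (d i) x a`
(`TBox = Fintype.piFinset`, the filter is again a piFinset, `Fintype.card_piFinset`), and `n1 * h (a + d i b) = h a^((n+1)^d i)` (n1_eq); card_TBox / card_Box.
pairTot: `∑_F Nn^2 = ∑_x ∑_y #{F | all ev (F i) x = 0 and ev (F i) y = 0} = ∑_x ∑_y ∏ n2 (d i) x y a`.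
Pairs with `Prp x y`: `∏ n2 ≤ ∏ n1 = #TBox / ∏ h` (n2_le_n1), at most `h 0` values `y` (prp_cnt).
Other pairs: `∏ n2 ≤ lam^r #TBox nD^r / (∏ h)^2` (hypothesis), psAll for the sum over `y`.
`#GG ≤ #VB = h b^(n+1) ≤ Q^(n+1) Q^(b(n+1))` (card_VB, h_up).  `C := Q^(n+1) (h 0 + Call) + 1`.
-/

namespace Pool.Agent.Lib.MP_1ad228_ntZ

open Classical

namespace TC
variable {K O P : Type} [Field K] [CommRing O] [IsDedekindDomain O] [Algebra O K]
  [IsFractionRing O K] [CommRing P] [IsDedekindDomain P] [Algebra P K]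
  [IsFractionRing P K] (T : TC K O P)

omit [IsDedekindDomain O] [IsFractionRing O K] [IsDedekindDomain P] [IsFractionRing P K] in
private theorem TotZ2_card {n r : ℕ} (d : Fin r → ℕ) (a : ℕ) (p : (i : Fin r) → Ten n (d i) O → Prop) :
    ((T.TBox n d a).filter fun F => ∀ i, p i (F i)).card =
      ∏ i, ((T.Box n (d i) a).filter fun G => p i G).card := by
  rw [← Fintype.card_piFinset]
  congr 1
  ext F
  unfold TBox
  rw [Finset.mem_filter, Fintype.mem_piFinset, Fintype.mem_piFinset]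
  constructor
  · rintro ⟨h1, h2⟩ i
    exact Finset.mem_filter.2 ⟨h1 i, h2 i⟩
  · intro h
    exact ⟨fun i => (Finset.mem_filter.1 (h i)).1, fun i => (Finset.mem_filter.1 (h i)).2⟩

private theorem TotZ2_TB {n r : ℕ} (d : Fin r → ℕ) (a : ℕ) :
    ((T.TBox n d a).card : ℝ) = ∏ i, (T.h a : ℝ) ^ (n + 1) ^ d i := by
  unfold TBox
  rw [Fintype.card_piFinset]
  push_cast
  exact Finset.prod_congr rfl fun i _ => by rw [T.card_Box, Nat.cast_pow]

private theorem TotZ2_n1 {n r : ℕ} (d : Fin r → ℕ) {a b g : ℕ} (ha : g + T.c1 ≤ a) {x : Vc n O}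
    (hx : x ∈ T.GG n b g) : (∏ i, (T.n1 (d i) x a : ℝ)) * ∏ i, (T.h (a + d i * b) : ℝ) =
      ((T.TBox n d a).card : ℝ) := by
  rw [← Finset.prod_mul_distrib, TotZ2_TB]
  refine Finset.prod_congr rfl fun i _ => ?_
  exact_mod_cast T.n1_eq (d i) hx ha

theorem oneTot {n r : ℕ} (d : Fin r → ℕ) {a b g : ℕ} (ha : g + T.c1 ≤ a) :
    (∑ F ∈ T.TBox n d a, (T.Nn b g F : ℝ)) * ∏ i, (T.h (a + d i * b) : ℝ) =
      ((T.GG n b g).card : ℝ) * ((T.TBox n d a).card : ℝ) := by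
  have h1 : ∑ F ∈ T.TBox n d a, T.Nn b g F = ∑ x ∈ T.GG n b g, ∏ i, T.n1 (d i) x a := by
    have h2 : ∀ F : Tup n d O, T.Nn b g F = ∑ x ∈ T.GG n b g, if ∀ i, ev (F i) x = 0 then 1 else 0 :=
      fun F => by
        unfold TC.Nn
        rw [Finset.card_filter]
    rw [Finset.sum_congr rfl fun F _ => h2 F, Finset.sum_comm]
    refine Finset.sum_congr rfl fun x _ => ?_
    rw [← Finset.card_filter]
    exact T.TotZ2_card d a fun i G => ev G x = 0
  have h3 : ∑ F ∈ T.TBox n d a, (T.Nn b g F : ℝ) = ∑ x ∈ T.GG n b g, ∏ i, (T.n1 (d i) x a : ℝ) := by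
    exact_mod_cast h1
  rw [h3, Finset.sum_mul, Finset.sum_congr rfl fun x hx => T.TotZ2_n1 d ha hx, Finset.sum_const,
    nsmul_eq_mul]

omit [IsDedekindDomain O] [IsFractionRing O K] [IsDedekindDomain P] [IsFractionRing P K] in
private theorem TotZ2_sq {n r : ℕ} (d : Fin r → ℕ) (a b g : ℕ) :
    ∑ F ∈ T.TBox n d a, (T.Nn b g F : ℝ) ^ 2 =
      ∑ x ∈ T.GG n b g, ∑ y ∈ T.GG n b g, ∏ i, (T.n2 (d i) x y a : ℝ) := by
  have h2 : ∀ F : Tup n d O, (T.Nn b g F : ℝ) ^ 2 = ∑ x ∈ T.GG n b g, ∑ y ∈ T.GG n b g,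
      if ∀ i, ev (F i) x = 0 ∧ ev (F i) y = 0 then (1 : ℝ) else 0 := by
    intro F
    have h3 : (T.Nn b g F : ℝ) = ∑ x ∈ T.GG n b g, if ∀ i, ev (F i) x = 0 then (1 : ℝ) else 0 := by
      unfold TC.Nn
      rw [Finset.card_filter]
      push_cast
      rfl
    rw [h3, sq, Finset.sum_mul_sum]
    refine Finset.sum_congr rfl fun x _ => Finset.sum_congr rfl fun y _ => ?_
    by_cases hx : ∀ i, ev (F i) x = 0
    · by_cases hy : ∀ i, ev (F i) y = 0
      · rw [if_pos hx, if_pos hy, if_pos fun i => ⟨hx i, hy i⟩, mul_one]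
      · rw [if_neg hy, mul_zero, if_neg fun h => hy fun i => (h i).2]
    · rw [if_neg hx, zero_mul, if_neg fun h => hx fun i => (h i).1]
  rw [Finset.sum_congr rfl fun F _ => h2 F, Finset.sum_comm]
  refine Finset.sum_congr rfl fun x _ => ?_
  rw [Finset.sum_comm]
  refine Finset.sum_congr rfl fun y _ => ?_
  rw [Finset.sum_boole, ← Nat.cast_prod]
  refine congrArg (Nat.cast (R := ℝ)) ?_
  refine Eq.trans ?_ ((T.TotZ2_card d a fun i G => ev G x = 0 ∧ ev G y = 0).trans ?_)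
  · congr
  · refine Finset.prod_congr rfl fun i _ => ?_
    unfold n2
    congr

theorem pairTot (n r : ℕ) (hn : r + 2 ≤ n) : ∃ C : ℝ, 1 ≤ C ∧
    ∀ (d : Fin r → ℕ) (a b g : ℕ) (lam : ℝ), g + T.c1 ≤ a → 1 ≤ lam →
    (∀ i, ∀ x ∈ T.GG n b g, ∀ y ∈ T.GG n b g, ¬ Prp x y →
      (T.n2 (d i) x y a : ℝ) * (T.h (a + d i * b) : ℝ) ^ 2 ≤
        lam * (T.h a : ℝ) ^ (n + 1) ^ d i * T.nD b x y) →
    ∑ F ∈ T.TBox n d a, (T.Nn b g F : ℝ) ^ 2 ≤ C * ((T.TBox n d a).card : ℝ) *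
      (T.EE n d a b + lam ^ r * T.EE n d a b ^ 2 * (1 + T.Ne n r b g)) := by
  obtain ⟨Ca, hCa, hps⟩ := T.psAll n r hn
  have hQ := T.two_le_Q
  refine ⟨(T.Q : ℝ) ^ (n + 1) * (T.h 0 + Ca) + 1, ?_, ?_⟩
  · have : 0 ≤ (T.Q : ℝ) ^ (n + 1) * (T.h 0 + Ca) := by positivity
    linarith
  intro d a b g lam ha hlam hyp
  -- abbreviations
  obtain ⟨H, hH⟩ : ∃ H : ℝ, H = ∏ i, (T.h (a + d i * b) : ℝ) := ⟨_, rfl⟩
  obtain ⟨B, hB⟩ : ∃ B : ℝ, B = ((T.TBox n d a).card : ℝ) := ⟨_, rfl⟩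
  obtain ⟨q, hq⟩ : ∃ q : ℝ, q = (T.Q : ℝ) ^ (b * (n + 1)) := ⟨_, rfl⟩
  obtain ⟨q1, hq1⟩ : ∃ q1 : ℝ, q1 = (T.Q : ℝ) ^ (n + 1) := ⟨_, rfl⟩
  obtain ⟨Nv, hNv⟩ : ∃ Nv : ℝ, Nv = T.Ne n r b g := ⟨_, rfl⟩
  have hh : ∀ i, (0 : ℝ) < (T.h (a + d i * b) : ℝ) := fun i => by exact_mod_cast T.h_pos _
  have hH0 : 0 < H := by rw [hH]; exact Finset.prod_pos fun i _ => hh i
  have hB0 : 0 ≤ B := by rw [hB]; exact Nat.cast_nonneg _
  have hq0 : 0 < q := by rw [hq]; exact pow_pos (by linarith) _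
  have hq10 : 0 < q1 := by rw [hq1]; exact pow_pos (by linarith) _
  have hN0 : 0 ≤ Nv := by rw [hNv]; exact T.Ne_nonneg n r b g
  have hE : T.EE n d a b = q / H := by rw [hq, hH]; rfl
  have hlam0 : 0 ≤ lam ^ r := pow_nonneg (by linarith) _
  -- near pairs
  have hnear : ∀ x ∈ T.GG n b g, ∀ y : Vc n O, ∏ i, (T.n2 (d i) x y a : ℝ) ≤ B / H := by
    intro x hx y
    rw [le_div_iff₀ hH0, hB, ← T.TotZ2_n1 d ha hx, hH]
    refine mul_le_mul_of_nonneg_right (Finset.prod_le_prod (fun i _ => Nat.cast_nonneg _) fun i _ => ?_)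
      (Finset.prod_nonneg fun i _ => (hh i).le)
    exact_mod_cast T.n2_le_n1 (d i) x y
  -- far pairs
  have hfar : ∀ x ∈ T.GG n b g, ∀ y ∈ T.GG n b g, ¬ Prp x y →
      ∏ i, (T.n2 (d i) x y a : ℝ) ≤ lam ^ r * B / H ^ 2 * (T.nD b x y : ℝ) ^ r := by
    intro x hx y hy hxy
    have h1 : (∏ i, (T.n2 (d i) x y a : ℝ)) * H ^ 2 ≤ lam ^ r * B * (T.nD b x y : ℝ) ^ r := by
      have h2 : (∏ i, (T.n2 (d i) x y a : ℝ)) * H ^ 2 =
          ∏ i, ((T.n2 (d i) x y a : ℝ) * (T.h (a + d i * b) : ℝ) ^ 2) := by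
        rw [hH, ← Finset.prod_pow, ← Finset.prod_mul_distrib]
      have h3 : lam ^ r * B * (T.nD b x y : ℝ) ^ r =
          ∏ i : Fin r, (lam * (T.h a : ℝ) ^ (n + 1) ^ d i * T.nD b x y) := by
        rw [Finset.prod_mul_distrib, Finset.prod_mul_distrib, ← T.TotZ2_TB d a, ← hB,
          Finset.prod_const, Finset.prod_const, Finset.card_univ, Fintype.card_fin]
      rw [h2, h3]
      exact Finset.prod_le_prod (fun i _ => by positivity) fun i _ => hyp i x hx y hy hxy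
    rw [div_mul_eq_mul_div, le_div_iff₀ (by positivity)]
    exact h1
  -- one x
  have hone : ∀ x ∈ T.GG n b g, ∑ y ∈ T.GG n b g, ∏ i, (T.n2 (d i) x y a : ℝ) ≤
      T.h 0 * (B / H) + lam ^ r * B / H ^ 2 * (Ca * (q * (1 + Nv))) := by
    intro x hx
    rw [← Finset.sum_filter_add_sum_filter_not (T.GG n b g) (fun y => Prp x y)]
    refine add_le_add ?_ ?_
    · calc ∑ y ∈ (T.GG n b g).filter (fun y => Prp x y), ∏ i, (T.n2 (d i) x y a : ℝ)
          ≤ ∑ _y ∈ (T.GG n b g).filter (fun y => Prp x y), B / H :=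
            Finset.sum_le_sum fun y _ => hnear x hx y
        _ = (((T.GG n b g).filter (fun y => Prp x y)).card : ℝ) * (B / H) := by
            rw [Finset.sum_const, nsmul_eq_mul]
        _ ≤ (T.h 0 : ℝ) * (B / H) := by
            refine mul_le_mul_of_nonneg_right ?_ (div_nonneg hB0 hH0.le)
            exact_mod_cast T.prp_cnt hx
    · calc ∑ y ∈ (T.GG n b g).filter (fun y => ¬ Prp x y), ∏ i, (T.n2 (d i) x y a : ℝ)
          ≤ ∑ y ∈ (T.GG n b g).filter (fun y => ¬ Prp x y),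
              lam ^ r * B / H ^ 2 * (T.nD b x y : ℝ) ^ r :=
            Finset.sum_le_sum fun y hy => hfar x hx y (Finset.mem_filter.1 hy).1
              (Finset.mem_filter.1 hy).2
        _ = lam ^ r * B / H ^ 2 * ∑ y ∈ (T.GG n b g).filter (fun y => ¬ Prp x y),
              (T.nD b x y : ℝ) ^ r := by rw [Finset.mul_sum]
        _ ≤ lam ^ r * B / H ^ 2 * (Ca * (q * (1 + Nv))) := by
            refine mul_le_mul_of_nonneg_left ?_ (by positivity)
            refine (hps b g x hx).trans (le_of_eq ?_)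
            rw [hNv, hq]
            unfold Ne
            have h4 : (T.Q : ℝ) ^ (b * (n + 1)) ≠ 0 := pow_ne_zero _ (by linarith)
            field_simp
  -- the number of test points
  have hG : ((T.GG n b g).card : ℝ) ≤ q1 * q := by
    have h1 : (T.GG n b g).card ≤ (T.VB n b).card := by
      unfold GG
      exact Finset.card_filter_le _ _
    rw [T.card_VB] at h1
    have h2 : T.h b ^ (n + 1) ≤ (T.Q ^ (b + 1)) ^ (n + 1) := Nat.pow_le_pow_left (T.h_up b) _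
    have h3 : (T.Q ^ (b + 1)) ^ (n + 1) = T.Q ^ (n + 1) * T.Q ^ (b * (n + 1)) := by
      rw [← pow_mul, ← pow_add]
      congr 1
      ring
    rw [h3] at h2
    rw [hq1, hq]
    exact_mod_cast h1.trans h2
  rw [T.TotZ2_sq d a b g, hE, ← hB, ← hNv, ← hq1]
  have hR0 : 0 ≤ T.h 0 * (B / H) + lam ^ r * B / H ^ 2 * (Ca * (q * (1 + Nv))) := by
    have : 0 ≤ Ca := by linarith
    positivity
  calc ∑ x ∈ T.GG n b g, ∑ y ∈ T.GG n b g, ∏ i, (T.n2 (d i) x y a : ℝ)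
      ≤ ∑ _x ∈ T.GG n b g, (T.h 0 * (B / H) + lam ^ r * B / H ^ 2 * (Ca * (q * (1 + Nv)))) :=
        Finset.sum_le_sum hone
    _ = ((T.GG n b g).card : ℝ) * (T.h 0 * (B / H) + lam ^ r * B / H ^ 2 * (Ca * (q * (1 + Nv)))) := by
        rw [Finset.sum_const, nsmul_eq_mul]
    _ ≤ q1 * q * (T.h 0 * (B / H) + lam ^ r * B / H ^ 2 * (Ca * (q * (1 + Nv)))) :=
        mul_le_mul_of_nonneg_right hG hR0
    _ = q1 * T.h 0 * B * (q / H) + q1 * Ca * B * (lam ^ r * (q / H) ^ 2 * (1 + Nv)) := by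
        field_simp
    _ ≤ (q1 * (T.h 0 + Ca) + 1) * B * (q / H + lam ^ r * (q / H) ^ 2 * (1 + Nv)) := by
        have h0 : (0 : ℝ) ≤ T.h 0 := Nat.cast_nonneg _
        have hCa0 : 0 ≤ Ca := by linarith
        have e1 : 0 ≤ B * (q / H) := by positivity
        have e2 : 0 ≤ B * (lam ^ r * (q / H) ^ 2 * (1 + Nv)) := by positivity
        have e3 := mul_nonneg (mul_nonneg hq10.le h0) e2
        have e4 := mul_nonneg (mul_nonneg hq10.le hCa0) e1
        nlinarith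

end TC

end Pool.Agent.Lib.MP_1ad228_ntZ
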