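import Pool.Agent.Lib.MP_1ad228_ntZ.Defs

/-!
MP_1ad228_ntZ, file Var.  The variance is at most twice the sum of `∏ n2` over the pairs of test points which are
proportional or bad; the good pairs contribute exactly 0.
-/

namespace Pool.Agent.Lib.MP_1ad228_ntZ

open Classical

namespace TC
variable {K O P : Type} [Field K] [CommRing O] [Algebra O K] [CommRing P] [Algebra P K]
  (T : TC K O P)

/-- Indicator of `ev a x = m`. -/
private noncomputable def varD {n d : ℕ} (x : Vc n O) (m : O) (a : Ten n d O) : ℝ :=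
  if ev a x = m then 1 else 0

/-- The local function. -/
private noncomputable def varL {n d : ℕ} (S : Finset O) (x : Vc n O) (a : Ten n d O) : ℝ :=
  (1 / (S.card : ℝ)) * ∑ m ∈ S, varD x m a

private theorem varL_eq {n d : ℕ} (S : Finset O) (x : Vc n O) (a : Ten n d O) :
    varL S x a = if ev a x ∈ S then 1 / (S.card : ℝ) else 0 := by
  unfold varL varD
  rw [Finset.sum_ite_eq]
  by_cases h : ev a x ∈ S
  · rw [if_pos h, if_pos h, mul_one]
  · rw [if_neg h, if_neg h, mul_zero]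

private theorem var_sl {n : ℕ} (d c : ℕ) (x y : Vc n O) (m m' : O) :
    (T.sl d c x y m m' : ℝ) = ∑ a ∈ T.Box n d c, varD x m a * varD y m' a := by
  unfold TC.sl varD
  rw [Finset.card_filter, Nat.cast_sum]
  refine Finset.sum_congr rfl fun a _ => ?_
  by_cases h1 : ev a x = m
  · by_cases h2 : ev a y = m'
    · rw [if_pos ⟨h1, h2⟩, if_pos h1, if_pos h2]; norm_num
    · rw [if_neg (fun h => h2 h.2), if_neg h2]; norm_num
  · rw [if_neg (fun h => h1 h.1), if_neg h1]; norm_num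

private theorem var_LD {n : ℕ} (d c : ℕ) (S : Finset O) (x y : Vc n O) :
    ∑ a ∈ T.Box n d c, varL S x a * varD y 0 a =
      (1 / (S.card : ℝ)) * ∑ m ∈ S, (T.sl d c x y m 0 : ℝ) := by
  simp only [var_sl, varL]
  rw [Finset.sum_comm, Finset.mul_sum]
  refine Finset.sum_congr rfl fun a _ => ?_
  rw [← Finset.sum_mul]
  ring

private theorem var_DL {n : ℕ} (d c : ℕ) (S : Finset O) (x y : Vc n O) :
    ∑ a ∈ T.Box n d c, varD x 0 a * varL S y a =
      (1 / (S.card : ℝ)) * ∑ m' ∈ S, (T.sl d c x y 0 m' : ℝ) := by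
  simp only [var_sl, varL]
  rw [Finset.sum_comm, Finset.mul_sum]
  refine Finset.sum_congr rfl fun a _ => ?_
  rw [← Finset.mul_sum]
  ring

private theorem var_LL {n : ℕ} (d c : ℕ) (S : Finset O) (x y : Vc n O) :
    ∑ a ∈ T.Box n d c, varL S x a * varL S y a =
      (1 / (S.card : ℝ)) * ((1 / (S.card : ℝ)) * ∑ m ∈ S, ∑ m' ∈ S, (T.sl d c x y m m' : ℝ)) := by
  simp only [var_sl, varL]
  have h1 : ∑ m ∈ S, ∑ m' ∈ S, ∑ a ∈ T.Box n d c, varD x m a * varD y m' a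
      = ∑ a ∈ T.Box n d c, (∑ m ∈ S, varD x m a) * ∑ m' ∈ S, varD y m' a := by
    calc ∑ m ∈ S, ∑ m' ∈ S, ∑ a ∈ T.Box n d c, varD x m a * varD y m' a
        = ∑ m ∈ S, ∑ a ∈ T.Box n d c, ∑ m' ∈ S, varD x m a * varD y m' a :=
          Finset.sum_congr rfl fun m _ => Finset.sum_comm
      _ = ∑ a ∈ T.Box n d c, ∑ m ∈ S, ∑ m' ∈ S, varD x m a * varD y m' a := Finset.sum_comm
      _ = _ := by
          refine Finset.sum_congr rfl fun a _ => ?_
          rw [Finset.sum_mul_sum]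
  rw [h1, Finset.mul_sum, Finset.mul_sum]
  refine Finset.sum_congr rfl fun a _ => ?_
  ring

private theorem var_prod {n r : ℕ} (d : Fin r → ℕ) (c : ℕ)
    (f g u v : (i : Fin r) → Ten n (d i) O → ℝ) :
    ∑ F ∈ T.TBox n d c, ((∏ i, f i (F i) - ∏ i, u i (F i)) *
      (∏ i, g i (F i) - ∏ i, v i (F i))) =
    ∏ i, (∑ a ∈ T.Box n (d i) c, f i a * g i a) - ∏ i, (∑ a ∈ T.Box n (d i) c, u i a * g i a)
      - ∏ i, (∑ a ∈ T.Box n (d i) c, f i a * v i a)
      + ∏ i, (∑ a ∈ T.Box n (d i) c, u i a * v i a) := by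
  unfold TC.TBox
  rw [Finset.prod_univ_sum, Finset.prod_univ_sum, Finset.prod_univ_sum, Finset.prod_univ_sum,
    ← Finset.sum_sub_distrib, ← Finset.sum_sub_distrib, ← Finset.sum_add_distrib]
  refine Finset.sum_congr rfl fun F _ => ?_
  simp only [Finset.prod_mul_distrib]
  ring

private theorem var_ind {r : ℕ} (p : Fin r → Prop) [DecidablePred p] [Decidable (∀ i, p i)]
    (c : Fin r → ℝ) :
    (if ∀ i, p i then ∏ i, c i else 0) = ∏ i, (if p i then c i else 0) := by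
  by_cases h : ∀ i, p i
  · rw [if_pos h]
    exact Finset.prod_congr rfl fun i _ => (if_pos (h i)).symm
  · rw [if_neg h]
    obtain ⟨i, hi⟩ := not_forall.1 h
    exact (Finset.prod_eq_zero (Finset.mem_univ i) (if_neg hi)).symm

/-- Contribution of a pair of test points. -/
private noncomputable def varE {n r : ℕ} (d : Fin r → ℕ) (a b w : ℕ) (x y : Vc n O) : ℝ :=
  ∑ F ∈ T.TBox n d a,
    ((∏ i, varD x 0 (F i) - ∏ i, varL (T.MS w (a + d i * b)) x (F i)) *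
      (∏ i, varD y 0 (F i) - ∏ i, varL (T.MS w (a + d i * b)) y (F i)))

private theorem var_E {n r : ℕ} (d : Fin r → ℕ) (a b w : ℕ) (x y : Vc n O) :
    T.varE d a b w x y =
      ∏ i, (T.sl (d i) a x y 0 0 : ℝ)
      - ∏ i, ((1 / ((T.MS w (a + d i * b)).card : ℝ)) *
          ∑ m ∈ T.MS w (a + d i * b), (T.sl (d i) a x y m 0 : ℝ))
      - ∏ i, ((1 / ((T.MS w (a + d i * b)).card : ℝ)) *
          ∑ m' ∈ T.MS w (a + d i * b), (T.sl (d i) a x y 0 m' : ℝ))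
      + ∏ i, ((1 / ((T.MS w (a + d i * b)).card : ℝ)) * ((1 / ((T.MS w (a + d i * b)).card : ℝ)) *
          ∑ m ∈ T.MS w (a + d i * b), ∑ m' ∈ T.MS w (a + d i * b), (T.sl (d i) a x y m m' : ℝ))) := by
  unfold varE
  rw [var_prod T d a (fun _ c => varD x 0 c) (fun _ c => varD y 0 c)
    (fun i c => varL (T.MS w (a + d i * b)) x c) (fun i c => varL (T.MS w (a + d i * b)) y c)]
  simp only [var_LD, var_DL, var_LL, ← var_sl]

private theorem var_expand {n r : ℕ} (d : Fin r → ℕ) (a b g w : ℕ) :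
    T.Qv (n := n) d a b g w = ∑ x ∈ T.GG n b g, ∑ y ∈ T.GG n b g, T.varE d a b w x y := by
  have hN : ∀ F : Tup n d O, (T.Nn b g F : ℝ) = ∑ x ∈ T.GG n b g, ∏ i, varD x 0 (F i) := by
    intro F
    unfold TC.Nn varD
    rw [Finset.card_filter, Nat.cast_sum]
    refine Finset.sum_congr rfl fun x _ => ?_
    rw [← var_ind (fun i => ev (F i) x = 0) (fun _ => 1), Finset.prod_const_one]
    by_cases h : ∀ i, ev (F i) x = 0
    · rw [if_pos h, if_pos h, Nat.cast_one]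
    · rw [if_neg h, if_neg h, Nat.cast_zero]
  have hL : ∀ F : Tup n d O, T.Ll a b g w F =
      ∑ x ∈ T.GG n b g, ∏ i, varL (T.MS w (a + d i * b)) x (F i) := by
    intro F
    unfold TC.Ll
    rw [Finset.card_filter, Nat.cast_sum, Finset.sum_div]
    refine Finset.sum_congr rfl fun x _ => ?_
    simp only [varL_eq]
    rw [← var_ind (fun i => ev (F i) x ∈ T.MS w (a + d i * b))
      (fun i => 1 / ((T.MS w (a + d i * b)).card : ℝ))]
    by_cases h : ∀ i, ev (F i) x ∈ T.MS w (a + d i * b)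
    · rw [if_pos h, if_pos h, Finset.prod_div_distrib, Finset.prod_const_one, Nat.cast_one]
    · rw [if_neg h, if_neg h, Nat.cast_zero, zero_div]
  have hQ : ∀ F : Tup n d O, ((T.Nn b g F : ℝ) - T.Ll a b g w F) ^ 2
      = ∑ x ∈ T.GG n b g, ∑ y ∈ T.GG n b g,
      ((∏ i, varD x 0 (F i) - ∏ i, varL (T.MS w (a + d i * b)) x (F i)) *
        (∏ i, varD y 0 (F i) - ∏ i, varL (T.MS w (a + d i * b)) y (F i))) := by
    intro F
    rw [hN, hL, ← Finset.sum_sub_distrib, sq, Finset.sum_mul_sum]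
  unfold TC.Qv
  rw [Finset.sum_congr rfl fun F _ => hQ F, Finset.sum_comm]
  refine Finset.sum_congr rfl fun x _ => ?_
  rw [Finset.sum_comm]
  rfl

private theorem var_avg (S : Finset O) (f : O → ℝ) {C : ℝ} (hC : 0 ≤ C)
    (h0 : ∀ m, 0 ≤ f m) (h1 : ∀ m, f m ≤ C) :
    0 ≤ (1 / (S.card : ℝ)) * ∑ m ∈ S, f m ∧ (1 / (S.card : ℝ)) * ∑ m ∈ S, f m ≤ C := by
  have hs : 0 ≤ ∑ m ∈ S, f m := Finset.sum_nonneg fun m _ => h0 m
  refine ⟨mul_nonneg (by positivity) hs, ?_⟩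
  rcases Nat.eq_zero_or_pos S.card with hc | hc
  · rw [hc, Nat.cast_zero, div_zero, zero_mul]
    exact hC
  · have hc' : (0 : ℝ) < (S.card : ℝ) := by exact_mod_cast hc
    rw [one_div, inv_mul_le_iff₀ hc']
    calc ∑ m ∈ S, f m ≤ ∑ _m ∈ S, C := Finset.sum_le_sum fun m _ => h1 m
      _ = (S.card : ℝ) * C := by rw [Finset.sum_const, nsmul_eq_mul]

private theorem var_avgc (S : Finset O) (f : O → ℝ) {C : ℝ} (hS : 0 < S.card)
    (h1 : ∀ m ∈ S, f m = C) : (1 / (S.card : ℝ)) * ∑ m ∈ S, f m = C := by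
  have hc' : (S.card : ℝ) ≠ 0 := by exact_mod_cast hS.ne'
  rw [Finset.sum_congr rfl h1, Finset.sum_const, nsmul_eq_mul]
  field_simp

private theorem var_le {n r : ℕ} (d : Fin r → ℕ) (a b w : ℕ) (x y : Vc n O)
    (hle : ∀ i m m', T.sl (d i) a x y m m' ≤ T.n2 (d i) x y a) :
    T.varE d a b w x y ≤ 2 * ∏ i, (T.n2 (d i) x y a : ℝ) := by
  have h0 : ∀ i m m', (0 : ℝ) ≤ (T.sl (d i) a x y m m' : ℝ) := fun i m m' => Nat.cast_nonneg _
  have h1 : ∀ i m m', (T.sl (d i) a x y m m' : ℝ) ≤ (T.n2 (d i) x y a : ℝ) := fun i m m' => by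
    exact_mod_cast hle i m m'
  have hn : ∀ i, (0 : ℝ) ≤ (T.n2 (d i) x y a : ℝ) := fun i => Nat.cast_nonneg _
  rw [var_E]
  have p1 : ∏ i, (T.sl (d i) a x y 0 0 : ℝ) ≤ ∏ i, (T.n2 (d i) x y a : ℝ) :=
    Finset.prod_le_prod (fun i _ => h0 i 0 0) fun i _ => h1 i 0 0
  have p2 : 0 ≤ ∏ i, ((1 / ((T.MS w (a + d i * b)).card : ℝ)) *
          ∑ m ∈ T.MS w (a + d i * b), (T.sl (d i) a x y m 0 : ℝ)) :=
    Finset.prod_nonneg fun i _ => (var_avg _ (fun m => (T.sl (d i) a x y m 0 : ℝ)) (hn i)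
      (fun m => h0 i m 0) fun m => h1 i m 0).1
  have p3 : 0 ≤ ∏ i, ((1 / ((T.MS w (a + d i * b)).card : ℝ)) *
          ∑ m' ∈ T.MS w (a + d i * b), (T.sl (d i) a x y 0 m' : ℝ)) :=
    Finset.prod_nonneg fun i _ => (var_avg _ (fun m' => (T.sl (d i) a x y 0 m' : ℝ)) (hn i)
      (fun m => h0 i 0 m) fun m => h1 i 0 m).1
  have e4 : ∀ i, (1 / ((T.MS w (a + d i * b)).card : ℝ)) *
      ((1 / ((T.MS w (a + d i * b)).card : ℝ)) *
        ∑ m ∈ T.MS w (a + d i * b), ∑ m' ∈ T.MS w (a + d i * b), (T.sl (d i) a x y m m' : ℝ)) =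
      (1 / ((T.MS w (a + d i * b)).card : ℝ)) * ∑ m ∈ T.MS w (a + d i * b),
        ((1 / ((T.MS w (a + d i * b)).card : ℝ)) *
          ∑ m' ∈ T.MS w (a + d i * b), (T.sl (d i) a x y m m' : ℝ)) := by
    intro i
    rw [← Finset.mul_sum]
  have p4 : ∏ i, ((1 / ((T.MS w (a + d i * b)).card : ℝ)) *
      ((1 / ((T.MS w (a + d i * b)).card : ℝ)) *
        ∑ m ∈ T.MS w (a + d i * b), ∑ m' ∈ T.MS w (a + d i * b), (T.sl (d i) a x y m m' : ℝ))) ≤
      ∏ i, (T.n2 (d i) x y a : ℝ) := by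
    have hb : ∀ i, 0 ≤ (1 / ((T.MS w (a + d i * b)).card : ℝ)) *
      ((1 / ((T.MS w (a + d i * b)).card : ℝ)) *
        ∑ m ∈ T.MS w (a + d i * b), ∑ m' ∈ T.MS w (a + d i * b), (T.sl (d i) a x y m m' : ℝ)) ∧
      (1 / ((T.MS w (a + d i * b)).card : ℝ)) *
      ((1 / ((T.MS w (a + d i * b)).card : ℝ)) *
        ∑ m ∈ T.MS w (a + d i * b), ∑ m' ∈ T.MS w (a + d i * b), (T.sl (d i) a x y m m' : ℝ)) ≤
        (T.n2 (d i) x y a : ℝ) := by
      intro i
      rw [e4 i]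
      exact var_avg _ (fun m => (1 / ((T.MS w (a + d i * b)).card : ℝ)) *
          ∑ m' ∈ T.MS w (a + d i * b), (T.sl (d i) a x y m m' : ℝ)) (hn i)
        (fun m => (var_avg _ (fun m' => (T.sl (d i) a x y m m' : ℝ)) (hn i) (fun m' => h0 i m m')
          fun m' => h1 i m m').1)
        (fun m => (var_avg _ (fun m' => (T.sl (d i) a x y m m' : ℝ)) (hn i) (fun m' => h0 i m m')
          fun m' => h1 i m m').2)
    exact Finset.prod_le_prod (fun i _ => (hb i).1) fun i _ => (hb i).2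
  linarith

private theorem var_zero {n r : ℕ} (d : Fin r → ℕ) (a b w : ℕ) (x y : Vc n O)
    (hne : ∀ i, 0 < (T.MS w (a + d i * b)).card) (hz : ∀ i, (0 : O) ∈ T.MS w (a + d i * b))
    (heq : ∀ i, ∀ m ∈ T.MS w (a + d i * b), ∀ m' ∈ T.MS w (a + d i * b),
      T.sl (d i) a x y m m' = T.n2 (d i) x y a) :
    T.varE d a b w x y = 0 := by
  rw [var_E]
  have q1 : ∀ i, (T.sl (d i) a x y 0 0 : ℝ) = (T.n2 (d i) x y a : ℝ) := fun i => by
    exact_mod_cast heq i 0 (hz i) 0 (hz i)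
  have q2 : ∀ i, (1 / ((T.MS w (a + d i * b)).card : ℝ)) *
          ∑ m ∈ T.MS w (a + d i * b), (T.sl (d i) a x y m 0 : ℝ) = (T.n2 (d i) x y a : ℝ) :=
    fun i => var_avgc _ (fun m => (T.sl (d i) a x y m 0 : ℝ)) (hne i) fun m hm => by
      exact_mod_cast heq i m hm 0 (hz i)
  have q3 : ∀ i, (1 / ((T.MS w (a + d i * b)).card : ℝ)) *
          ∑ m' ∈ T.MS w (a + d i * b), (T.sl (d i) a x y 0 m' : ℝ) = (T.n2 (d i) x y a : ℝ) :=
    fun i => var_avgc _ (fun m' => (T.sl (d i) a x y 0 m' : ℝ)) (hne i) fun m hm => by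
      exact_mod_cast heq i 0 (hz i) m hm
  have q4 : ∀ i, (1 / ((T.MS w (a + d i * b)).card : ℝ)) *
      ((1 / ((T.MS w (a + d i * b)).card : ℝ)) *
        ∑ m ∈ T.MS w (a + d i * b), ∑ m' ∈ T.MS w (a + d i * b), (T.sl (d i) a x y m m' : ℝ)) =
        (T.n2 (d i) x y a : ℝ) := by
    intro i
    rw [Finset.mul_sum]
    refine var_avgc _ (fun m => (1 / ((T.MS w (a + d i * b)).card : ℝ)) *
      ∑ m' ∈ T.MS w (a + d i * b), (T.sl (d i) a x y m m' : ℝ)) (hne i) fun m hm => ?_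
    exact var_avgc _ (fun m' => (T.sl (d i) a x y m m' : ℝ)) (hne i) fun m' hm' => by
      exact_mod_cast heq i m hm m' hm'
  simp only [q1, q2, q3, q4]
  ring

/-- The variance: only the proportional and the bad pairs contribute. -/
theorem varBound {n r : ℕ} (d : Fin r → ℕ) (a b g w : ℕ)
    (hz : ∀ c, (0 : O) ∈ T.MS w c)
    (hle : ∀ i, ∀ x ∈ T.GG n b g, ∀ y ∈ T.GG n b g, ∀ m m',
      T.sl (d i) a x y m m' ≤ T.n2 (d i) x y a)
    (heq : ∀ i, ∀ x ∈ T.GG n b g, ∀ y ∈ T.GG n b g, ¬ Prp x y → WD O w ≤ Dd x y →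
      WD P w ≤ Dd (T.vtw b x) (T.vtw b y) →
      ∀ m ∈ T.MS w (a + d i * b), ∀ m' ∈ T.MS w (a + d i * b),
      T.sl (d i) a x y m m' = T.n2 (d i) x y a) :
    T.Qv (n := n) d a b g w ≤ 2 * ∑ x ∈ T.GG n b g,
      ∑ y ∈ (T.GG n b g).filter (fun y => Prp x y ∨
        ¬ (WD O w ≤ Dd x y ∧ WD P w ≤ Dd (T.vtw b x) (T.vtw b y))),
        ∏ i, (T.n2 (d i) x y a : ℝ) := by
  rw [var_expand, Finset.mul_sum]
  refine Finset.sum_le_sum fun x hx => ?_
  rw [Finset.sum_filter, Finset.mul_sum]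
  refine Finset.sum_le_sum fun y hy => ?_
  by_cases h : Prp x y ∨ ¬ (WD O w ≤ Dd x y ∧ WD P w ≤ Dd (T.vtw b x) (T.vtw b y))
  · rw [if_pos h]
    exact T.var_le d a b w x y fun i m m' => hle i x hx y hy m m'
  · rw [if_neg h, mul_zero]
    push Not at h
    refine le_of_eq (T.var_zero d a b w x y (fun i => Finset.card_pos.2 ⟨0, hz _⟩)
      (fun i => hz _) fun i m hm m' hm' => heq i x hx y hy h.1 h.2.1 h.2.2 m hm m' hm')

/-- The variance with an arbitrary set of exceptional pairs. -/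
theorem varBoundG {n r : ℕ} (d : Fin r → ℕ) (a b g w : ℕ) (B : Vc n O → Vc n O → Prop)
    (hz : ∀ c, (0 : O) ∈ T.MS w c)
    (hle : ∀ i, ∀ x ∈ T.GG n b g, ∀ y ∈ T.GG n b g, ∀ m m',
      T.sl (d i) a x y m m' ≤ T.n2 (d i) x y a)
    (heq : ∀ i, ∀ x ∈ T.GG n b g, ∀ y ∈ T.GG n b g, ¬ B x y →
      ∀ m ∈ T.MS w (a + d i * b), ∀ m' ∈ T.MS w (a + d i * b),
      T.sl (d i) a x y m m' = T.n2 (d i) x y a) :
    T.Qv (n := n) d a b g w ≤ 2 * ∑ x ∈ T.GG n b g,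
      ∑ y ∈ (T.GG n b g).filter (fun y => B x y), ∏ i, (T.n2 (d i) x y a : ℝ) := by
  rw [var_expand, Finset.mul_sum]
  refine Finset.sum_le_sum fun x hx => ?_
  rw [Finset.sum_filter, Finset.mul_sum]
  refine Finset.sum_le_sum fun y hy => ?_
  by_cases h : B x y
  · rw [if_pos h]
    exact T.var_le d a b w x y fun i m m' => hle i x hx y hy m m'
  · rw [if_neg h, mul_zero]
    refine le_of_eq (T.var_zero d a b w x y (fun i => Finset.card_pos.2 ⟨0, hz _⟩)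
      (fun i => hz _) fun i m hm m' hm' => heq i x hx y hy h m hm m' hm')

end TC

end Pool.Agent.Lib.MP_1ad228_ntZ
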